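import Pool.Agent.MP_c51823_gt.QB.KTh.ActDef

/-!
# [QBK-AC] The operators `act e` on `K1`

* `exists_act`: `exists_lift` with `φ g = cl (gact e he g)`; `gact e` of `greindex`, `gsum g 1` is a
  reindexing of `gact e g`, `gsum (gact e g) 1`; a homotopy `H` gives `gact (e ∘ pr) H`.
* `act_homotopy`: `actM (e (y,t)) (g y)` is a path in `GF B S`.
-/

set_option autoImplicit false
open Topology

namespace Pool.QB.KTh

variable {Y : Type} [TopologicalSpace Y] {B S : Set Y}
  {m n : Type} [Fintype m] [DecidableEq m] [Fintype n] [DecidableEq n]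

private theorem gact_mul_aux (e : C(Y, Matrix m m ℂ)) (he : ∀ y, e y * e y = e y) {ι : Type}
    [Fintype ι] [DecidableEq ι] (g h : GF B S ι) :
    gact e he (g * h) = gact e he g * gact e he h := by
  refine gf_ext fun y => ?_
  rw [gf_mul]
  change actM (e y) ((g * h).1.1 y) = actM (e y) (g.1.1 y) * actM (e y) (h.1.1 y)
  rw [gf_mul, actM_mul (he y)]

private theorem gact_one_aux (e : C(Y, Matrix m m ℂ)) (he : ∀ y, e y * e y = e y) {ι : Type}
    [Fintype ι] [DecidableEq ι] : gact e he (1 : GF B S ι) = 1 := by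
  refine gf_ext fun y => ?_
  rw [gf_one]
  change actM (e y) ((1 : GF B S ι).1.1 y) = 1
  rw [gf_one, actM_one]

private theorem actM_reindex_aux {ι κ : Type} [Fintype ι] [DecidableEq ι] [Fintype κ]
    [DecidableEq κ] (e : Matrix m m ℂ) (f : ι ≃ κ) (a : Matrix ι ι R) :
    actM e (a.submatrix f.symm f.symm) =
      (actM e a).submatrix ((Equiv.refl m).prodCongr f).symm ((Equiv.refl m).prodCongr f).symm := by
  unfold actM
  rw [← Matrix.submatrix_one_equiv f.symm]
  rfl

private theorem actM_blocks_aux {ι κ : Type} [Fintype ι] [DecidableEq ι] [Fintype κ]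
    [DecidableEq κ] (e : Matrix m m ℂ) (a : Matrix ι ι R) :
    actM e (Matrix.fromBlocks a 0 0 (1 : Matrix κ κ R)) =
      (Matrix.fromBlocks (actM e a) 0 0 (1 : Matrix (m × κ) (m × κ) R)).submatrix
        (Equiv.prodSumDistrib m ι κ) (Equiv.prodSumDistrib m ι κ) := by
  have h1 := actM_one (ι := κ) e
  ext1 p q
  obtain ⟨a', i⟩ := p
  obtain ⟨b', j⟩ := q
  rcases i with i | i <;> rcases j with j | j
  · simp [actM, kr, Matrix.one_apply]
  · simp [actM, kr, Matrix.one_apply]
  · simp [actM, kr, Matrix.one_apply]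
  · rw [Matrix.submatrix_apply, Equiv.prodSumDistrib_apply_right,
      Equiv.prodSumDistrib_apply_right, Matrix.fromBlocks_apply₂₂, ← h1]
    simp [actM, kr, Matrix.one_apply]

theorem exists_act (B S : Set Y) (e : C(Y, Matrix m m ℂ)) (he : ∀ y, e y * e y = e y) :
    ∃ F : K1 B S →+ K1 B S, ∀ (ι : Type) [Fintype ι] [DecidableEq ι] (g : GF B S ι),
      F (cl g) = cl (gact e he g) := by
  refine exists_lift (fun ι _ _ g => cl (gact e he g)) ?_ ?_ ?_ ?_
  · intro ι _ _ g h
    rw [gact_mul_aux, cl_mul]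
  · intro ι κ _ _ _ _ f g
    have h1 : gact e he (greindex f g) =
        greindex ((Equiv.refl m).prodCongr f) (gact e he g) :=
      gf_ext fun y => actM_reindex_aux (e y) f (g.1.1 y)
    rw [h1, cl_greindex]
  · intro ι κ _ _ _ _ g
    have h1 : gact e he (gsum g (1 : GF B S κ)) =
        greindex (Equiv.prodSumDistrib m ι κ).symm
          (gsum (gact e he g) (1 : GF B S (m × κ))) :=
      gf_ext fun y => actM_blocks_aux (e y) (g.1.1 y)
    rw [h1, cl_greindex, cl_gsum_one]
  · intro ι _ _ H hH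
    let E : C(Y × I, Matrix m m ℂ) := e.comp (prMap Y)
    have hE : ∀ p, E p * E p = E p := fun p => he p.1
    have h1 : ∀ t, ev t (gact E hE H) = gact e he (ev t H) := fun t => gf_ext fun y => rfl
    have h2 := cl_homotopy (gact E hE H)
    rw [h1, h1, hH, gact_one_aux, cl_one] at h2
    exact h2.symm

/-- Tensoring with the idempotent `e`. -/
noncomputable def act (e : C(Y, Matrix m m ℂ)) (he : ∀ y, e y * e y = e y) : K1 B S →+ K1 B S :=
  (exists_act B S e he).choose

theorem act_cl (e : C(Y, Matrix m m ℂ)) (he : ∀ y, e y * e y = e y) {ι : Type} [Fintype ι]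
    [DecidableEq ι] (g : GF B S ι) : act e he (cl g) = cl (gact e he g) :=
  (exists_act B S e he).choose_spec ι g

theorem act_nat {Y' : Type} [TopologicalSpace Y'] {B' S' : Set Y'} (f : C(Y, Y'))
    (hB : Set.MapsTo f B B') (hS : Set.MapsTo f S S') (e : C(Y', Matrix m m ℂ))
    (he : ∀ y, e y * e y = e y) (e' : C(Y, Matrix m m ℂ)) (he' : ∀ y, e' y * e' y = e' y)
    (hee : ∀ y, e' y = e (f y)) (x : K1 B' S') :
    kmap f hB hS (act e he x) = act e' he' (kmap f hB hS x) := by
  obtain ⟨n, g, rfl⟩ := exists_cl x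
  rw [act_cl, kmap_cl, kmap_cl, act_cl]
  congr 1
  refine gf_ext fun y => ?_
  change actM (e (f y)) (g.1.1 (f y)) = actM (e' y) (g.1.1 (f y))
  rw [hee]

theorem act_homotopy (E : C(Y × I, Matrix m m ℂ)) (hE : ∀ p, E p * E p = E p)
    (e : C(Y, Matrix m m ℂ)) (he : ∀ y, e y * e y = e y) (e' : C(Y, Matrix m m ℂ))
    (he' : ∀ y, e' y * e' y = e' y) (h0 : ∀ y, E (y, 0) = e y) (h1 : ∀ y, E (y, 1) = e' y)
    (x : K1 B S) : act e he x = act e' he' x := by
  obtain ⟨n, g, rfl⟩ := exists_cl x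
  rw [act_cl, act_cl]
  let G : GF (cyl B) (cyl S) (Fin n) := pull (prMap Y) (fun _ h => h) (fun _ h => h) (Fin n) g
  have h2 : ev 0 (gact E hE G) = gact e he g := by
    refine gf_ext fun y => ?_
    change actM (E (y, 0)) (g.1.1 y) = actM (e y) (g.1.1 y)
    rw [h0]
  have h3 : ev 1 (gact E hE G) = gact e' he' g := by
    refine gf_ext fun y => ?_
    change actM (E (y, 1)) (g.1.1 y) = actM (e' y) (g.1.1 y)
    rw [h1]
  rw [← h2, ← h3]
  exact cl_homotopy _

end Pool.QB.KTh
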