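import Pool.Agent.MP_c51823_gt.QB.KTh.Act

/-!
# [QBK-AD] Equivalent idempotents, trivial and tensor product idempotents

* `act_equiv`: replace `T` by `T₁ = e T f`, `T'` by `T₁' = f T' e` (still `T₁ T₁' = e`, `T₁' T₁ = f`, as
  `e T = T T' T = T f`); `U = [[1 - e, T₁], [T₁', 1 - f]]` (on `m ⊕ n`) satisfies `U U = 1` and
  `U (e ⊕ 0) U = 0 ⊕ f`. So `(U ⊗ 1_ι) (gact e g ⊕ 1) (U ⊗ 1_ι) = 1 ⊕ gact f g` (reindex
  `(m ⊕ n) × ι ≃ (m × ι) ⊕ (n × ι)`, `Equiv.sumProdDistrib`), `U ⊗ 1_ι` is scalar everywhere: `cl_gconj`.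
* `act_triv`: `act_equiv` for `f = 1 ∈ M_{Unit}`; `gact 1 g` is a reindexing of `g`.
* `act_tensor`: `e ⊗ (f ⊗ a + (1-f) ⊗ 1) + (1-e) ⊗ 1 = (e ⊗ f) ⊗ a + (1 - e ⊗ f) ⊗ 1`, reindexed by
  `Equiv.prodAssoc`.
-/

set_option autoImplicit false
open Topology

namespace Pool.QB.KTh

variable {Y : Type} [TopologicalSpace Y] {B S : Set Y}
  {m n : Type} [Fintype m] [DecidableEq m] [Fintype n] [DecidableEq n]

namespace Act2_aux

/-- `[[1 - e, T], [T', 1 - f]] ⊗ 1` -/
noncomputable def uM (ι : Type) [DecidableEq ι] (e : Matrix m m ℂ) (f : Matrix n n ℂ)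
    (T : Matrix m n ℂ) (T' : Matrix n m ℂ) : Matrix ((m × ι) ⊕ (n × ι)) ((m × ι) ⊕ (n × ι)) R :=
  Matrix.fromBlocks (kr (1 - e) 1) (kr T 1) (kr T' 1) (kr (1 - f) 1)

theorem uM_mem_sc (ι : Type) [Fintype ι] [DecidableEq ι] (e : Matrix m m ℂ) (f : Matrix n n ℂ)
    (T : Matrix m n ℂ) (T' : Matrix n m ℂ) : uM ι e f T T' ∈ sc ((m × ι) ⊕ (n × ι)) := by
  refine ⟨Matrix.fromBlocks (Matrix.of fun p q => (1 - e) p.1 q.1 * (1 : Matrix ι ι ℂ) p.2 q.2)
    (Matrix.of fun p q => T p.1 q.1 * (1 : Matrix ι ι ℂ) p.2 q.2)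
    (Matrix.of fun p q => T' p.1 q.1 * (1 : Matrix ι ι ℂ) p.2 q.2)
    (Matrix.of fun p q => (1 - f) p.1 q.1 * (1 : Matrix ι ι ℂ) p.2 q.2), ?_⟩
  ext1 p q
  rcases p with p | p <;> rcases q with q | q <;> by_cases h : p.2 = q.2 <;>
    simp [uM, kr, Algebra.ofId_apply, Algebra.algebraMap_eq_smul_one, Matrix.one_apply, h]

theorem uM_mul (ι : Type) [Fintype ι] [DecidableEq ι] {e : Matrix m m ℂ} {f : Matrix n n ℂ}
    {T : Matrix m n ℂ} {T' : Matrix n m ℂ} (he : e * e = e) (hf : f * f = f)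
    (h1 : T * T' = e) (h2 : T' * T = f) (h3 : e * T = T) (h4 : T * f = T) (h5 : f * T' = T')
    (h6 : T' * e = T') : uM ι e f T T' * uM ι e f T T' = 1 := by
  unfold uM
  rw [Matrix.fromBlocks_multiply]
  simp only [kr_mul, mul_one]
  have a1 : (1 - e) * (1 - e) = 1 - e := by
    rw [mul_sub, mul_one, sub_mul, one_mul, he, sub_self, sub_zero]
  have a2 : (1 - f) * (1 - f) = 1 - f := by
    rw [mul_sub, mul_one, sub_mul, one_mul, hf, sub_self, sub_zero]
  have a3 : (1 - e) * T = 0 := by rw [Matrix.sub_mul, Matrix.one_mul, h3, sub_self]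
  have a4 : T * (1 - f) = 0 := by rw [Matrix.mul_sub, Matrix.mul_one, h4, sub_self]
  have a5 : (1 - f) * T' = 0 := by rw [Matrix.sub_mul, Matrix.one_mul, h5, sub_self]
  have a6 : T' * (1 - e) = 0 := by rw [Matrix.mul_sub, Matrix.mul_one, h6, sub_self]
  rw [a1, a2, a3, a4, a5, a6, h1, h2, kr_zero_left, kr_zero_left, add_zero, add_zero,
    ← kr_add_left, ← kr_add_left, sub_add_cancel, add_sub_cancel, kr_one, kr_one,
    Matrix.fromBlocks_one]

theorem uM_conj (ι : Type) [Fintype ι] [DecidableEq ι] {e : Matrix m m ℂ} {f : Matrix n n ℂ}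
    {T : Matrix m n ℂ} {T' : Matrix n m ℂ} (he : e * e = e) (hf : f * f = f)
    (h1 : T * T' = e) (h2 : T' * T = f) (h3 : e * T = T) (h4 : T * f = T) (h5 : f * T' = T')
    (h6 : T' * e = T') (a : Matrix ι ι R) :
    uM ι e f T T' * Matrix.fromBlocks (actM e a) 0 0 1 * uM ι e f T T' =
      Matrix.fromBlocks 1 0 0 (actM f a) := by
  have a1 : (1 - e) * (1 - e) = 1 - e := by
    rw [mul_sub, mul_one, sub_mul, one_mul, he, sub_self, sub_zero]
  have a2 : (1 - f) * (1 - f) = 1 - f := by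
    rw [mul_sub, mul_one, sub_mul, one_mul, hf, sub_self, sub_zero]
  have a3 : (1 - e) * T = 0 := by rw [Matrix.sub_mul, Matrix.one_mul, h3, sub_self]
  have a4 : T * (1 - f) = 0 := by rw [Matrix.mul_sub, Matrix.mul_one, h4, sub_self]
  have a5 : (1 - f) * T' = 0 := by rw [Matrix.sub_mul, Matrix.one_mul, h5, sub_self]
  have a6 : T' * (1 - e) = 0 := by rw [Matrix.mul_sub, Matrix.mul_one, h6, sub_self]
  have a7 : (1 - e) * e = 0 := by rw [sub_mul, one_mul, he, sub_self]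
  unfold uM actM
  rw [Matrix.fromBlocks_multiply, Matrix.fromBlocks_multiply]
  simp only [Matrix.mul_add, kr_mul, mul_one, one_mul, Matrix.mul_zero, Matrix.mul_one, add_zero,
    zero_add, a1, a2, a3, a4, a5, a6, a7, h1, h2, h6, kr_zero_left]
  rw [← kr_add_left, sub_add_cancel, kr_one]

/-- the function `uM` -/
noncomputable def uFn (ι : Type) [Fintype ι] [DecidableEq ι] (e : C(Y, Matrix m m ℂ))
    (f : C(Y, Matrix n n ℂ)) (T : C(Y, Matrix m n ℂ)) (T' : C(Y, Matrix n m ℂ)) :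
    C(Y, Matrix ((m × ι) ⊕ (n × ι)) ((m × ι) ⊕ (n × ι)) R) :=
  ⟨fun y => uM ι (e y) (f y) (e y * T y * f y) (f y * T' y * e y), by
    have hk : ∀ {k l : Type} (M : Y → Matrix k l ℂ), Continuous M →
        Continuous fun y => kr (M y) (1 : Matrix ι ι R) := by
      intro k l M hM
      exact continuous_matrix fun p q => (hM.matrix_elem p.1 q.1).smul continuous_const
    unfold uM
    refine Continuous.matrix_fromBlocks (hk _ ?_) (hk _ ?_) (hk _ ?_) (hk _ ?_)
    · exact continuous_const.sub e.continuous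
    · exact (e.continuous.matrix_mul T.continuous).matrix_mul f.continuous
    · exact (f.continuous.matrix_mul T'.continuous).matrix_mul e.continuous
    · exact continuous_const.sub f.continuous⟩

end Act2_aux

open Act2_aux

theorem act_equiv (e : C(Y, Matrix m m ℂ)) (he : ∀ y, e y * e y = e y) (f : C(Y, Matrix n n ℂ))
    (hf : ∀ y, f y * f y = f y) (T : C(Y, Matrix m n ℂ)) (T' : C(Y, Matrix n m ℂ))
    (h1 : ∀ y, T y * T' y = e y) (h2 : ∀ y, T' y * T y = f y) (x : K1 B S) :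
    act e he x = act f hf x := by
  obtain ⟨N, g, rfl⟩ := exists_cl x
  rw [act_cl, act_cl]
  -- the modified partial isometries
  have b1 : ∀ y, (e y * T y * f y) * (f y * T' y * e y) = e y := by
    intro y
    have : (e y * T y * f y) * (f y * T' y * e y) = e y * (T y * T' y) * (T y * T' y) * e y := by
      rw [← h2 y]
      have h3 : T' y * T y * (T' y * T y) = T' y * T y := by rw [h2, hf]
      calc e y * T y * (T' y * T y) * (T' y * T y * T' y * e y)
          = e y * T y * (T' y * T y * (T' y * T y)) * T' y * e y := by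
            simp only [Matrix.mul_assoc]
        _ = e y * (T y * T' y) * (T y * T' y) * e y := by
            rw [h3]
            simp only [Matrix.mul_assoc]
    rw [this, h1, he, he, he]
  have b2 : ∀ y, (f y * T' y * e y) * (e y * T y * f y) = f y := by
    intro y
    have : (f y * T' y * e y) * (e y * T y * f y) = f y * (T' y * T y) * (T' y * T y) * f y := by
      rw [← h1 y]
      have h3 : T y * T' y * (T y * T' y) = T y * T' y := by rw [h1, he]
      calc f y * T' y * (T y * T' y) * (T y * T' y * T y * f y)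
          = f y * T' y * (T y * T' y * (T y * T' y)) * T y * f y := by
            simp only [Matrix.mul_assoc]
        _ = f y * (T' y * T y) * (T' y * T y) * f y := by
            rw [h3]
            simp only [Matrix.mul_assoc]
    rw [this, h2, hf, hf, hf]
  have b3 : ∀ y, e y * (e y * T y * f y) = e y * T y * f y := by
    intro y
    rw [← Matrix.mul_assoc, ← Matrix.mul_assoc, he]
  have b4 : ∀ y, e y * T y * f y * f y = e y * T y * f y := by
    intro y
    rw [Matrix.mul_assoc, hf]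
  have b5 : ∀ y, f y * (f y * T' y * e y) = f y * T' y * e y := by
    intro y
    rw [← Matrix.mul_assoc, ← Matrix.mul_assoc, hf]
  have b6 : ∀ y, f y * T' y * e y * e y = f y * T' y * e y := by
    intro y
    rw [Matrix.mul_assoc, he]
  have hU : uFn (Fin N) e f T T' * uFn (Fin N) e f T T' = 1 := by
    ext1 y
    exact uM_mul (Fin N) (he y) (hf y) (b1 y) (b2 y) (b3 y) (b4 y) (b5 y) (b6 y)
  let P : GF (∅ : Set Y) S ((m × Fin N) ⊕ (n × Fin N)) :=
    ⟨⟨uFn (Fin N) e f T T', uFn (Fin N) e f T T', hU, hU⟩, fun y hy => hy.elim,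
      fun y _ => ⟨uM_mem_sc _ _ _ _ _, uM_mem_sc _ _ _ _ _⟩⟩
  have hconj : gconj P (gsum (gact e he g) (1 : GF B S (n × Fin N))) =
      gsum (1 : GF B S (m × Fin N)) (gact f hf g) := by
    apply Subtype.ext
    apply Units.ext
    ext1 y
    exact uM_conj (Fin N) (he y) (hf y) (b1 y) (b2 y) (b3 y) (b4 y) (b5 y) (b6 y) (g.1.1 y)
  rw [← cl_gsum_one (κ := n × Fin N) (gact e he g), ← cl_gconj P, hconj, cl_gsum, cl_one, zero_add]

theorem act_triv (e : C(Y, Matrix m m ℂ)) (he : ∀ y, e y * e y = e y) (T : C(Y, Matrix m Unit ℂ))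
    (T' : C(Y, Matrix Unit m ℂ)) (h1 : ∀ y, T y * T' y = e y) (h2 : ∀ y, T' y * T y = 1)
    (x : K1 B S) : act e he x = x := by
  have he1 : ∀ y, (1 : C(Y, Matrix Unit Unit ℂ)) y * (1 : C(Y, Matrix Unit Unit ℂ)) y =
      (1 : C(Y, Matrix Unit Unit ℂ)) y := fun y => by simp
  rw [act_equiv e he (1 : C(Y, Matrix Unit Unit ℂ)) he1 T T' h1 h2]
  obtain ⟨N, g, rfl⟩ := exists_cl x
  rw [act_cl]
  have h : gact (1 : C(Y, Matrix Unit Unit ℂ)) he1 g =
      greindex (Equiv.punitProd (Fin N)).symm g := by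
    apply Subtype.ext
    apply Units.ext
    ext1 y
    change actM (1 : Matrix Unit Unit ℂ) (g.1.1 y) = (g.1.1 y).submatrix _ _
    ext1 p q
    simp [actM, kr]
  rw [h, cl_greindex]

theorem act_tensor (e : C(Y, Matrix m m ℂ)) (he : ∀ y, e y * e y = e y) (f : C(Y, Matrix n n ℂ))
    (hf : ∀ y, f y * f y = f y) (k : C(Y, Matrix (m × n) (m × n) ℂ))
    (hk : ∀ y, k y * k y = k y) (hkk : ∀ y p q, k y p q = e y p.1 q.1 * f y p.2 q.2) (x : K1 B S) :
    act k hk x = act e he (act f hf x) := by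
  obtain ⟨N, g, rfl⟩ := exists_cl x
  rw [act_cl, act_cl, act_cl, ← cl_greindex (Equiv.prodAssoc m n (Fin N))]
  congr 1
  apply Subtype.ext
  apply Units.ext
  ext1 y
  change (actM (k y) (g.1.1 y)).submatrix _ _ = actM (e y) (actM (f y) (g.1.1 y))
  ext1 p q
  obtain ⟨p1, p2, p3⟩ := p
  obtain ⟨q1, q2, q3⟩ := q
  simp only [actM, kr, Matrix.submatrix_apply, Matrix.add_apply, Matrix.of_apply,
    Equiv.prodAssoc_symm_apply, Matrix.sub_apply, hkk, Matrix.one_apply, Prod.mk.injEq]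
  by_cases c1 : p1 = q1 <;> by_cases c2 : p2 = q2 <;> by_cases c3 : p3 = q3 <;>
    simp [c1, c2, c3, smul_add, smul_sub, smul_smul, sub_smul]
  · abel
  · abel

end Pool.QB.KTh
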