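import Pool.Agent.MP_c51823_gt.QB.KTh.KMap

/-!
# [QBK] Tensoring with (the range of) an idempotent: definitions

For an idempotent `e ∈ M_m(ℂ)` and `a ∈ M_ι(R)` let `actM e a = e ⊗ a + (1 - e) ⊗ 1 ∈ M_{m × ι}(R)`.
-/

set_option autoImplicit false
open Topology

namespace Pool.QB.KTh

noncomputable section

/-- `e ⊗ a`. -/
def kr {m n ι κ : Type} (e : Matrix m n ℂ) (a : Matrix ι κ R) : Matrix (m × ι) (n × κ) R :=
  Matrix.of fun p q => e p.1 q.1 • a p.2 q.2

theorem kr_mul {m n k ι κ μ : Type} [Fintype n] [Fintype κ]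
    (e : Matrix m n ℂ) (f : Matrix n k ℂ) (a : Matrix ι κ R) (b : Matrix κ μ R) :
    kr e a * kr f b = kr (e * f) (a * b) := by
  ext1 p q
  simp only [kr, Matrix.mul_apply, Matrix.of_apply, Fintype.sum_prod_type, Finset.sum_smul_sum,
    smul_mul_smul_comm]

theorem kr_one {m ι : Type} [Fintype m] [DecidableEq m] [Fintype ι] [DecidableEq ι] :
    kr (1 : Matrix m m ℂ) (1 : Matrix ι ι R) = 1 := by
  ext1 p q
  simp only [kr, Matrix.of_apply, Matrix.one_apply, ite_smul, one_smul, zero_smul]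
  by_cases h1 : p.1 = q.1 <;> by_cases h2 : p.2 = q.2 <;> simp [h1, h2, Prod.ext_iff]

theorem kr_add_left {m n ι κ : Type} (e f : Matrix m n ℂ) (a : Matrix ι κ R) :
    kr (e + f) a = kr e a + kr f a := by
  ext1 p q
  simp [kr, add_smul]

theorem kr_sub_left {m n ι κ : Type} (e f : Matrix m n ℂ) (a : Matrix ι κ R) :
    kr (e - f) a = kr e a - kr f a := by
  ext1 p q
  simp [kr, sub_smul]

theorem kr_add_right {m n ι κ : Type} (e : Matrix m n ℂ) (a b : Matrix ι κ R) :
    kr e (a + b) = kr e a + kr e b := by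
  ext1 p q
  simp [kr, smul_add]

theorem kr_zero_left {m n ι κ : Type} (a : Matrix ι κ R) :
    kr (0 : Matrix m n ℂ) a = 0 := by
  ext1 p q
  simp [kr]

theorem kr_mem_sc {m ι : Type} [Fintype m] [DecidableEq m] [Fintype ι] [DecidableEq ι]
    (e : Matrix m m ℂ) {a : Matrix ι ι R} (ha : a ∈ sc ι) : kr e a ∈ sc (m × ι) := by
  obtain ⟨n, rfl⟩ := ha
  refine ⟨Matrix.of fun p q => e p.1 q.1 * n p.2 q.2, ?_⟩
  ext p q i j
  simp [kr, Algebra.ofId_apply, Algebra.algebraMap_eq_smul_one, mul_assoc]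

/-- `e ⊗ a + (1 - e) ⊗ 1`. -/
def actM {m ι : Type} [Fintype m] [DecidableEq m] [Fintype ι] [DecidableEq ι] (e : Matrix m m ℂ)
    (a : Matrix ι ι R) : Matrix (m × ι) (m × ι) R := kr e a + kr (1 - e) 1

theorem actM_mul {m ι : Type} [Fintype m] [DecidableEq m] [Fintype ι] [DecidableEq ι]
    {e : Matrix m m ℂ} (he : e * e = e) (a b : Matrix ι ι R) :
    actM e a * actM e b = actM e (a * b) := by
  have h1 : e * (1 - e) = 0 := by rw [mul_sub, mul_one, he, sub_self]
  have h2 : (1 - e) * e = 0 := by rw [sub_mul, one_mul, he, sub_self]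
  have h3 : (1 - e) * (1 - e) = 1 - e := by rw [mul_sub, mul_one, h2, sub_zero]
  unfold actM
  rw [add_mul, mul_add, mul_add, kr_mul, kr_mul, kr_mul, kr_mul, he, h1, h2, h3, kr_zero_left,
    kr_zero_left, mul_one, add_zero, zero_add]

theorem actM_one {m ι : Type} [Fintype m] [DecidableEq m] [Fintype ι] [DecidableEq ι]
    (e : Matrix m m ℂ) : actM e (1 : Matrix ι ι R) = 1 := by
  unfold actM
  rw [← kr_add_left, add_sub_cancel, kr_one]

theorem actM_mem_sc {m ι : Type} [Fintype m] [DecidableEq m] [Fintype ι] [DecidableEq ι]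
    (e : Matrix m m ℂ) {a : Matrix ι ι R} (ha : a ∈ sc ι) : actM e a ∈ sc (m × ι) :=
  add_mem (kr_mem_sc e ha) (kr_mem_sc _ (one_mem _))

variable {Y : Type} [TopologicalSpace Y]

/-- `actM` as a function of `y`. -/
def actFn {m ι : Type} [Fintype m] [DecidableEq m] [Fintype ι] [DecidableEq ι]
    (e : C(Y, Matrix m m ℂ)) (g : C(Y, Matrix ι ι R)) : C(Y, Matrix (m × ι) (m × ι) R) :=
  ⟨fun y => actM (e y) (g y), by
    have h1 : ∀ i j, Continuous fun y => e y i j := fun i j => e.continuous.matrix_elem i j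
    have h2 : ∀ i j, Continuous fun y => g y i j := fun i j => g.continuous.matrix_elem i j
    unfold actM
    refine Continuous.add ?_ ?_
    · exact continuous_matrix fun p q => (h1 p.1 q.1).smul (h2 p.2 q.2)
    · refine continuous_matrix fun p q => Continuous.smul ?_ continuous_const
      exact (continuous_const (y := (1 : Matrix m m ℂ) p.1 q.1)).sub (h1 p.1 q.1)⟩

/-- Tensoring an admissible invertible function with the idempotent `e`. -/
def gact {B S : Set Y} {m ι : Type} [Fintype m] [DecidableEq m] [Fintype ι] [DecidableEq ι]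
    (e : C(Y, Matrix m m ℂ)) (he : ∀ y, e y * e y = e y) (g : GF B S ι) : GF B S (m × ι) :=
  ⟨⟨actFn e g.1.1, actFn e (g.1⁻¹).1, by
      ext1 y
      change actM (e y) (g.1.1 y) * actM (e y) ((g.1⁻¹).1 y) = 1
      have h2 : g.1.1 * (g.1⁻¹).1 = 1 := by rw [← Units.val_mul]; simp
      rw [actM_mul (he y), show g.1.1 y * (g.1⁻¹).1 y = 1 from
        congrArg (fun f : C(Y, Matrix ι ι R) => f y) h2, actM_one], by
      ext1 y
      change actM (e y) ((g.1⁻¹).1 y) * actM (e y) (g.1.1 y) = 1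
      have h2 : (g.1⁻¹).1 * g.1.1 = 1 := by rw [← Units.val_mul]; simp
      rw [actM_mul (he y), show (g.1⁻¹).1 y * g.1.1 y = 1 from
        congrArg (fun f : C(Y, Matrix ι ι R) => f y) h2, actM_one]⟩,
    fun y hy => by
      change actM (e y) (g.1.1 y) = 1
      rw [g.2.1 y hy, actM_one],
    fun y hy => ⟨actM_mem_sc _ (g.2.2 y hy).1, actM_mem_sc _ (g.2.2 y hy).2⟩⟩

/-- The relative version: if `e = e'` on `Br ∖ B` then `(e·g) (e'·g)⁻¹` is `1` on `Br`. -/
def grel {B S Br : Set Y} {m ι : Type} [Fintype m] [DecidableEq m] [Fintype ι] [DecidableEq ι]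
    (e e' : C(Y, Matrix m m ℂ)) (he : ∀ y, e y * e y = e y) (he' : ∀ y, e' y * e' y = e' y)
    (hr : ∀ y ∈ Br, y ∈ B ∨ e y = e' y) (g : GF B S ι) : GF Br S (m × ι) :=
  ⟨(gact e he g).1 * (gact e' he' g).1⁻¹, fun y hy => by
      change actM (e y) (g.1.1 y) * actM (e' y) ((g.1⁻¹).1 y) = 1
      have h2 : g.1.1 * (g.1⁻¹).1 = 1 := by rw [← Units.val_mul]; simp
      have h3 : g.1.1 y * (g.1⁻¹).1 y = 1 := congrArg (fun f : C(Y, Matrix ι ι R) => f y) h2
      rcases hr y hy with h | h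
      · have h4 := g.2.1 y h
        rw [h4, one_mul] at h3
        rw [h4, h3, actM_one, actM_one, mul_one]
      · rw [h, actM_mul (he' y), h3, actM_one],
    ((gact e he g) * (gact e' he' g)⁻¹).2.2⟩

/-- A projection onto a line. -/
def IsLine {m : Type} [Fintype m] (e : Matrix m m ℂ) : Prop :=
  ∃ v : m → ℂ, ∑ i, v i * (starRingEnd ℂ) (v i) = 1 ∧ ∀ i j, e i j = v i * (starRingEnd ℂ) (v j)

theorem IsLine.idem {m : Type} [Fintype m] {e : Matrix m m ℂ} (h : IsLine e) : e * e = e := by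
  obtain ⟨v, h1, h2⟩ := h
  ext i j
  rw [Matrix.mul_apply, h2]
  have h3 : ∀ k, e i k * e k j = v i * (v k * (starRingEnd ℂ) (v k)) * (starRingEnd ℂ) (v j) := by
    intro k
    rw [h2, h2]
    ring
  rw [Finset.sum_congr rfl fun k _ => h3 k, ← Finset.sum_mul, ← Finset.mul_sum, h1, mul_one]

end

end Pool.QB.KTh
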