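import Pool.Agent.MP_c51823_gt.QB.KTh.Grp

/-!
# [QBK-A] The interface of `K1`
-/

set_option autoImplicit false
open Topology

namespace Pool.QB.KTh

variable {Y : Type} [TopologicalSpace Y]

noncomputable instance k1Grp (B S : Set Y) : AddCommGroup (K1 B S) := (exists_grp B S).choose

variable {B S : Set Y}
  {ι κ μ : Type} [Fintype ι] [DecidableEq ι] [Fintype κ] [DecidableEq κ] [Fintype μ] [DecidableEq μ]

namespace Api_aux

theorem greindex_gsum {ι' κ' : Type} [Fintype ι'] [DecidableEq ι'] [Fintype κ'] [DecidableEq κ']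
    (e : ι ≃ ι') (f : κ ≃ κ') (g : GF B S ι) (h : GF B S κ) :
    greindex (Equiv.sumCongr e f) (gsum g h) = gsum (greindex e g) (greindex f h) := by
  apply gf_ext
  intro y
  change (Matrix.fromBlocks (g.1.1 y) 0 0 (h.1.1 y)).submatrix (Equiv.sumCongr e f).symm
    (Equiv.sumCongr e f).symm = Matrix.fromBlocks ((g.1.1 y).submatrix e.symm e.symm) 0 0
      ((h.1.1 y).submatrix f.symm f.symm)
  ext i j : 2
  rcases i with i | i <;> rcases j with j | j <;> rfl

theorem greindex_assoc (a : GF B S ι) (b : GF B S κ) (c : GF B S μ) :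
    greindex (Equiv.sumAssoc ι κ μ) (gsum (gsum a b) c) = gsum a (gsum b c) := by
  apply gf_ext
  intro y
  change (Matrix.fromBlocks (Matrix.fromBlocks (a.1.1 y) 0 0 (b.1.1 y)) 0 0 (c.1.1 y)).submatrix
    (Equiv.sumAssoc ι κ μ).symm (Equiv.sumAssoc ι κ μ).symm =
      Matrix.fromBlocks (a.1.1 y) 0 0 (Matrix.fromBlocks (b.1.1 y) 0 0 (c.1.1 y))
  ext i j : 2
  rcases i with i | i | i <;> rcases j with j | j | j <;> rfl

theorem greindex_comm (a : GF B S ι) (b : GF B S κ) :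
    greindex (Equiv.sumComm ι κ) (gsum a b) = gsum b a := by
  apply gf_ext
  intro y
  change (Matrix.fromBlocks (a.1.1 y) 0 0 (b.1.1 y)).submatrix
    (Equiv.sumComm ι κ).symm (Equiv.sumComm ι κ).symm =
      Matrix.fromBlocks (b.1.1 y) 0 0 (a.1.1 y)
  ext i j : 2
  rcases i with i | i <;> rcases j with j | j <;> rfl

theorem gsum_eq (g : GF B S ι) (h : GF B S κ) :
    gsum g h = gsum g (1 : GF B S κ) * gsum (1 : GF B S ι) h := by
  rw [← gsum_mul, mul_one, one_mul]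

theorem greindex_refl (g : GF B S ι) : greindex (Equiv.refl ι) g = g := by
  apply gf_ext
  intro y
  rfl

end Api_aux

open Api_aux

theorem cl_mul (g h : GF B S ι) : cl (g * h) = cl g + cl h :=
  (exists_grp B S).choose_spec ι g h

theorem cl_one : cl (1 : GF B S ι) = 0 := by
  have h := cl_mul (1 : GF B S ι) 1
  rw [mul_one] at h
  exact left_eq_add.1 h

theorem cl_inv (g : GF B S ι) : cl g⁻¹ = -cl g := by
  have h := cl_mul g⁻¹ g
  rw [inv_mul_cancel, cl_one] at h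
  exact eq_neg_of_add_eq_zero_left h.symm

/-- (`cl_eq_cl` for `h = 1`) -/
theorem cl_eq_zero (g : GF B S ι) : cl g = 0 ↔ Nul g := by
  rw [← cl_one (B := B) (S := S) (ι := Fin 0), cl_eq_cl, inv_one, nul_gsum_one]

theorem cl_greindex (e : ι ≃ κ) (g : GF B S ι) : cl (greindex e g) = cl g := by
  rw [cl_eq_cl]
  have h := greindex_gsum e (Equiv.refl ι) g g⁻¹
  rw [greindex_refl] at h
  rw [← h, nul_greindex]
  exact nul_gsum_inv g

theorem cl_gsum_one (g : GF B S ι) : cl (gsum g (1 : GF B S κ)) = cl g := by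
  rw [cl_eq_cl, nul_gsum_comm, ← greindex_assoc, nul_greindex, nul_gsum_one]
  have h := nul_gsum_inv g⁻¹
  rwa [inv_inv] at h

theorem cl_gsum (g : GF B S ι) (h : GF B S κ) : cl (gsum g h) = cl g + cl h := by
  rw [gsum_eq, cl_mul, cl_gsum_one]
  congr 1
  rw [← greindex_comm, cl_greindex, cl_gsum_one]

theorem cl_homotopy (H : GF (cyl B) (cyl S) ι) : cl (ev 0 H) = cl (ev 1 H) := by
  rw [cl_eq_cl, nul_gsum_iff]
  have h := nul_inv (nul_homotopy H)
  rwa [mul_inv_rev, inv_inv] at h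

theorem cl_gconj (P : GF (∅ : Set Y) S ι) (g : GF B S ι) : cl (gconj P g) = cl g := by
  rw [cl_eq_cl, nul_gsum_iff]
  exact nul_gconj P g

/-- Universal property: homomorphisms out of `K1`. -/
theorem exists_lift {A : Type} [AddCommGroup A]
    (φ : ∀ (ι : Type) [Fintype ι] [DecidableEq ι], GF B S ι → A)
    (hmul : ∀ (ι : Type) [Fintype ι] [DecidableEq ι] (g h : GF B S ι), φ ι (g * h) = φ ι g + φ ι h)
    (hre : ∀ (ι κ : Type) [Fintype ι] [DecidableEq ι] [Fintype κ] [DecidableEq κ] (e : ι ≃ κ)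
      (g : GF B S ι), φ κ (greindex e g) = φ ι g)
    (hst : ∀ (ι κ : Type) [Fintype ι] [DecidableEq ι] [Fintype κ] [DecidableEq κ]
      (g : GF B S ι), φ (ι ⊕ κ) (gsum g 1) = φ ι g)
    (hht : ∀ (ι : Type) [Fintype ι] [DecidableEq ι] (H : GF (cyl B) (cyl S) ι), ev 0 H = 1 →
      φ ι (ev 1 H) = 0) :
    ∃ F : K1 B S →+ A, ∀ (ι : Type) [Fintype ι] [DecidableEq ι] (g : GF B S ι), F (cl g) = φ ι g := by
  have hone : ∀ (ι : Type) [Fintype ι] [DecidableEq ι], φ ι (1 : GF B S ι) = 0 := by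
    intro ι _ _
    have h := hmul ι 1 1
    rw [mul_one] at h
    exact left_eq_add.1 h
  have hinv : ∀ (ι : Type) [Fintype ι] [DecidableEq ι] (g : GF B S ι), φ ι g⁻¹ = -φ ι g := by
    intro ι _ _ g
    have h := hmul ι g⁻¹ g
    rw [inv_mul_cancel, hone] at h
    exact eq_neg_of_add_eq_zero_left h.symm
  have hsum : ∀ (ι κ : Type) [Fintype ι] [DecidableEq ι] [Fintype κ] [DecidableEq κ]
      (g : GF B S ι) (h : GF B S κ), φ (ι ⊕ κ) (gsum g h) = φ ι g + φ κ h := by
    intro ι κ _ _ _ _ g h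
    rw [gsum_eq, hmul, hst]
    congr 1
    rw [← greindex_comm, hre, hst]
  have hwd : ∀ a b : Σ n : ℕ, GF B S (Fin n), K1Rel B S a b → φ (Fin a.1) a.2 = φ (Fin b.1) b.2 := by
    intro a b hab
    obtain ⟨n, H, h0, h1⟩ := hab
    have h2 := hht _ H h0
    rw [h1, hst, hsum, hinv] at h2
    exact add_neg_eq_zero.1 h2
  let F0 : K1 B S → A := Quot.lift (fun a : Σ n : ℕ, GF B S (Fin n) => φ (Fin a.1) a.2) hwd
  have hF0 : ∀ (ι : Type) [Fintype ι] [DecidableEq ι] (g : GF B S ι), F0 (cl g) = φ ι g := by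
    intro ι _ _ g
    exact hre ι (Fin (Fintype.card ι)) (Fintype.equivFin ι) g
  refine ⟨AddMonoidHom.mk' F0 ?_, ?_⟩
  · intro x y
    obtain ⟨n, g, rfl⟩ := exists_cl x
    obtain ⟨m, h, rfl⟩ := exists_cl y
    rw [← cl_gsum, hF0, hF0, hF0, hsum]
  · intro ι _ _ g
    exact hF0 ι g

/-- Two homomorphisms out of `K1` which agree on classes are equal. -/
theorem hom_ext {A : Type} [AddCommGroup A] {F F' : K1 B S →+ A}
    (h : ∀ (n : ℕ) (g : GF B S (Fin n)), F (cl g) = F' (cl g)) : F = F' := by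
  ext x
  obtain ⟨n, g, rfl⟩ := exists_cl x
  exact h n g

end Pool.QB.KTh
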