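import Pool.Agent.MP_c51823_gt.QB.KTh.EmbDef

/-!
# [QBK] Loops `z e + (1 - e)` for idempotents `e`
-/

set_option autoImplicit false
open Topology

namespace Pool.QB.KTh

noncomputable section

/-- `z = exp (2 π i t)`. -/
def zf (t : I) : ℂ := Complex.exp (2 * Real.pi * Complex.I * (t : ℝ))

theorem continuous_zf : Continuous zf := by
  unfold zf
  fun_prop

theorem zf_zero : zf 0 = 1 := by simp [zf]

theorem zf_one : zf 1 = 1 := by
  have : zf 1 = Complex.exp (2 * Real.pi * Complex.I) := by simp [zf]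
  rw [this, Complex.exp_two_pi_mul_I]

theorem zf_ne (t : I) : zf t ≠ 0 := Complex.exp_ne_zero _

theorem norm_zf (t : I) : ‖zf t‖ = 1 := by
  unfold zf
  rw [show (2 * Real.pi * Complex.I * (t : ℝ) : ℂ) = ((2 * Real.pi * t : ℝ) : ℂ) * Complex.I by
    push_cast; ring]
  exact Complex.norm_exp_ofReal_mul_I _

/-- `z e + (1 - e)`. -/
def ploop {ν : Type} [Fintype ν] [DecidableEq ν] (e : Matrix ν ν R) (z : ℂ) : Matrix ν ν R :=
  z • e + (1 - e)

theorem ploop_mul {ν : Type} [Fintype ν] [DecidableEq ν] {e : Matrix ν ν R} (he : e * e = e)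
    (z w : ℂ) : ploop e z * ploop e w = ploop e (z * w) := by
  have h1 : e * (1 - e) = 0 := by rw [mul_sub, mul_one, he, sub_self]
  have h2 : (1 - e) * e = 0 := by rw [sub_mul, one_mul, he, sub_self]
  have h3 : (1 - e) * (1 - e) = 1 - e := by rw [mul_sub, mul_one, h2, sub_zero]
  unfold ploop
  rw [add_mul, mul_add, mul_add, Matrix.smul_mul, Matrix.smul_mul, Matrix.mul_smul,
    Matrix.mul_smul, he, h1, h2, h3, smul_smul, smul_zero, smul_zero, add_zero, zero_add]

theorem ploop_one {ν : Type} [Fintype ν] [DecidableEq ν] (e : Matrix ν ν R) : ploop e 1 = 1 := by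
  unfold ploop
  rw [one_smul, add_sub_cancel]

/-- The diagonal idempotent of a subset of the index set. -/
def dg {ν : Type} [Fintype ν] [DecidableEq ν] (T : Finset ν) : Matrix ν ν R :=
  Matrix.diagonal fun i => if i ∈ T then 1 else 0

theorem dg_mul {ν : Type} [Fintype ν] [DecidableEq ν] (T : Finset ν) : dg T * dg T = dg T := by
  unfold dg
  rw [Matrix.diagonal_mul_diagonal]
  congr 1
  ext1 i
  split_ifs <;> simp

theorem dg_mem_sc {ν : Type} [Fintype ν] [DecidableEq ν] (T : Finset ν) : dg T ∈ sc ν := by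
  refine ⟨Matrix.diagonal fun i => if i ∈ T then 1 else 0, ?_⟩
  ext i j k l
  by_cases h : i = j
  · subst h
    by_cases h2 : i ∈ T <;> simp [dg, h2, Algebra.ofId_apply]
  · simp [dg, Matrix.diagonal_apply_ne _ h, Algebra.ofId_apply]

theorem ploop_mem_sc {ν : Type} [Fintype ν] [DecidableEq ν] {e : Matrix ν ν R} (he : e ∈ sc ν)
    (z : ℂ) : ploop e z ∈ sc ν :=
  add_mem (Subalgebra.smul_mem _ he _) (sub_mem (one_mem _) he)

variable {X : Type} [TopologicalSpace X]

/-- The loop function `(x, t) ↦ ploop (e x) (zf t)`, `ploop (e x) (zf t)⁻¹`. -/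
def plFn {ν : Type} [Fintype ν] [DecidableEq ν] (e : C(X, Matrix ν ν R)) (s : ℤ) :
    C(X × I, Matrix ν ν R) :=
  ⟨fun p => ploop (e p.1) (zf p.2 ^ s), by
    unfold ploop
    have h1 : Continuous fun p : X × I => zf p.2 ^ s :=
      (continuous_zf.comp continuous_snd).zpow₀ s fun p => Or.inl (zf_ne _)
    exact (h1.smul (e.continuous.comp continuous_fst)).add
      (continuous_const.sub (e.continuous.comp continuous_fst))⟩

/-- `(z e + 1 - e)` as an invertible function on `X × I`, scalar over `S`. -/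
def pl {S : Set X} {ν : Type} [Fintype ν] [DecidableEq ν] (e : C(X, Matrix ν ν R))
    (he : ∀ x, e x * e x = e x) (hS : ∀ x ∈ S, e x ∈ sc ν) : GF (∅ : Set (X × I)) (cyl S) ν :=
  ⟨⟨plFn e 1, plFn e (-1), by
      ext1 p
      change ploop (e p.1) (zf p.2 ^ (1 : ℤ)) * ploop (e p.1) (zf p.2 ^ (-1 : ℤ)) = 1
      rw [ploop_mul (he _), ← zpow_add₀ (zf_ne _), add_neg_cancel, zpow_zero, ploop_one], by
      ext1 p
      change ploop (e p.1) (zf p.2 ^ (-1 : ℤ)) * ploop (e p.1) (zf p.2 ^ (1 : ℤ)) = 1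
      rw [ploop_mul (he _), ← zpow_add₀ (zf_ne _), neg_add_cancel, zpow_zero, ploop_one]⟩,
    fun _ h => h.elim, fun p hp => ⟨ploop_mem_sc (hS p.1 hp) _, ploop_mem_sc (hS p.1 hp) _⟩⟩

/-- The loop ratio `(z e + 1 - e) (z e' + 1 - e')⁻¹`, for idempotent functions with `e = e'` on `C`. -/
def plr {C S : Set X} {ν : Type} [Fintype ν] [DecidableEq ν] (e e' : C(X, Matrix ν ν R))
    (he : ∀ x, e x * e x = e x) (he' : ∀ x, e' x * e' x = e' x) (hS : ∀ x ∈ S, e x ∈ sc ν)
    (hS' : ∀ x ∈ S, e' x ∈ sc ν) (hC : ∀ x ∈ C, e x = e' x) : GF (susB C) (cyl S) ν :=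
  ⟨(pl e he hS).1 * (pl e' he' hS').1⁻¹, fun p hp => by
      change ploop (e p.1) (zf p.2 ^ (1 : ℤ)) * ploop (e' p.1) (zf p.2 ^ (-1 : ℤ)) = 1
      rcases hp with hp | hp | hp
      · rw [hC _ hp, ploop_mul (he' _), ← zpow_add₀ (zf_ne _), add_neg_cancel, zpow_zero, ploop_one]
      · rw [hp, zf_zero, one_zpow, one_zpow, ploop_one, ploop_one, mul_one]
      · rw [hp, zf_one, one_zpow, one_zpow, ploop_one, ploop_one, mul_one],
    (pl e he hS * (pl e' he' hS')⁻¹).2.2⟩

end

end Pool.QB.KTh
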