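import Mathlib

/-!
# [QBK] Companion type matrices over a complex algebra
-/

set_option autoImplicit false
set_option linter.unusedSectionVars false

namespace Pool.QB.KTh.IX

variable {A : Type} [Ring A] [Algebra ℂ A] {d : ℕ}

/-- the subdiagonal shift -/
def Sh (A : Type) [Ring A] (d : ℕ) : Matrix (Fin (d + 1)) (Fin (d + 1)) A :=
  Matrix.of (Fin.cons 0 fun i k => if k = i.castSucc then 1 else 0)

/-- first row `a`, then `1` on the diagonal and `-c` on the subdiagonal -/
def rowM (a : Fin (d + 1) → A) (c : ℂ) : Matrix (Fin (d + 1)) (Fin (d + 1)) A :=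
  Matrix.of (Fin.cons a fun i k => (if k = i.succ then 1 else 0) - c • if k = i.castSucc then 1 else 0)

/-- first row `a`, identity otherwise -/
def rowQ (a : Fin (d + 1) → A) : Matrix (Fin (d + 1)) (Fin (d + 1)) A :=
  Matrix.of (Fin.cons a fun i k => if k = i.succ then 1 else 0)

theorem Sh_zero (k : Fin (d + 1)) : Sh A d 0 k = 0 := rfl

theorem Sh_succ (i : Fin d) (k : Fin (d + 1)) :
    Sh A d i.succ k = if k = i.castSucc then 1 else 0 := rfl

theorem rowM_zero (a : Fin (d + 1) → A) (c : ℂ) (k : Fin (d + 1)) : rowM a c 0 k = a k := rfl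

theorem rowM_succ (a : Fin (d + 1) → A) (c : ℂ) (i : Fin d) (k : Fin (d + 1)) :
    rowM a c i.succ k = (if k = i.succ then 1 else 0) - c • if k = i.castSucc then 1 else 0 := rfl

theorem rowQ_zero (a : Fin (d + 1) → A) (k : Fin (d + 1)) : rowQ a 0 k = a k := rfl

theorem rowQ_succ (a : Fin (d + 1) → A) (i : Fin d) (k : Fin (d + 1)) :
    rowQ a i.succ k = if k = i.succ then 1 else 0 := rfl

/-- `rowM` is a linear pencil -/
theorem rowM_pencil (a : Fin (d + 1) → A) (z : ℂ) : rowM a z = z • (-Sh A d) + rowM a 0 := by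
  ext i k
  refine Fin.cases ?_ (fun i => ?_) i
  · simp [rowM_zero, Sh_zero]
  · simp only [Matrix.add_apply, Matrix.smul_apply, Matrix.neg_apply, rowM_succ, Sh_succ, zero_smul,
      sub_zero, smul_neg]
    abel

theorem Sh_pow (n : ℕ) (i j : Fin (d + 1)) :
    (Sh A d ^ n) i j = if (i : ℕ) = j + n then 1 else 0 := by
  induction n generalizing i j with
  | zero =>
    simp only [pow_zero, Matrix.one_apply, add_zero, Fin.ext_iff]
  | succ n ih =>
    rw [pow_succ', Matrix.mul_apply]
    refine Fin.cases ?_ (fun i => ?_) i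
    · simp only [Sh_zero, zero_mul, Finset.sum_const_zero]
      symm
      apply if_neg
      simp
    · simp only [Sh_succ, ite_mul, one_mul, zero_mul, Finset.sum_ite_eq', Finset.mem_univ, if_true]
      rw [ih]
      simp only [Fin.val_castSucc, Fin.val_succ]
      congr 1
      exact propext ⟨fun h => by omega, fun h => by omega⟩

theorem Sh_nilpotent : Sh A d ^ (d + 1) = 0 := by
  ext i j
  rw [Sh_pow]
  rw [if_neg (by omega)]
  rfl

theorem isUnit_one_sub_Sh (c : ℂ) : IsUnit (1 - c • Sh A d) := by
  apply IsNilpotent.isUnit_one_sub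
  refine ⟨d + 1, ?_⟩
  rw [smul_pow, Sh_nilpotent, smul_zero]

theorem isUnit_rowQ {a : Fin (d + 1) → A} (h : IsUnit (a 0)) : IsUnit (rowQ a) := by
  obtain ⟨u, hu⟩ := h
  let b : Fin (d + 1) → A := Fin.cons (u⁻¹ : Aˣ).1 fun j => -((u⁻¹ : Aˣ).1 * a j.succ)
  have hb0 : b 0 = (u⁻¹ : Aˣ).1 := rfl
  have hbs : ∀ j : Fin d, b j.succ = -((u⁻¹ : Aˣ).1 * a j.succ) := fun j => rfl
  have e1 : rowQ a * rowQ b = 1 := by
    ext i j
    rw [Matrix.mul_apply, Fin.sum_univ_succ]
    refine Fin.cases ?_ (fun i => ?_) i
    · simp only [rowQ_zero, rowQ_succ]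
      refine Fin.cases ?_ (fun j => ?_) j
      · rw [hb0, ← hu, Units.mul_inv]
        simp [Fin.succ_ne_zero, (Fin.succ_ne_zero _).symm]
      · rw [hbs, ← hu]
        have : u.1 * -((u⁻¹ : Aˣ).1 * a j.succ) = -a j.succ := by
          rw [mul_neg, ← mul_assoc, Units.mul_inv, one_mul]
        rw [this]
        simp [Matrix.one_apply, (Fin.succ_ne_zero _).symm]
    · simp only [rowQ_zero, rowQ_succ, (Fin.succ_ne_zero _).symm, if_false, zero_mul, zero_add,
        Fin.succ_inj, ite_mul, one_mul]
      rw [Finset.sum_ite_eq']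
      simp only [Finset.mem_univ, if_true, Matrix.one_apply]
      simp only [eq_comm]
  have e2 : rowQ b * rowQ a = 1 := by
    ext i j
    rw [Matrix.mul_apply, Fin.sum_univ_succ]
    refine Fin.cases ?_ (fun i => ?_) i
    · simp only [rowQ_zero, rowQ_succ]
      refine Fin.cases ?_ (fun j => ?_) j
      · rw [hb0, ← hu, Units.inv_mul]
        simp [(Fin.succ_ne_zero _).symm]
      · rw [hb0]
        simp only [hbs, Fin.succ_inj, mul_ite, mul_one, mul_zero]
        rw [Finset.sum_ite_eq]
        simp [Matrix.one_apply, (Fin.succ_ne_zero _).symm]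
    · simp only [rowQ_zero, rowQ_succ, (Fin.succ_ne_zero _).symm, if_false, zero_mul, zero_add,
        Fin.succ_inj, ite_mul, one_mul]
      rw [Finset.sum_ite_eq']
      simp only [Finset.mem_univ, if_true, Matrix.one_apply]
      simp only [eq_comm]
  exact ⟨⟨_, _, e1, e2⟩, rfl⟩

/-- `rowM a c` is invertible if `∑ c^i a_i` is. -/
theorem isUnit_rowM {a : Fin (d + 1) → A} {c : ℂ}
    (h : IsUnit (∑ i : Fin (d + 1), c ^ (i : ℕ) • a i)) : IsUnit (rowM a c) := by
  let P : Fin (d + 1) → A := fun j =>
    ∑ i ∈ Finset.univ.filter (fun i => j ≤ i), c ^ ((i : ℕ) - j) • a i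
  have hP0 : P 0 = ∑ i : Fin (d + 1), c ^ (i : ℕ) • a i := by
    simp [P]
  have hPlast : P (Fin.last d) = a (Fin.last d) := by
    have : Finset.univ.filter (fun i : Fin (d + 1) => Fin.last d ≤ i) = {Fin.last d} := by
      ext i
      simp only [Finset.mem_filter, Finset.mem_univ, true_and, Finset.mem_singleton]
      exact ⟨fun h => le_antisymm (Fin.le_last i) h, fun h => h.ge⟩
    simp only [P, this, Finset.sum_singleton, Nat.sub_self, pow_zero, one_smul]
  have hPstep : ∀ j : Fin d, P j.castSucc = a j.castSucc + c • P j.succ := by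
    intro j
    have : Finset.univ.filter (fun i : Fin (d + 1) => j.castSucc ≤ i) =
        insert j.castSucc (Finset.univ.filter (fun i : Fin (d + 1) => j.succ ≤ i)) := by
      ext i
      simp only [Finset.mem_filter, Finset.mem_univ, true_and, Finset.mem_insert, Fin.le_def,
        Fin.val_castSucc, Fin.val_succ, Fin.ext_iff]
      omega
    simp only [P, this]
    rw [Finset.sum_insert (by simp [Fin.le_def])]
    simp only [Nat.sub_self, pow_zero, one_smul, Finset.smul_sum, smul_smul]
    congr 1
    refine Finset.sum_congr rfl fun i hi => ?_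
    simp only [Finset.mem_filter, Finset.mem_univ, true_and, Fin.le_def, Fin.val_succ] at hi
    congr 1
    rw [← pow_succ']
    congr 1
    simp only [Fin.val_castSucc, Fin.val_succ]
    omega
  have key : rowM a c = rowQ P * (1 - c • Sh A d) := by
    ext i j
    rw [mul_sub, mul_one, Matrix.sub_apply, Matrix.mul_smul, Matrix.smul_apply, Matrix.mul_apply,
      Fin.sum_univ_succ]
    simp only [Sh_zero, mul_zero, zero_add, Sh_succ]
    refine Fin.cases ?_ (fun i => ?_) i
    · simp only [rowM_zero, rowQ_zero]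
      refine Fin.lastCases ?_ (fun j => ?_) j
      · rw [hPlast]
        have : ∀ k : Fin d, (Fin.last d = k.castSucc) = False := fun k =>
          eq_false (Fin.castSucc_lt_last k).ne'
        simp [this]
      · rw [hPstep]
        simp [Fin.castSucc_inj]
    · simp only [rowM_succ, rowQ_succ, Fin.succ_inj, mul_ite, mul_one, mul_zero]
      congr 2
      by_cases hj : j = i.castSucc
      · subst hj
        rw [if_pos rfl, Finset.sum_eq_single i]
        · simp
        · intro b _ hb
          rw [if_neg]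
          intro h
          exact hb (Fin.castSucc_injective _ h).symm
        · intro h
          exact absurd (Finset.mem_univ i) h
      · rw [if_neg hj]
        symm
        apply Finset.sum_eq_zero
        intro k _
        by_cases hk : j = k.castSucc
        · rw [if_pos hk, if_neg]
          rintro rfl
          exact hj hk
        · rw [if_neg hk]
  rw [key]
  refine (isUnit_rowQ ?_).mul (isUnit_one_sub_Sh c)
  rw [hP0]
  exact h

/-- product with a matrix, rows -/
theorem rowM_mul_zero (a : Fin (d + 1) → A) (c : ℂ) (G : Matrix (Fin (d + 1)) (Fin (d + 1)) A)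
    (j : Fin (d + 1)) : (rowM a c * G) 0 j = ∑ k, a k * G k j := by
  rw [Matrix.mul_apply]
  rfl

theorem rowM_mul_succ (a : Fin (d + 1) → A) (c : ℂ) (G : Matrix (Fin (d + 1)) (Fin (d + 1)) A)
    (i : Fin d) (j : Fin (d + 1)) : (rowM a c * G) i.succ j = G i.succ j - c • G i.castSucc j := by
  rw [Matrix.mul_apply]
  simp only [rowM_succ, sub_mul, Finset.sum_sub_distrib, smul_mul_assoc, ite_mul, one_mul, zero_mul,
    ← Finset.smul_sum, Finset.sum_ite_eq', Finset.mem_univ, if_true]

/-- the diagonal entries of the reference idempotent -/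
def Dref (N : ℕ) (τ : A) (j : ℕ) : A := (if j < N then 1 - τ else 0) + if j < N + 1 then τ else 0

/-- the reference resolvent -/
noncomputable def Gref (N : ℕ) (τ : A) (z : ℂ) : Matrix (Fin (2 * N + 1)) (Fin (2 * N + 1)) A :=
  Matrix.of fun i j => z ^ ((i : ℤ) - j - 1) • (Dref N τ j - if (j : ℕ) + 1 ≤ i then 1 else 0)

/-- the reference coefficients -/
def pref (N : ℕ) (τ : A) (c : ℂ) : Fin (2 * N + 1) → A := fun j =>
  if (j : ℕ) = N then 1 - τ else if (j : ℕ) = N + 1 then c • τ else 0

theorem rowM_pref_mul {N : ℕ} (hN : 1 ≤ N) {τ : A} (hτ : τ * τ = τ) (c : ℂ) {z : ℂ} (hz : z ≠ 0) :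
    rowM (pref N τ c) z * Gref N τ z = -Sh A (2 * N) := by
  have hτ1 : τ * (1 - τ) = 0 := by rw [mul_sub, mul_one, hτ, sub_self]
  have hτ2 : (1 - τ) * τ = 0 := by rw [sub_mul, one_mul, hτ, sub_self]
  have hτ3 : (1 - τ) * (1 - τ) = 1 - τ := by rw [mul_sub, mul_one, hτ2, sub_zero]
  ext i j
  refine Fin.cases ?_ (fun i => ?_) i
  · rw [rowM_mul_zero, Matrix.neg_apply, Sh_zero, neg_zero]
    have h1 : ∀ k : Fin (2 * N + 1), pref N τ c k * Gref N τ z k j =
        (if (k : ℕ) = N then (1 - τ) * Gref N τ z k j else 0) +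
        (if (k : ℕ) = N + 1 then (c • τ) * Gref N τ z k j else 0) := by
      intro k
      unfold pref
      split_ifs with h1 h2 h3
      · omega
      · rw [add_zero]
      · rw [zero_add]
      · rw [zero_mul, add_zero]
    simp_rw [h1]
    rw [Finset.sum_add_distrib]
    have s1 : ∑ k : Fin (2 * N + 1), (if (k : ℕ) = N then (1 - τ) * Gref N τ z k j else 0) = 0 := by
      apply Finset.sum_eq_zero
      intro k _
      split_ifs with hk
      · unfold Gref Dref
        simp only [Matrix.of_apply, mul_smul_comm, mul_sub, mul_add]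
        have h2 : ((1 - τ) * if (j : ℕ) < N then 1 - τ else 0) = if (j : ℕ) < N then 1 - τ else 0 := by
          split_ifs
          · exact hτ3
          · rw [mul_zero]
        have h3 : ((1 - τ) * if (j : ℕ) < N + 1 then τ else 0) = 0 := by
          split_ifs
          · exact hτ2
          · rw [mul_zero]
        have h4 : ((1 - τ) * if (j : ℕ) + 1 ≤ k then 1 else 0) = if (j : ℕ) < N then 1 - τ else 0 := by
          by_cases h5 : (j : ℕ) < N
          · rw [if_pos h5, if_pos (by omega), mul_one]
          · rw [if_neg h5, if_neg (by omega), mul_zero]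
        rw [h2, h3, h4, add_zero, sub_self, smul_zero]
      · rfl
    have s2 : ∑ k : Fin (2 * N + 1), (if (k : ℕ) = N + 1 then (c • τ) * Gref N τ z k j else 0) = 0 := by
      apply Finset.sum_eq_zero
      intro k _
      split_ifs with hk
      · unfold Gref Dref
        simp only [Matrix.of_apply, mul_smul_comm, smul_mul_assoc, mul_sub, mul_add]
        have h2 : (τ * if (j : ℕ) < N then 1 - τ else 0) = 0 := by
          split_ifs
          · exact hτ1
          · rw [mul_zero]
        have h3 : (τ * if (j : ℕ) < N + 1 then τ else 0) = if (j : ℕ) < N + 1 then τ else 0 := by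
          split_ifs
          · exact hτ
          · rw [mul_zero]
        have h4 : (τ * if (j : ℕ) + 1 ≤ k then 1 else 0) = if (j : ℕ) < N + 1 then τ else 0 := by
          by_cases h5 : (j : ℕ) < N + 1
          · rw [if_pos h5, if_pos (by omega), mul_one]
          · rw [if_neg h5, if_neg (by omega), mul_zero]
        rw [h2, h3, h4]
        simp
      · rfl
    rw [s1, s2, add_zero]
  · rw [rowM_mul_succ, Matrix.neg_apply, Sh_succ]
    unfold Gref
    simp only [Matrix.of_apply, Fin.val_succ, Fin.val_castSucc, smul_smul]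
    have h1 : z * z ^ ((i : ℤ) - j - 1) = z ^ (((i : ℕ) + 1 : ℕ) - (j : ℤ) - 1) := by
      rw [← zpow_one_add₀ hz]
      congr 1
      push_cast
      ring
    rw [h1, ← smul_sub]
    by_cases hj : j = i.castSucc
    · subst hj
      rw [if_pos rfl]
      simp only [Fin.val_castSucc]
      rw [if_pos le_rfl, if_neg (by omega)]
      have h2 : (((i : ℕ) + 1 : ℕ) : ℤ) - ((i : ℕ) : ℤ) - 1 = 0 := by push_cast; ring
      rw [h2, zpow_zero, one_smul]
      abel
    · rw [if_neg hj, neg_zero]
      have h3 : (j : ℕ) ≠ i := fun h => hj (Fin.ext h)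
      by_cases h4 : (j : ℕ) + 1 ≤ i
      · rw [if_pos (by omega), if_pos h4, sub_self, smul_zero]
      · rw [if_neg (by omega), if_neg h4, sub_self, smul_zero]

end Pool.QB.KTh.IX
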