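import Pool.Agent.MP_c51823_gt.QB.KTh.PencilM
import Pool.Agent.MP_c51823_gt.QB.KTh.RowMat
import Pool.Agent.MP_c51823_gt.QB.KTh.LoopDef

/-!
# [QBK] The index idempotent of a polynomial loop
-/

set_option autoImplicit false
set_option linter.unusedSectionVars false
open Topology Metric

namespace Pool.QB.KTh.IX

variable {κ : Type} [Fintype κ] [DecidableEq κ] {d : ℕ}

/-- linear coefficient -/
noncomputable def B1 (κ : Type) [Fintype κ] [DecidableEq κ] (d : ℕ) :
    Matrix (Fin (d + 1) × κ) (Fin (d + 1) × κ) R :=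
  Matrix.compRingEquiv _ _ _ (-Sh (Matrix κ κ R) d)

/-- companion matrix in `M_{Fin (d+1) × κ}(R)` -/
noncomputable def Rw (a : Fin (d + 1) → Matrix κ κ R) (c : ℂ) :
    Matrix (Fin (d + 1) × κ) (Fin (d + 1) × κ) R :=
  Matrix.compRingEquiv _ _ _ (rowM a c)

theorem comp_smul (c : ℂ) (m : Matrix (Fin (d + 1)) (Fin (d + 1)) (Matrix κ κ R)) :
    Matrix.compRingEquiv (Fin (d + 1)) κ R (c • m) = c • Matrix.compRingEquiv (Fin (d + 1)) κ R m :=
  rfl

theorem comp_apply (m : Matrix (Fin (d + 1)) (Fin (d + 1)) (Matrix κ κ R)) (p q : Fin (d + 1) × κ) :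
    Matrix.compRingEquiv (Fin (d + 1)) κ R m p q = m p.1 q.1 p.2 q.2 := rfl

theorem Rw_pencil (a : Fin (d + 1) → Matrix κ κ R) (z : ℂ) : z • B1 κ d + Rw a 0 = Rw a z := by
  unfold B1 Rw
  rw [rowM_pencil a z, map_add, comp_smul]

theorem isUnit_Rw {a : Fin (d + 1) → Matrix κ κ R} {c : ℂ}
    (h : IsUnit (∑ i : Fin (d + 1), c ^ (i : ℕ) • a i)) : IsUnit (Rw a c) :=
  (isUnit_rowM h).map (Matrix.compRingEquiv (Fin (d + 1)) κ R)

theorem isUnit_pencil {a : Fin (d + 1) → Matrix κ κ R} {c : ℂ}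
    (h : IsUnit (∑ i : Fin (d + 1), c ^ (i : ℕ) • a i)) : IsUnit (c • B1 κ d + Rw a 0) := by
  rw [Rw_pencil]
  exact isUnit_Rw h

theorem comp_mem_sc {m : Matrix (Fin (d + 1)) (Fin (d + 1)) (Matrix κ κ R)}
    (h : ∀ i j, m i j ∈ sc κ) : Matrix.compRingEquiv (Fin (d + 1)) κ R m ∈ sc _ := by
  rw [mem_sc_iff]
  intro p q
  exact (mem_sc_iff _).1 (h p.1 q.1) p.2 q.2

theorem B1_mem_sc : B1 κ d ∈ sc _ := by
  apply comp_mem_sc
  intro i j
  refine Fin.cases ?_ (fun i => ?_) i
  · rw [Matrix.neg_apply, Sh_zero, neg_zero]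
    exact zero_mem _
  · rw [Matrix.neg_apply, Sh_succ]
    split_ifs
    · exact neg_mem (one_mem _)
    · rw [neg_zero]
      exact zero_mem _

theorem Rw_mem_sc {a : Fin (d + 1) → Matrix κ κ R} (h : ∀ i, a i ∈ sc κ) (c : ℂ) :
    Rw a c ∈ sc _ := by
  apply comp_mem_sc
  intro i j
  refine Fin.cases ?_ (fun i => ?_) i
  · exact h j
  · rw [rowM_succ]
    refine sub_mem ?_ (Subalgebra.smul_mem _ ?_ c)
    · split_ifs
      · exact one_mem _
      · exact zero_mem _
    · split_ifs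
      · exact one_mem _
      · exact zero_mem _

theorem continuous_Rw {Y : Type} [TopologicalSpace Y] {a : Y → Fin (d + 1) → Matrix κ κ R}
    {c : Y → ℂ} (ha : ∀ i, Continuous fun y => a y i) (hc : Continuous c) :
    Continuous fun y => Rw (a y) (c y) := by
  refine continuous_matrix fun p q => ?_
  change Continuous fun y => rowM (a y) (c y) p.1 q.1 p.2 q.2
  obtain ⟨i, k⟩ := p
  obtain ⟨j, l⟩ := q
  dsimp only
  refine Fin.cases ?_ (fun i => ?_) i
  · simp only [rowM_zero]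
    exact (ha j).matrix_elem k l
  · simp only [rowM_succ]
    have h1 : Continuous fun y => (if j = i.succ then (1 : Matrix κ κ R) else 0) -
        c y • (if j = i.castSucc then (1 : Matrix κ κ R) else 0) :=
      continuous_const.sub (hc.smul continuous_const)
    exact h1.matrix_elem k l

/-- the index idempotent of the loop `∑ z^j a_j` -/
noncomputable def idx (a : Fin (d + 1) → Matrix κ κ R) :
    Matrix (Fin (d + 1) × κ) (Fin (d + 1) × κ) R := ridM (B1 κ d) (Rw a 0)

section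
variable {a : Fin (d + 1) → Matrix κ κ R}
  (h : ∀ z : ℂ, ‖z‖ = 1 → IsUnit (∑ i : Fin (d + 1), z ^ (i : ℕ) • a i))
include h

theorem idx_idem : idx a * idx a = idx a :=
  ridM_idem fun z hz => isUnit_pencil (h z hz)

theorem idx_mem_sc (ha : ∀ i, a i ∈ sc κ) : idx a ∈ sc _ :=
  ridM_mem_sc (fun z hz => isUnit_pencil (h z hz)) B1_mem_sc (Rw_mem_sc ha 0)

end

theorem continuous_idx {X : Type} [TopologicalSpace X] {a : X → Fin (d + 1) → Matrix κ κ R}
    (ha : ∀ i, Continuous fun y => a y i)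
    (h : ∀ x, ∀ z : ℂ, ‖z‖ = 1 → IsUnit (∑ i : Fin (d + 1), z ^ (i : ℕ) • a x i)) :
    Continuous fun x => idx (a x) :=
  continuous_ridM continuous_const (continuous_Rw ha continuous_const)
    fun x z hz => isUnit_pencil (h x z hz)

/-- block diagonal -/
def dgm (d : ℕ) (P : Matrix κ κ R) : Matrix (Fin (d + 1)) (Fin (d + 1)) (Matrix κ κ R) :=
  Matrix.diagonal fun _ => P

theorem dgm_mul (P P' : Matrix κ κ R) : dgm d P * dgm d P' = dgm d (P * P') :=
  Matrix.diagonal_mul_diagonal _ _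

theorem dgm_one : dgm d (1 : Matrix κ κ R) = 1 := Matrix.diagonal_one

theorem dgm_conj (m : Matrix (Fin (d + 1)) (Fin (d + 1)) (Matrix κ κ R)) (P P' : Matrix κ κ R)
    (i j : Fin (d + 1)) : (dgm d P * m * dgm d P') i j = P * m i j * P' := by
  unfold dgm
  rw [Matrix.mul_diagonal, Matrix.diagonal_mul]

theorem rowM_conj {P P' : Matrix κ κ R} (h : P * P' = 1) (a : Fin (d + 1) → Matrix κ κ R) (c : ℂ) :
    rowM (fun i => P * a i * P') c = dgm d P * rowM a c * dgm d P' := by
  refine Matrix.ext fun i j => ?_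
  rw [dgm_conj]
  refine Fin.cases ?_ (fun i => ?_) i
  · rfl
  · rw [rowM_succ, rowM_succ, mul_sub, sub_mul, mul_smul_comm, smul_mul_assoc]
    congr 1
    · split_ifs
      · rw [mul_one, h]
      · rw [mul_zero, zero_mul]
    · congr 1
      split_ifs
      · rw [mul_one, h]
      · rw [mul_zero, zero_mul]

theorem Sh_conj {P P' : Matrix κ κ R} (h : P * P' = 1) :
    -Sh (Matrix κ κ R) d = dgm d P * (-Sh (Matrix κ κ R) d) * dgm d P' := by
  refine Matrix.ext fun i j => ?_
  rw [dgm_conj]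
  refine Fin.cases ?_ (fun i => ?_) i
  · rw [Matrix.neg_apply, Sh_zero, neg_zero, mul_zero, zero_mul]
  · rw [Matrix.neg_apply, Sh_succ]
    split_ifs
    · rw [mul_neg, mul_one, neg_mul, h]
    · rw [neg_zero, mul_zero, zero_mul]

theorem idx_conj {P P' : Matrix κ κ R} (hP : P * P' = 1) (hP' : P' * P = 1)
    {a : Fin (d + 1) → Matrix κ κ R}
    (h : ∀ z : ℂ, ‖z‖ = 1 → IsUnit (∑ i : Fin (d + 1), z ^ (i : ℕ) • a i)) :
    idx (fun i => P * a i * P') = Matrix.compRingEquiv _ _ _ (dgm d P) * idx a *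
      Matrix.compRingEquiv _ _ _ (dgm d P') := by
  have h1 := ridM_conj (fun z hz => isUnit_pencil (h z hz))
    (Q := Matrix.compRingEquiv _ _ _ (dgm d P)) (Q' := Matrix.compRingEquiv _ _ _ (dgm d P'))
    (by rw [← map_mul, dgm_mul, hP, dgm_one, map_one])
    (by rw [← map_mul, dgm_mul, hP', dgm_one, map_one])
  unfold idx
  rw [← h1]
  unfold B1 Rw
  rw [← map_mul, ← map_mul, ← map_mul, ← map_mul, ← Sh_conj hP, ← rowM_conj hP]

/-- the reference idempotent -/
theorem idx_pref {N : ℕ} (hN : 1 ≤ N) (T : Finset κ) (c : ℂ)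
    (h : ∀ z : ℂ, ‖z‖ = 1 → IsUnit (∑ i : Fin (2 * N + 1), z ^ (i : ℕ) • pref N (dg T) c i)) :
    idx (pref N (dg T) c) =
      dg (Finset.univ.filter fun p => (p.1 : ℕ) < if p.2 ∈ T then N + 1 else N) := by
  refine Matrix.ext fun p q => ?_
  have h1 := ridM_entry (fun z hz => isUnit_pencil (h z hz))
    (fun p q => ((p.1 : ℕ) : ℤ) - ((q.1 : ℕ) : ℤ) - 1)
    (Matrix.compRingEquiv _ _ _ (Matrix.of fun i j : Fin (2 * N + 1) =>
      (Dref N (dg T) j - if (j : ℕ) + 1 ≤ i then 1 else 0 : Matrix κ κ R))) (by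
      intro z hz
      have hz0 : z ≠ 0 := by rintro rfl; simp at hz
      have h2 := congrArg (Matrix.compRingEquiv _ _ _) (rowM_pref_mul hN (dg_mul T) c hz0)
      rw [map_mul] at h2
      rw [Rw_pencil]
      exact h2) p q
  unfold idx
  rw [h1, comp_apply, Matrix.of_apply]
  obtain ⟨i, k⟩ := p
  obtain ⟨j, l⟩ := q
  dsimp only
  unfold Dref
  by_cases hij : i = j
  · subst hij
    have h9 : ¬ ((i : ℕ) + 1 ≤ i) := by omega
    rw [if_pos (by ring), if_neg h9, sub_zero]
    by_cases hkl : k = l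
    · subst hkl
      by_cases h2 : (i : ℕ) < N
      · have h3 : (i : ℕ) < N + 1 := by omega
        by_cases hk : k ∈ T
        · simp [dg, h2, h3, hk]
        · simp [dg, h2, h3, hk]
      · by_cases h3 : (i : ℕ) < N + 1
        · by_cases hk : k ∈ T
          · simp [dg, h2, h3, hk]
          · simp [dg, h2, h3, hk]
        · by_cases hk : k ∈ T
          · simp [dg, h2, h3, hk]
          · simp [dg, h2, h3, hk]
    · have h4 : ((i, k) : Fin (2 * N + 1) × κ) ≠ (i, l) := fun h => hkl (congrArg Prod.snd h)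
      have h5 : ∀ b : Prop, [Decidable b] → ∀ m : Matrix κ κ R, m k l = 0 →
          (if b then m else 0) k l = 0 := by
        intro b _ m hm
        split_ifs
        · exact hm
        · rfl
      have h6 : (dg T) k l = 0 := by
        unfold dg
        exact Matrix.diagonal_apply_ne _ hkl
      have h7 : (1 - dg T) k l = 0 := by
        rw [Matrix.sub_apply, h6, Matrix.one_apply_ne hkl, sub_zero]
      rw [Matrix.add_apply, h5 _ _ h7, h5 _ _ h6, add_zero]
      unfold dg
      rw [Matrix.diagonal_apply_ne _ h4]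
  · have h2 : (i : ℕ) ≠ j := fun h => hij (Fin.ext h)
    have h3 : ((i, k) : Fin (2 * N + 1) × κ) ≠ (j, l) := fun h => hij (congrArg Prod.fst h)
    rw [if_neg (by omega)]
    unfold dg
    rw [Matrix.diagonal_apply_ne _ h3]

end Pool.QB.KTh.IX
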