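import Pool.Agent.MP_c51823_gt.QB.KTh.Fejer
import Pool.Agent.MP_c51823_gt.QB.KTh.IdxDef

/-!
# [QBK] Laurent polynomial approximation of loops
-/

set_option autoImplicit false
set_option linter.unusedSectionVars false
open Topology Metric

namespace Pool.QB.KTh.IX

variable {κ : Type} [Fintype κ] [DecidableEq κ]

theorem exists_zf {z : ℂ} (hz : ‖z‖ = 1) : ∃ s : I, zf s = z := by
  have hpi := Real.pi_pos
  have h1 : z = Complex.exp (z.arg * Complex.I) := by
    have := Complex.norm_mul_exp_arg_mul_I z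
    rw [hz, Complex.ofReal_one, one_mul] at this
    exact this.symm
  have ha := Complex.neg_pi_lt_arg z
  have hb := Complex.arg_le_pi z
  by_cases h0 : 0 ≤ z.arg
  · refine ⟨⟨z.arg / (2 * Real.pi), by positivity, by rw [div_le_one (by positivity)]; linarith⟩, ?_⟩
    conv_rhs => rw [h1]
    unfold zf
    congr 1
    push_cast
    have : (Real.pi : ℂ) ≠ 0 := by exact_mod_cast hpi.ne'
    field_simp
  · push Not at h0
    refine ⟨⟨z.arg / (2 * Real.pi) + 1, ?_, ?_⟩, ?_⟩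
    · rw [← neg_le_iff_add_nonneg, le_div_iff₀ (by positivity)]
      linarith
    · have : z.arg / (2 * Real.pi) < 0 := div_neg_of_neg_of_pos h0 (by positivity)
      linarith
    · conv_rhs => rw [h1]
      unfold zf
      rw [← mul_one (Complex.exp (z.arg * Complex.I)), ← Complex.exp_two_pi_mul_I, ← Complex.exp_add]
      congr 1
      push_cast
      have : (Real.pi : ℂ) ≠ 0 := by exact_mod_cast hpi.ne'
      field_simp

/-- weighted average of the values of a loop -/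
noncomputable def cf {M : ℕ} (t : Fin M → I) (w : ℕ → Fin M → ℂ) (v : I → Matrix κ κ R) (j : ℕ) :
    Matrix κ κ R := ∑ i, w j i • v (t i)

theorem cf_mem_sc {M : ℕ} (t : Fin M → I) (w : ℕ → Fin M → ℂ) {v : I → Matrix κ κ R}
    (h : ∀ s, v s ∈ sc κ) (j : ℕ) : cf t w v j ∈ sc κ :=
  sum_mem fun _ _ => Subalgebra.smul_mem _ (h _) _

theorem cf_conj {M : ℕ} (t : Fin M → I) (w : ℕ → Fin M → ℂ) (v : I → Matrix κ κ R) (j : ℕ)
    (P P' : Matrix κ κ R) : cf t w (fun s => P * v s * P') j = P * cf t w v j * P' := by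
  unfold cf
  rw [Finset.mul_sum, Finset.sum_mul]
  refine Finset.sum_congr rfl fun i _ => ?_
  rw [mul_smul_comm, smul_mul_assoc]

theorem continuous_cf {X : Type} [TopologicalSpace X] {M : ℕ} (t : Fin M → I) (w : ℕ → Fin M → ℂ)
    (V : C(X × I, Matrix κ κ R)) (j : ℕ) : Continuous fun x => cf t w (fun s => V (x, s)) j := by
  unfold cf
  refine continuous_finsetSum _ fun i _ => ?_
  have h1 : Continuous fun x => V (x, t i) := V.continuous.comp (by fun_prop)
  exact h1.const_smul (w j i)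

theorem cf_ploop {N M : ℕ} {t : Fin M → I} {w : ℕ → Fin M → ℂ} {c : ℂ}
    (h1 : ∀ j ≤ 2 * N, ∑ i, w j i = if j = N then 1 else 0)
    (h2 : ∀ j ≤ 2 * N, ∑ i, w j i * zf (t i) = if j = N + 1 then c else 0)
    (τ : Matrix κ κ R) {v : I → Matrix κ κ R} (hv : ∀ s, v s = ploop τ (zf s))
    (j : Fin (2 * N + 1)) : cf t w v j = pref N τ c j := by
  have h3 : cf t w v j = (∑ i, w j i * zf (t i)) • τ + (∑ i, w j i) • (1 - τ) := by
    unfold cf
    rw [Finset.sum_smul, Finset.sum_smul, ← Finset.sum_add_distrib]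
    refine Finset.sum_congr rfl fun i _ => ?_
    rw [hv]
    unfold ploop
    rw [smul_add, smul_smul]
  rw [h3, h1 j (by omega), h2 j (by omega)]
  unfold pref
  by_cases h4 : (j : ℕ) = N
  · rw [if_pos h4, if_pos h4, if_neg (by omega), zero_smul, zero_add, one_smul]
  · rw [if_neg h4, if_neg h4, zero_smul, add_zero]
    split_ifs
    · rfl
    · rw [zero_smul]

/-- the approximation -/
theorem exists_approx {X : Type} [TopologicalSpace X] [CompactSpace X]
    (V : C(X × I, Matrix κ κ R)) (hu : ∀ p, IsUnit (V p)) (hV : ∀ x, V (x, 0) = V (x, 1)) :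
    ∃ (N M : ℕ) (t : Fin M → I) (w : ℕ → Fin M → ℂ) (c : ℂ), 1 ≤ N ∧
      (∀ j ≤ 2 * N, ∑ i, w j i = if j = N then 1 else 0) ∧
      (∀ j ≤ 2 * N, ∑ i, w j i * zf (t i) = if j = N + 1 then c else 0) ∧
      ∀ (x : X) (s r : I), IsUnit ((zf s ^ N * (1 - (r : ℝ) : ℂ)) • V (x, s) + ((r : ℝ) : ℂ) •
        ∑ j : Fin (2 * N + 1), zf s ^ (j : ℕ) • cf t w (fun s => V (x, s)) j) := by
  obtain ⟨δ, hδ, hδu⟩ := exists_delta_unit V hu
  let f : C(X × I, κ → κ → Fin 2 → Fin 2 → ℂ) := ⟨fun p => V p, V.continuous⟩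
  obtain ⟨N, M, t, w, c, hN, _, h1, h2, h3⟩ := exists_weights f hV hδ
  refine ⟨N, M, t, w, c, hN, h1, h2, fun x s r => ?_⟩
  have hz : zf s ^ N ≠ 0 := pow_ne_zero _ (zf_ne s)
  obtain ⟨W', hW'⟩ : ∃ W' : Matrix κ κ R, W' = (zf s ^ N)⁻¹ •
      ∑ j : Fin (2 * N + 1), zf s ^ (j : ℕ) • cf t w (fun s => V (x, s)) j := ⟨_, rfl⟩
  have hW : ∑ j : Fin (2 * N + 1), zf s ^ (j : ℕ) • cf t w (fun s => V (x, s)) j =
      zf s ^ N • W' := by
    rw [hW', smul_smul, mul_inv_cancel₀ hz, one_smul]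
  have h4 : (zf s ^ N * (1 - (r : ℝ) : ℂ)) • V (x, s) + ((r : ℝ) : ℂ) •
      ∑ j : Fin (2 * N + 1), zf s ^ (j : ℕ) • cf t w (fun s => V (x, s)) j =
      zf s ^ N • (V (x, s) + ((r : ℝ) : ℂ) • (W' - V (x, s))) := by
    rw [hW]
    module
  rw [h4]
  have h5 : IsUnit (V (x, s) + ((r : ℝ) : ℂ) • (W' - V (x, s))) := by
    apply hδu (x, s)
    intro i j k l
    have e1 : (V (x, s) + ((r : ℝ) : ℂ) • (W' - V (x, s))) i j k l - V (x, s) i j k l =
        ((r : ℝ) : ℂ) * (W' i j k l - V (x, s) i j k l) := by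
      simp only [Matrix.add_apply, Matrix.smul_apply, Matrix.sub_apply, smul_eq_mul]
      ring
    rw [e1, norm_mul, Complex.norm_real, Real.norm_of_nonneg r.2.1]
    let D : κ → κ → Fin 2 → Fin 2 → ℂ := fun i j k l => W' i j k l - V (x, s) i j k l
    have e2 : ‖D‖ < δ := by
      have e3 : (zf s ^ N)⁻¹ • ∑ j ∈ Finset.range (2 * N + 1), zf s ^ j • ∑ i, w j i • f (x, t i) =
          (show κ → κ → Fin 2 → Fin 2 → ℂ from W') := by
        rw [hW']
        refine congrArg (fun m => (zf s ^ N)⁻¹ • m) ?_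
        exact Finset.sum_range fun j => zf s ^ j • ∑ i, w j i • f (x, t i)
      have e2 := h3 x s
      rw [e3] at e2
      exact e2
    have e4 : ‖W' i j k l - V (x, s) i j k l‖ ≤ ‖D‖ :=
      (norm_le_pi_norm (D i j k) l).trans ((norm_le_pi_norm (D i j) k).trans
      ((norm_le_pi_norm (D i) j).trans (norm_le_pi_norm D i)))
    calc (r : ℝ) * ‖W' i j k l - V (x, s) i j k l‖ ≤ 1 * ‖W' i j k l - V (x, s) i j k l‖ :=
          mul_le_mul_of_nonneg_right r.2.2 (norm_nonneg _)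
      _ < δ := by rw [one_mul]; exact e4.trans_lt e2
  have h6 : zf s ^ N • (V (x, s) + ((r : ℝ) : ℂ) • (W' - V (x, s))) =
      (algebraMap ℂ (Matrix κ κ R) (zf s ^ N)) * (V (x, s) + ((r : ℝ) : ℂ) • (W' - V (x, s))) :=
    Algebra.smul_def _ _
  rw [h6]
  exact ((IsUnit.mk0 _ hz).map (algebraMap ℂ (Matrix κ κ R))).mul h5

theorem unit_of_approx {X : Type} [TopologicalSpace X] {V : C(X × I, Matrix κ κ R)} {N M : ℕ}
    {t : Fin M → I} {w : ℕ → Fin M → ℂ}
    (h : ∀ (x : X) (s r : I), IsUnit ((zf s ^ N * (1 - (r : ℝ) : ℂ)) • V (x, s) + ((r : ℝ) : ℂ) •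
        ∑ j : Fin (2 * N + 1), zf s ^ (j : ℕ) • cf t w (fun s => V (x, s)) j)) (x : X) (z : ℂ)
    (hz : ‖z‖ = 1) :
    IsUnit (∑ j : Fin (2 * N + 1), z ^ (j : ℕ) • cf t w (fun s => V (x, s)) j) := by
  obtain ⟨s, rfl⟩ := exists_zf hz
  have h1 := h x s 1
  simpa using h1

end Pool.QB.KTh.IX
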