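import Pool.Agent.MP_c51823_gt.QB.KTh.EmbDef

/-!
# [QBK-X] Excision

For a relative homeomorphism `f : (Y, B) → (Y', B')` a function `g` on `Y` which is `1` on `B` descends
to `g'` on `Y'` with `g' (f y) = g y` and `g' = 1` on `B'`: `Sum.elim f Subtype.val : Y ⊕ B' → Y'` is a
closed continuous surjection, hence a quotient map. `g'` is scalar on `S'` because a point of `S' ∖ B'`
is `f y` with `y ∈ S`. So `pull f` is bijective on `GF`, also for the cylinders (`rh_cyl`), hence on
`K1`: `exists_cl`, `cl_eq_zero`.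
-/

set_option autoImplicit false
open Topology

namespace Pool.QB.KTh

variable {Y Y' : Type} [TopologicalSpace Y] [CompactSpace Y] [T2Space Y] [TopologicalSpace Y']
  [CompactSpace Y'] [T2Space Y'] {B S : Set Y} {B' S' : Set Y'} {f : C(Y, Y')}

theorem rh_cyl (h : RH B S B' S' f) : RH (cyl B) (cyl S) (cyl B') (cyl S') (cylMap f) where
  closedB := isClosed_cyl h.closedB
  mB := mapsTo_cyl h.mB
  mS := mapsTo_cyl h.mS
  refl := fun y hy => h.refl y.1 hy
  bij := by
    refine ⟨fun y hy => h.bij.mapsTo (show y.1 ∈ Bᶜ from hy), ?_, ?_⟩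
    · intro a ha b hb hab
      have h1 : f a.1 = f b.1 := congrArg Prod.fst hab
      have h2 : a.2 = b.2 := congrArg (Prod.snd (α := Y')) hab
      exact Prod.ext (h.bij.injOn (show a.1 ∈ Bᶜ from ha) (show b.1 ∈ Bᶜ from hb) h1) h2
    · intro y hy
      obtain ⟨x, hx, hxy⟩ := h.bij.surjOn (show y.1 ∈ B'ᶜ from hy)
      exact ⟨(x, y.2), hx, Prod.ext hxy rfl⟩
  hS := fun y hy => h.hS y.1 hy

theorem rh_sus (h : RH B S B' S' f) : RH (susB B) (cyl S) (susB B') (cyl S') (cylMap f) where
  closedB := isClosed_susB h.closedB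
  mB := mapsTo_susB h.mB
  mS := mapsTo_cyl h.mS
  refl := by
    rintro y (hy | hy | hy)
    · exact Or.inl (h.refl y.1 hy)
    · exact Or.inr (Or.inl hy)
    · exact Or.inr (Or.inr hy)
  bij := by
    have hsplit : ∀ y : Y × I, y ∈ (susB B)ᶜ → y.1 ∈ Bᶜ := fun y hy h1 => hy (Or.inl h1)
    refine ⟨?_, ?_, ?_⟩
    · intro y hy hy'
      rcases hy' with h1 | h1 | h1
      · exact h.bij.mapsTo (hsplit y hy) h1
      · exact hy (Or.inr (Or.inl h1))
      · exact hy (Or.inr (Or.inr h1))
    · intro a ha b hb hab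
      have h1 : f a.1 = f b.1 := congrArg Prod.fst hab
      have h2 : a.2 = b.2 := congrArg (Prod.snd (α := Y')) hab
      exact Prod.ext (h.bij.injOn (hsplit a ha) (hsplit b hb) h1) h2
    · intro y hy
      have hy1 : y.1 ∈ B'ᶜ := fun h1 => hy (Or.inl h1)
      obtain ⟨x, hx, hxy⟩ := h.bij.surjOn hy1
      refine ⟨(x, y.2), ?_, Prod.ext hxy rfl⟩
      rintro (h1 | h1 | h1)
      · exact hx h1
      · exact hy (Or.inr (Or.inl h1))
      · exact hy (Or.inr (Or.inr h1))
  hS := fun y hy => by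
    rcases h.hS y.1 hy with h1 | h1
    · exact Or.inl (Or.inl h1)
    · exact Or.inr h1

namespace Excis_aux

/-- the gluing map -/
def gl (B' : Set Y') (f : C(Y, Y')) : Y ⊕ B' → Y' := Sum.elim f Subtype.val

theorem gl_quot (h : RH B S B' S' f) : IsQuotientMap (gl B' f) := by
  have : CompactSpace B' := isCompact_iff_compactSpace.mp h.closedB.isCompact
  have hc : Continuous (gl B' f) := f.continuous.sumElim continuous_subtype_val
  refine IsClosedMap.isQuotientMap hc.isClosedMap hc ?_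
  intro y
  by_cases hy : y ∈ B'
  · exact ⟨Sum.inr ⟨y, hy⟩, rfl⟩
  · obtain ⟨x, _, hx⟩ := h.bij.surjOn (show y ∈ B'ᶜ from hy)
    exact ⟨Sum.inl x, hx⟩

variable {M : Type} [TopologicalSpace M]

/-- descent of a function with value `m` on `B` -/
theorem descend (h : RH B S B' S' f) (g : C(Y, M)) (m : M) (hg : ∀ y ∈ B, g y = m) :
    ∃ g' : C(Y', M), (∀ y, g' (f y) = g y) ∧ ∀ y ∈ B', g' y = m := by
  let G : C(Y ⊕ B', M) := ⟨Sum.elim g fun _ => m, g.continuous.sumElim continuous_const⟩
  have hfac : Function.FactorsThrough G (gl B' f) := by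
    have key : ∀ y : Y, f y ∈ B' → g y = m := fun y hy => hg y (h.refl y hy)
    rintro (a | a) (b | b) hab
    · have hab' : f a = f b := hab
      change g a = g b
      by_cases ha : f a ∈ B'
      · rw [key a ha, key b (by rwa [← hab'])]
      · have ha' : a ∈ Bᶜ := fun hh => ha (h.mB hh)
        have hb' : b ∈ Bᶜ := fun hh => ha (by rw [hab']; exact h.mB hh)
        rw [h.bij.injOn ha' hb' hab']
    · have hab' : f a = b.1 := hab
      change g a = m
      exact key a (by rw [hab']; exact b.2)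
    · have hab' : a.1 = f b := hab
      change m = g b
      exact (key b (by rw [← hab']; exact a.2)).symm
    · rfl
  let g' : C(Y', M) := (gl_quot h).lift (f := ⟨gl B' f, (gl_quot h).continuous⟩) G hfac
  have hg' : ∀ x, g' (gl B' f x) = G x := fun x =>
    congrArg (fun F : C(Y ⊕ B', M) => F x)
      ((gl_quot h).lift_comp (f := ⟨gl B' f, (gl_quot h).continuous⟩) G hfac)
  exact ⟨g', fun y => hg' (Sum.inl y), fun y hy => hg' (Sum.inr ⟨y, hy⟩)⟩

end Excis_aux

open Excis_aux

theorem pull_bijective (h : RH B S B' S' f) (ι : Type) [Fintype ι] [DecidableEq ι] :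
    Function.Bijective (pull f h.mB h.mS ι) := by
  have hcov : ∀ y' : Y', y' ∈ B' ∨ ∃ y, f y = y' := by
    intro y'
    by_cases hy : y' ∈ B'
    · exact Or.inl hy
    · obtain ⟨x, _, hx⟩ := h.bij.surjOn (show y' ∈ B'ᶜ from hy)
      exact Or.inr ⟨x, hx⟩
  constructor
  · intro a b hab
    apply Subtype.ext
    apply Units.ext
    ext1 y'
    rcases hcov y' with hy | ⟨y, rfl⟩
    · rw [a.2.1 y' hy, b.2.1 y' hy]
    · have := congrArg (fun g : GF B S ι => g.1.1 y) hab
      exact this
  · intro g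
    have hginv : ∀ y ∈ B, (g.1⁻¹).1 y = 1 := (g⁻¹).2.1
    obtain ⟨u, hu, hu'⟩ := descend h g.1.1 1 g.2.1
    obtain ⟨v, hv, hv'⟩ := descend h (g.1⁻¹).1 1 hginv
    have huv : u * v = 1 := by
      ext1 y'
      rcases hcov y' with hy | ⟨y, rfl⟩
      · change u y' * v y' = 1
        rw [hu' y' hy, hv' y' hy, one_mul]
      · change u (f y) * v (f y) = 1
        rw [hu, hv]
        have h2 : g.1.1 * (g.1⁻¹).1 = 1 := by rw [← Units.val_mul]; simp
        exact congrArg (fun F : C(Y, Matrix ι ι R) => F y) h2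
    have hvu : v * u = 1 := by
      ext1 y'
      rcases hcov y' with hy | ⟨y, rfl⟩
      · change v y' * u y' = 1
        rw [hu' y' hy, hv' y' hy, one_mul]
      · change v (f y) * u (f y) = 1
        rw [hu, hv]
        have h2 : (g.1⁻¹).1 * g.1.1 = 1 := by rw [← Units.val_mul]; simp
        exact congrArg (fun F : C(Y, Matrix ι ι R) => F y) h2
    refine ⟨⟨⟨u, v, huv, hvu⟩, hu', ?_⟩, ?_⟩
    · intro y' hy'
      change u y' ∈ sc ι ∧ v y' ∈ sc ι
      by_cases hB : y' ∈ B'
      · rw [hu' y' hB, hv' y' hB]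
        exact ⟨one_mem _, one_mem _⟩
      · obtain ⟨y, hyB, rfl⟩ := h.bij.surjOn (show y' ∈ B'ᶜ from hB)
        rw [hu, hv]
        rcases h.hS y hy' with h1 | h1
        · exact absurd h1 hyB
        · exact g.2.2 y h1
    · apply Subtype.ext
      apply Units.ext
      ext1 y
      exact hu y

theorem kmap_bijective (h : RH B S B' S' f) : Function.Bijective (kmap f h.mB h.mS) := by
  constructor
  · rw [injective_iff_map_eq_zero]
    intro x hx
    obtain ⟨n, g, rfl⟩ := exists_cl x
    rw [kmap_cl, cl_eq_zero] at hx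
    rw [cl_eq_zero]
    obtain ⟨m, H, h0, h1⟩ := hx
    obtain ⟨H', rfl⟩ := (pull_bijective (rh_cyl h) (Fin n ⊕ Fin m)).2 H
    refine ⟨m, H', ?_, ?_⟩
    · apply (pull_bijective h (Fin n ⊕ Fin m)).1
      rw [map_one]
      exact h0
    · apply (pull_bijective h (Fin n ⊕ Fin m)).1
      refine Eq.trans ?_ (h1.trans ?_)
      · rfl
      · apply Subtype.ext
        apply Units.ext
        ext1 y
        rfl
  · intro x
    obtain ⟨n, g, rfl⟩ := exists_cl x
    obtain ⟨g', rfl⟩ := (pull_bijective h (Fin n)).2 g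
    exact ⟨cl g', kmap_cl f h.mB h.mS g'⟩

end Pool.QB.KTh
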