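import Pool.Agent.MP_c51823_gt.QB.KTh.KMap

/-!
# [QBK-T] `2 = 0` if `Y` can be contracted into `B`

`x = cl g`, `g ∈ GF B S (Fin n)`. Write `G ∈ M_{n × 2}(R)` for `g ⊕ g`, i.e. `G (k,b) (l,b')` is `g k l` if
`b = b'` and `0` otherwise (a reindexing of `gsum g g`). Let `W ∈ M₂(R)` be the swap,
`W b b' = single b' b 1 ∈ R = M₂(ℂ)` (`Matrix.single b' b 1`); `W² = 1` and for `m ∈ R`,
`W (diagonal (m, m)) W = (m b b' • 1)_{b b'}`. `U_t = (1+W)/2 + e^{iπt} (1-W)/2` is a path of invertible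
elements of `M₂(R)`, `U_0 = 1`, `U_1 = W`; `1 ⊗ U_t ∈ M_{n × 2}(R)` commutes with `G(y)` if `g(y)` is
scalar. So `(1 ⊗ U_t) G (1 ⊗ U_t)⁻¹` is a path in `GF B S` (it is `G` on `S`) from `G` to `G'`, all of
whose values are scalar matrices: `G' (k,b) (l,b') = (g k l) b b' • 1`. Finally `G'_t (y) = G' (c (y, t))`
is a path in `GF B S` (scalar everywhere, `1` on `B`) from `G'` to `1`.
-/

set_option autoImplicit false
open Topology

namespace Pool.QB.KTh

namespace Two_aux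

variable {ι : Type} [Fintype ι] [DecidableEq ι]

/-- constant diagonal matrix -/
def D (ι : Type) [DecidableEq ι] (r : R) : Matrix ι ι R := Matrix.diagonal fun _ => r

theorem D_mul (r s : R) : D ι r * D ι s = D ι (r * s) := by
  unfold D
  rw [Matrix.diagonal_mul_diagonal]

omit [Fintype ι] in
theorem D_add (r s : R) : D ι r + D ι s = D ι (r + s) := by
  unfold D
  rw [Matrix.diagonal_add]

omit [Fintype ι] in
theorem D_one : D ι 1 = 1 := by
  unfold D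
  exact Matrix.diagonal_one

omit [Fintype ι] in
theorem D_zero : D ι 0 = 0 := by
  unfold D
  exact Matrix.diagonal_zero

/-- the swap -/
def Wm (ι : Type) [DecidableEq ι] : Matrix (ι ⊕ ι) (ι ⊕ ι) R :=
  Matrix.fromBlocks (D ι (Matrix.single 0 0 1)) (D ι (Matrix.single 1 0 1))
    (D ι (Matrix.single 0 1 1)) (D ι (Matrix.single 1 1 1))

theorem Wm_sq : Wm ι * Wm ι = 1 := by
  unfold Wm
  rw [Matrix.fromBlocks_multiply]
  simp only [D_mul, D_add]
  have h1 : (Matrix.single 0 0 1 * Matrix.single 0 0 1 +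
      Matrix.single 1 0 1 * Matrix.single 0 1 1 : R) = 1 := by
    ext i j; fin_cases i <;> fin_cases j <;> simp
  have h2 : (Matrix.single 0 0 1 * Matrix.single 1 0 1 +
      Matrix.single 1 0 1 * Matrix.single 1 1 1 : R) = 0 := by
    ext i j; fin_cases i <;> fin_cases j <;> simp
  have h3 : (Matrix.single 0 1 1 * Matrix.single 0 0 1 +
      Matrix.single 1 1 1 * Matrix.single 0 1 1 : R) = 0 := by
    ext i j; fin_cases i <;> fin_cases j <;> simp
  have h4 : (Matrix.single 0 1 1 * Matrix.single 1 0 1 +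
      Matrix.single 1 1 1 * Matrix.single 1 1 1 : R) = 1 := by
    ext i j; fin_cases i <;> fin_cases j <;> simp
  rw [h1, h2, h3, h4, D_one, D_zero, Matrix.fromBlocks_one]

theorem D_sandwich (r s : R) (g : Matrix ι ι R) (i j : ι) :
    (D ι r * g * D ι s) i j = r * g i j * s := by
  unfold D
  rw [Matrix.mul_diagonal, Matrix.diagonal_mul]

theorem Wm_conj_mem (g : Matrix ι ι R) :
    Wm ι * Matrix.fromBlocks g 0 0 g * Wm ι ∈ sc (ι ⊕ ι) := by
  rw [mem_sc_iff]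
  unfold Wm
  rw [Matrix.fromBlocks_multiply, Matrix.fromBlocks_multiply]
  simp only [Matrix.mul_zero, add_zero, zero_add]
  intro i j
  rcases i with i | i <;> rcases j with j | j <;>
    simp only [Matrix.fromBlocks_apply₁₁, Matrix.fromBlocks_apply₁₂, Matrix.fromBlocks_apply₂₁,
      Matrix.fromBlocks_apply₂₂, Matrix.add_apply, D_sandwich] <;>
    simp [Matrix.mul_apply, Matrix.single_apply]

theorem Wm_comm (g : Matrix ι ι R) (hg : g ∈ sc ι) :
    Wm ι * Matrix.fromBlocks g 0 0 g = Matrix.fromBlocks g 0 0 g * Wm ι := by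
  have h : ∀ r : R, D ι r * g = g * D ι r := by
    intro r
    obtain ⟨n, rfl⟩ := hg
    refine Matrix.ext fun i j => ?_
    unfold D
    rw [Matrix.diagonal_mul, Matrix.mul_diagonal]
    exact (Algebra.commutes (n i j) r).symm
  unfold Wm
  rw [Matrix.fromBlocks_multiply, Matrix.fromBlocks_multiply]
  simp only [Matrix.mul_zero, Matrix.zero_mul, add_zero, zero_add]
  rw [h, h, h, h]

/-- the path of invertible matrices -/
noncomputable def Vm (ι : Type) [Fintype ι] [DecidableEq ι] (z : ℂ) : Matrix (ι ⊕ ι) (ι ⊕ ι) R :=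
  ((1 + z) / 2) • 1 + ((1 - z) / 2) • Wm ι

theorem Vm_mul (z w : ℂ) : Vm ι z * Vm ι w = Vm ι (z * w) := by
  unfold Vm
  have h : (((1 + z) / 2) • 1 + ((1 - z) / 2) • Wm ι) * (((1 + w) / 2) • 1 + ((1 - w) / 2) • Wm ι) =
      (((1 + z) / 2) * ((1 + w) / 2) + ((1 - z) / 2) * ((1 - w) / 2)) • 1 +
      (((1 + z) / 2) * ((1 - w) / 2) + ((1 - z) / 2) * ((1 + w) / 2)) • Wm ι := by
    generalize (1 + z) / 2 = a
    generalize (1 - z) / 2 = b
    generalize (1 + w) / 2 = a'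
    generalize (1 - w) / 2 = b'
    rw [add_mul, mul_add, mul_add, smul_mul_smul_comm, smul_mul_smul_comm, smul_mul_smul_comm,
      smul_mul_smul_comm, Wm_sq, one_mul, one_mul, mul_one, add_smul, add_smul]
    abel
  rw [h]
  congr 2 <;> ring

theorem Vm_one : Vm ι 1 = 1 := by
  unfold Vm
  simp

theorem Vm_neg_one : Vm ι (-1) = Wm ι := by
  unfold Vm
  norm_num

theorem Vm_comm (z : ℂ) (g : Matrix ι ι R) (hg : g ∈ sc ι) :
    Vm ι z * Matrix.fromBlocks g 0 0 g = Matrix.fromBlocks g 0 0 g * Vm ι z := by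
  unfold Vm
  simp only [add_mul, mul_add, smul_mul_assoc, mul_smul_comm, one_mul, mul_one, Wm_comm g hg]

theorem continuous_Vm : Continuous (Vm ι) := by
  unfold Vm
  fun_prop

/-- The function `z_t` on the interval. -/
noncomputable def zt (s : ℝ) (t : I) : ℂ := Complex.exp ((s * Real.pi * (t : ℝ) : ℝ) * Complex.I)

theorem continuous_zt (s : ℝ) : Continuous (zt s) := by
  unfold zt
  fun_prop

theorem zt_mul (s : ℝ) (t : I) : zt s t * zt (-s) t = 1 := by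
  unfold zt
  rw [← Complex.exp_add, ← Complex.exp_zero]
  congr 1
  push_cast
  ring

theorem zt_zero (s : ℝ) : zt s 0 = 1 := by
  unfold zt
  simp

theorem zt_one : zt 1 1 = -1 := by
  unfold zt
  simp

theorem zt_neg_one : zt (-1) 1 = -1 := by
  unfold zt
  simp [Complex.exp_neg]

/-- the path as a function on a cylinder -/
noncomputable def VFn (Y ι : Type) [TopologicalSpace Y] [Fintype ι] [DecidableEq ι] (s : ℝ) :
    C(Y × I, Matrix (ι ⊕ ι) (ι ⊕ ι) R) :=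
  ⟨fun p => Vm ι (zt s p.2), continuous_Vm.comp ((continuous_zt s).comp continuous_snd)⟩

theorem VFn_mul (Y : Type) [TopologicalSpace Y] (s : ℝ) : VFn Y ι s * VFn Y ι (-s) = 1 := by
  ext1 p
  change Vm ι (zt s p.2) * Vm ι (zt (-s) p.2) = 1
  rw [Vm_mul, zt_mul, Vm_one]

/-- the path as a unit -/
noncomputable def VU (Y ι : Type) [TopologicalSpace Y] [Fintype ι] [DecidableEq ι] :
    (C(Y × I, Matrix (ι ⊕ ι) (ι ⊕ ι) R))ˣ :=
  ⟨VFn Y ι 1, VFn Y ι (-1), VFn_mul Y 1, by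
    have := VFn_mul (ι := ι) Y (-1)
    rwa [neg_neg] at this⟩

variable {Y : Type} [TopologicalSpace Y] {B S : Set Y}

theorem V_conj_mem (t : I) (g : Matrix ι ι R) (hg : g ∈ sc ι) :
    Vm ι (zt 1 t) * Matrix.fromBlocks g 0 0 g * Vm ι (zt (-1) t) = Matrix.fromBlocks g 0 0 g := by
  rw [Vm_comm _ g hg, mul_assoc, Vm_mul, zt_mul, Vm_one, mul_one]

/-- the first homotopy -/
noncomputable def H1 (g : GF B S ι) : GF (cyl B) (cyl S) (ι ⊕ ι) :=
  ⟨VU Y ι * (pull (prMap Y) (B := cyl B) (S := cyl S) (fun _ h => h) (fun _ h => h) (ι ⊕ ι)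
      (gsum g g)).1 * (VU Y ι)⁻¹, fun p hp => by
      change Vm ι (zt 1 p.2) * Matrix.fromBlocks (g.1.1 p.1) 0 0 (g.1.1 p.1) *
        Vm ι (zt (-1) p.2) = 1
      rw [g.2.1 p.1 hp, Matrix.fromBlocks_one, mul_one, Vm_mul, zt_mul, Vm_one],
    fun p hp => ⟨by
      change Vm ι (zt 1 p.2) * Matrix.fromBlocks (g.1.1 p.1) 0 0 (g.1.1 p.1) *
        Vm ι (zt (-1) p.2) ∈ _
      rw [V_conj_mem p.2 _ (g.2.2 p.1 hp).1]
      exact fromBlocks_mem_sc (g.2.2 p.1 hp).1 (g.2.2 p.1 hp).1, by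
      rw [mul_inv_rev, mul_inv_rev, inv_inv]
      change Vm ι (zt 1 p.2) * (Matrix.fromBlocks ((g⁻¹).1.1 p.1) 0 0 ((g⁻¹).1.1 p.1) *
        Vm ι (zt (-1) p.2)) ∈ _
      have h2 : (g⁻¹).1.1 p.1 ∈ sc ι := (g.2.2 p.1 hp).2
      rw [← mul_assoc, V_conj_mem p.2 _ h2]
      exact fromBlocks_mem_sc h2 h2⟩⟩

theorem H1_apply (g : GF B S ι) (p : Y × I) : (H1 g).1.1 p =
    Vm ι (zt 1 p.2) * Matrix.fromBlocks (g.1.1 p.1) 0 0 (g.1.1 p.1) * Vm ι (zt (-1) p.2) := rfl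

/-- the swap as a unit -/
noncomputable def WU (Y ι : Type) [TopologicalSpace Y] [Fintype ι] [DecidableEq ι] :
    (C(Y, Matrix (ι ⊕ ι) (ι ⊕ ι) R))ˣ :=
  ⟨⟨fun _ => Wm ι, continuous_const⟩, ⟨fun _ => Wm ι, continuous_const⟩, by
      ext1 y
      exact Wm_sq, by
      ext1 y
      exact Wm_sq⟩

/-- the conjugate by the swap: scalar everywhere -/
noncomputable def G2 (g : GF B S ι) : GF B Set.univ (ι ⊕ ι) :=
  ⟨WU Y ι * (gsum g g).1 * (WU Y ι)⁻¹, fun y hy => by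
      change Wm ι * Matrix.fromBlocks (g.1.1 y) 0 0 (g.1.1 y) * Wm ι = 1
      rw [g.2.1 y hy, Matrix.fromBlocks_one, mul_one, Wm_sq],
    fun y _ => ⟨by
      change Wm ι * Matrix.fromBlocks (g.1.1 y) 0 0 (g.1.1 y) * Wm ι ∈ _
      exact Wm_conj_mem _, by
      rw [mul_inv_rev, mul_inv_rev, inv_inv]
      change Wm ι * (Matrix.fromBlocks ((g⁻¹).1.1 y) 0 0 ((g⁻¹).1.1 y) * Wm ι) ∈ _
      rw [← mul_assoc]
      exact Wm_conj_mem _⟩⟩

theorem G2_apply (g : GF B S ι) (y : Y) : (G2 g).1.1 y =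
    Wm ι * Matrix.fromBlocks (g.1.1 y) 0 0 (g.1.1 y) * Wm ι := rfl

end Two_aux

open Two_aux in
theorem two_torsion {Y : Type} [TopologicalSpace Y] {B S : Set Y} (c : C(Y × I, Y))
    (c0 : ∀ y, c (y, 0) = y) (c1 : ∀ y, c (y, 1) ∈ B) (cB : ∀ y ∈ B, ∀ t, c (y, t) ∈ B)
    (x : K1 B S) : x + x = 0 := by
  obtain ⟨n, g, rfl⟩ := exists_cl x
  have e0 : ev 0 (H1 g) = gsum g g := by
    apply gf_ext
    intro y
    change Vm (Fin n) (zt 1 0) * Matrix.fromBlocks (g.1.1 y) 0 0 (g.1.1 y) *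
      Vm (Fin n) (zt (-1) 0) = Matrix.fromBlocks (g.1.1 y) 0 0 (g.1.1 y)
    rw [zt_zero, zt_zero, Vm_one, one_mul, mul_one]
  let H2 : GF (cyl B) (cyl S) (Fin n ⊕ Fin n) :=
    pull c (fun p hp => cB p.1 hp p.2) (fun _ _ => Set.mem_univ _) (Fin n ⊕ Fin n) (G2 g)
  have e1 : ev 1 (H1 g) = ev 0 H2 := by
    apply gf_ext
    intro y
    change Vm (Fin n) (zt 1 1) * Matrix.fromBlocks (g.1.1 y) 0 0 (g.1.1 y) *
      Vm (Fin n) (zt (-1) 1) =
      Wm (Fin n) * Matrix.fromBlocks (g.1.1 (c (y, 0))) 0 0 (g.1.1 (c (y, 0))) * Wm (Fin n)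
    rw [zt_one, zt_neg_one, Vm_neg_one, c0]
  have e2 : ev 1 H2 = 1 := by
    apply gf_ext
    intro y
    change Wm (Fin n) * Matrix.fromBlocks (g.1.1 (c (y, 1))) 0 0 (g.1.1 (c (y, 1))) * Wm (Fin n) = 1
    rw [g.2.1 _ (c1 y), Matrix.fromBlocks_one, mul_one, Wm_sq]
  rw [← cl_gsum, ← e0, cl_homotopy, e1, cl_homotopy, e2, cl_one]

end Pool.QB.KTh
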