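import Pool.Agent.MP_c51823_gt.QB.KTh.Exact
import Pool.Agent.MP_c51823_gt.QB.KTh.Excis
import Pool.Agent.MP_c51823_gt.QB.KTh.Two
import Pool.Agent.MP_c51823_gt.QB.HT

/-!
# [QBK] Formal assembly (helper58): the spaces `Yq X q = X × I × I^q`, the groups
`Hq q P = K1 (Bq q P.A) (Sq q)`, functoriality, homotopy, boundary, exactness, excision, `2 = 0`.
-/

set_option autoImplicit false
open Topology

namespace Pool.QB.KTh

/-- `X × I × I^q` -/
def Yq (X : Type) : ℕ → Type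
  | 0 => X × I
  | q + 1 => Yq X q × I

instance topYq (X : Type) [TopologicalSpace X] : (q : ℕ) → TopologicalSpace (Yq X q)
  | 0 => inferInstanceAs (TopologicalSpace (X × I))
  | q + 1 =>
    letI := topYq X q
    inferInstanceAs (TopologicalSpace (Yq X q × I))

instance cptYq (X : Type) [TopologicalSpace X] [CompactSpace X] : (q : ℕ) → CompactSpace (Yq X q)
  | 0 => inferInstanceAs (CompactSpace (X × I))
  | q + 1 =>
    letI := cptYq X q
    inferInstanceAs (CompactSpace (Yq X q × I))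

instance t2Yq (X : Type) [TopologicalSpace X] [T2Space X] : (q : ℕ) → T2Space (Yq X q)
  | 0 => inferInstanceAs (T2Space (X × I))
  | q + 1 =>
    letI := t2Yq X q
    inferInstanceAs (T2Space (Yq X q × I))

section
variable {X X' X'' : Type} [TopologicalSpace X] [TopologicalSpace X'] [TopologicalSpace X'']

/-- the set on which the functions are `1` -/
def Bq (A : Set X) : (q : ℕ) → Set (Yq X q)
  | 0 => {p : X × I | p.1 ∈ A ∨ p.2 = 1}
  | q + 1 => susB (Bq A q)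

/-- the set on which the functions are scalar -/
def Sq (X : Type) [TopologicalSpace X] : (q : ℕ) → Set (Yq X q)
  | 0 => {p : X × I | p.2 = 0}
  | q + 1 => cyl (Sq X q)

/-- the projection to `X` -/
def prq (X : Type) [TopologicalSpace X] : (q : ℕ) → C(Yq X q, X)
  | 0 => prMap X
  | q + 1 => (prq X q).comp (prMap (Yq X q))

/-- functoriality of `Yq` -/
def Ymap (f : C(X, X')) : (q : ℕ) → C(Yq X q, Yq X' q)
  | 0 => cylMap f
  | q + 1 => cylMap (Ymap f q)

/-- homotopies on `Yq` -/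
def YmapH (F : C(X × I, X')) : (q : ℕ) → C(Yq X q × I, Yq X' q)
  | 0 => (⟨fun p => (F (p.1.1, p.2), p.1.2), by fun_prop⟩ : C((X × I) × I, X' × I))
  | q + 1 => (⟨fun p => (YmapH F q (p.1.1, p.2), p.1.2), by fun_prop⟩ :
      C((Yq X q × I) × I, Yq X' q × I))

/-- contraction into `Bq` -/
def ctr (X : Type) [TopologicalSpace X] : (q : ℕ) → C(Yq X q × I, Yq X q)
  | 0 => (⟨fun p => (p.1.1, max p.1.2 p.2), by fun_prop⟩ : C((X × I) × I, X × I))
  | q + 1 => (⟨fun p => (ctr X q (p.1.1, p.2), p.1.2), by fun_prop⟩ :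
      C((Yq X q × I) × I, Yq X q × I))

theorem Ymap_id : ∀ q, Ymap (ContinuousMap.id X) q = ContinuousMap.id (Yq X q)
  | 0 => rfl
  | q + 1 => by
    change cylMap (Ymap (ContinuousMap.id X) q) = _
    rw [Ymap_id q]
    rfl

theorem Ymap_comp (g : C(X', X'')) (f : C(X, X')) : ∀ q,
    Ymap (g.comp f) q = (Ymap g q).comp (Ymap f q)
  | 0 => rfl
  | q + 1 => by
    change cylMap (Ymap (g.comp f) q) = (cylMap (Ymap g q)).comp (cylMap (Ymap f q))
    rw [Ymap_comp g f q]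
    rfl

theorem prq_Ymap (f : C(X, X')) : ∀ q (y : Yq X q), prq X' q (Ymap f q y) = f (prq X q y)
  | 0, _ => rfl
  | q + 1, y => prq_Ymap f q y.1

theorem mapsTo_Bq {f : C(X, X')} {A : Set X} {A' : Set X'} (h : Set.MapsTo f A A') :
    ∀ q, Set.MapsTo (Ymap f q) (Bq A q) (Bq A' q)
  | 0 => by
    rintro y (hy | hy)
    · exact Or.inl (h hy)
    · exact Or.inr hy
  | q + 1 => mapsTo_susB (mapsTo_Bq h q)

theorem mapsTo_Sq (f : C(X, X')) : ∀ q, Set.MapsTo (Ymap f q) (Sq X q) (Sq X' q)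
  | 0 => fun _ hy => hy
  | q + 1 => mapsTo_cyl (mapsTo_Sq f q)

theorem isClosed_Bq {A : Set X} (h : IsClosed A) : ∀ q, IsClosed (Bq A q)
  | 0 => by
    have h1 : IsClosed {p : X × I | p.2 = 1} := isClosed_eq continuous_snd continuous_const
    exact (h.preimage continuous_fst).union h1
  | q + 1 => isClosed_susB (isClosed_Bq h q)

theorem isClosed_Sq : ∀ q, IsClosed (Sq X q)
  | 0 => isClosed_eq continuous_snd continuous_const
  | q + 1 => isClosed_cyl (isClosed_Sq q)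

theorem YmapH_zero (F : C(X × I, X')) (f : C(X, X')) (h : ∀ x, F (x, 0) = f x) :
    ∀ q y, YmapH F q (y, 0) = Ymap f q y
  | 0, y => Prod.ext (h y.1) rfl
  | q + 1, y => Prod.ext (YmapH_zero F f h q y.1) rfl

theorem YmapH_one (F : C(X × I, X')) (f : C(X, X')) (h : ∀ x, F (x, 1) = f x) :
    ∀ q y, YmapH F q (y, 1) = Ymap f q y
  | 0, y => Prod.ext (h y.1) rfl
  | q + 1, y => Prod.ext (YmapH_one F f h q y.1) rfl

theorem mapsTo_YmapH_B (F : C(X × I, X')) {A : Set X} {A' : Set X'}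
    (h : ∀ x ∈ A, ∀ t, F (x, t) ∈ A') : ∀ q, Set.MapsTo (YmapH F q) (cyl (Bq A q)) (Bq A' q)
  | 0 => by
    rintro ⟨y, t⟩ (hy | hy)
    · exact Or.inl (h _ hy t)
    · exact Or.inr hy
  | q + 1 => by
    rintro ⟨y, t⟩ (hy | hy)
    · exact Or.inl (mapsTo_YmapH_B F h q (show (y.1, t) ∈ cyl (Bq A q) from hy))
    · exact Or.inr hy

theorem mapsTo_YmapH_S (F : C(X × I, X')) : ∀ q, Set.MapsTo (YmapH F q) (cyl (Sq X q)) (Sq X' q)
  | 0 => fun _ hy => hy
  | q + 1 => by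
    rintro ⟨y, t⟩ hy
    exact mapsTo_YmapH_S F q (show (y.1, t) ∈ cyl (Sq X q) from hy)

theorem ctr_zero : ∀ q (y : Yq X q), ctr X q (y, 0) = y
  | 0, y => Prod.ext rfl (max_eq_left bot_le)
  | q + 1, y => Prod.ext (ctr_zero q y.1) rfl

theorem ctr_one (A : Set X) : ∀ q (y : Yq X q), ctr X q (y, 1) ∈ Bq A q
  | 0, _ => Or.inr (max_eq_right le_top)
  | q + 1, y => Or.inl (ctr_one A q y.1)

theorem ctr_B (A : Set X) : ∀ q, ∀ y ∈ Bq A q, ∀ t, ctr X q (y, t) ∈ Bq A q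
  | 0, y, hy, t => by
    rcases hy with hy | hy
    · exact Or.inl hy
    · refine Or.inr ?_
      change max y.2 t = 1
      rw [hy]
      exact max_eq_left le_top
  | q + 1, y, hy, t => by
    rcases hy with hy | hy
    · exact Or.inl (ctr_B A q _ hy t)
    · exact Or.inr hy

/-- the closed embedding `Yq B → Yq X` -/
theorem cemb {A B : Set X} (hA : IsClosed A) (hAB : A ⊆ B) : ∀ q,
    CEmb (Bq (Subtype.val ⁻¹' A : Set B) q) (Sq B q) (Bq A q) (Sq X q) (Bq B q)
      (Ymap (⟨Subtype.val, continuous_subtype_val⟩ : C(B, X)) q)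
  | 0 => {
    inj := by
      rintro ⟨a, s⟩ ⟨b, t⟩ h
      have h1 : a.1 = b.1 := congrArg Prod.fst h
      have h2 : s = t := congrArg Prod.snd h
      rw [Subtype.ext h1, h2]
    hB := fun _ => Iff.rfl
    hS := fun _ => Iff.rfl
    hr := fun y => by
      constructor
      · rintro (h | h)
        · exact Or.inr ⟨(⟨y.1, h⟩, y.2), rfl⟩
        · exact Or.inl (Or.inr h)
      · rintro ((h | h) | ⟨x, hx⟩)
        · exact Or.inl (hAB h)
        · exact Or.inr h
        · refine Or.inl ?_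
          have h1 : x.1.1 = y.1 := congrArg Prod.fst hx
          rw [← h1]
          exact x.1.2
    closedB := isClosed_Bq hA 0
    closedS := isClosed_Sq 0 }
  | q + 1 => (cemb hA hAB q).sus

/-- relative homeomorphisms -/
theorem rhq {A : Set X} {A' : Set X'} (f : C(X, X')) (hA' : IsClosed A')
    (hm : Set.MapsTo f A A') (hr : ∀ x, f x ∈ A' → x ∈ A) (hb : Set.BijOn f Aᶜ A'ᶜ)
    [CompactSpace X] [T2Space X] [CompactSpace X'] [T2Space X'] : ∀ q,
    RH (Bq A q) (Sq X q) (Bq A' q) (Sq X' q) (Ymap f q)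
  | 0 => {
    closedB := isClosed_Bq hA' 0
    mB := mapsTo_Bq hm 0
    mS := mapsTo_Sq f 0
    refl := by
      rintro y (hy | hy)
      · exact Or.inl (hr _ hy)
      · exact Or.inr hy
    bij := by
      refine ⟨?_, ?_, ?_⟩
      · rintro y hy (h | h)
        · exact hy (Or.inl (hr _ h))
        · exact hy (Or.inr h)
      · rintro ⟨a, s⟩ ha ⟨b, t⟩ hb' h
        have h1 : f a = f b := congrArg Prod.fst h
        have h2 : s = t := congrArg Prod.snd h
        have h3 : a = b := hb.2.1 (fun h => ha (Or.inl h)) (fun h => hb' (Or.inl h)) h1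
        rw [h2, h3]
      · rintro ⟨b, t⟩ hbt
        obtain ⟨a, ha, hab⟩ := hb.2.2 (show b ∈ A'ᶜ from fun h => hbt (Or.inl h))
        refine ⟨(a, t), ?_, Prod.ext hab rfl⟩
        rintro (h | h)
        · exact ha h
        · exact hbt (Or.inr h)
    hS := fun _ hy => Or.inr hy }
  | q + 1 => rh_sus (rhq f hA' hm hr hb q)

end

theorem kmap_congr {Y Y' : Type} [TopologicalSpace Y] [TopologicalSpace Y'] {B S : Set Y}
    {B' S' : Set Y'} {f g : C(Y, Y')} (h : f = g) (hB : Set.MapsTo f B B') (hS : Set.MapsTo f S S')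
    (hB' : Set.MapsTo g B B') (hS' : Set.MapsTo g S S') (x : K1 B' S') :
    kmap f hB hS x = kmap g hB' hS' x := by subst h; rfl

/-! ### The groups -/

/-- the group in degree `-q` -/
abbrev Hq (q : ℕ) (P : CPair) : Type := K1 (Bq P.A q) (Sq P.X q)

/-- functoriality -/
noncomputable def hmap (q : ℕ) {P Q : CPair} (f : CPair.Map P Q) : Hq q Q →+ Hq q P :=
  kmap (Ymap f.f q) (mapsTo_Bq f.maps q) (mapsTo_Sq f.f q)

theorem hmap_id (q : ℕ) (P : CPair) (x : Hq q P) : hmap q (CPair.Map.id P) x = x := by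
  have h1 : hmap q (CPair.Map.id P) x =
      kmap (ContinuousMap.id (Yq P.X q)) (fun _ h => h) (fun _ h => h) x :=
    kmap_congr (Ymap_id q) _ _ _ _ x
  rw [h1]
  exact kmap_id _ _ x

theorem hmap_comp (q : ℕ) {P Q R : CPair} (g : CPair.Map Q R) (f : CPair.Map P Q) (x : Hq q R) :
    hmap q (g.comp f) x = hmap q f (hmap q g x) := by
  have h1 : hmap q (g.comp f) x = kmap ((Ymap g.f q).comp (Ymap f.f q))
      (fun _ h => mapsTo_Bq g.maps q (mapsTo_Bq f.maps q h))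
      (fun _ h => mapsTo_Sq g.f q (mapsTo_Sq f.f q h)) x :=
    kmap_congr (Ymap_comp g.f f.f q) _ _ _ _ x
  rw [h1]
  exact kmap_comp _ _ _ _ _ _ _ _ x

theorem h_homotopy (q : ℕ) {P Q : CPair} (f g : CPair.Map P Q) (F : C(P.X × unitInterval, Q.X))
    (h0 : ∀ x, F (x, 0) = f.f x) (h1 : ∀ x, F (x, 1) = g.f x) (hA : ∀ x ∈ P.A, ∀ t, F (x, t) ∈ Q.A) :
    hmap q f = hmap q g := by
  ext x
  exact kmap_homotopy (YmapH F q) (mapsTo_YmapH_B F hA q) (mapsTo_YmapH_S F q) _ _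
    (YmapH_zero F f.f h0 q) (YmapH_one F g.f h1 q) _ _ _ _ x

/-- the closed embedding of a triple -/
theorem tripE' (q : ℕ) (T : CTriple) :
    CEmb (Bq T.BA.A q) (Sq T.BA.X q) (Bq T.XA.A q) (Sq T.X q) (Bq T.B q) (Ymap T.i.f q) :=
  cemb T.closedA T.sub q

/-- boundary -/
noncomputable def hδ (q : ℕ) (T : CTriple) : Hq (q + 1) T.BA →+ Hq q T.XB :=
  delta (tripE' q T)

theorem h_exact_ba (q : ℕ) (T : CTriple) (x : Hq (q + 1) T.BA) :
    hδ q T x = 0 ↔ ∃ y : Hq (q + 1) T.XA, hmap (q + 1) T.i y = x :=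
  exact_sus (tripE' q T) x

theorem h_exact_xb (q : ℕ) (T : CTriple) (x : Hq q T.XB) :
    hmap q T.j x = 0 ↔ ∃ y : Hq (q + 1) T.BA, hδ q T y = x := by
  have h1 : hmap q T.j x = kmap (ContinuousMap.id (Yq T.X q)) (tripE' q T).mr (fun _ h => h) x :=
    kmap_congr (Ymap_id q) _ _ _ _ x
  rw [h1]
  exact exact_rel (tripE' q T) x

theorem h_exact_xa (q : ℕ) (T : CTriple) (x : Hq q T.XA) :
    hmap q T.i x = 0 ↔ ∃ y : Hq q T.XB, hmap q T.j y = x := by
  refine (exact_abs (tripE' q T) x).trans (exists_congr fun y => ?_)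
  have h1 : hmap q T.j y = kmap (ContinuousMap.id (Yq T.X q)) (tripE' q T).mr (fun _ h => h) y :=
    kmap_congr (Ymap_id q) _ _ _ _ y
  rw [h1]
  exact Iff.rfl

theorem hδ_nat (q : ℕ) {T U : CTriple} (m : CTriple.Map T U) (x : Hq (q + 1) U.BA) :
    hmap q m.xb (hδ q U x) = hδ q T (hmap (q + 1) m.ba x) := by
  refine delta_nat (tripE' q T) (tripE' q U) (Ymap m.ba.f q) (Ymap m.f q) ?_
    (mapsTo_Bq m.ba.maps q) (mapsTo_Sq _ q) (mapsTo_Bq m.mapsA q) (mapsTo_Bq m.mapsB q)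
    (mapsTo_Sq _ q) x
  intro y
  have h1 : Ymap (m.f.comp T.i.f) q = (Ymap m.f q).comp (Ymap T.i.f q) := Ymap_comp _ _ q
  have h2 : Ymap (U.i.f.comp m.ba.f) q = (Ymap U.i.f q).comp (Ymap m.ba.f q) := Ymap_comp _ _ q
  have h3 : Ymap (m.f.comp T.i.f) q = Ymap (U.i.f.comp m.ba.f) q := rfl
  exact (congrArg (fun f => f y) (h1.symm.trans (h3.trans h2)) :)

theorem h_excision (q : ℕ) {P Q : CPair} (f : CPair.Map P Q) (hr : ∀ x, f.f x ∈ Q.A → x ∈ P.A)
    (hb : Set.BijOn f.f P.Aᶜ Q.Aᶜ) : Function.Bijective (hmap q f) :=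
  kmap_bijective (rhq f.f Q.closed f.maps hr hb q)

theorem h_two (q : ℕ) (P : CPair) (x : Hq q P) : x + x = 0 :=
  two_torsion (ctr P.X q) (ctr_zero q) (ctr_one P.A q) (ctr_B P.A q) x

end Pool.QB.KTh
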