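import Pool.Agent.MP_c51823_gt.QB.KTh.Act2
import Pool.Agent.MP_c51823_gt.QB.HT

/-!
# [QBK-L] Line bundles

`line_equiv`: `T = e M f` and `T' = T^* / tr (T^* T)`. If `e = v v^*`, `f = w w^*` then `T = c v w^*`,
`c = v^* M w ≠ 0`, `T^* T = |c|² w w^*`. Apply `act_equiv`.

`taut a : CP a → M_{a+1}(ℂ)`, `e ↦ (e i j)_{i,j ≤ a}`. `line p` with `p ≠ 0` of degree `≤ a` gives
`v i = p.coeff i / √N`. `act_mu`: `act_tensor` and `line_equiv` with the constant matrix
`M k (i,j) = [k = i + j]` (multiplication of polynomials), `M (p ⊗ q) = p q ≠ 0`.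
-/

set_option autoImplicit false
open Topology

namespace Pool.QB.KTh

variable {Y : Type} [TopologicalSpace Y] {B S : Set Y}
  {m n : Type} [Fintype m] [DecidableEq m] [Fintype n] [DecidableEq n]

namespace Line_aux

open Matrix

omit [DecidableEq m] in
/-- `e = v v^*` with `v` of norm one -/
theorem isLine_iff {e : Matrix m m ℂ} :
    IsLine e ↔ ∃ v : m → ℂ, star v ⬝ᵥ v = 1 ∧ e = vecMulVec v (star v) := by
  constructor
  · rintro ⟨v, h1, h2⟩
    refine ⟨v, ?_, ?_⟩
    · rw [← h1, dotProduct_comm]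
      rfl
    · ext i j
      rw [h2]
      rfl
  · rintro ⟨v, h1, h2⟩
    refine ⟨v, ?_, ?_⟩
    · rw [← h1, dotProduct_comm]
      rfl
    · intro i j
      rw [h2]
      rfl

omit [DecidableEq m] [DecidableEq n] in
theorem eMf {v : m → ℂ} {w : n → ℂ} (M : Matrix m n ℂ) :
    vecMulVec v (star v) * M * vecMulVec w (star w) =
      (star v ⬝ᵥ (M *ᵥ w)) • vecMulVec v (star w) := by
  rw [Matrix.mul_assoc, mul_vecMulVec, vecMulVec_mul_vecMulVec, vecMulVec_smul]

omit [DecidableEq m] [DecidableEq n] in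
theorem pt_line {e : Matrix m m ℂ} (he : IsLine e) {f : Matrix n n ℂ} (hf : IsLine f)
    (M : Matrix m n ℂ) (h : e * M * f ≠ 0) :
    ((e * M * f)ᴴ * (e * M * f)).trace ≠ 0 ∧
      (e * M * f) * (e * M * f)ᴴ = ((e * M * f)ᴴ * (e * M * f)).trace • e ∧
      (e * M * f)ᴴ * (e * M * f) = ((e * M * f)ᴴ * (e * M * f)).trace • f := by
  obtain ⟨v, hv, rfl⟩ := isLine_iff.1 he
  obtain ⟨w, hw, rfl⟩ := isLine_iff.1 hf
  rw [eMf] at h ⊢
  set c : ℂ := star v ⬝ᵥ (M *ᵥ w) with hc
  have hc0 : c ≠ 0 := by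
    intro h0
    rw [h0, zero_smul] at h
    exact h rfl
  have e1 : (c • vecMulVec v (star w))ᴴ = star c • vecMulVec w (star v) := by
    rw [conjTranspose_smul, conjTranspose_vecMulVec, star_star]
  have e2 : star c • vecMulVec w (star v) * (c • vecMulVec v (star w)) =
      (star c * c) • vecMulVec w (star w) := by
    rw [Matrix.smul_mul, Matrix.mul_smul, vecMulVec_mul_vecMulVec, hv, one_smul, smul_smul]
  have e3 : (c • vecMulVec v (star w)) * (star c • vecMulVec w (star v)) =
      (star c * c) • vecMulVec v (star v) := by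
    rw [Matrix.smul_mul, Matrix.mul_smul, vecMulVec_mul_vecMulVec, hw, one_smul, smul_smul,
      mul_comm]
  have e4 : ((star c * c) • vecMulVec w (star w)).trace = star c * c := by
    rw [trace_smul, trace_vecMulVec, dotProduct_comm, hw, smul_eq_mul, mul_one]
  rw [e1, e2, e3, e4]
  exact ⟨mul_ne_zero (star_ne_zero.2 hc0) hc0, rfl, rfl⟩

/-- the square of the norm of the coefficient vector -/
noncomputable def nn (p : Polynomial ℂ) : ℝ := ∑ k ∈ p.support, ‖p.coeff k‖ ^ 2

theorem nn_pos {p : Polynomial ℂ} (hp : p ≠ 0) : 0 < nn p := by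
  refine Finset.sum_pos (fun k hk => ?_) (Polynomial.support_nonempty.2 hp)
  have := Polynomial.mem_support_iff.1 hk
  positivity

/-- the normalised coefficient vector -/
noncomputable def vv (p : Polynomial ℂ) (a : ℕ) : Fin (a + 1) → ℂ := fun i =>
  p.coeff i / (Real.sqrt (nn p) : ℂ)

theorem sqrt_mul (p : Polynomial ℂ) : (Real.sqrt (nn p) : ℂ) * (Real.sqrt (nn p) : ℂ) = (nn p : ℂ) := by
  rw [← Complex.ofReal_mul, Real.mul_self_sqrt]
  exact Finset.sum_nonneg fun k _ => by positivity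

theorem sqrt_ne {p : Polynomial ℂ} (hp : p ≠ 0) : (Real.sqrt (nn p) : ℂ) ≠ 0 := by
  have := Real.sqrt_pos.2 (nn_pos hp)
  exact_mod_cast this.ne'

theorem vv_norm {p : Polynomial ℂ} (hp : p ≠ 0) {a : ℕ} (hd : p.natDegree ≤ a) :
    star (vv p a) ⬝ᵥ vv p a = 1 := by
  have h1 : ∀ i : Fin (a + 1), star (vv p a) i * vv p a i =
      ((‖p.coeff i‖ ^ 2 : ℝ) : ℂ) / (nn p : ℂ) := by
    intro i
    rw [← sqrt_mul, Pi.star_apply, vv, star_div₀, Complex.star_def,
      Complex.conj_ofReal, div_mul_div_comm, Complex.conj_mul', Complex.ofReal_pow]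
  unfold dotProduct
  rw [Finset.sum_congr rfl fun i _ => h1 i, ← Finset.sum_div, ← Complex.ofReal_sum,
    div_eq_one_iff_eq (by exact_mod_cast (nn_pos hp).ne')]
  congr 1
  rw [Fin.sum_univ_eq_sum_range (fun i => ‖p.coeff i‖ ^ 2) (a + 1), nn]
  symm
  refine Finset.sum_subset ?_ ?_
  · intro k hk
    have := Polynomial.le_natDegree_of_mem_supp k hk
    exact Finset.mem_range.2 (by omega)
  · intro k _ hk
    rw [Polynomial.notMem_support_iff.1 hk, norm_zero]
    norm_num

theorem vv_line (p : Polynomial ℂ) (a : ℕ) :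
    (Matrix.of fun i j : Fin (a + 1) => line p i j) = vecMulVec (vv p a) (star (vv p a)) := by
  ext i j
  rw [of_apply, vecMulVec_apply, Pi.star_apply, vv, vv, star_div₀, Complex.star_def,
    Complex.conj_ofReal, div_mul_div_comm, sqrt_mul]
  rfl

theorem vv_mul {p q : Polynomial ℂ} {a b : ℕ} (hpa : p.natDegree ≤ a) (hqb : q.natDegree ≤ b)
    (k : ℕ) : (p * q).coeff k = ∑ x : Fin (a + 1) × Fin (b + 1),
      if k = (x.1 : ℕ) + x.2 then p.coeff x.1 * q.coeff x.2 else 0 := by
  have hp := p.as_sum_range' (a + 1) (by omega)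
  have hq := q.as_sum_range' (b + 1) (by omega)
  have h1 : p * q = ∑ i ∈ Finset.range (a + 1), ∑ j ∈ Finset.range (b + 1),
      Polynomial.monomial (i + j) (p.coeff i * q.coeff j) := by
    conv_lhs => rw [hp, hq]
    rw [Finset.sum_mul_sum]
    simp only [Polynomial.monomial_mul_monomial]
  rw [h1, Polynomial.finsetSum_coeff, Fintype.sum_prod_type,
    Fin.sum_univ_eq_sum_range (fun i => ∑ y : Fin (b + 1),
      if k = i + (y : ℕ) then p.coeff i * q.coeff y else 0) (a + 1)]
  refine Finset.sum_congr rfl fun i _ => ?_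
  rw [Polynomial.finsetSum_coeff,
    Fin.sum_univ_eq_sum_range (fun j => if k = i + j then p.coeff i * q.coeff j else 0) (b + 1)]
  refine Finset.sum_congr rfl fun j _ => ?_
  rw [Polynomial.coeff_monomial]
  simp only [eq_comm]

/-- the multiplication of polynomials -/
def MM (a b : ℕ) : Matrix (Fin (a + b + 1)) (Fin (a + 1) × Fin (b + 1)) ℂ :=
  Matrix.of fun k x => if (k : ℕ) = (x.1 : ℕ) + x.2 then 1 else 0

/-- the tensor product of two vectors -/
def tv {m n : Type} (v : m → ℂ) (w : n → ℂ) : m × n → ℂ := fun x => v x.1 * w x.2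

omit [DecidableEq m] [DecidableEq n] in
theorem tv_norm {v : m → ℂ} {w : n → ℂ} (hv : star v ⬝ᵥ v = 1) (hw : star w ⬝ᵥ w = 1) :
    star (tv v w) ⬝ᵥ tv v w = 1 := by
  unfold dotProduct
  rw [Fintype.sum_prod_type]
  have h1 : ∀ i j, star (tv v w) (i, j) * tv v w (i, j) = (star v i * v i) * (star w j * w j) := by
    intro i j
    simp only [Pi.star_apply, tv, star_mul']
    ring
  simp only [h1]
  rw [← Finset.sum_mul_sum]
  have h2 : ∑ i, star v i * v i = 1 := hv
  have h3 : ∑ j, star w j * w j = 1 := hw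
  rw [h2, h3, mul_one]

theorem MM_tv {p q : Polynomial ℂ} (hp : p ≠ 0) (hq : q ≠ 0) {a b : ℕ} (hpa : p.natDegree ≤ a)
    (hqb : q.natDegree ≤ b) :
    MM a b *ᵥ tv (vv p a) (vv q b) = ((Real.sqrt (nn (p * q)) : ℂ) /
      ((Real.sqrt (nn p) : ℂ) * (Real.sqrt (nn q) : ℂ))) • vv (p * q) (a + b) := by
  funext k
  rw [Pi.smul_apply, smul_eq_mul, vv, mulVec, dotProduct]
  have h0 := sqrt_ne (mul_ne_zero hp hq)
  have h1 := sqrt_ne hp
  have h2 := sqrt_ne hq
  rw [vv_mul hpa hqb, div_mul_div_comm, mul_comm (Real.sqrt (nn (p * q)) : ℂ), mul_div_mul_right _ _ h0,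
    Finset.sum_div]
  refine Finset.sum_congr rfl fun x _ => ?_
  rw [MM, of_apply, tv, vv, vv]
  split_ifs
  · rw [one_mul, div_mul_div_comm]
  · rw [zero_mul, zero_div]

end Line_aux

open Line_aux

theorem line_equiv (e : C(Y, Matrix m m ℂ)) (he : ∀ y, IsLine (e y)) (f : C(Y, Matrix n n ℂ))
    (hf : ∀ y, IsLine (f y)) (M : C(Y, Matrix m n ℂ)) (hM : ∀ y, e y * M y * f y ≠ 0) (x : K1 B S) :
    act e (fun y => (he y).idem) x = act f (fun y => (hf y).idem) x := by
  have hT : Continuous fun y => e y * M y * f y :=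
    (e.continuous.matrix_mul M.continuous).matrix_mul f.continuous
  have hN : Continuous fun y => (((e y * M y * f y).conjTranspose * (e y * M y * f y)).trace)⁻¹ :=
    ((hT.matrix_conjTranspose.matrix_mul hT).matrix_trace).inv₀
      fun y => (pt_line (he y) (hf y) (M y) (hM y)).1
  let T : C(Y, Matrix m n ℂ) := ⟨fun y => e y * M y * f y, hT⟩
  let T' : C(Y, Matrix n m ℂ) :=
    ⟨fun y => (((e y * M y * f y).conjTranspose * (e y * M y * f y)).trace)⁻¹ •
      (e y * M y * f y).conjTranspose, hN.smul hT.matrix_conjTranspose⟩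
  refine act_equiv e _ f _ T T' ?_ ?_ x
  · intro y
    obtain ⟨h1, h2, -⟩ := pt_line (he y) (hf y) (M y) (hM y)
    have h3 : T y * T' y = (((e y * M y * f y).conjTranspose * (e y * M y * f y)).trace)⁻¹ •
        ((e y * M y * f y) * (e y * M y * f y).conjTranspose) := Matrix.mul_smul _ _ _
    rw [h3, h2, inv_smul_smul₀ h1]
  · intro y
    obtain ⟨h1, -, h2⟩ := pt_line (he y) (hf y) (M y) (hM y)
    have h3 : T' y * T y = (((e y * M y * f y).conjTranspose * (e y * M y * f y)).trace)⁻¹ •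
        ((e y * M y * f y).conjTranspose * (e y * M y * f y)) := Matrix.smul_mul _ _ _
    rw [h3]
    exact (congrArg (fun Z => (((e y * M y * f y).conjTranspose * (e y * M y * f y)).trace)⁻¹ • Z)
      h2).trans (inv_smul_smul₀ h1 _)

/-- A constant line acts trivially. -/
theorem act_const (e : C(Y, Matrix m m ℂ)) (he : ∀ y, IsLine (e y)) (hc : ∀ y y', e y = e y')
    (x : K1 B S) : act e (fun y => (he y).idem) x = x := by
  by_cases hY : Nonempty Y
  · obtain ⟨y₀⟩ := hY
    obtain ⟨v, hv1, hv2⟩ := he y₀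
    refine act_triv e _ (ContinuousMap.const Y (Matrix.of fun i _ => v i))
      (ContinuousMap.const Y (Matrix.of fun _ j => (starRingEnd ℂ) (v j))) ?_ ?_ x
    · intro y
      rw [hc y y₀]
      ext i j
      rw [hv2, Matrix.mul_apply]
      simp
    · intro y
      ext i j
      rw [Matrix.mul_apply, Matrix.one_apply, if_pos (Subsingleton.elim _ _), ← hv1]
      refine Finset.sum_congr rfl fun k _ => ?_
      exact mul_comm _ _
  · have hE : ∀ y : Y, False := fun y => hY ⟨y⟩
    exact act_triv e _ 0 0 (fun y => (hE y).elim) (fun y => (hE y).elim) x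

/-- The tautological line bundle. -/
noncomputable def taut (a : ℕ) : C(CP a, Matrix (Fin (a + 1)) (Fin (a + 1)) ℂ) :=
  ⟨fun e => Matrix.of fun i j => e.1 i j, by
    refine continuous_matrix fun i j => ?_
    exact (continuous_apply (j : ℕ)).comp ((continuous_apply (i : ℕ)).comp continuous_subtype_val)⟩

theorem taut_isLine {a : ℕ} (e : CP a) : IsLine (taut a e) := by
  obtain ⟨e, p, hp, hd, rfl⟩ := e
  exact isLine_iff.2 ⟨vv p a, vv_norm hp hd, vv_line p a⟩

theorem taut_idem {a : ℕ} (e : CP a) : taut a e * taut a e = taut a e := (taut_isLine e).idem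

/-- The operator of a map to `CP a`. -/
noncomputable def actL {a : ℕ} (g : C(Y, CP a)) : K1 B S →+ K1 B S :=
  act ((taut a).comp g) (fun _ => taut_idem _)

theorem actL_nat {Y' : Type} [TopologicalSpace Y'] {B' S' : Set Y'} (f : C(Y, Y'))
    (hB : Set.MapsTo f B B') (hS : Set.MapsTo f S S') {a : ℕ} (g : C(Y', CP a)) (x : K1 B' S') :
    kmap f hB hS (actL g x) = actL (g.comp f) (kmap f hB hS x) :=
  act_nat f hB hS _ _ _ _ (fun _ => rfl) x

theorem actL_const {a : ℕ} (g : C(Y, CP a)) (hg : ∀ y y', g y = g y') (x : K1 B S) :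
    actL g x = x :=
  act_const ((taut a).comp g) (fun _ => taut_isLine _)
    (fun y y' => congrArg (taut a) (hg y y')) x

theorem actL_homotopy {a : ℕ} (G : C(Y × I, CP a)) (g g' : C(Y, CP a)) (h0 : ∀ y, G (y, 0) = g y)
    (h1 : ∀ y, G (y, 1) = g' y) (x : K1 B S) : actL g x = actL g' x :=
  act_homotopy ((taut a).comp G) (fun _ => taut_idem _) ((taut a).comp g) (fun _ => taut_idem _)
    ((taut a).comp g') (fun _ => taut_idem _) (fun y => congrArg (taut a) (h0 y)) (fun y => congrArg (taut a) (h1 y)) x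

theorem actL_mul {a b : ℕ} (g : C(Y, CP a)) (g' : C(Y, CP b)) (x : K1 B S) :
    actL ((mu a b).comp (g.prodMk g')) x = actL g (actL g' x) := by
  -- the tensor product
  let k : C(Y, Matrix (Fin (a + 1) × Fin (b + 1)) (Fin (a + 1) × Fin (b + 1)) ℂ) :=
    ⟨fun y => Matrix.of fun p q => taut a (g y) p.1 q.1 * taut b (g' y) p.2 q.2, by
      refine continuous_matrix fun p q => ?_
      exact (((taut a).comp g).continuous.matrix_elem p.1 q.1).mul
        (((taut b).comp g').continuous.matrix_elem p.2 q.2)⟩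
  have hkey : ∀ y, IsLine (k y) ∧
      taut (a + b) (mu a b (g y, g' y)) * MM a b * k y ≠ 0 := by
    intro y
    obtain ⟨p, hp, hpa, he₁⟩ := (g y).2
    obtain ⟨q, hq, hqb, he₂⟩ := (g' y).2
    have hg : g y = ⟨line p, line_mem hp hpa⟩ := Subtype.ext he₁
    have hg' : g' y = ⟨line q, line_mem hq hqb⟩ := Subtype.ext he₂
    have hk : k y = Matrix.vecMulVec (tv (vv p a) (vv q b)) (star (tv (vv p a) (vv q b))) := by
      ext i j
      change taut a (g y) i.1 j.1 * taut b (g' y) i.2 j.2 = _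
      rw [hg, hg']
      have h1 := congrFun (congrFun (vv_line p a) i.1) j.1
      have h2 := congrFun (congrFun (vv_line q b) i.2) j.2
      have h1' : taut a ⟨line p, line_mem hp hpa⟩ i.1 j.1 = _ := h1
      have h2' : taut b ⟨line q, line_mem hq hqb⟩ i.2 j.2 = _ := h2
      rw [h1', h2', Matrix.vecMulVec_apply, Matrix.vecMulVec_apply, Matrix.vecMulVec_apply]
      simp only [Pi.star_apply, tv, star_mul']
      ring
    have hmu : taut (a + b) (mu a b (g y, g' y)) =
        Matrix.vecMulVec (vv (p * q) (a + b)) (star (vv (p * q) (a + b))) := by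
      rw [← vv_line, hg, hg']
      have h1 := mu_line p q hp hq hpa hqb
      change (Matrix.of fun i j : Fin (a + b + 1) =>
        (mu a b (⟨line p, line_mem hp hpa⟩, ⟨line q, line_mem hq hqb⟩)).1 i j) = _
      rw [h1]
    have hnv := vv_norm hp hpa
    have hnw := vv_norm hq hqb
    have hnu : star (vv (p * q) (a + b)) ⬝ᵥ vv (p * q) (a + b) = 1 :=
      vv_norm (mul_ne_zero hp hq) (Polynomial.natDegree_mul_le.trans (by omega))
    refine ⟨isLine_iff.2 ⟨_, tv_norm hnv hnw, hk⟩, ?_⟩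
    rw [hk, hmu, eMf, MM_tv hp hq hpa hqb, dotProduct_smul, hnu, smul_eq_mul, mul_one]
    have h0 := sqrt_ne (mul_ne_zero hp hq)
    have h1 := sqrt_ne hp
    have h2 := sqrt_ne hq
    refine smul_ne_zero (div_ne_zero h0 (mul_ne_zero h1 h2)) ?_
    intro h
    have h3 := congrArg (fun Z => star (vv (p * q) (a + b)) ⬝ᵥ (Matrix.mulVec Z (tv (vv p a) (vv q b)))) h
    simp only [Matrix.vecMulVec_mulVec, tv_norm hnv hnw, Matrix.zero_mulVec, dotProduct_zero,
      MulOpposite.op_one, one_smul, hnu] at h3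
    exact one_ne_zero h3
  have h1 : actL ((mu a b).comp (g.prodMk g')) x = act k (fun y => (hkey y).1.idem) x :=
    line_equiv ((taut (a + b)).comp ((mu a b).comp (g.prodMk g'))) (fun _ => taut_isLine _) k
      (fun y => (hkey y).1) (ContinuousMap.const Y (MM a b)) (fun y => (hkey y).2) x
  rw [h1]
  exact act_tensor ((taut a).comp g) (fun _ => taut_idem _) ((taut b).comp g')
    (fun _ => taut_idem _) k _ (fun _ _ _ => rfl) x

end Pool.QB.KTh
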