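import Pool.Agent.MP_c51823_gt.QB.KTh.Asm
import Pool.Agent.MP_c51823_gt.QB.KTh.Line

/-!
# [QBK] Formal assembly (helper58), part 2: line operators
-/

set_option autoImplicit false
open Topology

namespace Pool.QB.KTh

section
variable {X Y : Type} [TopologicalSpace X] [CompactSpace X] [T2Space X]
  [TopologicalSpace Y] [CompactSpace Y] [T2Space Y]

/-- the line operators -/
noncomputable def hL (q : ℕ) {a : ℕ} (g : C(X, CP a)) : Hq q (absP X) →+ Hq q (absP X) :=
  actL (g.comp (prq X q))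

theorem actL_congr {Z : Type} [TopologicalSpace Z] {B S : Set Z} {a : ℕ} {g g' : C(Z, CP a)}
    (h : g = g') (x : K1 B S) : actL g x = actL g' x := by rw [h]

theorem hL_nat (q : ℕ) {a : ℕ} (f : C(X, Y)) (g : C(Y, CP a)) (x : Hq q (absP Y)) :
    hmap q (absMap f) (hL q g x) = hL q (g.comp f) (hmap q (absMap f) x) := by
  have h1 : (g.comp (prq Y q)).comp (Ymap f q) = (g.comp f).comp (prq X q) := by
    ext1 y
    exact congrArg g (prq_Ymap f q y)
  have h2 := actL_nat (Ymap f q) (mapsTo_Bq (absMap f).maps q) (mapsTo_Sq f q)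
    (g.comp (prq Y q)) x
  exact h2.trans (actL_congr h1 _)

theorem hL_const (q : ℕ) {a : ℕ} (g : C(X, CP a)) (x : Hq q (absP X)) (h : ∀ s t, g s = g t) :
    hL q g x = x :=
  actL_const (g.comp (prq X q)) (fun _ _ => h _ _) x

theorem hL_mul (q : ℕ) {a b : ℕ} (g : C(X, CP a)) (g' : C(X, CP b)) (x : Hq q (absP X)) :
    hL q ((mu a b).comp (g.prodMk g')) x = hL q g (hL q g' x) :=
  actL_mul (g.comp (prq X q)) (g'.comp (prq X q)) x

end

end Pool.QB.KTh
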