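import Pool.Agent.MP_c51823_gt.QB.KTh.Asm2

/-!
# [QBK] Formal assembly (helper58), part 3: `Yq (Z × CP a) q ≃ Yq Z q × CP a`
-/

set_option autoImplicit false
open Topology

namespace Pool.QB.KTh

/-- `B × Z ⊆ Y × Z` -/
def pS {Y : Type} (Z : Type) (B : Set Y) : Set (Y × Z) := {p | p.1 ∈ B}

section
variable (Z W : Type) [TopologicalSpace Z] [TopologicalSpace W]

/-- `θ_q` -/
def th (q : ℕ) : C(Yq (Z × W) q, Yq Z q × W) :=
  (Ymap (⟨Prod.fst, continuous_fst⟩ : C(Z × W, Z)) q).prodMk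
    ((⟨Prod.snd, continuous_snd⟩ : C(Z × W, W)).comp (prq (Z × W) q))

/-- `ψ_q` -/
def ps : (q : ℕ) → C(Yq Z q × W, Yq (Z × W) q)
  | 0 => (⟨fun p => ((p.1.1, p.2), p.1.2), by fun_prop⟩ : C((Z × I) × W, (Z × W) × I))
  | q + 1 => (⟨fun p => (ps q (p.1.1, p.2), p.1.2), by fun_prop⟩ :
      C((Yq Z q × I) × W, Yq (Z × W) q × I))

theorem th_ps : ∀ q (p : Yq Z q × W), th Z W q (ps Z W q p) = p
  | 0, _ => rfl
  | q + 1, p => by
    have h := th_ps q (p.1.1, p.2)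
    have h1 := congrArg Prod.fst h
    have h2 := congrArg Prod.snd h
    exact Prod.ext (Prod.ext h1 rfl) h2

theorem ps_th : ∀ q (p : Yq (Z × W) q), ps Z W q (th Z W q p) = p
  | 0, _ => rfl
  | q + 1, p => Prod.ext (ps_th q p.1) rfl

theorem mapsTo_th_B (A : Set Z) : ∀ q,
    Set.MapsTo (th Z W q) (Bq (pS W A) q) (pS W (Bq A q)) := fun q =>
  mapsTo_Bq (f := (⟨Prod.fst, continuous_fst⟩ : C(Z × W, Z))) (fun _ h => h) q

theorem mapsTo_th_S : ∀ q, Set.MapsTo (th Z W q) (Sq (Z × W) q) (pS W (Sq Z q)) :=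
  mapsTo_Sq (⟨Prod.fst, continuous_fst⟩ : C(Z × W, Z))

theorem mapsTo_ps_B (A : Set Z) : ∀ q,
    Set.MapsTo (ps Z W q) (pS W (Bq A q)) (Bq (pS W A) q)
  | 0 => fun _ h => h
  | q + 1 => by
    rintro p (h | h)
    · exact Or.inl (mapsTo_ps_B A q (show (p.1.1, p.2) ∈ pS W (Bq A q) from h))
    · exact Or.inr h

theorem mapsTo_ps_S : ∀ q, Set.MapsTo (ps Z W q) (pS W (Sq Z q)) (Sq (Z × W) q)
  | 0 => fun _ h => h
  | q + 1 => fun p h => mapsTo_ps_S q (show (p.1.1, p.2) ∈ pS W (Sq Z q) from h)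

/-- the isomorphism `K1 (Bq A q × W) → K1 (Bq (A × W) q)` -/
noncomputable def kth (A : Set Z) (q : ℕ) :
    K1 (pS W (Bq A q)) (pS W (Sq Z q)) →+ K1 (Bq (pS W A) q) (Sq (Z × W) q) :=
  kmap (th Z W q) (mapsTo_th_B Z W A q) (mapsTo_th_S Z W q)

theorem kth_bijective (A : Set Z) (q : ℕ) : Function.Bijective (kth Z W A q) := by
  have h1 : ∀ x, kmap (ps Z W q) (mapsTo_ps_B Z W A q) (mapsTo_ps_S Z W q) (kth Z W A q x) = x := by
    intro x
    unfold kth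
    rw [← kmap_comp (ps Z W q) (mapsTo_ps_B Z W A q) (mapsTo_ps_S Z W q) (th Z W q)
      (mapsTo_th_B Z W A q) (mapsTo_th_S Z W q)
      ((mapsTo_th_B Z W A q).comp (mapsTo_ps_B Z W A q))
      ((mapsTo_th_S Z W q).comp (mapsTo_ps_S Z W q))]
    have h2 : (th Z W q).comp (ps Z W q) = ContinuousMap.id _ := by
      ext1 p
      exact th_ps Z W q p
    rw [kmap_congr h2 _ _ (fun _ h => h) (fun _ h => h)]
    exact kmap_id _ _ x
  have h3 : ∀ x, kth Z W A q (kmap (ps Z W q) (mapsTo_ps_B Z W A q) (mapsTo_ps_S Z W q) x) = x := by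
    intro x
    unfold kth
    rw [← kmap_comp (th Z W q) (mapsTo_th_B Z W A q) (mapsTo_th_S Z W q) (ps Z W q)
      (mapsTo_ps_B Z W A q) (mapsTo_ps_S Z W q)
      ((mapsTo_ps_B Z W A q).comp (mapsTo_th_B Z W A q))
      ((mapsTo_ps_S Z W q).comp (mapsTo_th_S Z W q))]
    have h2 : (ps Z W q).comp (th Z W q) = ContinuousMap.id _ := by
      ext1 p
      exact ps_th Z W q p
    rw [kmap_congr h2 _ _ (fun _ h => h) (fun _ h => h)]
    exact kmap_id _ _ x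
  exact ⟨Function.LeftInverse.injective h1, Function.RightInverse.surjective h3⟩

end

/-- pull-back along `Y × W → Y` -/
noncomputable def fstK {Y : Type} [TopologicalSpace Y] (W : Type) [TopologicalSpace W]
    (B S : Set Y) : K1 B S →+ K1 (pS W B) (pS W S) :=
  kmap (⟨Prod.fst, continuous_fst⟩ : C(Y × W, Y)) (fun _ h => h) (fun _ h => h)

/-- the freeness statement for `Y`, `B`, `S` -/
def FreeSt {Y : Type} [TopologicalSpace Y] (B S : Set Y) (a : ℕ) : Prop :=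
  Function.Bijective (fun c : Fin (a + 1) → K1 B S =>
    ∑ i : Fin (a + 1), (actL (B := pS (CP a) B) (S := pS (CP a) S)
      (⟨Prod.snd, continuous_snd⟩ : C(Y × CP a, CP a)))^[(i : ℕ)] (fstK (CP a) B S (c i)))

theorem kth_iter (Z : Type) [TopologicalSpace Z] (A : Set Z) (a q : ℕ) (n : ℕ)
    (x : K1 (pS (CP a) (Bq A q)) (pS (CP a) (Sq Z q))) :
    kth Z (CP a) A q ((actL (⟨Prod.snd, continuous_snd⟩ : C(Yq Z q × CP a, CP a)))^[n] x) =
      (actL ((⟨Prod.snd, continuous_snd⟩ : C(Z × CP a, CP a)).comp (prq (Z × CP a) q)))^[n]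
        (kth Z (CP a) A q x) := by
  induction n generalizing x with
  | zero => rfl
  | succ n ih =>
    rw [Function.iterate_succ_apply, Function.iterate_succ_apply, ih]
    congr 1
    exact actL_nat (th Z (CP a) q) (mapsTo_th_B Z (CP a) A q) (mapsTo_th_S Z (CP a) q)
      (⟨Prod.snd, continuous_snd⟩ : C(Yq Z q × CP a, CP a)) x

theorem kth_fstK (Z : Type) [TopologicalSpace Z] (A : Set Z) (W : Type) [TopologicalSpace W] (q : ℕ)
    (x : K1 (Bq A q) (Sq Z q)) :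
    kth Z W A q (fstK W (Bq A q) (Sq Z q) x) =
      kmap (Ymap (⟨Prod.fst, continuous_fst⟩ : C(Z × W, Z)) q) (mapsTo_th_B Z W A q)
        (mapsTo_th_S Z W q) x :=
  (kmap_comp (th Z W q) (mapsTo_th_B Z W A q) (mapsTo_th_S Z W q)
    (⟨Prod.fst, continuous_fst⟩ : C(Yq Z q × W, Yq Z q)) (fun _ h => h) (fun _ h => h)
    (fun _ h => mapsTo_th_B Z W A q h) (fun _ h => mapsTo_th_S Z W q h) x).symm

theorem hfree_term (q : ℕ) (Z : Type) [TopologicalSpace Z] [CompactSpace Z] [T2Space Z] (a n : ℕ)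
    (x : K1 (Bq (∅ : Set Z) q) (Sq Z q)) :
    (hL q (⟨Prod.snd, continuous_snd⟩ : C(Z × CP a, CP a)))^[n]
        (hmap q (absMap (⟨Prod.fst, continuous_fst⟩ : C(Z × CP a, Z))) x) =
      kth Z (CP a) ∅ q ((actL (⟨Prod.snd, continuous_snd⟩ : C(Yq Z q × CP a, CP a)))^[n]
          (fstK (CP a) (Bq ∅ q) (Sq Z q) x)) :=
  ((kth_iter Z ∅ a q n _).trans
    (congrArg (fun y => (actL ((⟨Prod.snd, continuous_snd⟩ : C(Z × CP a, CP a)).comp
      (prq (Z × CP a) q)))^[n] y) (kth_fstK Z ∅ (CP a) q x))).symm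

theorem h_free (q : ℕ) (Z : Type) [TopologicalSpace Z] [CompactSpace Z] [T2Space Z] (a : ℕ)
    (H : FreeSt (Bq (∅ : Set Z) q) (Sq Z q) a) :
    Function.Bijective (fun c : Fin (a + 1) → Hq q (absP Z) =>
      (∑ i : Fin (a + 1), (hL q (⟨Prod.snd, continuous_snd⟩ : C(Z × CP a, CP a)))^[(i : ℕ)]
        (hmap q (absMap (⟨Prod.fst, continuous_fst⟩ : C(Z × CP a, Z))) (c i)) :
          Hq q (absP (Z × CP a)))) := by
  have h1 := (kth_bijective Z (CP a) ∅ q).comp H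
  have key : (fun c : Fin (a + 1) → Hq q (absP Z) =>
      (∑ i : Fin (a + 1), (hL q (⟨Prod.snd, continuous_snd⟩ : C(Z × CP a, CP a)))^[(i : ℕ)]
        (hmap q (absMap (⟨Prod.fst, continuous_fst⟩ : C(Z × CP a, Z))) (c i)) :
          Hq q (absP (Z × CP a)))) =
      (kth Z (CP a) ∅ q) ∘ (fun c : Fin (a + 1) → K1 (Bq (∅ : Set Z) q) (Sq Z q) =>
        ∑ i : Fin (a + 1), (actL (B := pS (CP a) (Bq ∅ q)) (S := pS (CP a) (Sq Z q))
          (⟨Prod.snd, continuous_snd⟩ : C(Yq Z q × CP a, CP a)))^[(i : ℕ)]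
            (fstK (CP a) (Bq ∅ q) (Sq Z q) (c i))) := by
    funext c
    change _ = kth Z (CP a) ∅ q (∑ i : Fin (a + 1), _)
    rw [map_sum]
    exact Finset.sum_congr rfl fun i _ => hfree_term q Z a _ _
  rw [key]
  exact h1

end Pool.QB.KTh
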