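import Pool.Agent.MP_c51823_gt.QB.KTh.LoopDef
import Pool.Agent.MP_c51823_gt.QB.KTh.Approx

/-!
# [QBK-II] The index idempotent as a functional on loops

See QB_K.md, section Index. `Fin (2 N + 1) × κ` is the index set; `1 ⊗ P` is
`fun p q => if p.1 = q.1 then P p.2 q.2 else 0`.
-/

set_option autoImplicit false
open Topology

namespace Pool.QB.KTh

open IX

/-- `1 ⊗ P`. -/
def tn (m : Type) {κ : Type} [DecidableEq m] (P : Matrix κ κ R) : Matrix (m × κ) (m × κ) R :=
  Matrix.of fun p q => if p.1 = q.1 then P p.2 q.2 else 0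

theorem index_fun {X : Type} [TopologicalSpace X] [CompactSpace X] [T2Space X] {S : Set X}
    {κ : Type} [Fintype κ] [DecidableEq κ] (V : GF (∅ : Set (X × I)) (cyl S) κ)
    (hV : ∀ x, V.1.1 (x, 0) = V.1.1 (x, 1)) :
    ∃ (N : ℕ) (e : C(X, Matrix (Fin (2 * N + 1) × κ) (Fin (2 * N + 1) × κ) R)),
      1 ≤ N ∧ (∀ x, e x * e x = e x) ∧ (∀ x ∈ S, e x ∈ sc _) ∧
      (∀ (x x' : X) (P P' : Matrix κ κ R), P * P' = 1 → P' * P = 1 →
        (∀ t, V.1.1 (x', t) = P * V.1.1 (x, t) * P') → e x' = tn _ P * e x * tn _ P') ∧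
      (∀ (x : X) (T : Finset κ), (∀ t, V.1.1 (x, t) = ploop (dg T) (zf t)) →
        e x = dg (Finset.univ.filter fun p => (p.1 : ℕ) < if p.2 ∈ T then N + 1 else N)) := by
  obtain ⟨N, M, t, w, c, hN, h1, h2, h3⟩ := exists_approx V.1.1 (gf_isUnit V) hV
  have hu := unit_of_approx h3
  refine ⟨N, ⟨fun x => idx fun j : Fin (2 * N + 1) => cf t w (fun s => V.1.1 (x, s)) j,
    continuous_idx (fun i => continuous_cf t w V.1.1 i) hu⟩, hN, fun x => idx_idem (hu x),
    fun x hx => idx_mem_sc (hu x) fun i => cf_mem_sc t w (fun s => (V.2.2 (x, s) hx).1) i,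
    fun x x' P P' hP hP' hx => ?_, fun x T hx => ?_⟩
  · change idx _ = _ * idx _ * _
    have e1 : (fun j : Fin (2 * N + 1) => cf t w (fun s => V.1.1 (x', s)) j) =
        fun j : Fin (2 * N + 1) => P * cf t w (fun s => V.1.1 (x, s)) j * P' := by
      funext j
      rw [← cf_conj]
      congr 1
      funext s
      exact hx s
    have e2 : ∀ Q : Matrix κ κ R, Matrix.compRingEquiv _ _ _ (dgm (2 * N) Q) = tn _ Q := by
      intro Q
      refine Matrix.ext fun p q => ?_
      rw [comp_apply]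
      unfold dgm tn
      rw [Matrix.of_apply]
      by_cases h : p.1 = q.1
      · rw [if_pos h, h, Matrix.diagonal_apply_eq]
      · rw [if_neg h, Matrix.diagonal_apply_ne _ h]
        rfl
    rw [e1, idx_conj hP hP' (hu x), e2, e2]
  · change idx _ = _
    have e1 : (fun j : Fin (2 * N + 1) => cf t w (fun s => V.1.1 (x, s)) j) =
        pref N (dg T) c := by
      funext j
      exact cf_ploop h1 h2 (dg T) hx j
    have e2 := hu x
    rw [e1]
    refine idx_pref hN T c fun z hz => ?_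
    have e3 := hu x z hz
    rw [← e1]
    exact e3

end Pool.QB.KTh
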