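import Pool.Agent.MP_c51823_gt.QB.KTh.KDef

/-!
# [QBK] The Banach algebra structure of `M_ν(R)` (its topology is definitionally the given one)
-/

set_option autoImplicit false
open Topology

namespace Pool.QB.KTh.IX

section
attribute [local instance] Matrix.linftyOpNormedRing Matrix.linftyOpNormedAlgebra

/-- norm -/
@[reducible] noncomputable def nM (ν : Type) [Fintype ν] [DecidableEq ν] : NormedRing (Matrix ν ν R) :=
  inferInstance

/-- complex Banach algebra -/
@[reducible] noncomputable def nMA (ν : Type) [Fintype ν] [DecidableEq ν] :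
    @NormedAlgebra ℂ (Matrix ν ν R) _ (nM ν).toSeminormedRing :=
  (inferInstance : NormedAlgebra ℂ (Matrix ν ν R))

end

theorem nM_top (ν : Type) [Fintype ν] [DecidableEq ν] :
    (nM ν).toPseudoMetricSpace.toUniformSpace.toTopologicalSpace =
      (instTopologicalSpaceMatrix : TopologicalSpace (Matrix ν ν R)) := rfl

theorem nM_complete (ν : Type) [Fintype ν] [DecidableEq ν] :
    @CompleteSpace (Matrix ν ν R) (nM ν).toPseudoMetricSpace.toUniformSpace := by
  let _ := nM ν
  let _ := nMA ν
  have _ : FiniteDimensional ℂ R := inferInstance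
  have _ : FiniteDimensional ℂ (Matrix ν ν R) := inferInstance
  exact FiniteDimensional.complete ℂ (Matrix ν ν R)

end Pool.QB.KTh.IX
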