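import Mathlib

/-!
# [QB-K] Transport of idempotents in a Banach algebra
-/

set_option autoImplicit false
set_option linter.unusedSectionVars false
open Topology unitInterval

namespace Pool.QB.KTh.IX

variable {A : Type} [NormedRing A] [CompleteSpace A]

/-- `w(f, e) = f e + (1 - f)(1 - e)` intertwines `e` and `f`. -/
def tw (f e : A) : A := f * e + (1 - f) * (1 - e)

theorem tw_self {e : A} (he : e * e = e) : tw e e = 1 := by
  unfold tw
  have : e * e + (1 - e) * (1 - e) = 1 - e - e + (e * e + e * e) := by noncomm_ring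
  rw [this, he]
  noncomm_ring

theorem tw_intertwine {f e : A} (hf : f * f = f) (he : e * e = e) : tw f e * e = f * tw f e := by
  unfold tw
  have h1 : (f * e + (1 - f) * (1 - e)) * e = f * (e * e) + (1 - f) * (e - e * e) := by
    noncomm_ring
  have h2 : f * (f * e + (1 - f) * (1 - e)) = f * f * e + (f - f * f) * (1 - e) := by
    noncomm_ring
  rw [h1, h2, hf, he]
  noncomm_ring

theorem tw_eq {f e : A} (he : e * e = e) : tw f e = 1 - (e - f) * (2 * e - 1) := by
  unfold tw
  have h1 : 1 - (e - f) * (2 * e - 1) = 1 - (e * e + e * e - e - f * e - f * e + f) := by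
    noncomm_ring
  rw [h1, he]
  noncomm_ring

theorem isUnit_tw {f e : A} (he : e * e = e) (h : ‖(e - f) * (2 * e - 1)‖ < 1) :
    IsUnit (tw f e) := by
  rw [tw_eq he]
  exact (Units.oneSub _ h).isUnit

/-- the `k`-th partial product -/
noncomputable def twp {Y : Type} (e : Y × I → A) (N : ℕ) (p : Y × I) : ℕ → A
  | 0 => 1
  | k + 1 => tw (e (p.1, Set.projIcc 0 1 zero_le_one (min (p.2 : ℝ) ((k + 1) / N))))
      (e (p.1, Set.projIcc 0 1 zero_le_one (min (p.2 : ℝ) (k / N)))) * twp e N p k

/-- Transport of a path of idempotents. -/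
theorem transport_banach {Y : Type} [TopologicalSpace Y] [CompactSpace Y] (e : C(Y × I, A))
    (he : ∀ p, e p * e p = e p) :
    ∃ u : C(Y × I, A), (∀ p, IsUnit (u p)) ∧ (∀ y, u (y, 0) = 1) ∧
      (∀ y t, u (y, t) * e (y, 0) = e (y, t) * u (y, t)) ∧
      (∀ (T : Subring A) (y : Y), (∀ t, e (y, t) ∈ T) → ∀ t, u (y, t) ∈ T) ∧
      ∀ y, (∀ t, e (y, t) = e (y, 0)) → ∀ t, u (y, t) = 1 := by
  classical
  -- a uniform modulus
  have hunif : ∃ δ > 0, ∀ (y : Y) (s t : I), |(s : ℝ) - t| < δ →
      ‖(e (y, s) - e (y, t)) * (2 * e (y, s) - 1)‖ < 1 := by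
    let F : C(I × I × Y, ℝ) :=
      ⟨fun q => ‖(e (q.2.2, q.1) - e (q.2.2, q.2.1)) * (2 * e (q.2.2, q.1) - 1)‖, by fun_prop⟩
    -- the open set where F < 1 contains the diagonal
    let O : Set (I × I) := {st | ∀ y, F (st.1, st.2, y) < 1}
    have hO : IsOpen O := by
      have h1 : IsClosed ((fun q : I × I × Y => (q.1, q.2.1)) '' {q | 1 ≤ F q}) := by
        have h2 : IsClosed {q : I × I × Y | 1 ≤ F q} := isClosed_le continuous_const F.continuous
        have h3 : IsClosedMap (fun q : (I × I) × Y => q.1) := isClosedMap_fst_of_compactSpace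
        have h4 : (fun q : I × I × Y => (q.1, q.2.1)) =
            (fun q : (I × I) × Y => q.1) ∘ (Homeomorph.prodAssoc I I Y).symm := rfl
        rw [h4, Set.image_comp]
        exact h3 _ ((Homeomorph.prodAssoc I I Y).symm.isClosedMap _ h2)
      have h2 : O = ((fun q : I × I × Y => (q.1, q.2.1)) '' {q | 1 ≤ F q})ᶜ := by
        ext ⟨s, t⟩
        simp only [O, Set.mem_ofPred_eq, Set.mem_compl_iff, Set.mem_image, Prod.mk.injEq, not_exists,
          not_and]
        constructor
        · rintro h ⟨s', t', y⟩ hq rfl rfl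
          exact absurd (h y) (not_lt.2 hq)
        · intro h y
          by_contra hc
          exact h (s, t, y) (not_lt.1 hc) rfl rfl
      rw [h2]
      exact h1.isOpen_compl
    have hdiag : ∀ s : I, (s, s) ∈ O := by
      intro s y
      change ‖(e (y, s) - e (y, s)) * _‖ < 1
      simp
    have hcomp : IsCompact (Set.range fun s : I => (s, s)) :=
      isCompact_range (by fun_prop)
    obtain ⟨δ, hδ, h⟩ := hcomp.exists_thickening_subset_open hO (by
      rintro _ ⟨s, rfl⟩
      exact hdiag s)
    refine ⟨δ, hδ, fun y s t hst => ?_⟩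
    have : (s, t) ∈ O := by
      apply h
      rw [Metric.mem_thickening_iff]
      refine ⟨(s, s), ⟨s, rfl⟩, ?_⟩
      rw [Prod.dist_eq, max_lt_iff]
      constructor
      · simpa using hδ
      · rw [Subtype.dist_eq, Real.dist_eq, abs_sub_comm]
        exact hst
    exact this y
  obtain ⟨δ, hδ, hunif⟩ := hunif
  obtain ⟨N, hN⟩ := exists_nat_gt (1 / δ)
  have hNpos : (0 : ℝ) < N := lt_trans (by positivity) hN
  have hN0 : (N : ℝ) ≠ 0 := hNpos.ne'
  have hNδ : 1 / (N : ℝ) < δ := by
    rw [div_lt_iff₀ hNpos]
    rw [div_lt_iff₀ hδ] at hN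
    linarith
  let pr : ℝ → I := fun x => Set.projIcc 0 1 zero_le_one x
  have hpr : ∀ t : I, ∀ x : ℝ, 0 ≤ x → ((pr (min (t : ℝ) x) : I) : ℝ) = min (t : ℝ) x := by
    intro t x hx
    simp only [pr, Set.coe_projIcc]
    have h1 : min (t : ℝ) x ≤ 1 := (min_le_left _ _).trans t.2.2
    have h2 : 0 ≤ min (t : ℝ) x := le_min t.2.1 hx
    rw [min_eq_right h1, max_eq_right h2]
  have hdist : ∀ (t : I) (k : ℕ), |((pr (min (t : ℝ) (k / N)) : I) : ℝ) -
      (pr (min (t : ℝ) ((k + 1) / N)) : I)| < δ := by
    intro t k
    rw [hpr t _ (by positivity), hpr t _ (by positivity)]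
    have h1 : ((k : ℝ) + 1) / N = k / N + 1 / N := by ring
    have h2 : (0 : ℝ) < 1 / N := by positivity
    refine lt_of_le_of_lt ?_ hNδ
    rw [abs_le]
    rw [h1]
    constructor
    · have : min (t : ℝ) (k / N + 1 / N) ≤ min (t : ℝ) (k / N) + 1 / N := by
        rcases le_total (t : ℝ) (k / N) with h | h
        · rw [min_eq_left h]
          exact (min_le_left _ _).trans (by linarith)
        · rw [min_eq_right h]
          exact min_le_right _ _
      linarith
    · have : min (t : ℝ) (k / N) ≤ min (t : ℝ) (k / N + 1 / N) :=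
        min_le_min_left _ (by linarith)
      linarith
  have hcont : ∀ k, Continuous fun p => twp e N p k := by
    intro k
    induction k with
    | zero => exact continuous_const
    | succ k ih =>
      have hc : ∀ x : ℝ, Continuous fun p : Y × I => e (p.1, pr (min (p.2 : ℝ) x)) := by
        intro x
        refine e.continuous.comp (continuous_fst.prodMk ?_)
        exact continuous_projIcc.comp
          ((continuous_subtype_val.comp continuous_snd).min continuous_const)
      have h1 := hc ((k + 1) / N)
      have h2 := hc (k / N)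
      change Continuous fun p => tw (e (p.1, pr (min (p.2 : ℝ) ((k + 1) / N))))
        (e (p.1, pr (min (p.2 : ℝ) (k / N)))) * twp e N p k
      unfold tw
      exact ((h1.mul h2).add ((continuous_const.sub h1).mul (continuous_const.sub h2))).mul ih
  refine ⟨⟨fun p => twp e N p N, hcont N⟩, ?_, ?_, ?_, ?_, ?_⟩
  · intro p
    have : ∀ k, IsUnit (twp e N p k) := by
      intro k
      induction k with
      | zero => exact isUnit_one
      | succ k ih => exact (isUnit_tw (he _) (hunif _ _ _ (hdist p.2 k))).mul ih
    exact this N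
  · intro y
    have : ∀ k, twp e N (y, 0) k = 1 := by
      intro k
      induction k with
      | zero => rfl
      | succ k ih =>
        change tw (e (y, pr (min ((0 : I) : ℝ) ((k + 1) / N))))
          (e (y, pr (min ((0 : I) : ℝ) (k / N)))) * twp e N (y, 0) k = 1
        rw [ih, mul_one]
        have e1 : ∀ x : ℝ, 0 ≤ x → pr (min ((0 : I) : ℝ) x) = 0 := by
          intro x hx
          apply Subtype.ext
          rw [hpr 0 x hx]
          exact min_eq_left (by simpa using hx)
        rw [e1 _ (by positivity), e1 _ (by positivity)]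
        exact tw_self (he _)
    exact this N
  · intro y t
    have : ∀ k, twp e N (y, t) k * e (y, 0) = e (y, pr (min (t : ℝ) (k / N))) * twp e N (y, t) k := by
      intro k
      induction k with
      | zero =>
        have e1 : pr (min (t : ℝ) (((0 : ℕ) : ℝ) / N)) = 0 := by
          apply Subtype.ext
          rw [hpr t _ (by positivity)]
          simp only [Nat.cast_zero, zero_div]
          exact min_eq_right t.2.1
        rw [e1]
        simp [twp]
      | succ k ih =>
        change tw (e (y, pr (min (t : ℝ) ((k + 1) / N)))) (e (y, pr (min (t : ℝ) (k / N)))) *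
          twp e N (y, t) k * e (y, 0) = _
        rw [mul_assoc, ih, ← mul_assoc, tw_intertwine (he _) (he _), mul_assoc]
        push_cast
        rfl
    have h1 := this N
    have e1 : pr (min (t : ℝ) ((N : ℝ) / N)) = t := by
      apply Subtype.ext
      rw [hpr t _ (by positivity), div_self hN0]
      exact min_eq_left t.2.2
    rw [e1] at h1
    exact h1
  · intro T y hT t
    have : ∀ k, twp e N (y, t) k ∈ T := by
      intro k
      induction k with
      | zero => exact T.one_mem
      | succ k ih =>
        refine T.mul_mem ?_ ih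
        unfold tw
        exact T.add_mem (T.mul_mem (hT _) (hT _))
          (T.mul_mem (T.sub_mem T.one_mem (hT _)) (T.sub_mem T.one_mem (hT _)))
    exact this N
  · intro y hy t
    have : ∀ k, twp e N (y, t) k = 1 := by
      intro k
      induction k with
      | zero => rfl
      | succ k ih =>
        change tw (e (y, _)) (e (y, _)) * twp e N (y, t) k = 1
        rw [ih, mul_one, hy, hy (Set.projIcc 0 1 zero_le_one (min (t : ℝ) (k / N)))]
        exact tw_self (he _)
    exact this N

end Pool.QB.KTh.IX
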