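import Pool.Agent.MP_c51823_gt.QB.KTh.LoopDef
import Pool.Agent.MP_c51823_gt.QB.KTh.Transport
import Pool.Agent.MP_c51823_gt.QB.KTh.NormM

/-!
# [QBK-TR] Transport of continuous families of idempotents
-/

set_option autoImplicit false
open Topology

namespace Pool.QB.KTh

open IX

theorem transport {X : Type} [TopologicalSpace X] [CompactSpace X] [T2Space X] {S : Set X}
    {ν : Type} [Fintype ν] [DecidableEq ν] (E : C(X × I, Matrix ν ν R))
    (hE : ∀ p, E p * E p = E p) (hS : ∀ x ∈ S, ∀ t, E (x, t) ∈ sc ν) :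
    ∃ u : GF (∅ : Set (X × I)) (cyl S) ν, (∀ x, u.1.1 (x, 0) = 1) ∧
      (∀ x t, E (x, t) * u.1.1 (x, t) = u.1.1 (x, t) * E (x, 0)) ∧
      ∀ x, (∀ t, E (x, t) = E (x, 0)) → ∀ t, u.1.1 (x, t) = 1 := by
  obtain ⟨u, h1, h2, h3, h4, h5⟩ := @transport_banach (Matrix ν ν R) (nM ν) (nM_complete ν) X _ _
    E hE
  obtain ⟨g, hg⟩ := exists_gf (B := (∅ : Set (X × I))) (S := cyl S)
    (⟨fun p => u p, u.continuous⟩ : C(X × I, Matrix ν ν R)) h1 (fun _ h => h.elim)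
    (fun p hp => h4 (sc ν).toSubring p.1 (fun t => hS p.1 hp t) p.2)
  have hg' : ∀ p, g.1.1 p = u p := fun p => by rw [hg]; rfl
  refine ⟨g, fun x => ?_, fun x t => ?_, fun x hx t => ?_⟩
  · rw [hg']
    exact h2 x
  · rw [hg']
    exact (h3 x t).symm
  · rw [hg']
    exact h5 x hx t

end Pool.QB.KTh
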