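import Pool.Agent.MP_c51823_gt.QB.KTh.Cls3
import Pool.Agent.MP_c51823_gt.QB.KTh.IdxI
import Pool.Agent.MP_c51823_gt.QB.KTh.Trans

/-!
# [QBK-BI] Bott periodicity: injectivity

INJECTIVE. `x = cl g`, `g ∈ GF B S (Fin n)`, `cl (bottG g) = 0`: there are `k` and
`H ∈ GF (cyl (susB (susB B))) (cyl (cyl (cyl S))) ((Fin n ⊕ Fin n) ⊕ Fin k)` with `H_0 = 1`,
`H_1 = bottG g ⊕ 1`. Let `κ = (Fin n ⊕ Fin n) ⊕ Fin k`, `T = (lft).disjSum ∅`, `X = (Y × I_w) × I_r`,
`V (((y,w),r),ζ) = H (((y,w),ζ),r) * ploop (dg T) (zf ζ)` (an element of `GF ∅ (cyl (cyl (cyl S)))`, equal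
at `ζ = 0, 1`). `index_fun` gives `N ≥ 1` and `e`.
With `T₁ = {(j,k) : j < (N+1 if k ∈ T else N)}` and `ε₁ = dg T₁`: `e = ε₁` if `y ∈ B` or `w ∈ {0,1}` or `r = 0`
(`V = ploop (dg T)` there), and for `r = 1`, with `u = whp g ⊕ 1`: `V = u(y,w) ploop (dg T) u(y,w)⁻¹`, so
`e ((y,w),1) = tn (u(y,w)) ε₁ tn (u(y,w)⁻¹)` (compare with the point `((y,0),1)`).
`transport` over `Y × I_w` along `r`: `v` with `v(·,0) = 1`, `e v = v ε₁`, `v = 1` if `y ∈ B` or `w ∈ {0,1}`.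
`q(y,w) = v((y,w),1)⁻¹ tn (u(y,w))` commutes with `ε₁` for all `(y,w)`, `q(y,0) = 1`, `q = 1` over `B`, scalar
over `S`, `q(y,1) = tn (u(y,1))`, `u(y,1) = (g ⊕ g⁻¹) ⊕ 1`. Hence (`exists_cut` on `Y × I`) `cutM T₁ q` is a
path in `GF B S` from `1` to `k(y) = cutM T₁ (tn (u(y,1)))`, `cl k = 0` (`cl_homotopy`). `k` is block
diagonal in `j ∈ Fin (2N+1)`: for `j < N` the block is `(g ⊕ g⁻¹) ⊕ 1` (class `0`), for `j = N` it is
`(g ⊕ 1) ⊕ 1` (class `x`), for `j > N` it is `1`. `cl_blocks`: `0 = cl k = x`.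
-/

set_option autoImplicit false
open Topology

namespace Pool.QB.KTh

namespace BottI_aux

variable {Y : Type} [TopologicalSpace Y] {B S : Set Y}

section tn

variable {m κ : Type} [Fintype m] [DecidableEq m] [Fintype κ] [DecidableEq κ]

omit [Fintype m] [Fintype κ] [DecidableEq κ] in
theorem tn_apply (P : Matrix κ κ R) (p q : m × κ) :
    tn m P p q = if p.1 = q.1 then P p.2 q.2 else 0 := rfl

omit [DecidableEq κ] in
theorem tn_mul (P P' : Matrix κ κ R) : tn m P * tn m P' = tn m (P * P') := by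
  apply Matrix.ext
  intro p q
  rw [Matrix.mul_apply, Fintype.sum_prod_type]
  simp only [tn_apply]
  rw [Finset.sum_eq_single p.1]
  · by_cases h : p.1 = q.1
    · simp only [h, if_true, Matrix.mul_apply]
    · simp only [h, if_true, if_false, mul_zero, Finset.sum_const_zero]
  · intro b _ hb
    apply Finset.sum_eq_zero
    intro c _
    rw [if_neg (Ne.symm hb), zero_mul]
  · intro h
    exact absurd (Finset.mem_univ _) h

omit [Fintype m] [Fintype κ] in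
theorem tn_one : tn m (1 : Matrix κ κ R) = 1 := by
  apply Matrix.ext
  intro p q
  rw [tn_apply, Matrix.one_apply, Matrix.one_apply]
  by_cases h : p.1 = q.1
  · by_cases h2 : p.2 = q.2
    · rw [if_pos h, if_pos h2, if_pos (Prod.ext h h2)]
    · rw [if_pos h, if_neg h2, if_neg (fun h3 => h2 (by rw [h3]))]
  · rw [if_neg h, if_neg (fun h3 => h (by rw [h3]))]

theorem tn_sc {P : Matrix κ κ R} (h : P ∈ sc κ) : tn m P ∈ sc (m × κ) := by
  rw [mem_sc_iff] at h ⊢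
  intro p q
  rw [tn_apply]
  by_cases hpq : p.1 = q.1
  · rw [if_pos hpq]
    exact h p.2 q.2
  · rw [if_neg hpq]
    exact ⟨rfl, rfl, rfl⟩

theorem exists_tn (m : Type) [Fintype m] [DecidableEq m] (g : GF B S κ) :
    ∃ t : GF B S (m × κ), ∀ y, t.1.1 y = tn m (g.1.1 y) := by
  have hc : Continuous fun y => tn m (g.1.1 y) := by
    refine continuous_matrix fun p q => ?_
    by_cases h : p.1 = q.1
    · have h1 : Continuous fun y => g.1.1 y p.2 q.2 :=
        (g.1.1.continuous).matrix_elem p.2 q.2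
      refine h1.congr fun y => ?_
      rw [tn_apply, if_pos h]
    · refine (continuous_const (y := (0 : R))).congr fun y => ?_
      rw [tn_apply, if_neg h]
  obtain ⟨t, ht⟩ := exists_gf (B := B) (S := S) (⟨fun y => tn m (g.1.1 y), hc⟩ : C(Y, _))
    (fun y => by
      change IsUnit (tn m (g.1.1 y))
      refine ⟨⟨tn m (g.1.1 y), tn m ((g⁻¹).1.1 y), ?_, ?_⟩, rfl⟩
      · rw [tn_mul, gf_mul_inv, tn_one]
      · rw [tn_mul, gf_inv_mul, tn_one])
    (fun y hy => by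
      change tn m (g.1.1 y) = 1
      rw [g.2.1 y hy, tn_one])
    (fun y hy => tn_sc (g.2.2 y hy).1)
  exact ⟨t, fun y => by rw [ht]; rfl⟩

end tn

/-- `(((y,w),r),ζ) ↦ (((y,w),ζ),r)` -/
def sw (Y : Type) [TopologicalSpace Y] : C(((Y × I) × I) × I, ((Y × I) × I) × I) :=
  ⟨fun p => ((p.1.1, p.2), p.1.2), by fun_prop⟩

theorem cutM_apply {ν : Type} [Fintype ν] [DecidableEq ν] (T : Finset ν) (a : Matrix ν ν R)
    (p q : ν) : cutM T a p q =
      (if p ∈ T ∧ q ∈ T then a p q else 0) + (if p = q ∧ p ∉ T then 1 else 0) := by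
  unfold cutM dg
  rw [Matrix.add_apply, Matrix.mul_diagonal, Matrix.diagonal_mul, Matrix.sub_apply,
    Matrix.one_apply, Matrix.diagonal_apply]
  by_cases hp : p ∈ T <;> by_cases hq : q ∈ T <;> by_cases h : p = q <;> simp [hp, hq, h]

theorem cutM_one {ν : Type} [Fintype ν] [DecidableEq ν] (T : Finset ν) :
    cutM T (1 : Matrix ν ν R) = 1 := by
  unfold cutM
  rw [mul_one, dg_mul, add_sub_cancel]

theorem gsum_mul {ι κ : Type} [Fintype ι] [DecidableEq ι] [Fintype κ] [DecidableEq κ]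
    (g g' : GF B S ι) (h h' : GF B S κ) : gsum g h * gsum g' h' = gsum (g * g') (h * h') := by
  refine gf_ext fun y => ?_
  rw [gf_mul]
  change Matrix.fromBlocks (g.1.1 y) 0 0 (h.1.1 y) * Matrix.fromBlocks (g'.1.1 y) 0 0 (h'.1.1 y) =
    Matrix.fromBlocks ((g * g').1.1 y) 0 0 ((h * h').1.1 y)
  rw [Matrix.fromBlocks_multiply, gf_mul, gf_mul]
  simp only [Matrix.mul_zero, Matrix.zero_mul, add_zero, zero_add]

theorem gsum_one {ι κ : Type} [Fintype ι] [DecidableEq ι] [Fintype κ] [DecidableEq κ] :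
    gsum (1 : GF B S ι) (1 : GF B S κ) = 1 := by
  refine gf_ext fun y => ?_
  change Matrix.fromBlocks ((1 : GF B S ι).1.1 y) 0 0 ((1 : GF B S κ).1.1 y) = _
  rw [gf_one, gf_one, gf_one, Matrix.fromBlocks_one]

theorem gsum_inv {ι κ : Type} [Fintype ι] [DecidableEq ι] [Fintype κ] [DecidableEq κ]
    (g : GF B S ι) (h : GF B S κ) : (gsum g h)⁻¹ = gsum g⁻¹ h⁻¹ := by
  rw [inv_eq_iff_mul_eq_one, gsum_mul, mul_inv_cancel, mul_inv_cancel, gsum_one]

theorem gsum_apply {ι κ : Type} [Fintype ι] [DecidableEq ι] [Fintype κ] [DecidableEq κ]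
    (g : GF B S ι) (h : GF B S κ) (y : Y) :
    (gsum g h).1.1 y = Matrix.fromBlocks (g.1.1 y) 0 0 (h.1.1 y) := rfl

theorem ccl_apply {ν : Type} [Fintype ν] [DecidableEq ν] (T : Finset ν)
    (u : GF (startB B) (cyl S) ν) (hu : ∀ y, u.1.1 (y, 1) * dg T = dg T * u.1.1 (y, 1))
    (p : (Y × I) × I) : (ccl T u hu).1.1 p * ploop (dg T) (zf p.2) =
      u.1.1 p.1 * ploop (dg T) (zf p.2) * (u⁻¹).1.1 p.1 := by
  change (up u * sig (Y × I) (cyl S) T * (up u)⁻¹ * (sig (Y × I) (cyl S) T)⁻¹).1.1 p * _ = _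
  rw [← sig_apply (S := cyl S) T p, gf_mul, gf_mul, gf_mul, mul_assoc, gf_inv_mul, mul_one,
    up_apply, gf_inv (up u), up_apply, ← gf_inv u]

theorem ploop_blocks {ι κ : Type} [Fintype ι] [DecidableEq ι] [Fintype κ] [DecidableEq κ]
    (T : Finset ι) (z : ℂ) :
    ploop (dg (T.disjSum (∅ : Finset κ))) z = Matrix.fromBlocks (ploop (dg T) z) 0 0 1 := by
  unfold ploop
  rw [dg_disjSum, dg_empty, Matrix.fromBlocks_smul, ← Matrix.fromBlocks_one,
    sub_eq_add_neg, Matrix.fromBlocks_neg, Matrix.fromBlocks_add, Matrix.fromBlocks_add]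
  simp only [smul_zero, neg_zero, add_zero, zero_add, sub_eq_add_neg]

end BottI_aux

open BottI_aux

variable {Y : Type} [TopologicalSpace Y] [CompactSpace Y] [T2Space Y] {B S : Set Y}

theorem BottI_aux.key (B S : Set Y) (n : ℕ) (g : GF B S (Fin n)) (h : cl (bottG g) = 0) :
    cl g = 0 := by
  classical
  obtain ⟨k, H, H0, H1⟩ := (cl_eq_zero _).1 h
  -- the index set
  set T : Finset ((Fin n ⊕ Fin n) ⊕ Fin k) := (lft (Fin n) (Fin n)).disjSum ∅ with hT
  obtain ⟨V, hVa⟩ : ∃ V : GF (∅ : Set (((Y × I) × I) × I)) (cyl (cyl (cyl S)))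
      ((Fin n ⊕ Fin n) ⊕ Fin k), ∀ (y : Y) (w r ζ : I), V.1.1 (((y, w), r), ζ) =
      H.1.1 (((y, w), ζ), r) * ploop (dg T) (zf ζ) := by
    have hm1 : Set.MapsTo (sw Y) ∅ (cyl (susB (susB B))) := fun _ h => h.elim
    have hm2 : Set.MapsTo (sw Y) (cyl (cyl (cyl S))) (cyl (cyl (cyl S))) := fun _ h => h
    refine ⟨pull (sw Y) hm1 hm2 _ H * sig ((Y × I) × I) (cyl (cyl S)) T, ?_⟩
    intro y w r ζ
    rw [gf_mul, sig_apply]
    rfl
  have hHB : ∀ (y : Y) (w r ζ : I), ((y, w), ζ) ∈ susB (susB B) →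
      H.1.1 (((y, w), ζ), r) = 1 := fun y w r ζ hh => H.2.1 (((y, w), ζ), r) hh
  have hVe : ∀ x, V.1.1 (x, 0) = V.1.1 (x, 1) := by
    rintro ⟨⟨y, w⟩, r⟩
    rw [hVa, hVa, hHB y w r 0 (Or.inr (Or.inl rfl)), hHB y w r 1 (Or.inr (Or.inr rfl)), zf_zero,
      zf_one]
  obtain ⟨N, e, hN, he, heS, hec, hest⟩ := index_fun V hVe
  set T₁ : Finset (Fin (2 * N + 1) × ((Fin n ⊕ Fin n) ⊕ Fin k)) :=
    Finset.univ.filter fun p => (p.1 : ℕ) < if p.2 ∈ T then N + 1 else N with hT₁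
  -- where `e = ε₁`
  have heB : ∀ (y : Y) (w r : I), (y, w) ∈ susB B → e ((y, w), r) = dg T₁ := by
    intro y w r hh
    refine hest _ T fun t => ?_
    rw [hVa, hHB y w r t (Or.inl hh), one_mul]
  have he0 : ∀ (y : Y) (w : I), e ((y, w), 0) = dg T₁ := by
    intro y w
    refine hest _ T fun t => ?_
    have h1 : H.1.1 (((y, w), t), 0) = 1 := by
      have h2 : (ev 0 H).1.1 ((y, w), t) =
          (1 : GF (susB (susB B)) (cyl (cyl S)) _).1.1 ((y, w), t) := by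
        rw [H0]
      rw [gf_one] at h2
      exact h2
    rw [hVa, h1, one_mul]
  -- `u`
  obtain ⟨u, hudef⟩ : ∃ u : GF (startB B) (cyl S) ((Fin n ⊕ Fin n) ⊕ Fin k),
    u = gsum (whp g) 1 := ⟨_, rfl⟩
  have hu : ∀ p, u.1.1 p = Matrix.fromBlocks ((whp g).1.1 p) 0 0 1 := by
    intro p
    rw [hudef, gsum_apply, gf_one]
  have hu' : ∀ p, (u⁻¹).1.1 p = Matrix.fromBlocks ((whp g)⁻¹.1.1 p) 0 0 1 := by
    intro p
    rw [hudef, gsum_inv, gsum_apply, inv_one, gf_one]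
  have hV1 : ∀ (y : Y) (w t : I), V.1.1 (((y, w), 1), t) =
      u.1.1 (y, w) * ploop (dg T) (zf t) * (u⁻¹).1.1 (y, w) := by
    intro y w t
    have h1 : H.1.1 (((y, w), t), 1) = (gsum (bottG g) (1 : GF _ _ (Fin k))).1.1 ((y, w), t) := by
      rw [← H1]
      rfl
    rw [hVa, h1, gsum_apply, gf_one, hu, hu', hT, ploop_blocks, Matrix.fromBlocks_multiply,
      Matrix.fromBlocks_multiply, Matrix.fromBlocks_multiply]
    simp only [Matrix.mul_zero, Matrix.zero_mul, add_zero, zero_add, mul_one]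
    have h2 := ccl_apply (lft (Fin n) (Fin n)) (whp g) (whp_comm g) ((y, w), t)
    rw [bottG]
    exact congrArg (fun a => Matrix.fromBlocks a 0 0 1) h2
  -- `e` at `r = 1`
  have he1 : ∀ (y : Y) (w : I), e ((y, w), 1) =
      tn (Fin (2 * N + 1)) (u.1.1 (y, w)) * dg T₁ * tn (Fin (2 * N + 1)) ((u⁻¹).1.1 (y, w)) := by
    intro y w
    rw [← heB y 0 1 (Or.inr (Or.inl rfl))]
    refine hec ((y, 0), 1) ((y, w), 1) _ _ (gf_mul_inv _ _) (gf_inv_mul _ _) fun t => ?_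
    have h0 : u.1.1 (y, 0) = 1 := u.2.1 (y, 0) (Or.inr rfl)
    have h0' : (u⁻¹).1.1 (y, 0) = 1 := (u⁻¹).2.1 (y, 0) (Or.inr rfl)
    rw [hV1, hV1, h0, h0', one_mul, mul_one]
  -- transport
  obtain ⟨v, hv0, hve, hvc⟩ := transport (X := Y × I) (S := cyl S) e he
    (fun x hx t => heS (x, t) hx)
  obtain ⟨v1, hv1⟩ : ∃ v1 : GF (∅ : Set (Y × I)) (cyl S)
      (Fin (2 * N + 1) × ((Fin n ⊕ Fin n) ⊕ Fin k)), ∀ p, v1.1.1 p = v.1.1 (p, 1) :=
    ⟨pull (atMap (Y × I) 1) (B' := ∅) (S' := cyl (cyl S)) (fun _ h => h) (fun _ h => h) _ v,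
      fun p => rfl⟩
  have hv1B : ∀ p, p ∈ susB B → v1.1.1 p = 1 := by
    rintro ⟨y, w⟩ hp
    rw [hv1]
    refine hvc (y, w) (fun t => ?_) 1
    rw [heB y w t hp, heB y w 0 hp]
  have hv1e : ∀ y w, e ((y, w), 1) * v1.1.1 (y, w) = v1.1.1 (y, w) * dg T₁ := by
    intro y w
    rw [hv1, hve, he0]
  obtain ⟨tu, htu⟩ := exists_tn (Fin (2 * N + 1)) (fg u)
  have htu2 : ∀ p, tu.1.1 p = tn (Fin (2 * N + 1)) (u.1.1 p) := htu
  -- the commuting function
  have hsB : ∀ y w, (y, w) ∈ startB B → (y, w) ∈ susB B := by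
    intro y w hp
    rcases hp with hp | hp
    · exact Or.inl hp
    · exact Or.inr (Or.inl hp)
  have hq1 : ∀ p ∈ startB B, (v1⁻¹ * tu).1.1 p = 1 := by
    rintro ⟨y, w⟩ hp
    have h1 : (v1⁻¹).1.1 (y, w) = 1 := by
      have h2 := gf_inv_mul v1 (y, w)
      rw [hv1B _ (hsB _ _ hp), mul_one] at h2
      exact h2
    rw [gf_mul, h1, htu2, u.2.1 (y, w) hp, tn_one, one_mul]
  obtain ⟨q, hq⟩ : ∃ q : GF (startB B) (cyl S) (Fin (2 * N + 1) × ((Fin n ⊕ Fin n) ⊕ Fin k)),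
      ∀ p, q.1.1 p = (v1⁻¹).1.1 p * tn (Fin (2 * N + 1)) (u.1.1 p) :=
    ⟨raise (v1⁻¹ * tu) hq1, fun p => by
      change (v1⁻¹ * tu).1.1 p = _
      rw [gf_mul, htu2]⟩
  have hqc : ∀ p, q.1.1 p * dg T₁ = dg T₁ * q.1.1 p := by
    rintro ⟨y, w⟩
    have h1 := hv1e y w
    have h2 := he1 y w
    -- `tn u * ε₁ = e * tn u`
    have h3 : tn (Fin (2 * N + 1)) (u.1.1 (y, w)) * dg T₁ =
        e ((y, w), 1) * tn (Fin (2 * N + 1)) (u.1.1 (y, w)) := by
      rw [h2, mul_assoc, tn_mul, gf_inv_mul, tn_one, mul_one]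
    have h4 : (v1⁻¹).1.1 (y, w) * e ((y, w), 1) = dg T₁ * (v1⁻¹).1.1 (y, w) := by
      calc (v1⁻¹).1.1 (y, w) * e ((y, w), 1)
          = (v1⁻¹).1.1 (y, w) * (e ((y, w), 1) * v1.1.1 (y, w)) * (v1⁻¹).1.1 (y, w) := by
            rw [mul_assoc, mul_assoc, gf_mul_inv, mul_one]
        _ = dg T₁ * (v1⁻¹).1.1 (y, w) := by
            rw [h1, ← mul_assoc, gf_inv_mul, one_mul]
    rw [hq, mul_assoc, h3, ← mul_assoc, h4, mul_assoc]
  obtain ⟨K, hK⟩ := exists_cut T₁ q hqc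
  obtain ⟨K', hK'⟩ : ∃ K' : GF (cyl B) (cyl S) (Fin (2 * N + 1) × ((Fin n ⊕ Fin n) ⊕ Fin k)),
      ∀ p, K'.1.1 p = K.1.1 p := ⟨⟨K.1, fun p hp => K.2.1 p (Or.inl hp), K.2.2⟩, fun _ => rfl⟩
  have hcl := cl_homotopy K'
  have hK0 : ev 0 K' = 1 := by
    refine gf_ext fun y => ?_
    rw [gf_one]
    have h1 : (ev 0 K').1.1 y = K'.1.1 (y, 0) := rfl
    rw [h1, hK', hK, q.2.1 (y, 0) (Or.inr rfl), cutM_one]
  rw [hK0, cl_one] at hcl
  -- the blocks
  have hG : ∀ y, (ev 1 K').1.1 y = cutM T₁ (tn (Fin (2 * N + 1))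
      (Matrix.fromBlocks (Matrix.fromBlocks (g.1.1 y) 0 0 ((g⁻¹).1.1 y)) 0 0 1)) := by
    intro y
    have h1 : (ev 1 K').1.1 y = K'.1.1 (y, 1) := rfl
    have h3 : (v1⁻¹).1.1 (y, 1) = 1 := by
      have h2 := gf_inv_mul v1 (y, 1)
      rw [hv1B _ (Or.inr (Or.inr rfl)), mul_one] at h2
      exact h2
    rw [h1, hK', hK, hq, h3, one_mul, hu, whp_one, gsum_apply]
  let gb : Fin (2 * N + 1) → GF B S ((Fin n ⊕ Fin n) ⊕ Fin k) := fun j =>
    if (j : ℕ) < N then gsum (gsum g g⁻¹) 1 else if (j : ℕ) = N then gsum (gsum g 1) 1 else 1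
  have hbl : ∀ y p q, (ev 1 K').1.1 y p q =
      if p.1 = q.1 then (gb p.1).1.1 y p.2 q.2 else 0 := by
    intro y p q
    rw [hG, cutM_apply, tn_apply]
    obtain ⟨j, a⟩ := p
    obtain ⟨j', b⟩ := q
    by_cases hj : j = j'
    · subst hj
      simp only [if_true, gb]
      have hmem : ∀ c, ((j, c) ∈ T₁ ↔ (j : ℕ) < if c ∈ T then N + 1 else N) := by
        intro c
        rw [hT₁, Finset.mem_filter]
        exact ⟨fun h => h.2, fun h => ⟨Finset.mem_univ _, h⟩⟩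
      by_cases h1 : (j : ℕ) < N
      · have hm : ∀ c, (j, c) ∈ T₁ := by
          intro c
          rw [hmem]
          split_ifs <;> omega
        rw [if_pos h1, if_pos ⟨hm a, hm b⟩, if_neg (fun h => h.2 (hm a)), add_zero, gsum_apply,
          gsum_apply, gf_one]
      · by_cases h2 : (j : ℕ) = N
        · have hm : ∀ c, (j, c) ∈ T₁ ↔ c ∈ T := by
            intro c
            rw [hmem]
            by_cases hc : c ∈ T
            · rw [if_pos hc]
              exact ⟨fun _ => hc, fun _ => by omega⟩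
            · rw [if_neg hc]
              exact ⟨fun h => absurd h (by omega), fun h => absurd h hc⟩
          rw [if_neg h1, if_pos h2, gsum_apply, gsum_apply, gf_one, gf_one]
          simp only [hm, Prod.mk.injEq, true_and]
          have hl : ∀ c : Fin n, (Sum.inl (Sum.inl c) : (Fin n ⊕ Fin n) ⊕ Fin k) ∈ T := by
            intro c
            simp [hT, lft]
          have hr : ∀ c : Fin n, (Sum.inl (Sum.inr c) : (Fin n ⊕ Fin n) ⊕ Fin k) ∉ T := by
            intro c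
            simp [hT, lft]
          have hs : ∀ c : Fin k, (Sum.inr c : (Fin n ⊕ Fin n) ⊕ Fin k) ∉ T := by
            intro c
            simp [hT, lft]
          rcases a with (a | a) | a <;> rcases b with (b | b) | b <;>
            simp [hl, hr, hs, Matrix.one_apply]
        · have hm : ∀ c, (j, c) ∉ T₁ := by
            intro c
            rw [hmem]
            split_ifs <;> omega
          rw [if_neg h1, if_neg h2, if_neg (fun h => hm a h.1), gf_one, Matrix.one_apply, zero_add]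
          by_cases hab : a = b
          · rw [if_pos ⟨by rw [hab], hm a⟩, if_pos hab]
          · rw [if_neg (fun h => hab (congrArg Prod.snd h.1)), if_neg hab]
    · have h1 : ¬ ((j, a) = (j', b)) := fun h => hj (congrArg Prod.fst h)
      simp only [hj, h1, if_false, false_and, ite_self, add_zero]
  rw [cl_blocks _ gb hbl] at hcl
  have hgb : ∀ j, cl (gb j) = if (j : ℕ) = N then cl g else 0 := by
    intro j
    simp only [gb]
    by_cases h1 : (j : ℕ) < N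
    · rw [if_pos h1, if_neg (by omega), cl_gsum_one, cl_gsum, cl_inv, add_neg_cancel]
    · rw [if_neg h1]
      by_cases h2 : (j : ℕ) = N
      · rw [if_pos h2, if_pos h2, cl_gsum_one, cl_gsum_one]
      · rw [if_neg h2, if_neg h2, cl_one]
  rw [Finset.sum_congr rfl fun j _ => hgb j] at hcl
  rw [Finset.sum_eq_single (⟨N, by omega⟩ : Fin (2 * N + 1))] at hcl
  · rw [if_pos rfl] at hcl
    exact hcl.symm
  · intro j _ hj
    rw [if_neg]
    intro h
    exact hj (Fin.ext h)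
  · intro h
    exact absurd (Finset.mem_univ _) h

theorem bott_injective (B S : Set Y) : Function.Injective (bott B S) := by
  rw [injective_iff_map_eq_zero]
  intro x hx
  obtain ⟨n, g, rfl⟩ := exists_cl x
  rw [bott_cl] at hx
  exact BottI_aux.key B S n g hx

end Pool.QB.KTh
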