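import Pool.Agent.MP_c51823_gt.QB.KTh.BottS
import Pool.Agent.MP_c51823_gt.QB.KTh.BottI

/-!
# [QBK] Bott periodicity
-/

set_option autoImplicit false
open Topology

namespace Pool.QB.KTh

theorem bott_bijective {Y : Type} [TopologicalSpace Y] [CompactSpace Y] [T2Space Y] {B S : Set Y}
    (hB : IsClosed B) (hS : IsClosed S) : Function.Bijective (bott B S) :=
  ⟨bott_injective B S, bott_surjective hB hS⟩

end Pool.QB.KTh
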