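import Pool.Agent.MP_c51823_gt.QB.KTh.KMap

/-!
# [QBK-P] The mod-2 class of a point is nonzero

`g(s) = diag(e^{2πis}, 1) ∈ R = M₁(R)` (index type `Unit` or `Fin 1`) is `1` at `s = 1` and scalar (`= 1`) at
`s = 0`. Suppose it is `Nul`: `H(s,r) ∈ M_k(R)`, `H(s,0) = 1`, `H(s,1) = g(s) ⊕ 1`, `H(1,r) = 1`,
`H(0,r) = n(r) ⊗ 1₂` with `n(r) ∈ M_k(ℂ)`. Let `D(s,r)` be the determinant of `H(s,r)` as a matrix of size
`k × Fin 2` over `ℂ` (`Matrix.comp`), `D(0,r) = (det n(r))²`, `D(1,r) = 1`, `D(s,0) = 1`,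
`D(s,1) = e^{2πis}`. There is a continuous `λ : I × I → ℂ` with `λ² = D`, `λ(s,0) = 1`: with `n` such that
`|D(s,r)/D(s,r') - 1| < 1` for `|r - r'| ≤ 1/n` take the product over `k < n` of the principal square roots
of `D(s, clamp(r,k/n,(k+1)/n)) / D(s,k/n)` (or lift along a covering map). `λ(1,r)² = 1`, so
`λ(1,r) = 1`; `λ(0,r) / det n(r)` is continuous with square `1`, so `λ(0,r) = det n(r)` for all `r`
(`n(0) = 1`), `λ(0,1) = det n(1) = 1`. But `λ(s,1)² = e^{2πis}` so `λ(s,1) = e^{πis}` for all `s`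
(continuity, `λ(0,1) = 1`), `λ(1,1) = -1`, contradiction to `λ(1,1) = 1`.
-/

set_option autoImplicit false
open Topology

namespace Pool.QB.KTh

namespace Pt0_aux

open Matrix

/-- The function `diag(e^{2π i s c}, 1)`. -/
noncomputable def gfn (c : ℝ) : C(PUnit.{1} × I, Matrix Unit Unit R) :=
  ⟨fun y => fun _ _ => Matrix.diagonal
    ![Complex.exp (2 * Real.pi * Complex.I * ((c * (y.2 : ℝ) : ℝ) : ℂ)), 1], by
    refine continuous_pi fun _ => continuous_pi fun _ => ?_
    refine Continuous.matrix_diagonal ?_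
    refine continuous_pi fun k => ?_
    fin_cases k
    · simp only [Fin.zero_eta, Fin.isValue, Matrix.cons_val_zero]
      fun_prop
    · simp only [Fin.mk_one, Fin.isValue, Matrix.cons_val_one]
      fun_prop⟩

theorem gfn_mul (c : ℝ) : gfn c * gfn (-c) = 1 := by
  ext1 y
  apply Matrix.ext
  intro i j
  change ((gfn c y) * (gfn (-c) y)) i j = (1 : Matrix Unit Unit R) i j
  rw [Matrix.mul_apply]
  simp only [Finset.univ_unique, Finset.sum_singleton]
  change Matrix.diagonal _ * Matrix.diagonal _ = _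
  rw [Matrix.diagonal_mul_diagonal, Subsingleton.elim i j, Matrix.one_apply_eq,
    ← Matrix.diagonal_one]
  congr 1
  ext k
  fin_cases k
  · simp [← Complex.exp_add]
  · simp

theorem gfn_eq_one (c : ℝ) (y : PUnit.{1} × I)
    (h : Complex.exp (2 * Real.pi * Complex.I * ((c * (y.2 : ℝ) : ℝ) : ℂ)) = 1) : gfn c y = 1 := by
  apply Matrix.ext
  intro i j
  change Matrix.diagonal _ = (1 : Matrix Unit Unit R) i j
  rw [Subsingleton.elim i j, Matrix.one_apply_eq, ← Matrix.diagonal_one]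
  congr 1
  ext k
  fin_cases k
  · exact h
  · rfl

/-- The invertible function. -/
noncomputable def g0 : GF (Y := PUnit.{1} × I) {p | p.1 ∈ (∅ : Set PUnit.{1}) ∨ p.2 = 1} {p | p.2 = 0} Unit :=
  ⟨⟨gfn 1, gfn (-1), gfn_mul 1, by
      have := gfn_mul (-1)
      rwa [neg_neg] at this⟩, by
    rintro y (h | h)
    · exact h.elim
    · refine gfn_eq_one 1 y ?_
      rw [h]
      simp, by
    intro y h
    have h' : y.2 = 0 := h
    have key : ∀ c : ℝ, gfn c y = 1 := by
      intro c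
      refine gfn_eq_one c y ?_
      rw [h']
      simp
    refine ⟨?_, ?_⟩
    · change gfn 1 y ∈ sc Unit
      rw [key]; exact one_mem _
    · change gfn (-1) y ∈ sc Unit
      rw [key]; exact one_mem _⟩

theorem comp_sc {ι : Type} [Fintype ι] [DecidableEq ι] {M : Matrix ι ι R} (hM : M ∈ sc ι) :
    (Matrix.comp ι ι (Fin 2) (Fin 2) ℂ M).det = (Matrix.of fun i j => M i j 0 0).det ^ 2 := by
  obtain ⟨m, rfl⟩ := hM
  have h1 : (Matrix.of fun i j => ((AlgHom.mapMatrix (Algebra.ofId ℂ R)).toRingHom m) i j 0 0) = m := by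
    ext i j
    simp [Algebra.ofId_apply, Algebra.algebraMap_eq_smul_one]
  rw [h1]
  have h2 : Matrix.comp ι ι (Fin 2) (Fin 2) ℂ ((AlgHom.mapMatrix (Algebra.ofId ℂ R)).toRingHom m) =
      Matrix.kroneckerMap (fun x y => x * y) m (1 : Matrix (Fin 2) (Fin 2) ℂ) := by
    ext ⟨i, k⟩ ⟨j, l⟩
    simp [Algebra.ofId_apply, Algebra.algebraMap_eq_smul_one]
  rw [h2, Matrix.det_kronecker]
  simp

theorem isSC : IsSimplyConnected (Set.univ : Set (ℝ × ℝ)) := by
  have : ContractibleSpace (Set.univ : Set (ℝ × ℝ)) :=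
    Convex.contractibleSpace convex_univ Set.univ_nonempty
  change SimplyConnectedSpace (Set.univ : Set (ℝ × ℝ))
  infer_instance

theorem exists_sqrt (D : I × I → ℂ) (hD : Continuous D) (h0 : ∀ p, D p ≠ 0) :
    ∃ f : I × I → ℂ, Continuous f ∧ ∀ p, f p ^ 2 = D p := by
  let pr : ℝ → I := Set.projIcc 0 1 zero_le_one
  have hpr : Continuous pr := continuous_projIcc
  obtain ⟨f, hf, hf2⟩ := Complex.exists_continuousOn_pow_eq isSC isOpen_univ
    (g := fun x : ℝ × ℝ => D (pr x.1, pr x.2)) (by fun_prop)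
    (by rintro ⟨x, -, hx⟩; exact h0 _ hx) (n := 2) two_ne_zero
  refine ⟨fun p => f (p.1, p.2), ?_, fun p => ?_⟩
  · exact (continuousOn_univ.mp hf).comp (by fun_prop)
  · rw [hf2]
    simp only [pr, Set.projIcc_val]

theorem eq_of_sq {f g : I → ℂ} (hf : Continuous f) (hg : Continuous g) (h : ∀ t, f t ^ 2 = g t ^ 2)
    (hg0 : ∀ t, g t ≠ 0) (h0 : f 0 = g 0) : f = g := by
  funext t
  exact isPreconnected_univ.eq_of_sq_eq hf.continuousOn hg.continuousOn (fun t _ => h t)
    (fun {t} _ => hg0 t) (Set.mem_univ 0) h0 (Set.mem_univ t)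

theorem not_nul : ¬ Nul g0 := by
  rintro ⟨n, H, h0, h1⟩
  let M : I × I → Matrix (Unit ⊕ Fin n) (Unit ⊕ Fin n) R := fun p => H.1.1 ((PUnit.unit.{1}, p.1), p.2)
  let M' : I × I → Matrix (Unit ⊕ Fin n) (Unit ⊕ Fin n) R :=
    fun p => (H.1⁻¹).1 ((PUnit.unit.{1}, p.1), p.2)
  have hMc : Continuous M := H.1.1.continuous.comp (by fun_prop)
  have hMM : ∀ p, M p * M' p = 1 := by
    intro p
    have h2 : H.1.1 * (H.1⁻¹).1 = 1 := by rw [← Units.val_mul]; simp
    exact congrArg (fun f : C((PUnit.{1} × I) × I, Matrix (Unit ⊕ Fin n) (Unit ⊕ Fin n) R) =>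
      f ((PUnit.unit.{1}, p.1), p.2)) h2
  have hM0 : ∀ s, M (s, 0) = 1 := fun s =>
    congrArg (fun G : GF _ _ (Unit ⊕ Fin n) => G.1.1 (PUnit.unit.{1}, s)) h0
  have hM1 : ∀ s, M (s, 1) = Matrix.fromBlocks (gfn 1 (PUnit.unit.{1}, s)) 0 0 1 := fun s =>
    congrArg (fun G : GF _ _ (Unit ⊕ Fin n) => G.1.1 (PUnit.unit.{1}, s)) h1
  have hMr : ∀ r, M (1, r) = 1 := fun r => H.2.1 ((PUnit.unit.{1}, 1), r) (Or.inr rfl)
  have hMs : ∀ r, M (0, r) ∈ sc (Unit ⊕ Fin n) := fun r => (H.2.2 ((PUnit.unit.{1}, 0), r) rfl).1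
  let D : I × I → ℂ := fun p => (Matrix.comp _ _ (Fin 2) (Fin 2) ℂ (M p)).det
  have hcomp : Continuous fun m : Matrix (Unit ⊕ Fin n) (Unit ⊕ Fin n) R =>
      Matrix.comp _ _ (Fin 2) (Fin 2) ℂ m := by
    refine continuous_pi fun i => continuous_pi fun j => ?_
    change Continuous fun m : Matrix (Unit ⊕ Fin n) (Unit ⊕ Fin n) R => m i.1 j.1 i.2 j.2
    fun_prop
  have hD : Continuous D := (hcomp.comp hMc).matrix_det
  have hD0 : ∀ p, D p ≠ 0 := by
    intro p hp
    have h2 : (Matrix.comp _ _ (Fin 2) (Fin 2) ℂ (M p * M' p)).det =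
        (Matrix.comp _ _ (Fin 2) (Fin 2) ℂ (1 : Matrix (Unit ⊕ Fin n) (Unit ⊕ Fin n) R)).det := by
      rw [hMM p]
    have h3 := (Matrix.compRingEquiv (Unit ⊕ Fin n) (Fin 2) ℂ).map_mul (M p) (M' p)
    simp only [Matrix.compRingEquiv_apply] at h3
    rw [h3, Matrix.det_mul, Matrix.comp_one, Matrix.det_one] at h2
    have h4 : D p * (Matrix.comp _ _ (Fin 2) (Fin 2) ℂ (M' p)).det = 1 := h2
    rw [hp, zero_mul] at h4
    exact zero_ne_one h4
  obtain ⟨f0, hf0, hf0s⟩ := exists_sqrt D hD hD0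
  have hD00 : ∀ s, D (s, 0) = 1 := by
    intro s
    simp only [D, hM0, Matrix.comp_one, Matrix.det_one]
  have hD1 : ∀ r, D (1, r) = 1 := by
    intro r
    simp only [D, hMr, Matrix.comp_one, Matrix.det_one]
  obtain ⟨f, hf, hfs, hf1⟩ : ∃ f : I × I → ℂ, Continuous f ∧ (∀ p, f p ^ 2 = D p) ∧ f (0, 0) = 1 := by
    have h := hf0s (0, 0)
    rw [hD00] at h
    rw [sq] at h
    rcases mul_self_eq_one_iff.mp h with h | h
    · exact ⟨f0, hf0, hf0s, h⟩
    · exact ⟨fun p => -f0 p, hf0.neg, fun p => by rw [neg_sq, hf0s], by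
        change -f0 (0, 0) = 1
        rw [h, neg_neg]⟩
  -- the bottom
  have ha : (fun s : I => f (s, 0)) = fun _ => 1 :=
    eq_of_sq (by fun_prop) (by fun_prop) (fun s => by rw [hfs, hD00, one_pow])
      (fun _ => one_ne_zero) hf1
  have hb : (fun r : I => f (1, r)) = fun _ => 1 :=
    eq_of_sq (by fun_prop) (by fun_prop) (fun s => by rw [hfs, hD1, one_pow])
      (fun _ => one_ne_zero) (congrFun ha 1)
  let N : I → ℂ := fun r => (Matrix.of fun i j => M (0, r) i j 0 0).det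
  have hN : Continuous N := by
    refine Continuous.matrix_det ?_
    refine continuous_pi fun i => continuous_pi fun j => ?_
    change Continuous fun r => M (0, r) i j 0 0
    have h5 : Continuous fun r : I => M (0, r) := hMc.comp (by fun_prop)
    exact (continuous_apply_apply (0 : Fin 2) (0 : Fin 2)).comp
      ((continuous_apply_apply i j).comp h5)
  have hNs : ∀ r, N r ^ 2 = D (0, r) := fun r => (comp_sc (hMs r)).symm
  have hone : (Matrix.of fun i j => (1 : Matrix (Unit ⊕ Fin n) (Unit ⊕ Fin n) R) i j 0 0) = 1 := by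
    ext i j
    by_cases h : i = j
    · subst h; simp
    · simp [Matrix.one_apply_ne h]
  have hN0 : N 0 = 1 := by
    simp only [N, hM0, hone, Matrix.det_one]
  have hM01 : M (0, 1) = 1 := by
    rw [hM1]
    have : gfn 1 (PUnit.unit.{1}, 0) = 1 := gfn_eq_one 1 _ (by simp)
    rw [this, Matrix.fromBlocks_one]
  have hN1 : N 1 = 1 := by
    simp only [N, hM01, hone, Matrix.det_one]
  have hc : (fun r : I => f (0, r)) = N :=
    eq_of_sq (by fun_prop) hN (fun r => by rw [hfs, hNs])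
      (fun r h => hD0 (0, r) (by rw [← hNs, h]; simp)) (by rw [hf1, hN0])
  have hD2 : ∀ s : I, D (s, 1) = Complex.exp (2 * Real.pi * Complex.I * ((s : ℝ) : ℂ)) := by
    intro s
    have h6 : Matrix.comp _ _ (Fin 2) (Fin 2) ℂ (M (s, 1)) =
        Matrix.diagonal (fun p : (Unit ⊕ Fin n) × Fin 2 => Sum.elim
          (fun _ => ![Complex.exp (2 * Real.pi * Complex.I * ((s : ℝ) : ℂ)), 1] p.2)
          (fun _ => (1 : ℂ)) p.1) := by
      rw [hM1]
      ext ⟨i, k⟩ ⟨j, l⟩
      rw [Matrix.comp_apply]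
      rcases i with i | i <;> rcases j with j | j
      · rw [Matrix.fromBlocks_apply₁₁]
        change Matrix.diagonal _ k l = _
        by_cases h : k = l
        · subst h; simp
        · rw [Matrix.diagonal_apply_ne _ h, Matrix.diagonal_apply_ne]
          simp [h]
      · rw [Matrix.fromBlocks_apply₁₂, Matrix.diagonal_apply_ne]
        · rfl
        · simp
      · rw [Matrix.fromBlocks_apply₂₁, Matrix.diagonal_apply_ne]
        · rfl
        · simp
      · rw [Matrix.fromBlocks_apply₂₂]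
        by_cases hij : i = j
        · subst hij
          by_cases h : k = l
          · subst h; simp
          · rw [Matrix.diagonal_apply_ne]
            · simp [h]
            · simp [h]
        · rw [Matrix.diagonal_apply_ne]
          · simp [hij]
          · simp [hij]
    simp only [D]
    rw [h6, Matrix.det_diagonal, Fintype.prod_prod_type, Fintype.prod_sum_type]
    simp
  have hd : (fun s : I => f (s, 1)) =
      fun s : I => Complex.exp (Real.pi * Complex.I * ((s : ℝ) : ℂ)) :=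
    eq_of_sq (by fun_prop) (by fun_prop) (fun s => by
        rw [hfs, hD2, ← Complex.exp_nat_mul]
        congr 1
        push_cast
        ring) (fun _ => Complex.exp_ne_zero _) (by
        have h7 : f (0, 1) = N 1 := congrFun hc 1
        rw [h7, hN1]
        simp)
  have e1 : f (1, 1) = 1 := congrFun hb 1
  have e2 : f (1, 1) = Complex.exp (Real.pi * Complex.I * (((1 : I) : ℝ) : ℂ)) := congrFun hd 1
  rw [e1] at e2
  simp only [Set.Icc.coe_one, Complex.ofReal_one, mul_one, Complex.exp_pi_mul_I] at e2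
  norm_num at e2

end Pt0_aux

theorem pt_zero : ∃ x : K1 (Y := PUnit × I) {p | p.1 ∈ (∅ : Set PUnit) ∨ p.2 = 1} {p | p.2 = 0},
    x ≠ 0 :=
  ⟨cl Pt0_aux.g0, fun h => Pt0_aux.not_nul ((cl_eq_zero _).mp h)⟩

end Pool.QB.KTh
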