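import Pool.Agent.MP_c51823_gt.QB.KTh.Asm3
import Pool.Agent.MP_c51823_gt.QB.KTh.Bott
import Pool.Agent.MP_c51823_gt.QB.KTh.Pt0

/-!
# [QBK] Formal assembly (helper58), part 4: the class of a point in degree 4
-/

set_option autoImplicit false
open Topology

namespace Pool.QB.KTh

theorem h_pt4 : ∃ w : Hq 4 (absP PUnit), w ≠ 0 := by
  obtain ⟨x, hx⟩ := pt_zero
  have hB : IsClosed (Bq (∅ : Set PUnit) 0) := isClosed_Bq isClosed_empty 0
  have hS : IsClosed (Sq PUnit 0) := isClosed_Sq 0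
  have hB2 : IsClosed (Bq (∅ : Set PUnit) 2) := isClosed_Bq isClosed_empty 2
  have hS2 : IsClosed (Sq PUnit 2) := isClosed_Sq 2
  have b1 := (bott_bijective (Y := Yq PUnit 0) hB hS).1
  have b2 := (bott_bijective (Y := Yq PUnit 2) hB2 hS2).1
  refine ⟨bott (Bq (∅ : Set PUnit) 2) (Sq PUnit 2) (bott (Bq (∅ : Set PUnit) 0) (Sq PUnit 0) x), ?_⟩
  intro h
  apply hx
  have h2 : bott (Bq (∅ : Set PUnit) 0) (Sq PUnit 0) x = 0 := b2 (h.trans (map_zero _).symm)
  exact b1 (h2.trans (map_zero _).symm)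

end Pool.QB.KTh
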