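import Pool.Agent.MP_c51823_gt.QB.KTh.Delta

/-!
# [QBK-E] The exact sequence and naturality of `δ`

* `exact_sus`: (if): a lift of the restriction of `H ∈ GF (susB Bd)` is `H` itself, end value `1`.
  (only if): `x = cl h` (`exists_cl`), `H` a lift, `H_1` is `Nul` in `K1 Br Sd`: there is
  `N ∈ GF (cyl Br) (cyl Sd) (ι ⊕ Fin n)` with `N_0 = 1`, `N_1 = H_1 ⊕ 1`; `H' = (H ⊕ 1) N⁻¹` is `1` at
  `t = 0, 1` and restricts to `h ⊕ 1`.
* `exact_rel`: (if): the lift is a path in `GF Bd Sd` from `1` to `H_1`. (only if): `x = cl g`, a null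
  homotopy `H` of `g ⊕ 1` over `(Bd, Sd)` restricts to a loop `h` with `δ [h] = [g ⊕ 1]`.
* `exact_abs`: (only if): `x = cl g`, null homotopy `h` of `g ∘ i ⊕ 1`; by `hep` `h = H ∘ (i × id)`,
  `H_0 = 1`; `g' = (g ⊕ 1) H_1⁻¹` is `1` on `Br` and `cl g' = cl g`.
* naturality: pull back lifts.
-/

set_option autoImplicit false
open Topology

namespace Pool.QB.KTh

namespace Exact_aux

/-- Change of the set on which the function is `1`. -/
def reB {Y : Type} [TopologicalSpace Y] {B B' S : Set Y} {ι : Type} [Fintype ι] [DecidableEq ι]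
    (g : GF B S ι) (h : ∀ y ∈ B', g.1.1 y = 1) : GF B' S ι := ⟨g.1, h, g.2.2⟩

theorem gf_val_eq {Y : Type} [TopologicalSpace Y] {B S : Set Y} {ι : Type} [Fintype ι]
    [DecidableEq ι] {g h : GF B S ι} (e : g = h) (y : Y) : g.1.1 y = h.1.1 y := by rw [e]

theorem gsum_val {Y : Type} [TopologicalSpace Y] {B S : Set Y} {ι κ : Type} [Fintype ι]
    [DecidableEq ι] [Fintype κ] [DecidableEq κ] (g : GF B S ι) (h : GF B S κ) (y : Y) :
    (gsum g h).1.1 y = Matrix.fromBlocks (g.1.1 y) 0 0 (h.1.1 y) := rfl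

theorem ev_val {Y : Type} [TopologicalSpace Y] {B S : Set Y} {ι : Type} [Fintype ι]
    [DecidableEq ι] (t : I) (H : GF (cyl B) (cyl S) ι) (y : Y) :
    (ev t H).1.1 y = H.1.1 (y, t) := rfl

theorem pull_val {Y Y' : Type} [TopologicalSpace Y] [TopologicalSpace Y'] {B S : Set Y}
    {B' S' : Set Y'} (f : C(Y, Y')) (hB : Set.MapsTo f B B') (hS : Set.MapsTo f S S') {ι : Type}
    [Fintype ι] [DecidableEq ι] (g : GF B' S' ι) (y : Y) :
    (pull f hB hS ι g).1.1 y = g.1.1 (f y) := rfl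

theorem inv_val_of_one {Y : Type} [TopologicalSpace Y] {B S : Set Y} {ι : Type} [Fintype ι]
    [DecidableEq ι] (g : GF B S ι) (y : Y) (h : g.1.1 y = 1) : (g⁻¹).1.1 y = 1 := by
  have := gf_inv_mul g y
  rwa [h, mul_one] at this

theorem sum_one_val {Y : Type} [TopologicalSpace Y] {B S : Set Y} {ι κ : Type} [Fintype ι]
    [DecidableEq ι] [Fintype κ] [DecidableEq κ] (g : GF B S ι) (y : Y) (h : g.1.1 y = 1) :
    (gsum g (1 : GF B S κ)).1.1 y = 1 := by
  rw [gsum_val, h, gf_one, Matrix.fromBlocks_one]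

end Exact_aux

open Exact_aux

variable {Yc Yd : Type} [TopologicalSpace Yc] [CompactSpace Yc] [T2Space Yc]
  [TopologicalSpace Yd] [CompactSpace Yd] [T2Space Yd] {Bc Sc : Set Yc} {Bd Sd Br : Set Yd}
  {i : C(Yc, Yd)}

theorem exact_sus (E : CEmb Bc Sc Bd Sd Br i) (x : K1 (susB Bc) (cyl Sc)) :
    delta E x = 0 ↔ ∃ y : K1 (susB Bd) (cyl Sd), kmap (cylMap i) E.sus.mB E.sus.mS y = x := by
  constructor
  · intro hx
    obtain ⟨n, h, rfl⟩ := exists_cl x
    obtain ⟨g, hg⟩ := exists_isEnd E h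
    rw [delta_cl E hg, cl_eq_zero] at hx
    obtain ⟨m, N, hN0, hN1⟩ := hx
    obtain ⟨H, hH0, hHh, hH1⟩ := hg
    have hN0' : ∀ y, N.1.1 (y, 0) = 1 := fun y => by
      have := gf_val_eq hN0 y
      rwa [ev_val, gf_one] at this
    have hN1' : ∀ y, N.1.1 (y, 1) = Matrix.fromBlocks (g.1.1 y) 0 0 1 := fun y => by
      have := gf_val_eq hN1 y
      rwa [ev_val, gsum_val, gf_one] at this
    set N' : GF (cyl Bd) (cyl Sd) (Fin n ⊕ Fin m) :=
      reB N (fun y hy => N.2.1 y ((E.hr y.1).2 (Or.inl hy))) with hN'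
    set G : GF (cyl Bd) (cyl Sd) (Fin n ⊕ Fin m) :=
      gsum H (1 : GF (cyl Bd) (cyl Sd) (Fin m)) * N'⁻¹ with hG
    have hN'v : ∀ y, N'.1.1 y = N.1.1 y := fun _ => rfl
    have hGs : ∀ y ∈ susB Bd, G.1.1 y = 1 := by
      rintro ⟨y, t⟩ (hy | hy | hy)
      · exact G.2.1 _ hy
      · change t = 0 at hy
        subst hy
        rw [hG, gf_mul, sum_one_val _ _ (hH0 y), one_mul]
        exact inv_val_of_one _ _ (by rw [hN'v]; exact hN0' y)
      · change t = 1 at hy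
        subst hy
        rw [hG, gf_mul, gsum_val, hH1, gf_one, ← hN1', ← hN'v, gf_mul_inv]
    refine ⟨cl (reB G hGs), ?_⟩
    rw [kmap_cl]
    have e : pull (cylMap i) E.sus.mB E.sus.mS (Fin n ⊕ Fin m) (reB G hGs) =
        gsum h (1 : GF (susB Bc) (cyl Sc) (Fin m)) := by
      apply gf_ext
      rintro ⟨y, t⟩
      rw [pull_val]
      change G.1.1 (i y, t) = _
      have h1 : (N'⁻¹).1.1 (i y, t) = 1 := by
        apply inv_val_of_one
        rw [hN'v]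
        exact N.2.1 _ ((E.hr (i y)).2 (Or.inr ⟨y, rfl⟩))
      rw [hG, gf_mul, gsum_val, hHh, gf_one, h1, mul_one, gsum_val, gf_one]
    rw [e, cl_gsum_one]
  · rintro ⟨y, rfl⟩
    obtain ⟨n, G, rfl⟩ := exists_cl y
    rw [kmap_cl]
    have hend : IsEnd E (pull (cylMap i) E.sus.mB E.sus.mS (Fin n) G) (1 : GF Br Sd (Fin n)) := by
      refine ⟨reB G (fun y hy => G.2.1 y (Or.inl hy)), fun y => ?_, fun _ _ => rfl, fun y => ?_⟩
      · exact G.2.1 _ (Or.inr (Or.inl rfl))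
      · rw [gf_one]
        exact G.2.1 _ (Or.inr (Or.inr rfl))
    rw [delta_cl E hend, cl_one]

theorem exact_rel (E : CEmb Bc Sc Bd Sd Br i) (x : K1 Br Sd) :
    kmap (ContinuousMap.id Yd) E.mr (fun _ h => h) x = (0 : K1 Bd Sd) ↔
      ∃ y : K1 (susB Bc) (cyl Sc), delta E y = x := by
  constructor
  · intro hx
    obtain ⟨n, g, rfl⟩ := exists_cl x
    rw [kmap_cl, cl_eq_zero] at hx
    obtain ⟨m, H, hH0, hH1⟩ := hx
    have hH0' : ∀ y, H.1.1 (y, 0) = 1 := fun y => by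
      have := gf_val_eq hH0 y
      rwa [ev_val, gf_one] at this
    have hH1' : ∀ y, H.1.1 (y, 1) = Matrix.fromBlocks (g.1.1 y) 0 0 1 := fun y => by
      have := gf_val_eq hH1 y
      rwa [ev_val, gsum_val, gf_one, pull_val] at this
    have hs : ∀ y ∈ susB Bc,
        (pull (cylMap i) E.cyl.mB E.cyl.mS (Fin n ⊕ Fin m) H).1.1 y = 1 := by
      rintro ⟨y, t⟩ (hy | hy | hy)
      · exact (pull (cylMap i) E.cyl.mB E.cyl.mS (Fin n ⊕ Fin m) H).2.1 _ hy
      · change t = 0 at hy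
        subst hy
        exact hH0' (i y)
      · change t = 1 at hy
        subst hy
        change H.1.1 (i y, 1) = 1
        rw [hH1', g.2.1 _ ((E.hr (i y)).2 (Or.inr ⟨y, rfl⟩)), Matrix.fromBlocks_one]
    refine ⟨cl (reB (pull (cylMap i) E.cyl.mB E.cyl.mS (Fin n ⊕ Fin m) H) hs), ?_⟩
    have hend : IsEnd E (reB (pull (cylMap i) E.cyl.mB E.cyl.mS (Fin n ⊕ Fin m) H) hs)
        (gsum g (1 : GF Br Sd (Fin m))) := by
      refine ⟨H, hH0', fun _ _ => rfl, fun y => ?_⟩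
      rw [hH1', gsum_val, gf_one]
    rw [delta_cl E hend, cl_gsum_one]
  · rintro ⟨y, rfl⟩
    obtain ⟨n, h, rfl⟩ := exists_cl y
    obtain ⟨g, hg⟩ := exists_isEnd E h
    rw [delta_cl E hg, kmap_cl]
    obtain ⟨H, hH0, _, hH1⟩ := hg
    have e0 : ev 0 H = 1 := gf_ext fun y => by rw [ev_val, hH0, gf_one]
    have e1 : ev 1 H = pull (ContinuousMap.id Yd) E.mr (fun _ h => h) (Fin n) g :=
      gf_ext fun y => by rw [ev_val, hH1, pull_val]; rfl
    rw [← e1, ← cl_homotopy, e0, cl_one]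

theorem exact_abs (E : CEmb Bc Sc Bd Sd Br i) (x : K1 Bd Sd) :
    kmap i E.mB E.mS x = 0 ↔
      ∃ y : K1 Br Sd, kmap (ContinuousMap.id Yd) E.mr (fun _ h => h) y = x := by
  constructor
  · intro hx
    obtain ⟨n, g, rfl⟩ := exists_cl x
    rw [kmap_cl, cl_eq_zero] at hx
    obtain ⟨m, h, h0, h1⟩ := hx
    obtain ⟨H, hH0, hHh⟩ := hep E h h0
    set g' : GF Bd Sd (Fin n ⊕ Fin m) := gsum g (1 : GF Bd Sd (Fin m)) * (ev 1 H)⁻¹ with hg'
    have hg'r : ∀ y ∈ Br, g'.1.1 y = 1 := by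
      intro y hy
      rcases (E.hr y).1 hy with hy | ⟨x, rfl⟩
      · exact g'.2.1 _ hy
      · have e1 : (ev 1 H).1.1 (i x) = Matrix.fromBlocks (g.1.1 (i x)) 0 0 1 := by
          have e2 := gf_val_eq hHh (x, 1)
          rw [pull_val] at e2
          change H.1.1 (i x, 1) = _ at e2
          have e3 := gf_val_eq h1 x
          rw [ev_val, gsum_val, gf_one, pull_val] at e3
          rw [ev_val, e2, e3]
        rw [hg', gf_mul, gsum_val, gf_one, ← e1, gf_mul_inv]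
    refine ⟨cl (reB g' hg'r), ?_⟩
    rw [kmap_cl]
    have e : pull (ContinuousMap.id Yd) E.mr (fun _ h => h) (Fin n ⊕ Fin m) (reB g' hg'r) = g' :=
      gf_ext fun y => rfl
    rw [e, hg', cl_mul, cl_inv, cl_gsum_one, ← cl_homotopy, hH0, cl_one, neg_zero, add_zero]
  · rintro ⟨y, rfl⟩
    obtain ⟨n, g, rfl⟩ := exists_cl y
    rw [kmap_cl, kmap_cl]
    have e : pull i E.mB E.mS (Fin n)
        (pull (ContinuousMap.id Yd) E.mr (fun _ h => h) (Fin n) g) = 1 :=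
      gf_ext fun y => by
        rw [pull_val, pull_val, gf_one]
        exact g.2.1 _ ((E.hr (i y)).2 (Or.inr ⟨y, rfl⟩))
    rw [e, cl_one]

theorem delta_nat {Yc' Yd' : Type} [TopologicalSpace Yc'] [CompactSpace Yc'] [T2Space Yc']
    [TopologicalSpace Yd'] [CompactSpace Yd'] [T2Space Yd'] {Bc' Sc' : Set Yc'}
    {Bd' Sd' Br' : Set Yd'} {i' : C(Yc', Yd')} (E : CEmb Bc Sc Bd Sd Br i)
    (E' : CEmb Bc' Sc' Bd' Sd' Br' i') (fc : C(Yc, Yc')) (fd : C(Yd, Yd'))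
    (hc : ∀ y, fd (i y) = i' (fc y)) (hBc : Set.MapsTo fc Bc Bc') (hSc : Set.MapsTo fc Sc Sc')
    (hBd : Set.MapsTo fd Bd Bd') (hBr : Set.MapsTo fd Br Br') (hSd : Set.MapsTo fd Sd Sd')
    (x : K1 (susB Bc') (cyl Sc')) :
    kmap fd hBr hSd (delta E' x) = delta E (kmap (cylMap fc) (mapsTo_susB hBc) (mapsTo_cyl hSc) x) := by
  obtain ⟨n, h, rfl⟩ := exists_cl x
  obtain ⟨g, hg⟩ := exists_isEnd E' h
  rw [delta_cl E' hg, kmap_cl, kmap_cl]
  obtain ⟨H, hH0, hHh, hH1⟩ := hg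
  have hend : IsEnd E (pull (cylMap fc) (mapsTo_susB hBc) (mapsTo_cyl hSc) (Fin n) h)
      (pull fd hBr hSd (Fin n) g) := by
    refine ⟨pull (cylMap fd) (mapsTo_cyl hBd) (mapsTo_cyl hSd) (Fin n) H, fun y => ?_,
      fun x t => ?_, fun y => ?_⟩
    · exact hH0 (fd y)
    · change H.1.1 (fd (i x), t) = h.1.1 (fc x, t)
      rw [hc, hHh]
    · exact hH1 (fd y)
  rw [delta_cl E hend]

end Pool.QB.KTh
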