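import Mathlib

/-!
# [QBK-FA] Change of basis from `(L - 1)^i` to `L^i`

For an additive endomorphism `L` of `G` commuting formally, `(L - 1)^i = ∑_j (-1)^{i-j} C(i,j) L^j` and
`L^i = ∑_j C(i,j) (L-1)^j` (in the ring `AddMonoid.End G`). The change of variables
`c'_j = ∑_{i ≥ j} (-1)^{i-j} C(i,j) c_i` of `Fin (a+1) → A` is invertible.
-/

set_option autoImplicit false

namespace Pool.QB.KTh

namespace FreeAlg_aux

open Matrix

variable {A : Type} [AddCommGroup A] {n : ℕ}

/-- action of an integer matrix on `A ^ n` -/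
def act (M : Matrix (Fin n) (Fin n) ℤ) (c : Fin n → A) : Fin n → A :=
  fun j => ∑ i, M j i • c i

theorem act_one (c : Fin n → A) : act 1 c = c := by
  funext j
  unfold act
  rw [Finset.sum_eq_single j]
  · simp
  · intro i _ hij
    rw [Matrix.one_apply_ne hij.symm, zero_smul]
  · simp

theorem act_mul (M N : Matrix (Fin n) (Fin n) ℤ) (c : Fin n → A) :
    act (M * N) c = act M (act N c) := by
  funext j
  unfold act
  simp_rw [Matrix.mul_apply, Finset.sum_smul, Finset.smul_sum, mul_smul]
  rw [Finset.sum_comm]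

theorem act_bijective (M : Matrix (Fin n) (Fin n) ℤ) (h : IsUnit M) :
    Function.Bijective (act M : (Fin n → A) → Fin n → A) := by
  obtain ⟨u, rfl⟩ := h
  refine Function.bijective_iff_has_inverse.2 ⟨act (↑u⁻¹ : Matrix (Fin n) (Fin n) ℤ), ?_, ?_⟩
  · intro c
    rw [← act_mul, Units.inv_mul, act_one]
  · intro c
    rw [← act_mul, Units.mul_inv, act_one]

theorem end_sum {G : Type} [AddCommGroup G] (s : Finset ℕ) (f : ℕ → AddMonoid.End G) (x : G) :
    (∑ i ∈ s, f i) x = ∑ i ∈ s, f i x := by
  classical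
  induction s using Finset.induction_on with
  | empty => rfl
  | insert a s ha ih =>
    rw [Finset.sum_insert ha, Finset.sum_insert ha, ← ih]
    rfl

/-- the Pascal matrix -/
def pas (n : ℕ) : Matrix (Fin n) (Fin n) ℤ := Matrix.of fun j i => (Nat.choose i j : ℤ)

theorem pas_apply (n : ℕ) (j i : Fin n) : pas n j i = (Nat.choose i j : ℤ) := rfl

theorem isUnit_pas (n : ℕ) : IsUnit (pas n) := by
  rw [Matrix.isUnit_iff_isUnit_det, Matrix.det_of_isUpperTriangular]
  · simp [pas]
  · intro i j hij
    have h : (j : ℕ) < i := hij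
    simp [pas, Nat.choose_eq_zero_of_lt h]

end FreeAlg_aux

open FreeAlg_aux

theorem basis_change {A G : Type} [AddCommGroup A] [AddCommGroup G] (L : G →+ G) (p : A →+ G)
    (a : ℕ) (h : Function.Bijective fun c : Fin (a + 1) → A =>
      ∑ i : Fin (a + 1), (fun y => L y - y)^[(i : ℕ)] (p (c i))) :
    Function.Bijective fun c : Fin (a + 1) → A => ∑ i : Fin (a + 1), (L)^[(i : ℕ)] (p (c i)) := by
  let L' : AddMonoid.End G := L
  let D : AddMonoid.End G := L' - 1
  have hD : ∀ (i : ℕ) (x : G), (fun y => L y - y)^[i] x = (D ^ i) x := by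
    intro i x
    rw [AddMonoid.End.coe_pow]
    rfl
  have hL : ∀ (i : ℕ) (x : G), L^[i] x = (L' ^ i) x := by
    intro i x
    rw [AddMonoid.End.coe_pow]
    rfl
  have hLD : L' = D + 1 := by
    simp only [D]
    abel
  have hpow : ∀ (i : Fin (a + 1)) (x : G), (L' ^ (i : ℕ)) x =
      ∑ j : Fin (a + 1), pas (a + 1) j i • (D ^ (j : ℕ)) x := by
    intro i x
    rw [hLD, (Commute.one_right D).add_pow]
    simp_rw [pas_apply]
    rw [Fin.sum_univ_eq_sum_range (fun j => ((Nat.choose i j : ℕ) : ℤ) • (D ^ j) x) (a + 1)]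
    have h1 : Finset.range ((i : ℕ) + 1) ⊆ Finset.range (a + 1) := by
      intro k hk
      rw [Finset.mem_range] at hk ⊢
      have := i.2
      omega
    rw [← Finset.sum_subset h1]
    · rw [end_sum]
      refine Finset.sum_congr rfl fun k _ => ?_
      rw [one_pow, mul_one, natCast_zsmul]
      change (D ^ k) ((((i : ℕ).choose k : ℕ) : AddMonoid.End G) x) = _
      rw [AddMonoid.End.natCast_apply, map_nsmul]
    · intro k _ hk
      rw [Finset.mem_range, not_lt] at hk
      rw [Nat.choose_eq_zero_of_lt (by omega)]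
      simp
  have key : (fun c : Fin (a + 1) → A => ∑ i : Fin (a + 1), (L)^[(i : ℕ)] (p (c i))) =
      (fun c : Fin (a + 1) → A =>
        ∑ i : Fin (a + 1), (fun y => L y - y)^[(i : ℕ)] (p (c i))) ∘ act (pas (a + 1)) := by
    funext c
    simp only [Function.comp_apply, act]
    simp_rw [hL, hpow, hD, map_sum, map_zsmul]
    rw [Finset.sum_comm]
  rw [key]
  exact h.comp (act_bijective _ (isUnit_pas _))

end Pool.QB.KTh
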