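import Pool.Agent.MP_c51823_gt.QB.KTh.Poly3
import Pool.Agent.MP_c51823_gt.QB.KTh.FreeAlg
import Pool.Agent.MP_c51823_gt.QB.KTh.Exact

/-!
# [QBK-FR] The projective bundle theorem

`compactSpace` of `CP a`: `isCompact_CP`. `free_N a`: induction on `a`, for all `Y, B, S`.
`a = 0`: `CP 0` is one point (`line_eq_iff`), `fstM` is a homeomorphism (`RH`, `kmap_bijective`).
`a → a+1`: closed embedding `cpI Y a` with `Bc = prZ B (CP a)`, `Bd = prZ B (CP (a+1))`, `Br = cpB B a`
(`cp_emb`). Write `N = L - 1`. The restriction `kmap (cpI Y a)` commutes with `L` (`actL_nat`) and `N`, and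
maps `fst^* c` to `fst^* c` (`kmap_comp`).
* surjective: `y` over `CP (a+1)`; its restriction is `∑_{i≤a} N^i fst^* c_i`; `y' = y - ∑_{i≤a} N^i fst^* c_i`
  restricts to `0`, so `y'` is the image of `r ∈ K1 (cpB B a)` (`exact_abs`), `r = theta x`
  (`theta_bijective`), `y' = N^{a+1} fst^* x` (`theta_forget`).
* injective: if `∑_{i≤a+1} N^i fst^* c_i = 0`, restrict to `CP a`, where `N^{a+1} = 0` (`actL_nil`), so `c_i = 0`
  for `i ≤ a`; then `N^{a+1} fst^* c_{a+1} = 0` is the image of `theta c_{a+1}`, so `theta c_{a+1} = δ w`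
  (`exact_rel`), `w ∈ K1 (susB (prZ B (CP a))) (cyl _)` over `(Y × CP a) × I`. Up to the homeomorphism
  `(Y × Z) × I ≃ (Y × I) × Z` (and equal sets), the induction hypothesis for `Y × I`, `susB B`, `cyl S` writes
  `w = ∑ N^i fst^* d_i`, which is the restriction of the same expression over `CP (a+1)`; so `δ w = 0`
  (`exact_sus`) and `theta c_{a+1} = 0`, `c_{a+1} = 0`.
-/

set_option autoImplicit false
open Topology

namespace Pool.QB.KTh

instance instCompCP (a : ℕ) : CompactSpace (CP a) := isCompact_iff_compactSpace.1 (isCompact_CP a)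

theorem cp_emb {Y : Type} [TopologicalSpace Y] {B S : Set Y} (hB : IsClosed B) (hS : IsClosed S)
    (n : ℕ) : CEmb (prZ B (CP n)) (prZ S (CP n)) (prZ B (CP (n + 1))) (prZ S (CP (n + 1))) (cpB B n)
      (cpI Y n) where
  inj := by
    rintro ⟨y, e⟩ ⟨y', e'⟩ h
    have h1 : y = y' := congrArg Prod.fst h
    have h2 : (e : ℕ → ℕ → ℂ) = e' := congrArg (fun p : Y × CP (n + 1) => (p.2 : ℕ → ℕ → ℂ)) h
    rw [h1, Subtype.ext h2]
  hB := fun _ => Iff.rfl
  hS := fun _ => Iff.rfl
  hr := by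
    rintro ⟨y, e⟩
    constructor
    · rintro (h | h)
      · exact Or.inl h
      · exact Or.inr ⟨(y, ⟨e.1, h⟩), rfl⟩
    · rintro (h | ⟨x, hx⟩)
      · exact Or.inl h
      · refine Or.inr ?_
        rw [← hx]
        exact x.2.2
  closedB := hB.preimage continuous_fst
  closedS := hS.preimage continuous_fst

namespace Free_aux

section general

variable {Y : Type} [TopologicalSpace Y] {B S : Set Y}

/-- The inclusion `CP a → CP (a+1)`. -/
def inc (a : ℕ) : C(CP a, CP (a + 1)) :=
  ⟨fun e => ⟨e.1, CP_mono (Nat.le_succ a) e.2⟩, continuous_subtype_val.subtype_mk _⟩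

/-- The matrix of the inclusion `ℂ^{a+1} → ℂ^{a+2}`. -/
def MI (a : ℕ) : Matrix (Fin (a + 1 + 1)) (Fin (a + 1)) ℂ :=
  Matrix.of fun i j => if (i : ℕ) = j then 1 else 0

theorem actL_inc {a : ℕ} (g : C(Y, CP a)) (x : K1 B S) :
    actL ((inc a).comp g) x = actL g x := by
  refine line_equiv ((taut (a + 1)).comp ((inc a).comp g)) (fun _ => taut_isLine _)
    ((taut a).comp g) (fun _ => taut_isLine _) (ContinuousMap.const Y (MI a)) ?_ x
  intro y h0
  have h0' : taut (a + 1) (inc a (g y)) * MI a * taut a (g y) = 0 := h0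
  have h1 : ∀ i j : Fin (a + 1), (taut (a + 1) (inc a (g y)) * MI a) (Fin.castSucc i) j =
      taut a (g y) i j := by
    intro i j
    rw [Matrix.mul_apply, Finset.sum_eq_single (Fin.castSucc j)]
    · simp [MI, taut, inc]
    · intro b _ hb
      have : (b : ℕ) ≠ j := fun h => hb (Fin.ext h)
      simp [MI, this]
    · intro h
      exact absurd (Finset.mem_univ _) h
  have h2 : taut a (g y) * taut a (g y) = 0 := by
    ext i j
    have h3 := congrFun (congrFun h0' (Fin.castSucc i)) j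
    rw [Matrix.mul_apply] at h3 ⊢
    simp only [h1] at h3
    exact h3
  rw [taut_idem] at h2
  obtain ⟨v, hv1, hv2⟩ := taut_isLine (g y)
  have h4 : ∀ i, v i * (starRingEnd ℂ) (v i) = 0 := by
    intro i
    rw [← hv2, h2]
    rfl
  rw [Finset.sum_eq_zero fun i _ => h4 i] at hv1
  exact zero_ne_one hv1

/-- `L - 1` -/
noncomputable def NH {a : ℕ} (g : C(Y, CP a)) : K1 B S →+ K1 B S := actL g - AddMonoidHom.id _

theorem NH_apply {a : ℕ} (g : C(Y, CP a)) (x : K1 B S) : NH g x = actL g x - x := rfl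

theorem NH_fun {a : ℕ} (g : C(Y, CP a)) :
    (fun y : K1 B S => actL g y - y) = (NH g : K1 B S → K1 B S) := rfl

/-- `∑ N^i p (c_i)` as a homomorphism. -/
def FHom {A G : Type} [AddCommGroup A] [AddCommGroup G] (N : G →+ G) (p : A →+ G) (a : ℕ) :
    (Fin (a + 1) → A) →+ G where
  toFun c := ∑ i : Fin (a + 1), (N)^[(i : ℕ)] (p (c i))
  map_zero' := by
    refine Finset.sum_eq_zero fun i _ => ?_
    rw [Pi.zero_apply, map_zero, iterate_map_zero]
  map_add' c d := by
    rw [← Finset.sum_add_distrib]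
    refine Finset.sum_congr rfl fun i _ => ?_
    rw [Pi.add_apply, map_add, iterate_map_add]

theorem FHom_apply {A G : Type} [AddCommGroup A] [AddCommGroup G] (N : G →+ G) (p : A →+ G) (a : ℕ)
    (c : Fin (a + 1) → A) : FHom N p a c = ∑ i : Fin (a + 1), (N)^[(i : ℕ)] (p (c i)) := rfl

theorem fB (B : Set Y) (Z : Type) [TopologicalSpace Z] : Set.MapsTo (fstM Y Z) (prZ B Z) B :=
  fun _ h => h

/-- pull-back along the projection -/
noncomputable def fp (B S : Set Y) (Z : Type) [TopologicalSpace Z] :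
    K1 B S →+ K1 (prZ B Z) (prZ S Z) := kmap (fstM Y Z) (fB B Z) (fB S Z)

/-- The map of the theorem. -/
noncomputable def FF' (a : ℕ) (B S : Set Y) :
    (Fin (a + 1) → K1 B S) →+ K1 (prZ B (CP a)) (prZ S (CP a)) :=
  FHom (NH (sndM Y (CP a))) (fp B S (CP a)) a

/-- the same expression over `CP (a+1)` -/
noncomputable def FF1 (a : ℕ) (B S : Set Y) :
    (Fin (a + 1) → K1 B S) →+ K1 (prZ B (CP (a + 1))) (prZ S (CP (a + 1))) :=
  FHom (NH (sndM Y (CP (a + 1)))) (fp B S (CP (a + 1))) a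

theorem mapsB (B : Set Y) (a : ℕ) : Set.MapsTo (cpI Y a) (prZ B (CP a)) (prZ B (CP (a + 1))) :=
  fun _ h => h

/-- The restriction to `CP a`. -/
noncomputable def res (a : ℕ) (B S : Set Y) :
    K1 (prZ B (CP (a + 1))) (prZ S (CP (a + 1))) →+ K1 (prZ B (CP a)) (prZ S (CP a)) :=
  kmap (cpI Y a) (mapsB B a) (mapsB S a)

theorem res_NH (a : ℕ) (x : K1 (prZ B (CP (a + 1))) (prZ S (CP (a + 1)))) :
    res a B S (NH (sndM Y (CP (a + 1))) x) = NH (sndM Y (CP a)) (res a B S x) := by
  have h : (sndM Y (CP (a + 1))).comp (cpI Y a) = (inc a).comp (sndM Y (CP a)) := rfl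
  rw [NH_apply, NH_apply, map_sub]
  congr 1
  exact (actL_nat (cpI Y a) (mapsB B a) (mapsB S a) (sndM Y (CP (a + 1))) x).trans
    (by rw [h]; exact actL_inc (sndM Y (CP a)) _)

theorem res_iter (a i : ℕ) (x : K1 (prZ B (CP (a + 1))) (prZ S (CP (a + 1)))) :
    res a B S ((NH (sndM Y (CP (a + 1))))^[i] x) = (NH (sndM Y (CP a)))^[i] (res a B S x) :=
  (Function.Semiconj.iterate_right (f := res a B S) (ga := NH (sndM Y (CP (a + 1))))
    (gb := NH (sndM Y (CP a))) (fun x => res_NH a x) i) x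

theorem res_fst (a : ℕ) (c : K1 B S) :
    res a B S (fp B S (CP (a + 1)) c) = fp B S (CP a) c :=
  (kmap_comp (cpI Y a) (mapsB B a) (mapsB S a) (fstM Y (CP (a + 1))) (fB B _) (fB S _)
    (fB B _) (fB S _) c).symm

theorem res_FF1 (a : ℕ) (c : Fin (a + 1) → K1 B S) : res a B S (FF1 a B S c) = FF' a B S c := by
  rw [FF1, FF', FHom_apply, FHom_apply, map_sum]
  refine Finset.sum_congr rfl fun i _ => ?_
  rw [res_iter, res_fst]

/-- `((y, z), t) ↦ ((y, t), z)` -/
def swp (Y Z : Type) [TopologicalSpace Y] [TopologicalSpace Z] : C((Y × Z) × I, (Y × I) × Z) :=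
  ⟨fun p => ((p.1.1, p.2), p.1.2), by fun_prop⟩

/-- `((y, t), z) ↦ ((y, z), t)` -/
def swp' (Y Z : Type) [TopologicalSpace Y] [TopologicalSpace Z] : C((Y × I) × Z, (Y × Z) × I) :=
  ⟨fun p => ((p.1.1, p.2), p.1.2), by fun_prop⟩

theorem swp_mB (B : Set Y) (Z : Type) [TopologicalSpace Z] :
    Set.MapsTo (swp Y Z) (susB (prZ B Z)) (prZ (susB B) Z) := fun _ h => h

theorem swp_mS (S : Set Y) (Z : Type) [TopologicalSpace Z] :
    Set.MapsTo (swp Y Z) (cyl (prZ S Z)) (prZ (cyl S) Z) := fun _ h => h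

theorem swp'_mB (B : Set Y) (Z : Type) [TopologicalSpace Z] :
    Set.MapsTo (swp' Y Z) (prZ (susB B) Z) (susB (prZ B Z)) := fun _ h => h

theorem swp'_mS (S : Set Y) (Z : Type) [TopologicalSpace Z] :
    Set.MapsTo (swp' Y Z) (prZ (cyl S) Z) (cyl (prZ S Z)) := fun _ h => h

theorem swp_surj (Z : Type) [TopologicalSpace Z] (w : K1 (susB (prZ B Z)) (cyl (prZ S Z))) :
    kmap (swp Y Z) (swp_mB B Z) (swp_mS S Z) (kmap (swp' Y Z) (swp'_mB B Z) (swp'_mS S Z) w) = w := by
  have h := kmap_comp (swp Y Z) (swp_mB B Z) (swp_mS S Z) (swp' Y Z) (swp'_mB B Z) (swp'_mS S Z)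
    (fun _ h => h) (fun _ h => h) w
  rw [← h]
  exact kmap_id (fun _ h => h) (fun _ h => h) w

end general

section pt

theorem cp0_sub (e e' : CP 0) : e = e' := by
  obtain ⟨e, p, hp, hd, rfl⟩ := e
  obtain ⟨e', q, hq, hd', rfl⟩ := e'
  apply Subtype.ext
  change line p = line q
  rw [line_eq_iff hp hq]
  have h1 := Polynomial.eq_C_of_natDegree_le_zero hd
  have h2 := Polynomial.eq_C_of_natDegree_le_zero hd'
  have h3 : p.coeff 0 ≠ 0 := by
    intro h
    rw [h, map_zero] at h1
    exact hp h1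
  have h4 : q.coeff 0 ≠ 0 := by
    intro h
    rw [h, map_zero] at h2
    exact hq h2
  refine ⟨q.coeff 0 / p.coeff 0, div_ne_zero h4 h3, ?_⟩
  conv_lhs => rw [h2]
  conv_rhs => rw [h1]
  rw [← map_mul]
  simp only [Polynomial.coeff_C_zero]
  rw [div_mul_cancel₀ _ h3]

/-- the point of `CP 0` -/
noncomputable def pt0 : CP 0 := ⟨line 1, line_mem one_ne_zero (by simp)⟩

theorem base_bij {Y : Type} [TopologicalSpace Y] (B S : Set Y) :
    Function.Bijective (kmap (B := prZ B (CP 0)) (S := prZ S (CP 0)) (fstM Y (CP 0))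
      (fun _ h => h) (fun _ h => h) : K1 B S → K1 (prZ B (CP 0)) (prZ S (CP 0))) := by
  let s : C(Y, Y × CP 0) := ⟨fun y => (y, pt0), by fun_prop⟩
  have hsB : ∀ B : Set Y, Set.MapsTo s B (prZ B (CP 0)) := fun _ _ h => h
  refine Function.bijective_iff_has_inverse.2 ⟨kmap s (hsB B) (hsB S), fun x => ?_, fun x => ?_⟩
  · have h := kmap_comp s (hsB B) (hsB S) (fstM Y (CP 0)) (fun _ h => h) (fun _ h => h)
      (fun _ h => h) (fun _ h => h) x
    rw [← h]
    exact kmap_id (fun _ h => h) (fun _ h => h) x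
  · have hid : s.comp (fstM Y (CP 0)) = ContinuousMap.id (Y × CP 0) := by
      ext1 p
      exact Prod.ext rfl (cp0_sub _ _)
    have h := kmap_comp (fstM Y (CP 0)) (fun _ h => h) (fun _ h => h) s (hsB B) (hsB S)
      (B := prZ B (CP 0)) (S := prZ S (CP 0)) (fun _ h => h) (fun _ h => h) x
    rw [← h]
    have h2 : ∀ (f : C(Y × CP 0, Y × CP 0)) (hf : f = ContinuousMap.id (Y × CP 0))
        (h1 : Set.MapsTo f (prZ B (CP 0)) (prZ B (CP 0)))
        (h2 : Set.MapsTo f (prZ S (CP 0)) (prZ S (CP 0))), kmap f h1 h2 x = x := by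
      rintro f rfl h1 h2
      exact kmap_id h1 h2 x
    exact h2 _ hid _ _

end pt

theorem main (a : ℕ) : ∀ {Y : Type} [TopologicalSpace Y] [CompactSpace Y] [T2Space Y] {B S : Set Y}
    (_ : IsClosed B) (_ : IsClosed S), Function.Bijective (FF' a B S) := by
  induction a with
  | zero =>
    intro Y _ _ _ B S hB hS
    have h : (FF' 0 B S : (Fin (0 + 1) → K1 B S) → K1 (prZ B (CP 0)) (prZ S (CP 0))) =
        (fp B S (CP 0)) ∘ (fun c => c 0) := by
      funext c
      rw [FF', FHom_apply]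
      simp
    rw [h]
    refine (base_bij B S).comp ?_
    exact (Equiv.funUnique (Fin 1) (K1 B S)).bijective
  | succ a ih =>
    intro Y _ _ _ B S hB hS
    let E := cp_emb hB hS a
    have hth := theta_bijective hB hS a
    have hsplit : ∀ c : Fin (a + 1 + 1) → K1 B S, FF' (a + 1) B S c =
        FF1 a B S (fun i => c i.castSucc) +
          kmap (ContinuousMap.id _) (cpB_mapsTo B a) (fun _ h => h) (theta B S a (c (Fin.last _))) := by
      intro c
      rw [FF', FF1, FHom_apply, FHom_apply, Fin.sum_univ_castSucc]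
      congr 1
      exact (theta_forget B S a (c (Fin.last _))).symm
    constructor
    · rw [injective_iff_map_eq_zero]
      intro c hc
      rw [hsplit] at hc
      have h1 : res a B S (FF1 a B S (fun i => c i.castSucc)) = 0 := by
        have h2 := congrArg (res a B S) hc
        rw [map_add, map_zero] at h2
        have h3 : res a B S (kmap (ContinuousMap.id _) (cpB_mapsTo B a) (fun _ h => h)
            (theta B S a (c (Fin.last _)))) = 0 :=
          (exact_abs E _).2 ⟨_, rfl⟩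
        rw [h3, add_zero] at h2
        exact h2
      rw [res_FF1] at h1
      have h4 : (fun i : Fin (a + 1) => c i.castSucc) = 0 := by
        apply (ih hB hS).1
        rw [h1, map_zero]
      rw [h4, map_zero, zero_add] at hc
      obtain ⟨w, hw⟩ := (exact_rel E (theta B S a (c (Fin.last _)))).1 hc
      have h5 : delta E w = 0 := by
        rw [exact_sus]
        obtain ⟨d, hd⟩ := (ih (isClosed_susB hB) (isClosed_cyl hS)).2
          (kmap (swp' Y (CP a)) (swp'_mB B (CP a)) (swp'_mS S (CP a)) w)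
        refine ⟨kmap (swp Y (CP (a + 1))) (swp_mB B _) (swp_mS S _) (FF1 a (susB B) (cyl S) d), ?_⟩
        have h6 := kmap_comp (cylMap (cpI Y a)) E.sus.mB E.sus.mS (swp Y (CP (a + 1)))
          (swp_mB B _) (swp_mS S _) (fun _ h => h) (fun _ h => h) (FF1 a (susB B) (cyl S) d)
        have h7 := kmap_comp (swp Y (CP a)) (swp_mB B _) (swp_mS S _) (cpI (Y × I) a)
          (mapsB (susB B) a) (mapsB (cyl S) a) (fun _ h => h) (fun _ h => h)
          (FF1 a (susB B) (cyl S) d)
        rw [← h6]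
        refine h7.trans ?_
        have h8 : kmap (cpI (Y × I) a) (mapsB (susB B) a) (mapsB (cyl S) a)
            (FF1 a (susB B) (cyl S) d) = FF' a (susB B) (cyl S) d := res_FF1 a d
        rw [h8, hd]
        exact swp_surj (CP a) w
      have h9 : theta B S a (c (Fin.last _)) = 0 := hw ▸ h5
      have h10 : c (Fin.last _) = 0 := by
        apply hth.1
        rw [h9, map_zero]
      funext i
      refine Fin.lastCases ?_ (fun i => ?_) i
      · exact h10
      · exact congrFun h4 i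
    · intro y
      obtain ⟨c, hc⟩ := (ih hB hS).2 (res a B S y)
      have h1 : res a B S (y - FF1 a B S c) = 0 := by
        rw [map_sub, res_FF1, hc, sub_self]
      obtain ⟨r, hr⟩ := (exact_abs E _).1 h1
      obtain ⟨x, rfl⟩ := hth.2 r
      refine ⟨Fin.snoc (α := fun _ => K1 B S) c x, ?_⟩
      rw [hsplit]
      have h2 : (fun i : Fin (a + 1) => (Fin.snoc (α := fun _ => K1 B S) c x : Fin (a + 1 + 1) → K1 B S)
          i.castSucc) = c := by
        funext i
        exact Fin.snoc_castSucc (α := fun _ => K1 B S) x c i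
      have h3 : (Fin.snoc (α := fun _ => K1 B S) c x : Fin (a + 1 + 1) → K1 B S) (Fin.last _) = x :=
        Fin.snoc_last (α := fun _ => K1 B S) x c
      rw [h2, h3]
      have h4 : kmap (ContinuousMap.id _) (cpB_mapsTo B a) (fun _ h => h) (theta B S a x) =
          y - FF1 a B S c := hr
      rw [h4, add_sub_cancel]

end Free_aux

theorem free_N (a : ℕ) {Y : Type} [TopologicalSpace Y] [CompactSpace Y] [T2Space Y] {B S : Set Y}
    (hB : IsClosed B) (hS : IsClosed S) :
    Function.Bijective fun c : Fin (a + 1) → K1 B S =>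
      ∑ i : Fin (a + 1), (fun y => actL (sndM Y (CP a)) y - y)^[(i : ℕ)]
        (kmap (fstM Y (CP a)) (fun _ h => h) (fun _ h => h) (c i) :
          K1 (prZ B (CP a)) (prZ S (CP a))) :=
  Free_aux.main a hB hS

theorem free (a : ℕ) {Y : Type} [TopologicalSpace Y] [CompactSpace Y] [T2Space Y] {B S : Set Y}
    (hB : IsClosed B) (hS : IsClosed S) :
    Function.Bijective fun c : Fin (a + 1) → K1 B S =>
      ∑ i : Fin (a + 1), (actL (sndM Y (CP a)))^[(i : ℕ)]
        (kmap (fstM Y (CP a)) (fun _ h => h) (fun _ h => h) (c i) :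
          K1 (prZ B (CP a)) (prZ S (CP a))) :=
  basis_change (actL (sndM Y (CP a))) (kmap (fstM Y (CP a)) (fun _ h => h) (fun _ h => h)) a
    (free_N a hB hS)

end Pool.QB.KTh
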