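import Pool.Agent.MP_c51823_gt.QB.KTh.NilDef

/-!
# [QBK-NI] Nilpotency of `L - 1`

* `relT_forget`: `rel_forget` and `act (sclM g k) = actL g` (`act_homotopy` with
  `E (y,t) = scl k ((1-t) ρ + t) (g y)`, `scl_one`; the value `(1-t) ρ + t` is positive or `z_k ≠ 0`),
  `act_const` for the constant line `Ek k`.
* `chainT_forget`: induction on `k`; forgetting `B → FF B g k → FF B g (k+1)` with `kmap_comp`; `actL g`
  commutes with `kmap id` (`actL_nat`), `map_sub`.
* `actL_nil`: `FF B g (a+1) = univ` (`exists_rho_eq_zero`) and `k1_univ`.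
-/

set_option autoImplicit false
open Topology

namespace Pool.QB.KTh

variable {Y : Type} [TopologicalSpace Y] {B Br S : Set Y} {a : ℕ}

theorem Nil_aux.isLine_Ek {m : Type} [Fintype m] [DecidableEq m] (k : m) : IsLine (Ek k) := by
  refine ⟨Pi.single k 1, ?_, ?_⟩
  · rw [Finset.sum_eq_single k]
    · simp
    · intro b _ hb
      simp [hb]
    · intro h
      exact absurd (Finset.mem_univ k) h
  · intro i j
    unfold Ek
    by_cases hi : i = k
    · by_cases hj : j = k
      · subst hi; subst hj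
        simp
      · subst hi
        simp [hj, Ne.symm hj]
    · simp [Pi.single_apply, hi, Ne.symm hi]

theorem relT_forget (g : C(Y, CP a)) (k : Fin (a + 1)) (hr : ∀ y ∈ Br, y ∈ B ∨ rho a k (g y).1 = 0)
    (hBr : Set.MapsTo (ContinuousMap.id Y) B Br) (x : K1 B S) :
    kmap (ContinuousMap.id Y) hBr (fun _ h => h) (relT g k hr x) = actL g x - x := by
  have h0 := rel_forget (S := S) hBr (sclM g k) (ContinuousMap.const Y (Ek k))
    (fun y => (sclM_isLine g k y).idem) (fun _ => Ek_idem k)
    (fun y hy => (hr y hy).imp_right fun h => sclM_eq g k y h) x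
  refine Eq.trans h0 ?_
  have h2 : act (ContinuousMap.const Y (Ek k)) (fun _ => Ek_idem k) x = x :=
    act_const (ContinuousMap.const Y (Ek k)) (fun _ => Nil_aux.isLine_Ek k) (fun _ _ => rfl) x
  rw [h2]
  congr 1
  have hrho : ∀ y : Y, 0 ≤ rho a k (g y).1 := fun y => le_max_left _ _
  let r : Y × I → ℝ := fun p => (1 - (p.2 : ℝ)) * rho a k (g p.1).1 + p.2
  have hrc : Continuous r := by
    have h3 : Continuous fun p : Y × I => rho a k (g p.1).1 :=
      ((continuous_rho a k).comp g.continuous).comp continuous_fst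
    exact ((continuous_const.sub (continuous_subtype_val.comp continuous_snd)).mul h3).add
      (continuous_subtype_val.comp continuous_snd)
  have hr0 : ∀ p, 0 ≤ r p := fun p =>
    add_nonneg (mul_nonneg (sub_nonneg.2 p.2.2.2) (hrho _)) p.2.2.1
  have hr1 : ∀ p : Y × I, 0 < r p ∨ ((g.comp (prMap Y)) p).1 k k ≠ 0 := by
    intro p
    rcases rho_pos (k : ℕ) (g p.1) with h | h
    · left
      rcases eq_or_lt_of_le p.2.2.1 with h0 | h0
      · change 0 < (1 - (p.2 : ℝ)) * rho a k (g p.1).1 + p.2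
        rw [← h0]
        simpa using h
      · exact add_pos_of_nonneg_of_pos (mul_nonneg (sub_nonneg.2 p.2.2.2) (hrho _)) h0
    · exact Or.inr h
  let E : C(Y × I, Matrix (Fin (a + 1)) (Fin (a + 1)) ℂ) :=
    ⟨fun p => scl k (r p) (taut a ((g.comp (prMap Y)) p)),
      continuous_scl k r hrc hr0 (g.comp (prMap Y)) hr1⟩
  have hE : ∀ p, E p * E p = E p := fun p => (scl_isLine k (hr0 p) _ (hr1 p)).idem
  refine act_homotopy E hE _ _ _ _ ?_ ?_ x
  · intro y
    change scl k ((1 - ((0 : I) : ℝ)) * rho a k (g y).1 + ((0 : I) : ℝ)) (taut a (g y)) =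
      scl k (rho a k (g y).1) (taut a (g y))
    congr 1
    simp
  · intro y
    change scl k ((1 - ((1 : I) : ℝ)) * rho a k (g y).1 + ((1 : I) : ℝ)) (taut a (g y)) =
      taut a (g y)
    have h5 : (1 - ((1 : I) : ℝ)) * rho a k (g y).1 + ((1 : I) : ℝ) = 1 := by simp
    rw [h5, scl_one]

theorem FF_mapsTo (g : C(Y, CP a)) (k : ℕ) :
    Set.MapsTo (ContinuousMap.id Y) B (FF B g k) := fun _ h => Or.inl h

theorem chainT_forget (g : C(Y, CP a)) (k : ℕ) (hk : k ≤ a + 1) (x : K1 B S) :
    kmap (ContinuousMap.id Y) (FF_mapsTo g k) (fun _ h => h) (chainT g k x) =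
      ((fun y => actL g y - y)^[k]) x := by
  induction k with
  | zero =>
    have h0 : Set.MapsTo (ContinuousMap.id Y) (FF B g 0) B := by
      rintro y (h | ⟨i, hi, _⟩)
      · exact h
      · omega
    have h1 : Set.MapsTo (ContinuousMap.id Y) S S := fun _ h => h
    have h2 : Set.MapsTo (ContinuousMap.id Y) B B := fun _ h => h
    exact (kmap_comp (ContinuousMap.id Y) (FF_mapsTo g 0) h1 (ContinuousMap.id Y) h0 h1 h2 h1
      x).symm.trans (kmap_id h2 h1 x)
  | succ k ih =>
    have hk' : k < a + 1 := hk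
    have hFF : Set.MapsTo (ContinuousMap.id Y) (FF B g k) (FF B g (k + 1)) := by
      rintro y (h | ⟨i, hi, h⟩)
      · exact Or.inl h
      · exact Or.inr ⟨i, Nat.lt_succ_of_lt hi, h⟩
    have e1 : chainT g (k + 1) x = relT (B := FF B g k) (Br := FF B g (k + 1)) (S := S) g ⟨k, hk'⟩
        (fun y hy => by
        rcases hy with h | ⟨i, hi, h2⟩
        · exact Or.inl (Or.inl h)
        · rcases Nat.lt_succ_iff_lt_or_eq.1 hi with h3 | h3
          · exact Or.inl (Or.inr ⟨i, h3, h2⟩)
          · subst h3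
            exact Or.inr h2) (chainT g k x) := by
      change (if h : k < a + 1 then _ else 0 : K1 B S →+ K1 (FF B g (k + 1)) S) x = _
      rw [dif_pos hk']
      rfl
    rw [e1, Function.iterate_succ_apply', ← ih (le_of_lt hk)]
    have h1 : Set.MapsTo (ContinuousMap.id Y) S S := fun _ h => h
    refine (kmap_comp (ContinuousMap.id Y) (FF_mapsTo (B := B) g k) h1 (ContinuousMap.id Y) hFF h1
      (FF_mapsTo g (k + 1)) h1 _).trans ?_
    refine (congrArg (kmap (ContinuousMap.id Y) (FF_mapsTo (B := B) g k) h1)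
      (relT_forget (S := S) g ⟨k, hk'⟩ _ hFF (chainT g k x))).trans ?_
    refine (map_sub _ _ _).trans ?_
    exact congrArg₂ (fun u v => u - v)
      (actL_nat (ContinuousMap.id Y) (FF_mapsTo (B := B) g k) h1 g (chainT g k x)) rfl

theorem actL_nil (g : C(Y, CP a)) (x : K1 B S) :
    ((fun y => actL g y - y)^[a + 1]) x = 0 := by
  rw [← chainT_forget g (a + 1) le_rfl x]
  have h : chainT g (a + 1) x = 0 := by
    refine k1_univ (fun y => ?_) _
    obtain ⟨k, hk, h⟩ := exists_rho_eq_zero (g y)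
    exact Or.inr ⟨k, Nat.lt_succ_of_le hk, h⟩
  rw [h, map_zero]

end Pool.QB.KTh
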