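import Pool.Agent.MP_c51823_gt.QB.KTh.Asm4
import Pool.Agent.MP_c51823_gt.QB.KTh.Nil
import Pool.Agent.MP_c51823_gt.QB.KTh.Free

/-!
# [QBK] Formal assembly (helper58), part 5: the structure `HT`
-/

set_option autoImplicit false
open Topology

namespace Pool.QB.KTh

theorem h_nil (q : ℕ) {X : Type} [TopologicalSpace X] [CompactSpace X] [T2Space X] {a : ℕ}
    (g : C(X, CP a)) (x : Hq q (absP X)) : ((fun y => hL q g y - y)^[a + 1]) x = 0 :=
  actL_nil (g.comp (prq X q)) x

theorem h_free' (q : ℕ) (Z : Type) [TopologicalSpace Z] [CompactSpace Z] [T2Space Z] (a : ℕ) :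
    Function.Bijective (fun c : Fin (a + 1) → Hq q (absP Z) =>
      (∑ i : Fin (a + 1), (hL q (⟨Prod.snd, continuous_snd⟩ : C(Z × CP a, CP a)))^[(i : ℕ)]
        (hmap q (absMap (⟨Prod.fst, continuous_fst⟩ : C(Z × CP a, Z))) (c i)) :
          Hq q (absP (Z × CP a)))) :=
  h_free q Z a (free a (isClosed_Bq isClosed_empty q) (isClosed_Sq q))

/-- The axioms hold for mod-2 K-theory. -/
noncomputable def theHT : HT where
  H := Hq
  grp := fun q P => inferInstanceAs (AddCommGroup (K1 (Bq P.A q) (Sq P.X q)))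
  map := fun q {_ _} f => hmap q f
  map_id := hmap_id
  map_comp := fun q {_ _ _} g f x => hmap_comp q g f x
  homotopy := fun q {_ _} f g F h0 h1 hA => h_homotopy q f g F h0 h1 hA
  δ := hδ
  δ_nat := fun q {_ _} m x => hδ_nat q m x
  exact_ba := h_exact_ba
  exact_xb := h_exact_xb
  exact_xa := h_exact_xa
  excision := fun q {_ _} f hr hb => h_excision q f hr hb
  two := h_two
  L := fun q {_} _ _ _ {_} g => hL q g
  L_nat := fun q {_ _} _ _ _ _ _ _ {_} f g x => hL_nat q f g x
  L_const := fun q {_} _ _ _ {_} g x h => hL_const q g x h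
  L_mul := fun q {_} _ _ _ {_ _} g g' x => hL_mul q g g' x
  L_nil := fun q {_} _ _ _ {_} g x => h_nil q g x
  L_free := fun q Z _ _ _ a => h_free' q Z a
  pt4 := h_pt4

end Pool.QB.KTh
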