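import Pool.Agent.MP_c51823_gt.QB.KTh.ClsDef

/-!
# [QBK-BL] Block diagonal functions, cutting down to a subset of the index set

`cl_blocks`: induction on `Fintype.card m` (or reindex to `m = Fin n` and induct on `n`;
`cl_greindex`, `cl_gsum`); `n = 0`: the index type is empty, `G = 1`.
-/

set_option autoImplicit false
open Topology

namespace Pool.QB.KTh

variable {Y : Type} [TopologicalSpace Y] {B S : Set Y} {ν κ : Type} [Fintype ν] [DecidableEq ν]
  [Fintype κ] [DecidableEq κ]

namespace Blocks_aux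

/-- Block diagonal matrix functions. -/
noncomputable def blkFn {m : Type} [Fintype m] [DecidableEq m] (g : m → C(Y, Matrix κ κ R)) :
    C(Y, Matrix (m × κ) (m × κ) R) :=
  ⟨fun y => (Matrix.blockDiagonal fun j => g j y).submatrix (Equiv.prodComm m κ)
    (Equiv.prodComm m κ), by
    refine Continuous.matrix_submatrix ?_ _ _
    refine Continuous.matrix_blockDiagonal ?_
    exact continuous_pi fun j => (g j).continuous⟩

theorem blkFn_apply {m : Type} [Fintype m] [DecidableEq m] (g : m → C(Y, Matrix κ κ R)) (y : Y)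
    (p q : m × κ) : blkFn g y p q = if p.1 = q.1 then g p.1 y p.2 q.2 else 0 := by
  change Matrix.blockDiagonal (fun j => g j y) (p.2, p.1) (q.2, q.1) = _
  rw [Matrix.blockDiagonal_apply]

theorem blkFn_mul {m : Type} [Fintype m] [DecidableEq m] (g h : m → C(Y, Matrix κ κ R)) :
    blkFn g * blkFn h = blkFn fun j => g j * h j := by
  ext1 y
  change ((Matrix.blockDiagonal fun j => g j y).submatrix (Equiv.prodComm m κ)
    (Equiv.prodComm m κ)) * ((Matrix.blockDiagonal fun j => h j y).submatrix (Equiv.prodComm m κ)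
    (Equiv.prodComm m κ)) = (Matrix.blockDiagonal fun j => g j y * h j y).submatrix
      (Equiv.prodComm m κ) (Equiv.prodComm m κ)
  rw [Matrix.submatrix_mul_equiv, ← Matrix.blockDiagonal_mul]

theorem blkFn_one {m : Type} [Fintype m] [DecidableEq m] :
    blkFn (fun _ : m => (1 : C(Y, Matrix κ κ R))) = 1 := by
  ext1 y
  change (Matrix.blockDiagonal fun _ => (1 : Matrix κ κ R)).submatrix (Equiv.prodComm m κ)
    (Equiv.prodComm m κ) = 1
  rw [show (fun _ : m => (1 : Matrix κ κ R)) = 1 from rfl, Matrix.blockDiagonal_one,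
    Matrix.submatrix_one_equiv]

theorem blk_mem_sc {m : Type} [Fintype m] [DecidableEq m] (g : m → C(Y, Matrix κ κ R)) (y : Y)
    (h : ∀ j, g j y ∈ sc κ) : blkFn g y ∈ sc (m × κ) := by
  rw [mem_sc_iff]
  intro p q
  rw [blkFn_apply]
  split_ifs
  · exact (mem_sc_iff _).mp (h p.1) p.2 q.2
  · exact ⟨rfl, rfl, rfl⟩

/-- Block diagonal invertible functions. -/
noncomputable def blk {m : Type} [Fintype m] [DecidableEq m] (g : m → GF B S κ) : GF B S (m × κ) :=
  ⟨⟨blkFn fun j => (g j).1.1, blkFn fun j => ((g j).1⁻¹).1, by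
      rw [blkFn_mul, ← blkFn_one]
      congr 1
      funext j
      rw [← Units.val_mul, mul_inv_cancel, Units.val_one], by
      rw [blkFn_mul, ← blkFn_one]
      congr 1
      funext j
      rw [← Units.val_mul, inv_mul_cancel, Units.val_one]⟩,
    fun y hy => by
      change (Matrix.blockDiagonal fun j => (g j).1.1 y).submatrix (Equiv.prodComm m κ)
        (Equiv.prodComm m κ) = 1
      rw [show (fun j => (g j).1.1 y) = 1 from funext fun j => (g j).2.1 y hy,
        Matrix.blockDiagonal_one, Matrix.submatrix_one_equiv],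
    fun y hy => ⟨blk_mem_sc _ y fun j => ((g j).2.2 y hy).1,
      blk_mem_sc _ y fun j => ((g j).2.2 y hy).2⟩⟩

theorem blk_apply {m : Type} [Fintype m] [DecidableEq m] (g : m → GF B S κ) (y : Y)
    (p q : m × κ) :
    (blk g).1.1 y p q = if p.1 = q.1 then (g p.1).1.1 y p.2 q.2 else 0 :=
  blkFn_apply _ y p q

theorem cl_blk_fin : ∀ (n : ℕ) (g : Fin n → GF B S κ), cl (blk g) = ∑ j, cl (g j) := by
  intro n
  induction n with
  | zero =>
    intro g
    have h : blk g = 1 := by
      refine gf_ext fun y => ?_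
      ext p
      exact p.1.elim0
    rw [h, cl_one]
    simp
  | succ n ih =>
    intro g
    let e : Fin (n + 1) × κ ≃ κ ⊕ (Fin n × κ) :=
      { toFun := fun p => Fin.cases (Sum.inl p.2) (fun i => Sum.inr (i, p.2)) p.1
        invFun := Sum.elim (fun k => (0, k)) (fun p => (p.1.succ, p.2))
        left_inv := by
          rintro ⟨i, k⟩
          refine Fin.cases ?_ (fun i => ?_) i
          · rfl
          · rfl
        right_inv := by
          rintro (k | ⟨i, k⟩)
          · rfl
          · rfl }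
    have h : greindex e (blk g) = gsum (g 0) (blk fun j => g j.succ) := by
      refine gf_ext fun y => ?_
      apply Matrix.ext
      intro a b
      change (blk g).1.1 y (e.symm a) (e.symm b) =
        Matrix.fromBlocks ((g 0).1.1 y) 0 0 ((blk fun j => g j.succ).1.1 y) a b
      rw [blk_apply]
      rcases a with a | a <;> rcases b with b | b
      · rw [Matrix.fromBlocks_apply₁₁]
        change (if (0 : Fin (n + 1)) = 0 then (g 0).1.1 y a b else 0) = _
        rw [if_pos rfl]
      · rw [Matrix.fromBlocks_apply₁₂]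
        change (if (0 : Fin (n + 1)) = b.1.succ then (g 0).1.1 y a b.2 else 0) = _
        rw [if_neg (Fin.succ_ne_zero _).symm]
        rfl
      · rw [Matrix.fromBlocks_apply₂₁]
        change (if a.1.succ = (0 : Fin (n + 1)) then (g a.1.succ).1.1 y a.2 b else 0) = _
        rw [if_neg (Fin.succ_ne_zero _)]
        rfl
      · rw [Matrix.fromBlocks_apply₂₂, blk_apply]
        change (if a.1.succ = b.1.succ then (g a.1.succ).1.1 y a.2 b.2 else 0) = _
        simp only [Fin.succ_inj]
    rw [← cl_greindex e, h, cl_gsum, ih, Fin.sum_univ_succ]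

theorem cl_blk {m : Type} [Fintype m] [DecidableEq m] (g : m → GF B S κ) :
    cl (blk g) = ∑ j, cl (g j) := by
  have e := Fintype.equivFin m
  have h : greindex (e.prodCongr (Equiv.refl κ)) (blk g) = blk fun j => g (e.symm j) := by
    refine gf_ext fun y => ?_
    apply Matrix.ext
    intro a b
    change (blk g).1.1 y (e.symm a.1, a.2) (e.symm b.1, b.2) = _
    rw [blk_apply, blk_apply]
    simp only [EmbeddingLike.apply_eq_iff_eq]
  rw [← cl_greindex (e.prodCongr (Equiv.refl κ)), h, cl_blk_fin]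
  exact Equiv.sum_comp e.symm fun j => cl (g j)

end Blocks_aux

/-- Block diagonal functions: the class is the sum of the classes of the blocks. -/
theorem cl_blocks {m : Type} [Fintype m] [DecidableEq m] (G : GF B S (m × κ)) (g : m → GF B S κ)
    (h : ∀ y p q, G.1.1 y p q = if p.1 = q.1 then (g p.1).1.1 y p.2 q.2 else 0) :
    cl G = ∑ j, cl (g j) := by
  have h1 : G = Blocks_aux.blk g := by
    refine gf_ext fun y => ?_
    apply Matrix.ext
    intro p q
    rw [h, Blocks_aux.blk_apply]
  rw [h1, Blocks_aux.cl_blk]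

/-- If `a` commutes with `dg T` and is invertible then `cutM T a` is invertible, and `cutM T` is
multiplicative on such matrices. -/
theorem cutM_mul (T : Finset ν) {a b : Matrix ν ν R} (ha : a * dg T = dg T * a) :
    cutM T a * cutM T b = cutM T (a * b) := by
  unfold cutM
  have he := dg_mul T
  set e := dg T with hedef
  have h1 : e * (1 - e) = 0 := by rw [mul_sub, mul_one, he, sub_self]
  have h2 : (1 - e) * e = 0 := by rw [sub_mul, one_mul, he, sub_self]
  have h3 : (1 - e) * (1 - e) = 1 - e := by rw [mul_sub, mul_one, h2, sub_zero]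
  have h4 : e * a * e * (e * b * e) = e * (a * b) * e := by
    calc e * a * e * (e * b * e) = e * a * (e * e) * b * e := by simp only [mul_assoc]
      _ = e * (a * e) * b * e := by rw [he]; simp only [mul_assoc]
      _ = (e * e) * a * b * e := by rw [ha]; simp only [mul_assoc]
      _ = e * (a * b) * e := by rw [he]; simp only [mul_assoc]
  have h5 : e * a * e * (1 - e) = 0 := by rw [mul_assoc, h1, mul_zero]
  have h6 : (1 - e) * (e * b * e) = 0 := by
    rw [← mul_assoc, ← mul_assoc, h2, zero_mul, zero_mul]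
  rw [add_mul, mul_add, mul_add, h4, h5, h6, h3, add_zero, zero_add]

/-- The function `cutM T (g y)` for `g` commuting with `dg T`. -/
theorem exists_cut (T : Finset ν) (g : GF B S ν)
    (h : ∀ y, g.1.1 y * dg T = dg T * g.1.1 y) :
    ∃ k : GF B S ν, ∀ y, k.1.1 y = cutM T (g.1.1 y) := by
  have hcut1 : cutM T (1 : Matrix ν ν R) = 1 := by
    unfold cutM
    rw [mul_one, dg_mul, add_sub_cancel]
  have h' : ∀ y, (g.1⁻¹).1 y * dg T = dg T * (g.1⁻¹).1 y := by
    intro y
    have e1 : g.1.1 y * (g.1⁻¹).1 y = 1 := gf_mul_inv g y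
    have e2 : (g.1⁻¹).1 y * g.1.1 y = 1 := gf_inv_mul g y
    calc (g.1⁻¹).1 y * dg T = (g.1⁻¹).1 y * dg T * (g.1.1 y * (g.1⁻¹).1 y) := by
          rw [e1, mul_one]
      _ = (g.1⁻¹).1 y * (dg T * g.1.1 y) * (g.1⁻¹).1 y := by simp only [mul_assoc]
      _ = (g.1⁻¹).1 y * (g.1.1 y * dg T) * (g.1⁻¹).1 y := by rw [h]
      _ = ((g.1⁻¹).1 y * g.1.1 y) * dg T * (g.1⁻¹).1 y := by simp only [mul_assoc]
      _ = dg T * (g.1⁻¹).1 y := by rw [e2, one_mul]
  have hc : ∀ f : C(Y, Matrix ν ν R), Continuous fun y => cutM T (f y) := by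
    intro f
    unfold cutM
    exact ((continuous_const.mul f.continuous).mul continuous_const).add continuous_const
  have hsc : ∀ a ∈ sc ν, cutM T a ∈ sc ν := by
    intro a ha
    exact add_mem (mul_mem (mul_mem (dg_mem_sc T) ha) (dg_mem_sc T))
      (sub_mem (one_mem _) (dg_mem_sc T))
  refine ⟨⟨⟨⟨fun y => cutM T (g.1.1 y), hc _⟩, ⟨fun y => cutM T ((g.1⁻¹).1 y), hc _⟩, ?_, ?_⟩,
    ?_, ?_⟩, fun y => rfl⟩
  · ext1 y
    change cutM T (g.1.1 y) * cutM T ((g.1⁻¹).1 y) = 1
    rw [cutM_mul T (h y), show g.1.1 y * (g.1⁻¹).1 y = 1 from gf_mul_inv g y, hcut1]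
  · ext1 y
    change cutM T ((g.1⁻¹).1 y) * cutM T (g.1.1 y) = 1
    rw [cutM_mul T (h' y), show (g.1⁻¹).1 y * g.1.1 y = 1 from gf_inv_mul g y, hcut1]
  · intro y hy
    change cutM T (g.1.1 y) = 1
    rw [g.2.1 y hy, hcut1]
  · intro y hy
    exact ⟨hsc _ (g.2.2 y hy).1, hsc _ (g.2.2 y hy).2⟩

end Pool.QB.KTh
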