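import Pool.Agent.MP_c51823_gt.QB.KTh.RatHom

/-!
# [QBK] Polynomial loops are homotopic to linear loops
-/

set_option autoImplicit false
set_option linter.unusedSectionVars false
open Topology Metric

namespace Pool.QB.KTh.IX

variable {X : Type} [TopologicalSpace X] {κ : Type} [Fintype κ] [DecidableEq κ] {d : ℕ}

/-- the companion family -/
noncomputable def F3 (a : X → Fin (d + 1) → Matrix κ κ R) (ha : ∀ i, Continuous fun x => a x i) :
    C((X × I) × I, Matrix (Fin (d + 1) × κ) (Fin (d + 1) × κ) R) :=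
  ⟨fun q => Rw (a3 (a q.1.1) (zf q.1.2) ((q.2 : ℝ) : ℂ)) (((q.2 : ℝ) : ℂ) * zf q.1.2), by
    have h1 : Continuous fun q : (X × I) × I => zf q.1.2 := continuous_zf.comp (by fun_prop)
    have h2 : Continuous fun q : (X × I) × I => ((q.2 : ℝ) : ℂ) := by fun_prop
    refine continuous_Rw (fun i => continuous_a3 (a := fun q : (X × I) × I => a q.1.1)
      (fun i => ?_) h1 h2 i) (h2.mul h1)
    exact (ha i).comp (by fun_prop)⟩

/-- the deformed pencil family -/
noncomputable def F4 (a : X → Fin (d + 1) → Matrix κ κ R) (ha : ∀ i, Continuous fun x => a x i)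
    (hu : ∀ x, ∀ z : ℂ, ‖z‖ = 1 → IsUnit (∑ i : Fin (d + 1), z ^ (i : ℕ) • a x i)) :
    C((X × I) × I, Matrix (Fin (d + 1) × κ) (Fin (d + 1) × κ) R) :=
  ⟨fun q => LdM (B1 κ d) (Rw (a q.1.1) 0) ((q.2 : ℝ) : ℂ) (zf q.1.2), by
    have h1 : Continuous fun q : (X × I) × I => zf q.1.2 := continuous_zf.comp (by fun_prop)
    have h2 : Continuous fun q : (X × I) × I => ((q.2 : ℝ) : ℂ) := by fun_prop
    have h3 : Continuous fun q : (X × I) × I => Rw (a q.1.1) 0 :=
      continuous_Rw (a := fun q : (X × I) × I => a q.1.1)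
        (fun i => (ha i).comp (by fun_prop)) continuous_const
    have h4 : Continuous fun q : (X × I) × I => ridM (B1 κ d) (Rw (a q.1.1) 0) :=
      (continuous_idx ha hu).comp (by fun_prop)
    unfold LdM
    exact (((h1.smul continuous_const).add (h2.smul h3)).mul h4).add
      ((((h2.mul h1).smul continuous_const).add h3).mul (continuous_const.sub h4))⟩

theorem isUnit_ploop {ν : Type} [Fintype ν] [DecidableEq ν] {e : Matrix ν ν R} (he : e * e = e)
    {z : ℂ} (hz : z ≠ 0) : IsUnit (ploop e z) := by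
  refine ⟨⟨ploop e z, ploop e z⁻¹, ?_, ?_⟩, rfl⟩
  · rw [ploop_mul he, mul_inv_cancel₀ hz, ploop_one]
  · rw [ploop_mul he, inv_mul_cancel₀ hz, ploop_one]

theorem norm_I_le (s : I) : ‖((s : ℝ) : ℂ)‖ ≤ 1 := by
  rw [Complex.norm_real, Real.norm_of_nonneg s.2.1]
  exact s.2.2

theorem inverse_mul' {ν : Type} [Fintype ν] [DecidableEq ν] {u v : Matrix ν ν R} (hu : IsUnit u)
    (hv : IsUnit v) : Ring.inverse (u * v) = Ring.inverse v * Ring.inverse u := by
  refine (Unit_aux.eq_inverse (hu.mul hv) ?_).symm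
  rw [mul_assoc, ← mul_assoc (Ring.inverse u), Ring.inverse_mul_cancel _ hu, one_mul,
    Ring.inverse_mul_cancel _ hv]

theorem cancel4 {A : Type} [Ring A] {Ui U L Li' Ui' U' : A} (h1 : Ui * U = 1) (h2 : Ui' * U' = 1) :
    Ui * (U * L) * (Li' * Ui') * U' = L * Li' := by
  calc Ui * (U * L) * (Li' * Ui') * U' = (Ui * U) * L * Li' * (Ui' * U') := by noncomm_ring
    _ = L * Li' := by rw [h1, h2, one_mul, mul_one]

theorem inverse_one' {ν : Type} [Fintype ν] [DecidableEq ν] :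
    Ring.inverse (1 : Matrix ν ν R) = 1 :=
  (Unit_aux.eq_inverse isUnit_one (one_mul _)).symm

theorem poly_stage {C S : Set X} {a a' : X → Fin (d + 1) → Matrix κ κ R}
    (ha : ∀ i, Continuous fun x => a x i) (ha' : ∀ i, Continuous fun x => a' x i)
    (hu : ∀ x, ∀ z : ℂ, ‖z‖ = 1 → IsUnit (∑ i : Fin (d + 1), z ^ (i : ℕ) • a x i))
    (hu' : ∀ x, ∀ z : ℂ, ‖z‖ = 1 → IsUnit (∑ i : Fin (d + 1), z ^ (i : ℕ) • a' x i))
    (hC : ∀ x ∈ C, a x = a' x) (hS : ∀ x ∈ S, ∀ i, a x i ∈ sc κ) (hS' : ∀ x ∈ S, ∀ i, a' x i ∈ sc κ)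
    (g : GF (susB C) (cyl S) κ)
    (hg : ∀ x t, g.1.1 (x, t) = Ring.inverse (∑ i : Fin (d + 1), (1 : ℂ) ^ (i : ℕ) • a x i) *
      (∑ i : Fin (d + 1), zf t ^ (i : ℕ) • a x i) *
      Ring.inverse (∑ i : Fin (d + 1), zf t ^ (i : ℕ) • a' x i) *
      (∑ i : Fin (d + 1), (1 : ℂ) ^ (i : ℕ) • a' x i)) :
    ∃ g' : GF (susB C) (cyl S) (Fin (d + 1) × κ),
      (∀ x t, g'.1.1 (x, t) = ploop (idx (a x)) (zf t) * Ring.inverse (ploop (idx (a' x)) (zf t))) ∧
      cl g = cl g' := by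
  -- the companion homotopy
  obtain ⟨g0, g1, h0, h1, h01⟩ := rat_homotopy (C := C) (S := S) (F3 a ha) (F3 a' ha')
    (fun q => isUnit_Rw (by
      rw [sum_a3]
      exact hu _ _ (norm_zf _)))
    (fun q => isUnit_Rw (by
      rw [sum_a3]
      exact hu' _ _ (norm_zf _)))
    (fun x s => by
      change Rw (a3 (a x) (zf 1) _) (_ * zf 1) = Rw (a3 (a x) (zf 0) _) (_ * zf 0)
      rw [zf_one, zf_zero])
    (fun x s => by
      change Rw (a3 (a' x) (zf 1) _) (_ * zf 1) = Rw (a3 (a' x) (zf 0) _) (_ * zf 0)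
      rw [zf_one, zf_zero])
    (fun x hx t s => by
      change Rw (a3 (a x) _ _) _ = Rw (a3 (a' x) _ _) _
      rw [hC x hx])
    (fun x hx t s => Rw_mem_sc (a3_mem_sc (hS x hx) _ _) _)
    (fun x hx t s => Rw_mem_sc (a3_mem_sc (hS' x hx) _ _) _)
  -- the pencil homotopy
  obtain ⟨k0, k1, l0, l1, l01⟩ := rat_homotopy (C := C) (S := S) (F4 a ha hu) (F4 a' ha' hu')
    (fun q => isUnit_LdM (fun z hz => isUnit_pencil (hu _ z hz)) (norm_I_le _) (norm_zf _))
    (fun q => isUnit_LdM (fun z hz => isUnit_pencil (hu' _ z hz)) (norm_I_le _) (norm_zf _))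
    (fun x s => by
      change LdM _ (Rw (a x) 0) _ (zf 1) = LdM _ (Rw (a x) 0) _ (zf 0)
      rw [zf_one, zf_zero])
    (fun x s => by
      change LdM _ (Rw (a' x) 0) _ (zf 1) = LdM _ (Rw (a' x) 0) _ (zf 0)
      rw [zf_one, zf_zero])
    (fun x hx t s => by
      change LdM _ (Rw (a x) 0) _ _ = LdM _ (Rw (a' x) 0) _ _
      rw [hC x hx])
    (fun x hx t s => by
      have m1 := idx_mem_sc (hu x) (hS x hx)
      have m2 : Rw (a x) 0 ∈ sc _ := Rw_mem_sc (hS x hx) 0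
      exact add_mem (mul_mem (add_mem (Subalgebra.smul_mem _ B1_mem_sc _)
        (Subalgebra.smul_mem _ m2 _)) m1) (mul_mem (add_mem (Subalgebra.smul_mem _ B1_mem_sc _) m2)
        (sub_mem (one_mem _) m1)))
    (fun x hx t s => by
      have m1 := idx_mem_sc (hu' x) (hS' x hx)
      have m2 : Rw (a' x) 0 ∈ sc _ := Rw_mem_sc (hS' x hx) 0
      exact add_mem (mul_mem (add_mem (Subalgebra.smul_mem _ B1_mem_sc _)
        (Subalgebra.smul_mem _ m2 _)) m1) (mul_mem (add_mem (Subalgebra.smul_mem _ B1_mem_sc _) m2)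
        (sub_mem (one_mem _) m1)))
  -- the ends
  have e0 : greindex (eD κ d) (gsum g (1 : GF (susB C) (cyl S) (Fin d × κ))) = g0 := by
    apply gf_ext
    rintro ⟨x, t⟩
    rw [h0]
    have hl : (greindex (eD κ d) (gsum g (1 : GF (susB C) (cyl S) (Fin d × κ)))).1.1 (x, t) =
        Du d (g.1.1 (x, t)) := by
      rw [Du_eq]
      rfl
    rw [hl, hg]
    have hF : ∀ (b : X → Fin (d + 1) → Matrix κ κ R) (hb : ∀ i, Continuous fun x => b x i) (t : I),
        F3 b hb ((x, t), 0) = Du d (∑ i : Fin (d + 1), zf t ^ (i : ℕ) • b x i) := by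
      intro b hb t
      change Rw (a3 (b x) (zf t) (((0 : I) : ℝ) : ℂ)) ((((0 : I) : ℝ) : ℂ) * zf t) = _
      have e : (((0 : I) : ℝ) : ℂ) = 0 := by simp
      rw [e, a3_zero, zero_mul]
      rfl
    unfold rt
    rw [hF, hF, hF, hF, Du_inverse (hu _ _ (norm_zf _)), Du_inverse (hu' _ _ (norm_zf _)), Du_mul,
      Du_mul, Du_mul, zf_zero]
  have e1 : g1 = k1 := by
    apply gf_ext
    rintro ⟨x, t⟩
    rw [h1, l1]
    have hF : ∀ (b : X → Fin (d + 1) → Matrix κ κ R) (hb : ∀ i, Continuous fun x => b x i)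
        (hb' : ∀ x, ∀ z : ℂ, ‖z‖ = 1 → IsUnit (∑ i : Fin (d + 1), z ^ (i : ℕ) • b x i)) (t : I),
        F3 b hb ((x, t), 1) = F4 b hb hb' ((x, t), 1) := by
      intro b hb hb' t
      change Rw (a3 (b x) (zf t) (((1 : I) : ℝ) : ℂ)) ((((1 : I) : ℝ) : ℂ) * zf t) =
        LdM _ (Rw (b x) 0) (((1 : I) : ℝ) : ℂ) (zf t)
      have e : (((1 : I) : ℝ) : ℂ) = 1 := by simp
      rw [e, a3_one, one_mul, LdM_one, Rw_pencil]
    unfold rt
    rw [hF a ha hu, hF a ha hu, hF a' ha' hu', hF a' ha' hu']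
  refine ⟨k0, fun x t => ?_, ?_⟩
  · rw [l0]
    have hF : ∀ (b : X → Fin (d + 1) → Matrix κ κ R) (hb : ∀ i, Continuous fun x => b x i)
        (hb' : ∀ x, ∀ z : ℂ, ‖z‖ = 1 → IsUnit (∑ i : Fin (d + 1), z ^ (i : ℕ) • b x i)) (t : I),
        F4 b hb hb' ((x, t), 0) = (B1 κ d * idx (b x) + Rw (b x) 0 * (1 - idx (b x))) *
          ploop (idx (b x)) (zf t) := by
      intro b hb hb' t
      change LdM _ (Rw (b x) 0) (((0 : I) : ℝ) : ℂ) (zf t) = _
      have e : (((0 : I) : ℝ) : ℂ) = 0 := by simp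
      rw [e, LdM_zero fun z hz => isUnit_pencil (hb' _ z hz)]
      rfl
    have hU : ∀ (b : X → Fin (d + 1) → Matrix κ κ R)
        (hb' : ∀ x, ∀ z : ℂ, ‖z‖ = 1 → IsUnit (∑ i : Fin (d + 1), z ^ (i : ℕ) • b x i)),
        IsUnit (B1 κ d * idx (b x) + Rw (b x) 0 * (1 - idx (b x))) := by
      intro b hb'
      have h2 := isUnit_LdM (fun z hz => isUnit_pencil (hb' x z hz)) (t := 0) (z := 1)
        (by simp) (by simp)
      rw [LdM_zero fun z hz => isUnit_pencil (hb' _ z hz)] at h2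
      have h3 : (1 : ℂ) • ridM (B1 κ d) (Rw (b x) 0) + (1 - ridM (B1 κ d) (Rw (b x) 0)) = 1 :=
        ploop_one _
      rw [h3, mul_one] at h2
      exact h2
    unfold rt
    rw [hF a ha hu, hF a ha hu, hF a' ha' hu', hF a' ha' hu', zf_zero, ploop_one, ploop_one, mul_one,
      mul_one]
    have U := hU a hu
    have U' := hU a' hu'
    have L' : IsUnit (ploop (idx (a' x)) (zf t)) := isUnit_ploop (idx_idem (hu' x)) (zf_ne t)
    rw [inverse_mul' U' L']
    exact cancel4 (Ring.inverse_mul_cancel _ U) (Ring.inverse_mul_cancel _ U')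
  · rw [← Pool.QB.KTh.cl_gsum_one (κ := Fin d × κ) g, ← Pool.QB.KTh.cl_greindex (eD κ d), e0, h01, e1,
      l01]

end Pool.QB.KTh.IX
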