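import Pool.Agent.MP_c51823_gt.QB.KTh.LoopDef
import Pool.Agent.MP_c51823_gt.QB.KTh.PolyHom

/-!
# [QBK-IS] Every loop is homotopic to a linear loop `z e + (1 - e)` (relative version)

See QB_K.md, section on the index.
-/

set_option autoImplicit false
open Topology

namespace Pool.QB.KTh

open IX

theorem IX.pref_empty {κ : Type} [Fintype κ] [DecidableEq κ] {N : ℕ} {c : ℂ}
    (j : Fin (2 * N + 1)) :
    pref N (dg (∅ : Finset κ)) c j = if (j : ℕ) = N then 1 else 0 := by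
  have h1 : dg (∅ : Finset κ) = 0 := by
    unfold dg
    simp
  unfold pref
  rw [h1, sub_zero, smul_zero, ite_self]

theorem IX.sum_pref_empty {κ : Type} [Fintype κ] [DecidableEq κ] {N : ℕ} {c : ℂ} (z : ℂ) :
    ∑ i : Fin (2 * N + 1), z ^ (i : ℕ) • pref N (dg (∅ : Finset κ)) c i =
      z ^ N • (1 : Matrix κ κ R) := by
  have h1 : ∀ i : Fin (2 * N + 1), z ^ (i : ℕ) • pref N (dg (∅ : Finset κ)) c i =
      if i = (⟨N, by omega⟩ : Fin (2 * N + 1)) then z ^ N • (1 : Matrix κ κ R) else 0 := by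
    intro i
    rw [pref_empty]
    by_cases h : (i : ℕ) = N
    · rw [if_pos h, if_pos (Fin.ext h), h]
    · rw [if_neg h, if_neg (fun h' => h (congrArg Fin.val h')), smul_zero]
  simp_rw [h1]
  rw [Finset.sum_ite_eq' Finset.univ _ _, if_pos (Finset.mem_univ _)]

theorem IX.isUnit_smul_one {κ : Type} [Fintype κ] [DecidableEq κ] {z : ℂ} (hz : z ≠ 0) :
    IsUnit (z • (1 : Matrix κ κ R)) := by
  refine ⟨⟨z • 1, z⁻¹ • 1, ?_, ?_⟩, rfl⟩
  · rw [smul_mul_smul_comm, mul_inv_cancel₀ hz, one_smul, one_mul]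
  · rw [smul_mul_smul_comm, inv_mul_cancel₀ hz, one_smul, one_mul]

theorem IX.inverse_smul_one {κ : Type} [Fintype κ] [DecidableEq κ] {z : ℂ} (hz : z ≠ 0) :
    Ring.inverse (z • (1 : Matrix κ κ R)) = z⁻¹ • 1 := by
  refine (Unit_aux.eq_inverse (isUnit_smul_one hz) ?_).symm
  rw [smul_mul_smul_comm, inv_mul_cancel₀ hz, one_smul, one_mul]

theorem index_surj {X : Type} [TopologicalSpace X] [CompactSpace X] [T2Space X] {C S : Set X}
    (hC : IsClosed C) (hS : IsClosed S) {κ : Type} [Fintype κ] [DecidableEq κ]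
    (h : GF (susB C) (cyl S) κ) :
    ∃ (ν : Type) (_ : Fintype ν) (_ : DecidableEq ν) (T : Finset ν) (e : C(X, Matrix ν ν R))
      (he : ∀ x, e x * e x = e x) (hS : ∀ x ∈ S, e x ∈ sc ν)
      (hC : ∀ x ∈ C, e x = ContinuousMap.const X (dg T) x),
      cl h = cl (plr e (ContinuousMap.const X (dg T)) he (fun _ => dg_mul T) hS
        (fun _ _ => dg_mem_sc T) hC) := by
  have hh0 : ∀ x, h.1.1 (x, 0) = 1 := fun x => h.2.1 (x, 0) (Or.inr (Or.inl rfl))
  have hh1 : ∀ x, h.1.1 (x, 1) = 1 := fun x => h.2.1 (x, 1) (Or.inr (Or.inr rfl))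
  obtain ⟨N, M, t, w, c, hN, w1, w2, h3⟩ := exists_approx h.1.1 (gf_isUnit h)
    (fun x => by rw [hh0, hh1])
  have hu := unit_of_approx h3
  have hu' : ∀ _ : X, ∀ z : ℂ, ‖z‖ = 1 →
      IsUnit (∑ i : Fin (2 * N + 1), z ^ (i : ℕ) • pref N (dg (∅ : Finset κ)) c i) := by
    intro _ z hz
    rw [sum_pref_empty]
    refine isUnit_smul_one (pow_ne_zero _ ?_)
    rintro rfl
    simp at hz
  have hca := fun i : Fin (2 * N + 1) => continuous_cf t w h.1.1 i
  have hCa : ∀ x ∈ C, (fun j : Fin (2 * N + 1) => cf t w (fun s => h.1.1 (x, s)) j) =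
      pref N (dg (∅ : Finset κ)) c := by
    intro x hx
    funext j
    refine cf_ploop w1 w2 (dg ∅) (fun s => ?_) j
    have e1 : dg (∅ : Finset κ) = 0 := by
      unfold dg
      simp
    rw [h.2.1 (x, s) (Or.inl hx), e1]
    unfold ploop
    simp
  have hSa : ∀ x ∈ S, ∀ i : Fin (2 * N + 1), cf t w (fun s => h.1.1 (x, s)) i ∈ sc κ :=
    fun x hx i => cf_mem_sc t w (fun s => (h.2.2 (x, s) hx).1) i
  have hSa' : ∀ x ∈ S, ∀ i : Fin (2 * N + 1), pref N (dg (∅ : Finset κ)) c i ∈ sc κ := by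
    intro x _ i
    rw [pref_empty]
    split_ifs
    · exact one_mem _
    · exact zero_mem _
  -- the first homotopy
  let F1 : C((X × I) × I, Matrix κ κ R) := ⟨fun q =>
    (zf q.1.2 ^ N * (1 - ((q.2 : ℝ) : ℂ))) • h.1.1 q.1 + ((q.2 : ℝ) : ℂ) •
      ∑ j : Fin (2 * N + 1), zf q.1.2 ^ (j : ℕ) • cf t w (fun s => h.1.1 (q.1.1, s)) j, by
      have c1 : Continuous fun q : (X × I) × I => zf q.1.2 := continuous_zf.comp (by fun_prop)
      have c2 : Continuous fun q : (X × I) × I => ((q.2 : ℝ) : ℂ) := by fun_prop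
      have c3 : Continuous fun q : (X × I) × I => h.1.1 q.1 := h.1.1.continuous.comp continuous_fst
      refine (((c1.pow N).mul (continuous_const.sub c2)).smul c3).add (c2.smul ?_)
      refine continuous_finsetSum _ fun j _ => (c1.pow _).smul ?_
      exact (hca j).comp (by fun_prop)⟩
  let F1' : C((X × I) × I, Matrix κ κ R) := ⟨fun q => zf q.1.2 ^ N • 1, by
      have c1 : Continuous fun q : (X × I) × I => zf q.1.2 := continuous_zf.comp (by fun_prop)
      exact (c1.pow N).smul continuous_const⟩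
  have v1 : ∀ x t0 s, F1 ((x, t0), s) = (zf t0 ^ N * (1 - ((s : ℝ) : ℂ))) • h.1.1 (x, t0) +
      ((s : ℝ) : ℂ) • ∑ j : Fin (2 * N + 1), zf t0 ^ (j : ℕ) • cf t w (fun s => h.1.1 (x, s)) j :=
    fun _ _ _ => rfl
  have v1' : ∀ x t0 s, F1' ((x, t0), s) = zf t0 ^ N • 1 := fun _ _ _ => rfl
  obtain ⟨g0, g1, e0, e1, e01⟩ := rat_homotopy (C := C) (S := S) F1 F1'
    (fun q => h3 q.1.1 q.1.2 q.2) (fun q => isUnit_smul_one (pow_ne_zero _ (zf_ne _)))
    (fun x s => by rw [v1, v1, hh0, hh1, zf_one, zf_zero])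
    (fun x s => by rw [v1', v1', zf_one, zf_zero])
    (fun x hx t0 s => by
      have e2 : ∑ j : Fin (2 * N + 1), zf t0 ^ (j : ℕ) • cf t w (fun s => h.1.1 (x, s)) j =
          zf t0 ^ N • 1 := by
        have := hCa x hx
        rw [← sum_pref_empty (c := c), ← this]
      rw [v1, v1', e2, h.2.1 (x, t0) (Or.inl hx)]
      module)
    (fun x hx t0 s => by
      rw [v1]
      exact add_mem (Subalgebra.smul_mem _ (h.2.2 (x, t0) hx).1 _) (Subalgebra.smul_mem _
        (sum_mem fun j _ => Subalgebra.smul_mem _ (hSa x hx j) _) _))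
    (fun x hx t0 s => by
      rw [v1']
      exact smul_one_mem_sc _)
  have hg0 : g0 = h := by
    apply gf_ext
    rintro ⟨x, t0⟩
    rw [e0]
    unfold rt
    have z0 : (((0 : I) : ℝ) : ℂ) = 0 := by simp
    rw [v1, v1, v1', v1', hh0, z0, zf_zero, zero_smul, zero_smul, add_zero, add_zero, sub_zero,
      mul_one, mul_one, one_pow, one_smul, inverse_one', one_mul,
      inverse_smul_one (pow_ne_zero _ (zf_ne _)), mul_one, smul_mul_smul_comm, mul_one,
      mul_inv_cancel₀ (pow_ne_zero _ (zf_ne _)), one_smul]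
  obtain ⟨g', hg', hcl⟩ := poly_stage (C := C) (S := S)
    (a := fun x => fun j : Fin (2 * N + 1) => cf t w (fun s => h.1.1 (x, s)) j)
    (a' := fun _ => pref N (dg (∅ : Finset κ)) c) hca (fun _ => continuous_const) hu hu' hCa hSa hSa'
    g1 (fun x t0 => by
      rw [e1]
      unfold rt
      have z1 : (((1 : I) : ℝ) : ℂ) = 1 := by simp
      rw [v1, v1, v1', v1', z1, zf_zero, sub_self, mul_zero, mul_zero, zero_smul, zero_smul, zero_add,
        zero_add, one_smul, one_smul, sum_pref_empty, sum_pref_empty])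
  let T : Finset (Fin (2 * N + 1) × κ) :=
    Finset.univ.filter fun p => (p.1 : ℕ) < if p.2 ∈ (∅ : Finset κ) then N + 1 else N
  have hT : ∀ _ : X, idx (pref N (dg (∅ : Finset κ)) c) = dg T := fun x => idx_pref hN ∅ c (hu' x)
  refine ⟨Fin (2 * N + 1) × κ, inferInstance, inferInstance, T,
    ⟨fun x => idx fun j : Fin (2 * N + 1) => cf t w (fun s => h.1.1 (x, s)) j,
      continuous_idx hca hu⟩, fun x => idx_idem (hu x), fun x hx => idx_mem_sc (hu x) (hSa x hx),
    fun x hx => ?_, ?_⟩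
  · change idx _ = dg T
    rw [hCa x hx, hT x]
  · have e5 : cl h = cl g' := by rw [← hg0, e01, hcl]
    refine e5.trans (congrArg cl ?_)
    apply gf_ext
    rintro ⟨x, t0⟩
    rw [hg']
    change _ = ploop (idx fun j : Fin (2 * N + 1) => cf t w (fun s => h.1.1 (x, s)) j)
      (zf t0 ^ (1 : ℤ)) * ploop (dg T) (zf t0 ^ (-1 : ℤ))
    rw [hT x, zpow_one, zpow_neg_one]
    congr 1
    refine (Unit_aux.eq_inverse (isUnit_ploop (dg_mul T) (zf_ne t0)) ?_).symm
    rw [ploop_mul (dg_mul T), inv_mul_cancel₀ (zf_ne t0), ploop_one]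

end Pool.QB.KTh
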