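import Pool.Agent.MP_c51823_gt.QB.KTh.Cls3
import Pool.Agent.MP_c51823_gt.QB.KTh.IdxS
import Pool.Agent.MP_c51823_gt.QB.KTh.Trans

/-!
# [QBK-BS] Bott periodicity: surjectivity

SURJECTIVE. `x = cl h`, `h` on `(Y × I_w) × I_ζ`. `index_surj` for `X = Y × I`, `C = susB B`, `cyl S`:
`x = cl (plr e (dg T))`, `e = dg T` on `susB B`. `transport` (`E = e`, over `Y`): `u` with `u(y,0) = 1`,
`e u = u e(y,0) = u dg T`, `u = 1` over `B`, scalar over `S`: `u ∈ GF (startB B) (cyl S)`; `u(y,1)` commutes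
with `dg T = e(y,1)`. `plr e (dg T) = ccl T u` as functions (`u (z dg T + 1 - dg T) u⁻¹ = z e + 1 - e`).
`ccl_eq_bott` with `exists_cut`.
-/

set_option autoImplicit false
open Topology

namespace Pool.QB.KTh

variable {Y : Type} [TopologicalSpace Y] [CompactSpace Y] [T2Space Y] {B S : Set Y}

namespace BottS_aux

omit [CompactSpace Y] [T2Space Y] in
theorem conj_ploop {ν : Type} [Fintype ν] [DecidableEq ν] {e f u v : Matrix ν ν R}
    (h : e * u = u * f) (huv : u * v = 1) (z : ℂ) : u * ploop f z * v = ploop e z := by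
  unfold ploop
  rw [mul_add, mul_sub, mul_one, add_mul, sub_mul, Matrix.mul_smul, Matrix.smul_mul, ← h,
    mul_assoc, huv, mul_one]

end BottS_aux

open BottS_aux

theorem bott_surjective (hB : IsClosed B) (hS : IsClosed S) :
    Function.Surjective (bott B S) := by
  intro x
  obtain ⟨n, h, rfl⟩ := exists_cl x
  obtain ⟨ν, _, _, T, e, he, hSe, hCe, hcl⟩ := index_surj (isClosed_susB hB) (isClosed_cyl hS) h
  obtain ⟨u, u0, u1, u2⟩ := transport e he (S := S) (fun y hy t => hSe (y, t) hy)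
  have e0 : ∀ y, e (y, 0) = dg T := fun y => hCe (y, 0) (Or.inr (Or.inl rfl))
  have e1 : ∀ y, e (y, 1) = dg T := fun y => hCe (y, 1) (Or.inr (Or.inr rfl))
  have hu' : ∀ p ∈ startB B, u.1.1 p = 1 := by
    rintro ⟨y, t⟩ (hp | hp)
    · apply u2
      intro t'
      rw [e0]
      exact hCe (y, t') (Or.inl hp)
    · change t = 0 at hp
      rw [hp]
      exact u0 y
  let u' : GF (startB B) (cyl S) ν := raise u hu'
  have hu : ∀ y, u'.1.1 (y, 1) * dg T = dg T * u'.1.1 (y, 1) := by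
    intro y
    have := u1 y 1
    rw [e0, e1] at this
    exact this.symm
  have hm : Set.MapsTo (atMap Y 1) B (startB B) := fun _ hy => Or.inl hy
  have hm' : Set.MapsTo (atMap Y 1) S (cyl S) := fun _ hy => hy
  let g0 : GF B S ν := pull (atMap Y 1) hm hm' ν u'
  have hg0 : ∀ y, g0.1.1 y = u'.1.1 (y, 1) := fun _ => rfl
  obtain ⟨k, hk⟩ := exists_cut T g0 (fun y => by rw [hg0]; exact hu y)
  refine ⟨cl k, ?_⟩
  rw [← ccl_eq_bott T u' hu k (fun y => by rw [hk, hg0]), hcl]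
  congr 1
  apply gf_ext
  rintro ⟨⟨y, w⟩, t⟩
  have h1 : (ccl T u' hu).1.1 ((y, w), t) = u'.1.1 (y, w) * ploop (dg T) (zf t ^ (1 : ℤ)) *
      (u'⁻¹).1.1 (y, w) * ploop (dg T) (zf t ^ (-1 : ℤ)) := rfl
  have h2 : (plr e (ContinuousMap.const (Y × I) (dg T)) he (fun _ => dg_mul T) hSe
        (fun _ _ => dg_mem_sc T) hCe).1.1 ((y, w), t) =
      ploop (e (y, w)) (zf t ^ (1 : ℤ)) * ploop (dg T) (zf t ^ (-1 : ℤ)) := rfl
  have h3 : e (y, w) * u'.1.1 (y, w) = u'.1.1 (y, w) * dg T := by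
    have := u1 y w
    rw [e0] at this
    exact this
  rw [h1, h2, conj_ploop h3 (gf_mul_inv u' (y, w))]

end Pool.QB.KTh
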