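import Pool.Agent.MP_c51823_gt.QB.KTh.ClsDef

/-!
# [QBK-C0] The Whitehead path ends at `g ⊕ g⁻¹`

`rotFn ν 1 1 = bl ν 0 (-1) 1 0`. (Do not use `rfl`/`change` on large terms, use `gf_mul`, `gf_inv`-type
lemmas of `Unit.lean` first.) `(g ⊕ 1) R₁ (g⁻¹ ⊕ 1) R₁⁻¹ = (g ⊕ 1)(1 ⊕ g⁻¹)`.
-/

set_option autoImplicit false
open Topology

namespace Pool.QB.KTh

variable {Y : Type} [TopologicalSpace Y] {B S : Set Y} {ν κ : Type} [Fintype ν] [DecidableEq ν]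
  [Fintype κ] [DecidableEq κ]

namespace Cls0_aux

theorem rotFn_at (s : ℝ) (ν : Type) [Fintype ν] [DecidableEq ν] (t : I) :
    rotFn ν s t = bl ν (Real.cos (s * (Real.pi / 2 * t)) : ℝ) (-Real.sin (s * (Real.pi / 2 * t)) : ℝ)
      (Real.sin (s * (Real.pi / 2 * t)) : ℝ) (Real.cos (s * (Real.pi / 2 * t)) : ℝ) := by
  have h : rotFn ν s t = bl ν (Real.cos (s * (Real.pi / 2 * t)) : ℝ)
      (-Real.sin (s * (Real.pi / 2 * t)) : ℝ)
      (Real.sin (s * (Real.pi / 2 * t)) : ℝ) (Real.cos (s * (Real.pi / 2 * t)) : ℝ) := rfl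
  rw [h]

end Cls0_aux

theorem rotFn_one (ν : Type) [Fintype ν] [DecidableEq ν] : rotFn ν 1 1 = bl ν 0 (-1) 1 0 := by
  rw [Cls0_aux.rotFn_at]
  have h1 : (1 : ℝ) * (Real.pi / 2 * ((1 : I) : ℝ)) = Real.pi / 2 := by
    rw [Set.Icc.coe_one]; ring
  rw [h1, Real.cos_pi_div_two, Real.sin_pi_div_two]
  norm_num

theorem Cls0_aux.rotFn_neg_one (ν : Type) [Fintype ν] [DecidableEq ν] :
    rotFn ν (-1) 1 = bl ν 0 1 (-1) 0 := by
  rw [Cls0_aux.rotFn_at]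
  have h1 : (-1 : ℝ) * (Real.pi / 2 * ((1 : I) : ℝ)) = -(Real.pi / 2) := by
    rw [Set.Icc.coe_one]; ring
  rw [h1, Real.cos_neg, Real.sin_neg, Real.cos_pi_div_two, Real.sin_pi_div_two]
  norm_num

theorem Cls0_aux.key (a b : Matrix ν ν R) :
    Matrix.fromBlocks a 0 0 1 * bl ν 0 (-1) 1 0 * Matrix.fromBlocks b 0 0 1 * bl ν 0 1 (-1) 0 =
      Matrix.fromBlocks a 0 0 b := by
  unfold bl
  simp [Matrix.fromBlocks_multiply]

/-- The end point of the Whitehead path. -/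
theorem whp_one (g : GF B S ν) (y : Y) : (whp g).1.1 (y, 1) = (gsum g g⁻¹).1.1 y := by
  have h1 : (whp g).1.1 (y, 1) =
      Matrix.fromBlocks (g.1.1 y) 0 0 1 * rotFn ν 1 1 * Matrix.fromBlocks ((g⁻¹).1.1 y) 0 0 1 *
        rotFn ν (-1) 1 := rfl
  rw [h1, rotFn_one, Cls0_aux.rotFn_neg_one, Cls0_aux.key]
  rfl

theorem whp_comm (g : GF B S ν) (y : Y) :
    (whp g).1.1 (y, 1) * dg (lft ν ν) = dg (lft ν ν) * (whp g).1.1 (y, 1) := by
  rw [whp_one, lft, dg_disjSum, dg_univ, dg_empty]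
  change Matrix.fromBlocks (g.1.1 y) 0 0 ((g⁻¹).1.1 y) * _ =
    _ * Matrix.fromBlocks (g.1.1 y) 0 0 ((g⁻¹).1.1 y)
  rw [Matrix.fromBlocks_multiply, Matrix.fromBlocks_multiply]
  simp

/-- The representative of the Bott element times `g`. -/
noncomputable def bottG (g : GF B S ν) : GF (susB (susB B)) (cyl (cyl S)) (ν ⊕ ν) :=
  ccl (lft ν ν) (whp g) (whp_comm g)

end Pool.QB.KTh
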