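import Pool.Agent.MP_c51823_gt.QB.KTh.Cls0

/-!
# [QBK-C1] Additivity properties of the class of `ccl T u = [u, σ]`, `σ = z e₀ + 1 - e₀`, `e₀ = dg T`

* `ccl_mul`: `[u u', σ] = u [u', σ] u⁻¹ · [u, σ]` and `cl_mul`, `cl_gconj`.
* `ccl_loop`: if `u(y,1) = 1` too then, on `ν ⊕ ν`, `K_t = [R_t (u ⊕ 1) R_t⁻¹, σ ⊕ 1]`, `t ∈ I`, is a path of
  elements of `GF (susB (susB B)) (cyl (cyl S))` (it is `1` where `u = 1` and where `σ = 1`) from
  `[u, σ] ⊕ 1` to `[1 ⊕ u, σ ⊕ 1] = 1`.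
* `ccl_union`: `σ_{T ∪ T'} = σ_T σ_{T'}` for disjoint `T`, `T'`, and
  `u σ_T σ_T' u⁻¹ σ_T'⁻¹ σ_T⁻¹ = [u, σ_T] · σ_T [u, σ_T'] σ_T⁻¹` (`σ_T`, `σ_T'` commute, also with each
  other's inverses).
-/

set_option autoImplicit false
open Topology

namespace Pool.QB.KTh

variable {Y : Type} [TopologicalSpace Y] {B S : Set Y} {ν κ : Type} [Fintype ν] [DecidableEq ν]
  [Fintype κ] [DecidableEq κ]

namespace Cls1_aux

theorem up_mul (u u' : GF B S ν) : up (u * u') = up u * up u' := by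
  apply gf_ext
  intro p
  rw [gf_mul, up_apply, up_apply, up_apply, gf_mul]

theorem sig_union {X : Type} [TopologicalSpace X] (S : Set X) (T T' : Finset ν)
    (hd : Disjoint T T') : sig X S (T ∪ T') = sig X S T * sig X S T' := by
  apply gf_ext
  intro p
  rw [gf_mul, sig_apply, sig_apply, sig_apply]
  have h1 : dg (T ∪ T') = dg T + dg T' := by
    unfold dg
    rw [Matrix.diagonal_add]
    congr 1
    ext1 i
    by_cases hi : i ∈ T
    · have hi' : i ∉ T' := Finset.disjoint_left.1 hd hi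
      simp [hi, hi']
    · by_cases hi' : i ∈ T' <;> simp [hi, hi']
  have h2 : dg T * dg T' = 0 := by
    unfold dg
    rw [Matrix.diagonal_mul_diagonal, ← Matrix.diagonal_zero (n := ν) (α := R)]
    refine congrArg Matrix.diagonal (funext fun i => ?_)
    by_cases hi : i ∈ T
    · have hi' : i ∉ T' := Finset.disjoint_left.1 hd hi
      rw [if_neg hi', mul_zero]
    · rw [if_neg hi, zero_mul]
  unfold ploop
  rw [h1]
  simp only [add_mul, mul_add, sub_mul, mul_sub, Matrix.smul_mul, Matrix.mul_smul, h2, one_mul,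
    mul_one, smul_add, smul_zero, sub_zero]
  abel

theorem sig_empty (X : Type) [TopologicalSpace X] (S : Set X) :
    sig X S (∅ : Finset ν) = 1 := by
  apply gf_ext
  intro p
  rw [gf_one, sig_apply, dg_empty]
  unfold ploop
  rw [smul_zero, sub_zero, zero_add]

theorem ccl_val (T : Finset ν) (u : GF (startB B) (cyl S) ν)
    (hu : ∀ y, u.1.1 (y, 1) * dg T = dg T * u.1.1 (y, 1)) :
    (ccl T u hu).1 = (up u * sig (Y × I) (cyl S) T * (up u)⁻¹ * (sig (Y × I) (cyl S) T)⁻¹).1 := rfl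

/-- evaluation at `t` on functions without condition -/
noncomputable def e0 {X : Type} [TopologicalSpace X] {S : Set X} (t : I) :
    GF (∅ : Set (X × I)) (cyl S) ν →* GF (∅ : Set X) S ν :=
  pull (atMap X t) (fun _ h => h.elim) (fun _ h => h) ν

theorem e0_apply {X : Type} [TopologicalSpace X] {S : Set X} (t : I)
    (a : GF (∅ : Set (X × I)) (cyl S) ν) (x : X) : (e0 t a).1.1 x = a.1.1 (x, t) := rfl

theorem e0_up {X : Type} [TopologicalSpace X] {S : Set X} (t : I)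
    (a : GF (∅ : Set X) S ν) : e0 t (up a) = a := by
  apply gf_ext
  intro x
  rw [e0_apply, up_apply]

theorem e0_gsum {X : Type} [TopologicalSpace X] {S : Set X} (t : I)
    (a : GF (∅ : Set (X × I)) (cyl S) ν) (b : GF (∅ : Set (X × I)) (cyl S) κ) :
    e0 t (gsum a b) = gsum (e0 t a) (e0 t b) := by
  apply gf_ext
  intro x
  rfl

/-- `R_t (u ⊕ 1) R_t⁻¹` on `((Y × I) × I) × I` -/
noncomputable def loopA (u : GF (startB B) (cyl S) ν) :
    GF (∅ : Set (((Y × I) × I) × I)) (cyl (cyl (cyl S))) (ν ⊕ ν) :=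
  rotY (S := cyl (cyl S)) ν * gsum (up (up u)) 1 * (rotY (S := cyl (cyl S)) ν)⁻¹

/-- `σ ⊕ 1` on `((Y × I) × I) × I` -/
noncomputable def loopS (T : Finset ν) :
    GF (∅ : Set (((Y × I) × I) × I)) (cyl (cyl (cyl S))) (ν ⊕ ν) :=
  gsum (up (sig (Y × I) (cyl S) T)) 1

theorem loopA_eq_one (u : GF (startB B) (cyl S) ν) (p : ((Y × I) × I) × I)
    (h : u.1.1 p.1.1 = 1) : (loopA u).1.1 p = 1 := by
  have h1 : (gsum (up (up u)) (1 : GF (∅ : Set (((Y × I) × I) × I))
      (cyl (cyl (cyl S))) ν)).1.1 p = 1 := by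
    change Matrix.fromBlocks (u.1.1 p.1.1) 0 0 1 = 1
    rw [h, Matrix.fromBlocks_one]
  unfold loopA
  rw [gf_mul, gf_mul, h1, mul_one, gf_mul_inv]

theorem loopS_apply (T : Finset ν) (p : ((Y × I) × I) × I) :
    (loopS (S := S) T).1.1 p = Matrix.fromBlocks (ploop (dg T) (zf p.1.2)) 0 0 1 := by
  change Matrix.fromBlocks ((sig (Y × I) (cyl S) T).1.1 p.1) 0 0 1 = _
  rw [sig_apply]

theorem loopS_eq_one (T : Finset ν) (p : ((Y × I) × I) × I) (h : zf p.1.2 = 1) :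
    (loopS (S := S) T).1.1 p = 1 := by
  rw [loopS_apply, h, ploop_one, Matrix.fromBlocks_one]

theorem loopA_zero (u : GF (startB B) (cyl S) ν) :
    e0 0 (loopA u) = gsum (up u) 1 := by
  apply gf_ext
  intro q
  rw [e0_apply]
  unfold loopA
  have h1 : (rotY (S := cyl (cyl S)) ν).1.1 (q, 0) = 1 := by
    rw [rotY_apply, rotFn_zero]
  have h2 : ((rotY (S := cyl (cyl S)) ν)⁻¹).1.1 (q, 0) = 1 := by
    have := gf_mul_inv (rotY (S := cyl (cyl S)) ν) (q, 0)
    rwa [h1, one_mul] at this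
  rw [gf_mul, gf_mul, h1, h2, one_mul, mul_one]
  rfl

theorem loopA_one (u : GF (startB B) (cyl S) ν) (q : (Y × I) × I) :
    (e0 1 (loopA u)).1.1 q = Matrix.fromBlocks 1 0 0 (u.1.1 q.1) := by
  rw [e0_apply]
  unfold loopA
  have h1 : (rotY (S := cyl (cyl S)) ν).1.1 (q, 1) = bl ν 0 (-1) 1 0 := by
    rw [rotY_apply, rotFn_one]
  have h3 : (gsum (up (up u)) (1 : GF (∅ : Set (((Y × I) × I) × I))
      (cyl (cyl (cyl S))) ν)).1.1 (q, 1) = Matrix.fromBlocks (u.1.1 q.1) 0 0 1 := rfl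
  have h2 : (rotY (S := cyl (cyl S)) ν).1.1 (q, 1) *
      (gsum (up (up u)) (1 : GF (∅ : Set (((Y × I) × I) × I))
        (cyl (cyl (cyl S))) ν)).1.1 (q, 1) =
      Matrix.fromBlocks 1 0 0 (u.1.1 q.1) * (rotY (S := cyl (cyl S)) ν).1.1 (q, 1) := by
    rw [h1, h3]
    unfold bl
    rw [Matrix.fromBlocks_multiply, Matrix.fromBlocks_multiply]
    simp
  rw [gf_mul, gf_mul, h2, mul_assoc, gf_mul_inv, mul_one]

theorem loopS_ev (T : Finset ν) (t : I) :
    e0 t (loopS (S := S) T) = gsum (sig (Y × I) (cyl S) T) 1 := by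
  apply gf_ext
  intro q
  rfl

end Cls1_aux

open Cls1_aux

theorem ccl_mul (T : Finset ν) (u u' : GF (startB B) (cyl S) ν)
    (hu : ∀ y, u.1.1 (y, 1) * dg T = dg T * u.1.1 (y, 1))
    (hu' : ∀ y, u'.1.1 (y, 1) * dg T = dg T * u'.1.1 (y, 1))
    (huu : ∀ y, (u * u').1.1 (y, 1) * dg T = dg T * (u * u').1.1 (y, 1)) :
    cl (ccl T (u * u') huu) = cl (ccl T u hu) + cl (ccl T u' hu') := by
  have h : ccl T (u * u') huu = gconj (up u) (ccl T u' hu') * ccl T u hu := by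
    apply Subtype.ext
    change _ = ((up u).1 * (ccl T u' hu').1 * (up u).1⁻¹) * (ccl T u hu).1
    rw [ccl_val, ccl_val, ccl_val, up_mul]
    simp only [Subgroup.coe_mul, Subgroup.coe_inv]
    group
  rw [h, cl_mul, cl_gconj, add_comm]

theorem ccl_loop (T : Finset ν) (u : GF (startB B) (cyl S) ν)
    (hu : ∀ y, u.1.1 (y, 1) * dg T = dg T * u.1.1 (y, 1)) (h1 : ∀ y, u.1.1 (y, 1) = 1) :
    cl (ccl T u hu) = 0 := by
  have hcond : ∀ p ∈ cyl (susB (susB B)), (loopA u * loopS (S := S) T * (loopA u)⁻¹ *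
      (loopS (S := S) T)⁻¹).1.1 p = 1 := by
    intro p hp
    refine comm_apply_eq_one _ _ p ?_
    rcases hp with (hp | hp | hp) | hp | hp
    · rw [loopA_eq_one u p (u.2.1 p.1.1 (Or.inl hp)), one_mul, mul_one]
    · rw [loopA_eq_one u p (u.2.1 p.1.1 (Or.inr hp)), one_mul, mul_one]
    · have h2 : u.1.1 p.1.1 = 1 := by
        have := h1 p.1.1.1
        rw [← hp] at this
        exact this
      rw [loopA_eq_one u p h2, one_mul, mul_one]
    · rw [loopS_eq_one T p (by rw [hp, zf_zero]), one_mul, mul_one]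
    · rw [loopS_eq_one T p (by rw [hp, zf_one]), one_mul, mul_one]
  set H : GF (cyl (susB (susB B))) (cyl (cyl (cyl S))) (ν ⊕ ν) :=
    raise (loopA u * loopS (S := S) T * (loopA u)⁻¹ * (loopS (S := S) T)⁻¹) hcond
    with hH
  have hev : ∀ (t : I) (p : (Y × I) × I), (ev t H).1.1 p =
      (e0 t (loopA u) * e0 t (loopS (S := S) T) * (e0 t (loopA u))⁻¹ *
        (e0 t (loopS (S := S) T))⁻¹).1.1 p := by
    intro t p
    rw [← map_inv, ← map_inv, ← map_mul, ← map_mul, ← map_mul]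
    rfl
  have e0H : ev 0 H = gsum (ccl T u hu) 1 := by
    apply gf_ext
    intro p
    rw [hev, loopA_zero, loopS_ev, gsum_inv, gsum_inv, inv_one, ← gsum_mul, ← gsum_mul,
      ← gsum_mul, mul_one, mul_one, mul_one]
    rfl
  have e1H : ev 1 H = 1 := by
    apply gf_ext
    intro p
    rw [hev, gf_one]
    apply comm_apply_eq_one
    have h3 : (e0 1 (loopS (S := S) T)).1.1 p =
        Matrix.fromBlocks (ploop (dg T) (zf p.2)) 0 0 1 := by
      rw [e0_apply, loopS_apply]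
    rw [loopA_one, h3, Matrix.fromBlocks_multiply, Matrix.fromBlocks_multiply]
    simp
  rw [← cl_gsum_one (κ := ν) (ccl T u hu), ← e0H, cl_homotopy, e1H, cl_one]

theorem ccl_union (T T' : Finset ν) (hd : Disjoint T T') (u : GF (startB B) (cyl S) ν)
    (hu : ∀ y, u.1.1 (y, 1) * dg T = dg T * u.1.1 (y, 1))
    (hu' : ∀ y, u.1.1 (y, 1) * dg T' = dg T' * u.1.1 (y, 1))
    (huu : ∀ y, u.1.1 (y, 1) * dg (T ∪ T') = dg (T ∪ T') * u.1.1 (y, 1)) :
    cl (ccl (T ∪ T') u huu) = cl (ccl T u hu) + cl (ccl T' u hu') := by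
  have h : ccl (T ∪ T') u huu =
      ccl T u hu * gconj (sig (Y × I) (cyl S) T) (ccl T' u hu') := by
    apply Subtype.ext
    change _ = (ccl T u hu).1 * ((sig (Y × I) (cyl S) T).1 * (ccl T' u hu').1 *
      (sig (Y × I) (cyl S) T).1⁻¹)
    rw [ccl_val, ccl_val, ccl_val, sig_union _ T T' hd]
    simp only [Subgroup.coe_mul, Subgroup.coe_inv]
    group
  rw [h, cl_mul, cl_gconj]

theorem ccl_empty (u : GF (startB B) (cyl S) ν)
    (hu : ∀ y, u.1.1 (y, 1) * dg ∅ = dg ∅ * u.1.1 (y, 1)) : cl (ccl ∅ u hu) = 0 := by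
  have h : ccl ∅ u hu = 1 := by
    apply Subtype.ext
    rw [ccl_val, sig_empty]
    simp
  rw [h, cl_one]

end Pool.QB.KTh
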