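import Pool.Agent.MP_c51823_gt.QB.KTh.Cls0

/-!
# [QBK-C1b] Block sums, reindexing and homotopies of the classes `ccl T u = [u, σ]`

* `ccl_gsum`: `ccl (T.disjSum T') (gsum u u') = gsum (ccl T u) (ccl T' u')` (`dg_disjSum`).
* `ccl_homotopy`: `U` is a path of paths, on `(Y × I_w) × I_r`; use the homotopy
  `(((y,w),ζ),r) ↦ [U((y,w),r), σ(z)]`.
-/

set_option autoImplicit false
open Topology

namespace Pool.QB.KTh

variable {Y : Type} [TopologicalSpace Y] {B S : Set Y} {ν κ : Type} [Fintype ν] [DecidableEq ν]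
  [Fintype κ] [DecidableEq κ]

namespace Cls1b_aux

theorem ccl_apply (T : Finset ν) (u : GF (startB B) (cyl S) ν)
    (hu : ∀ y, u.1.1 (y, 1) * dg T = dg T * u.1.1 (y, 1)) (p : (Y × I) × I) :
    (ccl T u hu).1.1 p = u.1.1 p.1 * ploop (dg T) (zf p.2 ^ (1 : ℤ)) *
      (u⁻¹).1.1 p.1 * ploop (dg T) (zf p.2 ^ (-1 : ℤ)) := rfl

theorem ploop_disjSum (T : Finset ν) (T' : Finset κ) (z : ℂ) :
    ploop (dg (T.disjSum T')) z = Matrix.fromBlocks (ploop (dg T) z) 0 0 (ploop (dg T') z) := by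
  unfold ploop
  rw [dg_disjSum, Matrix.fromBlocks_smul]
  ext1 i j
  rcases i with i | i <;> rcases j with j | j <;> simp [Matrix.one_apply]

theorem ploop_submatrix (e : ν ≃ κ) (T : Finset ν) (T' : Finset κ) (hT : ∀ i, e i ∈ T' ↔ i ∈ T)
    (z : ℂ) : ploop (dg T') z = (ploop (dg T) z).submatrix e.symm e.symm := by
  have h1 : dg T' = (dg T).submatrix e.symm e.symm := by
    unfold dg
    rw [Matrix.submatrix_diagonal_equiv]
    congr 1
    ext1 i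
    have : i ∈ T' ↔ e.symm i ∈ T := by
      rw [← hT, Equiv.apply_symm_apply]
    simp only [Function.comp, this]
  unfold ploop
  rw [h1, Matrix.submatrix_add, Matrix.submatrix_sub, Matrix.submatrix_smul]
  simp only [Pi.add_apply, Pi.sub_apply, Pi.smul_apply]
  rw [Matrix.submatrix_one_equiv]

theorem inv_congr {Y Y' : Type} [TopologicalSpace Y] [TopologicalSpace Y'] {B S : Set Y}
    {B' S' : Set Y'} {g : GF B S ν} {g' : GF B' S' ν} {y : Y} {y' : Y'}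
    (h : g.1.1 y = g'.1.1 y') : (g⁻¹).1.1 y = (g'⁻¹).1.1 y' := by
  rw [gf_inv, gf_inv, h]

end Cls1b_aux

open Cls1b_aux

theorem ccl_gsum (T : Finset ν) (T' : Finset κ) (u : GF (startB B) (cyl S) ν)
    (u' : GF (startB B) (cyl S) κ)
    (hu : ∀ y, u.1.1 (y, 1) * dg T = dg T * u.1.1 (y, 1))
    (hu' : ∀ y, u'.1.1 (y, 1) * dg T' = dg T' * u'.1.1 (y, 1))
    (huu : ∀ y, (gsum u u').1.1 (y, 1) * dg (T.disjSum T') =
      dg (T.disjSum T') * (gsum u u').1.1 (y, 1)) :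
    cl (ccl (T.disjSum T') (gsum u u') huu) = cl (ccl T u hu) + cl (ccl T' u' hu') := by
  rw [← cl_gsum]
  congr 1
  apply gf_ext
  intro p
  have h1 : (gsum (ccl T u hu) (ccl T' u' hu')).1.1 p =
      Matrix.fromBlocks ((ccl T u hu).1.1 p) 0 0 ((ccl T' u' hu').1.1 p) := rfl
  have h2 : (gsum u u').1.1 p.1 = Matrix.fromBlocks (u.1.1 p.1) 0 0 (u'.1.1 p.1) := rfl
  have h3 : ((gsum u u')⁻¹).1.1 p.1 =
      Matrix.fromBlocks ((u⁻¹).1.1 p.1) 0 0 ((u'⁻¹).1.1 p.1) := rfl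
  rw [h1, ccl_apply, ccl_apply, ccl_apply, h2, h3, ploop_disjSum, ploop_disjSum]
  simp only [Matrix.fromBlocks_multiply, Matrix.zero_mul, Matrix.mul_zero, add_zero, zero_add]

theorem ccl_greindex (e : ν ≃ κ) (T : Finset ν) (T' : Finset κ) (hT : ∀ i, e i ∈ T' ↔ i ∈ T)
    (u : GF (startB B) (cyl S) ν) (u' : GF (startB B) (cyl S) κ) (huu : u' = greindex e u)
    (hu : ∀ y, u.1.1 (y, 1) * dg T = dg T * u.1.1 (y, 1))
    (hu' : ∀ y, u'.1.1 (y, 1) * dg T' = dg T' * u'.1.1 (y, 1)) :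
    cl (ccl T' u' hu') = cl (ccl T u hu) := by
  subst huu
  rw [← cl_greindex e (ccl T u hu)]
  congr 1
  apply gf_ext
  intro p
  have h1 : (greindex e (ccl T u hu)).1.1 p = ((ccl T u hu).1.1 p).submatrix e.symm e.symm := rfl
  have h2 : (greindex e u).1.1 p.1 = (u.1.1 p.1).submatrix e.symm e.symm := rfl
  have h3 : ((greindex e u)⁻¹).1.1 p.1 = ((u⁻¹).1.1 p.1).submatrix e.symm e.symm := rfl
  rw [h1, ccl_apply, ccl_apply, h2, h3, ploop_submatrix e T T' hT, ploop_submatrix e T T' hT]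
  rw [Matrix.submatrix_mul_equiv, Matrix.submatrix_mul_equiv, Matrix.submatrix_mul_equiv]

theorem ccl_homotopy (T : Finset ν) (U : GF (cyl (startB B)) (cyl (cyl S)) ν)
    (hU : ∀ y r, U.1.1 ((y, 1), r) * dg T = dg T * U.1.1 ((y, 1), r))
    (u u' : GF (startB B) (cyl S) ν)
    (hu : ∀ y, u.1.1 (y, 1) * dg T = dg T * u.1.1 (y, 1))
    (hu' : ∀ y, u'.1.1 (y, 1) * dg T = dg T * u'.1.1 (y, 1))
    (h0 : ∀ p, U.1.1 (p, 0) = u.1.1 p) (h1 : ∀ p, U.1.1 (p, 1) = u'.1.1 p) :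
    cl (ccl T u hu) = cl (ccl T u' hu') := by
  let f : C(((Y × I) × I) × I, (Y × I) × I) := ⟨fun p => (p.1.1, p.2), by fun_prop⟩
  let A : GF (∅ : Set (((Y × I) × I) × I)) (cyl (cyl (cyl S))) ν :=
    pull f (fun _ h => h.elim) (fun _ h => h) ν (fg U)
  have hA : ∀ p, A.1.1 p = U.1.1 (p.1.1, p.2) := fun _ => rfl
  let Q : GF (∅ : Set (((Y × I) × I) × I)) (cyl (cyl (cyl S))) ν :=
    pull (prMap ((Y × I) × I)) (fun _ h => h.elim) (fun _ h => h) ν (sig (Y × I) (cyl S) T)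
  have hQ : ∀ p, Q.1.1 p = ploop (dg T) (zf p.1.2 ^ (1 : ℤ)) := fun _ => rfl
  have hQ' : ∀ p, (Q⁻¹).1.1 p = ploop (dg T) (zf p.1.2 ^ (-1 : ℤ)) := fun _ => rfl
  let K : GF (cyl (susB (susB B))) (cyl (cyl (cyl S))) ν := raise (A * Q * A⁻¹ * Q⁻¹) (by
    intro p hp
    refine comm_apply_eq_one _ _ p ?_
    rw [hA, hQ, zpow_one]
    rcases hp with (hp | hp | hp) | hp | hp
    · rw [U.2.1 (p.1.1, p.2) (Or.inl hp), one_mul, mul_one]
    · rw [U.2.1 (p.1.1, p.2) (Or.inr hp), one_mul, mul_one]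
    · have h2 := hU p.1.1.1 p.2
      have h3 : ((p.1.1.1, (1 : I)) : Y × I) = p.1.1 := by rw [← hp]
      rw [h3] at h2
      unfold ploop
      rw [mul_add, add_mul, mul_sub, sub_mul, Matrix.mul_smul, Matrix.smul_mul, h2, one_mul,
        mul_one]
    · rw [hp, zf_zero, ploop_one, one_mul, mul_one]
    · rw [hp, zf_one, ploop_one, one_mul, mul_one])
  have hK : ∀ p, K.1.1 p = A.1.1 p * Q.1.1 p * (A⁻¹).1.1 p * (Q⁻¹).1.1 p := fun _ => rfl
  have key : ∀ (r : I) (v : GF (startB B) (cyl S) ν)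
      (hv : ∀ y, v.1.1 (y, 1) * dg T = dg T * v.1.1 (y, 1))
      (hr : ∀ p, U.1.1 (p, r) = v.1.1 p), ev r K = ccl T v hv := by
    intro r v hv hr
    apply gf_ext
    intro p
    have h2 : (ev r K).1.1 p = K.1.1 (p, r) := rfl
    have h3 : A.1.1 (p, r) = v.1.1 p.1 := by rw [hA]; exact hr p.1
    have h4 : (A⁻¹).1.1 (p, r) = (v⁻¹).1.1 p.1 := inv_congr h3
    rw [h2, hK, ccl_apply, h3, h4, hQ, hQ']
  rw [← key 0 u hu h0, ← key 1 u' hu' h1]
  exact cl_homotopy K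

end Pool.QB.KTh
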