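import Pool.Agent.MP_c51823_gt.QB.KTh.Cls1
import Pool.Agent.MP_c51823_gt.QB.KTh.Cls1b

/-!
# [QBK-C2] `cl (ccl T u) = 0` if the end point `u(y,1)` is `1` on the `T`-part

`u₁ = u(·,1)` satisfies `u₁ e₀ = e₀ u₁ = e₀`. On `ν ⊕ ν` with `T ⊕ ∅`:
`cl (ccl T u) = cl (ccl (T ⊕ ∅) (u ⊕ u⁻¹))` (`ccl_gsum`, `ccl_empty`). Let `R'_t` be the rotation by
`πt/2` acting only on the `(1-e₀)`-parts of the two copies: blocks
`[[e₀ + (1-e₀) cos, -(1-e₀) sin], [(1-e₀) sin, e₀ + (1-e₀) cos]]` (invertible, inverse with `-sin`). The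
path `W'_t = (u₁ ⊕ 1) R'_t (u₁⁻¹ ⊕ 1) R'_t⁻¹` goes from `1` to `u₁ ⊕ u₁⁻¹`, it is `1` on `B`, scalar on `S`
and commutes with `e₀ ⊕ 0` for ALL `t`, so `ccl (T ⊕ ∅) W' = 1`. The path `(u ⊕ u⁻¹) W'⁻¹` is a loop:
`ccl_loop`, `ccl_mul`.
-/

set_option autoImplicit false
open Topology

namespace Pool.QB.KTh

namespace Cls2_aux

theorem ring_inv {A : Type} [Ring A] {e r s : A} (he : e * e = e) (hrs : r * s = 1)
    (hr : e * r = r * e) : (e + (1 - e) * r) * (e + (1 - e) * s) = 1 := by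
  have h1 : e * (1 - e) = 0 := by rw [mul_sub, mul_one, he, sub_self]
  have h2 : (1 - e) * e = 0 := by rw [sub_mul, one_mul, he, sub_self]
  have h3 : (1 - e) * (1 - e) = 1 - e := by rw [mul_sub, mul_one, h2, sub_zero]
  have h4 : (1 - e) * r * e = 0 := by rw [mul_assoc, ← hr, ← mul_assoc, h2, zero_mul]
  have h5 : (1 - e) * r = r * (1 - e) := by rw [sub_mul, mul_sub, one_mul, mul_one, hr]
  have h6 : (1 - e) * r * ((1 - e) * s) = 1 - e := by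
    rw [← mul_assoc, mul_assoc (1 - e) r (1 - e), ← h5, ← mul_assoc, h3, mul_assoc, hrs, mul_one]
  have h7 : e * ((1 - e) * s) = 0 := by rw [← mul_assoc, h1, zero_mul]
  rw [add_mul, mul_add, mul_add, he, h7, h4, h6]
  abel

variable {Y : Type} [TopologicalSpace Y] {B S : Set Y} {ν : Type} [Fintype ν] [DecidableEq ν]

theorem inv_comm {B S : Set Y} (g : GF B S ν) (y : Y) (D : Matrix ν ν R)
    (h : g.1.1 y * D = D * g.1.1 y) : (g⁻¹).1.1 y * D = D * (g⁻¹).1.1 y := by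
  have h1 := gf_inv_mul g y
  have h2 := gf_mul_inv g y
  calc (g⁻¹).1.1 y * D = (g⁻¹).1.1 y * D * (g.1.1 y * (g⁻¹).1.1 y) := by rw [h2, mul_one]
    _ = (g⁻¹).1.1 y * (D * g.1.1 y) * (g⁻¹).1.1 y := by noncomm_ring
    _ = (g⁻¹).1.1 y * (g.1.1 y * D) * (g⁻¹).1.1 y := by rw [h]
    _ = ((g⁻¹).1.1 y * g.1.1 y) * D * (g⁻¹).1.1 y := by noncomm_ring
    _ = D * (g⁻¹).1.1 y := by rw [h1, one_mul]

/-- the idempotent `e₀ ⊕ e₀` -/
noncomputable def EE (T : Finset ν) : Matrix (ν ⊕ ν) (ν ⊕ ν) R := dg (T.disjSum T)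

theorem bl_comm (T : Finset ν) (a b c d : ℂ) : EE T * bl ν a b c d = bl ν a b c d * EE T := by
  unfold EE bl
  rw [dg_disjSum, Matrix.fromBlocks_multiply, Matrix.fromBlocks_multiply]
  simp

theorem one_sub_EE (T : Finset ν) :
    (1 - EE T) = Matrix.fromBlocks (1 - dg T) 0 0 (1 - dg T) := by
  unfold EE
  rw [dg_disjSum, ← Matrix.fromBlocks_one]
  ext1 i j
  rcases i with i | i <;> rcases j with j | j <;> simp [Matrix.one_apply]

/-- the rotation acting on the `1 - e₀`-part only -/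
theorem exists_rotT (S : Set Y) (T : Finset ν) : ∃ g : GF (∅ : Set (Y × I)) (cyl S) (ν ⊕ ν),
    ∀ p, g.1.1 p = EE T + (1 - EE T) * rotFn ν 1 p.2 := by
  have hc : ∀ s : ℝ, Continuous fun p : Y × I => EE T + (1 - EE T) * rotFn ν s p.2 := fun s =>
    continuous_const.add (continuous_const.mul ((rotFn ν s).continuous.comp continuous_snd))
  have hi : ∀ (s : ℝ) (t : I), (EE T + (1 - EE T) * rotFn ν s t) *
      (EE T + (1 - EE T) * rotFn ν (-s) t) = 1 := by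
    intro s t
    refine ring_inv (dg_mul _) ?_ (bl_comm T _ _ _ _)
    have := congrArg (fun f : C(I, Matrix (ν ⊕ ν) (ν ⊕ ν) R) => f t) (rotFn_mul ν s)
    exact this
  obtain ⟨g, hg⟩ := exists_gf (B := (∅ : Set (Y × I))) (S := cyl S)
    (⟨fun p : Y × I => EE T + (1 - EE T) * rotFn ν 1 p.2, hc 1⟩ : C(Y × I, _)) (by
      intro p
      refine ⟨⟨_, EE T + (1 - EE T) * rotFn ν (-1) p.2, hi 1 p.2, ?_⟩, rfl⟩
      have := hi (-1) p.2
      rwa [neg_neg] at this) (fun _ h => h.elim) (by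
      intro p _
      exact add_mem (dg_mem_sc _) (mul_mem (sub_mem (one_mem _) (dg_mem_sc _)) (bl_mem_sc _ _ _ _)))
  exact ⟨g, fun p => by rw [hg]; rfl⟩

end Cls2_aux

open Cls2_aux

theorem ccl_triv {Y : Type} [TopologicalSpace Y] {B S : Set Y} {ν : Type} [Fintype ν]
    [DecidableEq ν] (T : Finset ν) (u : GF (startB B) (cyl S) ν)
    (hu : ∀ y, u.1.1 (y, 1) * dg T = dg T * u.1.1 (y, 1))
    (h1 : ∀ y, u.1.1 (y, 1) * dg T = dg T) : cl (ccl T u hu) = 0 := by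
  -- the end point
  let u1 : GF B S ν := pull (atMap Y 1) (fun _ h => Or.inl h) (fun _ h => h) ν u
  have hu1 : ∀ y, u1.1.1 y = u.1.1 (y, 1) := fun y => rfl
  have hu1' : ∀ y, (u1⁻¹).1.1 y = (u⁻¹).1.1 (y, 1) := by
    intro y
    have e : u1⁻¹ = pull (atMap Y 1) (fun _ h => Or.inl h) (fun _ h => h) ν u⁻¹ := (map_inv _ _).symm
    rw [e]; rfl
  let a : GF (∅ : Set (Y × I)) (cyl S) (ν ⊕ ν) := gsum (up u1) 1
  have ha : ∀ p : Y × I, a.1.1 p = Matrix.fromBlocks (u.1.1 (p.1, 1)) 0 0 1 := fun p => rfl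
  have ha' : ∀ p : Y × I, (a⁻¹).1.1 p = Matrix.fromBlocks ((u⁻¹).1.1 (p.1, 1)) 0 0 1 := by
    intro p
    have h2 := gf_inv_mul a p
    have h3 : a.1.1 p * Matrix.fromBlocks ((u⁻¹).1.1 (p.1, 1)) 0 0 1 = 1 := by
      rw [ha, Matrix.fromBlocks_multiply, gf_mul_inv u (p.1, 1)]
      simp
    calc (a⁻¹).1.1 p = (a⁻¹).1.1 p * (a.1.1 p * Matrix.fromBlocks ((u⁻¹).1.1 (p.1, 1)) 0 0 1) := by
          rw [h3, mul_one]
      _ = _ := by rw [← mul_assoc, h2, one_mul]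
  obtain ⟨r, hr⟩ := exists_rotT (Y := Y) S T
  -- the path
  let W : GF (startB B) (cyl S) (ν ⊕ ν) := raise (a * r * a⁻¹ * r⁻¹) (by
    intro p hp
    refine comm_apply_eq_one _ _ p ?_
    rcases hp with hp | hp
    · have h2 : a.1.1 p = 1 := by
        rw [ha, u.2.1 (p.1, 1) (Or.inl hp), Matrix.fromBlocks_one]
      rw [h2, one_mul, mul_one]
    · have h2 : r.1.1 p = 1 := by
        rw [hr, hp, rotFn_zero, mul_one]; abel
      rw [h2, one_mul, mul_one])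
  have hW : ∀ p, W.1.1 p = a.1.1 p * r.1.1 p * (a⁻¹).1.1 p * (r⁻¹).1.1 p := by
    intro p
    have : W.1.1 p = (a * r * a⁻¹ * r⁻¹).1.1 p := rfl
    rw [this, gf_mul, gf_mul, gf_mul]
  -- commutation
  set D : Matrix (ν ⊕ ν) (ν ⊕ ν) R := dg (T.disjSum (∅ : Finset ν)) with hD
  have hDb : D = Matrix.fromBlocks (dg T) 0 0 0 := by rw [hD, dg_disjSum, dg_empty]
  have haD : ∀ p, a.1.1 p * D = D * a.1.1 p := by
    intro p
    rw [ha, hDb, Matrix.fromBlocks_multiply, Matrix.fromBlocks_multiply, hu p.1]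
    simp
  have hED : EE T * D = D := by
    rw [hDb]
    unfold EE
    rw [dg_disjSum, Matrix.fromBlocks_multiply, dg_mul]
    simp
  have hDE : D * EE T = D := by
    rw [hDb]
    unfold EE
    rw [dg_disjSum, Matrix.fromBlocks_multiply, dg_mul]
    simp
  have hrD : ∀ p, r.1.1 p * D = D * r.1.1 p := by
    intro p
    have h2 : (1 - EE T) * rotFn ν 1 p.2 * D = 0 := by
      have hc : EE T * rotFn ν 1 p.2 = rotFn ν 1 p.2 * EE T := bl_comm T _ _ _ _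
      calc (1 - EE T) * rotFn ν 1 p.2 * D
          = (rotFn ν 1 p.2 - EE T * rotFn ν 1 p.2) * D := by noncomm_ring
        _ = rotFn ν 1 p.2 * D - rotFn ν 1 p.2 * (EE T * D) := by rw [hc]; noncomm_ring
        _ = 0 := by rw [hED, sub_self]
    rw [hr, add_mul, h2, hED, mul_add, hDE, ← mul_assoc, mul_sub, mul_one, hDE, sub_self,
      zero_mul]
  have hWD : ∀ p, W.1.1 p * D = D * W.1.1 p := by
    intro p
    have e1 := haD p
    have e2 := hrD p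
    have e3 := inv_comm a p D e1
    have e4 := inv_comm r p D e2
    rw [hW]
    calc a.1.1 p * r.1.1 p * (a⁻¹).1.1 p * (r⁻¹).1.1 p * D
        = a.1.1 p * r.1.1 p * (a⁻¹).1.1 p * ((r⁻¹).1.1 p * D) := by noncomm_ring
      _ = a.1.1 p * r.1.1 p * ((a⁻¹).1.1 p * D) * (r⁻¹).1.1 p := by rw [e4]; noncomm_ring
      _ = a.1.1 p * (r.1.1 p * D) * (a⁻¹).1.1 p * (r⁻¹).1.1 p := by rw [e3]; noncomm_ring
      _ = (a.1.1 p * D) * r.1.1 p * (a⁻¹).1.1 p * (r⁻¹).1.1 p := by rw [e2]; noncomm_ring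
      _ = D * (a.1.1 p * r.1.1 p * (a⁻¹).1.1 p * (r⁻¹).1.1 p) := by rw [e1]; noncomm_ring
  -- the end point of the path
  have hW1 : ∀ y, W.1.1 (y, 1) = (gsum u u⁻¹).1.1 (y, 1) := by
    intro y
    have hg : (gsum u u⁻¹).1.1 (y, 1) = Matrix.fromBlocks (u.1.1 (y, 1)) 0 0 ((u⁻¹).1.1 (y, 1)) :=
      rfl
    have hUV := gf_mul_inv u (y, (1 : I))
    have hVU := gf_inv_mul u (y, (1 : I))
    have hUe := h1 y
    have heU : dg T * u.1.1 (y, 1) = dg T := by rw [← hu y, hUe]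
    have hVe : (u⁻¹).1.1 (y, 1) * dg T = dg T := by
      calc (u⁻¹).1.1 (y, 1) * dg T = (u⁻¹).1.1 (y, 1) * (u.1.1 (y, 1) * dg T) := by rw [hUe]
        _ = dg T := by rw [← mul_assoc, hVU, one_mul]
    have heV : dg T * (u⁻¹).1.1 (y, 1) = dg T := by
      calc dg T * (u⁻¹).1.1 (y, 1) = (dg T * u.1.1 (y, 1)) * (u⁻¹).1.1 (y, 1) := by rw [heU]
        _ = dg T := by rw [mul_assoc, hUV, mul_one]
    have hr1 : r.1.1 (y, 1) = Matrix.fromBlocks (dg T) (-(1 - dg T)) (1 - dg T) (dg T) := by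
      rw [hr, one_sub_EE]
      change EE T + Matrix.fromBlocks (1 - dg T) 0 0 (1 - dg T) * rotFn ν 1 1 = _
      rw [rotFn_one]
      unfold EE bl
      rw [dg_disjSum, Matrix.fromBlocks_multiply, Matrix.fromBlocks_add]
      simp
    have key : a.1.1 (y, 1) * r.1.1 (y, 1) * (a⁻¹).1.1 (y, 1) =
        Matrix.fromBlocks (u.1.1 (y, 1)) 0 0 ((u⁻¹).1.1 (y, 1)) * r.1.1 (y, 1) := by
      rw [ha, ha', hr1, Matrix.fromBlocks_multiply, Matrix.fromBlocks_multiply,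
        Matrix.fromBlocks_multiply]
      simp only [zero_mul, mul_zero, add_zero, zero_add, one_mul, mul_one, mul_neg, mul_sub,
        sub_mul, hUe, hVe, heV, sub_zero]
    rw [hW, hg, key, mul_assoc, gf_mul_inv, mul_one]
  -- conclusion
  have hgu : ∀ y, (gsum u u⁻¹).1.1 (y, 1) * dg (T.disjSum (∅ : Finset ν)) =
      dg (T.disjSum (∅ : Finset ν)) * (gsum u u⁻¹).1.1 (y, 1) := fun y => by
    rw [← hW1]; exact hWD (y, 1)
  have hui : ∀ y, (u⁻¹).1.1 (y, 1) * dg (∅ : Finset ν) = dg ∅ * (u⁻¹).1.1 (y, 1) := by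
    intro y; rw [dg_empty, mul_zero, zero_mul]
  have c1 := ccl_gsum T (∅ : Finset ν) u u⁻¹ hu hui hgu
  rw [ccl_empty, add_zero] at c1
  rw [← c1]
  -- the loop
  have hVl : ∀ y, (gsum u u⁻¹ * W⁻¹).1.1 (y, 1) = 1 := by
    intro y
    rw [gf_mul, ← hW1, gf_mul_inv]
  have hVc : ∀ y, (gsum u u⁻¹ * W⁻¹).1.1 (y, 1) * dg (T.disjSum (∅ : Finset ν)) =
      dg (T.disjSum (∅ : Finset ν)) * (gsum u u⁻¹ * W⁻¹).1.1 (y, 1) := by
    intro y; rw [hVl, one_mul, mul_one]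
  have hWc : ∀ y, W.1.1 (y, 1) * dg (T.disjSum (∅ : Finset ν)) =
      dg (T.disjSum (∅ : Finset ν)) * W.1.1 (y, 1) := fun y => hWD (y, 1)
  have hprod : gsum u u⁻¹ * W⁻¹ * W = gsum u u⁻¹ := by rw [mul_assoc, inv_mul_cancel, mul_one]
  have hpc : ∀ y, (gsum u u⁻¹ * W⁻¹ * W).1.1 (y, 1) * dg (T.disjSum (∅ : Finset ν)) =
      dg (T.disjSum (∅ : Finset ν)) * (gsum u u⁻¹ * W⁻¹ * W).1.1 (y, 1) := by
    rw [hprod]; exact hgu
  have c2 := ccl_mul (T.disjSum (∅ : Finset ν)) (gsum u u⁻¹ * W⁻¹) W hVc hWc hpc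
  have c3 := ccl_loop (T.disjSum (∅ : Finset ν)) (gsum u u⁻¹ * W⁻¹) hVc hVl
  have c4 : ccl (T.disjSum (∅ : Finset ν)) W hWc = 1 := by
    apply gf_ext
    intro p
    rw [gf_one]
    show (up W * sig (Y × I) (cyl S) (T.disjSum ∅) * (up W)⁻¹ *
      (sig (Y × I) (cyl S) (T.disjSum ∅))⁻¹).1.1 p = 1
    refine comm_apply_eq_one _ _ p ?_
    rw [up_apply, sig_apply]
    unfold ploop
    rw [mul_add, add_mul, mul_sub, sub_mul, Matrix.mul_smul, Matrix.smul_mul, one_mul, mul_one]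
    have := hWD p.1
    rw [hD] at this
    rw [this]
  rw [c3, c4, cl_one, zero_add] at c2
  have c5 : ccl (T.disjSum (∅ : Finset ν)) (gsum u u⁻¹ * W⁻¹ * W) hpc =
      ccl (T.disjSum (∅ : Finset ν)) (gsum u u⁻¹) hgu := by
    congr 1
  rw [← c5, c2]

end Pool.QB.KTh
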