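import Pool.Agent.MP_c51823_gt.QB.KTh.Cls2
import Pool.Agent.MP_c51823_gt.QB.KTh.Blocks

/-!
# [QBK-C3] The Bott homomorphism; `cl (ccl T u)` depends only on the `T`-part of the end point

* `exists_bott`: `exists_lift` with `φ g = cl (bottG g)`.
  - multiplicativity: `whp g * whp h` ends at `g h ⊕ g⁻¹ h⁻¹`, so `(whp (g h))⁻¹ * (whp g * whp h)` ends at a
    function which is `1` on the left block: `ccl_mul`, `ccl_triv`.
  - reindexing: `ccl_greindex` with `Equiv.sumCongr e e`.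
  - `φ (g ⊕ 1)`: `whp (gsum g 1)` is a reindexing (`Equiv.sumSumSumComm`) of `gsum (whp g) (whp 1)`, and
    `whp 1 = 1`: `ccl_greindex`, `ccl_gsum`.
  - homotopy: for `H ∈ GF (cyl B) (cyl S)` the function `((y,w),r) ↦ whp (H_r) (y,w)` satisfies the
    hypotheses of `ccl_homotopy` (its end point is `H_r ⊕ H_r⁻¹`).
* `ccl_eq_bott`: let `g = cutM T u₁`. On `ν ⊕ ν`:
  `cl (ccl T u) = cl (ccl (T ⊕ ∅) (u ⊕ 1))`, `bottG g`: `lft ν ν = (T ⊕ ∅) ∪ (Tᶜ ⊕ ∅)` (`ccl_union`), the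
  `Tᶜ`-part vanishes by `ccl_triv` (`g = 1` there), and `(u ⊕ 1)⁻¹ * whp g` ends at `(u₁⁻¹ g) ⊕ g⁻¹`, which
  is `1` on `T ⊕ ∅`: `ccl_triv`, `ccl_mul`.
-/

set_option autoImplicit false
open Topology

namespace Pool.QB.KTh

variable {Y : Type} [TopologicalSpace Y] {B S : Set Y}

namespace Cls3_aux

/-- The class of `ccl T u` depends only on the `T`-part of the end point. -/
theorem congr {ν : Type} [Fintype ν] [DecidableEq ν] (T : Finset ν)
    (u u' : GF (startB B) (cyl S) ν)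
    (hu : ∀ y, u.1.1 (y, 1) * dg T = dg T * u.1.1 (y, 1))
    (hu' : ∀ y, u'.1.1 (y, 1) * dg T = dg T * u'.1.1 (y, 1))
    (h : ∀ y, u.1.1 (y, 1) * dg T = u'.1.1 (y, 1) * dg T) :
    cl (ccl T u hu) = cl (ccl T u' hu') := by
  have h1 : ∀ y, (u⁻¹ * u').1.1 (y, 1) * dg T = dg T := by
    intro y
    rw [gf_mul, mul_assoc, ← h y, ← mul_assoc, gf_inv_mul, one_mul]
  have h2 : ∀ y, (u⁻¹ * u').1.1 (y, 1) * dg T = dg T * (u⁻¹ * u').1.1 (y, 1) := by
    intro y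
    have h3 : (u⁻¹).1.1 (y, 1) * dg T = dg T * (u⁻¹).1.1 (y, 1) := by
      calc (u⁻¹).1.1 (y, 1) * dg T
          = (u⁻¹).1.1 (y, 1) * (dg T * (u.1.1 (y, 1) * (u⁻¹).1.1 (y, 1))) := by
            rw [gf_mul_inv, mul_one]
        _ = (u⁻¹).1.1 (y, 1) * ((dg T * u.1.1 (y, 1)) * (u⁻¹).1.1 (y, 1)) := by
            rw [mul_assoc (dg T)]
        _ = (u⁻¹).1.1 (y, 1) * ((u.1.1 (y, 1) * dg T) * (u⁻¹).1.1 (y, 1)) := by
            rw [hu]
        _ = ((u⁻¹).1.1 (y, 1) * u.1.1 (y, 1)) * dg T * (u⁻¹).1.1 (y, 1) := by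
            simp only [mul_assoc]
        _ = dg T * (u⁻¹).1.1 (y, 1) := by rw [gf_inv_mul, one_mul]
    rw [gf_mul, mul_assoc, hu' y, ← mul_assoc, h3, mul_assoc]
  have h4 := ccl_mul T u (u⁻¹ * u') hu h2 (by
    intro y
    rw [mul_inv_cancel_left]
    exact hu' y)
  have h5 := ccl_triv T (u⁻¹ * u') h2 h1
  rw [h5, add_zero] at h4
  rw [← h4]
  congr 2
  rw [mul_inv_cancel_left]

theorem dg_lft (ν κ : Type) [Fintype ν] [DecidableEq ν] [Fintype κ] [DecidableEq κ] :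
    dg (lft ν κ) = Matrix.fromBlocks 1 0 0 0 := by
  unfold lft
  rw [dg_disjSum, dg_univ, dg_empty]

/-- The `T`-part of the end point of the Whitehead path. -/
theorem whp_part {ν : Type} [Fintype ν] [DecidableEq ν] (g : GF B S ν) (T : Finset ν) (y : Y) :
    (whp g).1.1 (y, 1) * dg (T.disjSum ∅) = Matrix.fromBlocks (g.1.1 y * dg T) 0 0 0 := by
  rw [whp_one, dg_disjSum, dg_empty]
  change Matrix.fromBlocks (g.1.1 y) 0 0 ((g⁻¹).1.1 y) * Matrix.fromBlocks (dg T) 0 0 0 = _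
  rw [Matrix.fromBlocks_multiply]
  simp

theorem whp_part' {ν : Type} [Fintype ν] [DecidableEq ν] (g : GF B S ν) (T : Finset ν) (y : Y) :
    dg (T.disjSum ∅) * (whp g).1.1 (y, 1) = Matrix.fromBlocks (dg T * g.1.1 y) 0 0 0 := by
  rw [whp_one, dg_disjSum, dg_empty]
  change Matrix.fromBlocks (dg T) 0 0 0 * Matrix.fromBlocks (g.1.1 y) 0 0 ((g⁻¹).1.1 y) = _
  rw [Matrix.fromBlocks_multiply]
  simp

theorem whp_lft {ν : Type} [Fintype ν] [DecidableEq ν] (g : GF B S ν) (y : Y) :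
    (whp g).1.1 (y, 1) * dg (lft ν ν) = Matrix.fromBlocks (g.1.1 y) 0 0 0 := by
  have := whp_part g Finset.univ y
  rw [dg_univ, mul_one] at this
  exact this

theorem hmul {ν : Type} [Fintype ν] [DecidableEq ν] (g h : GF B S ν) :
    cl (bottG (g * h)) = cl (bottG g) + cl (bottG h) := by
  have hc : ∀ y, (whp g * whp h).1.1 (y, 1) * dg (lft ν ν) =
      dg (lft ν ν) * (whp g * whp h).1.1 (y, 1) := by
    intro y
    rw [gf_mul, mul_assoc, whp_comm, ← mul_assoc, whp_comm, mul_assoc]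
  unfold bottG
  rw [← ccl_mul (lft ν ν) (whp g) (whp h) (whp_comm g) (whp_comm h) hc]
  refine congr _ _ _ _ _ fun y => ?_
  rw [whp_lft, gf_mul, gf_mul, mul_assoc, whp_lft, whp_one]
  change _ = Matrix.fromBlocks (g.1.1 y) 0 0 ((g⁻¹).1.1 y) * Matrix.fromBlocks (h.1.1 y) 0 0 0
  rw [Matrix.fromBlocks_multiply]
  simp

theorem greindex_apply {X : Type} [TopologicalSpace X] {B' S' : Set X} {ι κ : Type} [Fintype ι]
    [DecidableEq ι] [Fintype κ] [DecidableEq κ] (e : ι ≃ κ) (g : GF B' S' ι) (x : X) :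
    (greindex e g).1.1 x = (g.1.1 x).submatrix e.symm e.symm := rfl

theorem dg_submatrix {ι κ : Type} [Fintype ι]
    [DecidableEq ι] [Fintype κ] [DecidableEq κ] (e : ι ≃ κ) (T : Finset ι) (T' : Finset κ)
    (hT : ∀ i, e i ∈ T' ↔ i ∈ T) : (dg T).submatrix e.symm e.symm = dg T' := by
  unfold dg
  rw [Matrix.submatrix_diagonal_equiv]
  congr 1
  funext i
  have h := hT (e.symm i)
  rw [e.apply_symm_apply] at h
  simp only [Function.comp, h]

theorem re_comm {X : Type} [TopologicalSpace X] {B' S' : Set X} {ι κ : Type} [Fintype ι]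
    [DecidableEq ι] [Fintype κ] [DecidableEq κ] (e : ι ≃ κ) (g : GF B' S' ι) (T : Finset ι)
    (T' : Finset κ) (hT : ∀ i, e i ∈ T' ↔ i ∈ T) (x : X)
    (h : g.1.1 x * dg T = dg T * g.1.1 x) :
    (greindex e g).1.1 x * dg T' = dg T' * (greindex e g).1.1 x := by
  rw [greindex_apply, ← dg_submatrix e T T' hT, Matrix.submatrix_mul_equiv,
    Matrix.submatrix_mul_equiv, h]

theorem re_part {X : Type} [TopologicalSpace X] {B' S' : Set X} {ι κ : Type} [Fintype ι]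
    [DecidableEq ι] [Fintype κ] [DecidableEq κ] (e : ι ≃ κ) (g : GF B' S' ι) (T : Finset ι)
    (T' : Finset κ) (hT : ∀ i, e i ∈ T' ↔ i ∈ T) (x : X) :
    (greindex e g).1.1 x * dg T' = (g.1.1 x * dg T).submatrix e.symm e.symm := by
  rw [greindex_apply, ← dg_submatrix e T T' hT, Matrix.submatrix_mul_equiv]

theorem hre {ι κ : Type} [Fintype ι] [DecidableEq ι] [Fintype κ] [DecidableEq κ] (e : ι ≃ κ)
    (g : GF B S ι) : cl (bottG (greindex e g)) = cl (bottG g) := by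
  have hT : ∀ i, (Equiv.sumCongr e e) i ∈ lft κ κ ↔ i ∈ lft ι ι := by
    intro i
    rcases i with i | i <;> simp [lft]
  unfold bottG
  rw [← ccl_greindex (Equiv.sumCongr e e) (lft ι ι) (lft κ κ) hT (whp g) _ rfl (whp_comm g)
    (fun y => re_comm _ _ _ _ hT _ (whp_comm g y))]
  refine congr _ _ _ _ _ fun y => ?_
  rw [whp_lft, re_part _ _ _ _ hT, whp_lft]
  ext i j
  rcases i with i | i <;> rcases j with j | j <;> simp [greindex_apply]

theorem hst {ι κ : Type} [Fintype ι] [DecidableEq ι] [Fintype κ] [DecidableEq κ]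
    (g : GF B S ι) : cl (bottG (gsum g (1 : GF B S κ))) = cl (bottG g) := by
  have hT : ∀ i, (Equiv.sumSumSumComm ι ι κ κ) i ∈ lft (ι ⊕ κ) (ι ⊕ κ) ↔
      i ∈ (lft ι ι).disjSum (lft κ κ) := by
    intro i
    rcases i with (i | i) | (i | i) <;> simp [lft]
  have hc1 : ∀ y, (1 : GF (startB B) (cyl S) (κ ⊕ κ)).1.1 (y, 1) * dg (lft κ κ) =
      dg (lft κ κ) * (1 : GF (startB B) (cyl S) (κ ⊕ κ)).1.1 (y, 1) := by
    intro y
    rw [gf_one, one_mul, mul_one]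
  have hc2 : ∀ y, (gsum (whp g) (1 : GF (startB B) (cyl S) (κ ⊕ κ))).1.1 (y, 1) *
      dg ((lft ι ι).disjSum (lft κ κ)) = dg ((lft ι ι).disjSum (lft κ κ)) *
      (gsum (whp g) (1 : GF (startB B) (cyl S) (κ ⊕ κ))).1.1 (y, 1) := by
    intro y
    rw [dg_disjSum]
    change Matrix.fromBlocks ((whp g).1.1 (y, 1)) 0 0 1 * Matrix.fromBlocks _ 0 0 _ =
      Matrix.fromBlocks _ 0 0 _ * Matrix.fromBlocks ((whp g).1.1 (y, 1)) 0 0 1
    rw [Matrix.fromBlocks_multiply, Matrix.fromBlocks_multiply, whp_comm]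
    simp
  have h1 := ccl_gsum (lft ι ι) (lft κ κ) (whp g) (1 : GF (startB B) (cyl S) (κ ⊕ κ)) (whp_comm g)
    hc1 hc2
  rw [ccl_triv (lft κ κ) (1 : GF (startB B) (cyl S) (κ ⊕ κ)) hc1 (fun y => by
    rw [gf_one, one_mul]), add_zero] at h1
  have h2 := ccl_greindex (Equiv.sumSumSumComm ι ι κ κ) ((lft ι ι).disjSum (lft κ κ))
    (lft (ι ⊕ κ) (ι ⊕ κ)) hT (gsum (whp g) (1 : GF (startB B) (cyl S) (κ ⊕ κ))) _ rfl hc2
    (fun y => re_comm _ _ _ _ hT _ (hc2 y))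
  unfold bottG
  rw [← h1, ← h2]
  refine congr _ _ _ _ _ fun y => ?_
  rw [whp_lft, re_part _ _ _ _ hT]
  have h3 : (gsum (whp g) (1 : GF (startB B) (cyl S) (κ ⊕ κ))).1.1 (y, 1) *
      dg ((lft ι ι).disjSum (lft κ κ)) =
      Matrix.fromBlocks (Matrix.fromBlocks (g.1.1 y) 0 0 0) 0 0 (Matrix.fromBlocks 1 0 0 0) := by
    rw [dg_disjSum, dg_lft κ κ]
    change Matrix.fromBlocks ((whp g).1.1 (y, 1)) 0 0 1 * Matrix.fromBlocks _ 0 0 _ = _
    rw [Matrix.fromBlocks_multiply, whp_lft]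
    simp
  rw [h3]
  change Matrix.fromBlocks (Matrix.fromBlocks (g.1.1 y) 0 0 1) 0 0 0 = _
  ext i j
  rcases i with (i | i) | (i | i) <;> rcases j with (j | j) | (j | j) <;> simp

/-- `((y, w), r) ↦ ((y, r), w)` -/
def swp (Y : Type) [TopologicalSpace Y] : C((Y × I) × I, (Y × I) × I) :=
  ⟨fun p => ((p.1.1, p.2), p.1.2), by fun_prop⟩

theorem hht {ι : Type} [Fintype ι] [DecidableEq ι] (H : GF (cyl B) (cyl S) ι)
    (h0 : ev 0 H = 1) : cl (bottG (ev 1 H)) = 0 := by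
  let U : GF (cyl (startB B)) (cyl (cyl S)) (ι ⊕ ι) :=
    pull (swp Y) (fun p hp => hp) (fun p hp => hp) (ι ⊕ ι) (whp H)
  have hUv : ∀ y w r, U.1.1 ((y, w), r) = (whp H).1.1 ((y, r), w) := fun _ _ _ => rfl
  have hU : ∀ y r, U.1.1 ((y, 1), r) * dg (lft ι ι) = dg (lft ι ι) * U.1.1 ((y, 1), r) := by
    intro y r
    rw [hUv]
    exact whp_comm H (y, r)
  have hev : ∀ (r : I) (p : Y × I), (ev r U).1.1 p = U.1.1 (p, r) := fun _ _ => rfl
  have hevc : ∀ (r : I) (y : Y), (ev r U).1.1 (y, 1) * dg (lft ι ι) =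
      dg (lft ι ι) * (ev r U).1.1 (y, 1) := by
    intro r y
    rw [hev]
    exact hU y r
  have h1 := ccl_homotopy (lft ι ι) U hU (ev 0 U) (ev 1 U) (hevc 0) (hevc 1)
    (fun p => rfl) (fun p => rfl)
  have h2 : cl (ccl (lft ι ι) (ev 0 U) (hevc 0)) = 0 := by
    refine ccl_triv _ _ _ fun y => ?_
    rw [hev, hUv, whp_lft, dg_lft]
    have h3 : H.1.1 (y, 0) = 1 := by
      have h4 : (ev 0 H).1.1 y = 1 := by rw [h0, gf_one]
      exact h4
    rw [h3]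
  rw [← h2, h1]
  unfold bottG
  refine congr _ _ _ _ _ fun y => ?_
  rw [whp_lft, hev, hUv, whp_lft]
  rfl

end Cls3_aux

theorem exists_bott (B S : Set Y) : ∃ F : K1 B S →+ K1 (susB (susB B)) (cyl (cyl S)),
    ∀ (ν : Type) [Fintype ν] [DecidableEq ν] (g : GF B S ν), F (cl g) = cl (bottG g) :=
  exists_lift (fun _ _ _ g => cl (bottG g)) (fun _ _ _ g h => Cls3_aux.hmul g h)
    (fun _ _ _ _ _ _ e g => Cls3_aux.hre e g) (fun _ _ _ _ _ _ g => Cls3_aux.hst g)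
    (fun _ _ _ H h0 => Cls3_aux.hht H h0)

/-- The Bott homomorphism. -/
noncomputable def bott (B S : Set Y) : K1 B S →+ K1 (susB (susB B)) (cyl (cyl S)) :=
  (exists_bott B S).choose

theorem bott_cl {ν : Type} [Fintype ν] [DecidableEq ν] (g : GF B S ν) :
    bott B S (cl g) = cl (bottG g) := (exists_bott B S).choose_spec ν g

theorem ccl_eq_bott {ν : Type} [Fintype ν] [DecidableEq ν] (T : Finset ν)
    (u : GF (startB B) (cyl S) ν) (hu : ∀ y, u.1.1 (y, 1) * dg T = dg T * u.1.1 (y, 1))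
    (g : GF B S ν) (hg : ∀ y, g.1.1 y = cutM T (u.1.1 (y, 1))) :
    cl (ccl T u hu) = bott B S (cl g) := by
  have hgT : ∀ y, g.1.1 y * dg T = u.1.1 (y, 1) * dg T := by
    intro y
    rw [hg]
    unfold cutM
    rw [add_mul, sub_mul, one_mul, dg_mul, sub_self, add_zero, mul_assoc, dg_mul, ← hu, mul_assoc,
      dg_mul]
  have hgT' : ∀ y, dg T * g.1.1 y = u.1.1 (y, 1) * dg T := by
    intro y
    rw [hg]
    unfold cutM
    rw [mul_add, mul_sub, mul_one, dg_mul, sub_self, add_zero, ← mul_assoc, ← mul_assoc, dg_mul,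
      ← hu, mul_assoc, dg_mul]
  have hcc : dg T + dg Tᶜ = 1 := by
    unfold dg
    rw [Matrix.diagonal_add, ← Matrix.diagonal_one]
    congr 1
    funext i
    by_cases hi : i ∈ T <;> simp [hi]
  have hcc2 : dg Tᶜ = 1 - dg T := by rw [← hcc]; abel
  have hTc : dg T * dg Tᶜ = 0 := by rw [hcc2, mul_sub, mul_one, dg_mul, sub_self]
  have hcT : dg Tᶜ * dg T = 0 := by rw [hcc2, sub_mul, one_mul, dg_mul, sub_self]
  have hgc : ∀ y, g.1.1 y * dg Tᶜ = dg Tᶜ := by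
    intro y
    rw [hg]
    unfold cutM
    rw [add_mul, mul_assoc, hTc, mul_zero, zero_add, ← hcc2, dg_mul]
  have hgc' : ∀ y, dg Tᶜ * g.1.1 y = dg Tᶜ := by
    intro y
    rw [hg]
    unfold cutM
    rw [mul_add, ← mul_assoc, ← mul_assoc, hcT, zero_mul, zero_mul, zero_add, ← hcc2, dg_mul]
  -- the left side on `ν ⊕ ν`
  have hc1 : ∀ y, (1 : GF (startB B) (cyl S) ν).1.1 (y, 1) * dg ∅ =
      dg ∅ * (1 : GF (startB B) (cyl S) ν).1.1 (y, 1) := by
    intro y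
    rw [gf_one, one_mul, mul_one]
  have hpart : ∀ y, (gsum u (1 : GF (startB B) (cyl S) ν)).1.1 (y, 1) * dg (T.disjSum ∅) =
      Matrix.fromBlocks (u.1.1 (y, 1) * dg T) 0 0 0 := by
    intro y
    rw [dg_disjSum, dg_empty]
    change Matrix.fromBlocks (u.1.1 (y, 1)) 0 0 1 * Matrix.fromBlocks _ 0 0 _ = _
    rw [Matrix.fromBlocks_multiply]
    simp
  have hpart' : ∀ y, dg (T.disjSum ∅) * (gsum u (1 : GF (startB B) (cyl S) ν)).1.1 (y, 1) =
      Matrix.fromBlocks (dg T * u.1.1 (y, 1)) 0 0 0 := by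
    intro y
    rw [dg_disjSum, dg_empty]
    change Matrix.fromBlocks _ 0 0 _ * Matrix.fromBlocks (u.1.1 (y, 1)) 0 0 1 = _
    rw [Matrix.fromBlocks_multiply]
    simp
  have h1 := ccl_gsum T ∅ u (1 : GF (startB B) (cyl S) ν) hu hc1 (by
    intro y
    rw [hpart, hpart', hu])
  rw [ccl_empty, add_zero] at h1
  -- the right side
  have hd : Disjoint (T.disjSum (∅ : Finset ν)) (Tᶜ.disjSum (∅ : Finset ν)) := by
    rw [Finset.disjoint_left]
    rintro (i | i) hi <;> simp_all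
  have hun : T.disjSum (∅ : Finset ν) ∪ Tᶜ.disjSum (∅ : Finset ν) = lft ν ν := by
    ext i
    rcases i with i | i
    · simp [lft, em]
    · simp [lft]
  have hw1 : ∀ y, (whp g).1.1 (y, 1) * dg (T.disjSum (∅ : Finset ν)) =
      dg (T.disjSum (∅ : Finset ν)) * (whp g).1.1 (y, 1) := by
    intro y
    rw [Cls3_aux.whp_part, Cls3_aux.whp_part', hgT, hgT']
  have hw2 : ∀ y, (whp g).1.1 (y, 1) * dg (Tᶜ.disjSum (∅ : Finset ν)) =
      dg (Tᶜ.disjSum (∅ : Finset ν)) * (whp g).1.1 (y, 1) := by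
    intro y
    rw [Cls3_aux.whp_part, Cls3_aux.whp_part', hgc, hgc']
  have hw3 : ∀ y, (whp g).1.1 (y, 1) * dg (T.disjSum (∅ : Finset ν) ∪ Tᶜ.disjSum (∅ : Finset ν)) =
      dg (T.disjSum (∅ : Finset ν) ∪ Tᶜ.disjSum (∅ : Finset ν)) * (whp g).1.1 (y, 1) := by
    intro y
    rw [hun]
    exact whp_comm g y
  have h2 := ccl_union _ _ hd (whp g) hw1 hw2 hw3
  have h3 : cl (ccl (Tᶜ.disjSum (∅ : Finset ν)) (whp g) hw2) = 0 := by
    refine ccl_triv _ _ _ fun y => ?_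
    rw [Cls3_aux.whp_part, hgc, dg_disjSum, dg_empty]
  rw [h3, add_zero] at h2
  have h4 : cl (bottG g) = cl (ccl (T.disjSum (∅ : Finset ν) ∪ Tᶜ.disjSum (∅ : Finset ν))
      (whp g) hw3) := by
    unfold bottG
    congr 2
    exact hun.symm
  rw [bott_cl, h4, h2, ← h1]
  refine Cls3_aux.congr _ _ _ _ _ fun y => ?_
  rw [hpart, Cls3_aux.whp_part, hgT]

end Pool.QB.KTh
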