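import Pool.Agent.MP_c51823_gt.QB.KTh.LoopDef

/-!
# [QBK] The classes `[u σ u⁻¹ σ⁻¹]`, `σ = z e₀ + 1 - e₀` (definitions)
-/

set_option autoImplicit false
open Topology

namespace Pool.QB.KTh

noncomputable section

variable {Y : Type} [TopologicalSpace Y]

/-- Forget the condition on `B`. -/
def fg {B S : Set Y} {ν : Type} [Fintype ν] [DecidableEq ν] (u : GF B S ν) : GF (∅ : Set Y) S ν :=
  ⟨u.1, fun _ h => h.elim, u.2.2⟩

/-- Add a condition on `B`. -/
def raise {B S : Set Y} {ν : Type} [Fintype ν] [DecidableEq ν] (u : GF (∅ : Set Y) S ν)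
    (h : ∀ y ∈ B, u.1.1 y = 1) : GF B S ν := ⟨u.1, h, u.2.2⟩

theorem comm_apply_eq_one {B S : Set Y} {ν : Type} [Fintype ν] [DecidableEq ν] (a b : GF B S ν)
    (y : Y) (h : a.1.1 y * b.1.1 y = b.1.1 y * a.1.1 y) : (a * b * a⁻¹ * b⁻¹).1.1 y = 1 := by
  have hinv : ∀ (v : (C(Y, Matrix ν ν R))ˣ), v.1 y * (v⁻¹).1 y = 1 := by
    intro v
    have h2 : v.1 * (v⁻¹).1 = 1 := by rw [← Units.val_mul]; simp
    exact congrArg (fun f : C(Y, Matrix ν ν R) => f y) h2
  have h3 : (a * b * a⁻¹ * b⁻¹).1.1 y = a.1.1 y * b.1.1 y * (a.1⁻¹).1 y * (b.1⁻¹).1 y := rfl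
  rw [h3, h, mul_assoc (b.1.1 y), hinv, mul_one, hinv]

/-- `B × I ∪ Y × {0}`. -/
def startB (B : Set Y) : Set (Y × I) := {p | p.1 ∈ B ∨ p.2 = 0}

/-- The reference loop `z e₀ + 1 - e₀` for the diagonal idempotent `e₀ = dg T`. -/
def sig (X : Type) [TopologicalSpace X] (S : Set X) {ν : Type} [Fintype ν] [DecidableEq ν]
    (T : Finset ν) : GF (∅ : Set (X × I)) (cyl S) ν :=
  pl (ContinuousMap.const X (dg T)) (fun _ => dg_mul T) (fun _ _ => dg_mem_sc T)

/-- `u` as a function on `Y × I`, constant in the last variable. -/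
def up {B S : Set Y} {ν : Type} [Fintype ν] [DecidableEq ν] (u : GF B S ν) :
    GF (∅ : Set (Y × I)) (cyl S) ν :=
  pull (prMap Y) (fun _ h => h.elim) (fun _ h => h) ν (fg u)

theorem up_apply {B S : Set Y} {ν : Type} [Fintype ν] [DecidableEq ν] (u : GF B S ν) (p : Y × I) :
    (up u).1.1 p = u.1.1 p.1 := rfl

theorem sig_apply {X : Type} [TopologicalSpace X] {S : Set X} {ν : Type} [Fintype ν]
    [DecidableEq ν] (T : Finset ν) (p : X × I) :
    (sig X S T).1.1 p = ploop (dg T) (zf p.2) := by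
  change ploop (dg T) (zf p.2 ^ (1 : ℤ)) = _
  rw [zpow_one]

/-- The commutator `u σ u⁻¹ σ⁻¹`, for a path `u` starting at `1` whose end point commutes with `dg T`. -/
def ccl {B S : Set Y} {ν : Type} [Fintype ν] [DecidableEq ν] (T : Finset ν)
    (u : GF (startB B) (cyl S) ν) (hu : ∀ y, u.1.1 (y, 1) * dg T = dg T * u.1.1 (y, 1)) :
    GF (susB (susB B)) (cyl (cyl S)) ν :=
  raise (up u * sig (Y × I) (cyl S) T * (up u)⁻¹ * (sig (Y × I) (cyl S) T)⁻¹) (by
    intro p hp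
    refine comm_apply_eq_one _ _ p ?_
    rw [up_apply, sig_apply]
    rcases hp with (hp | hp | hp) | hp | hp
    · rw [u.2.1 p.1 (Or.inl hp), one_mul, mul_one]
    · rw [u.2.1 p.1 (Or.inr hp), one_mul, mul_one]
    · have h1 := hu p.1.1
      rw [← hp] at h1
      change u.1.1 p.1 * dg T = dg T * u.1.1 p.1 at h1
      unfold ploop
      rw [mul_add, add_mul, mul_sub, sub_mul, Matrix.mul_smul, Matrix.smul_mul, h1, one_mul,
        mul_one]
    · rw [hp, zf_zero, ploop_one, one_mul, mul_one]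
    · rw [hp, zf_one, ploop_one, one_mul, mul_one])

/-- The rotation on `Y × I`. -/
def rotY {S : Set Y} (ν : Type) [Fintype ν] [DecidableEq ν] :
    GF (∅ : Set (Y × I)) (cyl S) (ν ⊕ ν) :=
  pull (⟨Prod.snd, continuous_snd⟩ : C(Y × I, I)) (fun _ h => h.elim)
    (fun _ _ => Set.mem_univ _) (ν ⊕ ν) (rot ν)

theorem rotY_apply {S : Set Y} (ν : Type) [Fintype ν] [DecidableEq ν] (p : Y × I) :
    (rotY (S := S) ν).1.1 p = rotFn ν 1 p.2 := rfl

theorem rotFn_zero (ν : Type) [Fintype ν] [DecidableEq ν] : rotFn ν 1 0 = 1 := by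
  change bl ν _ _ _ _ = 1
  simp [bl_one]

/-- The Whitehead path `W_t = (g ⊕ 1) R_t (g⁻¹ ⊕ 1) R_t⁻¹` from `1` to `g ⊕ g⁻¹`. -/
def whp {B S : Set Y} {ν : Type} [Fintype ν] [DecidableEq ν] (g : GF B S ν) :
    GF (startB B) (cyl S) (ν ⊕ ν) :=
  raise (gsum (up g) 1 * rotY ν * (gsum (up g) 1)⁻¹ * (rotY ν)⁻¹) (by
    intro p hp
    refine comm_apply_eq_one _ _ p ?_
    rcases hp with hp | hp
    · have h1 : (gsum (up g) (1 : GF (∅ : Set (Y × I)) (cyl S) ν)).1.1 p = 1 := by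
        change Matrix.fromBlocks (g.1.1 p.1) 0 0 1 = 1
        rw [g.2.1 p.1 hp, Matrix.fromBlocks_one]
      rw [h1, one_mul, mul_one]
    · rw [rotY_apply, hp, rotFn_zero, one_mul, mul_one])

/-- The left block. -/
def lft (ν κ : Type) [Fintype ν] [DecidableEq ν] [Fintype κ] [DecidableEq κ] : Finset (ν ⊕ κ) :=
  Finset.univ.disjSum ∅

theorem dg_disjSum {ν κ : Type} [Fintype ν] [DecidableEq ν] [Fintype κ] [DecidableEq κ]
    (T : Finset ν) (T' : Finset κ) :
    dg (T.disjSum T') = Matrix.fromBlocks (dg T) 0 0 (dg T') := by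
  ext1 i j
  rcases i with i | i <;> rcases j with j | j <;>
    simp [dg, Matrix.diagonal_apply, Finset.inl_mem_disjSum, Finset.inr_mem_disjSum]

theorem dg_univ {ν : Type} [Fintype ν] [DecidableEq ν] : dg (Finset.univ : Finset ν) = 1 := by
  unfold dg
  simp

theorem dg_empty {ν : Type} [Fintype ν] [DecidableEq ν] : dg (∅ : Finset ν) = 0 := by
  unfold dg
  simp

/-- `e₀ a e₀ + 1 - e₀`. -/
def cutM {ν : Type} [Fintype ν] [DecidableEq ν] (T : Finset ν) (a : Matrix ν ν R) : Matrix ν ν R :=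
  dg T * a * dg T + (1 - dg T)

end

end Pool.QB.KTh
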