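import Pool.Agent.MP_c51823_gt.QB.KTh.Hep

/-!
# [QBK-D] The boundary homomorphism `δ : K1(Yc × I, Bc × I ∪ Yc × {0,1}) → K1(Yd, Br)`

For `h` admissible on `(Yc × I, susB Bc, cyl Sc)` let `H` be a lift (`IsLift`): `ev 0 H = 1`,
`H ∘ (i × id) = h` (exists by `hep`); then `H_1` is `1` on `Br = Bd ∪ i(Yc)` and `δ [h] = [H_1]`.
* independence of the lift: for two lifts `N = H H'⁻¹` is `1` over `i(Yc)`, `N ∈ GF (cyl Br) (cyl Sd)`,
  `N_0 = 1`, so `H_1 H'_1⁻¹` is `Nul`;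
* lifts multiply; block sums and reindexings of lifts are lifts;
* homotopies: if `h_r`, `r ∈ I`, is a path in `GF (susB Bc) (cyl Sc)` with `h_0 = 1` apply `hep` to
  `i × id : Yc × I_r → Yd × I_r` (`E.cyl`) with the homotopy parameter `t`; the resulting
  `H(y, r, t)` is `1` for `t = 0`, is `h_r(x,t)` at `i x`; `H(·, 1, ·)` lifts `h_1`, `H(·, 0, ·)` lifts
  `1`, and `H(·, ·, 1)` is a homotopy in `GF (cyl Br) (cyl Sd)` between their end values.
Then `exists_lift`.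
-/

set_option autoImplicit false
open Topology

namespace Pool.QB.KTh

variable {Yc Yd : Type} [TopologicalSpace Yc] [TopologicalSpace Yd] {Bc Sc : Set Yc}
  {Bd Sd Br : Set Yd} {i : C(Yc, Yd)}

/-- `g` is the end value of a lift of the loop `h`. -/
def IsEnd (_E : CEmb Bc Sc Bd Sd Br i) {ι : Type} [Fintype ι] [DecidableEq ι]
    (h : GF (susB Bc) (cyl Sc) ι) (g : GF Br Sd ι) : Prop :=
  ∃ H : GF (cyl Bd) (cyl Sd) ι, (∀ y, H.1.1 (y, 0) = 1) ∧ (∀ x t, H.1.1 (i x, t) = h.1.1 (x, t)) ∧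
    ∀ y, H.1.1 (y, 1) = g.1.1 y

theorem exists_isEnd [CompactSpace Yc] [T2Space Yc] [CompactSpace Yd] [T2Space Yd]
    (E : CEmb Bc Sc Bd Sd Br i) {ι : Type} [Fintype ι] [DecidableEq ι]
    (h : GF (susB Bc) (cyl Sc) ι) : ∃ g : GF Br Sd ι, IsEnd E h g := by
  have hm : Set.MapsTo (ContinuousMap.id (Yc × I)) (cyl Bc) (susB Bc) := fun _ hy => Or.inl hy
  have hm' : Set.MapsTo (ContinuousMap.id (Yc × I)) (cyl Sc) (cyl Sc) := fun _ hy => hy
  let h' : GF (cyl Bc) (cyl Sc) ι := pull (ContinuousMap.id (Yc × I)) hm hm' ι h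
  have h0 : ev 0 h' = 1 := by
    apply gf_ext; intro y
    exact h.2.1 (y, 0) (Or.inr (Or.inl rfl))
  obtain ⟨H, H0, H1⟩ := hep E h' h0
  have H2 : ∀ x t, H.1.1 (i x, t) = h.1.1 (x, t) := by
    intro x t
    have := congrArg (fun f : GF (cyl Bc) (cyl Sc) ι => f.1.1 (x, t)) H1
    exact this
  refine ⟨⟨(ev 1 H).1, ?_, (ev 1 H).2.2⟩, H, ?_, H2, fun _ => rfl⟩
  · intro y hy
    rcases (E.hr y).1 hy with hy | ⟨x, rfl⟩
    · exact (ev 1 H).2.1 y hy
    · change H.1.1 (i x, 1) = 1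
      rw [H2]
      exact h.2.1 (x, 1) (Or.inr (Or.inr rfl))
  · intro y
    exact congrArg (fun f : GF Bd Sd ι => f.1.1 y) H0

namespace Delta_aux

theorem gf_inv_eq_one {Y : Type} [TopologicalSpace Y] {B S : Set Y} {ι : Type} [Fintype ι]
    [DecidableEq ι] {g : GF B S ι} {y : Y} (h : g.1.1 y = 1) : (g⁻¹).1.1 y = 1 := by
  have := gf_inv_mul g y
  rwa [h, mul_one] at this

theorem gf_inv_congr {Y Y' : Type} [TopologicalSpace Y] [TopologicalSpace Y'] {B S : Set Y}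
    {B' S' : Set Y'} {ι : Type} [Fintype ι]
    [DecidableEq ι] {g : GF B S ι} {g' : GF B' S' ι} {y : Y} {y' : Y'}
    (h : g.1.1 y = g'.1.1 y') : (g⁻¹).1.1 y = (g'⁻¹).1.1 y' := by
  rw [gf_inv, gf_inv, h]

theorem isEnd_mul {E : CEmb Bc Sc Bd Sd Br i} {ι : Type} [Fintype ι] [DecidableEq ι]
    {h h' : GF (susB Bc) (cyl Sc) ι} {g g' : GF Br Sd ι} (H : IsEnd E h g) (H' : IsEnd E h' g') :
    IsEnd E (h * h') (g * g') := by
  obtain ⟨K, K0, K1, K2⟩ := H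
  obtain ⟨K', K0', K1', K2'⟩ := H'
  refine ⟨K * K', ?_, ?_, ?_⟩
  · intro y
    rw [gf_mul, K0, K0', one_mul]
  · intro x t
    rw [gf_mul, gf_mul, K1, K1']
  · intro y
    rw [gf_mul, gf_mul, K2, K2']

theorem isEnd_one {E : CEmb Bc Sc Bd Sd Br i} {ι : Type} [Fintype ι] [DecidableEq ι] :
    IsEnd E (1 : GF (susB Bc) (cyl Sc) ι) (1 : GF Br Sd ι) :=
  ⟨1, fun _ => gf_one _, fun _ _ => by rw [gf_one, gf_one], fun _ => by rw [gf_one, gf_one]⟩

theorem isEnd_gsum {E : CEmb Bc Sc Bd Sd Br i} {ι κ : Type} [Fintype ι] [DecidableEq ι]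
    [Fintype κ] [DecidableEq κ]
    {h : GF (susB Bc) (cyl Sc) ι} {h' : GF (susB Bc) (cyl Sc) κ} {g : GF Br Sd ι} {g' : GF Br Sd κ}
    (H : IsEnd E h g) (H' : IsEnd E h' g') : IsEnd E (gsum h h') (gsum g g') := by
  obtain ⟨K, K0, K1, K2⟩ := H
  obtain ⟨K', K0', K1', K2'⟩ := H'
  refine ⟨gsum K K', ?_, ?_, ?_⟩
  · intro y
    change Matrix.fromBlocks (K.1.1 (y, 0)) 0 0 (K'.1.1 (y, 0)) = 1
    rw [K0, K0', Matrix.fromBlocks_one]
  · intro x t
    change Matrix.fromBlocks (K.1.1 (i x, t)) 0 0 (K'.1.1 (i x, t)) =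
      Matrix.fromBlocks (h.1.1 (x, t)) 0 0 (h'.1.1 (x, t))
    rw [K1, K1']
  · intro y
    change Matrix.fromBlocks (K.1.1 (y, 1)) 0 0 (K'.1.1 (y, 1)) =
      Matrix.fromBlocks (g.1.1 y) 0 0 (g'.1.1 y)
    rw [K2, K2']

theorem isEnd_greindex {E : CEmb Bc Sc Bd Sd Br i} {ι κ : Type} [Fintype ι] [DecidableEq ι]
    [Fintype κ] [DecidableEq κ] (e : ι ≃ κ)
    {h : GF (susB Bc) (cyl Sc) ι} {g : GF Br Sd ι}
    (H : IsEnd E h g) : IsEnd E (greindex e h) (greindex e g) := by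
  obtain ⟨K, K0, K1, K2⟩ := H
  refine ⟨greindex e K, ?_, ?_, ?_⟩
  · intro y
    change (K.1.1 (y, 0)).submatrix e.symm e.symm = 1
    rw [K0, Matrix.submatrix_one_equiv]
  · intro x t
    change (K.1.1 (i x, t)).submatrix e.symm e.symm = (h.1.1 (x, t)).submatrix e.symm e.symm
    rw [K1]
  · intro y
    change (K.1.1 (y, 1)).submatrix e.symm e.symm = (g.1.1 y).submatrix e.symm e.symm
    rw [K2]

/-- The class of the end value does not depend on the lift. -/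
theorem isEnd_unique {E : CEmb Bc Sc Bd Sd Br i} {ι : Type} [Fintype ι] [DecidableEq ι]
    {h : GF (susB Bc) (cyl Sc) ι} {g g' : GF Br Sd ι} (H : IsEnd E h g) (H' : IsEnd E h g') :
    cl g = cl g' := by
  obtain ⟨K, K0, K1, K2⟩ := H
  obtain ⟨K', K0', K1', K2'⟩ := H'
  let N : GF (cyl Br) (cyl Sd) ι := ⟨(K * K'⁻¹).1, by
      rintro ⟨y, t⟩ hy
      change (K * K'⁻¹).1.1 (y, t) = 1
      rw [gf_mul]
      rcases (E.hr y).1 hy with hy | ⟨x, rfl⟩
      · rw [K.2.1 (y, t) hy, gf_inv_eq_one (K'.2.1 (y, t) hy), one_mul]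
      · rw [K1, ← K1', gf_mul_inv], (K * K'⁻¹).2.2⟩
  have hN : ∀ p, N.1.1 p = K.1.1 p * (K'⁻¹).1.1 p := fun p => gf_mul K K'⁻¹ p
  have e0 : ev 0 N = 1 := by
    apply gf_ext; intro y
    change N.1.1 (y, 0) = _
    rw [hN, K0, gf_inv_eq_one (K0' y), one_mul, gf_one]
  have e1 : ev 1 N = g * g'⁻¹ := by
    apply gf_ext; intro y
    change N.1.1 (y, 1) = _
    rw [hN, K2, gf_inv_congr (K2' y), gf_mul]
  have h1 := cl_homotopy N
  rw [e0, e1, cl_one, cl_mul, cl_inv] at h1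
  exact (sub_eq_zero.1 (by rw [sub_eq_add_neg]; exact h1.symm))

/-- `((x, r), t) ↦ ((x, t), r)` -/
def swapMap (Y : Type) [TopologicalSpace Y] : C((Y × I) × I, (Y × I) × I) :=
  ⟨fun p => ((p.1.1, p.2), p.1.2), by fun_prop⟩

/-- `(y, t) ↦ ((y, r), t)` -/
def insMap (Y : Type) [TopologicalSpace Y] (r : I) : C(Y × I, (Y × I) × I) :=
  ⟨fun p => ((p.1, r), p.2), by fun_prop⟩

theorem end_homotopy [CompactSpace Yc] [T2Space Yc] [CompactSpace Yd] [T2Space Yd]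
    {E : CEmb Bc Sc Bd Sd Br i} {ι : Type} [Fintype ι] [DecidableEq ι]
    (H : GF (cyl (susB Bc)) (cyl (cyl Sc)) ι) (h0 : ev 0 H = 1) {g : GF Br Sd ι}
    (hg : IsEnd E (ev 1 H) g) : cl g = 0 := by
  let h' : GF (susB (cyl Bc)) (cyl (cyl Sc)) ι := pull (swapMap Yc) (by
    rintro ⟨⟨x, r⟩, t⟩ hx
    exact hx) (fun _ hx => hx) ι H
  obtain ⟨g', G, G0, G1, G2⟩ := exists_isEnd E.cyl h'
  have key : ∀ r : I, IsEnd E (ev r H) (ev r g') := by
    intro r
    refine ⟨pull (insMap Yd r) (fun _ hx => hx) (fun _ hx => hx) ι G, ?_, ?_, ?_⟩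
    · intro y
      exact G0 (y, r)
    · intro x t
      exact G1 (x, r) t
    · intro y
      exact G2 (y, r)
  have k0 := key 0
  rw [h0] at k0
  rw [isEnd_unique hg (key 1), ← cl_homotopy g', isEnd_unique k0 isEnd_one, cl_one]

end Delta_aux

open Delta_aux

theorem exists_delta [CompactSpace Yc] [T2Space Yc] [CompactSpace Yd] [T2Space Yd]
    (E : CEmb Bc Sc Bd Sd Br i) :
    ∃ D : K1 (susB Bc) (cyl Sc) →+ K1 Br Sd, ∀ (ι : Type) [Fintype ι] [DecidableEq ι]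
      (h : GF (susB Bc) (cyl Sc) ι) (g : GF Br Sd ι), IsEnd E h g → D (cl h) = cl g := by
  obtain ⟨F, hF⟩ := exists_lift (B := susB Bc) (S := cyl Sc) (A := K1 Br Sd)
    (fun ι _ _ h => cl (exists_isEnd E h).choose)
    (fun ι _ _ g h => by
      rw [← cl_mul]
      exact isEnd_unique (exists_isEnd E (g * h)).choose_spec
        (isEnd_mul (exists_isEnd E g).choose_spec (exists_isEnd E h).choose_spec))
    (fun ι κ _ _ _ _ e g => by
      rw [← cl_greindex e (exists_isEnd E g).choose]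
      exact isEnd_unique (exists_isEnd E (greindex e g)).choose_spec
        (isEnd_greindex e (exists_isEnd E g).choose_spec))
    (fun ι κ _ _ _ _ g => by
      rw [← cl_gsum_one (κ := κ) (exists_isEnd E g).choose]
      exact isEnd_unique (exists_isEnd E (gsum g 1)).choose_spec
        (isEnd_gsum (exists_isEnd E g).choose_spec isEnd_one))
    (fun ι _ _ H h0 => end_homotopy H h0 (exists_isEnd E (ev 1 H)).choose_spec)
  refine ⟨F, fun ι _ _ h g hg => ?_⟩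
  rw [hF ι h]
  exact isEnd_unique (exists_isEnd E h).choose_spec hg

/-- The boundary homomorphism. -/
noncomputable def delta [CompactSpace Yc] [T2Space Yc] [CompactSpace Yd] [T2Space Yd]
    (E : CEmb Bc Sc Bd Sd Br i) : K1 (susB Bc) (cyl Sc) →+ K1 Br Sd := (exists_delta E).choose

theorem delta_cl [CompactSpace Yc] [T2Space Yc] [CompactSpace Yd] [T2Space Yd]
    (E : CEmb Bc Sc Bd Sd Br i) {ι : Type} [Fintype ι] [DecidableEq ι]
    {h : GF (susB Bc) (cyl Sc) ι} {g : GF Br Sd ι} (H : IsEnd E h g) : delta E (cl h) = cl g :=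
  (exists_delta E).choose_spec ι h g H

end Pool.QB.KTh
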