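import Pool.Agent.MP_c51823_gt.QB.KTh.DiscDef
import Pool.Agent.MP_c51823_gt.QB.KTh.Exact
import Pool.Agent.MP_c51823_gt.QB.KTh.Excis

/-!
# [QBK-D1] Square, disc and ray

* `sq_rh`: `sqM` is a relative homeomorphism `(I², ∂I²) → (D, S¹ ∪ ray)` times `Y`. (Points of `D` off the
  circle and off the ray `[0,1]` are uniquely `(1 - w) e^{2πit}` with `0 < w < 1`, `0 < t < 1`.)
* `ray_zero`: for `C = {p | p.1 ∈ B ∨ p.2 = 1}` on `Y × I` the groups `K1 C (cyl S)` and
  `K1 (susB C) (cyl (cyl S))` vanish: contract by `(y,t) ↦ (y, max t r)` (`kmap_homotopy`, at `r = 1` every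
  function becomes `1`).
* `forget_bijective`: exact sequence (`exact_rel`, `exact_abs`) of the closed embedding
  `Y × I → Y × D`, `(y,t) ↦ (y,t)`, with `Bd = discB B`, `Br = rayB B` and `ray_zero`.
-/

set_option autoImplicit false
open Topology

namespace Pool.QB.KTh

variable {Y : Type} [TopologicalSpace Y] [CompactSpace Y] [T2Space Y] {B S : Set Y}

namespace Disc1_aux

theorem zf_eq {t t' : I} (h : zf t = zf t') : ∃ n : ℤ, (t : ℝ) = t' + n := by
  unfold zf at h
  rw [Complex.exp_eq_exp_iff_exists_int] at h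
  obtain ⟨n, hn⟩ := h
  refine ⟨n, ?_⟩
  have h1 : (((t : ℝ)) : ℂ) = (((t' : ℝ)) : ℂ) + n := by
    apply mul_left_cancel₀ Complex.two_pi_I_ne_zero
    rw [hn]
    ring
  exact_mod_cast h1

theorem zf_eq_one {t : I} (h : zf t = 1) : t = 0 ∨ t = 1 := by
  rw [← zf_zero] at h
  obtain ⟨n, hn⟩ := zf_eq h
  have h0 : ((0 : I) : ℝ) = 0 := rfl
  rw [h0, zero_add] at hn
  have h1 := t.2.1
  have h2 := t.2.2
  have h3 : (0 : ℝ) ≤ n := by rw [← hn]; exact h1
  have h4 : (n : ℝ) ≤ 1 := by rw [← hn]; exact h2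
  have h5 : (0 : ℤ) ≤ n := by exact_mod_cast h3
  have h6 : n ≤ 1 := by exact_mod_cast h4
  have h7 : n = 0 ∨ n = 1 := by omega
  rcases h7 with h7 | h7
  · left
    apply Subtype.ext
    change (t : ℝ) = 0
    rw [hn, h7]
    simp
  · right
    apply Subtype.ext
    change (t : ℝ) = 1
    rw [hn, h7]
    simp

theorem zf_inj {t t' : I} (h : zf t = zf t') (h1 : t ≠ 0) (h2 : t ≠ 1) (h3 : t' ≠ 0)
    (h4 : t' ≠ 1) : t = t' := by
  obtain ⟨n, hn⟩ := zf_eq h
  have a0 : (0 : ℝ) < t := lt_of_le_of_ne t.2.1 (fun h => h1 (Subtype.ext h.symm))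
  have a1 : (t : ℝ) < 1 := lt_of_le_of_ne t.2.2 (fun h => h2 (Subtype.ext h))
  have b0 : (0 : ℝ) < t' := lt_of_le_of_ne t'.2.1 (fun h => h3 (Subtype.ext h.symm))
  have b1 : (t' : ℝ) < 1 := lt_of_le_of_ne t'.2.2 (fun h => h4 (Subtype.ext h))
  have c1 : (n : ℝ) < 1 := by linarith
  have c2 : (-1 : ℝ) < n := by linarith
  have c3 : n < 1 := by exact_mod_cast c1
  have c4 : -1 < n := by exact_mod_cast c2
  have c5 : n = 0 := by omega
  apply Subtype.ext
  rw [hn, c5]
  simp

theorem sq_surj (z : Disc) : ∃ w t : I, (((1 - (w : ℝ) : ℝ)) : ℂ) * zf t = z.1 := by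
  have hz := z.2
  have hn := norm_nonneg z.1
  refine ⟨⟨1 - ‖z.1‖, by linarith, by linarith⟩, ?_⟩
  have h1 : ((1 - (1 - ‖z.1‖) : ℝ) : ℂ) = ‖z.1‖ := by
    congr 1
    ring
  have hpi : (0 : ℝ) < 2 * Real.pi := by positivity
  have hpiC : (2 * Real.pi : ℂ) ≠ 0 := by exact_mod_cast hpi.ne'
  rcases le_or_gt 0 z.1.arg with ha | ha
  · refine ⟨⟨z.1.arg / (2 * Real.pi), by positivity, ?_⟩, ?_⟩
    · rw [div_le_one hpi]
      have := Complex.arg_le_pi z.1
      linarith [Real.pi_pos]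
    · simp only [h1]
      conv_rhs => rw [← Complex.norm_mul_exp_arg_mul_I z.1]
      congr 1
      unfold zf
      congr 1
      push_cast
      field_simp
  · refine ⟨⟨z.1.arg / (2 * Real.pi) + 1, ?_, ?_⟩, ?_⟩
    · have := Complex.neg_pi_lt_arg z.1
      have h2 : -1 ≤ z.1.arg / (2 * Real.pi) := by
        rw [le_div_iff₀ hpi]
        linarith [Real.pi_pos]
      linarith
    · have h2 : z.1.arg / (2 * Real.pi) ≤ 0 := by
        rw [div_le_iff₀ hpi]
        linarith
      linarith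
    · simp only [h1]
      conv_rhs => rw [← Complex.norm_mul_exp_arg_mul_I z.1]
      congr 1
      unfold zf
      conv_rhs => rw [← Complex.exp_periodic]
      congr 1
      push_cast
      field_simp

theorem sq_norm (w t : I) : ‖(((1 - (w : ℝ) : ℝ)) : ℂ) * zf t‖ = 1 - (w : ℝ) := by
  rw [norm_mul, norm_zf, mul_one, Complex.norm_real, Real.norm_eq_abs,
    abs_of_nonneg (by linarith [w.2.2])]

theorem isClosed_rayB {Y : Type} [TopologicalSpace Y] {B : Set Y} (hB : IsClosed B) :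
    IsClosed (rayB B) := by
  have h0 : Continuous fun p : Y × Disc => p.2.1 := continuous_subtype_val.comp continuous_snd
  have h1 : IsClosed {p : Y × Disc | ‖p.2.1‖ = 1} := isClosed_eq h0.norm continuous_const
  have h2 : IsClosed {p : Y × Disc | p.2.1 = ((‖p.2.1‖ : ℝ) : ℂ)} :=
    isClosed_eq h0 (Complex.continuous_ofReal.comp h0.norm)
  exact (hB.preimage continuous_fst).union (h1.union h2)

theorem isClosed_discB {Y : Type} [TopologicalSpace Y] {B : Set Y} (hB : IsClosed B) :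
    IsClosed (discB B) := by
  have h0 : Continuous fun p : Y × Disc => p.2.1 := continuous_subtype_val.comp continuous_snd
  have h1 : IsClosed {p : Y × Disc | ‖p.2.1‖ = 1} := isClosed_eq h0.norm continuous_const
  exact (hB.preimage continuous_fst).union h1

theorem sq_val {Y : Type} [TopologicalSpace Y] (p : (Y × I) × I) :
    (sqM Y p).2.1 = (((1 - (p.1.2 : ℝ) : ℝ)) : ℂ) * zf p.2 := rfl

theorem sq_fst {Y : Type} [TopologicalSpace Y] (p : (Y × I) × I) : (sqM Y p).1 = p.1.1 := rfl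

theorem sq_mB {Y : Type} [TopologicalSpace Y] (B : Set Y) :
    Set.MapsTo (sqM Y) (susB (susB B)) (rayB B) := by
  intro p hp
  have h0 : ∀ t : I, zf t = 1 → (((1 - (p.1.2 : ℝ) : ℝ)) : ℂ) * zf t =
      ((‖(((1 - (p.1.2 : ℝ) : ℝ)) : ℂ) * zf t‖ : ℝ) : ℂ) := by
    intro t ht
    rw [sq_norm, ht, mul_one]
  rcases hp with (hp | hp | hp) | hp | hp
  · exact Or.inl hp
  · refine Or.inr (Or.inl ?_)
    rw [sq_val, sq_norm, hp]
    simp
  · refine Or.inr (Or.inr ?_)
    rw [sq_val, hp]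
    simp
  · refine Or.inr (Or.inr ?_)
    rw [sq_val]
    exact h0 _ (by rw [hp, zf_zero])
  · refine Or.inr (Or.inr ?_)
    rw [sq_val]
    exact h0 _ (by rw [hp, zf_one])

theorem sq_refl {Y : Type} [TopologicalSpace Y] (B : Set Y) (p : (Y × I) × I)
    (h : sqM Y p ∈ rayB B) : p ∈ susB (susB B) := by
  rcases h with h | h | h
  · exact Or.inl (Or.inl h)
  · rw [sq_val, sq_norm] at h
    refine Or.inl (Or.inr (Or.inl ?_))
    apply Subtype.ext
    change (p.1.2 : ℝ) = 0
    linarith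
  · rw [sq_val, sq_norm] at h
    by_cases hw : p.1.2 = 1
    · exact Or.inl (Or.inr (Or.inr hw))
    · have h1 : (((1 - (p.1.2 : ℝ) : ℝ)) : ℂ) ≠ 0 := by
        intro h2
        apply hw
        have h3 : (1 - (p.1.2 : ℝ) : ℝ) = 0 := by exact_mod_cast h2
        apply Subtype.ext
        change (p.1.2 : ℝ) = 1
        linarith
      have h2 : zf p.2 = 1 := mul_left_cancel₀ h1 (by rw [h, mul_one])
      exact Or.inr (zf_eq_one h2)

/-- contractible pairs -/
theorem zero_of_contract {X : Type} [TopologicalSpace X] {C D : Set X} (F : C(X × I, X))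
    (hC : Set.MapsTo F (cyl C) C) (hD : Set.MapsTo F (cyl D) D) (h0 : ∀ x, F (x, 0) = x)
    (h1 : ∀ x, F (x, 1) ∈ C) (x : K1 C D) : x = 0 := by
  have hm : Set.MapsTo (F.comp (atMap X 1)) C C := fun y hy => hC (show (y, (1 : I)) ∈ cyl C from hy)
  have hm' : Set.MapsTo (F.comp (atMap X 1)) D D :=
    fun y hy => hD (show (y, (1 : I)) ∈ cyl D from hy)
  have e1 := kmap_homotopy F hC hD (ContinuousMap.id X) (F.comp (atMap X 1)) h0 (fun _ => rfl)
    (fun _ h => h) (fun _ h => h) hm hm' x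
  refine (kmap_id _ _ x).symm.trans (e1.trans ?_)
  obtain ⟨n, g, rfl⟩ := exists_cl x
  rw [kmap_cl]
  have e2 : pull (F.comp (atMap X 1)) hm hm' (Fin n) g = 1 := by
    apply gf_ext
    intro y
    rw [gf_one]
    exact g.2.1 _ (h1 y)
  rw [e2, cl_one]

/-- `(y, t) ↦ (y, t)` -/
def rayI (Y : Type) [TopologicalSpace Y] : C(Y × I, Y × Disc) :=
  ⟨fun p => (p.1, ⟨((p.2 : ℝ) : ℂ), by
      rw [Complex.norm_real, Real.norm_eq_abs, abs_of_nonneg p.2.2.1]
      exact p.2.2.2⟩), by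
    refine continuous_fst.prodMk (Continuous.subtype_mk ?_ _)
    exact Complex.continuous_ofReal.comp (continuous_subtype_val.comp continuous_snd)⟩

theorem ray_val {Y : Type} [TopologicalSpace Y] (p : Y × I) : (rayI Y p).2.1 = ((p.2 : ℝ) : ℂ) := rfl

theorem ray_norm (t : I) : ‖((t : ℝ) : ℂ)‖ = t := by
  rw [Complex.norm_real, Real.norm_eq_abs, abs_of_nonneg t.2.1]

theorem ray_emb {Y : Type} [TopologicalSpace Y] {B S : Set Y} (hB : IsClosed B) (hS : IsClosed S) :
    CEmb {p : Y × I | p.1 ∈ B ∨ p.2 = 1} (cyl S) (discB B) (prZ S Disc) (rayB B) (rayI Y) where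
  inj := by
    rintro ⟨y, t⟩ ⟨y', t'⟩ h
    have h1 : y = y' := congrArg Prod.fst h
    have h2 : ((t : ℝ) : ℂ) = ((t' : ℝ) : ℂ) := congrArg (fun q : Y × Disc => q.2.1) h
    have h3 : (t : ℝ) = t' := by exact_mod_cast h2
    rw [h1, Subtype.ext h3]
  hB := by
    rintro ⟨y, t⟩
    have h1 : ‖(rayI Y (y, t)).2.1‖ = 1 ↔ t = 1 := by
      rw [ray_val, ray_norm]
      constructor
      · intro h
        exact Subtype.ext h
      · intro h
        change (t : ℝ) = 1
        rw [h]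
        rfl
    change (y ∈ B ∨ ‖(rayI Y (y, t)).2.1‖ = 1) ↔ (y ∈ B ∨ t = 1)
    rw [h1]
  hS := fun _ => Iff.rfl
  hr := by
    rintro ⟨y, z⟩
    constructor
    · rintro (h | h | h)
      · exact Or.inl (Or.inl h)
      · exact Or.inl (Or.inr h)
      · refine Or.inr ⟨(y, ⟨‖z.1‖, norm_nonneg _, z.2⟩), ?_⟩
        refine Prod.ext rfl (Subtype.ext ?_)
        exact h.symm
    · rintro ((h | h) | ⟨⟨y', t⟩, h⟩)
      · exact Or.inl h
      · exact Or.inr (Or.inl h)
      · rw [← h]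
        refine Or.inr (Or.inr ?_)
        rw [ray_val, ray_norm]
  closedB := isClosed_discB hB
  closedS := hS.preimage continuous_fst

end Disc1_aux

open Disc1_aux

theorem sq_rh (hB : IsClosed B) :
    RH (susB (susB B)) (cyl (cyl S)) (rayB B) (prZ S Disc) (sqM Y) where
  closedB := isClosed_rayB hB
  mB := sq_mB B
  mS := fun _ h => h
  refl := fun p h => sq_refl B p h
  bij := by
    refine ⟨fun p hp hp' => hp (sq_refl B p hp'), ?_, ?_⟩
    · rintro ⟨⟨y, w⟩, t⟩ hp ⟨⟨y', w'⟩, t'⟩ hp' h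
      have h1 : y = y' := congrArg Prod.fst h
      have h2 : (((1 - (w : ℝ) : ℝ)) : ℂ) * zf t = (((1 - (w' : ℝ) : ℝ)) : ℂ) * zf t' :=
        congrArg (fun q : Y × Disc => q.2.1) h
      have h3 := congrArg (fun z : ℂ => ‖z‖) h2
      simp only [sq_norm] at h3
      have h4 : (w : ℝ) = w' := by linarith
      have h5 : w = w' := Subtype.ext h4
      subst h1
      subst h5
      have hw : (((1 - (w : ℝ) : ℝ)) : ℂ) ≠ 0 := by
        intro h6
        apply hp
        refine Or.inl (Or.inr (Or.inr ?_))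
        have h7 : (1 - (w : ℝ) : ℝ) = 0 := by exact_mod_cast h6
        apply Subtype.ext
        change (w : ℝ) = 1
        linarith
      have h8 : zf t = zf t' := mul_left_cancel₀ hw h2
      have h9 := zf_inj h8 (fun e => hp (Or.inr (Or.inl e))) (fun e => hp (Or.inr (Or.inr e)))
        (fun e => hp' (Or.inr (Or.inl e))) (fun e => hp' (Or.inr (Or.inr e)))
      rw [h9]
    · rintro ⟨y, z⟩ hz
      obtain ⟨w, t, hwt⟩ := sq_surj z
      have h1 : sqM Y ((y, w), t) = (y, z) := Prod.ext rfl (Subtype.ext hwt)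
      refine ⟨((y, w), t), fun hp => hz ?_, h1⟩
      rw [← h1]
      exact sq_mB B hp
  hS := fun _ h => Or.inr h

theorem ray_zero (x : K1 {p : Y × I | p.1 ∈ B ∨ p.2 = 1} (cyl S)) : x = 0 := by
  refine zero_of_contract ⟨fun p : (Y × I) × I => (p.1.1, max p.1.2 p.2), by fun_prop⟩ ?_ ?_ ?_ ?_ x
  · rintro ⟨⟨y, t⟩, r⟩ (h | h)
    · exact Or.inl h
    · change t = 1 at h
      refine Or.inr ?_
      change max t r = 1
      rw [h]
      exact max_eq_left le_top
  · intro p h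
    exact h
  · rintro ⟨y, t⟩
    change (y, max t 0) = (y, t)
    rw [max_eq_left unitInterval.nonneg']
  · rintro ⟨y, t⟩
    refine Or.inr ?_
    change max t 1 = 1
    exact max_eq_right le_top

theorem ray_zero' (x : K1 (susB {p : Y × I | p.1 ∈ B ∨ p.2 = 1}) (cyl (cyl S))) : x = 0 := by
  refine zero_of_contract
    ⟨fun p : ((Y × I) × I) × I => ((p.1.1.1, max p.1.1.2 p.2), p.1.2), by fun_prop⟩ ?_ ?_ ?_ ?_ x
  · rintro ⟨⟨⟨y, t⟩, s⟩, r⟩ ((h | h) | h | h)
    · exact Or.inl (Or.inl h)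
    · change t = 1 at h
      refine Or.inl (Or.inr ?_)
      change max t r = 1
      rw [h]
      exact max_eq_left le_top
    · exact Or.inr (Or.inl h)
    · exact Or.inr (Or.inr h)
  · intro p h
    exact h
  · rintro ⟨⟨y, t⟩, s⟩
    change ((y, max t 0), s) = ((y, t), s)
    rw [max_eq_left unitInterval.nonneg']
  · rintro ⟨⟨y, t⟩, s⟩
    refine Or.inl (Or.inr ?_)
    change max t 1 = 1
    exact max_eq_right le_top

theorem ray_mapsTo (B : Set Y) : Set.MapsTo (ContinuousMap.id (Y × Disc)) (discB B) (rayB B) := by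
  rintro p (h | h)
  · exact Or.inl h
  · exact Or.inr (Or.inl h)

theorem forget_bijective (hB : IsClosed B) (hS : IsClosed S) :
    Function.Bijective (kmap (ContinuousMap.id (Y × Disc)) (ray_mapsTo B) (fun _ h => h) :
      K1 (rayB B) (prZ S Disc) →+ K1 (discB B) (prZ S Disc)) := by
  have E := ray_emb hB hS
  constructor
  · rw [injective_iff_map_eq_zero]
    intro x hx
    obtain ⟨y, rfl⟩ := (exact_rel E x).1 hx
    rw [ray_zero' y, map_zero]
  · intro x
    exact (exact_abs E x).1 (ray_zero _)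

end Pool.QB.KTh
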