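import Pool.Agent.MP_c51823_gt.QB.KTh.Disc1
import Pool.Agent.MP_c51823_gt.QB.KTh.Cls3

/-!
# [QBK-D2] Comparison of the disc and the square version of the Bott homomorphism

`x = cl g` (`exists_cl`). `b := grel (bet ∘ snd) (E₀) (pr g)` represents `bD x`,
`b(y,z) = actM (bet z) (g y) * (actM E₀ (g y))⁻¹`. The function `b₁(y,z) = b(y,|z|)` is the pull-back of a
function on `(Y × I, {y ∈ B or t = 1})`, so its class in `K1 (discB B)` is `0` (`ray_zero`).
`b' = b b₁⁻¹` is `1` on `rayB B`: it is the element asked for, `forget (cl b') = cl b = bD x`.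
`betV ((1-w) z) = diag(z,1) (betV (1-w))` for `|z| = 1`, so `bet ((1-w)z) = σ' bet(1-w) σ'⁻¹`,
`σ' = diag(z,1)`, and with `σ = σ' ⊗ 1 = ploop (dg T) z` on `Fin 2 × ι`, `T = {0} × ι`, which commutes with
`actM E₀ (g y)`: `b'(y,(1-w)z) = σ q(y,w) σ⁻¹ q(y,w)⁻¹`, `q(y,w) = b(y,1-w)`; `q(y,0) = 1`,
`q(y,1) = b(y,0)` is `g⁻¹` on `{0} × ι`, `g` on `{1} × ι`. So `b' ∘ sqM` is the inverse of `ccl T q`, and by
`ccl_eq_bott` its class is `-(bott (cl (cutM T q₁))) = - bott (- cl g) = bott x` (`cutM T q₁` is `g⁻¹` on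
`{0} × ι` and `1` on `{1} × ι`; `cl_blocks`).
-/

set_option autoImplicit false
open Topology

namespace Pool.QB.KTh

namespace Disc2_aux

variable {Y : Type} [TopologicalSpace Y] {B S : Set Y}

/-- `(y,z) ↦ (y,|z|)` -/
noncomputable def rho (Y : Type) [TopologicalSpace Y] : C(Y × Disc, Y × I) :=
  ⟨fun p => (p.1, ⟨‖p.2.1‖, norm_nonneg _, p.2.2⟩), by
    refine continuous_fst.prodMk (Continuous.subtype_mk ?_ _)
    fun_prop⟩

/-- `(y,t) ↦ (y,t)` -/
noncomputable def emb (Y : Type) [TopologicalSpace Y] : C(Y × I, Y × Disc) :=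
  ⟨fun p => (p.1, ⟨((p.2 : ℝ) : ℂ), by
      rw [Complex.norm_real, Real.norm_eq_abs, abs_of_nonneg p.2.2.1]
      exact p.2.2.2⟩), by
    refine continuous_fst.prodMk (Continuous.subtype_mk ?_ _)
    fun_prop⟩

/-- `(y,w) ↦ (y,1-w)` -/
noncomputable def flp (Y : Type) [TopologicalSpace Y] : C(Y × I, Y × I) :=
  ⟨fun p => (p.1, unitInterval.symm p.2), by fun_prop⟩

theorem vl_conj {m : Type} [Fintype m] (u v : m → ℂ)
    (hu : ∀ i, u i * (starRingEnd ℂ) (u i) = 1) (i j : m) :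
    vl (fun k => u k * v k) i j = u i * vl v i j * (starRingEnd ℂ) (u j) := by
  change u i * v i * (starRingEnd ℂ) (u j * v j) /
      (∑ k, u k * v k * (starRingEnd ℂ) (u k * v k)) =
    u i * (v i * (starRingEnd ℂ) (v j) / ∑ k, v k * (starRingEnd ℂ) (v k)) *
      (starRingEnd ℂ) (u j)
  have h1 : ∀ k, u k * v k * (starRingEnd ℂ) (u k * v k) = v k * (starRingEnd ℂ) (v k) := by
    intro k
    rw [map_mul]
    calc u k * v k * ((starRingEnd ℂ) (u k) * (starRingEnd ℂ) (v k))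
        = u k * (starRingEnd ℂ) (u k) * (v k * (starRingEnd ℂ) (v k)) := by ring
      _ = _ := by rw [hu, one_mul]
  rw [Finset.sum_congr rfl fun k _ => h1 k, map_mul]
  ring

theorem betV_mul (w : I) (z : ℂ) (hz : ‖z‖ = 1) :
    betV (((1 - (w : ℝ) : ℝ) : ℂ) * z) =
      fun i => (![z, 1] : Fin 2 → ℂ) i * betV (((1 - (w : ℝ) : ℝ) : ℂ)) i := by
  ext i
  fin_cases i
  · simp [betV, mul_comm]
  · simp [betV, hz]

theorem ploop_mul_apply {ν : Type} [Fintype ν] [DecidableEq ν] (T : Finset ν) (z : ℂ)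
    (M : Matrix ν ν R) (p q : ν) :
    (ploop (dg T) z * M) p q = (if p ∈ T then z else 1) • M p q := by
  unfold ploop dg
  rw [add_mul, sub_mul, Matrix.smul_mul, one_mul, Matrix.add_apply, Matrix.smul_apply,
    Matrix.sub_apply, Matrix.diagonal_mul]
  split_ifs <;> simp

theorem mul_ploop_apply {ν : Type} [Fintype ν] [DecidableEq ν] (T : Finset ν) (z : ℂ)
    (M : Matrix ν ν R) (p q : ν) :
    (M * ploop (dg T) z) p q = (if q ∈ T then z else 1) • M p q := by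
  unfold ploop dg
  rw [mul_add, mul_sub, Matrix.mul_smul, mul_one, Matrix.add_apply, Matrix.smul_apply,
    Matrix.sub_apply, Matrix.mul_diagonal]
  split_ifs <;> simp

/-- the set `{0} × ι` -/
def T0 (ι : Type) [Fintype ι] [DecidableEq ι] : Finset (Fin 2 × ι) :=
  Finset.univ.filter fun p => p.1 = 0

theorem mem_T0 {ι : Type} [Fintype ι] [DecidableEq ι] (p : Fin 2 × ι) :
    p ∈ T0 ι ↔ p.1 = 0 := by
  simp [T0]

theorem u_eq (z : ℂ) (i : Fin 2) : (![z, 1] : Fin 2 → ℂ) i = if i = 0 then z else 1 := by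
  fin_cases i <;> simp

theorem act_twist {ι : Type} [Fintype ι] [DecidableEq ι] (e e' : Matrix (Fin 2) (Fin 2) ℂ) (z : ℂ)
    (h : ∀ i j, (if j = 0 then z else 1) * e' i j = (if i = 0 then z else 1) * e i j)
    (a : Matrix ι ι R) :
    actM e' a * ploop (dg (T0 ι)) z = ploop (dg (T0 ι)) z * actM e a := by
  apply Matrix.ext
  intro p q
  rw [mul_ploop_apply, ploop_mul_apply]
  simp only [mem_T0]
  unfold actM kr
  rw [Matrix.add_apply, Matrix.add_apply, Matrix.of_apply, Matrix.of_apply, Matrix.of_apply,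
    Matrix.of_apply, smul_add, smul_add, smul_smul, smul_smul, smul_smul, smul_smul, h]
  congr 2
  rw [Matrix.sub_apply, Matrix.sub_apply, mul_sub, mul_sub, h]
  congr 1
  by_cases hpq : p.1 = q.1
  · rw [hpq]
  · rw [Matrix.one_apply_ne hpq, mul_zero, mul_zero]

theorem bet_twist (w : I) (z : ℂ) (hz : ‖z‖ = 1) (i j : Fin 2) :
    (if j = 0 then z else 1) * vl (betV (((1 - (w : ℝ) : ℝ) : ℂ) * z)) i j =
      (if i = 0 then z else 1) * vl (betV (((1 - (w : ℝ) : ℝ) : ℂ))) i j := by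
  have hu : ∀ i, (![z, 1] : Fin 2 → ℂ) i * (starRingEnd ℂ) ((![z, 1] : Fin 2 → ℂ) i) = 1 := by
    intro i
    fin_cases i
    · change z * (starRingEnd ℂ) z = 1
      rw [Complex.mul_conj, Complex.normSq_eq_norm_sq, hz]
      norm_num
    · simp
  rw [betV_mul w z hz, vl_conj _ _ hu, ← u_eq, ← u_eq]
  calc (![z, 1] : Fin 2 → ℂ) j * ((![z, 1] : Fin 2 → ℂ) i * vl (betV _) i j *
        (starRingEnd ℂ) ((![z, 1] : Fin 2 → ℂ) j))
      = (![z, 1] : Fin 2 → ℂ) i * vl (betV _) i j *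
        ((![z, 1] : Fin 2 → ℂ) j * (starRingEnd ℂ) ((![z, 1] : Fin 2 → ℂ) j)) := by ring
    _ = _ := by rw [hu, mul_one]

theorem Ek_twist (z : ℂ) (i j : Fin 2) :
    (if j = 0 then z else 1) * (Ek (0 : Fin 2)) i j = (if i = 0 then z else 1) * (Ek (0 : Fin 2)) i j := by
  fin_cases i <;> fin_cases j <;> simp [Ek]

theorem ccl_apply {ν : Type} [Fintype ν] [DecidableEq ν] (T : Finset ν)
    (u : GF (startB B) (cyl S) ν) (hu : ∀ y, u.1.1 (y, 1) * dg T = dg T * u.1.1 (y, 1))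
    (p : (Y × I) × I) : (ccl T u hu).1.1 p * ploop (dg T) (zf p.2) =
      u.1.1 p.1 * ploop (dg T) (zf p.2) * (u⁻¹).1.1 p.1 := by
  change (up u * sig (Y × I) (cyl S) T * (up u)⁻¹ * (sig (Y × I) (cyl S) T)⁻¹).1.1 p * _ = _
  rw [← sig_apply (S := cyl S) T p, gf_mul, gf_mul, gf_mul, mul_assoc, gf_inv_mul, mul_one,
    up_apply, gf_inv (up u), up_apply, ← gf_inv u]

theorem bet_zero (z : Disc) (hz : z.1 = 0) : bet z = Ek 1 := by
  change vl (betV z.1) = _
  rw [hz]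
  ext i j
  change betV 0 i * (starRingEnd ℂ) (betV 0 j) / ∑ k, betV 0 k * (starRingEnd ℂ) (betV 0 k) = _
  rw [Fin.sum_univ_two]
  fin_cases i <;> fin_cases j <;> simp [betV, Ek, Matrix.single]

section blk

variable {ι : Type} [Fintype ι] [DecidableEq ι]

/-- block diagonal matrices -/
def blk (f : Fin 2 → Matrix ι ι R) : Matrix (Fin 2 × ι) (Fin 2 × ι) R :=
  Matrix.of fun p q => if p.1 = q.1 then f p.1 p.2 q.2 else 0

omit [Fintype ι] [DecidableEq ι] in
theorem blk_apply (f : Fin 2 → Matrix ι ι R) (p q : Fin 2 × ι) :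
    blk f p q = if p.1 = q.1 then f p.1 p.2 q.2 else 0 := rfl

omit [DecidableEq ι] in
theorem blk_mul (f f' : Fin 2 → Matrix ι ι R) : blk f * blk f' = blk (fun i => f i * f' i) := by
  apply Matrix.ext
  intro p q
  rw [Matrix.mul_apply, Fintype.sum_prod_type]
  simp only [blk_apply]
  rw [Finset.sum_eq_single p.1]
  · by_cases h : p.1 = q.1
    · simp only [h, if_true, Matrix.mul_apply]
    · simp only [h, if_true, if_false, mul_zero, Finset.sum_const_zero]
  · intro b _ hb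
    apply Finset.sum_eq_zero
    intro c _
    rw [if_neg (Ne.symm hb), zero_mul]
  · intro h
    exact absurd (Finset.mem_univ _) h

theorem blk_comm (f : Fin 2 → Matrix ι ι R) : blk f * dg (T0 ι) = dg (T0 ι) * blk f := by
  apply Matrix.ext
  intro p q
  unfold dg
  rw [Matrix.mul_diagonal, Matrix.diagonal_mul, blk_apply]
  simp only [mem_T0]
  by_cases h : p.1 = q.1
  · rw [h]
    split_ifs <;> simp
  · simp [h]

theorem act_Ek (k : Fin 2) (a : Matrix ι ι R) :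
    actM (Ek k) a = blk (fun i => if i = k then a else 1) := by
  apply Matrix.ext
  intro p q
  rw [blk_apply]
  unfold actM kr Ek
  rw [Matrix.add_apply, Matrix.of_apply, Matrix.of_apply, Matrix.sub_apply, Matrix.single_apply,
    Matrix.one_apply]
  by_cases h : p.1 = q.1
  · rw [← h]
    by_cases h2 : p.1 = k
    · simp [h2]
    · simp [h2, Ne.symm h2]
  · by_cases h2 : k = p.1
    · have h3 : ¬ (k = q.1) := fun h4 => h (h2.symm.trans h4)
      simp [h, h3]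
    · simp [h, h2]

theorem cut_blk (f : Fin 2 → Matrix ι ι R) :
    cutM (T0 ι) (blk f) = blk (fun i => if i = 0 then f i else 1) := by
  apply Matrix.ext
  intro p q
  unfold cutM dg
  rw [Matrix.add_apply, Matrix.mul_diagonal, Matrix.diagonal_mul, Matrix.sub_apply,
    Matrix.one_apply, Matrix.diagonal_apply, blk_apply, blk_apply]
  simp only [mem_T0]
  by_cases h : p.1 = q.1
  · by_cases h2 : q.1 = 0
    · by_cases h3 : p = q
      · simp [h2, h3]
      · simp [h, h2, h3]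
    · by_cases h3 : p = q
      · rw [h3]
        simp [h2]
      · have h4 : ¬ (p.2 = q.2) := fun h5 => h3 (Prod.ext h h5)
        simp [h, h2, h3, h4]
  · have h3 : ¬ (p = q) := fun h4 => h (by rw [h4])
    simp [h, h3]

end blk

end Disc2_aux

open Disc2_aux

theorem disc_square {Y : Type} [TopologicalSpace Y] [CompactSpace Y] [T2Space Y] {B S : Set Y}
    (hB : IsClosed B) (x : K1 B S) : ∃ x' : K1 (rayB B) (prZ S Disc),
      kmap (ContinuousMap.id (Y × Disc)) (ray_mapsTo B) (fun _ h => h) x' = bD B S x ∧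
      kmap (sqM Y) (sq_rh (S := S) hB).mB (sq_rh (S := S) hB).mS x' = bott B S x := by
  classical
  obtain ⟨n, g, rfl⟩ := exists_cl x
  -- the representative of `bD x`
  obtain ⟨b, hb, hbD⟩ : ∃ b : GF (discB B) (prZ S Disc) (Fin 2 × Fin n),
      (∀ p, b.1.1 p = actM (bet p.2) (g.1.1 p.1) * actM (Ek 0) ((g⁻¹).1.1 p.1)) ∧
      bD B S (cl g) = cl b := by
    refine ⟨grel (B := prZ B Disc) (bet.comp (sndM Y Disc))
      (ContinuousMap.const (Y × Disc) (Ek 0)) (fun _ => bet_idem _) (fun _ => Ek_idem 0)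
      (fun y hy => Or.imp_right (fun h => bet_bd _ h) hy)
      (pull (B := prZ B Disc) (S := prZ S Disc) (fstM Y Disc) (fun _ h => h) (fun _ h => h) _ g),
      fun p => rfl, ?_⟩
    have h1 : bD B S (cl g) = relD (B := prZ B Disc) (Br := discB B) (S := prZ S Disc)
        (sndM Y Disc) (fun _ h => h) (kmap (fstM Y Disc) (fun _ h => h) (fun _ h => h) (cl g)) :=
      rfl
    exact h1.trans ((congrArg _ (kmap_cl _ _ _ g)).trans (rel_cl _ _ _ _ _ _))
  -- the correction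
  have hrB : Set.MapsTo (rho Y) (discB B) {p : Y × I | p.1 ∈ B ∨ p.2 = 1} := by
    rintro p (hp | hp)
    · exact Or.inl hp
    · exact Or.inr (Subtype.ext hp)
  have hrS : Set.MapsTo (rho Y) (prZ S Disc) (cyl S) := fun _ h => h
  have heB : Set.MapsTo (emb Y) {p : Y × I | p.1 ∈ B ∨ p.2 = 1} (discB B) := by
    rintro p (hp | hp)
    · exact Or.inl hp
    · refine Or.inr ?_
      change ‖((p.2 : ℝ) : ℂ)‖ = 1
      rw [hp]
      simp
  have heS : Set.MapsTo (emb Y) (cyl S) (prZ S Disc) := fun _ h => h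
  obtain ⟨b1, hb1, hb1c⟩ : ∃ b1 : GF (discB B) (prZ S Disc) (Fin 2 × Fin n),
      (∀ p, b1.1.1 p = b.1.1 (emb Y (rho Y p))) ∧ cl b1 = 0 := by
    refine ⟨pull (rho Y) hrB hrS _ (pull (emb Y) heB heS _ b), fun p => rfl, ?_⟩
    rw [← kmap_cl, ray_zero (cl (pull (emb Y) heB heS _ b)), map_zero]
  -- `b'`
  have hb'1 : ∀ p ∈ rayB B, (b * b1⁻¹).1.1 p = 1 := by
    rintro p (hp | hp | hp)
    · rw [gf_mul, b.2.1 p (Or.inl hp), (b1⁻¹).2.1 p (Or.inl hp), one_mul]
    · rw [gf_mul, b.2.1 p (Or.inr hp), (b1⁻¹).2.1 p (Or.inr hp), one_mul]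
    · have h1 : emb Y (rho Y p) = p := Prod.ext rfl (Subtype.ext hp.symm)
      have h2 := hb1 p
      rw [h1] at h2
      rw [gf_mul, ← h2, gf_mul_inv]
  obtain ⟨b', hb'⟩ : ∃ b' : GF (rayB B) (prZ S Disc) (Fin 2 × Fin n),
      ∀ p, b'.1.1 p = b.1.1 p * (b1⁻¹).1.1 p :=
    ⟨⟨(b * b1⁻¹).1, hb'1, (b * b1⁻¹).2.2⟩, fun p => rfl⟩
  refine ⟨cl b', ?_, ?_⟩
  · refine (kmap_cl _ _ _ b').trans ?_
    have h1 : pull (ContinuousMap.id (Y × Disc)) (ray_mapsTo B)
        (fun _ h => h : Set.MapsTo (ContinuousMap.id (Y × Disc)) (prZ S Disc) (prZ S Disc)) _ b' =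
        b * b1⁻¹ := by
      refine gf_ext fun p => ?_
      rw [gf_mul]
      exact hb' p
    refine (congrArg cl h1).trans ?_
    rw [cl_mul, cl_inv, hb1c, neg_zero, add_zero, hbD]
  -- the square
  have hfB : Set.MapsTo (flp Y) (startB B) {p : Y × I | p.1 ∈ B ∨ p.2 = 1} := by
    rintro p (hp | hp)
    · exact Or.inl hp
    · refine Or.inr ?_
      change unitInterval.symm p.2 = 1
      rw [hp, unitInterval.symm_zero]
  have hfS : Set.MapsTo (flp Y) (cyl S) (cyl S) := fun _ h => h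
  obtain ⟨q, hq⟩ : ∃ q : GF (startB B) (cyl S) (Fin 2 × Fin n),
      ∀ p, q.1.1 p = b.1.1 (emb Y (flp Y p)) :=
    ⟨pull (flp Y) hfB hfS _ (pull (emb Y) heB heS _ b), fun p => rfl⟩
  have hE0 : ∀ (z : ℂ) (a : Matrix (Fin n) (Fin n) R),
      actM (Ek 0) a * ploop (dg (T0 (Fin n))) z = ploop (dg (T0 (Fin n))) z * actM (Ek 0) a :=
    fun z a => act_twist _ _ z (Ek_twist z) a
  -- `b_z σ = σ q`
  have hbz : ∀ p : (Y × I) × I, b.1.1 (sqM Y p) * ploop (dg (T0 (Fin n))) (zf p.2) =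
      ploop (dg (T0 (Fin n))) (zf p.2) * q.1.1 p.1 := by
    intro p
    have h1 : actM (bet (sqM Y p).2) (g.1.1 p.1.1) * ploop (dg (T0 (Fin n))) (zf p.2) =
        ploop (dg (T0 (Fin n))) (zf p.2) * actM (bet (emb Y (flp Y p.1)).2) (g.1.1 p.1.1) :=
      act_twist _ _ _ (bet_twist p.1.2 (zf p.2) (norm_zf p.2)) _
    rw [hq, hb, hb, mul_assoc]
    change actM (bet (sqM Y p).2) (g.1.1 p.1.1) * (actM (Ek 0) ((g⁻¹).1.1 p.1.1) *
      ploop (dg (T0 (Fin n))) (zf p.2)) = ploop (dg (T0 (Fin n))) (zf p.2) *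
      (actM (bet (emb Y (flp Y p.1)).2) (g.1.1 p.1.1) * actM (Ek 0) ((g⁻¹).1.1 p.1.1))
    rw [hE0, ← mul_assoc, h1, mul_assoc]
  have hb1z : ∀ p : (Y × I) × I, b1.1.1 (sqM Y p) = q.1.1 p.1 := by
    intro p
    rw [hb1, hq]
    congr 1
    refine Prod.ext rfl (Subtype.ext ?_)
    change ((‖((1 - (p.1.2 : ℝ) : ℝ) : ℂ) * zf p.2‖ : ℝ) : ℂ) = (((1 - (p.1.2 : ℝ) : ℝ)) : ℂ)
    rw [norm_mul, norm_zf, mul_one, Complex.norm_real, Real.norm_eq_abs,
      abs_of_nonneg (by linarith [p.1.2.2.2])]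
  -- the end point of `q`
  have hq1 : ∀ y, q.1.1 (y, 1) = actM (Ek 1) (g.1.1 y) * actM (Ek 0) ((g⁻¹).1.1 y) := by
    intro y
    rw [hq, hb]
    have h1 : bet (emb Y (flp Y (y, 1))).2 = Ek 1 := by
      refine bet_zero _ ?_
      change ((((unitInterval.symm 1 : I) : ℝ)) : ℂ) = 0
      rw [unitInterval.symm_one]
      simp
    rw [h1]
    rfl
  have hcom : ∀ y, q.1.1 (y, 1) * dg (T0 (Fin n)) = dg (T0 (Fin n)) * q.1.1 (y, 1) := by
    intro y
    rw [hq1, act_Ek, act_Ek, blk_mul, blk_comm]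
  have hcut : ∀ y, (gact (ContinuousMap.const Y (Ek (0 : Fin 2))) (fun _ => Ek_idem 0)
      (g⁻¹)).1.1 y = cutM (T0 (Fin n)) (q.1.1 (y, 1)) := by
    intro y
    change actM (Ek (0 : Fin 2)) ((g⁻¹).1.1 y) = _
    rw [hq1, act_Ek, act_Ek, blk_mul, cut_blk]
    congr 1
    ext1 i
    fin_cases i <;> simp
  have hccl := ccl_eq_bott (T0 (Fin n)) q hcom _ hcut
  have hcb : cl (gact (ContinuousMap.const Y (Ek (0 : Fin 2))) (fun _ => Ek_idem 0) (g⁻¹)) =
      -cl g := by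
    rw [cl_blocks _ (fun j : Fin 2 => if j = 0 then g⁻¹ else 1)]
    · rw [Fin.sum_univ_two, if_pos rfl, if_neg (by decide), cl_inv, cl_one, add_zero]
    · intro y p q
      change actM (Ek (0 : Fin 2)) ((g⁻¹).1.1 y) p q = _
      rw [act_Ek, blk_apply]
      by_cases h : p.1 = 0
      · simp only [h, if_true]
      · simp only [h, if_false]
        rfl
  have hinv : pull (sqM Y) (sq_rh (S := S) hB).mB (sq_rh (S := S) hB).mS _ b' =
      (ccl (T0 (Fin n)) q hcom)⁻¹ := by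
    rw [eq_comm, inv_eq_iff_mul_eq_one]
    refine gf_ext fun p => ?_
    have h1 : (pull (sqM Y) (sq_rh (S := S) hB).mB (sq_rh (S := S) hB).mS _ b').1.1 p =
        b.1.1 (sqM Y p) * (q⁻¹).1.1 p.1 := by
      have h2 := hb' (sqM Y p)
      rw [gf_inv b1, hb1z, ← gf_inv q] at h2
      exact h2
    rw [gf_mul, gf_one, h1]
    have h3 := ccl_apply (T0 (Fin n)) q hcom p
    have h4 := hbz p
    have h5 : ploop (dg (T0 (Fin n))) (zf p.2) * ploop (dg (T0 (Fin n))) (zf p.2)⁻¹ = 1 := by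
      rw [ploop_mul (dg_mul _), mul_inv_cancel₀ (zf_ne _), ploop_one]
    have h6 : (ccl (T0 (Fin n)) q hcom).1.1 p * b.1.1 (sqM Y p) = q.1.1 p.1 := by
      calc (ccl (T0 (Fin n)) q hcom).1.1 p * b.1.1 (sqM Y p)
          = (ccl (T0 (Fin n)) q hcom).1.1 p * (b.1.1 (sqM Y p) *
              ploop (dg (T0 (Fin n))) (zf p.2)) * ploop (dg (T0 (Fin n))) (zf p.2)⁻¹ := by
            rw [mul_assoc, mul_assoc, h5, mul_one]
        _ = (ccl (T0 (Fin n)) q hcom).1.1 p * ploop (dg (T0 (Fin n))) (zf p.2) * q.1.1 p.1 *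
              ploop (dg (T0 (Fin n))) (zf p.2)⁻¹ := by rw [h4, ← mul_assoc]
        _ = q.1.1 p.1 * ploop (dg (T0 (Fin n))) (zf p.2) *
              ploop (dg (T0 (Fin n))) (zf p.2)⁻¹ := by
            rw [h3, mul_assoc (q.1.1 p.1 * _), gf_inv_mul, mul_one]
        _ = q.1.1 p.1 := by rw [mul_assoc, h5, mul_one]
    rw [← mul_assoc, h6, gf_mul_inv]
  rw [kmap_cl, hinv, cl_inv, hccl, hcb, map_neg, neg_neg]

end Pool.QB.KTh
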