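import Pool.Agent.MP_c51823_gt.QB.KTh.Disc2
import Pool.Agent.MP_c51823_gt.QB.KTh.Bott

/-!
# [QBK] Bott periodicity for the disc
-/

set_option autoImplicit false
open Topology

namespace Pool.QB.KTh

theorem bD_bijective {Y : Type} [TopologicalSpace Y] [CompactSpace Y] [T2Space Y] {B S : Set Y}
    (hB : IsClosed B) (hS : IsClosed S) : Function.Bijective (bD B S) := by
  have h1 := forget_bijective (S := S) hB hS
  have h2 := kmap_bijective (sq_rh (S := S) hB)
  have h3 := bott_bijective hB hS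
  constructor
  · intro x y hxy
    obtain ⟨x', hx1, hx2⟩ := disc_square (S := S) hB x
    obtain ⟨y', hy1, hy2⟩ := disc_square (S := S) hB y
    have e : x' = y' := h1.1 (by rw [hx1, hy1, hxy])
    exact h3.1 (by rw [← hx2, ← hy2, e])
  · intro z
    obtain ⟨x', hx'⟩ := h1.2 z
    obtain ⟨x, hx⟩ := h3.2 (kmap (sqM Y) (sq_rh (S := S) hB).mB (sq_rh (S := S) hB).mS x')
    obtain ⟨x'', hx1, hx2⟩ := disc_square (S := S) hB x
    have e : x'' = x' := h2.1 (by rw [hx2, hx])
    exact ⟨x, by rw [← hx1, e, hx']⟩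

end Pool.QB.KTh
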