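import Pool.Agent.MP_c51823_gt.QB.KTh.Rel2
import Pool.Agent.MP_c51823_gt.QB.KTh.ClsDef

/-!
# [QBK] The closed unit disc and the Bott line bundle (definitions)
-/

set_option autoImplicit false
open Topology

namespace Pool.QB.KTh

noncomputable section

/-- The closed unit disc. -/
abbrev Disc := {z : ℂ // ‖z‖ ≤ 1}

instance : CompactSpace Disc := by
  have h : {z : ℂ | ‖z‖ ≤ 1} = Metric.closedBall (0 : ℂ) 1 := by
    ext z
    simp
  have h2 : IsCompact {z : ℂ | ‖z‖ ≤ 1} := h ▸ isCompact_closedBall 0 1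
  exact isCompact_iff_compactSpace.1 h2

/-- The projection onto the line of the vector `v`, as a matrix (junk for `v = 0`). -/
def vl {m : Type} [Fintype m] (v : m → ℂ) : Matrix m m ℂ :=
  Matrix.of fun i j => v i * (starRingEnd ℂ) (v j) / ∑ k, v k * (starRingEnd ℂ) (v k)

theorem sum_ne {m : Type} [Fintype m] {v : m → ℂ} (hv : v ≠ 0) :
    ∑ k, v k * (starRingEnd ℂ) (v k) ≠ 0 := by
  have h1 : ∀ k, v k * (starRingEnd ℂ) (v k) = ((Complex.normSq (v k) : ℝ) : ℂ) := fun k =>
    Complex.mul_conj _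
  rw [Finset.sum_congr rfl fun k _ => h1 k, ← Complex.ofReal_sum]
  intro h2
  have h3 : ∑ k, Complex.normSq (v k) = 0 := by exact_mod_cast h2
  apply hv
  ext k
  have h4 := (Finset.sum_eq_zero_iff_of_nonneg fun k _ => Complex.normSq_nonneg (v k)).1 h3 k
    (Finset.mem_univ k)
  simpa using Complex.normSq_eq_zero.1 h4

/-- The Bott line: `(z, 1 - |z|)`. -/
def betV (z : ℂ) : Fin 2 → ℂ := ![z, ((1 - ‖z‖ : ℝ) : ℂ)]

theorem betV_ne (z : ℂ) : betV z ≠ 0 := by
  intro h
  have h0 : z = 0 := by simpa [betV] using congrFun h 0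
  have h1 : ((1 - ‖z‖ : ℝ) : ℂ) = 0 := by simpa [betV] using congrFun h 1
  rw [h0, norm_zero] at h1
  norm_num at h1

/-- The projection onto the Bott line. -/
def bet : C(Disc, Matrix (Fin 2) (Fin 2) ℂ) :=
  ⟨fun z => vl (betV z.1), by
    have h : ∀ i, Continuous fun z : Disc => betV z.1 i := by
      intro i
      fin_cases i
      · exact continuous_subtype_val
      · change Continuous fun z : Disc => ((1 - ‖z.1‖ : ℝ) : ℂ)
        fun_prop
    refine continuous_matrix fun i j => ?_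
    refine Continuous.div ((h i).mul (Complex.continuous_conj.comp (h j))) ?_
      fun z => sum_ne (betV_ne z.1)
    exact continuous_finsetSum _ fun k _ => (h k).mul (Complex.continuous_conj.comp (h k))⟩

theorem vl_idem {m : Type} [Fintype m] {v : m → ℂ} (hv : v ≠ 0) : vl v * vl v = vl v := by
  ext i j
  have h := sum_ne hv
  rw [Matrix.mul_apply]
  change ∑ k, v i * (starRingEnd ℂ) (v k) / _ * (v k * (starRingEnd ℂ) (v j) / _) =
    v i * (starRingEnd ℂ) (v j) / _
  set N := ∑ k, v k * (starRingEnd ℂ) (v k) with hN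
  have h3 : ∀ k, v i * (starRingEnd ℂ) (v k) / N * (v k * (starRingEnd ℂ) (v j) / N) =
      (v k * (starRingEnd ℂ) (v k)) * (v i * (starRingEnd ℂ) (v j) / (N * N)) := by
    intro k
    field_simp
  rw [Finset.sum_congr rfl fun k _ => h3 k, ← Finset.sum_mul, ← hN]
  field_simp

theorem bet_idem (z : Disc) : bet z * bet z = bet z := vl_idem (betV_ne z.1)

/-- The constant projection onto the `k`-th coordinate. -/
def Ek {m : Type} [Fintype m] [DecidableEq m] (k : m) : Matrix m m ℂ := Matrix.single k k 1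

theorem Ek_idem {m : Type} [Fintype m] [DecidableEq m] (k : m) : Ek k * Ek k = Ek k := by
  unfold Ek
  simp

theorem bet_bd (z : Disc) (hz : ‖z.1‖ = 1) : bet z = Ek 0 := by
  have h1 : z.1 * (starRingEnd ℂ) z.1 = 1 := by
    rw [Complex.mul_conj, Complex.normSq_eq_norm_sq, hz]
    norm_num
  ext i j
  change betV z.1 i * (starRingEnd ℂ) (betV z.1 j) / ∑ k, betV z.1 k * (starRingEnd ℂ) (betV z.1 k) = _
  rw [Fin.sum_univ_two]
  fin_cases i <;> fin_cases j <;> simp [betV, hz, h1, Ek, Matrix.single]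

variable {Y : Type} [TopologicalSpace Y]

/-- `B × Z`. -/
def prZ (B : Set Y) (Z : Type) : Set (Y × Z) := {p | p.1 ∈ B}

/-- `B × D ∪ Y × ∂D`. -/
def discB (B : Set Y) : Set (Y × Disc) := {p | p.1 ∈ B ∨ ‖p.2.1‖ = 1}

/-- the projection `Y × Z → Y` -/
def fstM (Y Z : Type) [TopologicalSpace Y] [TopologicalSpace Z] : C(Y × Z, Y) :=
  ⟨Prod.fst, continuous_fst⟩

/-- the projection `Y × Z → Z` -/
def sndM (Y Z : Type) [TopologicalSpace Y] [TopologicalSpace Z] : C(Y × Z, Z) :=
  ⟨Prod.snd, continuous_snd⟩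

/-- The relative operator of a function `z : Y → D`: tensoring with `bet ∘ z` minus `E₀`. -/
def relD {B Br S : Set Y} (z : C(Y, Disc)) (hr : ∀ y ∈ Br, y ∈ B ∨ ‖(z y).1‖ = 1) :
    K1 B S →+ K1 Br S :=
  rel (bet.comp z) (ContinuousMap.const Y (Ek 0)) (fun _ => bet_idem _) (fun _ => Ek_idem 0)
    fun y hy => (hr y hy).imp_right fun h => bet_bd _ h

/-- Multiplication by the Bott class of the disc. -/
def bD (B S : Set Y) : K1 B S →+ K1 (discB B) (prZ S Disc) :=
  (relD (B := prZ B Disc) (Br := discB B) (S := prZ S Disc) (sndM Y Disc) fun _ h => h).comp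
    (kmap (fstM Y Disc) (fun _ h => h) (fun _ h => h))

/-- the ray `[0,1] ⊆ D` together with `discB B` -/
def rayB (B : Set Y) : Set (Y × Disc) := {p | p.1 ∈ B ∨ ‖p.2.1‖ = 1 ∨ p.2.1 = ((‖p.2.1‖ : ℝ) : ℂ)}

/-- the map `((y, w), t) ↦ (y, (1 - w) zf t)` -/
def sqM (Y : Type) [TopologicalSpace Y] : C((Y × I) × I, Y × Disc) :=
  ⟨fun p => (p.1.1, ⟨((1 - (p.1.2 : ℝ) : ℝ) : ℂ) * zf p.2, by
      rw [norm_mul, norm_zf, mul_one, Complex.norm_real, Real.norm_eq_abs,
        abs_of_nonneg (by linarith [p.1.2.2.2])]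
      linarith [p.1.2.2.1]⟩), by
    refine (continuous_fst.comp continuous_fst).prodMk (Continuous.subtype_mk ?_ _)
    refine Continuous.mul ?_ (continuous_zf.comp continuous_snd)
    fun_prop⟩

end

end Pool.QB.KTh
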