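import Pool.Agent.MP_c51823_gt.QB.KTh.KMap

/-!
# [QBK] Closed embeddings compatible with the constraints, relative homeomorphisms (definitions)
-/

set_option autoImplicit false
open Topology

namespace Pool.QB.KTh

/-- `f × id : Y × I → Y' × I`. -/
def cylMap {Y Y' : Type} [TopologicalSpace Y] [TopologicalSpace Y'] (f : C(Y, Y')) :
    C(Y × I, Y' × I) := ⟨fun p => (f p.1, p.2), by fun_prop⟩

/-- `i : Yc → Yd` is an injective map of compact spaces, `Bc = i⁻¹ Bd`, `Sc = i⁻¹ Sd`,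
`Br = Bd ∪ i(Yc)`. -/
structure CEmb {Yc Yd : Type} [TopologicalSpace Yc] [TopologicalSpace Yd] (Bc Sc : Set Yc)
    (Bd Sd Br : Set Yd) (i : C(Yc, Yd)) : Prop where
  inj : Function.Injective i
  hB : ∀ y, i y ∈ Bd ↔ y ∈ Bc
  hS : ∀ y, i y ∈ Sd ↔ y ∈ Sc
  hr : ∀ y, y ∈ Br ↔ y ∈ Bd ∨ ∃ x, i x = y
  closedB : IsClosed Bd
  closedS : IsClosed Sd

/-- Relative homeomorphisms. -/
structure RH {Y Y' : Type} [TopologicalSpace Y] [TopologicalSpace Y'] (B S : Set Y) (B' S' : Set Y')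
    (f : C(Y, Y')) : Prop where
  closedB : IsClosed B'
  mB : Set.MapsTo f B B'
  mS : Set.MapsTo f S S'
  refl : ∀ y, f y ∈ B' → y ∈ B
  bij : Set.BijOn f Bᶜ B'ᶜ
  hS : ∀ y, f y ∈ S' → y ∈ B ∨ y ∈ S

section

variable {Yc Yd : Type} [TopologicalSpace Yc] [TopologicalSpace Yd] {Bc Sc : Set Yc}
  {Bd Sd Br : Set Yd} {i : C(Yc, Yd)}

theorem CEmb.mB (E : CEmb Bc Sc Bd Sd Br i) : Set.MapsTo i Bc Bd := fun y hy => (E.hB y).2 hy

theorem CEmb.mS (E : CEmb Bc Sc Bd Sd Br i) : Set.MapsTo i Sc Sd := fun y hy => (E.hS y).2 hy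

theorem CEmb.mr (E : CEmb Bc Sc Bd Sd Br i) : Set.MapsTo (ContinuousMap.id Yd) Bd Br :=
  fun y hy => (E.hr y).2 (Or.inl hy)

/-- the cylinder of a closed embedding -/
theorem CEmb.cyl (E : CEmb Bc Sc Bd Sd Br i) :
    CEmb (cyl Bc) (KTh.cyl Sc) (KTh.cyl Bd) (KTh.cyl Sd) (KTh.cyl Br) (cylMap i) where
  inj := by
    rintro ⟨a, s⟩ ⟨b, t⟩ h
    have h1 : i a = i b := congrArg Prod.fst h
    have h2 : s = t := congrArg Prod.snd h
    rw [E.inj h1, h2]
  hB := fun y => E.hB y.1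
  hS := fun y => E.hS y.1
  hr := fun y => by
    constructor
    · intro h
      rcases (E.hr y.1).1 h with h | ⟨x, hx⟩
      · exact Or.inl h
      · exact Or.inr ⟨(x, y.2), Prod.ext hx rfl⟩
    · rintro (h | ⟨x, hx⟩)
      · exact (E.hr y.1).2 (Or.inl h)
      · exact (E.hr y.1).2 (Or.inr ⟨x.1, congrArg Prod.fst hx⟩)
  closedB := E.closedB.preimage continuous_fst
  closedS := E.closedS.preimage continuous_fst

/-- the suspension of a closed embedding -/
theorem CEmb.sus (E : CEmb Bc Sc Bd Sd Br i) :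
    CEmb (susB Bc) (KTh.cyl Sc) (susB Bd) (KTh.cyl Sd) (susB Br) (cylMap i) where
  inj := E.cyl.inj
  hB := fun y => by
    change (i y.1 ∈ Bd ∨ _) ↔ (y.1 ∈ Bc ∨ _)
    rw [E.hB]
    exact Iff.rfl
  hS := fun y => E.hS y.1
  hr := fun y => by
    constructor
    · rintro (h | h | h)
      · rcases (E.hr y.1).1 h with h | ⟨x, hx⟩
        · exact Or.inl (Or.inl h)
        · exact Or.inr ⟨(x, y.2), Prod.ext hx rfl⟩
      · exact Or.inl (Or.inr (Or.inl h))
      · exact Or.inl (Or.inr (Or.inr h))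
    · rintro ((h | h | h) | ⟨x, hx⟩)
      · exact Or.inl ((E.hr y.1).2 (Or.inl h))
      · exact Or.inr (Or.inl h)
      · exact Or.inr (Or.inr h)
      · exact Or.inl ((E.hr y.1).2 (Or.inr ⟨x.1, congrArg Prod.fst hx⟩))
  closedB := by
    have h0 : IsClosed {p : Yd × I | p.2 = 0} := isClosed_eq continuous_snd continuous_const
    have h1 : IsClosed {p : Yd × I | p.2 = 1} := isClosed_eq continuous_snd continuous_const
    exact (E.closedB.preimage continuous_fst).union (h0.union h1)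
  closedS := E.closedS.preimage continuous_fst

end

theorem isClosed_cyl {Y : Type} [TopologicalSpace Y] {B : Set Y} (h : IsClosed B) :
    IsClosed (cyl B) := h.preimage continuous_fst

theorem isClosed_susB {Y : Type} [TopologicalSpace Y] {B : Set Y} (h : IsClosed B) :
    IsClosed (susB B) := by
  have h0 : IsClosed {p : Y × I | p.2 = 0} := isClosed_eq continuous_snd continuous_const
  have h1 : IsClosed {p : Y × I | p.2 = 1} := isClosed_eq continuous_snd continuous_const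
  exact (h.preimage continuous_fst).union (h0.union h1)

theorem mapsTo_cyl {Y Y' : Type} [TopologicalSpace Y] [TopologicalSpace Y'] {f : C(Y, Y')}
    {B : Set Y} {B' : Set Y'} (h : Set.MapsTo f B B') : Set.MapsTo (cylMap f) (cyl B) (cyl B') :=
  fun _ hy => h hy

theorem mapsTo_susB {Y Y' : Type} [TopologicalSpace Y] [TopologicalSpace Y'] {f : C(Y, Y')}
    {B : Set Y} {B' : Set Y'} (h : Set.MapsTo f B B') : Set.MapsTo (cylMap f) (susB B) (susB B') := by
  rintro y (hy | hy | hy)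
  · exact Or.inl (h hy)
  · exact Or.inr (Or.inl hy)
  · exact Or.inr (Or.inr hy)

end Pool.QB.KTh
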