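import Pool.Agent.MP_c51823_gt.QB.KTh.LoopDef

/-!
# [QB-K] Discrete Fejer approximation of continuous loops
-/

set_option autoImplicit false
set_option linter.unusedSectionVars false
open Topology

namespace Pool.QB.KTh.IX

/-- the `j`-th of the `M`-th roots of unity -/
noncomputable def wK (M j : ℕ) : Circle := Circle.exp (2 * Real.pi * j / M)

theorem wK_coe (M j : ℕ) : (wK M j : ℂ) = Complex.exp (2 * Real.pi * Complex.I / M) ^ j := by
  rw [wK, Circle.coe_exp, ← Complex.exp_nat_mul]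
  congr 1
  push_cast
  ring

/-- orthogonality -/
theorem sum_wK_zpow {M : ℕ} (hM : M ≠ 0) (k : ℤ) (hk : ¬ (M : ℤ) ∣ k) :
    ∑ j ∈ Finset.range M, (wK M j : ℂ) ^ k = 0 := by
  set ζ : ℂ := Complex.exp (2 * Real.pi * Complex.I / M) with hζ
  have hprim : IsPrimitiveRoot ζ M := Complex.isPrimitiveRoot_exp M hM
  have h1 : ∀ j, (wK M j : ℂ) ^ k = (ζ ^ k) ^ j := by
    intro j
    rw [wK_coe, ← hζ, ← zpow_natCast, ← zpow_mul, ← zpow_natCast, ← zpow_mul, mul_comm]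
  simp_rw [h1]
  have h2 : ζ ^ k ≠ 1 := by
    intro h
    exact hk ((hprim.zpow_eq_one_iff_dvd k).1 h)
  have h3 : (ζ ^ k) ^ M = 1 := by
    rw [← zpow_natCast, ← zpow_mul, mul_comm, zpow_mul, zpow_natCast, hprim.pow_eq_one, one_zpow]
  have h4 := mul_geom_sum (ζ ^ k) M
  rw [h3, sub_self] at h4
  rcases mul_eq_zero.1 h4 with h5 | h5
  · exact absurd (sub_eq_zero.1 h5) h2
  · exact h5

theorem sum_Icc_succ {E : Type} [AddCommMonoid E] (N : ℕ) (f : ℤ → E) :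
    ∑ k ∈ Finset.Icc (-((N + 1 : ℕ) : ℤ)) ((N + 1 : ℕ) : ℤ), f k =
      ∑ k ∈ Finset.Icc (-(N : ℤ)) N, f k + (f (N + 1) + f (-(N + 1))) := by
  have h1 : Finset.Icc (-((N + 1 : ℕ) : ℤ)) ((N + 1 : ℕ) : ℤ) =
      insert ((N : ℤ) + 1) (insert (-((N : ℤ) + 1)) (Finset.Icc (-(N : ℤ)) N)) := by
    ext k
    simp only [Finset.mem_Icc, Finset.mem_insert]
    push_cast
    omega
  rw [h1, Finset.sum_insert, Finset.sum_insert]
  · rw [add_comm (∑ k ∈ Finset.Icc (-(N : ℤ)) N, f k), ← add_assoc]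
  · simp only [Finset.mem_Icc]; omega
  · simp only [Finset.mem_Icc, Finset.mem_insert]; omega

theorem kernel_aux (N : ℕ) (u : ℂ) (hu : u ≠ 0) :
    u ^ (N + 1) * ∑ l ∈ Finset.range (N + 1), (u⁻¹) ^ l +
      (∑ l ∈ Finset.range (N + 1), u ^ l) * (u⁻¹) ^ (N + 1) + 1 =
      ∑ k ∈ Finset.Icc (-((N + 1 : ℕ) : ℤ)) ((N + 1 : ℕ) : ℤ), u ^ k := by
  induction N with
  | zero =>
    have : Finset.Icc (-(((0 : ℕ) + 1 : ℕ) : ℤ)) ((0 + 1 : ℕ) : ℤ) = {-1, 0, 1} := by decide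
    rw [this]
    simp
    ring
  | succ N ih =>
    rw [sum_Icc_succ, ← ih]
    have e1 : u ^ (N + 1 + 1) * ∑ l ∈ Finset.range (N + 1 + 1), (u⁻¹) ^ l =
        u ^ (N + 1 + 1) + u ^ (N + 1) * ∑ l ∈ Finset.range (N + 1), (u⁻¹) ^ l := by
      rw [Finset.sum_range_succ', mul_add, Finset.mul_sum, Finset.mul_sum, pow_zero, mul_one,
        add_comm]
      congr 1
      refine Finset.sum_congr rfl fun l _ => ?_
      rw [pow_succ u (N + 1), pow_succ u⁻¹ l]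
      field_simp
    have e2 : (∑ l ∈ Finset.range (N + 1 + 1), u ^ l) * (u⁻¹) ^ (N + 1 + 1) =
        (u⁻¹) ^ (N + 1 + 1) + (∑ l ∈ Finset.range (N + 1), u ^ l) * (u⁻¹) ^ (N + 1) := by
      rw [Finset.sum_range_succ', add_mul, Finset.sum_mul, Finset.sum_mul, pow_zero, one_mul,
        add_comm]
      congr 1
      refine Finset.sum_congr rfl fun l _ => ?_
      rw [pow_succ u⁻¹ (N + 1), pow_succ u l]
      field_simp
    have e3 : u ^ (((N + 1 : ℕ) : ℤ) + 1) = u ^ (N + 1 + 1) := by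
      rw [← zpow_natCast]; push_cast; rfl
    have e4 : u ^ (-(((N + 1 : ℕ) : ℤ) + 1)) = (u⁻¹) ^ (N + 1 + 1) := by
      rw [zpow_neg, ← inv_zpow, ← zpow_natCast]; push_cast; rfl
    rw [e1, e2, e3, e4]
    ring

theorem kernel_id (N : ℕ) (u : ℂ) (hu : u ≠ 0) :
    (∑ j ∈ Finset.range (N + 1), u ^ j) * (∑ l ∈ Finset.range (N + 1), (u⁻¹) ^ l) =
      ∑ k ∈ Finset.Icc (-(N : ℤ)) N, ((N : ℂ) + 1 - (|k| : ℤ)) * u ^ k := by
  induction N with
  | zero => simp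
  | succ N ih =>
    have h1 := kernel_aux N u hu
    have h2 : ∑ k ∈ Finset.Icc (-((N + 1 : ℕ) : ℤ)) ((N + 1 : ℕ) : ℤ),
        ((((N + 1 : ℕ) : ℂ)) + 1 - (|k| : ℤ)) * u ^ k =
        ∑ k ∈ Finset.Icc (-((N + 1 : ℕ) : ℤ)) ((N + 1 : ℕ) : ℤ), u ^ k +
        ∑ k ∈ Finset.Icc (-((N + 1 : ℕ) : ℤ)) ((N + 1 : ℕ) : ℤ),
          ((N : ℂ) + 1 - (|k| : ℤ)) * u ^ k := by
      rw [← Finset.sum_add_distrib]
      refine Finset.sum_congr rfl fun k _ => ?_
      push_cast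
      ring
    have h3 : ∑ k ∈ Finset.Icc (-((N + 1 : ℕ) : ℤ)) ((N + 1 : ℕ) : ℤ),
          ((N : ℂ) + 1 - (|k| : ℤ)) * u ^ k =
        ∑ k ∈ Finset.Icc (-(N : ℤ)) N, ((N : ℂ) + 1 - (|k| : ℤ)) * u ^ k := by
      rw [sum_Icc_succ]
      have a1 : |(N : ℤ) + 1| = (N : ℤ) + 1 := abs_of_nonneg (by positivity)
      have a2 : |-((N : ℤ) + 1)| = (N : ℤ) + 1 := by rw [abs_neg, a1]
      rw [a1, a2]
      push_cast
      ring
    rw [h2, h3, ← ih, ← h1]
    rw [Finset.sum_range_succ _ (N + 1), Finset.sum_range_succ _ (N + 1)]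
    have h4 : u ^ (N + 1) * (u⁻¹) ^ (N + 1) = 1 := by
      rw [← mul_pow, mul_inv_cancel₀ hu, one_pow]
    linear_combination h4

/-- the Fejer kernel -/
noncomputable def Kn (N : ℕ) (u : ℂ) : ℝ := ‖∑ j ∈ Finset.range (N + 1), u ^ j‖ ^ 2 / (N + 1)

/-- the Fejer weights -/
noncomputable def kap (N : ℕ) (k : ℤ) : ℝ := 1 - (|k| : ℤ) / (N + 1)

theorem kap_zero (N : ℕ) : kap N 0 = 1 := by simp [kap]

theorem Kn_nonneg (N : ℕ) (u : ℂ) : 0 ≤ Kn N u := by unfold Kn; positivity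

theorem Kn_eq (N : ℕ) (u : ℂ) (hu : ‖u‖ = 1) :
    ((Kn N u : ℝ) : ℂ) = ∑ k ∈ Finset.Icc (-(N : ℤ)) N, (kap N k : ℂ) * u ^ k := by
  have hu0 : u ≠ 0 := by rintro rfl; simp at hu
  have hconj : (starRingEnd ℂ) u = u⁻¹ := by
    rw [Complex.inv_def, Complex.normSq_eq_norm_sq, hu]; simp
  have h1 : ((‖∑ j ∈ Finset.range (N + 1), u ^ j‖ ^ 2 : ℝ) : ℂ) =
      (∑ j ∈ Finset.range (N + 1), u ^ j) * (∑ l ∈ Finset.range (N + 1), (u⁻¹) ^ l) := by
    have h2 := Complex.mul_conj (∑ j ∈ Finset.range (N + 1), u ^ j)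
    rw [Complex.normSq_eq_norm_sq] at h2
    rw [← h2, map_sum]
    congr 1
    refine Finset.sum_congr rfl fun l _ => ?_
    rw [map_pow, hconj]
  have hN : ((N : ℂ) + 1) ≠ 0 := by exact_mod_cast Nat.succ_ne_zero N
  unfold Kn
  push_cast at h1 ⊢
  rw [h1, kernel_id N u hu0, Finset.sum_div]
  refine Finset.sum_congr rfl fun k _ => ?_
  simp only [kap, Complex.ofReal_sub, Complex.ofReal_div, Complex.ofReal_one,
    Complex.ofReal_intCast, Complex.ofReal_add, Complex.ofReal_natCast]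
  field_simp

theorem Kn_le (N : ℕ) (u : ℂ) (hu : ‖u‖ = 1) (hu1 : u ≠ 1) :
    Kn N u ≤ 4 / ((N + 1) * ‖u - 1‖ ^ 2) := by
  have h1 : 0 < ‖u - 1‖ := norm_pos_iff.2 (sub_ne_zero.2 hu1)
  have h2 : ‖u - 1‖ * ‖∑ j ∈ Finset.range (N + 1), u ^ j‖ ≤ 2 := by
    rw [← norm_mul, mul_geom_sum]
    calc ‖u ^ (N + 1) - 1‖ ≤ ‖u ^ (N + 1)‖ + ‖(1 : ℂ)‖ := norm_sub_le _ _
      _ = 2 := by rw [norm_pow, hu]; norm_num
  have h3 : 0 ≤ ‖∑ j ∈ Finset.range (N + 1), u ^ j‖ := norm_nonneg _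
  have h4 : (‖u - 1‖ * ‖∑ j ∈ Finset.range (N + 1), u ^ j‖) ^ 2 ≤ 4 := by
    nlinarith [mul_nonneg h1.le h3]
  have hN : (0 : ℝ) < N + 1 := by positivity
  unfold Kn
  rw [div_le_div_iff₀ hN (by positivity)]
  rw [mul_pow] at h4
  nlinarith

/-- the `j`-th sample point -/
noncomputable def tK (M : ℕ) (j : Fin M) : I :=
  ⟨(j : ℕ) / (M : ℝ), by positivity, by
    have hM : (0 : ℝ) < M := by
      have := j.pos
      exact_mod_cast this
    rw [div_le_one hM]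
    exact_mod_cast j.2.le⟩

theorem zf_tK (M : ℕ) (j : Fin M) : zf (tK M j) = (wK M j : ℂ) := by
  rw [wK, Circle.coe_exp]
  unfold zf tK
  congr 1
  push_cast
  ring

/-- the weights -/
noncomputable def wt (N M : ℕ) (k : ℤ) (j : Fin M) : ℂ :=
  (kap N k : ℂ) * ((M : ℂ)⁻¹ * zf (tK M j) ^ (-k))

theorem sum_wt {N M : ℕ} (hM : N + 1 < M) (m k : ℤ) (hk : -(N : ℤ) ≤ k) (hk' : k ≤ N)
    (hm0 : 0 ≤ m) (hm1 : m ≤ 1) :
    ∑ j : Fin M, wt N M k j * zf (tK M j) ^ m = if k = m then (kap N k : ℂ) else 0 := by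
  have hM0 : M ≠ 0 := by omega
  have hMC : (M : ℂ) ≠ 0 := by exact_mod_cast hM0
  have h1 : ∀ j : Fin M, wt N M k j * zf (tK M j) ^ m =
      (kap N k : ℂ) * ((M : ℂ)⁻¹ * (wK M j : ℂ) ^ (m - k)) := by
    intro j
    unfold wt
    rw [sub_eq_add_neg, zpow_add₀ (Circle.coe_ne_zero _), zf_tK]
    ring
  simp_rw [h1]
  rw [← Finset.mul_sum, ← Finset.mul_sum, Fin.sum_univ_eq_sum_range (fun j => (wK M j : ℂ) ^ (m - k))]
  split_ifs with h
  · subst h
    simp [hMC]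
  · rw [sum_wK_zpow hM0 _ ?_, mul_zero, mul_zero]
    intro hd
    have h2 : |m - k| < M := by rw [abs_lt]; omega
    have h3 : m - k = 0 := Int.eq_zero_of_abs_lt_dvd hd h2
    omega

theorem mean_Kn {N M : ℕ} (hM : N + 1 < M) (s : I) :
    (M : ℝ)⁻¹ * ∑ j : Fin M, Kn N (zf s * (wK M j : ℂ)⁻¹) = 1 := by
  have h0 : ∀ j : Fin M, ((M : ℂ)⁻¹ * (Kn N (zf s * (wK M j : ℂ)⁻¹) : ℝ)) =
      ∑ k ∈ Finset.Icc (-(N : ℤ)) N, zf s ^ k * wt N M k j := by
    intro j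
    rw [Kn_eq]
    · rw [Finset.mul_sum]
      refine Finset.sum_congr rfl fun k _ => ?_
      unfold wt
      rw [mul_zpow, inv_zpow, zpow_neg, zf_tK]
      ring
    · rw [norm_mul, norm_inv, Circle.norm_coe, norm_zf]; norm_num
  have h1 : (M : ℂ)⁻¹ * ∑ j : Fin M, ((Kn N (zf s * (wK M j : ℂ)⁻¹) : ℝ) : ℂ) = 1 := by
    rw [Finset.mul_sum]
    simp_rw [h0]
    rw [Finset.sum_comm]
    have h2 : ∀ k ∈ Finset.Icc (-(N : ℤ)) N, ∑ j : Fin M, zf s ^ k * wt N M k j =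
        if k = 0 then 1 else 0 := by
      intro k hk
      rw [Finset.mem_Icc] at hk
      have h3 := sum_wt hM 0 k hk.1 hk.2 le_rfl zero_le_one
      simp only [zpow_zero, mul_one] at h3
      rw [← Finset.mul_sum, h3]
      split_ifs with h
      · subst h; simp [kap_zero]
      · simp
    rw [Finset.sum_congr rfl h2]
    simp
  have h3 : (((M : ℝ)⁻¹ * ∑ j : Fin M, Kn N (zf s * (wK M j : ℂ)⁻¹) : ℝ) : ℂ) = 1 := by
    push_cast
    exact h1
  exact_mod_cast h3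

variable {E : Type} [NormedAddCommGroup E] [NormedSpace ℂ E]

/-- modulus of continuity of a periodic family -/
theorem periodic_modulus {Y : Type} [TopologicalSpace Y] [CompactSpace Y] (f : C(Y × I, E))
    (hper : ∀ y, f (y, 0) = f (y, 1)) {ε : ℝ} (hε : 0 < ε) :
    ∃ δ > 0, ∀ (y : Y) (s t : I), ‖zf s - zf t‖ < δ → ‖f (y, s) - f (y, t)‖ < ε := by
  let G : Y × I × I → ℝ := fun q => ‖f (q.1, q.2.1) - f (q.1, q.2.2)‖
  have hG : Continuous G := by fun_prop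
  let D : Y × I × I → ℝ := fun q => ‖zf q.2.1 - zf q.2.2‖
  have hD : Continuous D :=
    ((continuous_zf.comp (continuous_fst.comp continuous_snd)).sub
      (continuous_zf.comp (continuous_snd.comp continuous_snd))).norm
  let K : Set (Y × I × I) := {q | ε ≤ G q}
  have hK : IsCompact K := (isClosed_le continuous_const hG).isCompact
  have hpos : ∀ q ∈ K, 0 < D q := by
    rintro ⟨y, s, t⟩ hq
    refine norm_pos_iff.2 fun h => ?_
    have hz : zf s = zf t := sub_eq_zero.1 h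
    have hfe : f (y, s) = f (y, t) := by
      -- `s = t` or `{s, t} = {0, 1}`
      unfold zf at hz
      rw [Complex.exp_eq_exp_iff_exists_int] at hz
      obtain ⟨n, hn⟩ := hz
      have h2 : (s : ℝ) = t + n := by
        have hpi : (2 * Real.pi * Complex.I : ℂ) ≠ 0 := by simp [Real.pi_ne_zero]
        have h3 : (2 * Real.pi * Complex.I : ℂ) * ((s : ℝ) : ℂ) =
            (2 * Real.pi * Complex.I) * (((t : ℝ) : ℂ) + n) := by rw [hn]; ring
        have h4 := mul_left_cancel₀ hpi h3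
        exact_mod_cast h4
      have hs := s.2
      have ht := t.2
      have hn1 : (n : ℝ) ≤ 1 := by linarith [hs.2, ht.1]
      have hn2 : (-1 : ℝ) ≤ n := by linarith [hs.1, ht.2]
      have hn1' : n ≤ 1 := by exact_mod_cast hn1
      have hn2' : -1 ≤ n := by exact_mod_cast hn2
      have hn3 : n = -1 ∨ n = 0 ∨ n = 1 := by omega
      rcases hn3 with rfl | rfl | rfl
      · have e1 : s = 0 := Subtype.ext (by push_cast at h2; linarith [hs.1, ht.2] : (s : ℝ) = 0)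
        have e2 : t = 1 := Subtype.ext (by push_cast at h2; linarith [hs.1, ht.2] : (t : ℝ) = 1)
        rw [e1, e2, hper]
      · have e1 : s = t := Subtype.ext (by push_cast at h2; linarith)
        rw [e1]
      · have e1 : s = 1 := Subtype.ext (by push_cast at h2; linarith [hs.2, ht.1] : (s : ℝ) = 1)
        have e2 : t = 0 := Subtype.ext (by push_cast at h2; linarith [hs.2, ht.1] : (t : ℝ) = 0)
        rw [e1, e2, hper]
    have h5 : G (y, s, t) = 0 := by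
      change ‖f (y, s) - f (y, t)‖ = 0
      rw [hfe, sub_self, norm_zero]
    have h6 : ε ≤ G (y, s, t) := hq
    linarith
  rcases K.eq_empty_or_nonempty with hK0 | hKn
  · refine ⟨1, one_pos, fun y s t _ => ?_⟩
    by_contra hc
    have : (y, s, t) ∈ K := not_lt.1 hc
    rw [hK0] at this
    exact this
  · obtain ⟨q0, hq0, hmin⟩ := hK.exists_isMinOn hKn hD.continuousOn
    refine ⟨D q0, hpos q0 hq0, fun y s t hst => ?_⟩
    by_contra hc
    have h1 : (y, s, t) ∈ K := not_lt.1 hc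
    have h2 : D q0 ≤ D (y, s, t) := hmin h1
    exact absurd hst (not_lt.2 h2)

/-- Discrete Fejer approximation, uniform in a compact parameter. -/
theorem fejer {Y : Type} [TopologicalSpace Y] [CompactSpace Y] (f : C(Y × I, E))
    (hper : ∀ y, f (y, 0) = f (y, 1)) {ε : ℝ} (hε : 0 < ε) :
    ∃ N0 : ℕ, ∀ N ≥ N0, ∀ M > N + 1, ∀ (y : Y) (s : I),
      ‖∑ k ∈ Finset.Icc (-(N : ℤ)) N, zf s ^ k • ∑ j : Fin M, wt N M k j • f (y, tK M j) -
        f (y, s)‖ < ε := by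
  obtain ⟨δ, hδ, hmod⟩ := periodic_modulus f hper (half_pos hε)
  obtain ⟨B, hB⟩ : ∃ B : ℝ, ∀ p, ‖f p‖ ≤ B := ⟨‖f‖, fun p => f.norm_coe_le_norm p⟩
  have hB0 : 0 ≤ max B 0 := le_max_right _ _
  obtain ⟨N0, hN0⟩ := exists_nat_gt (16 * (max B 0) / (δ ^ 2 * ε))
  refine ⟨N0, fun N hN M hM y s => ?_⟩
  have hM0 : M ≠ 0 := by omega
  have hMpos : (0 : ℝ) < M := by exact_mod_cast Nat.pos_of_ne_zero hM0
  have hmean := mean_Kn hM s
  have hmeanC : (M : ℂ)⁻¹ * ∑ j : Fin M, ((Kn N (zf s * (wK M j : ℂ)⁻¹) : ℝ) : ℂ) = 1 := by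
    have := congrArg (fun x : ℝ => (x : ℂ)) hmean
    push_cast at this
    exact this
  have hu : ∀ j : Fin M, ‖zf s * (wK M j : ℂ)⁻¹‖ = 1 := by
    intro j
    rw [norm_mul, norm_inv, Circle.norm_coe, norm_zf]; norm_num
  have e0 : ∑ k ∈ Finset.Icc (-(N : ℤ)) N, zf s ^ k • ∑ j : Fin M, wt N M k j • f (y, tK M j) =
      (M : ℂ)⁻¹ • ∑ j : Fin M, ((Kn N (zf s * (wK M j : ℂ)⁻¹) : ℝ) : ℂ) • f (y, tK M j) := by
    have h1 : ∀ j : Fin M, ((Kn N (zf s * (wK M j : ℂ)⁻¹) : ℝ) : ℂ) =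
        ∑ k ∈ Finset.Icc (-(N : ℤ)) N, (kap N k : ℂ) * (zf s ^ k * zf (tK M j) ^ (-k)) := by
      intro j
      rw [Kn_eq _ _ (hu j)]
      refine Finset.sum_congr rfl fun k _ => ?_
      rw [mul_zpow, inv_zpow, zpow_neg, zf_tK]
    simp_rw [h1, Finset.sum_smul, Finset.smul_sum]
    rw [Finset.sum_comm]
    refine Finset.sum_congr rfl fun j _ => Finset.sum_congr rfl fun k _ => ?_
    simp only [smul_smul]
    congr 1
    unfold wt
    ring
  have e1 : ∑ k ∈ Finset.Icc (-(N : ℤ)) N, zf s ^ k • ∑ j : Fin M, wt N M k j • f (y, tK M j) -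
      f (y, s) = (M : ℂ)⁻¹ • ∑ j : Fin M,
      ((Kn N (zf s * (wK M j : ℂ)⁻¹) : ℝ) : ℂ) • (f (y, tK M j) - f (y, s)) := by
    rw [e0]
    simp_rw [smul_sub, Finset.sum_sub_distrib, smul_sub]
    rw [← Finset.sum_smul, smul_smul, hmeanC, one_smul]
  rw [e1, norm_smul, norm_inv, Complex.norm_natCast]
  -- bound of each term
  have hN1 : (0 : ℝ) < N + 1 := by positivity
  have hterm : ∀ j ∈ (Finset.univ : Finset (Fin M)),
      ‖((Kn N (zf s * (wK M j : ℂ)⁻¹) : ℝ) : ℂ) • (f (y, tK M j) - f (y, s))‖ ≤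
        Kn N (zf s * (wK M j : ℂ)⁻¹) * (ε / 2) + 8 * max B 0 / ((N + 1) * δ ^ 2) := by
    intro j _
    rw [norm_smul, Complex.norm_real, Real.norm_of_nonneg (Kn_nonneg _ _)]
    have hK := Kn_nonneg N (zf s * (wK M j : ℂ)⁻¹)
    by_cases hd : ‖zf (tK M j) - zf s‖ < δ
    · have h1 := hmod y _ _ hd
      have h2 : Kn N (zf s * (wK M j : ℂ)⁻¹) * ‖f (y, tK M j) - f (y, s)‖ ≤
        Kn N (zf s * (wK M j : ℂ)⁻¹) * (ε / 2) := mul_le_mul_of_nonneg_left h1.le hK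
      have h3 : 0 ≤ 8 * max B 0 / ((N + 1) * δ ^ 2) := by positivity
      linarith
    · have hd' : δ ≤ ‖zf s * (wK M j : ℂ)⁻¹ - 1‖ := by
        have h2 : (wK M j : ℂ) ≠ 0 := Circle.coe_ne_zero _
        have h3 : zf s * (wK M j : ℂ)⁻¹ - 1 = (zf s - wK M j) * (wK M j : ℂ)⁻¹ := by
          field_simp
        rw [h3, norm_mul, norm_inv, Circle.norm_coe, inv_one, mul_one, norm_sub_rev, ← zf_tK]
        exact not_lt.1 hd
      have hne : zf s * (wK M j : ℂ)⁻¹ ≠ 1 := by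
        intro h
        rw [h, sub_self, norm_zero] at hd'
        linarith
      have h1 := Kn_le N (zf s * (wK M j : ℂ)⁻¹) (hu j) hne
      have h2 : 4 / (((N : ℝ) + 1) * ‖zf s * (wK M j : ℂ)⁻¹ - 1‖ ^ 2) ≤
          4 / (((N : ℝ) + 1) * δ ^ 2) := by
        apply div_le_div_of_nonneg_left (by norm_num) (by positivity)
        exact mul_le_mul_of_nonneg_left (pow_le_pow_left₀ hδ.le hd' 2) hN1.le
      have h3 : ‖f (y, tK M j) - f (y, s)‖ ≤ 2 * max B 0 := by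
        calc ‖f (y, tK M j) - f (y, s)‖ ≤ ‖f (y, tK M j)‖ + ‖f (y, s)‖ := norm_sub_le _ _
          _ ≤ B + B := add_le_add (hB _) (hB _)
          _ ≤ 2 * max B 0 := by have := le_max_left B 0; linarith
      calc Kn N (zf s * (wK M j : ℂ)⁻¹) * ‖f (y, tK M j) - f (y, s)‖
          ≤ 4 / (((N : ℝ) + 1) * δ ^ 2) * (2 * max B 0) :=
            mul_le_mul (h1.trans h2) h3 (norm_nonneg _) (by positivity)
        _ = 8 * max B 0 / ((N + 1) * δ ^ 2) := by ring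
        _ ≤ _ := by
          have : 0 ≤ Kn N (zf s * (wK M j : ℂ)⁻¹) * (ε / 2) := by positivity
          linarith
  have hsum : ‖∑ j : Fin M, ((Kn N (zf s * (wK M j : ℂ)⁻¹) : ℝ) : ℂ) •
      (f (y, tK M j) - f (y, s))‖ ≤
      (∑ j : Fin M, Kn N (zf s * (wK M j : ℂ)⁻¹)) * (ε / 2) +
        M * (8 * max B 0 / ((N + 1) * δ ^ 2)) := by
    refine (norm_sum_le _ _).trans ((Finset.sum_le_sum hterm).trans ?_)
    rw [Finset.sum_add_distrib, ← Finset.sum_mul, Finset.sum_const, Finset.card_univ,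
      Fintype.card_fin, nsmul_eq_mul]
  have hfin : 8 * max B 0 / (((N : ℝ) + 1) * δ ^ 2) < ε / 2 := by
    have h1 : (N0 : ℝ) ≤ N := by exact_mod_cast hN
    rw [div_lt_iff₀ (by positivity)]
    rw [div_lt_iff₀ (by positivity)] at hN0
    have h2 : (0 : ℝ) < δ ^ 2 * ε := by positivity
    nlinarith
  calc (M : ℝ)⁻¹ * ‖∑ j : Fin M, ((Kn N (zf s * (wK M j : ℂ)⁻¹) : ℝ) : ℂ) •
      (f (y, tK M j) - f (y, s))‖
      ≤ (M : ℝ)⁻¹ * ((∑ j : Fin M, Kn N (zf s * (wK M j : ℂ)⁻¹)) * (ε / 2) +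
        M * (8 * max B 0 / ((N + 1) * δ ^ 2))) :=
        mul_le_mul_of_nonneg_left hsum (by positivity)
    _ = ((M : ℝ)⁻¹ * ∑ j : Fin M, Kn N (zf s * (wK M j : ℂ)⁻¹)) * (ε / 2) +
        8 * max B 0 / ((N + 1) * δ ^ 2) := by
        field_simp
    _ < ε := by rw [hmean]; linarith

/-- Weights as in QB_K.md (K). -/
theorem exists_weights {Y : Type} [TopologicalSpace Y] [CompactSpace Y] (f : C(Y × I, E))
    (hper : ∀ y, f (y, 0) = f (y, 1)) {ε : ℝ} (hε : 0 < ε) :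
    ∃ (N M : ℕ) (t : Fin M → I) (w : ℕ → Fin M → ℂ) (c : ℂ), 1 ≤ N ∧ c ≠ 0 ∧
      (∀ j ≤ 2 * N, ∑ i, w j i = if j = N then 1 else 0) ∧
      (∀ j ≤ 2 * N, ∑ i, w j i * zf (t i) = if j = N + 1 then c else 0) ∧
      ∀ (y : Y) (s : I), ‖(zf s ^ N)⁻¹ • (∑ j ∈ Finset.range (2 * N + 1),
        zf s ^ j • ∑ i, w j i • f (y, t i)) - f (y, s)‖ < ε := by
  obtain ⟨N0, hN0⟩ := fejer f hper hε
  let N := N0 + 1
  refine ⟨N, N + 2, tK (N + 2), fun j i => wt N (N + 2) ((j : ℤ) - N) i, kap N 1, by omega, ?_,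
    ?_, ?_, ?_⟩
  · have h1 : kap N 1 ≠ 0 := by
      unfold kap
      have h2 : (0 : ℝ) < N := by
        have : 0 < N := by omega
        exact_mod_cast this
      have h3 : (1 : ℝ) / (N + 1) < 1 := by
        rw [div_lt_one (by linarith)]
        linarith
      simp only [abs_one, Int.cast_one]
      linarith
    exact_mod_cast h1
  · intro j hj
    have h1 := sum_wt (N := N) (M := N + 2) (by omega) 0 ((j : ℤ) - N) (by omega) (by omega)
      le_rfl zero_le_one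
    simp only [zpow_zero, mul_one] at h1
    rw [h1]
    by_cases h : j = N
    · rw [if_pos h, if_pos (by omega), show ((j : ℤ) - N) = 0 by omega, kap_zero]
      simp
    · rw [if_neg h, if_neg (by omega)]
  · intro j hj
    have h1 := sum_wt (N := N) (M := N + 2) (by omega) 1 ((j : ℤ) - N) (by omega) (by omega)
      zero_le_one le_rfl
    simp only [zpow_one] at h1
    rw [h1]
    by_cases h : j = N + 1
    · rw [if_pos h, if_pos (by omega), show ((j : ℤ) - N) = 1 by omega]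
    · rw [if_neg h, if_neg (by omega)]
  · intro y s
    have h1 := hN0 N (by omega) (N + 2) (by omega) y s
    have h2 : ∑ k ∈ Finset.Icc (-(N : ℤ)) N, zf s ^ k • ∑ j : Fin (N + 2),
        wt N (N + 2) k j • f (y, tK (N + 2) j) = (zf s ^ N)⁻¹ • (∑ j ∈ Finset.range (2 * N + 1),
        zf s ^ j • ∑ i, wt N (N + 2) ((j : ℤ) - N) i • f (y, tK (N + 2) i)) := by
      rw [Finset.smul_sum]
      symm
      refine Finset.sum_bij (fun j _ => (j : ℤ) - N) ?_ ?_ ?_ ?_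
      · intro j hj
        rw [Finset.mem_range] at hj
        rw [Finset.mem_Icc]
        omega
      · intro a _ b _ h
        omega
      · intro k hk
        rw [Finset.mem_Icc] at hk
        refine ⟨(k + N).toNat, ?_, ?_⟩
        · rw [Finset.mem_range]; omega
        · omega
      · intro j _
        rw [smul_smul]
        congr 1
        rw [zpow_sub₀ (zf_ne s), zpow_natCast, zpow_natCast]
        field_simp
    rw [← h2]
    exact h1

end Pool.QB.KTh.IX
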