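import Pool.Agent.MP_c51823_gt.QB.KTh.NulB

/-!
# [QBK-G] The group structure

`K1Rel (n,g) (m,h) = Nul (g ⊕ h⁻¹)` is an equivalence relation: reflexive by `nul_gsum_inv`;
symmetric by `nul_inv`, `gsum_inv` and `nul_gsum_comm`; transitive: `(g ⊕ h⁻¹) ⊕ (h ⊕ k⁻¹)` is null
(`nul_gsum`), reindex it to `(g ⊕ k⁻¹) ⊕ (h⁻¹ ⊕ h)`, multiply by the inverse of `1 ⊕ (h⁻¹ ⊕ h)` which
is null. Hence `Quot.mk a = Quot.mk b ↔ Nul (gsum a.2 b.2⁻¹)` (`Equivalence`, `Quot.eq`,
`Relation.EqvGen`). The addition is the block sum (reindexed by `finSumFinEquiv`), the negative is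
`g⁻¹`, zero is `1`.
-/

set_option autoImplicit false
open Topology

namespace Pool.QB.KTh

variable {Y : Type} [TopologicalSpace Y] {B S : Set Y}
  {ι κ μ : Type} [Fintype ι] [DecidableEq ι] [Fintype κ] [DecidableEq κ] [Fintype μ] [DecidableEq μ]

namespace Grp_aux

theorem re_sssc {ν : Type} [Fintype ν] [DecidableEq ν] (a : GF B S ι) (b : GF B S κ)
    (c : GF B S μ) (d : GF B S ν) :
    greindex (Equiv.sumSumSumComm ι κ μ ν) (gsum (gsum a b) (gsum c d))
      = gsum (gsum a c) (gsum b d) := by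
  refine gf_ext (fun y => ?_)
  change (Matrix.fromBlocks (Matrix.fromBlocks (a.1.1 y) 0 0 (b.1.1 y)) 0 0
    (Matrix.fromBlocks (c.1.1 y) 0 0 (d.1.1 y))).submatrix _ _ =
    Matrix.fromBlocks (Matrix.fromBlocks (a.1.1 y) 0 0 (c.1.1 y)) 0 0
      (Matrix.fromBlocks (b.1.1 y) 0 0 (d.1.1 y))
  ext i j : 2
  rcases i with (i | i) | (i | i) <;> rcases j with (j | j) | (j | j) <;> rfl

theorem re_assoc (a : GF B S ι) (b : GF B S κ) (c : GF B S μ) :
    greindex (Equiv.sumAssoc ι κ μ) (gsum (gsum a b) c) = gsum a (gsum b c) := by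
  refine gf_ext (fun y => ?_)
  change (Matrix.fromBlocks (Matrix.fromBlocks (a.1.1 y) 0 0 (b.1.1 y)) 0 0 (c.1.1 y)).submatrix _ _ =
    Matrix.fromBlocks (a.1.1 y) 0 0 (Matrix.fromBlocks (b.1.1 y) 0 0 (c.1.1 y))
  ext i j : 2
  rcases i with i | (i | i) <;> rcases j with j | (j | j) <;> rfl

theorem re_comm (a : GF B S ι) (b : GF B S κ) :
    greindex (Equiv.sumComm ι κ) (gsum a b) = gsum b a := by
  refine gf_ext (fun y => ?_)
  change (Matrix.fromBlocks (a.1.1 y) 0 0 (b.1.1 y)).submatrix _ _ =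
    Matrix.fromBlocks (b.1.1 y) 0 0 (a.1.1 y)
  ext i j : 2
  rcases i with i | i <;> rcases j with j | j <;> rfl

theorem re_congr {ι' κ' : Type} [Fintype ι'] [DecidableEq ι'] [Fintype κ'] [DecidableEq κ']
    (e : ι ≃ ι') (f : κ ≃ κ') (a : GF B S ι) (b : GF B S κ) :
    greindex (Equiv.sumCongr e f) (gsum a b) = gsum (greindex e a) (greindex f b) := by
  refine gf_ext (fun y => ?_)
  change (Matrix.fromBlocks (a.1.1 y) 0 0 (b.1.1 y)).submatrix _ _ =
    Matrix.fromBlocks ((a.1.1 y).submatrix _ _) 0 0 ((b.1.1 y).submatrix _ _)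
  ext i j : 2
  rcases i with i | i <;> rcases j with j | j <;> rfl

theorem cancel_right {x : GF B S ι} {y : GF B S κ} (h : Nul (gsum x y)) (hy : Nul y) : Nul x := by
  have h1 : Nul (gsum (1 : GF B S ι) y) := (nul_one_gsum y).2 hy
  have h2 : Nul (gsum x y * (gsum (1 : GF B S ι) y)⁻¹) := nul_mul h (nul_inv h1)
  rw [gsum_inv, ← gsum_mul, inv_one, mul_one, mul_inv_cancel] at h2
  exact (nul_gsum_one x).1 h2

theorem nul_inv_gsum (g : GF B S ι) : Nul (gsum g⁻¹ g) := by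
  have := nul_gsum_inv g⁻¹
  rwa [inv_inv] at this

theorem rel_symm {g : GF B S ι} {h : GF B S κ} (H : Nul (gsum g h⁻¹)) : Nul (gsum h g⁻¹) := by
  have h1 := nul_inv H
  rw [gsum_inv, inv_inv] at h1
  exact (nul_gsum_comm _ _).1 h1

theorem rel_trans {g : GF B S ι} {h : GF B S κ} {k : GF B S μ} (H1 : Nul (gsum g h⁻¹))
    (H2 : Nul (gsum h k⁻¹)) : Nul (gsum g k⁻¹) := by
  have h2 : Nul (gsum k⁻¹ h) := (nul_gsum_comm _ _).1 H2
  have h3 := nul_gsum H1 h2
  rw [← nul_greindex (Equiv.sumSumSumComm ι κ μ κ), re_sssc] at h3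
  exact cancel_right h3 (nul_inv_gsum h)

theorem rel_reindex (e : ι ≃ κ) (g : GF B S ι) : Nul (gsum (greindex e g) g⁻¹) := by
  have h1 := nul_gsum_inv g
  rw [← nul_greindex (Equiv.sumCongr e (Equiv.refl ι)), re_congr] at h1
  exact h1

theorem rel_congr {ι' κ' : Type} [Fintype ι'] [DecidableEq ι'] [Fintype κ'] [DecidableEq κ']
    {g : GF B S ι} {g' : GF B S ι'} {h : GF B S κ} {h' : GF B S κ'} (H1 : Nul (gsum g g'⁻¹))
    (H2 : Nul (gsum h h'⁻¹)) : Nul (gsum (gsum g h) (gsum g' h')⁻¹) := by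
  have h3 := nul_gsum H1 H2
  rw [← nul_greindex (Equiv.sumSumSumComm ι ι' κ κ'), re_sssc] at h3
  rw [gsum_inv]
  exact h3

theorem rel_inv {g : GF B S ι} {h : GF B S κ} (H : Nul (gsum g h⁻¹)) :
    Nul (gsum g⁻¹ (h⁻¹)⁻¹) := by
  have h1 := nul_inv H
  rwa [gsum_inv] at h1

end Grp_aux

open Grp_aux

theorem k1Rel_equivalence (B S : Set Y) : Equivalence (K1Rel B S) where
  refl a := nul_gsum_inv a.2
  symm {a b} h := rel_symm (g := a.2) (h := b.2) h
  trans {a b c} h1 h2 := rel_trans (g := a.2) (h := b.2) (k := c.2) h1 h2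

namespace Grp_aux

theorem mk_eq_mk (a b : Σ n : ℕ, GF B S (Fin n)) :
    (Quot.mk (K1Rel B S) a = Quot.mk (K1Rel B S) b) ↔ Nul (gsum a.2 (b.2)⁻¹) := by
  constructor
  · intro h
    have h1 := Quot.eqvGen_exact h
    exact (k1Rel_equivalence B S).eqvGen_iff.1 h1
  · intro h
    exact Quot.sound h

end Grp_aux

theorem cl_eq_cl (g : GF B S ι) (h : GF B S κ) : cl g = cl h ↔ Nul (gsum g h⁻¹) := by
  refine (mk_eq_mk _ _).trans ?_
  change Nul (gsum (greindex (Fintype.equivFin ι) g) (greindex (Fintype.equivFin κ) h)⁻¹) ↔ _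
  rw [greindex_inv, ← re_congr, nul_greindex]

theorem exists_cl (x : K1 B S) : ∃ (n : ℕ) (g : GF B S (Fin n)), cl g = x := by
  induction x using Quot.ind with
  | mk a =>
    exact ⟨a.1, a.2, (mk_eq_mk _ _).2 (rel_reindex _ _)⟩

namespace Grp_aux

theorem cl_greindex (e : ι ≃ κ) (g : GF B S ι) : cl (greindex e g) = cl g :=
  (cl_eq_cl _ _).2 (rel_reindex e g)

theorem cl_comm (g : GF B S ι) (h : GF B S κ) : cl (gsum g h) = cl (gsum h g) := by
  rw [← re_comm, cl_greindex]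

theorem cl_assoc (g : GF B S ι) (h : GF B S κ) (k : GF B S μ) :
    cl (gsum (gsum g h) k) = cl (gsum g (gsum h k)) := by
  rw [← re_assoc, cl_greindex]

theorem cl_one_gsum (g : GF B S ι) : cl (gsum (1 : GF B S κ) g) = cl g := by
  rw [cl_eq_cl, ← nul_greindex (Equiv.sumAssoc κ ι ι), re_assoc, nul_one_gsum]
  exact nul_gsum_inv g

theorem cl_congr {ι' κ' : Type} [Fintype ι'] [DecidableEq ι'] [Fintype κ'] [DecidableEq κ']
    {g : GF B S ι} {g' : GF B S ι'} {h : GF B S κ} {h' : GF B S κ'} (H1 : cl g = cl g')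
    (H2 : cl h = cl h') : cl (gsum g h) = cl (gsum g' h') := by
  rw [cl_eq_cl] at *
  exact rel_congr H1 H2

theorem cl_mul (g h : GF B S ι) : cl (g * h) = cl (gsum g h) := by
  have h1 : cl (g * h) = cl (gsum (g * h) (1 : GF B S ι)) := by
    rw [cl_comm, cl_one_gsum]
  rw [h1, cl_eq_cl, nul_gsum_iff]
  have h2 : gsum g h = gsum (g * h) (1 : GF B S ι) * gsum h⁻¹ h := by
    rw [← gsum_mul, mul_assoc, mul_inv_cancel, mul_one, one_mul]
  have h3 : Nul ((gsum (g * h) (1 : GF B S ι))⁻¹ * gsum g h) := by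
    rw [h2, inv_mul_cancel_left]
    exact nul_inv_gsum h
  have h4 := nul_inv ((nul_mul_comm _ _).1 h3)
  rw [mul_inv_rev, inv_inv] at h4
  exact h4

noncomputable def rep (x : K1 B S) : Σ n : ℕ, GF B S (Fin n) :=
  ⟨(exists_cl x).choose, (exists_cl x).choose_spec.choose⟩

theorem cl_rep (x : K1 B S) : cl (rep x).2 = x := (exists_cl x).choose_spec.choose_spec

noncomputable def kadd (x y : K1 B S) : K1 B S := cl (gsum (rep x).2 (rep y).2)

noncomputable def kneg (x : K1 B S) : K1 B S := cl ((rep x).2)⁻¹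

theorem kadd_cl (g : GF B S ι) (h : GF B S κ) : kadd (cl g) (cl h) = cl (gsum g h) :=
  cl_congr (cl_rep _) (cl_rep _)

theorem kneg_cl (g : GF B S ι) : kneg (cl g) = cl g⁻¹ := by
  have h1 : cl (rep (cl g)).2 = cl g := cl_rep _
  unfold kneg
  rw [cl_eq_cl] at *
  exact rel_inv h1

end Grp_aux

/-- The group structure of `K1`. -/
theorem exists_grp (B S : Set Y) : ∃ _G : AddCommGroup (K1 B S),
    ∀ (ι : Type) [Fintype ι] [DecidableEq ι] (g h : GF B S ι), cl (g * h) = cl g + cl h := by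
  let iA : Add (K1 B S) := ⟨kadd⟩
  let iN : Neg (K1 B S) := ⟨kneg⟩
  let iZ : Zero (K1 B S) := ⟨cl (1 : GF B S (Fin 0))⟩
  have hadd : ∀ {α β : Type} [Fintype α] [DecidableEq α] [Fintype β] [DecidableEq β]
      (g : GF B S α) (h : GF B S β), cl g + cl h = cl (gsum g h) := fun g h => kadd_cl g h
  have hneg : ∀ {α : Type} [Fintype α] [DecidableEq α] (g : GF B S α), -cl g = cl g⁻¹ :=
    fun g => kneg_cl g
  have hcomm : ∀ x y : K1 B S, x + y = y + x := by
    intro x y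
    obtain ⟨n, g, rfl⟩ := exists_cl x
    obtain ⟨m, h, rfl⟩ := exists_cl y
    rw [hadd, hadd, cl_comm]
  have hassoc : ∀ x y z : K1 B S, x + y + z = x + (y + z) := by
    intro x y z
    obtain ⟨n, g, rfl⟩ := exists_cl x
    obtain ⟨m, h, rfl⟩ := exists_cl y
    obtain ⟨l, k, rfl⟩ := exists_cl z
    rw [hadd, hadd, hadd, hadd, cl_assoc]
  have hzero : ∀ x : K1 B S, 0 + x = x := by
    intro x
    obtain ⟨n, g, rfl⟩ := exists_cl x
    exact (hadd _ _).trans (cl_one_gsum g)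
  have hcancel : ∀ x : K1 B S, -x + x = 0 := by
    intro x
    obtain ⟨n, g, rfl⟩ := exists_cl x
    rw [hneg, hadd]
    change cl (gsum g⁻¹ g) = cl (1 : GF B S (Fin 0))
    rw [cl_eq_cl, inv_one, nul_gsum_one]
    exact nul_inv_gsum g
  let G : AddCommGroup (K1 B S) :=
    { iA, iN, iZ with
      add_assoc := hassoc
      zero_add := hzero
      add_zero := fun x => (hcomm x 0).trans (hzero x)
      add_comm := hcomm
      neg_add_cancel := hcancel
      nsmul := nsmulRec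
      zsmul := zsmulRec
      sub := fun x y => x + -y
      sub_eq_add_neg := fun _ _ => rfl }
  refine ⟨G, ?_⟩
  intro ι _ _ g h
  exact (cl_mul g h).trans (hadd g h).symm

end Pool.QB.KTh
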