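import Pool.Agent.MP_c51823_gt.QB.KTh.Tietze

/-!
# [QBK-H] Extension of homotopies

`hep`: apply `tietze` on `Z = Yd × I`, `K = i(Yc) × I ∪ Yd × {0}`, sets `cyl Bd`, `cyl Sd`, and the
function which is `h (x, t)` at `(i x, t)` and `1` at `(y, 0)`; get `F`. The set
`W = {y | ∀ t, IsUnit (F (y, t))}` is open (compactness of `I`, `isOpen_isUnit`) and contains `i(Yc)`;
take `χ : Yd → I` continuous, `χ = 1` on `i(Yc)`, `χ = 0` off `W` (Urysohn) and
`H (y, t) = F (y, t χ(y))` (for `y ∉ W` this is `F (y, 0) = 1`); `exists_gf`.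
-/

set_option autoImplicit false
open Topology

namespace Pool.QB.KTh

/-- Homotopy extension. -/
theorem hep {Yc Yd : Type} [TopologicalSpace Yc] [CompactSpace Yc] [T2Space Yc]
    [TopologicalSpace Yd] [CompactSpace Yd] [T2Space Yd] {Bc Sc : Set Yc} {Bd Sd Br : Set Yd}
    {i : C(Yc, Yd)} (E : CEmb Bc Sc Bd Sd Br i) {ι : Type} [Fintype ι] [DecidableEq ι]
    (h : GF (cyl Bc) (cyl Sc) ι) (h0 : ev 0 h = 1) :
    ∃ H : GF (cyl Bd) (cyl Sd) ι, ev 0 H = 1 ∧ pull (cylMap i) E.cyl.mB E.cyl.mS ι H = h := by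
  have h0' : ∀ x : Yc, h.1.1 (x, 0) = 1 := by
    intro x
    have h1 : (ev 0 h).1.1 x = (1 : GF Bc Sc ι).1.1 x := by rw [h0]
    exact h1
  -- the glued function
  let q : C((Yc × I) ⊕ Yd, Yd × I) :=
    ⟨Sum.elim (fun p => cylMap i p) (fun y => (y, 0)), by
      refine continuous_sum_dom.2 ⟨(cylMap i).continuous, ?_⟩
      exact continuous_id.prodMk continuous_const⟩
  let g : C((Yc × I) ⊕ Yd, Matrix ι ι R) :=
    ⟨Sum.elim (fun p => h.1.1 p) (fun _ => 1), by
      refine continuous_sum_dom.2 ⟨h.1.1.continuous, ?_⟩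
      exact continuous_const⟩
  let q' : C((Yc × I) ⊕ Yd, Set.range q) := ⟨fun s => ⟨q s, s, rfl⟩, by fun_prop⟩
  have hq' : IsQuotientMap q' := by
    refine IsClosedMap.isQuotientMap q'.continuous.isClosedMap q'.continuous ?_
    rintro ⟨_, s, rfl⟩
    exact ⟨s, rfl⟩
  have hfac : Function.FactorsThrough g q' := by
    intro s s' hs
    have hs1 : q s = q s' := congrArg Subtype.val hs
    rcases s with p | y <;> rcases s' with p' | y'
    · have h1 : p = p' := E.cyl.inj hs1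
      rw [h1]
    · have h1 : p.2 = 0 := congrArg Prod.snd hs1
      change h.1.1 p = 1
      rw [← h0' p.1, ← h1]
    · have h1 : (0 : I) = p'.2 := congrArg Prod.snd hs1
      change 1 = h.1.1 p'
      rw [← h0' p'.1, h1]
    · rfl
  have hK : IsClosed (Set.range q) := (isCompact_range q.continuous).isClosed
  let f : C(Set.range q, Matrix ι ι R) := hq'.lift g hfac
  have hf : ∀ s, f (q' s) = g s := fun s => by
    have := hq'.lift_comp g hfac
    exact congrArg (fun k : C(_, Matrix ι ι R) => k s) this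
  obtain ⟨F, hF1, hF2, hF3⟩ := tietze (isClosed_cyl E.closedB) (isClosed_cyl E.closedS) hK f
    (by
      rintro ⟨_, s, rfl⟩ hz
      refine (hf s).trans ?_
      rcases s with p | y
      · exact h.2.1 p ((E.cyl.hB p).1 hz)
      · rfl)
    (by
      rintro ⟨_, s, rfl⟩ hz
      have h1 : g s ∈ sc ι := by
        rcases s with p | y
        · exact (h.2.2 p ((E.cyl.hS p).1 hz)).1
        · exact one_mem _
      rw [← hf s] at h1
      exact h1)
  have hFi : ∀ x t, F (i x, t) = h.1.1 (x, t) := fun x t =>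
    (hF1 (q' (Sum.inl (x, t)))).trans (hf (Sum.inl (x, t)))
  have hF0 : ∀ y, F (y, 0) = 1 := fun y =>
    (hF1 (q' (Sum.inr y))).trans (hf (Sum.inr y))
  -- the open set where `F` is invertible
  have hWc : IsClosed (Prod.fst '' {p : Yd × I | ¬ IsUnit (F p)}) := by
    refine isClosedMap_fst_of_compactSpace _ ?_
    have h1 : IsOpen {p : Yd × I | IsUnit (F p)} := isOpen_isUnit.preimage F.continuous
    exact h1.isClosed_compl
  have hic : IsClosed (Set.range i) := (isCompact_range i.continuous).isClosed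
  have hdis : Disjoint (Prod.fst '' {p : Yd × I | ¬ IsUnit (F p)}) (Set.range i) := by
    rw [Set.disjoint_left]
    rintro _ ⟨⟨y, t⟩, hp, rfl⟩ ⟨x, hx⟩
    have hx' : i x = y := hx
    subst hx'
    apply hp
    rw [hFi]
    exact gf_isUnit h (x, t)
  obtain ⟨χ, hχ0, hχ1, hχ⟩ := exists_continuous_zero_one_of_isClosed hWc hic hdis
  let χ' : C(Yd, I) := ⟨fun y => ⟨χ y, hχ y⟩, by fun_prop⟩
  have hχ'1 : ∀ x, χ' (i x) = 1 := fun x => Subtype.ext (hχ1 ⟨x, rfl⟩)
  let m : C(Yd × I, Yd × I) := ⟨fun p => (p.1, p.2 * χ' p.1), by fun_prop⟩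
  have hu : ∀ p, IsUnit ((F.comp m) p) := by
    intro p
    by_cases hp : ∀ t, IsUnit (F (p.1, t))
    · exact hp _
    · push Not at hp
      obtain ⟨t, ht⟩ := hp
      have h1 : χ' p.1 = 0 := Subtype.ext (hχ0 ⟨(p.1, t), ht, rfl⟩)
      have h2 : (F.comp m) p = 1 := by
        change F (p.1, p.2 * χ' p.1) = 1
        rw [h1, mul_zero, hF0]
      rw [h2]
      exact isUnit_one
  obtain ⟨H, hH⟩ := exists_gf (B := cyl Bd) (S := cyl Sd) (F.comp m) hu
    (fun y hy => hF2 (m y) hy) (fun y hy => hF3 (m y) hy)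
  refine ⟨H, gf_ext fun y => ?_, gf_ext fun p => ?_⟩
  · change H.1.1 (y, 0) = 1
    rw [hH]
    change F (y, 0 * χ' y) = 1
    rw [zero_mul, hF0]
  · change H.1.1 (i p.1, p.2) = h.1.1 p
    rw [hH]
    change F (i p.1, p.2 * χ' (i p.1)) = h.1.1 p
    rw [hχ'1, mul_one, hFi]

end Pool.QB.KTh
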