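import Mathlib

/-!
# [QBK] Module K, base definitions

`R = M₂(ℂ)`; for a compact Hausdorff space `Y` with closed subsets `B`, `S` the group `GF B S ι` consists
of the invertible continuous functions `g : Y → M_ι(R)` with `g = 1` on `B` and with `g`, `g⁻¹` scalar
(entries in `ℂ ⊆ R`) on `S`. `K1 B S` is the group of stable homotopy classes.
-/

set_option autoImplicit false
open Topology

namespace Pool.QB.KTh

noncomputable section

/-- The coefficient ring `M₂(ℂ)`. -/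
abbrev R := Matrix (Fin 2) (Fin 2) ℂ

/-- The unit interval. -/
abbrev I := unitInterval

/-- Scalar matrices: all entries are complex numbers. -/
def sc (ι : Type) [Fintype ι] [DecidableEq ι] : Subalgebra ℂ (Matrix ι ι R) :=
  (AlgHom.mapMatrix (Algebra.ofId ℂ R)).range

section defs

variable {Y : Type} [TopologicalSpace Y]

/-- Invertible functions, `1` on `B`, scalar on `S`. -/
def GF (B S : Set Y) (ι : Type) [Fintype ι] [DecidableEq ι] : Subgroup (C(Y, Matrix ι ι R))ˣ where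
  carrier := {g | (∀ y ∈ B, g.1 y = 1) ∧ ∀ y ∈ S, g.1 y ∈ sc ι ∧ (g⁻¹).1 y ∈ sc ι}
  mul_mem' := by
    rintro a b ⟨ha, ha'⟩ ⟨hb, hb'⟩
    refine ⟨fun y hy => ?_, fun y hy => ⟨?_, ?_⟩⟩
    · change a.1 y * b.1 y = 1
      rw [ha y hy, hb y hy, one_mul]
    · change a.1 y * b.1 y ∈ sc ι
      exact mul_mem (ha' y hy).1 (hb' y hy).1
    · rw [mul_inv_rev]
      change (b⁻¹).1 y * (a⁻¹).1 y ∈ sc ι
      exact mul_mem (hb' y hy).2 (ha' y hy).2
  one_mem' := ⟨fun _ _ => rfl, fun _ _ => ⟨one_mem _, by rw [inv_one]; exact one_mem _⟩⟩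
  inv_mem' := by
    rintro a ⟨ha, ha'⟩
    refine ⟨fun y hy => ?_, fun y hy => ⟨(ha' y hy).2, by rw [inv_inv]; exact (ha' y hy).1⟩⟩
    have h1 : (a⁻¹).1 y * a.1 y = 1 := by
      have h2 : (a⁻¹).1 * a.1 = 1 := by rw [← Units.val_mul]; simp
      exact congrArg (fun f : C(Y, Matrix ι ι R) => f y) h2
    rw [ha y hy, mul_one] at h1
    exact h1

/-- Pull-back of matrix functions as a ring homomorphism. -/
def pullHom {Y' : Type} [TopologicalSpace Y'] (ι : Type) [Fintype ι] [DecidableEq ι] (f : C(Y, Y')) :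
    C(Y', Matrix ι ι R) →+* C(Y, Matrix ι ι R) where
  toFun g := g.comp f
  map_one' := rfl
  map_mul' _ _ := rfl
  map_zero' := rfl
  map_add' _ _ := rfl

/-- Pull-back of admissible invertible functions. -/
def pull {Y' : Type} [TopologicalSpace Y'] {B S : Set Y} {B' S' : Set Y'} (f : C(Y, Y'))
    (hB : Set.MapsTo f B B') (hS : Set.MapsTo f S S') (ι : Type) [Fintype ι] [DecidableEq ι] :
    GF B' S' ι →* GF B S ι where
  toFun g := ⟨Units.map (pullHom ι f).toMonoidHom g.1,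
    fun y hy => g.2.1 (f y) (hB hy), fun y hy => ⟨(g.2.2 (f y) (hS hy)).1, by
      have := (g.2.2 (f y) (hS hy)).2
      rw [← map_inv]
      exact this⟩⟩
  map_one' := by
    apply Subtype.ext
    exact map_one _
  map_mul' a b := by
    apply Subtype.ext
    exact map_mul _ _ _

/-- The cylinder over a set. -/
def cyl (B : Set Y) : Set (Y × I) := {p | p.1 ∈ B}

/-- `B × I ∪ Y × {0, 1}`. -/
def susB (B : Set Y) : Set (Y × I) := {p | p.1 ∈ B ∨ p.2 = 0 ∨ p.2 = 1}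

/-- `y ↦ (y, t)`. -/
def atMap (Y : Type) [TopologicalSpace Y] (t : I) : C(Y, Y × I) :=
  ⟨fun y => (y, t), by fun_prop⟩

/-- `(y, t) ↦ y`. -/
def prMap (Y : Type) [TopologicalSpace Y] : C(Y × I, Y) := ⟨Prod.fst, continuous_fst⟩

/-- Evaluation of a homotopy at the time `t`. -/
def ev {B S : Set Y} {ι : Type} [Fintype ι] [DecidableEq ι] (t : I) (H : GF (cyl B) (cyl S) ι) :
    GF B S ι :=
  pull (atMap Y t) (fun _ h => h) (fun _ h => h) ι H

/-- Block sum of matrix functions. -/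
def sumFn {ι κ : Type} [Fintype ι] [DecidableEq ι] [Fintype κ] [DecidableEq κ]
    (g : C(Y, Matrix ι ι R)) (h : C(Y, Matrix κ κ R)) : C(Y, Matrix (ι ⊕ κ) (ι ⊕ κ) R) :=
  ⟨fun y => Matrix.fromBlocks (g y) 0 0 (h y),
    g.continuous.matrix_fromBlocks continuous_const continuous_const h.continuous⟩

theorem sumFn_mul {ι κ : Type} [Fintype ι] [DecidableEq ι] [Fintype κ] [DecidableEq κ]
    (g g' : C(Y, Matrix ι ι R)) (h h' : C(Y, Matrix κ κ R)) :
    sumFn (g * g') (h * h') = sumFn g h * sumFn g' h' := by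
  ext1 y
  change Matrix.fromBlocks (g y * g' y) 0 0 (h y * h' y) =
    Matrix.fromBlocks (g y) 0 0 (h y) * Matrix.fromBlocks (g' y) 0 0 (h' y)
  rw [Matrix.fromBlocks_multiply]
  simp

theorem sumFn_one {ι κ : Type} [Fintype ι] [DecidableEq ι] [Fintype κ] [DecidableEq κ] :
    sumFn (1 : C(Y, Matrix ι ι R)) (1 : C(Y, Matrix κ κ R)) = 1 := by
  ext1 y
  exact Matrix.fromBlocks_one

theorem fromBlocks_mem_sc {ι κ : Type} [Fintype ι] [DecidableEq ι] [Fintype κ] [DecidableEq κ]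
    {a : Matrix ι ι R} {b : Matrix κ κ R} (ha : a ∈ sc ι) (hb : b ∈ sc κ) :
    Matrix.fromBlocks a 0 0 b ∈ sc (ι ⊕ κ) := by
  obtain ⟨m, rfl⟩ := ha
  obtain ⟨n, rfl⟩ := hb
  refine ⟨Matrix.fromBlocks m 0 0 n, ?_⟩
  ext i j : 2
  rcases i with i | i <;> rcases j with j | j <;> simp

/-- Block sum. -/
def gsum {B S : Set Y} {ι κ : Type} [Fintype ι] [DecidableEq ι] [Fintype κ] [DecidableEq κ]
    (g : GF B S ι) (h : GF B S κ) : GF B S (ι ⊕ κ) :=
  ⟨⟨sumFn g.1.1 h.1.1, sumFn (g.1⁻¹).1 (h.1⁻¹).1,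
      by rw [← sumFn_mul, ← Units.val_mul, ← Units.val_mul, mul_inv_cancel, mul_inv_cancel,
        Units.val_one, Units.val_one, sumFn_one],
      by rw [← sumFn_mul, ← Units.val_mul, ← Units.val_mul, inv_mul_cancel, inv_mul_cancel,
        Units.val_one, Units.val_one, sumFn_one]⟩,
    fun y hy => by
      change Matrix.fromBlocks (g.1.1 y) 0 0 (h.1.1 y) = 1
      rw [g.2.1 y hy, h.2.1 y hy, Matrix.fromBlocks_one],
    fun y hy => ⟨fromBlocks_mem_sc (g.2.2 y hy).1 (h.2.2 y hy).1,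
      fromBlocks_mem_sc (g.2.2 y hy).2 (h.2.2 y hy).2⟩⟩

/-- Reindexing of matrix functions. -/
def reFn {ι κ : Type} [Fintype ι] [DecidableEq ι] [Fintype κ] [DecidableEq κ] (e : ι ≃ κ)
    (g : C(Y, Matrix ι ι R)) : C(Y, Matrix κ κ R) :=
  ⟨fun y => (g y).submatrix e.symm e.symm, g.continuous.matrix_submatrix _ _⟩

theorem submatrix_mem_sc {ι κ : Type} [Fintype ι] [DecidableEq ι] [Fintype κ] [DecidableEq κ]
    (e : κ ≃ ι) {a : Matrix ι ι R} (ha : a ∈ sc ι) : a.submatrix e e ∈ sc κ := by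
  obtain ⟨m, rfl⟩ := ha
  exact ⟨m.submatrix e e, rfl⟩

theorem reFn_mul {ι κ : Type} [Fintype ι] [DecidableEq ι] [Fintype κ] [DecidableEq κ] (e : ι ≃ κ)
    (g g' : C(Y, Matrix ι ι R)) : reFn e (g * g') = reFn e g * reFn e g' := by
  ext1 y
  exact (Matrix.submatrix_mul_equiv (g y) (g' y) e.symm e.symm e.symm).symm

theorem reFn_one {ι κ : Type} [Fintype ι] [DecidableEq ι] [Fintype κ] [DecidableEq κ] (e : ι ≃ κ) :
    reFn e (1 : C(Y, Matrix ι ι R)) = 1 := by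
  ext1 y
  exact Matrix.submatrix_one_equiv e.symm

/-- Reindexing. -/
def greindex {B S : Set Y} {ι κ : Type} [Fintype ι] [DecidableEq ι] [Fintype κ] [DecidableEq κ]
    (e : ι ≃ κ) (g : GF B S ι) : GF B S κ :=
  ⟨⟨reFn e g.1.1, reFn e (g.1⁻¹).1,
      by rw [← reFn_mul, ← Units.val_mul, mul_inv_cancel, Units.val_one, reFn_one],
      by rw [← reFn_mul, ← Units.val_mul, inv_mul_cancel, Units.val_one, reFn_one]⟩,
    fun y hy => by
      change (g.1.1 y).submatrix e.symm e.symm = 1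
      rw [g.2.1 y hy, Matrix.submatrix_one_equiv],
    fun y hy => ⟨submatrix_mem_sc e.symm (g.2.2 y hy).1, submatrix_mem_sc e.symm (g.2.2 y hy).2⟩⟩

/-- Stably null homotopic. -/
def Nul {B S : Set Y} {ι : Type} [Fintype ι] [DecidableEq ι] (g : GF B S ι) : Prop :=
  ∃ (n : ℕ) (H : GF (cyl B) (cyl S) (ι ⊕ Fin n)), ev 0 H = 1 ∧ ev 1 H = gsum g (1 : GF B S (Fin n))

/-- Conjugation by an invertible function which is scalar on `S` (no condition on `B`). -/
def gconj {B S : Set Y} {ι : Type} [Fintype ι] [DecidableEq ι] (P : GF (∅ : Set Y) S ι)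
    (g : GF B S ι) : GF B S ι :=
  ⟨P.1 * g.1 * P.1⁻¹, fun y hy => by
      change P.1.1 y * g.1.1 y * (P.1⁻¹).1 y = 1
      rw [g.2.1 y hy, mul_one]
      have h2 : P.1.1 * (P.1⁻¹).1 = 1 := by rw [← Units.val_mul]; simp
      exact congrArg (fun f : C(Y, Matrix ι ι R) => f y) h2,
    fun y hy => ⟨by
      change P.1.1 y * g.1.1 y * (P.1⁻¹).1 y ∈ sc ι
      exact mul_mem (mul_mem (P.2.2 y hy).1 (g.2.2 y hy).1) (P.2.2 y hy).2, by
      rw [mul_inv_rev, mul_inv_rev, inv_inv]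
      change P.1.1 y * ((g.1⁻¹).1 y * (P.1⁻¹).1 y) ∈ sc ι
      exact mul_mem (P.2.2 y hy).1 (mul_mem (g.2.2 y hy).2 (P.2.2 y hy).2)⟩⟩

/-- The relation defining `K1`. -/
def K1Rel (B S : Set Y) (a b : Σ n : ℕ, GF B S (Fin n)) : Prop := Nul (gsum a.2 (b.2)⁻¹)

/-- The group of stable homotopy classes (as a type). -/
def K1 (B S : Set Y) : Type := Quot (K1Rel B S)

/-- The class of an invertible function. -/
def cl {B S : Set Y} {ι : Type} [Fintype ι] [DecidableEq ι] (g : GF B S ι) : K1 B S :=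
  Quot.mk _ ⟨Fintype.card ι, greindex (Fintype.equivFin ι) g⟩

end defs

theorem smul_one_mem_sc {ι : Type} [Fintype ι] [DecidableEq ι] (c : ℂ) :
    c • (1 : Matrix ι ι R) ∈ sc ι := Subalgebra.smul_mem _ (one_mem _) _

/-- The `2 × 2` block matrix `[[a, b], [c, d]]` with scalar multiples of `1` as blocks. -/
def bl (ι : Type) [Fintype ι] [DecidableEq ι] (a b c d : ℂ) : Matrix (ι ⊕ ι) (ι ⊕ ι) R :=
  Matrix.fromBlocks (a • (1 : Matrix ι ι R)) (b • 1) (c • 1) (d • 1)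

theorem bl_mem_sc {ι : Type} [Fintype ι] [DecidableEq ι] (a b c d : ℂ) :
    bl ι a b c d ∈ sc (ι ⊕ ι) := by
  refine ⟨Matrix.fromBlocks (a • (1 : Matrix ι ι ℂ)) (b • 1) (c • 1) (d • 1), ?_⟩
  ext i j k l
  rcases i with i | i <;> rcases j with j | j <;> by_cases h : i = j <;>
    simp [bl, Matrix.one_apply, Algebra.algebraMap_eq_smul_one, h, Algebra.ofId_apply]

theorem bl_mul {ι : Type} [Fintype ι] [DecidableEq ι] (a b c d a' b' c' d' : ℂ) :
    bl ι a b c d * bl ι a' b' c' d' =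
      bl ι (a * a' + b * c') (a * b' + b * d') (c * a' + d * c') (c * b' + d * d') := by
  unfold bl
  rw [Matrix.fromBlocks_multiply]
  simp only [Matrix.smul_mul, Matrix.mul_smul, one_mul, smul_smul, ← add_smul]
  congr 2 <;> ring

theorem bl_one {ι : Type} [Fintype ι] [DecidableEq ι] : bl ι 1 0 0 1 = 1 := by
  unfold bl
  rw [one_smul, zero_smul, Matrix.fromBlocks_one]

/-- The rotation matrix by the angle `s π t / 2` acting on `ι ⊕ ι`. -/
def rotFn (ι : Type) [Fintype ι] [DecidableEq ι] (s : ℝ) : C(I, Matrix (ι ⊕ ι) (ι ⊕ ι) R) :=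
  ⟨fun t => bl ι (Real.cos (s * (Real.pi / 2 * t)) : ℝ) (-Real.sin (s * (Real.pi / 2 * t)) : ℝ)
      (Real.sin (s * (Real.pi / 2 * t)) : ℝ) (Real.cos (s * (Real.pi / 2 * t)) : ℝ), by
    unfold bl
    refine Continuous.matrix_fromBlocks ?_ ?_ ?_ ?_ <;> fun_prop⟩

theorem rotFn_mul (ι : Type) [Fintype ι] [DecidableEq ι] (s : ℝ) :
    rotFn ι s * rotFn ι (-s) = 1 := by
  ext1 t
  change bl ι _ _ _ _ * bl ι _ _ _ _ = 1
  rw [bl_mul, ← bl_one]
  have h := Real.cos_sq_add_sin_sq (s * (Real.pi / 2 * t))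
  rw [neg_mul, Real.cos_neg, Real.sin_neg]
  congr 1 <;> norm_cast <;> nlinarith

/-- The rotation as an invertible scalar function on `I`. -/
def rot (ι : Type) [Fintype ι] [DecidableEq ι] : GF (∅ : Set I) Set.univ (ι ⊕ ι) :=
  ⟨⟨rotFn ι 1, rotFn ι (-1), rotFn_mul ι 1, by
      have := rotFn_mul ι (-1)
      rwa [neg_neg] at this⟩,
    fun _ h => h.elim, fun _ _ => ⟨bl_mem_sc _ _ _ _, bl_mem_sc _ _ _ _⟩⟩

end

end Pool.QB.KTh
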