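import Pool.Agent.MP_c51823_gt.QB.KTh.Api

/-!
# [QBK-M] Functoriality of `K1`
-/

set_option autoImplicit false
open Topology

namespace Pool.QB.KTh

variable {Y Y' Y'' : Type} [TopologicalSpace Y] [TopologicalSpace Y'] [TopologicalSpace Y'']
  {B S : Set Y} {B' S' : Set Y'} {B'' S'' : Set Y''}

namespace KMap_aux

/-- equality of admissible functions can be checked pointwise -/
theorem gf_ext {ι : Type} [Fintype ι] [DecidableEq ι] {g h : GF B S ι}
    (e : ∀ y, g.1.1 y = h.1.1 y) : g = h := by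
  apply Subtype.ext
  apply Units.ext
  ext1 y
  exact e y

/-- `f × id` -/
def timesI (f : C(Y, Y')) : C(Y × I, Y' × I) := ⟨fun p => (f p.1, p.2), by fun_prop⟩

theorem pull_greindex (f : C(Y, Y')) (hB : Set.MapsTo f B B') (hS : Set.MapsTo f S S')
    {ι κ : Type} [Fintype ι] [DecidableEq ι] [Fintype κ] [DecidableEq κ] (e : ι ≃ κ)
    (g : GF B' S' ι) :
    pull f hB hS κ (greindex e g) = greindex e (pull f hB hS ι g) := gf_ext fun _ => rfl

theorem pull_gsum (f : C(Y, Y')) (hB : Set.MapsTo f B B') (hS : Set.MapsTo f S S')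
    {ι κ : Type} [Fintype ι] [DecidableEq ι] [Fintype κ] [DecidableEq κ]
    (g : GF B' S' ι) (h : GF B' S' κ) :
    pull f hB hS (ι ⊕ κ) (gsum g h) = gsum (pull f hB hS ι g) (pull f hB hS κ h) :=
  gf_ext fun _ => rfl

theorem ev_pull (f : C(Y, Y')) (hB : Set.MapsTo f B B') (hS : Set.MapsTo f S S')
    (hB2 : Set.MapsTo (timesI f) (cyl B) (cyl B')) (hS2 : Set.MapsTo (timesI f) (cyl S) (cyl S'))
    {ι : Type} [Fintype ι] [DecidableEq ι] (H : GF (cyl B') (cyl S') ι) (t : I) :
    ev t (pull (timesI f) hB2 hS2 ι H) = pull f hB hS ι (ev t H) := gf_ext fun _ => rfl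

end KMap_aux

open KMap_aux

/-- `exists_lift` with `φ ι g = cl (pull f g)`. -/
theorem exists_kmap (f : C(Y, Y')) (hB : Set.MapsTo f B B') (hS : Set.MapsTo f S S') :
    ∃ F : K1 B' S' →+ K1 B S, ∀ (ι : Type) [Fintype ι] [DecidableEq ι] (g : GF B' S' ι),
      F (cl g) = cl (pull f hB hS ι g) := by
  refine exists_lift (fun ι _ _ g => cl (pull f hB hS ι g)) ?_ ?_ ?_ ?_
  · intro ι _ _ g h
    change cl (pull f hB hS ι (g * h)) = _
    rw [map_mul, cl_mul]
  · intro ι κ _ _ _ _ e g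
    change cl (pull f hB hS κ (greindex e g)) = cl (pull f hB hS ι g)
    rw [pull_greindex, cl_greindex]
  · intro ι κ _ _ _ _ g
    change cl (pull f hB hS (ι ⊕ κ) (gsum g 1)) = cl (pull f hB hS ι g)
    rw [pull_gsum, map_one, cl_gsum_one]
  · intro ι _ _ H hH
    have hB2 : Set.MapsTo (timesI f) (cyl B) (cyl B') := fun p hp => hB hp
    have hS2 : Set.MapsTo (timesI f) (cyl S) (cyl S') := fun p hp => hS hp
    have key := cl_homotopy (pull (timesI f) hB2 hS2 ι H)
    rw [ev_pull f hB hS, ev_pull f hB hS, hH, map_one, cl_one] at key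
    exact key.symm

/-- The induced homomorphism. -/
noncomputable def kmap (f : C(Y, Y')) (hB : Set.MapsTo f B B') (hS : Set.MapsTo f S S') :
    K1 B' S' →+ K1 B S := (exists_kmap f hB hS).choose

theorem kmap_cl (f : C(Y, Y')) (hB : Set.MapsTo f B B') (hS : Set.MapsTo f S S') {ι : Type}
    [Fintype ι] [DecidableEq ι] (g : GF B' S' ι) : kmap f hB hS (cl g) = cl (pull f hB hS ι g) :=
  (exists_kmap f hB hS).choose_spec ι g

theorem kmap_id (hB : Set.MapsTo (ContinuousMap.id Y) B B) (hS : Set.MapsTo (ContinuousMap.id Y) S S)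
    (x : K1 B S) : kmap (ContinuousMap.id Y) hB hS x = x := by
  have h : kmap (ContinuousMap.id Y) hB hS = AddMonoidHom.id (K1 B S) := by
    refine hom_ext fun n g => ?_
    rw [kmap_cl]
    change cl _ = cl g
    congr 1
  exact DFunLike.congr_fun h x

theorem kmap_comp (f : C(Y, Y')) (hB : Set.MapsTo f B B') (hS : Set.MapsTo f S S')
    (f' : C(Y', Y'')) (hB' : Set.MapsTo f' B' B'') (hS' : Set.MapsTo f' S' S'')
    (hB'' : Set.MapsTo (f'.comp f) B B'') (hS'' : Set.MapsTo (f'.comp f) S S'') (x : K1 B'' S'') :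
    kmap (f'.comp f) hB'' hS'' x = kmap f hB hS (kmap f' hB' hS' x) := by
  have h : kmap (f'.comp f) hB'' hS'' = (kmap f hB hS).comp (kmap f' hB' hS') := by
    refine hom_ext fun n g => ?_
    rw [AddMonoidHom.comp_apply, kmap_cl, kmap_cl, kmap_cl]
    congr 1
  exact DFunLike.congr_fun h x

/-- Homotopy invariance. -/
theorem kmap_homotopy (F : C(Y × I, Y')) (hB : Set.MapsTo F (cyl B) B')
    (hS : Set.MapsTo F (cyl S) S') (f g : C(Y, Y')) (h0 : ∀ y, F (y, 0) = f y)
    (h1 : ∀ y, F (y, 1) = g y) (hf : Set.MapsTo f B B') (hf' : Set.MapsTo f S S')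
    (hg : Set.MapsTo g B B') (hg' : Set.MapsTo g S S') (x : K1 B' S') :
    kmap f hf hf' x = kmap g hg hg' x := by
  have h : kmap f hf hf' = kmap g hg hg' := by
    refine hom_ext fun n u => ?_
    rw [kmap_cl, kmap_cl]
    have key := cl_homotopy (pull F hB hS (Fin n) u)
    have e0 : ev 0 (pull F hB hS (Fin n) u) = pull f hf hf' (Fin n) u := by
      refine gf_ext fun y => ?_
      change u.1.1 (F (y, 0)) = u.1.1 (f y)
      rw [h0]
    have e1 : ev 1 (pull F hB hS (Fin n) u) = pull g hg hg' (Fin n) u := by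
      refine gf_ext fun y => ?_
      change u.1.1 (F (y, 1)) = u.1.1 (g y)
      rw [h1]
    rw [e0, e1] at key
    exact key
  exact DFunLike.congr_fun h x

/-- If `B = Y` the group vanishes (`GF` consists of `1` only). -/
theorem k1_univ (hB : ∀ y, y ∈ B) (x : K1 B S) : x = 0 := by
  have h : AddMonoidHom.id (K1 B S) = 0 := by
    refine hom_ext fun n g => ?_
    have hg : g = 1 := gf_ext fun y => g.2.1 y (hB y)
    rw [hg, cl_one, map_zero, map_zero]
  exact DFunLike.congr_fun h x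

end Pool.QB.KTh
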