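import Pool.Agent.MP_c51823_gt.QB.KTh.Line
import Pool.Agent.MP_c51823_gt.QB.KTh.DiscDef

/-!
# [QBK] The relative operators on `CP a` (definitions)

For `e ∈ CP a` (rank one projection onto the line of `z = (z_0, …, z_a)`) let
`rho a k e = max 0 (max_{j ≠ k} e_jj - e_kk)`; it vanishes iff `|z_k|` is maximal. `scl k r e` is the
projection onto the line of the vector with coordinates `z_k` and `r z_j` (`j ≠ k`).
-/

set_option autoImplicit false
open Topology

namespace Pool.QB.KTh

noncomputable section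

/-- `max 0 (max_{j ≤ a, j ≠ k} e_jj - e_kk)` -/
def rho (a k : ℕ) (e : ℕ → ℕ → ℂ) : ℝ :=
  max 0 ((Finset.range (a + 1)).fold max 0 (fun j => if j = k then 0 else (e j j).re) - (e k k).re)

/-- the projection onto the line of `(r z_0, …, z_k, …, r z_a)` -/
def scl {a : ℕ} (k : Fin (a + 1)) (r : ℝ) (e : Matrix (Fin (a + 1)) (Fin (a + 1)) ℂ) :
    Matrix (Fin (a + 1)) (Fin (a + 1)) ℂ :=
  Matrix.of fun i j => ((if i = k then 1 else r : ℝ) : ℂ) * ((if j = k then 1 else r : ℝ) : ℂ) * e i j /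
    ∑ l, ((if l = k then 1 else r : ℝ) : ℂ) ^ 2 * e l l

namespace NilDef_aux

/-- the coefficients -/
def cf {a : ℕ} (k : Fin (a + 1)) (r : ℝ) (i : Fin (a + 1)) : ℝ := if i = k then 1 else r

theorem scl_apply {a : ℕ} (k : Fin (a + 1)) (r : ℝ) (e : Matrix (Fin (a + 1)) (Fin (a + 1)) ℂ)
    (i j : Fin (a + 1)) : scl k r e i j =
      (cf k r i : ℂ) * (cf k r j : ℂ) * e i j / ∑ l, (cf k r l : ℂ) ^ 2 * e l l := rfl

theorem taut_apply {a : ℕ} (e : CP a) (i j : Fin (a + 1)) : taut a e i j = e.1 i j := rfl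

theorem denom {a : ℕ} (k : Fin (a + 1)) {r : ℝ} (hr : 0 ≤ r) (e : CP a)
    (h : 0 < r ∨ e.1 k k ≠ 0) {v : Fin (a + 1) → ℂ} (hv : ∑ i, v i * (starRingEnd ℂ) (v i) = 1)
    (hv2 : ∀ i j, taut a e i j = v i * (starRingEnd ℂ) (v j)) :
    ∃ N : ℝ, 0 < N ∧ ∑ l, (cf k r l : ℂ) ^ 2 * taut a e l l = (N : ℂ) ∧
      N = ∑ l, (cf k r l) ^ 2 * Complex.normSq (v l) := by
  refine ⟨∑ l, (cf k r l) ^ 2 * Complex.normSq (v l), ?_, ?_, rfl⟩
  · have hnn : ∀ l ∈ (Finset.univ : Finset (Fin (a + 1))),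
        0 ≤ (cf k r l) ^ 2 * Complex.normSq (v l) := fun l _ =>
      mul_nonneg (sq_nonneg _) (Complex.normSq_nonneg _)
    rcases h with h | h
    · obtain ⟨j, hj⟩ : ∃ j, v j ≠ 0 := by
        by_contra hcon
        push Not at hcon
        rw [Finset.sum_eq_zero fun i _ => by rw [hcon i, zero_mul]] at hv
        exact zero_ne_one hv
      refine Finset.sum_pos' hnn ⟨j, Finset.mem_univ _, mul_pos (pow_pos ?_ 2) (Complex.normSq_pos.2 hj)⟩
      unfold cf
      split_ifs
      · exact one_pos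
      · exact h
    · refine Finset.sum_pos' hnn ⟨k, Finset.mem_univ _, mul_pos (pow_pos ?_ 2) (Complex.normSq_pos.2 ?_)⟩
      · unfold cf
        rw [if_pos rfl]
        exact one_pos
      · intro h0
        apply h
        rw [← taut_apply, hv2, h0, zero_mul]
  · push_cast
    refine Finset.sum_congr rfl fun l _ => ?_
    rw [hv2, Complex.mul_conj]

theorem diag_re {a : ℕ} (e : CP a) {v : Fin (a + 1) → ℂ}
    (hv2 : ∀ i j, taut a e i j = v i * (starRingEnd ℂ) (v j)) (j : Fin (a + 1)) :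
    (e.1 j j).re = Complex.normSq (v j) := by
  rw [← taut_apply, hv2, Complex.mul_conj, Complex.ofReal_re]

end NilDef_aux

open NilDef_aux

theorem continuous_rho (a k : ℕ) : Continuous fun e : CP a => rho a k e.1 := by
  have h1 : ∀ j : ℕ, Continuous fun e : CP a => (e.1 j j).re := fun j =>
    Complex.continuous_re.comp ((continuous_apply j).comp ((continuous_apply j).comp
      continuous_subtype_val))
  have h2 : ∀ T : Finset ℕ, Continuous fun e : CP a =>
      T.fold max 0 (fun j => if j = k then (0 : ℝ) else (e.1 j j).re) := by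
    intro T
    induction T using Finset.induction_on with
    | empty => simpa using continuous_const
    | insert b T hb ih =>
      simp only [Finset.fold_insert hb]
      refine Continuous.max ?_ ih
      split_ifs
      · exact continuous_const
      · exact h1 b
  unfold rho
  exact continuous_const.max ((h2 _).sub (h1 k))

/-- For `0 ≤ r` and (`0 < r` or `z_k ≠ 0`) the scaled matrix is a line. -/
theorem scl_isLine {a : ℕ} (k : Fin (a + 1)) {r : ℝ} (hr : 0 ≤ r) (e : CP a)
    (h : 0 < r ∨ e.1 k k ≠ 0) : IsLine (scl k r (taut a e)) := by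
  obtain ⟨v, hv, hv2⟩ := taut_isLine e
  obtain ⟨N, hN, hN1, hN2⟩ := denom k hr e h hv hv2
  have hs : (Real.sqrt N : ℂ) * (Real.sqrt N : ℂ) = (N : ℂ) := by
    rw [← Complex.ofReal_mul, Real.mul_self_sqrt hN.le]
  have hN0 : (N : ℂ) ≠ 0 := by exact_mod_cast hN.ne'
  have hs0 : (Real.sqrt N : ℂ) ≠ 0 := by
    intro h0
    rw [h0, zero_mul] at hs
    exact hN0 hs.symm
  refine ⟨fun i => (cf k r i : ℂ) * v i / (Real.sqrt N : ℂ), ?_, ?_⟩
  · have h1 : ∀ i, (cf k r i : ℂ) * v i / (Real.sqrt N : ℂ) *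
        (starRingEnd ℂ) ((cf k r i : ℂ) * v i / (Real.sqrt N : ℂ)) =
        ((cf k r i ^ 2 * Complex.normSq (v i) : ℝ) : ℂ) / (N : ℂ) := by
      intro i
      rw [map_div₀, map_mul, Complex.conj_ofReal, Complex.conj_ofReal, div_mul_div_comm, hs]
      congr 1
      push_cast
      rw [← Complex.mul_conj]
      ring
    rw [Finset.sum_congr rfl fun i _ => h1 i, ← Finset.sum_div, ← Complex.ofReal_sum, ← hN2]
    exact div_self hN0
  · intro i j
    rw [scl_apply, hN1, hv2, map_div₀, map_mul, Complex.conj_ofReal, Complex.conj_ofReal,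
      div_mul_div_comm, hs]
    congr 1
    ring

theorem rho_pos {a : ℕ} (k : ℕ) (e : CP a) : 0 < rho a k e.1 ∨ e.1 k k ≠ 0 := by
  by_cases hk : e.1 k k = 0
  · left
    obtain ⟨v, hv, hv2⟩ := taut_isLine e
    obtain ⟨j, hj⟩ : ∃ j, v j ≠ 0 := by
      by_contra hcon
      push Not at hcon
      rw [Finset.sum_eq_zero fun i _ => by rw [hcon i, zero_mul]] at hv
      exact zero_ne_one hv
    have h1 : 0 < (e.1 j j).re := by
      rw [diag_re e hv2]
      exact Complex.normSq_pos.2 hj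
    have hjk : (j : ℕ) ≠ k := by
      intro h
      rw [h, hk] at h1
      simp at h1
    unfold rho
    refine lt_of_lt_of_le ?_ (le_max_right _ _)
    rw [hk, Complex.zero_re, sub_zero, Finset.lt_fold_max]
    right
    refine ⟨j, Finset.mem_range.2 j.2, ?_⟩
    rw [if_neg hjk]
    exact h1
  · exact Or.inr hk

/-- continuity of the scaled line -/
theorem continuous_scl {a : ℕ} (k : Fin (a + 1)) {X : Type} [TopologicalSpace X] (r : X → ℝ)
    (hr : Continuous r) (hr0 : ∀ x, 0 ≤ r x) (g : C(X, CP a))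
    (h : ∀ x, 0 < r x ∨ (g x).1 k k ≠ 0) : Continuous fun x => scl k (r x) (taut a (g x)) := by
  have hc : ∀ i, Continuous fun x => ((cf k (r x) i : ℝ) : ℂ) := by
    intro i
    unfold cf
    split_ifs
    · exact continuous_const
    · exact Complex.continuous_ofReal.comp hr
  have ht : ∀ i j, Continuous fun x => taut a (g x) i j := fun i j =>
    ((taut a).comp g).continuous.matrix_elem i j
  refine continuous_matrix fun i j => ?_
  have h1 : ∀ x, scl k (r x) (taut a (g x)) i j =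
      (cf k (r x) i : ℂ) * (cf k (r x) j : ℂ) * taut a (g x) i j /
        ∑ l, (cf k (r x) l : ℂ) ^ 2 * taut a (g x) l l := fun _ => rfl
  simp only [h1]
  refine Continuous.div (((hc i).mul (hc j)).mul (ht i j))
    (continuous_finsetSum _ fun l _ => ((hc l).pow 2).mul (ht l l)) fun x => ?_
  obtain ⟨v, hv, hv2⟩ := taut_isLine (g x)
  obtain ⟨N, hN, hN1, -⟩ := denom k (hr0 x) (g x) (h x) hv hv2
  rw [hN1]
  exact_mod_cast hN.ne'

theorem scl_zero {a : ℕ} (k : Fin (a + 1)) (e : CP a) (h : e.1 k k ≠ 0) :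
    scl k 0 (taut a e) = Ek k := by
  have hd : ∑ l, (cf k 0 l : ℂ) ^ 2 * taut a e l l = taut a e k k := by
    rw [Finset.sum_eq_single k]
    · simp [cf]
    · intro l _ hl
      simp [cf, hl]
    · intro h0
      exact absurd (Finset.mem_univ k) h0
  have h' : taut a e k k ≠ 0 := h
  ext i j
  rw [scl_apply, hd]
  unfold Ek
  by_cases hi : i = k
  · by_cases hj : j = k
    · subst hi hj
      rw [Matrix.single_apply_same]
      simp only [cf, if_true]
      rw [Complex.ofReal_one, one_mul, one_mul]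
      exact div_self h'
    · rw [Matrix.single_apply_of_ne _ _ _ _ _ (fun hh => hj hh.2.symm)]
      simp [cf, hj]
  · rw [Matrix.single_apply_of_ne _ _ _ _ _ (fun hh => hi hh.1.symm)]
    simp [cf, hi]

theorem scl_one {a : ℕ} (k : Fin (a + 1)) (e : CP a) : scl k 1 (taut a e) = taut a e := by
  obtain ⟨v, hv, hv2⟩ := taut_isLine e
  have h1 : ∀ l, (cf k 1 l : ℂ) = 1 := by
    intro l
    unfold cf
    rw [ite_self, Complex.ofReal_one]
  ext i j
  rw [scl_apply]
  simp only [h1, one_pow, one_mul]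
  have h2 : ∑ l, taut a e l l = 1 := by
    rw [← hv]
    exact Finset.sum_congr rfl fun l _ => hv2 l l
  rw [h2, div_one]

/-- For every `e` some `|z_k|` is maximal. -/
theorem exists_rho_eq_zero {a : ℕ} (e : CP a) : ∃ k ≤ a, rho a k e.1 = 0 := by
  obtain ⟨v, hv, hv2⟩ := taut_isLine e
  obtain ⟨k, hk, hmax⟩ := Finset.exists_max_image (Finset.range (a + 1))
    (fun j : ℕ => (e.1 j j).re) ⟨0, Finset.mem_range.2 (Nat.succ_pos a)⟩
  have hka := Finset.mem_range.1 hk
  have h0 : 0 ≤ (e.1 k k).re := by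
    have := diag_re e hv2 ⟨k, hka⟩
    change (e.1 k k).re = _ at this
    rw [this]
    exact Complex.normSq_nonneg _
  refine ⟨k, by omega, ?_⟩
  unfold rho
  apply max_eq_left
  rw [sub_nonpos, Finset.fold_max_le]
  refine ⟨h0, fun j hj => ?_⟩
  split_ifs
  · exact h0
  · exact hmax j hj

variable {Y : Type} [TopologicalSpace Y]

/-- `y ↦ scl k (rho k (g y)) (g y)` -/
def sclM {a : ℕ} (g : C(Y, CP a)) (k : Fin (a + 1)) : C(Y, Matrix (Fin (a + 1)) (Fin (a + 1)) ℂ) :=
  ⟨fun y => scl k (rho a k (g y).1) (taut a (g y)),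
    continuous_scl k _ ((continuous_rho a k).comp g.continuous) (fun _ => le_max_left _ _) g
      fun y => rho_pos k (g y)⟩

theorem sclM_isLine {a : ℕ} (g : C(Y, CP a)) (k : Fin (a + 1)) (y : Y) : IsLine (sclM g k y) :=
  scl_isLine k (le_max_left _ _) (g y) (rho_pos k (g y))

theorem sclM_eq {a : ℕ} (g : C(Y, CP a)) (k : Fin (a + 1)) (y : Y) (h : rho a k (g y).1 = 0) :
    sclM g k y = Ek k := by
  have h1 : (g y).1 k k ≠ 0 := by
    rcases rho_pos (k : ℕ) (g y) with h2 | h2
    · rw [h] at h2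
      exact absurd h2 (lt_irrefl 0)
    · exact h2
  change scl k (rho a k (g y).1) (taut a (g y)) = _
  rw [h]
  exact scl_zero k (g y) h1

/-- The relative operator `T_k`: it raises `B` by the set where `|z_k|` is maximal. -/
def relT {a : ℕ} {B Br S : Set Y} (g : C(Y, CP a)) (k : Fin (a + 1))
    (hr : ∀ y ∈ Br, y ∈ B ∨ rho a k (g y).1 = 0) : K1 B S →+ K1 Br S :=
  rel (sclM g k) (ContinuousMap.const Y (Ek k)) (fun y => (sclM_isLine g k y).idem)
    (fun _ => Ek_idem k) fun y hy => (hr y hy).imp_right fun h => sclM_eq g k y h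

/-- `B` together with the points where one of `|z_0|, …, |z_{k-1}|` is maximal. -/
def FF {a : ℕ} (B : Set Y) (g : C(Y, CP a)) (k : ℕ) : Set Y :=
  {y | y ∈ B ∨ ∃ i < k, rho a i (g y).1 = 0}

/-- `T_{k-1} ⋯ T_0`. -/
def chainT {a : ℕ} {B S : Set Y} (g : C(Y, CP a)) : (k : ℕ) → K1 B S →+ K1 (FF B g k) S
  | 0 => kmap (ContinuousMap.id Y) (fun y hy => by
      rcases hy with h | ⟨i, hi, _⟩
      · exact h
      · omega) (fun _ h => h)
  | k + 1 =>
    if h : k < a + 1 then
      (relT (B := FF B g k) (Br := FF B g (k + 1)) (S := S) g ⟨k, h⟩ (fun y hy => by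
        rcases hy with h | ⟨i, hi, h2⟩
        · exact Or.inl (Or.inl h)
        · rcases Nat.lt_succ_iff_lt_or_eq.1 hi with h3 | h3
          · exact Or.inl (Or.inr ⟨i, h3, h2⟩)
          · subst h3
            exact Or.inr h2)).comp (chainT g k)
    else 0

end

end Pool.QB.KTh
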