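import Pool.Agent.MP_c51823_gt.QB.KTh.Unit

/-!
# [QBK-NA] Stably null homotopic functions: elementary closure properties

Everything is `ext` on pointwise matrices. `n`, `m` stabilisations are put together by
`finSumFinEquiv : Fin m ⊕ Fin n ≃ Fin (m + n)` and `Equiv.sumAssoc`, `Equiv.sumComm`.
-/

set_option autoImplicit false
open Topology

namespace Pool.QB.KTh

variable {Y : Type} [TopologicalSpace Y] {B S : Set Y}
  {ι κ μ : Type} [Fintype ι] [DecidableEq ι] [Fintype κ] [DecidableEq κ] [Fintype μ] [DecidableEq μ]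

theorem gsum_mul (g g' : GF B S ι) (h h' : GF B S κ) :
    gsum (g * g') (h * h') = gsum g h * gsum g' h' := by
  apply gf_ext; intro y
  exact congrArg (fun f : C(Y, Matrix (ι ⊕ κ) (ι ⊕ κ) R) => f y)
    (sumFn_mul g.1.1 g'.1.1 h.1.1 h'.1.1)

theorem gsum_one : gsum (1 : GF B S ι) (1 : GF B S κ) = 1 := by
  apply gf_ext; intro y
  exact Matrix.fromBlocks_one

theorem gsum_inv (g : GF B S ι) (h : GF B S κ) : (gsum g h)⁻¹ = gsum g⁻¹ h⁻¹ := by
  rw [inv_eq_iff_mul_eq_one, ← gsum_mul, mul_inv_cancel, mul_inv_cancel, gsum_one]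

theorem greindex_mul (e : ι ≃ κ) (g g' : GF B S ι) :
    greindex e (g * g') = greindex e g * greindex e g' := by
  apply gf_ext; intro y
  exact congrArg (fun f : C(Y, Matrix κ κ R) => f y) (reFn_mul e g.1.1 g'.1.1)

theorem greindex_one (e : ι ≃ κ) : greindex e (1 : GF B S ι) = 1 := by
  apply gf_ext; intro y
  exact Matrix.submatrix_one_equiv e.symm

theorem greindex_inv (e : ι ≃ κ) (g : GF B S ι) : (greindex e g)⁻¹ = greindex e g⁻¹ := by
  rw [inv_eq_iff_mul_eq_one, ← greindex_mul, mul_inv_cancel, greindex_one]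

theorem greindex_trans (e : ι ≃ κ) (f : κ ≃ μ) (g : GF B S ι) :
    greindex f (greindex e g) = greindex (e.trans f) g := by
  apply gf_ext; intro y
  rfl

theorem ev_gsum (t : I) (g : GF (cyl B) (cyl S) ι) (h : GF (cyl B) (cyl S) κ) :
    ev t (gsum g h) = gsum (ev t g) (ev t h) := by
  apply gf_ext; intro y
  rfl

theorem ev_greindex (t : I) (e : ι ≃ κ) (g : GF (cyl B) (cyl S) ι) :
    ev t (greindex e g) = greindex e (ev t g) := by
  apply gf_ext; intro y
  rfl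

namespace NulA_aux

theorem ev_one (t : I) : ev t (1 : GF (cyl B) (cyl S) ι) = 1 := map_one _

theorem ev_mul (t : I) (g h : GF (cyl B) (cyl S) ι) : ev t (g * h) = ev t g * ev t h :=
  map_mul _ _ _

theorem ev_inv (t : I) (g : GF (cyl B) (cyl S) ι) : ev t g⁻¹ = (ev t g)⁻¹ := map_inv _ _

theorem greindex_gsum {ι' κ' : Type} [Fintype ι'] [DecidableEq ι'] [Fintype κ'] [DecidableEq κ']
    (e : ι ≃ ι') (f : κ ≃ κ') (g : GF B S ι) (h : GF B S κ) :
    greindex (e.sumCongr f) (gsum g h) = gsum (greindex e g) (greindex f h) := by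
  apply gf_ext; intro y
  change (Matrix.fromBlocks (g.1.1 y) 0 0 (h.1.1 y)).submatrix (e.sumCongr f).symm
    (e.sumCongr f).symm = Matrix.fromBlocks ((g.1.1 y).submatrix e.symm e.symm) 0 0
      ((h.1.1 y).submatrix f.symm f.symm)
  ext i j : 2
  rcases i with i | i <;> rcases j with j | j <;> simp

theorem greindex_assoc (g : GF B S ι) (h : GF B S κ) (k : GF B S μ) :
    greindex (Equiv.sumAssoc ι κ μ) (gsum (gsum g h) k) = gsum g (gsum h k) := by
  apply gf_ext; intro y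
  change (Matrix.fromBlocks (Matrix.fromBlocks (g.1.1 y) 0 0 (h.1.1 y)) 0 0 (k.1.1 y)).submatrix
    (Equiv.sumAssoc ι κ μ).symm (Equiv.sumAssoc ι κ μ).symm =
      Matrix.fromBlocks (g.1.1 y) 0 0 (Matrix.fromBlocks (h.1.1 y) 0 0 (k.1.1 y))
  ext i j : 2
  rcases i with i | i | i <;> rcases j with j | j | j <;> simp

theorem greindex_comm (g : GF B S ι) (h : GF B S κ) :
    greindex (Equiv.sumComm ι κ) (gsum g h) = gsum h g := by
  apply gf_ext; intro y
  change (Matrix.fromBlocks (g.1.1 y) 0 0 (h.1.1 y)).submatrix (Equiv.sumComm ι κ).symm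
    (Equiv.sumComm ι κ).symm = Matrix.fromBlocks (h.1.1 y) 0 0 (g.1.1 y)
  ext i j : 2
  rcases i with i | i <;> rcases j with j | j <;> simp

theorem greindex_refl (g : GF B S ι) : greindex (Equiv.refl ι) g = g := by
  apply gf_ext; intro y
  rfl

theorem greindex_symm (e : ι ≃ κ) (g : GF B S ι) : greindex e.symm (greindex e g) = g := by
  rw [greindex_trans, Equiv.self_trans_symm, greindex_refl]

/-- Null homotopic after stabilisation by `κ`. -/
def NulK (κ : Type) [Fintype κ] [DecidableEq κ] (g : GF B S ι) : Prop :=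
  ∃ H : GF (cyl B) (cyl S) (ι ⊕ κ), ev 0 H = 1 ∧ ev 1 H = gsum g (1 : GF B S κ)

theorem nulK_equiv (e : κ ≃ μ) {g : GF B S ι} (h : NulK κ g) : NulK μ g := by
  obtain ⟨H, h0, h1⟩ := h
  refine ⟨greindex ((Equiv.refl ι).sumCongr e) H, ?_, ?_⟩
  · rw [ev_greindex, h0, greindex_one]
  · rw [ev_greindex, h1, greindex_gsum, greindex_refl, greindex_one]

theorem nulK_stab {g : GF B S ι} (h : NulK κ g) : NulK (κ ⊕ μ) g := by
  obtain ⟨H, h0, h1⟩ := h
  refine ⟨greindex (Equiv.sumAssoc ι κ μ) (gsum H 1), ?_, ?_⟩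
  · rw [ev_greindex, ev_gsum, h0, ev_one, gsum_one, greindex_one]
  · rw [ev_greindex, ev_gsum, h1, ev_one, greindex_assoc, gsum_one]

theorem nulK_stab' {g : GF B S ι} (h : NulK κ g) : NulK (μ ⊕ κ) g :=
  nulK_equiv (Equiv.sumComm κ μ) (nulK_stab h)

theorem nulK_mul {g h : GF B S ι} (hg : NulK κ g) (hh : NulK κ h) : NulK κ (g * h) := by
  obtain ⟨H, h0, h1⟩ := hg
  obtain ⟨K, k0, k1⟩ := hh
  refine ⟨H * K, ?_, ?_⟩
  · rw [ev_mul, h0, k0, one_mul]
  · rw [ev_mul, h1, k1, ← gsum_mul, one_mul]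

theorem nul_of_nulK {g : GF B S ι} (h : NulK κ g) : Nul g :=
  ⟨Fintype.card κ, nulK_equiv (Fintype.equivFin κ) h⟩

theorem nulK_of_nul {g : GF B S ι} (h : Nul g) : ∃ n : ℕ, NulK (Fin n) g := h

end NulA_aux

open NulA_aux

theorem nul_one : Nul (1 : GF B S ι) := by
  refine nul_of_nulK (κ := Fin 0) ⟨1, ?_, ?_⟩
  · rw [ev_one]
  · rw [ev_one, gsum_one]

theorem nul_mul {g h : GF B S ι} (hg : Nul g) (hh : Nul h) : Nul (g * h) := by
  obtain ⟨n, hn⟩ := nulK_of_nul hg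
  obtain ⟨m, hm⟩ := nulK_of_nul hh
  exact nul_of_nulK (κ := Fin n ⊕ Fin m) (nulK_mul (nulK_stab hn) (nulK_stab' hm))

theorem nul_inv {g : GF B S ι} (hg : Nul g) : Nul g⁻¹ := by
  obtain ⟨n, H, h0, h1⟩ := hg
  refine ⟨n, H⁻¹, ?_, ?_⟩
  · rw [ev_inv, h0, inv_one]
  · rw [ev_inv, h1, gsum_inv, inv_one]

theorem nul_greindex (e : ι ≃ κ) (g : GF B S ι) : Nul (greindex e g) ↔ Nul g := by
  have key : ∀ {ι' κ' : Type} [Fintype ι'] [DecidableEq ι'] [Fintype κ'] [DecidableEq κ']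
      (e : ι' ≃ κ') (g : GF B S ι'), Nul g → Nul (greindex e g) := by
    intro ι' κ' _ _ _ _ e g h
    obtain ⟨n, H, h0, h1⟩ := h
    refine ⟨n, greindex (e.sumCongr (Equiv.refl (Fin n))) H, ?_, ?_⟩
    · rw [ev_greindex, h0, greindex_one]
    · rw [ev_greindex, h1, greindex_gsum, greindex_refl]
  refine ⟨fun h => ?_, key e g⟩
  have := key e.symm _ h
  rwa [greindex_symm] at this

/-- Null homotopies (also after stabilisation by an arbitrary finite index type). -/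
theorem nul_of_homotopy (g : GF B S ι) (H : GF (cyl B) (cyl S) (ι ⊕ κ)) (h0 : ev 0 H = 1)
    (h1 : ev 1 H = gsum g 1) : Nul g := nul_of_nulK (κ := κ) ⟨H, h0, h1⟩

theorem nul_gsum_one (g : GF B S ι) : Nul (gsum g (1 : GF B S κ)) ↔ Nul g := by
  constructor
  · rintro ⟨n, H, h0, h1⟩
    refine nul_of_nulK (κ := κ ⊕ Fin n) ⟨greindex (Equiv.sumAssoc ι κ (Fin n)) H, ?_, ?_⟩
    · rw [ev_greindex, h0, greindex_one]
    · rw [ev_greindex, h1, greindex_assoc, gsum_one]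
  · intro h
    obtain ⟨n, hn⟩ := nulK_of_nul h
    obtain ⟨H, h0, h1⟩ := nulK_stab' (μ := κ) hn
    refine ⟨n, greindex (Equiv.sumAssoc ι κ (Fin n)).symm H, ?_, ?_⟩
    · rw [ev_greindex, h0, greindex_one]
    · rw [ev_greindex, h1, ← gsum_one, ← greindex_assoc, greindex_symm]

theorem nul_one_gsum (g : GF B S ι) : Nul (gsum (1 : GF B S κ) g) ↔ Nul g := by
  rw [← greindex_comm, nul_greindex, nul_gsum_one]

/-- Homotopies: `H_1 H_0⁻¹` is null homotopic. -/
theorem nul_homotopy (H : GF (cyl B) (cyl S) ι) : Nul (ev 1 H * (ev 0 H)⁻¹) := by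
  let P : GF (cyl B) (cyl S) ι := pull (prMap Y) (fun _ h => h) (fun _ h => h) ι (ev 0 H)
  have hP : ∀ t : I, ev t P = ev 0 H := by
    intro t
    apply gf_ext; intro y
    rfl
  refine nul_of_nulK (κ := Fin 0) ⟨gsum (H * P⁻¹) 1, ?_, ?_⟩
  · rw [ev_gsum, ev_mul, ev_inv, hP, mul_inv_cancel, ev_one, gsum_one]
  · rw [ev_gsum, ev_mul, ev_inv, hP, ev_one]

end Pool.QB.KTh
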