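import Pool.Agent.MP_c51823_gt.QB.KTh.NulA

/-!
# [QBK-NB] Whitehead lemma, conjugation

Let `R_t` be the rotation (`rot`), pulled back to `Y × I` along `Prod.snd`.
* Whitehead: `W_t = (g ⊕ 1) R_t (g⁻¹ ⊕ 1) R_t⁻¹` is a path from `1` to `g ⊕ g⁻¹` (it is `1` on `B`
  and scalar on `S`). Here `g` is pulled back along `prMap Y`.
* `gsum g h = gsum (g * h) 1 * gsum h⁻¹ h`.
* `gsum g h = gsum g 1 * gsum 1 h`.
* Conjugation: for `P` scalar on `S` (no condition on `B`), the path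
  `K_t = (P ⊕ 1) (R_t (g ⊕ 1) R_t⁻¹) (P ⊕ 1)⁻¹ (R_t (g ⊕ 1) R_t⁻¹)⁻¹` of elements of `GF B S`
  goes from `PgP⁻¹g⁻¹ ⊕ 1` to `1` (at `t = 1`: `R_1 (g ⊕ 1) R_1⁻¹ = 1 ⊕ g` commutes with `P ⊕ 1`).
-/

set_option autoImplicit false
open Topology

namespace Pool.QB.KTh

variable {Y : Type} [TopologicalSpace Y] {B S : Set Y}
  {ι κ μ : Type} [Fintype ι] [DecidableEq ι] [Fintype κ] [DecidableEq κ] [Fintype μ] [DecidableEq μ]

namespace NulB_aux

theorem gf_ext {a b : GF B S ι} (h : ∀ y, a.1.1 y = b.1.1 y) : a = b :=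
  Subtype.ext (Units.ext (ContinuousMap.ext h))

theorem mul_inv_apply (g : GF B S ι) (y : Y) : g.1.1 y * (g.1⁻¹).1 y = 1 := by
  have h2 : g.1.1 * (g.1⁻¹).1 = 1 := by rw [← Units.val_mul]; simp
  exact congrArg (fun f : C(Y, Matrix ι ι R) => f y) h2

theorem inv_mul_apply (g : GF B S ι) (y : Y) : (g.1⁻¹).1 y * g.1.1 y = 1 := by
  have h2 : (g.1⁻¹).1 * g.1.1 = 1 := by rw [← Units.val_mul]; simp
  exact congrArg (fun f : C(Y, Matrix ι ι R) => f y) h2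

theorem rotFn_zero (s : ℝ) : rotFn ι s 0 = 1 := by
  change bl ι _ _ _ _ = 1
  have h : s * (Real.pi / 2 * ((0 : I) : ℝ)) = 0 := by
    rw [Set.Icc.coe_zero, mul_zero, mul_zero]
  rw [h, Real.cos_zero, Real.sin_zero, neg_zero, Complex.ofReal_one, Complex.ofReal_zero]
  exact bl_one

theorem rotFn_one_one : rotFn ι 1 1 = bl ι 0 (-1) 1 0 := by
  change bl ι _ _ _ _ = _
  have h : (1 : ℝ) * (Real.pi / 2 * ((1 : I) : ℝ)) = Real.pi / 2 := by
    rw [Set.Icc.coe_one, mul_one, one_mul]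
  rw [h, Real.cos_pi_div_two, Real.sin_pi_div_two]
  simp

theorem rotFn_neg_one : rotFn ι (-1) 1 = bl ι 0 1 (-1) 0 := by
  change bl ι _ _ _ _ = _
  have h : (-1 : ℝ) * (Real.pi / 2 * ((1 : I) : ℝ)) = -(Real.pi / 2) := by
    rw [Set.Icc.coe_one, mul_one, neg_one_mul]
  rw [h, Real.cos_neg, Real.sin_neg, Real.cos_pi_div_two, Real.sin_pi_div_two]
  simp

theorem conj_rot (a : Matrix ι ι R) :
    bl ι 0 (-1) 1 0 * Matrix.fromBlocks a 0 0 1 * bl ι 0 1 (-1) 0 =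
      Matrix.fromBlocks (1 : Matrix ι ι R) 0 0 a := by
  unfold bl
  rw [Matrix.fromBlocks_multiply, Matrix.fromBlocks_multiply]
  simp

omit [DecidableEq ι] [DecidableEq κ] in
theorem blk_mul (a a' : Matrix ι ι R) (b b' : Matrix κ κ R) :
    Matrix.fromBlocks a 0 0 b * Matrix.fromBlocks a' 0 0 b' =
      Matrix.fromBlocks (a * a') 0 0 (b * b') := by
  rw [Matrix.fromBlocks_multiply]
  simp

/-- the rotation on the cylinder -/
noncomputable def RR (S : Set Y) (ι : Type) [Fintype ι] [DecidableEq ι] :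
    GF (∅ : Set (Y × I)) (cyl S) (ι ⊕ ι) :=
  pull (⟨Prod.snd, continuous_snd⟩ : C(Y × I, I)) (fun _ h => h.elim) (fun _ _ => Set.mem_univ _) _
    (rot ι)

/-- pull-back to the cylinder -/
noncomputable def PP (g : GF B S ι) : GF (cyl B) (cyl S) ι :=
  pull (prMap Y) (fun _ h => h) (fun _ h => h) ι g

/-- pull-back to the cylinder, no condition on `B` -/
noncomputable def PP' (g : GF (∅ : Set Y) S ι) : GF (∅ : Set (Y × I)) (cyl S) ι :=
  pull (prMap Y) (fun _ h => h.elim) (fun _ h => h) ι g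

end NulB_aux

open NulB_aux

theorem nul_gsum_inv (g : GF B S ι) : Nul (gsum g g⁻¹) := by
  let W : GF (cyl B) (cyl S) (ι ⊕ ι) := gsum (PP g) 1 * gconj (RR S ι) (gsum (PP g⁻¹) 1)
  have h0 : ev 0 W = 1 := by
    refine gf_ext fun y => ?_
    change Matrix.fromBlocks (g.1.1 y) 0 0 1 * (rotFn ι 1 0 *
      Matrix.fromBlocks ((g.1⁻¹).1 y) 0 0 1 * rotFn ι (-1) 0) = 1
    rw [rotFn_zero, rotFn_zero, one_mul, mul_one, blk_mul, mul_inv_apply, one_mul,
      Matrix.fromBlocks_one]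
  have h1 : ev 1 W = gsum g g⁻¹ := by
    refine gf_ext fun y => ?_
    change Matrix.fromBlocks (g.1.1 y) 0 0 1 * (rotFn ι 1 1 *
      Matrix.fromBlocks ((g.1⁻¹).1 y) 0 0 1 * rotFn ι (-1) 1) =
      Matrix.fromBlocks (g.1.1 y) 0 0 ((g.1⁻¹).1 y)
    rw [rotFn_one_one, rotFn_neg_one, conj_rot, blk_mul, one_mul, mul_one]
  have h2 := nul_homotopy W
  rwa [h0, h1, inv_one, mul_one] at h2

theorem nul_gsum {g : GF B S ι} {h : GF B S κ} (hg : Nul g) (hh : Nul h) : Nul (gsum g h) := by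
  have e : gsum g h = gsum g 1 * gsum 1 h := by rw [← gsum_mul, mul_one, one_mul]
  rw [e]
  exact nul_mul ((nul_gsum_one g).2 hg) ((nul_one_gsum h).2 hh)

theorem nul_gsum_iff (g h : GF B S ι) : Nul (gsum g h) ↔ Nul (g * h) := by
  have e : gsum g h = gsum (g * h) 1 * gsum h⁻¹ h := by
    rw [← gsum_mul, mul_assoc, mul_inv_cancel, mul_one, one_mul]
  have hN : Nul (gsum h⁻¹ h) := by
    have := nul_gsum_inv h⁻¹
    rwa [inv_inv] at this
  constructor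
  · intro hn
    have e2 : gsum (g * h) 1 = gsum g h * (gsum h⁻¹ h)⁻¹ := by rw [e, mul_assoc, mul_inv_cancel, mul_one]
    rw [← nul_gsum_one (κ := ι), e2]
    exact nul_mul hn (nul_inv hN)
  · intro hn
    rw [e]
    exact nul_mul ((nul_gsum_one _).2 hn) hN

theorem nul_gsum_comm (g : GF B S ι) (h : GF B S κ) : Nul (gsum g h) ↔ Nul (gsum h g) := by
  have e : greindex (Equiv.sumComm ι κ) (gsum g h) = gsum h g := by
    refine gf_ext fun y => ?_
    change (Matrix.fromBlocks (g.1.1 y) 0 0 (h.1.1 y)).submatrix (Equiv.sumComm ι κ).symm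
      (Equiv.sumComm ι κ).symm = Matrix.fromBlocks (h.1.1 y) 0 0 (g.1.1 y)
    ext i j : 2
    rcases i with i | i <;> rcases j with j | j <;> rfl
  rw [← e]
  exact (nul_greindex _ _).symm

theorem nul_gconj (P : GF (∅ : Set Y) S ι) (g : GF B S ι) : Nul (gconj P g * g⁻¹) := by
  let A : GF (cyl B) (cyl S) (ι ⊕ ι) := gconj (RR S ι) (gsum (PP g) 1)
  let K : GF (cyl B) (cyl S) (ι ⊕ ι) := gconj (gsum (PP' P) 1) A * A⁻¹
  have h0 : ev 0 K = gsum (gconj P g * g⁻¹) 1 := by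
    refine gf_ext fun y => ?_
    change (Matrix.fromBlocks (P.1.1 y) 0 0 1 * (rotFn ι 1 0 *
      Matrix.fromBlocks (g.1.1 y) 0 0 1 * rotFn ι (-1) 0) *
        Matrix.fromBlocks ((P.1⁻¹).1 y) 0 0 1) * (rotFn ι 1 0 *
      (Matrix.fromBlocks ((g.1⁻¹).1 y) 0 0 1 * rotFn ι (-1) 0)) =
      Matrix.fromBlocks (P.1.1 y * g.1.1 y * (P.1⁻¹).1 y * (g.1⁻¹).1 y) 0 0 1
    rw [rotFn_zero, rotFn_zero]
    simp only [one_mul, mul_one, blk_mul]
  have h1 : ev 1 K = 1 := by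
    refine gf_ext fun y => ?_
    change (Matrix.fromBlocks (P.1.1 y) 0 0 1 * (rotFn ι 1 1 *
      Matrix.fromBlocks (g.1.1 y) 0 0 1 * rotFn ι (-1) 1) *
        Matrix.fromBlocks ((P.1⁻¹).1 y) 0 0 1) * (rotFn ι 1 1 *
      (Matrix.fromBlocks ((g.1⁻¹).1 y) 0 0 1 * rotFn ι (-1) 1)) = 1
    rw [← mul_assoc (rotFn ι 1 1), rotFn_one_one, rotFn_neg_one, conj_rot, conj_rot, blk_mul,
      blk_mul, blk_mul, mul_one, one_mul, mul_one, mul_one, mul_inv_apply, mul_inv_apply,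
      Matrix.fromBlocks_one]
  have h2 := nul_homotopy K
  rw [h0, h1, one_mul] at h2
  have h3 := nul_inv h2
  rw [inv_inv] at h3
  exact (nul_gsum_one _).1 h3

theorem nul_mul_comm (g h : GF B S ι) : Nul (g * h) ↔ Nul (h * g) := by
  rw [← nul_gsum_iff, ← nul_gsum_iff]
  exact nul_gsum_comm g h

end Pool.QB.KTh
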