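import Mathlib

/-!
# [QB-K] Linear pencils invertible on the unit circle, and their Riesz idempotent
-/

set_option autoImplicit false
set_option linter.unusedSectionVars false
open Topology Metric

namespace Pool.QB.KTh.IX

variable {A : Type} [NormedRing A] [NormedAlgebra ℂ A] [CompleteSpace A]

/-- the pencil -/
def Lp (b1 b0 : A) (z : ℂ) : A := z • b1 + b0

section
variable {E : Type} [NormedAddCommGroup E] [NormedSpace ℂ E]
  {E' : Type} [NormedAddCommGroup E'] [NormedSpace ℂ E']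

/-- `k`-th Laurent coefficient of `F` on the circle of radius `ρ` -/
noncomputable def ci (ρ : ℝ) (k : ℤ) (F : ℂ → E) : E :=
  (2 * Real.pi * Complex.I : ℂ)⁻¹ • ∮ z in C(0, ρ), z ^ (-k - 1) • F z

theorem ci_integrable {ρ : ℝ} (hρ : 0 < ρ) {F : ℂ → E} (hF : ContinuousOn F (sphere 0 ρ)) (k : ℤ) :
    CircleIntegrable (fun z => z ^ k • F z) 0 ρ := by
  refine ContinuousOn.circleIntegrable hρ.le (ContinuousOn.smul ?_ hF)
  intro z hz
  have hz0 : z ≠ 0 := by
    rintro rfl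
    simp at hz
    exact hρ.ne' hz.symm
  exact (continuousAt_zpow₀ z k (Or.inl hz0)).continuousWithinAt

theorem clm_ci [CompleteSpace E] [CompleteSpace E'] (T : E →L[ℂ] E')
    {ρ : ℝ} (hρ : 0 < ρ) {F : ℂ → E} (hF : ContinuousOn F (sphere 0 ρ)) (k : ℤ) :
    T (ci ρ k F) = ci ρ k fun z => T (F z) := by
  unfold ci
  rw [map_smul]
  congr 1
  unfold circleIntegral
  rw [← ContinuousLinearMap.intervalIntegral_comp_comm]
  · simp
  · exact (ci_integrable hρ hF _).out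

theorem ci_mem [CompleteSpace E] (T : Submodule ℂ E) (hT : IsClosed (T : Set E)) {ρ : ℝ}
    (hρ : 0 < ρ) {F : ℂ → E} (hF : ContinuousOn F (sphere 0 ρ)) (hFT : ∀ z, ‖z‖ = ρ → F z ∈ T)
    (k : ℤ) : ci ρ k F ∈ T := by
  have _ : IsClosed (T : Set E) := hT
  have h1 := clm_ci T.mkQL hρ hF k
  have h2 : ci ρ k (fun z => T.mkQL (F z)) = 0 := by
    unfold ci
    have h3 : (∮ z in C(0, ρ), z ^ (-k - 1) • T.mkQL (F z)) =
        ∮ z in C(0, ρ), (0 : E ⧸ T) := by
      refine circleIntegral.integral_congr hρ.le fun z hz => ?_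
      have h4 : T.mkQL (F z) = 0 := (Submodule.Quotient.mk_eq_zero T).2 (hFT z (by simpa using hz))
      simp only [h4, smul_zero]
    rw [h3]
    simp [circleIntegral]
  rw [h2] at h1
  exact (Submodule.Quotient.mk_eq_zero T).1 h1

end

theorem mul_ci (a : A) {ρ : ℝ} (hρ : 0 < ρ) {F : ℂ → A} (hF : ContinuousOn F (sphere 0 ρ)) (k : ℤ) :
    a * ci ρ k F = ci ρ k fun z => a * F z :=
  clm_ci (ContinuousLinearMap.mul ℂ A a) hρ hF k

theorem ci_mul (a : A) {ρ : ℝ} (hρ : 0 < ρ) {F : ℂ → A} (hF : ContinuousOn F (sphere 0 ρ)) (k : ℤ) :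
    ci ρ k F * a = ci ρ k fun z => F z * a :=
  clm_ci ((ContinuousLinearMap.mul ℂ A).flip a) hρ hF k

theorem ci_congr {ρ : ℝ} (hρ : 0 < ρ) {F G : ℂ → A} (h : ∀ z, ‖z‖ = ρ → F z = G z) (k : ℤ) :
    ci ρ k F = ci ρ k G := by
  unfold ci
  congr 1
  refine circleIntegral.integral_congr hρ.le fun z hz => ?_
  rw [h z (by simpa using hz)]

theorem ci_add {ρ : ℝ} (hρ : 0 < ρ) {F G : ℂ → A} (hF : ContinuousOn F (sphere 0 ρ))
    (hG : ContinuousOn G (sphere 0 ρ)) (k : ℤ) :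
    ci ρ k F + ci ρ k G = ci ρ k fun z => F z + G z := by
  unfold ci
  rw [← smul_add, ← circleIntegral.integral_add (ci_integrable hρ hF _) (ci_integrable hρ hG _)]
  simp only [smul_add]

theorem ci_shift {ρ : ℝ} (hρ : 0 < ρ) (F : ℂ → A) (k : ℤ) :
    ci ρ (k - 1) F = ci ρ k fun z => z • F z := by
  unfold ci
  congr 1
  refine circleIntegral.integral_congr hρ.le fun z hz => ?_
  have hz0 : z ≠ 0 := by
    rintro rfl
    simp at hz
    exact hρ.ne' hz.symm
  simp only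
  rw [smul_smul]
  congr 1
  rw [← zpow_add_one₀ hz0]
  congr 1
  ring

theorem ci_const {ρ : ℝ} (hρ : 0 < ρ) (a : A) (k : ℤ) :
    ci ρ k (fun _ => a) = if k = 0 then a else 0 := by
  unfold ci
  rw [circleIntegral.integral_smul_const]
  have hpi : (2 * Real.pi * Complex.I : ℂ) ≠ 0 := by simp [Real.pi_ne_zero]
  split_ifs with h
  · subst h
    have h1 : (∮ z in C(0, ρ), z ^ (-(0 : ℤ) - 1)) = 2 * Real.pi * Complex.I := by
      have := circleIntegral.integral_sub_center_inv 0 hρ.ne'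
      simpa [zpow_neg] using this
    rw [h1, smul_smul, inv_mul_cancel₀ hpi, one_smul]
  · have h1 : (∮ z in C(0, ρ), z ^ (-k - 1)) = 0 := by
      have := circleIntegral.integral_sub_zpow_of_ne (n := -k - 1) (by omega) 0 0 ρ
      simpa using this
    rw [h1, zero_smul, smul_zero]

/-- the inverse pencil -/
noncomputable def Li (b1 b0 : A) (z : ℂ) : A := Ring.inverse (Lp b1 b0 z)

theorem Lp_mul_Li {b1 b0 : A} {z : ℂ} (h : IsUnit (Lp b1 b0 z)) : Lp b1 b0 z * Li b1 b0 z = 1 :=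
  Ring.mul_inverse_cancel _ h

theorem Li_mul_Lp {b1 b0 : A} {z : ℂ} (h : IsUnit (Lp b1 b0 z)) : Li b1 b0 z * Lp b1 b0 z = 1 :=
  Ring.inverse_mul_cancel _ h

theorem differentiableAt_Li {b1 b0 : A} {z : ℂ} (h : IsUnit (Lp b1 b0 z)) :
    DifferentiableAt ℂ (Li b1 b0) z := by
  have h1 : DifferentiableAt ℂ (Lp b1 b0) z := by
    unfold Lp
    exact (differentiableAt_id.smul_const b1).add_const b0
  exact (differentiableAt_inverse (𝕜 := ℂ) h).comp z h1

/-- the Laurent coefficients on the unit circle -/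
noncomputable def lc (b1 b0 : A) (k : ℤ) : A := ci 1 k (Li b1 b0)

/-- invertibility on an annulus -/
theorem exists_annulus {b1 b0 : A} (h : ∀ z : ℂ, ‖z‖ = 1 → IsUnit (Lp b1 b0 z)) :
    ∃ r : ℝ, 1 < r ∧ ∀ z : ℂ, r⁻¹ ≤ ‖z‖ → ‖z‖ ≤ r → IsUnit (Lp b1 b0 z) := by
  have hO : IsOpen {z : ℂ | IsUnit (Lp b1 b0 z)} := by
    have hc : Continuous (Lp b1 b0) := by unfold Lp; fun_prop
    exact Units.isOpen.preimage hc
  have hK : IsCompact (sphere (0 : ℂ) 1) := isCompact_sphere 0 1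
  obtain ⟨δ, hδ, hsub⟩ := hK.exists_thickening_subset_open hO (by
    intro z hz
    exact h z (by simpa using hz))
  have hδ' : 0 < min δ 1 := lt_min hδ one_pos
  refine ⟨1 + min δ 1 / 2, by linarith, fun z h1 h2 => ?_⟩
  apply hsub
  have hr : 0 < 1 + min δ 1 / 2 := by linarith
  have hz : 0 < ‖z‖ := lt_of_lt_of_le (inv_pos.2 hr) h1
  have hz0 : z ≠ 0 := norm_pos_iff.1 hz
  rw [mem_thickening_iff]
  refine ⟨((‖z‖ : ℂ))⁻¹ * z, ?_, ?_⟩
  · simp [hz.ne']
  · rw [dist_eq_norm]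
    have e1 : z - ((‖z‖ : ℂ))⁻¹ * z = (((‖z‖ - 1) : ℝ) : ℂ) * (((‖z‖ : ℂ))⁻¹ * z) := by
      have : (‖z‖ : ℂ) ≠ 0 := by exact_mod_cast hz.ne'
      push_cast
      field_simp
    rw [e1, norm_mul, Complex.norm_real, norm_mul, norm_inv, Complex.norm_real, norm_norm,
      inv_mul_cancel₀ hz.ne', mul_one, Real.norm_eq_abs, abs_lt]
    have h3 : (1 + min δ 1 / 2)⁻¹ ≥ 1 - min δ 1 / 2 := by
      rw [ge_iff_le, le_inv_comm₀ (by linarith [min_le_right δ 1]) hr]
      rw [le_inv_comm₀ hr (by linarith [min_le_right δ 1])]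
      rw [← one_div, le_div_iff₀ hr]
      nlinarith
    constructor
    · linarith [min_le_left δ 1]
    · linarith [min_le_left δ 1]

theorem continuousOn_Li {b1 b0 : A} {s : Set ℂ} (h : ∀ z ∈ s, IsUnit (Lp b1 b0 z)) :
    ContinuousOn (Li b1 b0) s := fun z hz =>
  (differentiableAt_Li (h z hz)).continuousAt.continuousWithinAt

/-- independence of the radius -/
theorem ci_radius {b1 b0 : A} {r R : ℝ} (hr : 0 < r) (hR : r ≤ R)
    (h : ∀ z : ℂ, r ≤ ‖z‖ → ‖z‖ ≤ R → IsUnit (Lp b1 b0 z)) (k : ℤ) :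
    ci R k (Li b1 b0) = ci r k (Li b1 b0) := by
  unfold ci
  congr 1
  refine Complex.circleIntegral_eq_of_differentiable_on_annulus_off_countable hr hR
    Set.countable_empty ?_ ?_
  · intro z hz
    simp only [Set.mem_sdiff, mem_closedBall, dist_zero_right, mem_ball, not_lt] at hz
    have hz0 : z ≠ 0 := norm_pos_iff.1 (lt_of_lt_of_le hr hz.2)
    refine ContinuousWithinAt.smul ?_ ?_
    · exact (continuousAt_zpow₀ z _ (Or.inl hz0)).continuousWithinAt
    · exact (differentiableAt_Li (h z hz.2 hz.1)).continuousAt.continuousWithinAt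
  · intro z hz
    simp only [Set.mem_sdiff, mem_closedBall, dist_zero_right, mem_ball, not_le,
      Set.mem_empty_iff_false, not_false_eq_true, and_true] at hz
    have hz0 : z ≠ 0 := norm_pos_iff.1 (lt_trans hr hz.2)
    have h1 : DifferentiableAt ℂ (fun w : ℂ => w ^ (-k - 1)) z :=
      differentiableAt_zpow.2 (Or.inl hz0)
    exact h1.smul (differentiableAt_Li (h z hz.2.le hz.1.le))

theorem norm_ci_le {ρ : ℝ} (hρ : 0 < ρ) {F : ℂ → A} {C : ℝ} (hC : ∀ z, ‖z‖ = ρ → ‖F z‖ ≤ C)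
    (k : ℤ) : ‖ci ρ k F‖ ≤ C * ρ ^ (-k) := by
  have h1 := circleIntegral.norm_two_pi_i_inv_smul_integral_le_of_norm_le_const
    (f := fun z => z ^ (-k - 1) • F z) (c := 0) (R := ρ) (C := ρ ^ (-k - 1) * C) hρ.le (by
      intro z hz
      have hz' : ‖z‖ = ρ := by simpa using hz
      rw [norm_smul, norm_zpow, hz']
      exact mul_le_mul_of_nonneg_left (hC z hz') (by positivity))
  refine h1.trans (le_of_eq ?_)
  rw [zpow_sub_one₀ hρ.ne']
  field_simp

/-- geometric decay of the Laurent coefficients -/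
theorem lc_decay {b1 b0 : A} (h : ∀ z : ℂ, ‖z‖ = 1 → IsUnit (Lp b1 b0 z)) :
    ∃ (C q : ℝ), 0 ≤ C ∧ 0 < q ∧ q < 1 ∧ ∀ k : ℤ, ‖lc b1 b0 k‖ ≤ C * q ^ k.natAbs := by
  obtain ⟨r, hr1, hr⟩ := exists_annulus h
  have hr0 : 0 < r := by linarith
  have hrinv : r⁻¹ < 1 := inv_lt_one_of_one_lt₀ hr1
  have hcomp : IsCompact (closedBall (0 : ℂ) r \ ball 0 r⁻¹) :=
    (isCompact_closedBall 0 r).diff isOpen_ball
  have hcont : ContinuousOn (fun z => ‖Li b1 b0 z‖) (closedBall (0 : ℂ) r \ ball 0 r⁻¹) := by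
    refine ContinuousOn.norm (continuousOn_Li fun z hz => ?_)
    simp only [Set.mem_sdiff, mem_closedBall, dist_zero_right, mem_ball, not_lt] at hz
    exact hr z hz.2 hz.1
  obtain ⟨C, hC⟩ := hcomp.bddAbove_image hcont
  have hC' : ∀ z : ℂ, r⁻¹ ≤ ‖z‖ → ‖z‖ ≤ r → ‖Li b1 b0 z‖ ≤ max C 0 := by
    intro z h1 h2
    refine le_trans (hC ⟨z, ?_, rfl⟩) (le_max_left _ _)
    simp only [Set.mem_sdiff, mem_closedBall, dist_zero_right, mem_ball, not_lt]
    exact ⟨h2, h1⟩
  refine ⟨max C 0, r⁻¹, le_max_right _ _, inv_pos.2 hr0, hrinv, fun k => ?_⟩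
  rcases le_total 0 k with hk | hk
  · obtain ⟨n, rfl⟩ := Int.eq_ofNat_of_zero_le hk
    have e1 : lc b1 b0 (n : ℤ) = ci r n (Li b1 b0) := (ci_radius one_pos hr1.le (fun z h1 h2 =>
      hr z (hrinv.le.trans h1) h2) _).symm
    rw [e1]
    refine (norm_ci_le hr0 (fun z hz => hC' z (by rw [hz]; linarith) hz.le) _).trans
      (le_of_eq ?_)
    simp [zpow_neg, inv_pow]
  · obtain ⟨n, hn⟩ := Int.eq_ofNat_of_zero_le (neg_nonneg.2 hk)
    obtain rfl : k = -(n : ℤ) := by omega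
    have e1 : lc b1 b0 (-(n : ℤ)) = ci r⁻¹ (-n) (Li b1 b0) :=
      ci_radius (inv_pos.2 hr0) hrinv.le (fun z h1 h2 => hr z h1 (h2.trans hr1.le)) _
    rw [e1]
    refine (norm_ci_le (inv_pos.2 hr0) (fun z hz => hC' z hz.ge (by rw [hz]; linarith)) _).trans
      (le_of_eq ?_)
    simp

/-- recursion `b1 c_{k-1} + b0 c_k = δ` -/
theorem lc_rec_left {b1 b0 : A} (h : ∀ z : ℂ, ‖z‖ = 1 → IsUnit (Lp b1 b0 z)) (k : ℤ) :
    b1 * lc b1 b0 (k - 1) + b0 * lc b1 b0 k = if k = 0 then 1 else 0 := by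
  have hc : ContinuousOn (Li b1 b0) (sphere 0 1) := continuousOn_Li fun z hz => h z (by simpa using hz)
  have hc1 : ContinuousOn (fun z : ℂ => z • Li b1 b0 z) (sphere 0 1) := continuousOn_id.smul hc
  have hc2 : ContinuousOn (fun z : ℂ => b1 * z • Li b1 b0 z) (sphere 0 1) :=
    continuousOn_const.mul hc1
  have hc3 : ContinuousOn (fun z : ℂ => b0 * Li b1 b0 z) (sphere 0 1) :=
    continuousOn_const.mul hc
  unfold lc
  rw [ci_shift one_pos, mul_ci b1 one_pos hc1, mul_ci b0 one_pos hc,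
    ci_add one_pos hc2 hc3, ← ci_const one_pos (1 : A)]
  refine ci_congr one_pos (fun z hz => ?_) k
  have := Lp_mul_Li (h z hz)
  rw [← this]
  simp [Lp, add_mul]

/-- recursion `c_{k-1} b1 + c_k b0 = δ` -/
theorem lc_rec_right {b1 b0 : A} (h : ∀ z : ℂ, ‖z‖ = 1 → IsUnit (Lp b1 b0 z)) (k : ℤ) :
    lc b1 b0 (k - 1) * b1 + lc b1 b0 k * b0 = if k = 0 then 1 else 0 := by
  have hc : ContinuousOn (Li b1 b0) (sphere 0 1) := continuousOn_Li fun z hz => h z (by simpa using hz)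
  have hc1 : ContinuousOn (fun z : ℂ => z • Li b1 b0 z) (sphere 0 1) := continuousOn_id.smul hc
  have hc2 : ContinuousOn (fun z : ℂ => z • Li b1 b0 z * b1) (sphere 0 1) :=
    hc1.mul continuousOn_const
  have hc3 : ContinuousOn (fun z : ℂ => Li b1 b0 z * b0) (sphere 0 1) :=
    hc.mul continuousOn_const
  unfold lc
  rw [ci_shift one_pos, ci_mul b1 one_pos hc1, ci_mul b0 one_pos hc,
    ci_add one_pos hc2 hc3, ← ci_const one_pos (1 : A)]
  refine ci_congr one_pos (fun z hz => ?_) k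
  have := Li_mul_Lp (h z hz)
  rw [← this]
  simp [Lp, mul_add]

/-! ## Algebra of the coefficients -/

section alg
variable {b1 b0 : A} (h : ∀ z : ℂ, ‖z‖ = 1 → IsUnit (Lp b1 b0 z))
include h

theorem lc_left_ne {k : ℤ} (hk : k ≠ 0) : b1 * lc b1 b0 (k - 1) = -(b0 * lc b1 b0 k) := by
  have := lc_rec_left h k
  rw [if_neg hk] at this
  exact eq_neg_of_add_eq_zero_left this

theorem lc_right_ne {k : ℤ} (hk : k ≠ 0) : lc b1 b0 (k - 1) * b1 = -(lc b1 b0 k * b0) := by
  have := lc_rec_right h k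
  rw [if_neg hk] at this
  exact eq_neg_of_add_eq_zero_left this

/-- a sequence `x_m` with `‖x_m‖ ≤ C q^m` that is constant vanishes -/
theorem vanish_aux {x : A} {y : ℕ → A} {C q : ℝ} (hq0 : 0 ≤ q) (hq : q < 1)
    (hy : ∀ m, ‖y m‖ ≤ C * q ^ m) (hx : ∀ m, y m = x) : x = 0 := by
  have h1 : Filter.Tendsto (fun m : ℕ => C * q ^ m) Filter.atTop (𝓝 0) := by
    have := (tendsto_pow_atTop_nhds_zero_of_lt_one hq0 hq).const_mul C
    simpa using this
  have h2 : ‖x‖ ≤ 0 := ge_of_tendsto' h1 fun m => by rw [← hx m]; exact hy m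
  exact norm_le_zero_iff.1 h2

theorem lc_V1 (p q : ℕ) : lc b1 b0 (-((p : ℤ) + 1)) * b0 * lc b1 b0 q = 0 := by
  obtain ⟨C, r, hC, hr0, hr1, hd⟩ := lc_decay h
  refine vanish_aux h (y := fun m : ℕ => lc b1 b0 (-((p : ℤ) + m + 1)) * b0 * lc b1 b0 (q + m))
    (C := C * ‖b0‖ * C) hr0.le hr1 ?_ ?_
  · intro m
    have h1 := hd (-((p : ℤ) + m + 1))
    have h2 := hd ((q : ℤ) + m)
    have h3 : r ^ ((-((p : ℤ) + m + 1)).natAbs) ≤ r ^ m :=
      pow_le_pow_of_le_one hr0.le hr1.le (by omega)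
    have h4 : r ^ (((q : ℤ) + m).natAbs) ≤ 1 := pow_le_one₀ hr0.le hr1.le
    calc ‖lc b1 b0 (-((p : ℤ) + m + 1)) * b0 * lc b1 b0 (q + m)‖
        ≤ ‖lc b1 b0 (-((p : ℤ) + m + 1))‖ * ‖b0‖ * ‖lc b1 b0 (q + m)‖ :=
          (norm_mul_le _ _).trans (mul_le_mul_of_nonneg_right (norm_mul_le _ _) (norm_nonneg _))
      _ ≤ (C * r ^ m) * ‖b0‖ * (C * 1) := by
          refine mul_le_mul (mul_le_mul_of_nonneg_right ?_ (norm_nonneg _)) ?_ (norm_nonneg _)
            (by positivity)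
          · exact h1.trans (mul_le_mul_of_nonneg_left h3 hC)
          · exact h2.trans (mul_le_mul_of_nonneg_left h4 hC)
      _ = C * ‖b0‖ * C * r ^ m := by ring
  · intro m
    induction m with
    | zero => simp
    | succ m ih =>
      rw [← ih]
      have h1 : lc b1 b0 (-((p : ℤ) + m + 1)) * b0 =
          -(lc b1 b0 (-((p : ℤ) + (m + 1 : ℕ) + 1)) * b1) := by
        have := lc_right_ne h (k := -((p : ℤ) + m + 1)) (by omega)
        rw [show -((p : ℤ) + (m + 1 : ℕ) + 1) = -((p : ℤ) + m + 1) - 1 by push_cast; ring, this,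
          neg_neg]
      have h2 : b1 * lc b1 b0 ((q : ℤ) + m) = -(b0 * lc b1 b0 ((q : ℤ) + (m + 1 : ℕ))) := by
        have := lc_left_ne h (k := (q : ℤ) + (m + 1 : ℕ)) (by omega)
        rw [← this]
        congr 2
        push_cast
        ring
      symm
      rw [h1, neg_mul, mul_assoc, h2, mul_neg, neg_neg, ← mul_assoc]

theorem lc_V2 (p q : ℕ) : lc b1 b0 q * b0 * lc b1 b0 (-((p : ℤ) + 1)) = 0 := by
  obtain ⟨C, r, hC, hr0, hr1, hd⟩ := lc_decay h
  refine vanish_aux h (y := fun m : ℕ => lc b1 b0 (q + m) * b0 * lc b1 b0 (-((p : ℤ) + m + 1)))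
    (C := C * ‖b0‖ * C) hr0.le hr1 ?_ ?_
  · intro m
    have h1 := hd (-((p : ℤ) + m + 1))
    have h2 := hd ((q : ℤ) + m)
    have h3 : r ^ ((-((p : ℤ) + m + 1)).natAbs) ≤ r ^ m :=
      pow_le_pow_of_le_one hr0.le hr1.le (by omega)
    have h4 : r ^ (((q : ℤ) + m).natAbs) ≤ 1 := pow_le_one₀ hr0.le hr1.le
    calc ‖lc b1 b0 (q + m) * b0 * lc b1 b0 (-((p : ℤ) + m + 1))‖
        ≤ ‖lc b1 b0 (q + m)‖ * ‖b0‖ * ‖lc b1 b0 (-((p : ℤ) + m + 1))‖ :=
          (norm_mul_le _ _).trans (mul_le_mul_of_nonneg_right (norm_mul_le _ _) (norm_nonneg _))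
      _ ≤ (C * 1) * ‖b0‖ * (C * r ^ m) := by
          refine mul_le_mul (mul_le_mul_of_nonneg_right ?_ (norm_nonneg _)) ?_ (norm_nonneg _)
            (by positivity)
          · exact h2.trans (mul_le_mul_of_nonneg_left h4 hC)
          · exact h1.trans (mul_le_mul_of_nonneg_left h3 hC)
      _ = C * ‖b0‖ * C * r ^ m := by ring
  · intro m
    induction m with
    | zero => simp
    | succ m ih =>
      rw [← ih]
      have h1 : b0 * lc b1 b0 (-((p : ℤ) + m + 1)) =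
          -(b1 * lc b1 b0 (-((p : ℤ) + (m + 1 : ℕ) + 1))) := by
        have := lc_left_ne h (k := -((p : ℤ) + m + 1)) (by omega)
        rw [show -((p : ℤ) + (m + 1 : ℕ) + 1) = -((p : ℤ) + m + 1) - 1 by push_cast; ring, this,
          neg_neg]
      have h2 : lc b1 b0 ((q : ℤ) + m) * b1 = -(lc b1 b0 ((q : ℤ) + (m + 1 : ℕ)) * b0) := by
        have := lc_right_ne h (k := (q : ℤ) + (m + 1 : ℕ)) (by omega)
        rw [← this]
        congr 2
        push_cast
        ring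
      rw [mul_assoc (lc b1 b0 ((q : ℤ) + m)), h1, mul_neg, ← mul_assoc, h2, neg_mul, neg_neg]

end alg

/-- the Riesz idempotent of the pencil -/
noncomputable def rid (b1 b0 : A) : A := lc b1 b0 (-1) * b1

section alg2
variable {b1 b0 : A} (h : ∀ z : ℂ, ‖z‖ = 1 → IsUnit (Lp b1 b0 z))
include h

theorem rid_eq : rid b1 b0 = 1 - lc b1 b0 0 * b0 := by
  have := lc_rec_right h 0
  rw [if_pos rfl, zero_sub] at this
  unfold rid
  rw [← this]
  noncomm_ring

theorem rid_eq' : b1 * lc b1 b0 (-1) = 1 - b0 * lc b1 b0 0 := by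
  have := lc_rec_left h 0
  rw [if_pos rfl, zero_sub] at this
  rw [← this]
  noncomm_ring

theorem rid_mul_pos (q : ℕ) : rid b1 b0 * lc b1 b0 q = 0 := by
  unfold rid
  have h1 := lc_left_ne h (k := (q : ℤ) + 1) (by omega)
  rw [add_sub_cancel_right] at h1
  rw [mul_assoc, h1, mul_neg, ← mul_assoc]
  have h2 := lc_V1 h 0 (q + 1)
  simp only [Nat.cast_zero, zero_add, Nat.cast_add, Nat.cast_one] at h2
  rw [h2, neg_zero]

theorem pos_mul_f (q : ℕ) : lc b1 b0 q * (b1 * lc b1 b0 (-1)) = 0 := by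
  have h1 := lc_right_ne h (k := (q : ℤ) + 1) (by omega)
  rw [add_sub_cancel_right] at h1
  rw [← mul_assoc, h1, neg_mul]
  have h2 := lc_V2 h 0 (q + 1)
  simp only [Nat.cast_zero, zero_add, Nat.cast_add, Nat.cast_one] at h2
  rw [h2, neg_zero]

theorem rid_mul_neg (p : ℕ) : rid b1 b0 * lc b1 b0 (-((p : ℤ) + 1)) = lc b1 b0 (-((p : ℤ) + 1)) := by
  rw [rid_eq h, sub_mul, one_mul]
  have h2 := lc_V2 h p 0
  simp only [Nat.cast_zero] at h2
  rw [h2, sub_zero]

theorem neg_mul_f (p : ℕ) :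
    lc b1 b0 (-((p : ℤ) + 1)) * (b1 * lc b1 b0 (-1)) = lc b1 b0 (-((p : ℤ) + 1)) := by
  rw [rid_eq' h, mul_sub, mul_one, ← mul_assoc]
  have h2 := lc_V1 h p 0
  simp only [Nat.cast_zero] at h2
  rw [h2, sub_zero]

theorem rid_idem : rid b1 b0 * rid b1 b0 = rid b1 b0 := by
  have h1 := rid_mul_neg h 0
  simp only [Nat.cast_zero, zero_add] at h1
  conv_lhs => rw [show rid b1 b0 * rid b1 b0 = rid b1 b0 * lc b1 b0 (-1) * b1 by
    rw [mul_assoc]; rfl]
  rw [h1]
  rfl

theorem b0_rid : b0 * rid b1 b0 = b1 * lc b1 b0 (-1) * b0 := by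
  have h1 := lc_left_ne h (k := -1) (by omega)
  have h2 := lc_right_ne h (k := -1) (by omega)
  unfold rid
  rw [← mul_assoc]
  have h3 : b0 * lc b1 b0 (-1) = -(b1 * lc b1 b0 (-1 - 1)) := by rw [h1, neg_neg]
  rw [h3, neg_mul, mul_assoc, h2, mul_neg, neg_neg, mul_assoc]

theorem Lp_rid (w v : ℂ) : (w • b1 + v • b0) * rid b1 b0 =
    b1 * lc b1 b0 (-1) * (w • b1 + v • b0) := by
  rw [add_mul, mul_add, smul_mul_assoc, smul_mul_assoc, b0_rid h, mul_smul_comm, mul_smul_comm]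
  unfold rid
  simp only [mul_assoc]

end alg2

/-- the deformed pencil -/
noncomputable def Ld (b1 b0 : A) (t z : ℂ) : A :=
  (z • b1 + t • b0) * rid b1 b0 + ((t * z) • b1 + b0) * (1 - rid b1 b0)

theorem Ld_one (b1 b0 : A) (z : ℂ) : Ld b1 b0 1 z = Lp b1 b0 z := by
  unfold Ld Lp
  rw [one_smul, one_mul, ← mul_add]
  noncomm_ring

theorem Ld_zero {b1 b0 : A} (h : ∀ z : ℂ, ‖z‖ = 1 → IsUnit (Lp b1 b0 z)) (z : ℂ) :
    Ld b1 b0 0 z = (b1 * rid b1 b0 + b0 * (1 - rid b1 b0)) * (z • rid b1 b0 + (1 - rid b1 b0)) := by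
  have h1 := rid_idem h
  have h2 : rid b1 b0 * (1 - rid b1 b0) = 0 := by rw [mul_sub, mul_one, h1, sub_self]
  have h3 : (1 - rid b1 b0) * rid b1 b0 = 0 := by rw [sub_mul, one_mul, h1, sub_self]
  have h4 : (1 - rid b1 b0) * (1 - rid b1 b0) = 1 - rid b1 b0 := by
    rw [mul_sub, mul_one, h3, sub_zero]
  unfold Ld
  rw [zero_smul, zero_mul, zero_smul, add_zero, zero_add]
  have h5 : (b1 * rid b1 b0 + b0 * (1 - rid b1 b0)) * (z • rid b1 b0 + (1 - rid b1 b0)) =
      z • (b1 * (rid b1 b0 * rid b1 b0)) + z • (b0 * ((1 - rid b1 b0) * rid b1 b0)) +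
      (b1 * (rid b1 b0 * (1 - rid b1 b0)) + b0 * ((1 - rid b1 b0) * (1 - rid b1 b0))) := by
    rw [mul_add, mul_smul_comm, add_mul, add_mul, smul_add]
    simp only [mul_assoc]
  rw [h5, h1, h2, h3, h4]
  simp

/-- The deformed pencil stays invertible. -/
theorem isUnit_Ld {b1 b0 : A} (h : ∀ z : ℂ, ‖z‖ = 1 → IsUnit (Lp b1 b0 z)) {t z : ℂ}
    (ht : ‖t‖ ≤ 1) (hz : ‖z‖ = 1) : IsUnit (Ld b1 b0 t z) := by
  have hz0 : z ≠ 0 := by rintro rfl; simp at hz
  obtain ⟨C, r, hC, hr0, hr1, hd⟩ := lc_decay h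
  set e := rid b1 b0 with he
  set f := b1 * lc b1 b0 (-1) with hf
  let nn : ℕ → A := fun m => (t ^ m * (z⁻¹) ^ (m + 1)) • lc b1 b0 (-((m : ℤ) + 1))
  let pp : ℕ → A := fun m => (t ^ m * z ^ m) • lc b1 b0 (m : ℤ)
  have hgeo : Summable fun m : ℕ => C * r ^ m :=
    (summable_geometric_of_lt_one hr0.le hr1).mul_left C
  have hnn : Summable nn := by
    refine Summable.of_norm_bounded hgeo fun m => ?_
    rw [norm_smul, norm_mul, norm_pow, norm_pow, norm_inv, hz, inv_one, one_pow, mul_one]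
    have h1 := hd (-((m : ℤ) + 1))
    have h2 : r ^ ((-((m : ℤ) + 1)).natAbs) ≤ r ^ m :=
      pow_le_pow_of_le_one hr0.le hr1.le (by omega)
    calc ‖t‖ ^ m * ‖lc b1 b0 (-((m : ℤ) + 1))‖ ≤ 1 * ‖lc b1 b0 (-((m : ℤ) + 1))‖ :=
          mul_le_mul_of_nonneg_right (pow_le_one₀ (norm_nonneg _) ht) (norm_nonneg _)
      _ ≤ C * r ^ m := by rw [one_mul]; exact h1.trans (mul_le_mul_of_nonneg_left h2 hC)
  have hpp : Summable pp := by
    refine Summable.of_norm_bounded hgeo fun m => ?_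
    rw [norm_smul, norm_mul, norm_pow, norm_pow, hz, one_pow, mul_one]
    have h1 := hd (m : ℤ)
    rw [Int.natAbs_natCast] at h1
    calc ‖t‖ ^ m * ‖lc b1 b0 (m : ℤ)‖ ≤ 1 * ‖lc b1 b0 (m : ℤ)‖ :=
          mul_le_mul_of_nonneg_right (pow_le_one₀ (norm_nonneg _) ht) (norm_nonneg _)
      _ ≤ C * r ^ m := by rw [one_mul]; exact h1
  set N := ∑' m, nn m with hN
  set P := ∑' m, pp m with hP
  -- telescoping
  have tele : ∀ a : ℕ → A, Summable a → ∑' m, a m + ∑' m, -(a (m + 1)) = a 0 := by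
    intro a ha
    rw [tsum_neg, ha.tsum_eq_zero_add]
    abel
  have n8 : (z • b1 + t • b0) * N = f := by
    let a : ℕ → A := fun m => (t ^ m * (z⁻¹) ^ m) • (b1 * lc b1 b0 (-((m : ℤ) + 1)))
    have ha : a = fun m => (z • b1) * nn m := by
      funext m
      simp only [a, nn, mul_smul_comm, smul_mul_assoc, smul_smul]
      congr 1
      rw [pow_succ]
      field_simp
    have hb : ∀ m, (t • b0) * nn m = -(a (m + 1)) := by
      intro m
      have h1 := lc_left_ne h (k := -((m : ℤ) + 1)) (by omega)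
      simp only [a, nn, mul_smul_comm, smul_mul_assoc, smul_smul]
      rw [show -(((m + 1 : ℕ) : ℤ) + 1) = -((m : ℤ) + 1) - 1 by push_cast; ring, h1, smul_neg,
        neg_neg]
      congr 1
      ring
    have hsa : Summable a := by rw [ha]; exact hnn.mul_left _
    rw [add_mul, ← hnn.tsum_mul_left, ← hnn.tsum_mul_left, ← ha]
    simp_rw [hb]
    rw [tele a hsa]
    simp [a, hf]
  have n9 : N * (z • b1 + t • b0) = e := by
    let a : ℕ → A := fun m => (t ^ m * (z⁻¹) ^ m) • (lc b1 b0 (-((m : ℤ) + 1)) * b1)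
    have ha : a = fun m => nn m * (z • b1) := by
      funext m
      simp only [a, nn, mul_smul_comm, smul_mul_assoc, smul_smul]
      congr 1
      rw [pow_succ]
      field_simp
    have hb : ∀ m, nn m * (t • b0) = -(a (m + 1)) := by
      intro m
      have h1 := lc_right_ne h (k := -((m : ℤ) + 1)) (by omega)
      simp only [a, nn, mul_smul_comm, smul_mul_assoc, smul_smul]
      rw [show -(((m + 1 : ℕ) : ℤ) + 1) = -((m : ℤ) + 1) - 1 by push_cast; ring, h1, smul_neg,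
        neg_neg]
      congr 1
      ring
    have hsa : Summable a := by rw [ha]; exact hnn.mul_right _
    rw [mul_add, ← hnn.tsum_mul_right, ← hnn.tsum_mul_right, ← ha]
    simp_rw [hb]
    rw [tele a hsa]
    simp [a, he, rid]
  have n10 : ((t * z) • b1 + b0) * P = 1 - f := by
    let a : ℕ → A := fun m => (t ^ m * z ^ m) • (b0 * lc b1 b0 (m : ℤ))
    have ha : a = fun m => b0 * pp m := by
      funext m
      simp only [a, pp, mul_smul_comm]
    have hb : ∀ m, ((t * z) • b1) * pp m = -(a (m + 1)) := by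
      intro m
      have h1 := lc_left_ne h (k := ((m + 1 : ℕ) : ℤ)) (by omega)
      have h2 : ((m + 1 : ℕ) : ℤ) - 1 = (m : ℤ) := by push_cast; ring
      rw [h2] at h1
      simp only [a, pp, mul_smul_comm, smul_mul_assoc, smul_smul]
      rw [h1, smul_neg]
      congr 2
      ring
    have hsa : Summable a := by rw [ha]; exact hpp.mul_left _
    rw [add_mul, add_comm, ← hpp.tsum_mul_left, ← hpp.tsum_mul_left, ← ha]
    simp_rw [hb]
    rw [tele a hsa]
    simp only [a, pow_zero, mul_one, one_smul, Nat.cast_zero]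
    rw [hf, rid_eq' h]
    noncomm_ring
  have n11 : P * ((t * z) • b1 + b0) = 1 - e := by
    let a : ℕ → A := fun m => (t ^ m * z ^ m) • (lc b1 b0 (m : ℤ) * b0)
    have ha : a = fun m => pp m * b0 := by
      funext m
      simp only [a, pp, smul_mul_assoc]
    have hb : ∀ m, pp m * ((t * z) • b1) = -(a (m + 1)) := by
      intro m
      have h1 := lc_right_ne h (k := ((m + 1 : ℕ) : ℤ)) (by omega)
      have h2 : ((m + 1 : ℕ) : ℤ) - 1 = (m : ℤ) := by push_cast; ring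
      rw [h2] at h1
      simp only [a, pp, mul_smul_comm, smul_mul_assoc, smul_smul]
      rw [h1, smul_neg]
      congr 2
      ring
    have hsa : Summable a := by rw [ha]; exact hpp.mul_right _
    rw [mul_add, add_comm, ← hpp.tsum_mul_right, ← hpp.tsum_mul_right, ← ha]
    simp_rw [hb]
    rw [tele a hsa]
    simp only [a, pow_zero, mul_one, one_smul, Nat.cast_zero]
    rw [he, rid_eq h]
    noncomm_ring
  have eN : e * N = N := by
    rw [hN, ← hnn.tsum_mul_left]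
    congr 1
    funext m
    simp only [nn, mul_smul_comm]
    rw [he, rid_mul_neg h]
  have eP : e * P = 0 := by
    rw [hP, ← hpp.tsum_mul_left]
    have : (fun m => e * pp m) = fun _ => 0 := by
      funext m
      simp only [pp, mul_smul_comm]
      rw [he, rid_mul_pos h, smul_zero]
    rw [this, tsum_zero]
  have Nf : N * f = N := by
    rw [hN, ← hnn.tsum_mul_right]
    congr 1
    funext m
    simp only [nn, smul_mul_assoc]
    rw [hf, neg_mul_f h]
  have Pf : P * f = 0 := by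
    rw [hP, ← hpp.tsum_mul_right]
    have : (fun m => pp m * f) = fun _ => 0 := by
      funext m
      simp only [pp, smul_mul_assoc]
      rw [hf, pos_mul_f h, smul_zero]
    rw [this, tsum_zero]
  have hee : e * e = e := rid_idem h
  have i1 : (z • b1 + t • b0) * e = f * (z • b1 + t • b0) := Lp_rid h z t
  have i2 : ((t * z) • b1 + b0) * e = f * ((t * z) • b1 + b0) := by
    have := Lp_rid h (t * z) 1
    rwa [one_smul] at this
  have hL : Ld b1 b0 t z * (N + P) = 1 := by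
    unfold Ld
    rw [← he]
    have : ((z • b1 + t • b0) * e + ((t * z) • b1 + b0) * (1 - e)) * (N + P) =
        (z • b1 + t • b0) * (e * N) + (z • b1 + t • b0) * (e * P) +
        (((t * z) • b1 + b0) * (N - e * N) + ((t * z) • b1 + b0) * (P - e * P)) := by
      noncomm_ring
    rw [this, eN, eP, sub_self, sub_zero, mul_zero, mul_zero, add_zero, zero_add, n8, n10]
    noncomm_ring
  have hR : (N + P) * Ld b1 b0 t z = 1 := by
    unfold Ld
    rw [← he]
    have e1 : N * (((t * z) • b1 + b0) * (1 - e)) = 0 := by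
      have : N * (((t * z) • b1 + b0) * (1 - e)) =
          N * f * (((t * z) • b1 + b0) * (1 - e)) := by rw [Nf]
      rw [this, mul_assoc, ← mul_assoc f, ← i2, mul_assoc]
      have : e * (1 - e) = 0 := by rw [mul_sub, mul_one, hee, sub_self]
      rw [this, mul_zero, mul_zero]
    have e2 : P * ((z • b1 + t • b0) * e) = 0 := by
      rw [i1, ← mul_assoc, Pf, zero_mul]
    have gen : ∀ X Z : A, (N + P) * (X * e + Z * (1 - e)) =
        N * X * e + P * (X * e) + (N * (Z * (1 - e)) + P * Z * (1 - e)) := by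
      intro X Z
      noncomm_ring
    rw [gen, e1, e2, n9, n11, hee]
    have : (1 - e) * (1 - e) = 1 - (e + e - e * e) := by noncomm_ring
    rw [this, hee]
    noncomm_ring
  exact ⟨⟨_, _, hL, hR⟩, rfl⟩

end Pool.QB.KTh.IX
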