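import Pool.Agent.MP_c51823_gt.QB.KTh.Pencil

/-!
# [QBK] Linear pencils: naturality and continuity of the Riesz idempotent
-/

set_option autoImplicit false
set_option linter.unusedSectionVars false
open Topology Metric

namespace Pool.QB.KTh.IX

variable {A : Type} [NormedRing A] [NormedAlgebra ℂ A] [CompleteSpace A]

theorem ci_zpow_smul {E : Type} [NormedAddCommGroup E] [NormedSpace ℂ E] [CompleteSpace E]
    (m k : ℤ) (a : E) : ci 1 k (fun z => z ^ m • a) = if m = k then a else 0 := by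
  unfold ci
  have h1 : (∮ z in C(0, 1), z ^ (-k - 1) • z ^ m • a) = (∮ z in C(0, 1), z ^ (m - k - 1)) • a := by
    rw [← circleIntegral.integral_smul_const]
    refine circleIntegral.integral_congr zero_le_one fun z hz => ?_
    have hz0 : z ≠ 0 := by
      rintro rfl
      simp at hz
    rw [smul_smul, ← zpow_add₀ hz0]
    congr 2
    ring
  rw [h1]
  have hpi : (2 * Real.pi * Complex.I : ℂ) ≠ 0 := by simp [Real.pi_ne_zero]
  split_ifs with h
  · subst h
    have h2 : (∮ z in C(0, 1), z ^ (m - m - 1)) = 2 * Real.pi * Complex.I := by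
      have := circleIntegral.integral_sub_center_inv 0 (one_ne_zero : (1 : ℝ) ≠ 0)
      simpa using this
    rw [h2, smul_smul, inv_mul_cancel₀ hpi, one_smul]
  · have h2 : (∮ z in C(0, 1), z ^ (m - k - 1)) = 0 := by
      have := circleIntegral.integral_sub_zpow_of_ne (n := m - k - 1) (by omega) 0 0 1
      simpa using this
    rw [h2, zero_smul, smul_zero]

section
variable {b1 b0 : A} (h : ∀ z : ℂ, ‖z‖ = 1 → IsUnit (Lp b1 b0 z))
include h

theorem continuousOn_Li_sphere : ContinuousOn (Li b1 b0) (sphere 0 1) :=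
  continuousOn_Li fun z hz => h z (by simpa using hz)

/-- computation of the idempotent -/
theorem rid_eq_ci (G : ℂ → A) (hG : ∀ z : ℂ, ‖z‖ = 1 → Lp b1 b0 z * G z = b1) :
    rid b1 b0 = ci 1 (-1) G := by
  unfold rid lc
  rw [ci_mul b1 one_pos (continuousOn_Li_sphere h)]
  refine ci_congr one_pos (fun z hz => ?_) (-1)
  have h1 := hG z hz
  calc Li b1 b0 z * b1 = Li b1 b0 z * (Lp b1 b0 z * G z) := by rw [h1]
    _ = Li b1 b0 z * Lp b1 b0 z * G z := (mul_assoc _ _ _).symm
    _ = G z := by rw [Li_mul_Lp (h z hz), one_mul]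

theorem rid_mem (T : Subalgebra ℂ A) (hT : IsClosed (T : Set A)) (h1 : b1 ∈ T)
    (hL : ∀ z : ℂ, ‖z‖ = 1 → Li b1 b0 z ∈ T) : rid b1 b0 ∈ T := by
  unfold rid lc
  refine T.mul_mem ?_ h1
  exact ci_mem (Subalgebra.toSubmodule T) hT one_pos (continuousOn_Li_sphere h) hL (-1)

theorem Lp_conj {Q Q' : A} (z : ℂ) : Lp (Q * b1 * Q') (Q * b0 * Q') z = Q * Lp b1 b0 z * Q' := by
  unfold Lp
  simp only [mul_add, add_mul, mul_smul_comm, smul_mul_assoc]

theorem isUnit_conj {Q Q' : A} (hQ : Q * Q' = 1) (hQ' : Q' * Q = 1) {z : ℂ} (hz : ‖z‖ = 1) :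
    IsUnit (Lp (Q * b1 * Q') (Q * b0 * Q') z) := by
  rw [Lp_conj h]
  have u1 : IsUnit Q := ⟨⟨Q, Q', hQ, hQ'⟩, rfl⟩
  have u2 : IsUnit Q' := ⟨⟨Q', Q, hQ', hQ⟩, rfl⟩
  exact (u1.mul (h z hz)).mul u2

theorem rid_conj {Q Q' : A} (hQ : Q * Q' = 1) (hQ' : Q' * Q = 1) :
    rid (Q * b1 * Q') (Q * b0 * Q') = Q * rid b1 b0 * Q' := by
  have hconj := fun z (hz : ‖z‖ = 1) => isUnit_conj h hQ hQ' hz
  rw [rid_eq_ci hconj fun z => Q * (Li b1 b0 z * b1) * Q']
  · have hc : ContinuousOn (fun z => Li b1 b0 z * b1) (sphere 0 1) :=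
      (continuousOn_Li_sphere h).mul continuousOn_const
    have hc2 : ContinuousOn (fun z => Q * (Li b1 b0 z * b1)) (sphere 0 1) :=
      continuousOn_const.mul hc
    rw [← ci_mul Q' one_pos hc2, ← mul_ci Q one_pos hc, ← ci_mul b1 one_pos (continuousOn_Li_sphere h)]
    rfl
  · intro z hz
    rw [Lp_conj h]
    calc Q * Lp b1 b0 z * Q' * (Q * (Li b1 b0 z * b1) * Q')
        = Q * Lp b1 b0 z * (Q' * Q) * (Li b1 b0 z * b1) * Q' := by noncomm_ring
      _ = Q * (Lp b1 b0 z * Li b1 b0 z) * b1 * Q' := by rw [hQ']; noncomm_ring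
      _ = Q * b1 * Q' := by rw [Lp_mul_Li (h z hz)]; noncomm_ring

end

/-- Continuity of the Riesz idempotent. -/
theorem continuous_rid {X : Type} [TopologicalSpace X] {b1 b0 : X → A} (h1 : Continuous b1)
    (h0 : Continuous b0) (h : ∀ x (z : ℂ), ‖z‖ = 1 → IsUnit (Lp (b1 x) (b0 x) z)) :
    Continuous fun x => rid (b1 x) (b0 x) := by
  let X0 : Type := {q : A × A // ∀ z : ℂ, ‖z‖ = 1 → IsUnit (Lp q.1 q.2 z)}
  have key : Continuous fun q : X0 => lc q.1.1 q.1.2 (-1) := by
    unfold lc ci circleIntegral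
    refine Continuous.const_smul ?_ _
    refine intervalIntegral.continuous_parametric_intervalIntegral_of_continuous' ?_ _ _
    have hcirc : Continuous fun p : X0 × ℝ => circleMap 0 1 p.2 :=
      (continuous_circleMap 0 1).comp continuous_snd
    have hne : ∀ θ : ℝ, circleMap 0 1 θ ≠ 0 := fun θ => by
      rw [← norm_pos_iff, norm_circleMap_zero, abs_one]
      exact one_pos
    have hLi : Continuous fun p : X0 × ℝ => Li p.1.1.1 p.1.1.2 (circleMap 0 1 p.2) := by
      have hL : Continuous fun p : X0 × ℝ => Lp p.1.1.1 p.1.1.2 (circleMap 0 1 p.2) := by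
        unfold Lp
        refine Continuous.add (hcirc.smul ?_) ?_
        · exact continuous_fst.comp (continuous_subtype_val.comp continuous_fst)
        · exact continuous_snd.comp (continuous_subtype_val.comp continuous_fst)
      rw [continuous_iff_continuousAt]
      intro p
      obtain ⟨u, hu⟩ := p.1.2 (circleMap 0 1 p.2) (by rw [norm_circleMap_zero, abs_one])
      have h2 := NormedRing.inverse_continuousAt u
      rw [hu] at h2
      exact ContinuousAt.comp (f := fun p : X0 × ℝ => Lp p.1.1.1 p.1.1.2 (circleMap 0 1 p.2))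
        h2 hL.continuousAt
    have hd : Continuous fun p : X0 × ℝ => deriv (circleMap 0 1) p.2 := by
      simp only [deriv_circleMap]
      exact hcirc.mul continuous_const
    change Continuous fun p : X0 × ℝ => deriv (circleMap 0 1) p.2 •
      (circleMap 0 1 p.2) ^ (-(-1 : ℤ) - 1) • Li p.1.1.1 p.1.1.2 (circleMap 0 1 p.2)
    refine hd.smul (Continuous.smul ?_ hLi)
    exact hcirc.zpow₀ _ fun p => Or.inl (hne _)
  let f : X → X0 := fun x => ⟨(b1 x, b0 x), h x⟩
  have hf : Continuous f := (h1.prodMk h0).subtype_mk _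
  exact (key.comp hf).mul h1

end Pool.QB.KTh.IX
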