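import Pool.Agent.MP_c51823_gt.QB.KTh.KDef

/-!
# [QBK-U] Units of `C(Y, M_ι(R))`, scalar matrices

`Matrix.comp`/`Matrix.compRingEquiv` identifies `M_ι(M₂(ℂ))` with `M_{ι × Fin 2}(ℂ)`; determinant and
adjugate there give: units are open, the inverse is continuous on units. (Alternatively use the local
instances `Matrix.linftyOpNormedRing`, whose topology is definitionally the given one, and
`NormedRing.inverse_continuousAt`, `Units.isOpen`.) `Ring.inverse` of a scalar matrix is scalar: if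
`a = n.map` is a unit then `det a ≠ 0` forces `det n ≠ 0` (e.g. `a` injective on vectors implies `n`
injective), and `Ring.inverse a = (n⁻¹).map`.
-/

set_option autoImplicit false
open Topology

namespace Pool.QB.KTh

variable {Y : Type} [TopologicalSpace Y] {ι : Type} [Fintype ι] [DecidableEq ι]

theorem gf_ext {B S : Set Y} {g h : GF B S ι} (H : ∀ y, g.1.1 y = h.1.1 y) : g = h := by
  apply Subtype.ext
  apply Units.ext
  exact ContinuousMap.ext H

theorem gf_mul {B S : Set Y} (g h : GF B S ι) (y : Y) : (g * h).1.1 y = g.1.1 y * h.1.1 y := rfl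

theorem gf_one {B S : Set Y} (y : Y) : (1 : GF B S ι).1.1 y = 1 := rfl

theorem gf_inv_mul {B S : Set Y} (g : GF B S ι) (y : Y) : (g⁻¹).1.1 y * g.1.1 y = 1 := by
  rw [← gf_mul, inv_mul_cancel, gf_one]

theorem gf_mul_inv {B S : Set Y} (g : GF B S ι) (y : Y) : g.1.1 y * (g⁻¹).1.1 y = 1 := by
  rw [← gf_mul, mul_inv_cancel, gf_one]

theorem gf_isUnit {B S : Set Y} (g : GF B S ι) (y : Y) : IsUnit (g.1.1 y) :=
  ⟨⟨g.1.1 y, (g⁻¹).1.1 y, gf_mul_inv g y, gf_inv_mul g y⟩, rfl⟩

namespace Unit_aux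

theorem eq_inverse {A : Type*} [Ring A] {a x : A} (hu : IsUnit a) (h : x * a = 1) :
    x = Ring.inverse a := by
  calc x = x * (a * Ring.inverse a) := by rw [Ring.mul_inverse_cancel a hu, mul_one]
    _ = Ring.inverse a := by rw [← mul_assoc, h, one_mul]

/-- `[[0, 1], [0, 0]]` -/
def E01 : R := !![0, 1; 0, 0]
/-- `[[0, 0], [1, 0]]` -/
def E10 : R := !![0, 0; 1, 0]

theorem commute_iff (b : R) :
    (b * E01 = E01 * b ∧ b * E10 = E10 * b) ↔ (b 0 1 = 0 ∧ b 1 0 = 0 ∧ b 0 0 = b 1 1) := by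
  constructor
  · rintro ⟨h1, h2⟩
    have e1 := congrFun (congrFun h1 0) 1
    have e2 := congrFun (congrFun h1 1) 1
    have e3 := congrFun (congrFun h2 0) 0
    simp [E01, E10, Matrix.mul_apply, Fin.sum_univ_two] at e1 e2 e3
    exact ⟨e3, e2, e1⟩
  · rintro ⟨h1, h2, h3⟩
    constructor
    · ext k l
      fin_cases k <;> fin_cases l <;>
        simp [E01, Matrix.mul_apply, Fin.sum_univ_two, h2, h3]
    · ext k l
      fin_cases k <;> fin_cases l <;>
        simp [E10, Matrix.mul_apply, Fin.sum_univ_two, h1, h3]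

end Unit_aux

open Unit_aux

theorem gf_inv {B S : Set Y} (g : GF B S ι) (y : Y) :
    (g⁻¹).1.1 y = Ring.inverse (g.1.1 y) := eq_inverse (gf_isUnit g y) (gf_inv_mul g y)

theorem mem_sc_iff (a : Matrix ι ι R) : a ∈ sc ι ↔
    ∀ i j, a i j 0 1 = 0 ∧ a i j 1 0 = 0 ∧ a i j 0 0 = a i j 1 1 := by
  constructor
  · rintro ⟨m, rfl⟩ i j
    simp [Algebra.ofId_apply, Matrix.algebraMap_matrix_apply]
  · intro h
    refine ⟨Matrix.of fun i j => a i j 0 0, ?_⟩
    ext i j k l
    obtain ⟨h1, h2, h3⟩ := h i j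
    fin_cases k <;> fin_cases l <;>
      simp [Algebra.ofId_apply, Matrix.algebraMap_matrix_apply, h1, h2, h3]

theorem isClosed_sc : IsClosed (sc ι : Set (Matrix ι ι R)) := by
  have h1 : (sc ι : Set (Matrix ι ι R)) =
      ⋂ i, ⋂ j, {a : Matrix ι ι R | a i j 0 1 = 0 ∧ a i j 1 0 = 0 ∧ a i j 0 0 = a i j 1 1} := by
    ext a
    simp only [SetLike.mem_coe, mem_sc_iff, Set.mem_iInter, Set.mem_ofPred_eq]
  rw [h1]
  refine isClosed_iInter fun i => isClosed_iInter fun j => ?_
  have hc : ∀ k l : Fin 2, Continuous fun a : Matrix ι ι R => a i j k l := fun k l => by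
    fun_prop
  exact (isClosed_eq (hc 0 1) continuous_const).inter
    ((isClosed_eq (hc 1 0) continuous_const).inter (isClosed_eq (hc 0 0) (hc 1 1)))

namespace Unit_aux

theorem mem_sc_iff_commute (a : Matrix ι ι R) :
    a ∈ sc ι ↔ Commute a (Matrix.diagonal fun _ => E01) ∧
      Commute a (Matrix.diagonal fun _ => E10) := by
  rw [mem_sc_iff]
  have h1 : ∀ r : R, Commute a (Matrix.diagonal fun _ => r) ↔ ∀ i j, a i j * r = r * a i j := by
    intro r
    constructor
    · intro h i j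
      have h2 := congrFun (congrFun (h : a * _ = _ * a) i) j
      rwa [Matrix.mul_diagonal, Matrix.diagonal_mul] at h2
    · intro h
      show a * _ = _ * a
      refine Matrix.ext fun i j => ?_
      rw [Matrix.mul_diagonal, Matrix.diagonal_mul]
      exact h i j
  rw [h1, h1]
  constructor
  · intro h
    exact ⟨fun i j => ((commute_iff (a i j)).2 (h i j)).1,
      fun i j => ((commute_iff (a i j)).2 (h i j)).2⟩
  · rintro ⟨h2, h3⟩ i j
    exact (commute_iff (a i j)).1 ⟨h2 i j, h3 i j⟩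

end Unit_aux

theorem inverse_mem_sc {a : Matrix ι ι R} (h : a ∈ sc ι) : Ring.inverse a ∈ sc ι := by
  by_cases hu : IsUnit a
  · obtain ⟨u, rfl⟩ := hu
    rw [Ring.inverse_unit]
    rw [mem_sc_iff_commute] at h ⊢
    exact ⟨h.1.units_inv_left, h.2.units_inv_left⟩
  · rw [Ring.inverse_non_unit _ hu]
    exact zero_mem _

namespace Unit_aux

omit [DecidableEq ι] in
theorem continuous_comp : Continuous (Matrix.compRingEquiv ι (Fin 2) ℂ) := by
  refine continuous_matrix fun p q => ?_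
  show Continuous fun a : Matrix ι ι R => a p.1 q.1 p.2 q.2
  fun_prop

omit [DecidableEq ι] in
theorem continuous_comp_symm : Continuous (Matrix.compRingEquiv ι (Fin 2) ℂ).symm := by
  refine continuous_matrix fun i j => continuous_matrix fun k l => ?_
  show Continuous fun b : Matrix (ι × Fin 2) (ι × Fin 2) ℂ => b (i, k) (j, l)
  fun_prop

theorem isUnit_iff (a : Matrix ι ι R) :
    IsUnit a ↔ (Matrix.compRingEquiv ι (Fin 2) ℂ a).det ≠ 0 := by
  rw [← isUnit_iff_ne_zero, ← Matrix.isUnit_iff_isUnit_det]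
  exact (MulEquiv.isUnit_map (Matrix.compRingEquiv ι (Fin 2) ℂ)).symm

theorem inverse_eq {a : Matrix ι ι R} (hu : IsUnit a) :
    Ring.inverse a = (Matrix.compRingEquiv ι (Fin 2) ℂ).symm
      ((Matrix.compRingEquiv ι (Fin 2) ℂ a).det⁻¹ •
        (Matrix.compRingEquiv ι (Fin 2) ℂ a).adjugate) := by
  symm
  apply eq_inverse hu
  apply (Matrix.compRingEquiv ι (Fin 2) ℂ).injective
  rw [map_mul, RingEquiv.apply_symm_apply, Matrix.smul_mul, Matrix.adjugate_mul, smul_smul,
    inv_mul_cancel₀ ((isUnit_iff a).1 hu), one_smul, map_one]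

end Unit_aux

theorem isOpen_isUnit : IsOpen {a : Matrix ι ι R | IsUnit a} := by
  have h1 : {a : Matrix ι ι R | IsUnit a} =
      {a : Matrix ι ι R | (Matrix.compRingEquiv ι (Fin 2) ℂ a).det ≠ 0} := by
    ext a
    exact isUnit_iff a
  rw [h1]
  exact isOpen_ne_fun (continuous_comp.matrix_det) continuous_const

theorem continuous_inverse {f : Y → Matrix ι ι R} (hf : Continuous f) (hu : ∀ y, IsUnit (f y)) :
    Continuous fun y => Ring.inverse (f y) := by
  have h1 : (fun y => Ring.inverse (f y)) = fun y => (Matrix.compRingEquiv ι (Fin 2) ℂ).symm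
      ((Matrix.compRingEquiv ι (Fin 2) ℂ (f y)).det⁻¹ •
        (Matrix.compRingEquiv ι (Fin 2) ℂ (f y)).adjugate) := by
    funext y
    exact inverse_eq (hu y)
  rw [h1]
  have h2 : Continuous fun y => Matrix.compRingEquiv ι (Fin 2) ℂ (f y) := continuous_comp.comp hf
  exact continuous_comp_symm.comp
    ((h2.matrix_det.inv₀ fun y => (isUnit_iff (f y)).1 (hu y)).smul h2.matrix_adjugate)

/-- Pointwise invertible functions are units. -/
theorem exists_gf {B S : Set Y} (f : C(Y, Matrix ι ι R)) (hu : ∀ y, IsUnit (f y))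
    (hB : ∀ y ∈ B, f y = 1) (hS : ∀ y ∈ S, f y ∈ sc ι) : ∃ g : GF B S ι, g.1.1 = f := by
  refine ⟨⟨⟨f, ⟨fun y => Ring.inverse (f y), continuous_inverse f.continuous hu⟩, ?_, ?_⟩,
    hB, fun y hy => ⟨hS y hy, inverse_mem_sc (hS y hy)⟩⟩, rfl⟩
  · ext1 y
    exact Ring.mul_inverse_cancel _ (hu y)
  · ext1 y
    exact Ring.inverse_mul_cancel _ (hu y)

/-- Matrices close to the values of an invertible function on a compact space are invertible. -/
theorem exists_delta_unit [CompactSpace Y] (f : C(Y, Matrix ι ι R)) (hu : ∀ y, IsUnit (f y)) :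
    ∃ δ > (0 : ℝ), ∀ (y : Y) (a : Matrix ι ι R), (∀ i j k l, ‖a i j k l - f y i j k l‖ < δ) →
      IsUnit a := by
  let K : Set (ι → ι → Fin 2 → Fin 2 → ℂ) := Set.range f
  let U : Set (ι → ι → Fin 2 → Fin 2 → ℂ) := {a | @IsUnit (Matrix ι ι R) _ a}
  have hK : IsCompact K := isCompact_range f.continuous
  have hU : IsOpen U := isOpen_isUnit (ι := ι)
  have hKU : K ⊆ U := by
    rintro _ ⟨y, rfl⟩
    exact hu y
  obtain ⟨δ, hδ, hsub⟩ := hK.exists_thickening_subset_open hU hKU
  refine ⟨δ, hδ, fun y a ha => ?_⟩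
  let a' : ι → ι → Fin 2 → Fin 2 → ℂ := a
  let f' : ι → ι → Fin 2 → Fin 2 → ℂ := f y
  have h2 : dist a' f' < δ :=
    (dist_pi_lt_iff hδ).2 fun i => (dist_pi_lt_iff hδ).2 fun j => (dist_pi_lt_iff hδ).2 fun k =>
      (dist_pi_lt_iff hδ).2 fun l => by
        rw [dist_eq_norm]
        exact ha i j k l
  have h1 : a' ∈ U := hsub (Metric.mem_thickening_iff.2 ⟨f', ⟨y, rfl⟩, h2⟩)
  exact h1

end Pool.QB.KTh
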