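import Pool.Agent.MP_c51823_gt.QB.KTh.PencilB
import Pool.Agent.MP_c51823_gt.QB.KTh.NormM
import Pool.Agent.MP_c51823_gt.QB.KTh.Unit

/-!
# [QBK] Linear pencils in `M_ν(R)`
-/

set_option autoImplicit false
open Topology Metric

namespace Pool.QB.KTh.IX

variable {ν : Type} [Fintype ν] [DecidableEq ν]

theorem T_rid {A : Type} [NormedRing A] [NormedAlgebra ℂ A] [CompleteSpace A] {b1 b0 : A}
    (h : ∀ z : ℂ, ‖z‖ = 1 → IsUnit (Lp b1 b0 z)) (T : A →L[ℂ] ℂ) (G : ℂ → A)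
    (hG : ∀ z, ‖z‖ = 1 → Lp b1 b0 z * G z = b1) (m : ℤ) (a : ℂ)
    (hT : ∀ z, ‖z‖ = 1 → T (G z) = z ^ m * a) : T (rid b1 b0) = if m = -1 then a else 0 := by
  have hc : ContinuousOn (fun z => Li b1 b0 z * b1) (sphere 0 1) :=
    (continuousOn_Li_sphere h).mul continuousOn_const
  have h1 : ∀ z, ‖z‖ = 1 → G z = Li b1 b0 z * b1 := fun z hz => by
    calc G z = Li b1 b0 z * Lp b1 b0 z * G z := by rw [Li_mul_Lp (h z hz), one_mul]
      _ = Li b1 b0 z * (Lp b1 b0 z * G z) := mul_assoc _ _ _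
      _ = Li b1 b0 z * b1 := by rw [hG z hz]
  unfold rid lc
  rw [ci_mul b1 one_pos (continuousOn_Li_sphere h), clm_ci T one_pos hc]
  rw [ci_congr one_pos (G := fun z => z ^ m • a) (fun z hz => by
    rw [← h1 z hz, hT z hz, smul_eq_mul])]
  exact ci_zpow_smul m (-1) a

/-- the Riesz idempotent of the pencil `z b1 + b0` in `M_ν(R)` -/
noncomputable def ridM (b1 b0 : Matrix ν ν R) : Matrix ν ν R :=
  @rid (Matrix ν ν R) (nM ν) (nMA ν) b1 b0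

/-- the deformed pencil in `M_ν(R)` -/
noncomputable def LdM (b1 b0 : Matrix ν ν R) (t z : ℂ) : Matrix ν ν R :=
  (z • b1 + t • b0) * ridM b1 b0 + ((t * z) • b1 + b0) * (1 - ridM b1 b0)

section
variable {b1 b0 : Matrix ν ν R} (h : ∀ z : ℂ, ‖z‖ = 1 → IsUnit (z • b1 + b0))
include h

theorem ridM_idem : ridM b1 b0 * ridM b1 b0 = ridM b1 b0 :=
  @rid_idem (Matrix ν ν R) (nM ν) (nMA ν) (nM_complete ν) b1 b0 h

theorem ridM_mem_sc (h1 : b1 ∈ sc ν) (h0 : b0 ∈ sc ν) : ridM b1 b0 ∈ sc ν := by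
  refine @rid_mem (Matrix ν ν R) (nM ν) (nMA ν) (nM_complete ν) b1 b0 h (sc ν) isClosed_sc h1 ?_
  intro z _
  exact inverse_mem_sc ((sc ν).add_mem (Subalgebra.smul_mem _ h1 z) h0)

theorem ridM_conj {Q Q' : Matrix ν ν R} (hQ : Q * Q' = 1) (hQ' : Q' * Q = 1) :
    ridM (Q * b1 * Q') (Q * b0 * Q') = Q * ridM b1 b0 * Q' :=
  @rid_conj (Matrix ν ν R) (nM ν) (nMA ν) (nM_complete ν) b1 b0 h Q Q' hQ hQ'

theorem LdM_zero (z : ℂ) : LdM b1 b0 0 z =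
    (b1 * ridM b1 b0 + b0 * (1 - ridM b1 b0)) * (z • ridM b1 b0 + (1 - ridM b1 b0)) :=
  @Ld_zero (Matrix ν ν R) (nM ν) (nMA ν) (nM_complete ν) b1 b0 h z

theorem isUnit_LdM {t z : ℂ} (ht : ‖t‖ ≤ 1) (hz : ‖z‖ = 1) : IsUnit (LdM b1 b0 t z) :=
  @isUnit_Ld (Matrix ν ν R) (nM ν) (nMA ν) (nM_complete ν) b1 b0 h t z ht hz

/-- computation of the idempotent from a monomial resolvent -/
theorem ridM_entry (m : ν → ν → ℤ) (a : Matrix ν ν R)
    (hG : ∀ z : ℂ, ‖z‖ = 1 → (z • b1 + b0) * (Matrix.of fun i j => z ^ m i j • a i j) = b1)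
    (i j : ν) : ridM b1 b0 i j = if m i j = -1 then a i j else 0 := by
  refine Matrix.ext fun k l => ?_
  let T : Matrix ν ν R →L[ℂ] ℂ :=
    { toFun := fun c => c i j k l
      map_add' := fun _ _ => rfl
      map_smul' := fun _ _ => rfl
      cont := by fun_prop }
  have h1 := @T_rid (Matrix ν ν R) (nM ν) (nMA ν) (nM_complete ν) b1 b0 h T _ hG (m i j) (a i j k l)
    (fun z _ => rfl)
  have h2 : ridM b1 b0 i j k l = if m i j = -1 then a i j k l else 0 := h1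
  rw [h2]
  split_ifs <;> rfl

end

theorem LdM_one (b1 b0 : Matrix ν ν R) (z : ℂ) : LdM b1 b0 1 z = z • b1 + b0 :=
  @Ld_one (Matrix ν ν R) (nM ν) (nMA ν) (nM_complete ν) b1 b0 z

theorem continuous_ridM {X : Type} [TopologicalSpace X] {b1 b0 : X → Matrix ν ν R}
    (h1 : Continuous b1) (h0 : Continuous b0)
    (h : ∀ x (z : ℂ), ‖z‖ = 1 → IsUnit (z • b1 x + b0 x)) :
    Continuous fun x => ridM (b1 x) (b0 x) :=
  @continuous_rid (Matrix ν ν R) (nM ν) (nMA ν) (nM_complete ν) X _ b1 b0 h1 h0 h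

end Pool.QB.KTh.IX
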