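import Pool.Agent.MP_c51823_gt.QB.KTh.PolyDef

/-!
# [QBK-P0] The map `Psi : D^a → CP^a`, `ζ ↦ [ζ_0 : … : ζ_{a-1} : 1 - max |ζ_i|]`

* `pol_ne`: the coefficients do not all vanish (if all `ζ_i = 0` the last one is `1`).
* continuity: `line` of a nonvanishing continuous family of coefficient vectors (degree `≤ a`): write the
  denominator as the sum over `range (a+1)`.
-/

set_option autoImplicit false
open Topology

namespace Pool.QB.KTh

variable {Y : Type} [TopologicalSpace Y]

namespace Poly0_aux

theorem coeff_pol (z : ℕ → C(Y, Disc)) (a : ℕ) (y : Y) (k : ℕ) :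
    (pol z a y).coeff k = (if k < a then (z k y).1 else 0) +
      (if k = a then ((1 - mx z a y : ℝ) : ℂ) else 0) := by
  rw [pol, Polynomial.coeff_add, Polynomial.finsetSum_coeff, Polynomial.coeff_C_mul_X_pow]
  congr 1
  simp only [Polynomial.coeff_C_mul_X_pow]
  rw [Finset.sum_ite_eq]
  simp only [Finset.mem_range]

theorem continuous_mx (z : ℕ → C(Y, Disc)) (a : ℕ) : Continuous fun y => mx z a y := by
  induction a with
  | zero =>
    have : (fun y => mx z 0 y) = fun _ => (0 : ℝ) := by
      funext y
      simp [mx]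
    rw [this]
    exact continuous_const
  | succ a ih =>
    have : (fun y => mx z (a + 1) y) = fun y => max ‖(z a y).1‖ (mx z a y) := by
      funext y
      rw [mx, Finset.range_add_one, Finset.fold_insert Finset.notMem_range_self, mx]
    rw [this]
    exact ((continuous_subtype_val.comp (z a).continuous).norm).max ih

theorem continuous_coeff (z : ℕ → C(Y, Disc)) (a : ℕ) (k : ℕ) :
    Continuous fun y => (pol z a y).coeff k := by
  simp only [coeff_pol]
  refine Continuous.add ?_ ?_
  · split_ifs
    · exact continuous_subtype_val.comp (z k).continuous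
    · exact continuous_const
  · split_ifs
    · exact Complex.continuous_ofReal.comp (continuous_const.sub (continuous_mx z a))
    · exact continuous_const

end Poly0_aux

open Poly0_aux

theorem pol_ne (z : ℕ → C(Y, Disc)) (a : ℕ) (y : Y) : pol z a y ≠ 0 := by
  intro h
  have h1 : ∀ k, (pol z a y).coeff k = 0 := fun k => by rw [h]; exact Polynomial.coeff_zero k
  have h2 : mx z a y ≤ 0 := by
    rw [mx, Finset.fold_max_le]
    refine ⟨le_rfl, fun i hi => ?_⟩
    rw [Finset.mem_range] at hi
    have h3 := h1 i
    rw [coeff_pol, if_pos hi, if_neg hi.ne, add_zero] at h3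
    rw [h3, norm_zero]
  have h3 := h1 a
  rw [coeff_pol, if_neg (lt_irrefl a), if_pos rfl, zero_add] at h3
  have h4 : 1 - mx z a y = 0 := Complex.ofReal_eq_zero.1 h3
  linarith

theorem pol_natDegree (z : ℕ → C(Y, Disc)) (a : ℕ) (y : Y) : (pol z a y).natDegree ≤ a := by
  rw [Polynomial.natDegree_le_iff_coeff_eq_zero]
  intro k hk
  rw [coeff_pol, if_neg (by omega), if_neg (by omega), add_zero]

/-- the line of `pol` as a continuous function -/
theorem continuous_pol_line (z : ℕ → C(Y, Disc)) (a : ℕ) :
    Continuous fun y => (⟨line (pol z a y), line_mem (pol_ne z a y) (pol_natDegree z a y)⟩ : CP a) := by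
  refine Continuous.subtype_mk ?_ _
  have hden : ∀ y, (∑ k ∈ (pol z a y).support, ‖(pol z a y).coeff k‖ ^ 2 : ℝ) =
      ∑ k ∈ Finset.range (a + 1), ‖(pol z a y).coeff k‖ ^ 2 := by
    intro y
    refine Finset.sum_subset ?_ ?_
    · intro k hk
      rw [Finset.mem_range]
      have := Polynomial.le_natDegree_of_mem_supp k hk
      have := pol_natDegree z a y
      omega
    · intro k _ hk
      rw [Polynomial.notMem_support_iff.1 hk]
      simp
  have hpos : ∀ y, (∑ k ∈ Finset.range (a + 1), ‖(pol z a y).coeff k‖ ^ 2 : ℝ) ≠ 0 := by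
    intro y h0
    rw [Finset.sum_eq_zero_iff_of_nonneg (fun i _ => sq_nonneg _)] at h0
    apply pol_ne z a y
    ext k
    rw [Polynomial.coeff_zero]
    by_cases hk : k < a + 1
    · have := h0 k (Finset.mem_range.2 hk)
      exact norm_eq_zero.1 (pow_eq_zero_iff (two_ne_zero) |>.1 this)
    · exact Polynomial.coeff_eq_zero_of_natDegree_lt (by
        have := pol_natDegree z a y
        omega)
  refine continuous_pi fun i => continuous_pi fun j => ?_
  have h1 : (fun y => line (pol z a y) i j) = fun y =>
      (pol z a y).coeff i * (starRingEnd ℂ) ((pol z a y).coeff j) /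
        ((∑ k ∈ Finset.range (a + 1), ‖(pol z a y).coeff k‖ ^ 2 : ℝ) : ℂ) := by
    funext y
    rw [line, hden y]
  rw [h1]
  refine Continuous.div ?_ ?_ ?_
  · exact (continuous_coeff z a i).mul (Complex.continuous_conj.comp (continuous_coeff z a j))
  · refine Complex.continuous_ofReal.comp (continuous_finsetSum _ fun k _ => ?_)
    exact ((continuous_coeff z a k).norm).pow 2
  · intro y
    exact Complex.ofReal_ne_zero.2 (hpos y)

/-- The line of `pol`. -/
noncomputable def polL (z : ℕ → C(Y, Disc)) (a : ℕ) : C(Y, CP a) :=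
  ⟨fun y => ⟨line (pol z a y), line_mem (pol_ne z a y) (pol_natDegree z a y)⟩,
    continuous_pol_line z a⟩

/-- The map `Y × D^a → Y × CP^a`. -/
noncomputable def Psi (Y : Type) [TopologicalSpace Y] (a : ℕ) : C(Ds Y a, Y × CP a) :=
  (base Y a).prodMk (polL (zc Y a) a)

end Pool.QB.KTh
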