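import Pool.Agent.MP_c51823_gt.QB.KTh.Poly0

/-!
# [QBK-P1] Comparison of the operators on `CP^a` and on the polydisc

`relT_eq_relD`: `k < a`, `g = polL z a`. The line `sclM g k` is spanned by
`v⁰ = (ρ z_0, …, z_k, …, ρ z_{a-1}, ρ (1 - max |z_i|))`, `ρ = rho a k (g y)` (which is `> 0` if `z_k = 0` and
`= 0` if `|z_k| = 1`). Straight line homotopy `v^t = (1-t) v⁰ + t v¹` to
`v¹ = (0, …, z_k, 0, …, 0, 1 - |z_k|)` (coordinates `k` and `a`); `v^t ≠ 0` (if `z_k = 0` the last coordinate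
is `≥ t > 0`, and `v⁰ ≠ 0`); for `|z_k| = 1` only the `k`-th coordinate is nonzero. So `rel_homotopy` (with
`E = vl (v^t)`, `E' = Ek k`) and `rel_embed` with the constant isometry `T : Fin 2 → Fin (a+1)`, `0 ↦ k`,
`1 ↦ a` (`T betV = v¹`, `T (Ek 0) T' = Ek k`). `line p` of a polynomial of degree `≤ a` as a matrix is `vl` of
the coefficient vector.
-/

set_option autoImplicit false
open Topology

namespace Pool.QB.KTh

variable {Y : Type} [TopologicalSpace Y] {B Br S : Set Y} {a : ℕ}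

namespace Poly1_aux

open Line_aux (nn nn_pos)

theorem pol_coeff (z : ℕ → C(Y, Disc)) (a : ℕ) (y : Y) (n : ℕ) :
    (pol z a y).coeff n = (if n < a then (z n y).1 else 0) +
      if n = a then ((1 - mx z a y : ℝ) : ℂ) else 0 := by
  unfold pol
  rw [Polynomial.coeff_add, Polynomial.finsetSum_coeff, Polynomial.coeff_C_mul_X_pow]
  congr 1
  simp only [Polynomial.coeff_C_mul_X_pow]
  rw [Finset.sum_ite_eq]
  simp only [Finset.mem_range]

theorem coeff_lt (z : ℕ → C(Y, Disc)) (a : ℕ) (y : Y) {i : ℕ} (hi : i < a) :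
    (pol z a y).coeff i = (z i y).1 := by
  rw [pol_coeff, if_pos hi, if_neg hi.ne, add_zero]

theorem coeff_eq (z : ℕ → C(Y, Disc)) (a : ℕ) (y : Y) :
    (pol z a y).coeff a = ((1 - mx z a y : ℝ) : ℂ) := by
  rw [pol_coeff, if_neg (lt_irrefl a), if_pos rfl, zero_add]

theorem mx_nonneg (z : ℕ → C(Y, Disc)) (a : ℕ) (y : Y) : 0 ≤ mx z a y := by
  unfold mx
  rw [Finset.le_fold_max]
  exact Or.inl le_rfl

theorem mx_le_one (z : ℕ → C(Y, Disc)) (a : ℕ) (y : Y) : mx z a y ≤ 1 := by
  unfold mx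
  rw [Finset.fold_max_le]
  exact ⟨zero_le_one, fun i _ => (z i y).2⟩

theorem continuous_mx (z : ℕ → C(Y, Disc)) (a : ℕ) : Continuous (mx z a) := by
  have h2 : ∀ T : Finset ℕ, Continuous fun y : Y => T.fold max 0 fun i => ‖(z i y).1‖ := by
    intro T
    induction T using Finset.induction_on with
    | empty => simpa using continuous_const
    | insert b T hb ih =>
      simp only [Finset.fold_insert hb]
      exact Continuous.max (continuous_subtype_val.comp (z b).continuous).norm ih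
  exact h2 _

theorem line_apply (p : Polynomial ℂ) (i j : ℕ) :
    line p i j = p.coeff i * (starRingEnd ℂ) (p.coeff j) / (nn p : ℂ) := rfl

theorem line_re (p : Polynomial ℂ) (j : ℕ) :
    (line p j j).re = Complex.normSq (p.coeff j) / nn p := by
  rw [line_apply, Complex.mul_conj, ← Complex.ofReal_div, Complex.ofReal_re]

theorem polL_val (z : ℕ → C(Y, Disc)) (a : ℕ) (y : Y) : (polL z a y).1 = line (pol z a y) := rfl

theorem continuous_vl {X m : Type} [TopologicalSpace X] [Fintype m] (w : X → m → ℂ)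
    (h : ∀ i, Continuous fun x => w x i) (h0 : ∀ x, w x ≠ 0) : Continuous fun x => vl (w x) := by
  refine continuous_matrix fun i j => ?_
  refine Continuous.div ((h i).mul (Complex.continuous_conj.comp (h j))) ?_
    fun z => sum_ne (h0 z)
  exact continuous_finsetSum _ fun k _ => (h k).mul (Complex.continuous_conj.comp (h k))

theorem vl_eq {m : Type} [Fintype m] (v : m → ℂ) :
    vl v = (star v ⬝ᵥ v)⁻¹ • Matrix.vecMulVec v (star v) := by
  ext i j
  have h : ∑ k, v k * (starRingEnd ℂ) (v k) = star v ⬝ᵥ v := by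
    rw [dotProduct_comm]
    rfl
  change v i * (starRingEnd ℂ) (v j) / ∑ k, v k * (starRingEnd ℂ) (v k) = _
  rw [h, Matrix.smul_apply, smul_eq_mul, Matrix.vecMulVec_apply, div_eq_mul_inv, mul_comm]
  rfl

theorem vl_isom {m n : Type} [Fintype m] [DecidableEq m] [Fintype n] [DecidableEq n]
    (T : Matrix n m ℂ) (hT : T.conjTranspose * T = 1) (v : m → ℂ) :
    vl (T.mulVec v) = T * vl v * T.conjTranspose := by
  have h1 : star (T.mulVec v) ⬝ᵥ T.mulVec v = star v ⬝ᵥ v := by
    rw [Matrix.star_mulVec, Matrix.dotProduct_mulVec, Matrix.vecMul_vecMul, hT, Matrix.vecMul_one]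
  rw [vl_eq, vl_eq, h1, Matrix.mul_smul, Matrix.smul_mul]
  congr 1
  rw [Matrix.star_mulVec, Matrix.mul_vecMulVec, Matrix.vecMulVec_mul]

theorem vl_single {m : Type} [Fintype m] [DecidableEq m] (v : m → ℂ) (k : m)
    (h : ∀ i, i ≠ k → v i = 0) (hk : v k ≠ 0) : vl v = Ek k := by
  have hs : ∑ l, v l * (starRingEnd ℂ) (v l) = v k * (starRingEnd ℂ) (v k) := by
    rw [Finset.sum_eq_single k]
    · intro l _ hl
      rw [h l hl, zero_mul]
    · intro h0
      exact absurd (Finset.mem_univ k) h0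
  have hn : v k * (starRingEnd ℂ) (v k) ≠ 0 :=
    mul_ne_zero hk ((map_ne_zero _).2 hk)
  ext i j
  change v i * (starRingEnd ℂ) (v j) / ∑ k, v k * (starRingEnd ℂ) (v k) = _
  rw [hs]
  unfold Ek
  by_cases hi : i = k
  · by_cases hj : j = k
    · subst hi hj
      rw [Matrix.single_apply_same]
      exact div_self hn
    · rw [Matrix.single_apply_of_ne _ _ _ _ _ (fun hh => hj hh.2.symm), h j hj, map_zero, mul_zero,
        zero_div]
  · rw [Matrix.single_apply_of_ne _ _ _ _ _ (fun hh => hi hh.1.symm), h i hi, zero_mul, zero_div]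

/-- the path of vectors -/
noncomputable def W (z : ℕ → C(Y, Disc)) (a k : ℕ) (p : Y × I) : Fin (a + 1) → ℂ := fun i =>
  if (i : ℕ) = k then (z k p.1).1 else
    (((1 - (p.2 : ℝ)) * rho a k (polL z a p.1).1 : ℝ) : ℂ) * (pol z a p.1).coeff i +
      if (i : ℕ) = a then (((p.2 : ℝ) * (1 - ‖(z k p.1).1‖) : ℝ) : ℂ) else 0

theorem continuous_W (z : ℕ → C(Y, Disc)) (a k : ℕ) (i : Fin (a + 1)) :
    Continuous fun p => W z a k p i := by
  have hz : ∀ j, Continuous fun p : Y × I => (z j p.1).1 := fun j =>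
    continuous_subtype_val.comp ((z j).continuous.comp continuous_fst)
  have ht : Continuous fun p : Y × I => ((p.2 : ℝ)) :=
    continuous_subtype_val.comp continuous_snd
  have hρ : Continuous fun p : Y × I => rho a k (polL z a p.1).1 :=
    (continuous_rho a k).comp ((polL z a).continuous.comp continuous_fst)
  unfold W
  split_ifs with h1 h2
  · exact hz k
  · refine Continuous.add (Continuous.mul ?_ ?_) ?_
    · exact Complex.continuous_ofReal.comp ((continuous_const.sub ht).mul hρ)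
    · simp only [h2, coeff_eq]
      exact Complex.continuous_ofReal.comp
        (continuous_const.sub ((continuous_mx z a).comp continuous_fst))
    · exact Complex.continuous_ofReal.comp (ht.mul (continuous_const.sub (hz k).norm))
  · refine Continuous.add (Continuous.mul ?_ ?_) continuous_const
    · exact Complex.continuous_ofReal.comp ((continuous_const.sub ht).mul hρ)
    · have hi : (i : ℕ) < a := by omega
      simp only [coeff_lt z a _ hi]
      exact hz i

theorem W_ne (z : ℕ → C(Y, Disc)) {a k : ℕ} (hk : k < a) (p : Y × I) : W z a k p ≠ 0 := by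
  obtain ⟨y, t⟩ := p
  intro h
  have hzk : (z k y).1 = 0 := by
    have := congrFun h ⟨k, by omega⟩
    simpa [W] using this
  have hρ : 0 < rho a k (polL z a y).1 := by
    rcases rho_pos k (polL z a y) with h1 | h1
    · exact h1
    · exfalso
      apply h1
      rw [polL_val, line_apply, coeff_lt z a y hk, hzk, zero_mul, zero_div]
  have ha : (1 - (t : ℝ)) * rho a k (polL z a y).1 * (1 - mx z a y) + (t : ℝ) = 0 := by
    have := congrFun h ⟨a, by omega⟩
    simp only [W, Pi.zero_apply] at this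
    rw [if_neg (by omega), if_pos trivial, coeff_eq, hzk, norm_zero, sub_zero, mul_one] at this
    exact_mod_cast this
  have h0 : 0 ≤ (1 - (t : ℝ)) * rho a k (polL z a y).1 * (1 - mx z a y) :=
    mul_nonneg (mul_nonneg (by linarith [t.2.2]) hρ.le) (by linarith [mx_le_one z a y])
  have ht : (t : ℝ) = 0 := by linarith [t.2.1]
  apply pol_ne z a y
  ext n
  rw [Polynomial.coeff_zero]
  rcases lt_trichotomy n a with hn | hn | hn
  · by_cases hnk : n = k
    · rw [hnk, coeff_lt z a y hk, hzk]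
    · have := congrFun h ⟨n, by omega⟩
      simp only [W, Pi.zero_apply] at this
      rw [if_neg hnk, if_neg (by omega), add_zero, ht, sub_zero, one_mul] at this
      rcases mul_eq_zero.1 this with h2 | h2
      · exact absurd (by exact_mod_cast h2) hρ.ne'
      · exact h2
  · subst hn
    rw [ht, sub_zero, one_mul, add_zero] at ha
    rcases mul_eq_zero.1 ha with h2 | h2
    · exact absurd h2 hρ.ne'
    · rw [coeff_eq, h2, Complex.ofReal_zero]
  · rw [pol_coeff, if_neg (by omega), if_neg (by omega), add_zero]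

/-- the isometry -/
noncomputable def Tm (a k : ℕ) : Matrix (Fin (a + 1)) (Fin 2) ℂ :=
  Matrix.of fun i j => if j = 0 then (if (i : ℕ) = k then 1 else 0) else (if (i : ℕ) = a then 1 else 0)

theorem Tm_star (a k : ℕ) : (Tm a k).conjTranspose = (Tm a k).transpose := by
  ext i j
  rw [Matrix.conjTranspose_apply, Matrix.transpose_apply, Tm, Matrix.of_apply]
  split_ifs <;> simp

theorem Tm0 (a k : ℕ) (i : Fin (a + 1)) : Tm a k i 0 = if (i : ℕ) = k then 1 else 0 := by
  rw [Tm, Matrix.of_apply, if_pos rfl]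

theorem Tm1 (a k : ℕ) (i : Fin (a + 1)) : Tm a k i 1 = if (i : ℕ) = a then 1 else 0 := by
  rw [Tm, Matrix.of_apply, if_neg (by decide)]

theorem Tm_isom {a k : ℕ} (hk : k < a) : (Tm a k).conjTranspose * Tm a k = 1 := by
  rw [Tm_star]
  have h0 : ∀ n : ℕ, n < a + 1 → ∑ i : Fin (a + 1), (if (i : ℕ) = n then (1 : ℂ) else 0) = 1 := by
    intro n hn
    rw [Finset.sum_eq_single ⟨n, hn⟩]
    · simp
    · intro b _ hb
      rw [if_neg]
      intro h
      exact hb (Fin.ext h)
    · intro h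
      exact absurd (Finset.mem_univ _) h
  have h2 : ∀ i : Fin (a + 1), ¬ ((i : ℕ) = k ∧ (i : ℕ) = a) := fun i h => by omega
  ext i j
  rw [Matrix.mul_apply]
  simp only [Matrix.transpose_apply]
  fin_cases i <;> fin_cases j
  · change ∑ x, Tm a k x 0 * Tm a k x 0 = (1 : Matrix (Fin 2) (Fin 2) ℂ) 0 0
    rw [Matrix.one_apply_eq, ← h0 k (by omega)]
    refine Finset.sum_congr rfl fun i _ => ?_
    rw [Tm0]
    by_cases h3 : (i : ℕ) = k
    · rw [if_pos h3, one_mul]
    · rw [if_neg h3, zero_mul]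
  · change ∑ x, Tm a k x 0 * Tm a k x 1 = (1 : Matrix (Fin 2) (Fin 2) ℂ) 0 1
    rw [Matrix.one_apply_ne (by decide)]
    refine Finset.sum_eq_zero fun i _ => ?_
    rw [Tm0, Tm1]
    by_cases h3 : (i : ℕ) = k
    · rw [if_neg (fun h4 => h2 i ⟨h3, h4⟩), mul_zero]
    · rw [if_neg h3, zero_mul]
  · change ∑ x, Tm a k x 1 * Tm a k x 0 = (1 : Matrix (Fin 2) (Fin 2) ℂ) 1 0
    rw [Matrix.one_apply_ne (by decide)]
    refine Finset.sum_eq_zero fun i _ => ?_
    rw [Tm0, Tm1]
    by_cases h3 : (i : ℕ) = k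
    · rw [if_neg (fun h4 => h2 i ⟨h3, h4⟩), zero_mul]
    · rw [if_neg h3, mul_zero]
  · change ∑ x, Tm a k x 1 * Tm a k x 1 = (1 : Matrix (Fin 2) (Fin 2) ℂ) 1 1
    rw [Matrix.one_apply_eq, ← h0 a (by omega)]
    refine Finset.sum_congr rfl fun i _ => ?_
    rw [Tm1]
    by_cases h3 : (i : ℕ) = a
    · rw [if_pos h3, one_mul]
    · rw [if_neg h3, zero_mul]

theorem Tm_Ek {a k : ℕ} (hk : k < a) :
    Tm a k * (Ek 0 : Matrix (Fin 2) (Fin 2) ℂ) * (Tm a k).conjTranspose = Ek ⟨k, by omega⟩ := by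
  rw [Tm_star]
  obtain ⟨k', hk'⟩ : ∃ k' : Fin (a + 1), k' = ⟨k, by omega⟩ := ⟨_, rfl⟩
  have hkk : (k' : ℕ) = k := by rw [hk']
  rw [← hk']
  ext i j
  rw [Matrix.mul_apply, Fin.sum_univ_two, Matrix.mul_apply, Matrix.mul_apply, Fin.sum_univ_two,
    Fin.sum_univ_two]
  unfold Ek
  rw [Matrix.single_apply_same, Matrix.single_apply_of_ne _ _ _ _ _ (by decide),
    Matrix.single_apply_of_ne _ _ _ _ _ (by decide), Matrix.single_apply_of_ne _ _ _ _ _ (by decide)]
  simp only [mul_zero, mul_one, add_zero, zero_mul, Matrix.transpose_apply, Tm0]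
  by_cases hi : (i : ℕ) = k
  · by_cases hj : (j : ℕ) = k
    · have hi' : i = k' := Fin.ext (hi.trans hkk.symm)
      have hj' : j = k' := Fin.ext (hj.trans hkk.symm)
      rw [if_pos hi, if_pos hj, hi', hj', Matrix.single_apply_same, mul_one]
    · rw [Matrix.single_apply_of_ne _ _ _ _ _ (fun hh => hj (by rw [← hh.2, hkk])), if_neg hj,
        mul_zero]
  · rw [Matrix.single_apply_of_ne _ _ _ _ _ (fun hh => hi (by rw [← hh.1, hkk])), if_neg hi,
      zero_mul]

theorem W_one (z : ℕ → C(Y, Disc)) {a k : ℕ} (hk : k < a) (y : Y) :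
    W z a k (y, 1) = (Tm a k).mulVec (betV (z k y).1) := by
  funext i
  rw [Matrix.mulVec, dotProduct, Fin.sum_univ_two, Tm0, Tm1]
  have h1 : ((1 : I) : ℝ) = 1 := rfl
  have h3 : betV (z k y).1 0 = (z k y).1 := rfl
  have h4 : betV (z k y).1 1 = ((1 - ‖(z k y).1‖ : ℝ) : ℂ) := rfl
  rw [h3, h4]
  simp only [W, h1, sub_self, zero_mul, Complex.ofReal_zero, zero_add, one_mul]
  by_cases h2 : (i : ℕ) = k
  · rw [if_pos h2, if_pos h2, if_neg (by omega), one_mul, zero_mul, add_zero]
  · rw [if_neg h2, if_neg h2, zero_mul, zero_add]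
    split_ifs
    · rw [one_mul]
    · rw [zero_mul]

theorem W_zero (z : ℕ → C(Y, Disc)) {a k : ℕ} (hk : k < a) (y : Y) :
    vl (W z a k (y, 0)) = sclM (polL z a) ⟨k, by omega⟩ y := by
  have hN : (nn (pol z a y) : ℂ) ≠ 0 := by exact_mod_cast (nn_pos (pol_ne z a y)).ne'
  set c : Fin (a + 1) → ℝ := fun i => if i = ⟨k, by omega⟩ then 1 else rho a k (polL z a y).1 with hc
  have hW : ∀ i, W z a k (y, 0) i = (c i : ℂ) * (pol z a y).coeff i := by
    intro i
    have h1 : ((0 : I) : ℝ) = 0 := rfl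
    simp only [W, hc, h1, sub_zero, one_mul, zero_mul, Complex.ofReal_zero, ite_self, add_zero]
    by_cases h2 : (i : ℕ) = k
    · rw [if_pos h2, if_pos (Fin.ext h2), h2, coeff_lt z a y hk, Complex.ofReal_one, one_mul]
    · rw [if_neg h2, if_neg (fun h3 => h2 (by rw [h3]))]
  ext i j
  have h1 : sclM (polL z a) ⟨k, by omega⟩ y i j = (c i : ℂ) * (c j : ℂ) *
      line (pol z a y) i j / ∑ l : Fin (a + 1), (c l : ℂ) ^ 2 * line (pol z a y) l l := rfl
  have h2 : vl (W z a k (y, 0)) i j = W z a k (y, 0) i * (starRingEnd ℂ) (W z a k (y, 0) j) /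
      ∑ l, W z a k (y, 0) l * (starRingEnd ℂ) (W z a k (y, 0) l) := rfl
  have h3 : ∀ l : Fin (a + 1), (c l : ℂ) ^ 2 * line (pol z a y) l l =
      (W z a k (y, 0) l * (starRingEnd ℂ) (W z a k (y, 0) l)) / (nn (pol z a y) : ℂ) := by
    intro l
    rw [line_apply, hW, map_mul, Complex.conj_ofReal]
    ring
  have h4 := sum_ne (W_ne z hk (y, 0))
  rw [h1, h2, Finset.sum_congr rfl fun l _ => h3 l, ← Finset.sum_div, line_apply]
  have h5 : (c i : ℂ) * (c j : ℂ) * ((pol z a y).coeff i *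
      (starRingEnd ℂ) ((pol z a y).coeff j) / (nn (pol z a y) : ℂ)) =
      W z a k (y, 0) i * (starRingEnd ℂ) (W z a k (y, 0) j) / (nn (pol z a y) : ℂ) := by
    rw [hW, hW, map_mul, Complex.conj_ofReal]
    ring
  rw [h5, div_div_div_cancel_right₀ hN]

end Poly1_aux

open Poly1_aux

theorem rho_polL (z : ℕ → C(Y, Disc)) {k : ℕ} (hk : k < a) (y : Y) (h : ‖(z k y).1‖ = 1) :
    rho a k (polL z a y).1 = 0 := by
  have hN := Line_aux.nn_pos (pol_ne z a y)
  have hk1 : Complex.normSq ((pol z a y).coeff k) = 1 := by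
    rw [coeff_lt z a y hk, Complex.normSq_eq_norm_sq, h, one_pow]
  unfold rho
  apply max_eq_left
  rw [sub_nonpos, Finset.fold_max_le, polL_val, line_re, hk1]
  refine ⟨by positivity, fun j hj => ?_⟩
  split_ifs with h1
  · positivity
  · rw [line_re]
    refine div_le_div_of_nonneg_right ?_ hN.le
    have hj' := Finset.mem_range.1 hj
    rcases lt_or_eq_of_le (Nat.lt_succ_iff.1 hj') with h2 | h2
    · rw [coeff_lt z a y h2, Complex.normSq_eq_norm_sq]
      have h3 := (z j y).2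
      have h4 := norm_nonneg (z j y).1
      nlinarith
    · rw [h2, coeff_eq, Complex.normSq_ofReal]
      have h3 := mx_nonneg z a y
      have h4 := mx_le_one z a y
      nlinarith

theorem relT_eq_relD (z : ℕ → C(Y, Disc)) (k : ℕ) (hk : k < a)
    (hr : ∀ y ∈ Br, y ∈ B ∨ ‖(z k y).1‖ = 1)
    (hr' : ∀ y ∈ Br, y ∈ B ∨ rho a k (polL z a y).1 = 0) (x : K1 B S) :
    relT (polL z a) ⟨k, by omega⟩ hr' x = relD (z k) hr x := by
  let E : C(Y × I, Matrix (Fin (a + 1)) (Fin (a + 1)) ℂ) :=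
    ⟨fun p => vl (W z a k p), continuous_vl _ (continuous_W z a k) (W_ne z hk)⟩
  let E' : C(Y × I, Matrix (Fin (a + 1)) (Fin (a + 1)) ℂ) :=
    ContinuousMap.const _ (Ek ⟨k, by omega⟩)
  let d : C(Y, Matrix (Fin (a + 1)) (Fin (a + 1)) ℂ) := E.comp (atMap Y 1)
  have hE : ∀ p, E p * E p = E p := fun p => vl_idem (W_ne z hk p)
  have hE' : ∀ p, E' p * E' p = E' p := fun _ => Ek_idem _
  have hd : ∀ y, d y * d y = d y := fun y => hE (y, 1)
  have hbd : ∀ y, ‖(z k y).1‖ = 1 → ∀ t, E (y, t) = E' (y, t) := by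
    intro y hy t
    refine vl_single _ _ ?_ ?_
    · intro i hi
      have h1 : (i : ℕ) ≠ k := fun h2 => hi (Fin.ext h2)
      simp only [W]
      rw [if_neg h1, rho_polL z hk y hy, hy, sub_self]
      simp
    · intro h0
      have h1 : (z k y).1 = 0 := by simpa [W] using h0
      rw [h1, norm_zero] at hy
      exact zero_ne_one hy
  have hrd : ∀ y ∈ Br, y ∈ B ∨ d y = ContinuousMap.const Y (Ek (⟨k, by omega⟩ : Fin (a + 1))) y :=
    fun y hy => (hr y hy).imp_right fun h => hbd y h 1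
  have e1 : relT (polL z a) ⟨k, by omega⟩ hr' x =
      rel d (ContinuousMap.const Y (Ek (⟨k, by omega⟩ : Fin (a + 1)))) hd (fun _ => Ek_idem _) hrd x :=
    rel_homotopy E E' hE hE' (fun y hy => (hr y hy).imp_right fun h => hbd y h) _ _ _ _ _ _ _ _
      (fun y => W_zero z hk y) (fun _ => rfl) (fun _ => rfl) (fun _ => rfl) _ _ x
  rw [e1]
  exact rel_embed (Tm a k) (Tm a k).conjTranspose (Tm_isom hk) _ _ _ _ _ _ _ _
    (fun y => by
      change vl (W z a k (y, 1)) = _
      rw [W_one z hk, vl_isom _ (Tm_isom hk)]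
      rfl)
    (fun y => (Tm_Ek hk).symm) _ _ x

end Pool.QB.KTh
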