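import Pool.Agent.MP_c51823_gt.QB.KTh.Poly1

/-!
# [QBK-PB] Comparison of the chains of operators on `CP^a` and on the polydisc

`chain_compare`: induction on `k`, unfolding `chainT`, `chainD`: `rel_nat` (for `f = id`,
`B = DD B z k`, `Br = DD B z (k+1)`, `B' = FF B _ k`, `Br' = FF B _ (k+1)`), then `relT_eq_relD`;
`k = 0`: `kmap_comp`.
-/

set_option autoImplicit false
open Topology

namespace Pool.QB.KTh

variable {Y : Type} [TopologicalSpace Y] {B Br S : Set Y} {a : ℕ}

theorem DD_mapsTo (B : Set Y) (z : ℕ → C(Y, Disc)) {k : ℕ} (hk : k ≤ a) :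
    Set.MapsTo (ContinuousMap.id Y) (DD B z k) (FF B (polL z a) k) := by
  rintro y (h | ⟨i, hi, h⟩)
  · exact Or.inl h
  · exact Or.inr ⟨i, hi, rho_polL z (by omega) y h⟩

theorem chain_compare (z : ℕ → C(Y, Disc)) (k : ℕ) (hk : k ≤ a) (x : K1 B S) :
    kmap (ContinuousMap.id Y) (DD_mapsTo B z hk) (fun _ h => h) (chainT (polL z a) k x) =
      chainD z k x := by
  induction k with
  | zero =>
    exact (kmap_comp (ContinuousMap.id Y) (DD_mapsTo B z hk) (fun _ h => h)
      (ContinuousMap.id Y) _ (fun _ h => h) _ (fun _ h => h) x).symm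
  | succ k ih =>
    have hka : k < a + 1 := by omega
    have hr : ∀ y ∈ DD B z (k + 1), y ∈ DD B z k ∨ ‖(z k y).1‖ = 1 := by
      rintro y (h | ⟨i, hi, h2⟩)
      · exact Or.inl (Or.inl h)
      · rcases Nat.lt_succ_iff_lt_or_eq.1 hi with h3 | h3
        · exact Or.inl (Or.inr ⟨i, h3, h2⟩)
        · subst h3
          exact Or.inr h2
    have hr' : ∀ y ∈ DD B z (k + 1), y ∈ DD B z k ∨ rho a k (polL z a y).1 = 0 :=
      fun y hy => (hr y hy).imp_right fun h => rho_polL z (by omega) y h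
    have h1 : chainT (S := S) (B := B) (polL z a) (k + 1) = _ := dif_pos hka
    have h2 : chainD (S := S) (B := B) z (k + 1) x = relD (z k) hr (chainD z k x) := rfl
    rw [h1, h2, AddMonoidHom.comp_apply, ← ih (by omega),
      ← relT_eq_relD (B := DD B z k) (Br := DD B z (k + 1)) z k (by omega) hr hr']
    exact rel_nat (ContinuousMap.id Y) (DD_mapsTo B z (by omega)) (DD_mapsTo B z hk)
      (fun _ h => h) _ _ _ _ _ _ _ _ _ _ (fun _ => rfl) (fun _ => rfl) _

end Pool.QB.KTh
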