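import Pool.Agent.MP_c51823_gt.QB.KTh.PolyDef

/-!
# [QBK-P2] Naturality of the chains of operators

* `chainT_nat`, `chainD_nat`: induction on `k`, `rel_nat`, `kmap_comp`.
-/

set_option autoImplicit false
open Topology

namespace Pool.QB.KTh

variable {Y Y' : Type} [TopologicalSpace Y] [TopologicalSpace Y'] {B S : Set Y} {B' S' : Set Y'}

theorem FF_nat {a : ℕ} (f : C(Y, Y')) (hB : Set.MapsTo f B B') (g : C(Y', CP a)) (k : ℕ) :
    Set.MapsTo f (FF B (g.comp f) k) (FF B' g k) := by
  rintro y (h | ⟨i, hi, h⟩)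
  · exact Or.inl (hB h)
  · exact Or.inr ⟨i, hi, h⟩

namespace Poly2_aux

theorem zero_case {C : Set Y} {C' : Set Y'} (f : C(Y, Y')) (hB : Set.MapsTo f B B')
    (hC : Set.MapsTo f C C')
    (hS : Set.MapsTo f S S') (h1 : Set.MapsTo (ContinuousMap.id Y) C B)
    (h2 : Set.MapsTo (ContinuousMap.id Y') C' B') (x : K1 B' S') :
    kmap f hC hS (kmap (ContinuousMap.id Y') h2 (fun _ h => h) x) =
      kmap (ContinuousMap.id Y) h1 (fun _ h => h) (kmap f hB hS x) :=
  (kmap_comp f hC hS (ContinuousMap.id Y') h2 (fun _ h => h) (h2.comp hC) hS x).symm.trans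
    (kmap_comp (ContinuousMap.id Y) h1 (fun _ h => h) f hB hS (hB.comp h1) hS x)

end Poly2_aux

theorem chainT_nat {a : ℕ} (f : C(Y, Y')) (hB : Set.MapsTo f B B') (hS : Set.MapsTo f S S')
    (g : C(Y', CP a)) (k : ℕ) (x : K1 B' S') :
    kmap f (FF_nat f hB g k) hS (chainT g k x) = chainT (g.comp f) k (kmap f hB hS x) := by
  induction k with
  | zero => exact Poly2_aux.zero_case f hB _ hS _ _ x
  | succ k ih =>
    by_cases h : k < a + 1
    · have e1 : ∀ {Z : Type} [TopologicalSpace Z] {C T : Set Z} (g : C(Z, CP a)) (x : K1 C T),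
          chainT g (k + 1) x = relT (B := FF C g k) (Br := FF C g (k + 1)) (S := T) g ⟨k, h⟩
            (fun y hy => by
              rcases hy with h | ⟨i, hi, h2⟩
              · exact Or.inl (Or.inl h)
              · rcases Nat.lt_succ_iff_lt_or_eq.1 hi with h3 | h3
                · exact Or.inl (Or.inr ⟨i, h3, h2⟩)
                · subst h3
                  exact Or.inr h2) (chainT g k x) := by
        intro Z _ C T g x
        simp only [chainT, dif_pos h]
        rfl
      rw [e1, e1, ← ih]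
      exact rel_nat f (FF_nat f hB g k) (FF_nat f hB g (k + 1)) hS _ _ _ _ _ _ _ _ _ _
        (fun y => rfl) (fun y => rfl) _
    · have e1 : ∀ {Z : Type} [TopologicalSpace Z] {C T : Set Z} (g : C(Z, CP a)) (x : K1 C T),
          chainT g (k + 1) x = 0 := by
        intro Z _ C T g x
        simp only [chainT, dif_neg h]
        rfl
      rw [e1, e1, map_zero]

theorem DD_nat (f : C(Y, Y')) (hB : Set.MapsTo f B B') (z : ℕ → C(Y', Disc)) (z' : ℕ → C(Y, Disc))
    (k : ℕ) (hz : ∀ i < k, ∀ y, z' i y = z i (f y)) :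
    Set.MapsTo f (DD B z' k) (DD B' z k) := by
  rintro y (h | ⟨i, hi, h⟩)
  · exact Or.inl (hB h)
  · exact Or.inr ⟨i, hi, by rw [← hz i hi y]; exact h⟩

theorem chainD_nat (f : C(Y, Y')) (hB : Set.MapsTo f B B') (hS : Set.MapsTo f S S')
    (z : ℕ → C(Y', Disc)) (z' : ℕ → C(Y, Disc)) (k : ℕ) (hz : ∀ i < k, ∀ y, z' i y = z i (f y))
    (x : K1 B' S') :
    kmap f (DD_nat f hB z z' k hz) hS (chainD z k x) = chainD z' k (kmap f hB hS x) := by
  induction k with
  | zero => exact Poly2_aux.zero_case f hB _ hS _ _ x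
  | succ k ih =>
    have e1 : ∀ {Z : Type} [TopologicalSpace Z] {C T : Set Z} (z : ℕ → C(Z, Disc)) (x : K1 C T),
        chainD z (k + 1) x = relD (B := DD C z k) (Br := DD C z (k + 1)) (S := T) (z k)
          (fun y hy => by
            rcases hy with h | ⟨i, hi, h2⟩
            · exact Or.inl (Or.inl h)
            · rcases Nat.lt_succ_iff_lt_or_eq.1 hi with h3 | h3
              · exact Or.inl (Or.inr ⟨i, h3, h2⟩)
              · subst h3
                exact Or.inr h2) (chainD z k x) := by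
      intro Z _ C T z x
      rfl
    have hz' : ∀ i < k, ∀ y, z' i y = z i (f y) := fun i hi => hz i (Nat.lt_succ_of_lt hi)
    rw [e1, e1, ← ih hz']
    refine rel_nat f (DD_nat f hB z z' k hz') (DD_nat f hB z z' (k + 1) hz) hS _ _ _ _ _ _ _ _ _ _
      (fun y => ?_) (fun y => rfl) _
    change bet (z' k y) = bet (z k (f y))
    rw [hz k (Nat.lt_succ_self k)]

end Pool.QB.KTh
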