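import Pool.Agent.MP_c51823_gt.QB.KTh.Poly2
import Pool.Agent.MP_c51823_gt.QB.KTh.Disc3

/-!
# [QBK-PC] Iterated Bott periodicity on the polydisc

* `chainD_bijective`: induction on `n`. For `n + 1`: `Ds Y (n+1) = Ds Y n × Disc`, the first `n` coordinates
  are pulled back from `Ds Y n` (`chainD_nat` for `fstM`), the last one is `sndM`: the map is
  `bD ∘ (map for n)` up to the identity map of `Ds Y n × Disc` with the equal sets
  `discB (DD _ (zc Y n) n) = DD _ (zc Y (n+1)) (n+1)`: `bD_bijective`. `n = 0`: `kmap id`.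
-/

set_option autoImplicit false
open Topology

namespace Pool.QB.KTh

variable {Y : Type} [TopologicalSpace Y] {B S : Set Y}

namespace Poly2b_aux

theorem kmap_id_bij {W : Type} [TopologicalSpace W] {B B' S S' : Set W} (hB : B = B')
    (hS : S = S') (h1 : Set.MapsTo (ContinuousMap.id W) B B')
    (h2 : Set.MapsTo (ContinuousMap.id W) S S') :
    Function.Bijective (kmap (ContinuousMap.id W) h1 h2) := by
  subst hB
  subst hS
  have h : (kmap (ContinuousMap.id W) h1 h2 : K1 B S → K1 B S) = id := by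
    funext x
    exact kmap_id _ _ x
  rw [h]
  exact Function.bijective_id

theorem relD_bij_congr {W X : Type} [TopologicalSpace W] [TopologicalSpace X]
    {B B' Br Br' S S' : Set W} {z z' : C(W, Disc)} (hB : B' = B) (hBr : Br' = Br)
    (hS : S' = S) (hz : z' = z) (hr : ∀ y ∈ Br, y ∈ B ∨ ‖(z y).1‖ = 1)
    (hr' : ∀ y ∈ Br', y ∈ B' ∨ ‖(z' y).1‖ = 1) {B0 S0 : Set X} (f : C(W, X))
    (h1 : Set.MapsTo f B B0) (h2 : Set.MapsTo f S S0) (h1' : Set.MapsTo f B' B0)
    (h2' : Set.MapsTo f S' S0)
    (h : Function.Bijective fun v : K1 B0 S0 => relD (B := B) (Br := Br) (S := S) z hr (kmap f h1 h2 v)) :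
    Function.Bijective fun v : K1 B0 S0 =>
      relD (B := B') (Br := Br') (S := S') z' hr' (kmap f h1' h2' v) := by
  subst hB
  subst hBr
  subst hS
  subst hz
  exact h

theorem isClosed_DD {W : Type} [TopologicalSpace W] {B : Set W} (hB : IsClosed B)
    (z : ℕ → C(W, Disc)) (k : ℕ) : IsClosed (DD B z k) := by
  have h : DD B z k = B ∪ ⋃ i ∈ Finset.range k, {y | ‖(z i y).1‖ = 1} := by
    ext y
    simp only [DD, Set.mem_ofPred_eq, Set.mem_union, Set.mem_iUnion, Finset.mem_range, exists_prop]
  rw [h]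
  refine hB.union (isClosed_biUnion_finset fun i _ => ?_)
  exact isClosed_eq (continuous_subtype_val.comp (z i).continuous).norm continuous_const

end Poly2b_aux

open Poly2b_aux

theorem chainD_bijective [CompactSpace Y] [T2Space Y] (hB : IsClosed B) (hS : IsClosed S) (n : ℕ) :
    Function.Bijective fun x : K1 B S =>
      (chainD (B := base Y n ⁻¹' B) (S := base Y n ⁻¹' S) (zc Y n) n
        (kmap (base Y n) (fun _ h => h) (fun _ h => h) x)) := by
  induction n with
  | zero =>
    have hD : DD (base Y 0 ⁻¹' B) (zc Y 0) 0 = B := by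
      ext y
      constructor
      · rintro (h | ⟨i, hi, _⟩)
        · exact h
        · omega
      · exact fun h => Or.inl h
    have h1 := kmap_id_bij (W := Y) (S := S) (S' := S) hD rfl
      (fun y hy => by
        rcases hy with h | ⟨i, hi, _⟩
        · exact h
        · omega) (fun _ h => h)
    have h2 := kmap_id_bij (W := Y) (B := B) (B' := B) (S := S) (S' := S) rfl rfl
      (fun _ h => h) (fun _ h => h)
    exact h1.comp h2
  | succ n ih =>
    have hB1 : IsClosed (base Y n ⁻¹' B) := hB.preimage (base Y n).continuous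
    have hS1 : IsClosed (base Y n ⁻¹' S) := hS.preimage (base Y n).continuous
    have hbD := bD_bijective (Y := Ds Y n) (isClosed_DD hB1 (zc Y n) n) hS1
    have hz : ∀ i < n, ∀ y : Ds Y (n + 1), zc Y (n + 1) i y = zc Y n i (fstM (Ds Y n) Disc y) := by
      intro i hi y
      have h : zc Y (n + 1) i = (zc Y n i).comp (fstM (Ds Y n) Disc) := by
        show (if i = n then sndM (Ds Y n) Disc else (zc Y n i).comp (fstM (Ds Y n) Disc)) = _
        rw [if_neg (by omega)]
      rw [h]
      rfl
    have hzn : zc Y (n + 1) n = sndM (Ds Y n) Disc := by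
      show (if n = n then sndM (Ds Y n) Disc else (zc Y n n).comp (fstM (Ds Y n) Disc)) = _
      rw [if_pos rfl]
    have hDB : DD (base Y (n + 1) ⁻¹' B) (zc Y (n + 1)) n =
        prZ (DD (base Y n ⁻¹' B) (zc Y n) n) Disc := by
      ext y
      constructor
      · rintro (h | ⟨i, hi, h⟩)
        · exact Or.inl h
        · refine Or.inr ⟨i, hi, ?_⟩
          rw [hz i hi y] at h
          exact h
      · rintro (h | ⟨i, hi, h⟩)
        · exact Or.inl h
        · refine Or.inr ⟨i, hi, ?_⟩
          rw [hz i hi y]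
          exact h
    have hDr : DD (base Y (n + 1) ⁻¹' B) (zc Y (n + 1)) (n + 1) =
        discB (DD (base Y n ⁻¹' B) (zc Y n) n) := by
      ext y
      constructor
      · rintro (h | ⟨i, hi, h⟩)
        · exact Or.inl (Or.inl h)
        · rcases Nat.lt_succ_iff_lt_or_eq.1 hi with h3 | h3
          · refine Or.inl (Or.inr ⟨i, h3, ?_⟩)
            rw [hz i h3 y] at h
            exact h
          · subst h3
            rw [hzn] at h
            exact Or.inr h
      · rintro ((h | ⟨i, hi, h⟩) | h)
        · exact Or.inl h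
        · refine Or.inr ⟨i, by omega, ?_⟩
          rw [hz i hi y]
          exact h
        · refine Or.inr ⟨n, by omega, ?_⟩
          rw [hzn]
          exact h
    have hmap : Set.MapsTo (fstM (Ds Y n) Disc) (DD (base Y (n + 1) ⁻¹' B) (zc Y (n + 1)) n)
        (DD (base Y n ⁻¹' B) (zc Y n) n) :=
      DD_nat (Y := Ds Y (n + 1)) (Y' := Ds Y n) (B := base Y (n + 1) ⁻¹' B)
        (B' := base Y n ⁻¹' B) (fstM (Ds Y n) Disc) (fun _ h => h) (zc Y n) (zc Y (n + 1)) n hz
    have key := relD_bij_congr (W := Ds Y (n + 1)) (X := Ds Y n) hDB hDr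
      (rfl : base Y (n + 1) ⁻¹' S = prZ (base Y n ⁻¹' S) Disc) hzn
      (fun _ h => h) (fun y hy => by
      rcases hy with h | ⟨i, hi, h2⟩
      · exact Or.inl (Or.inl h)
      · rcases Nat.lt_succ_iff_lt_or_eq.1 hi with h3 | h3
        · exact Or.inl (Or.inr ⟨i, h3, h2⟩)
        · subst h3
          exact Or.inr h2) (fstM (Ds Y n) Disc) (fun _ h => h) (fun _ h => h)
      hmap (fun _ h => h) hbD
    have hcomp := key.comp ih
    convert hcomp using 1
    funext x
    have e1 : kmap (base Y (n + 1)) (fun _ h => h) (fun _ h => h) x =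
        kmap (B := base Y (n + 1) ⁻¹' B) (S := base Y (n + 1) ⁻¹' S) (fstM (Ds Y n) Disc)
          (fun _ h => h) (fun _ h => h)
          (kmap (B := base Y n ⁻¹' B) (S := base Y n ⁻¹' S) (base Y n) (fun _ h => h)
            (fun _ h => h) x) :=
      kmap_comp _ _ _ _ _ _ _ _ x
    have e2 := chainD_nat (Y := Ds Y (n + 1)) (Y' := Ds Y n) (B := base Y (n + 1) ⁻¹' B)
      (S := base Y (n + 1) ⁻¹' S) (B' := base Y n ⁻¹' B) (S' := base Y n ⁻¹' S)
      (fstM (Ds Y n) Disc) (fun _ h => h) (fun _ h => h)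
      (zc Y n) (zc Y (n + 1)) n hz (kmap (base Y n) (fun _ h => h) (fun _ h => h) x)
    show relD _ _ (chainD _ n _) = relD _ _ _
    rw [e1]
    congr 1
    exact e2.symm

end Pool.QB.KTh
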