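import Pool.Agent.MP_c51823_gt.QB.KTh.PolyRH
import Pool.Agent.MP_c51823_gt.QB.KTh.Poly1b
import Pool.Agent.MP_c51823_gt.QB.KTh.Poly2b
import Pool.Agent.MP_c51823_gt.QB.KTh.Excis
import Pool.Agent.MP_c51823_gt.QB.KTh.Nil

/-!
# [QBK-P3] `K1(Y) ≃ K1(Y × (CP^{n+1}, CP^n))`

`cpB_FF`: if `p.2 ∈ CP n` then `z_{n+1} = 0`, so some `|z_i|`, `i ≤ n`, is maximal.
`theta B S n = forget ∘ chainT (n+1) ∘ pr^*`. `theta_bijective`: `kmap (Psi Y (n+1))` is bijective on
`K1 (cpB B n)` (`psi_rh`, `kmap_bijective`), and by `chainT_nat` (for `f = Psi`, `(sndM).comp Psi = polL`),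
`kmap_comp` and `chain_compare` the composite `kmap Psi ∘ theta` is the map of `chainD_bijective`.
`theta_forget`: `chainT_forget`, `kmap_comp`.
-/

set_option autoImplicit false
open Topology

namespace Pool.QB.KTh

variable {Y : Type} [TopologicalSpace Y]

namespace Poly3_aux

theorem line_zero {n : ℕ} (e : CP n) {j : ℕ} (hj : n < j) : e.1 j j = 0 := by
  obtain ⟨q, _, hd, he⟩ := e.2
  rw [he]
  have h0 : q.coeff j = 0 := Polynomial.coeff_eq_zero_of_natDegree_lt (by omega)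
  simp [line, h0]

theorem rho_succ {n : ℕ} (e : CP n) (k : ℕ) : rho (n + 1) k e.1 = rho n k e.1 := by
  unfold rho
  congr 2
  rw [Finset.range_add_one (n := n + 1), Finset.fold_insert Finset.notMem_range_self]
  have h1 : (if n + 1 = k then (0 : ℝ) else (e.1 (n + 1) (n + 1)).re) = 0 := by
    rw [line_zero e (Nat.lt_succ_self n)]
    simp
  rw [h1]
  exact max_eq_right ((Finset.le_fold_max _).2 (Or.inl le_rfl))

end Poly3_aux

open Poly3_aux

theorem cpB_FF (B : Set Y) (n : ℕ) : Set.MapsTo (ContinuousMap.id (Y × CP (n + 1))) (cpB B n)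
    (FF (prZ B (CP (n + 1))) (sndM Y (CP (n + 1))) (n + 1)) := by
  rintro p (h | h)
  · exact Or.inl h
  · obtain ⟨k, hk, hr⟩ := exists_rho_eq_zero (⟨p.2.1, h⟩ : CP n)
    refine Or.inr ⟨k, by omega, ?_⟩
    rw [← rho_succ] at hr
    exact hr

/-- `K1(Y) → K1(Y × (CP^{n+1}, CP^n))` -/
noncomputable def theta (B S : Set Y) (n : ℕ) : K1 B S →+ K1 (cpB B n) (prZ S (CP (n + 1))) :=
  (kmap (ContinuousMap.id _) (cpB_FF B n) (fun _ h => h)).comp
    ((chainT (B := prZ B (CP (n + 1))) (S := prZ S (CP (n + 1))) (sndM Y (CP (n + 1))) (n + 1)).comp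
      (kmap (fstM Y (CP (n + 1))) (fun _ h => h) (fun _ h => h)))

namespace Poly3_aux

theorem psi_theta (B S : Set Y) (n : ℕ)
    (mB : Set.MapsTo (Psi Y (n + 1)) (DD (base Y (n + 1) ⁻¹' B) (zc Y (n + 1)) (n + 1)) (cpB B n))
    (mS : Set.MapsTo (Psi Y (n + 1)) (base Y (n + 1) ⁻¹' S) (prZ S (CP (n + 1)))) (x : K1 B S) :
    kmap (Psi Y (n + 1)) mB mS (theta B S n x) =
      (chainD (B := base Y (n + 1) ⁻¹' B) (S := base Y (n + 1) ⁻¹' S) (zc Y (n + 1)) (n + 1)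
        (kmap (base Y (n + 1)) (fun _ h => h) (fun _ h => h) x)) := by
  have hB0 : Set.MapsTo (Psi Y (n + 1)) (base Y (n + 1) ⁻¹' B) (prZ B (CP (n + 1))) :=
    fun _ h => h
  set v : K1 (prZ B (CP (n + 1))) (prZ S (CP (n + 1))) :=
    kmap (fstM Y (CP (n + 1))) (fun _ h => h) (fun _ h => h) x with hv
  have e1 : theta B S n x = kmap (ContinuousMap.id _) (cpB_FF B n) (fun _ h => h)
      (chainT (sndM Y (CP (n + 1))) (n + 1) v) := rfl
  have m1 : Set.MapsTo (Psi Y (n + 1)) (DD (base Y (n + 1) ⁻¹' B) (zc Y (n + 1)) (n + 1))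
      (FF (prZ B (CP (n + 1))) (sndM Y (CP (n + 1))) (n + 1)) := (cpB_FF B n).comp mB
  have e2 := kmap_comp (Psi Y (n + 1)) mB mS (ContinuousMap.id _) (cpB_FF B n) (fun _ h => h)
    m1 mS (chainT (sndM Y (CP (n + 1))) (n + 1) v)
  have e3 := kmap_comp (ContinuousMap.id _)
    (DD_mapsTo (base Y (n + 1) ⁻¹' B) (zc Y (n + 1)) (le_refl (n + 1))) (fun _ h => h)
    (Psi Y (n + 1)) (FF_nat (Psi Y (n + 1)) hB0 (sndM Y (CP (n + 1))) (n + 1)) mS m1 mS
    (chainT (sndM Y (CP (n + 1))) (n + 1) v)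
  have e4 := chainT_nat (Psi Y (n + 1)) hB0 mS (sndM Y (CP (n + 1))) (n + 1) v
  have e5 := kmap_comp (Psi Y (n + 1)) hB0 mS (fstM Y (CP (n + 1))) (fun _ h => h) (fun _ h => h)
    (fun _ h => h) (fun _ h => h) x
  have e6 := chain_compare (a := n + 1) (B := base Y (n + 1) ⁻¹' B) (S := base Y (n + 1) ⁻¹' S)
    (zc Y (n + 1)) (n + 1) le_rfl (kmap (base Y (n + 1)) (fun _ h => h) (fun _ h => h) x)
  rw [e1]
  have e7 : kmap (Psi Y (n + 1)) (FF_nat (Psi Y (n + 1)) hB0 (sndM Y (CP (n + 1))) (n + 1)) mS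
      (chainT (sndM Y (CP (n + 1))) (n + 1) v) =
      chainT (B := base Y (n + 1) ⁻¹' B) (S := base Y (n + 1) ⁻¹' S)
        (polL (zc Y (n + 1)) (n + 1)) (n + 1)
        (kmap (base Y (n + 1)) (fun _ h => h) (fun _ h => h) x) :=
    e4.trans (congrArg (chainT ((sndM Y (CP (n + 1))).comp (Psi Y (n + 1))) (n + 1)) e5.symm)
  exact e2.symm.trans (e3.trans ((congrArg _ e7).trans e6))

end Poly3_aux

open Poly3_aux

theorem theta_bijective [CompactSpace Y] [T2Space Y] {B S : Set Y} (hB : IsClosed B)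
    (hS : IsClosed S) (n : ℕ) : Function.Bijective (theta B S n) := by
  have h := psi_rh (S := S) hB n
  have h1 := kmap_bijective h
  have h2 := chainD_bijective hB hS (n + 1)
  have h3 : Function.Bijective (kmap (Psi Y (n + 1)) h.mB h.mS ∘ theta B S n) := by
    have h4 : (kmap (Psi Y (n + 1)) h.mB h.mS ∘ theta B S n) = fun x : K1 B S =>
      (chainD (B := base Y (n + 1) ⁻¹' B) (S := base Y (n + 1) ⁻¹' S) (zc Y (n + 1)) (n + 1)
        (kmap (base Y (n + 1)) (fun _ h => h) (fun _ h => h) x)) :=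
      funext fun x => psi_theta B S n h.mB h.mS x
    rw [h4]
    exact h2
  exact (Function.Bijective.of_comp_iff' h1 _).1 h3

theorem theta_forget (B S : Set Y) (n : ℕ) (x : K1 B S) :
    kmap (ContinuousMap.id _) (cpB_mapsTo B n) (fun _ h => h) (theta B S n x) =
      ((fun y => actL (sndM Y (CP (n + 1))) y - y)^[n + 1])
        (kmap (fstM Y (CP (n + 1))) (fun _ h => h) (fun _ h => h) x :
          K1 (prZ B (CP (n + 1))) (prZ S (CP (n + 1)))) := by
  have e1 := kmap_comp (ContinuousMap.id _) (cpB_mapsTo B n)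
    (fun _ h => h : Set.MapsTo (ContinuousMap.id (Y × CP (n + 1))) (prZ S (CP (n + 1)))
      (prZ S (CP (n + 1))))
    (ContinuousMap.id _) (cpB_FF B n) (fun _ h => h) (FF_mapsTo (sndM Y (CP (n + 1))) (n + 1))
    (fun _ h => h)
    (chainT (sndM Y (CP (n + 1))) (n + 1)
      (kmap (fstM Y (CP (n + 1))) (fun _ h => h) (fun _ h => h) x :
        K1 (prZ B (CP (n + 1))) (prZ S (CP (n + 1)))))
  refine e1.symm.trans ?_
  exact chainT_forget (sndM Y (CP (n + 1))) (n + 1) (by omega) _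

end Pool.QB.KTh
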