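import Pool.Agent.MP_c51823_gt.QB.KTh.NilDef

/-!
# [QBK] Polydiscs (definitions)
-/

set_option autoImplicit false
open Topology

namespace Pool.QB.KTh

noncomputable section

/-- `Y × D^n` -/
def Ds (Y : Type) : ℕ → Type
  | 0 => Y
  | n + 1 => Ds Y n × Disc

instance instTopDs (Y : Type) [TopologicalSpace Y] : (n : ℕ) → TopologicalSpace (Ds Y n)
  | 0 => inferInstanceAs (TopologicalSpace Y)
  | n + 1 =>
    letI := instTopDs Y n
    inferInstanceAs (TopologicalSpace (Ds Y n × Disc))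

instance instCompDs (Y : Type) [TopologicalSpace Y] [CompactSpace Y] : (n : ℕ) → CompactSpace (Ds Y n)
  | 0 => inferInstanceAs (CompactSpace Y)
  | n + 1 =>
    haveI := instCompDs Y n
    inferInstanceAs (CompactSpace (Ds Y n × Disc))

instance instT2Ds (Y : Type) [TopologicalSpace Y] [T2Space Y] : (n : ℕ) → T2Space (Ds Y n)
  | 0 => inferInstanceAs (T2Space Y)
  | n + 1 =>
    haveI := instT2Ds Y n
    inferInstanceAs (T2Space (Ds Y n × Disc))

/-- the projection `Y × D^n → Y` -/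
def base (Y : Type) [TopologicalSpace Y] : (n : ℕ) → C(Ds Y n, Y)
  | 0 => ContinuousMap.id Y
  | n + 1 => (base Y n).comp (fstM (Ds Y n) Disc)

/-- the zero of the disc -/
def dz : Disc := ⟨0, by simp⟩

/-- the `i`-th coordinate `Y × D^n → D` (zero for `i ≥ n`) -/
def zc (Y : Type) [TopologicalSpace Y] : (n : ℕ) → ℕ → C(Ds Y n, Disc)
  | 0 => fun _ => ContinuousMap.const _ dz
  | n + 1 => fun i => if i = n then sndM (Ds Y n) Disc else (zc Y n i).comp (fstM (Ds Y n) Disc)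

variable {Y : Type} [TopologicalSpace Y]

/-- `max_{i < a} |z_i|` -/
def mx (z : ℕ → C(Y, Disc)) (a : ℕ) (y : Y) : ℝ := (Finset.range a).fold max 0 fun i => ‖(z i y).1‖

/-- The polynomial with coefficients `z_0, …, z_{a-1}, 1 - max |z_i|`. -/
def pol (z : ℕ → C(Y, Disc)) (a : ℕ) (y : Y) : Polynomial ℂ :=
  ∑ i ∈ Finset.range a, Polynomial.C (z i y).1 * Polynomial.X ^ i +
    Polynomial.C ((1 - mx z a y : ℝ) : ℂ) * Polynomial.X ^ a

/-- `B ∪ ⋃_{i < k} {|z_i| = 1}` -/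
def DD (B : Set Y) (z : ℕ → C(Y, Disc)) (k : ℕ) : Set Y := {y | y ∈ B ∨ ∃ i < k, ‖(z i y).1‖ = 1}

/-- Iterated relative operators for the coordinates `z_0, …, z_{k-1}`. -/
def chainD {B S : Set Y} (z : ℕ → C(Y, Disc)) : (k : ℕ) → K1 B S →+ K1 (DD B z k) S
  | 0 => kmap (ContinuousMap.id Y) (fun y hy => by
      rcases hy with h | ⟨i, hi, _⟩
      · exact h
      · omega) (fun _ h => h)
  | k + 1 => (relD (B := DD B z k) (Br := DD B z (k + 1)) (S := S) (z k) (fun y hy => by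
      rcases hy with h | ⟨i, hi, h2⟩
      · exact Or.inl (Or.inl h)
      · rcases Nat.lt_succ_iff_lt_or_eq.1 hi with h3 | h3
        · exact Or.inl (Or.inr ⟨i, h3, h2⟩)
        · subst h3
          exact Or.inr h2)).comp (chainD z k)

/-- `B × CP^{n+1} ∪ Y × CP^n` -/
def cpB (B : Set Y) (n : ℕ) : Set (Y × CP (n + 1)) := {p | p.1 ∈ B ∨ p.2.1 ∈ CP n}

theorem cpB_mapsTo (B : Set Y) (n : ℕ) :
    Set.MapsTo (ContinuousMap.id (Y × CP (n + 1))) (prZ B (CP (n + 1))) (cpB B n) :=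
  fun _ h => Or.inl h

/-- the inclusion `Y × CP^n → Y × CP^{n+1}` -/
def cpI (Y : Type) [TopologicalSpace Y] (n : ℕ) : C(Y × CP n, Y × CP (n + 1)) :=
  ⟨fun p => (p.1, ⟨p.2.1, CP_mono (Nat.le_succ n) p.2.2⟩), by
    exact continuous_fst.prodMk ((continuous_subtype_val.comp continuous_snd).subtype_mk _)⟩

end

end Pool.QB.KTh
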