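import Pool.Agent.MP_c51823_gt.QB.KTh.Poly0

/-!
# [QBK-PR] The relative homeomorphism `(D^a, ∂D^a) → (CP^a, CP^{a-1})`, `a = n + 1`

`p ↦ (base p, line (pol (zc) a p))`, i.e. `ζ ↦ [ζ_0 : … : ζ_{a-1} : 1 - max |ζ_i|]`.
* `line p = line q` iff proportional (`line_eq_iff` in `QB/K0a.lean`).
* `1 - max = 0` iff some `|ζ_i| = 1` iff the line lies in `CP n` (coefficient of `X^{n+1}` zero).
* injective: `ζ = c ζ'`, `1 - m = c (1 - m')`, `c > 0`, so `m = c m'`, `c = 1`. (Points of `Ds Y n` are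
  determined by `base` and the `zc i`, `i < n`: induction on `n`.)
* surjective: for a line with coordinates `z_i`, `z_a ≠ 0`, take `w_i = z_i / z_a`,
  `ζ = w / (1 + |w|_∞)`. (Points with prescribed `base` and coordinates exist: induction on `n`.)
-/

set_option autoImplicit false
open Topology

namespace Pool.QB.KTh

namespace PolyRH_aux

variable {Y : Type} [TopologicalSpace Y]

theorem zc_last (n : ℕ) (p : Ds Y (n + 1)) : zc Y (n + 1) n p = p.2 := by
  change (if n = n then sndM (Ds Y n) Disc else (zc Y n n).comp (fstM (Ds Y n) Disc)) p = p.2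
  rw [if_pos rfl]
  rfl

theorem zc_lt {n i : ℕ} (h : i < n) (p : Ds Y (n + 1)) : zc Y (n + 1) i p = zc Y n i p.1 := by
  change (if i = n then sndM (Ds Y n) Disc else (zc Y n i).comp (fstM (Ds Y n) Disc)) p = _
  rw [if_neg (by omega)]
  rfl

theorem ds_ext (n : ℕ) (p q : Ds Y n) (hb : base Y n p = base Y n q)
    (hz : ∀ i < n, zc Y n i p = zc Y n i q) : p = q := by
  induction n with
  | zero => exact hb
  | succ n ih =>
    have h2 : p.2 = q.2 := by
      rw [← zc_last, ← zc_last]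
      exact hz n (Nat.lt_succ_self n)
    have h1 : p.1 = q.1 := by
      refine ih p.1 q.1 hb fun i hi => ?_
      rw [← zc_lt hi, ← zc_lt hi]
      exact hz i (by omega)
    exact Prod.ext h1 h2

theorem ds_exists (n : ℕ) (y : Y) (ζ : ℕ → Disc) :
    ∃ p : Ds Y n, base Y n p = y ∧ ∀ i < n, zc Y n i p = ζ i := by
  induction n with
  | zero => exact ⟨y, rfl, fun i hi => absurd hi (by omega)⟩
  | succ n ih =>
    obtain ⟨p, hp1, hp2⟩ := ih
    refine ⟨(p, ζ n), hp1, fun i hi => ?_⟩
    rcases Nat.lt_succ_iff_lt_or_eq.1 hi with h | h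
    · exact (zc_lt h (p, ζ n)).trans (hp2 i h)
    · subst h
      exact zc_last _ (p, ζ i)

section pol

variable (z : ℕ → C(Y, Disc)) (a : ℕ) (y : Y)

theorem pol_coeff_lt {i : ℕ} (hi : i < a) : (pol z a y).coeff i = (z i y).1 := by
  unfold pol
  rw [Polynomial.coeff_add, Polynomial.finsetSum_coeff, Polynomial.coeff_C_mul_X_pow,
    if_neg (by omega), add_zero, Finset.sum_eq_single i]
  · rw [Polynomial.coeff_C_mul_X_pow, if_pos rfl]
  · intro j _ hj
    rw [Polynomial.coeff_C_mul_X_pow, if_neg (Ne.symm hj)]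
  · intro h
    exact absurd (Finset.mem_range.2 hi) h

theorem pol_coeff_eq : (pol z a y).coeff a = ((1 - mx z a y : ℝ) : ℂ) := by
  unfold pol
  rw [Polynomial.coeff_add, Polynomial.finsetSum_coeff, Polynomial.coeff_C_mul_X_pow,
    if_pos rfl, Finset.sum_eq_zero, zero_add]
  intro j hj
  rw [Polynomial.coeff_C_mul_X_pow, if_neg]
  have := Finset.mem_range.1 hj
  omega

theorem mx_nonneg : 0 ≤ mx z a y := by
  unfold mx
  exact (Finset.le_fold_max _).2 (Or.inl le_rfl)

theorem le_mx {i : ℕ} (hi : i < a) : ‖(z i y).1‖ ≤ mx z a y := by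
  unfold mx
  exact (Finset.le_fold_max _).2 (Or.inr ⟨i, Finset.mem_range.2 hi, le_rfl⟩)

theorem mx_le {c : ℝ} (hc : 0 ≤ c) (h : ∀ i < a, ‖(z i y).1‖ ≤ c) : mx z a y ≤ c := by
  unfold mx
  exact (Finset.fold_max_le _).2 ⟨hc, fun i hi => h i (Finset.mem_range.1 hi)⟩

theorem mx_le_one : mx z a y ≤ 1 := mx_le z a y zero_le_one fun i _ => (z i y).2

theorem exists_eq_one (h : mx z a y = 1) : ∃ i < a, ‖(z i y).1‖ = 1 := by
  have h1 : (1 : ℝ) ≤ mx z a y := h.ge
  unfold mx at h1
  rcases (Finset.le_fold_max _).1 h1 with h2 | ⟨i, hi, h2⟩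
  · exact absurd h2 (by norm_num)
  · exact ⟨i, Finset.mem_range.1 hi, le_antisymm (z i y).2 h2⟩

theorem mx_eq_one {i : ℕ} (hi : i < a) (h : ‖(z i y).1‖ = 1) : mx z a y = 1 :=
  le_antisymm (mx_le_one z a y) (h ▸ le_mx z a y hi)

end pol

theorem line_mem_CP {n : ℕ} {p : Polynomial ℂ} (hp : p ≠ 0) (hd : p.natDegree ≤ n + 1) :
    line p ∈ CP n ↔ p.coeff (n + 1) = 0 := by
  constructor
  · rintro ⟨q, hq, hqd, h⟩
    obtain ⟨c, hc, h2⟩ := (line_eq_iff hp hq).1 h
    have h3 : q.coeff (n + 1) = 0 := Polynomial.coeff_eq_zero_of_natDegree_lt (by omega)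
    rw [h2, Polynomial.coeff_C_mul] at h3
    exact (mul_eq_zero.1 h3).resolve_left hc
  · intro h
    refine line_mem hp ?_
    rw [Polynomial.natDegree_le_iff_coeff_eq_zero]
    intro i hi
    rcases Nat.lt_or_ge (n + 1) i with h2 | h2
    · exact Polynomial.coeff_eq_zero_of_natDegree_lt (by omega)
    · have h3 : i = n + 1 := by omega
      rw [h3, h]

theorem psi_fst (a : ℕ) (p : Ds Y a) : (Psi Y a p).1 = base Y a p := rfl

theorem psi_snd (a : ℕ) (p : Ds Y a) : (Psi Y a p).2.1 = line (pol (zc Y a) a p) := rfl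

theorem psi_mem {B : Set Y} (n : ℕ) (p : Ds Y (n + 1)) :
    Psi Y (n + 1) p ∈ cpB B n ↔
      p ∈ DD (base Y (n + 1) ⁻¹' B) (zc Y (n + 1)) (n + 1) := by
  have h1 : Psi Y (n + 1) p ∈ cpB B n ↔ base Y (n + 1) p ∈ B ∨
      line (pol (zc Y (n + 1)) (n + 1) p) ∈ CP n := Iff.rfl
  rw [h1, line_mem_CP (pol_ne _ _ _) (pol_natDegree _ _ _), pol_coeff_eq,
    Complex.ofReal_eq_zero]
  constructor
  · rintro (h | h)
    · exact Or.inl h
    · exact Or.inr (exists_eq_one _ _ _ (by linarith))
  · rintro (h | ⟨i, hi, h⟩)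
    · exact Or.inl h
    · refine Or.inr ?_
      rw [mx_eq_one _ _ _ hi h]
      ring

end PolyRH_aux

open PolyRH_aux

variable {Y : Type} [TopologicalSpace Y]

theorem psi_rh [CompactSpace Y] [T2Space Y] {B S : Set Y} (hB : IsClosed B) (n : ℕ) :
    RH (DD (base Y (n + 1) ⁻¹' B) (zc Y (n + 1)) (n + 1)) (base Y (n + 1) ⁻¹' S) (cpB B n)
      (prZ S (CP (n + 1))) (Psi Y (n + 1)) where
  closedB := by
    have h1 : IsClosed (CP n) := (isCompact_CP n).isClosed
    exact (hB.preimage continuous_fst).union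
      (h1.preimage (continuous_subtype_val.comp continuous_snd))
  mB := fun p hp => (psi_mem n p).2 hp
  mS := fun p hp => hp
  refl := fun p hp => (psi_mem n p).1 hp
  bij := by
    refine ⟨fun p hp h => hp ((psi_mem n p).1 h), ?_, ?_⟩
    · -- injectivity
      intro p hp q hq hpq
      have hb : base Y (n + 1) p = base Y (n + 1) q := congrArg Prod.fst hpq
      have hl : line (pol (zc Y (n + 1)) (n + 1) p) = line (pol (zc Y (n + 1)) (n + 1) q) :=
        congrArg (fun x => x.2.1) hpq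
      obtain ⟨c, hc, h2⟩ := (line_eq_iff (pol_ne _ _ _) (pol_ne _ _ _)).1 hl
      set m := mx (zc Y (n + 1)) (n + 1) p with hm
      set m' := mx (zc Y (n + 1)) (n + 1) q with hm'
      have hm1 : m < 1 := by
        refine lt_of_le_of_ne (mx_le_one _ _ _) fun h => hp ?_
        exact Or.inr (exists_eq_one _ _ _ h)
      have hm1' : m' < 1 := by
        refine lt_of_le_of_ne (mx_le_one _ _ _) fun h => hq ?_
        exact Or.inr (exists_eq_one _ _ _ h)
      have hlast : ((1 - m' : ℝ) : ℂ) = c * ((1 - m : ℝ) : ℂ) := by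
        have h3 := congrArg (fun P : Polynomial ℂ => P.coeff (n + 1)) h2
        simp only [Polynomial.coeff_C_mul, pol_coeff_eq] at h3
        exact h3
      have hco : ∀ i < n + 1, (zc Y (n + 1) i q).1 = c * (zc Y (n + 1) i p).1 := by
        intro i hi
        have h3 := congrArg (fun P : Polynomial ℂ => P.coeff i) h2
        simp only [Polynomial.coeff_C_mul, pol_coeff_lt _ _ _ hi] at h3
        exact h3
      -- `c` is real and positive
      obtain ⟨r, hr, hcr⟩ : ∃ r : ℝ, 0 < r ∧ c = (r : ℂ) := by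
        refine ⟨(1 - m') / (1 - m), div_pos (by linarith) (by linarith), ?_⟩
        have h4 : ((1 - m : ℝ) : ℂ) ≠ 0 := Complex.ofReal_ne_zero.2 (by linarith)
        rw [Complex.ofReal_div, hlast, mul_div_assoc, div_self h4, mul_one]
      have hlast' : 1 - m' = r * (1 - m) := by
        rw [hcr] at hlast
        exact_mod_cast hlast
      have hno : ∀ i < n + 1, ‖(zc Y (n + 1) i q).1‖ = r * ‖(zc Y (n + 1) i p).1‖ := by
        intro i hi
        rw [hco i hi, hcr, norm_mul, Complex.norm_real, Real.norm_eq_abs, abs_of_pos hr]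
      have hle1 : m' ≤ r * m := by
        refine mx_le _ _ _ (mul_nonneg hr.le (mx_nonneg _ _ _)) fun i hi => ?_
        rw [hno i hi]
        exact mul_le_mul_of_nonneg_left (le_mx _ _ _ hi) hr.le
      have hle2 : m ≤ m' / r := by
        refine mx_le _ _ _ (div_nonneg (mx_nonneg _ _ _) hr.le) fun i hi => ?_
        rw [le_div_iff₀ hr, mul_comm, ← hno i hi]
        exact le_mx _ _ _ hi
      have hle3 : r * m ≤ m' := by
        rw [le_div_iff₀ hr] at hle2
        linarith
      have hr1 : r = 1 := by nlinarith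
      refine ds_ext (n + 1) p q hb fun i hi => Subtype.ext ?_
      rw [hco i hi, hcr, hr1, Complex.ofReal_one, one_mul]
    · -- surjectivity
      rintro ⟨y, e, he⟩ hye
      obtain ⟨P, hP, hPd, rfl⟩ := he
      have hyB : y ∉ B := fun h => hye (Or.inl h)
      have hPc : P.coeff (n + 1) ≠ 0 := by
        intro h
        exact hye (Or.inr ((line_mem_CP hP hPd).2 h))
      set M : ℝ := (Finset.range (n + 1)).fold max 0 fun i => ‖P.coeff i / P.coeff (n + 1)‖ with hM
      have hM0 : 0 ≤ M := (Finset.le_fold_max _).2 (Or.inl le_rfl)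
      have hMi : ∀ i < n + 1, ‖P.coeff i / P.coeff (n + 1)‖ ≤ M := fun i hi =>
        (Finset.le_fold_max _).2 (Or.inr ⟨i, Finset.mem_range.2 hi, le_rfl⟩)
      have hMle : ∀ c : ℝ, 0 ≤ c → (∀ i < n + 1, ‖P.coeff i / P.coeff (n + 1)‖ ≤ c) → M ≤ c :=
        fun c hc h => (Finset.fold_max_le _).2 ⟨hc, fun i hi => h i (Finset.mem_range.1 hi)⟩
      have hn : ∀ i < n + 1, ‖P.coeff i / P.coeff (n + 1) / ((1 + M : ℝ) : ℂ)‖ =
          ‖P.coeff i / P.coeff (n + 1)‖ / (1 + M) := by
        intro i _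
        rw [norm_div, Complex.norm_real, Real.norm_eq_abs, abs_of_pos (by linarith : 0 < 1 + M)]
      have hnl : ∀ i < n + 1, ‖P.coeff i / P.coeff (n + 1) / ((1 + M : ℝ) : ℂ)‖ < 1 := by
        intro i hi
        rw [hn i hi, div_lt_one (by linarith)]
        linarith [hMi i hi]
      let ζ : ℕ → Disc := fun i =>
        if h : i < n + 1 then ⟨P.coeff i / P.coeff (n + 1) / ((1 + M : ℝ) : ℂ), (hnl i h).le⟩ else dz
      have hζ : ∀ i (_ : i < n + 1), (ζ i).1 = P.coeff i / P.coeff (n + 1) / ((1 + M : ℝ) : ℂ) := by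
        intro i hi
        simp only [ζ, dif_pos hi]
      obtain ⟨p, hp1, hp2⟩ := ds_exists (n + 1) y ζ
      have hp3 : ∀ i < n + 1, (zc Y (n + 1) i p).1 =
          P.coeff i / P.coeff (n + 1) / ((1 + M : ℝ) : ℂ) := by
        intro i hi
        rw [hp2 i hi, hζ i hi]
      have hmx : mx (zc Y (n + 1)) (n + 1) p = M / (1 + M) := by
        have h1M : 0 < 1 + M := by linarith
        refine le_antisymm ?_ ?_
        · refine mx_le _ _ _ (div_nonneg hM0 h1M.le) fun i hi => ?_
          rw [hp3 i hi, hn i hi]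
          exact div_le_div_of_nonneg_right (hMi i hi) h1M.le
        · rw [div_le_iff₀ h1M]
          refine hMle _ (mul_nonneg (mx_nonneg _ _ _) h1M.le) fun i hi => ?_
          have h2 := le_mx (zc Y (n + 1)) (n + 1) p hi
          rw [hp3 i hi, hn i hi, div_le_iff₀ h1M] at h2
          exact h2
      have h1M : (0 : ℝ) < 1 + M := by linarith
      have h1M' : ((1 + M : ℝ) : ℂ) ≠ 0 := Complex.ofReal_ne_zero.2 h1M.ne'
      have hpol : pol (zc Y (n + 1)) (n + 1) p =
          Polynomial.C (1 / (P.coeff (n + 1) * ((1 + M : ℝ) : ℂ))) * P := by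
        ext i
        rw [Polynomial.coeff_C_mul]
        rcases Nat.lt_trichotomy i (n + 1) with hi | hi | hi
        · rw [pol_coeff_lt _ _ _ hi, hp3 i hi]
          field_simp
        · subst hi
          rw [pol_coeff_eq, hmx]
          have h5 : (1 - M / (1 + M) : ℝ) = 1 / (1 + M) := by
            field_simp
            ring
          rw [h5, Complex.ofReal_div, Complex.ofReal_one]
          field_simp
        · rw [Polynomial.coeff_eq_zero_of_natDegree_lt (lt_of_le_of_lt (pol_natDegree _ _ _) hi),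
            Polynomial.coeff_eq_zero_of_natDegree_lt (lt_of_le_of_lt hPd hi), mul_zero]
      refine ⟨p, ?_, ?_⟩
      · rintro (h | ⟨i, hi, h⟩)
        · exact hyB (hp1 ▸ h)
        · have h2 := hnl i hi
          rw [← hp3 i hi, h] at h2
          exact lt_irrefl _ h2
      · refine Prod.ext hp1 (Subtype.ext ?_)
        change line (pol (zc Y (n + 1)) (n + 1) p) = line P
        have hc : 1 / (P.coeff (n + 1) * ((1 + M : ℝ) : ℂ)) ≠ 0 :=
          one_div_ne_zero (mul_ne_zero hPc h1M')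
        exact ((line_eq_iff hP (pol_ne _ _ _)).2 ⟨_, hc, hpol⟩).symm
  hS := fun p hp => Or.inr hp

end Pool.QB.KTh
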