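import Pool.Agent.MP_c51823_gt.QB.KTh.Approx
import Pool.Agent.MP_c51823_gt.QB.KTh.Api

/-!
# [QBK] Homotopies of normalised ratios of loops
-/

set_option autoImplicit false
set_option linter.unusedSectionVars false
open Topology Metric

namespace Pool.QB.KTh.IX

section rat

variable {X : Type} [TopologicalSpace X] {ν : Type} [Fintype ν] [DecidableEq ν]

/-- normalised ratio -/
noncomputable def rt (F F' : C((X × I) × I, Matrix ν ν R)) (x : X) (t s : I) : Matrix ν ν R :=
  Ring.inverse (F ((x, 0), s)) * F ((x, t), s) * Ring.inverse (F' ((x, t), s)) * F' ((x, 0), s)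

theorem rat_homotopy {C S : Set X} (F F' : C((X × I) × I, Matrix ν ν R))
    (hF : ∀ q, IsUnit (F q)) (hF' : ∀ q, IsUnit (F' q))
    (hp : ∀ x s, F ((x, 1), s) = F ((x, 0), s)) (hp' : ∀ x s, F' ((x, 1), s) = F' ((x, 0), s))
    (hC : ∀ x ∈ C, ∀ t s, F ((x, t), s) = F' ((x, t), s))
    (hS : ∀ x ∈ S, ∀ t s, F ((x, t), s) ∈ sc ν) (hS' : ∀ x ∈ S, ∀ t s, F' ((x, t), s) ∈ sc ν) :
    ∃ g0 g1 : GF (susB C) (cyl S) ν, (∀ x t, g0.1.1 (x, t) = rt F F' x t 0) ∧
      (∀ x t, g1.1.1 (x, t) = rt F F' x t 1) ∧ cl g0 = cl g1 := by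
  have hc1 : Continuous fun q : (X × I) × I => F ((q.1.1, 0), q.2) :=
    F.continuous.comp (by fun_prop)
  have hc1' : Continuous fun q : (X × I) × I => F' ((q.1.1, 0), q.2) :=
    F'.continuous.comp (by fun_prop)
  have hI : ∀ {G : Matrix ν ν R}, IsUnit G → IsUnit (Ring.inverse G) := by
    rintro _ ⟨u, rfl⟩
    rw [Ring.inverse_unit]
    exact Units.isUnit _
  let G : C((X × I) × I, Matrix ν ν R) := ⟨fun q => Ring.inverse (F ((q.1.1, 0), q.2)) * F q *
    Ring.inverse (F' q) * F' ((q.1.1, 0), q.2), by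
      refine (((continuous_inverse hc1 fun q => hF _).mul F.continuous).mul
        (continuous_inverse F'.continuous fun q => hF' _)).mul hc1'⟩
  have hG : ∀ x t s, G ((x, t), s) = rt F F' x t s := fun x t s => rfl
  obtain ⟨H, hH⟩ := exists_gf (B := cyl (susB C)) (S := cyl (cyl S)) G
    (fun q => (((hI (hF _)).mul (hF _)).mul (hI (hF' _))).mul (hF' _)) (by
      rintro ⟨⟨x, t⟩, s⟩ hq
      rw [hG]
      unfold rt
      rcases hq with hq | hq | hq
      · have h1 : F ((x, t), s) = F' ((x, t), s) := hC x hq t s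
        have h2 : F ((x, 0), s) = F' ((x, 0), s) := hC x hq 0 s
        rw [h1, h2, mul_assoc (Ring.inverse _), Ring.mul_inverse_cancel _ (hF' _), mul_one,
          Ring.inverse_mul_cancel _ (hF' _)]
      · have h1 : t = 0 := hq
        subst h1
        rw [Ring.inverse_mul_cancel _ (hF _), one_mul, Ring.inverse_mul_cancel _ (hF' _)]
      · have h1 : t = 1 := hq
        subst h1
        rw [hp, hp', Ring.inverse_mul_cancel _ (hF _), one_mul, Ring.inverse_mul_cancel _ (hF' _)])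
    (by
      rintro ⟨⟨x, t⟩, s⟩ hq
      rw [hG]
      have hx : x ∈ S := hq
      exact mul_mem (mul_mem (mul_mem (inverse_mem_sc (hS x hx _ _)) (hS x hx _ _))
        (inverse_mem_sc (hS' x hx _ _))) (hS' x hx _ _))
  refine ⟨ev 0 H, ev 1 H, fun x t => ?_, fun x t => ?_, cl_homotopy H⟩
  · change H.1.1 ((x, t), 0) = _
    rw [hH, hG]
  · change H.1.1 ((x, t), 1) = _
    rw [hH, hG]

end rat

section stab

variable {κ : Type} [Fintype κ] [DecidableEq κ] {d : ℕ}

/-- `diag (u, 1, …, 1)` -/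
noncomputable def Du (d : ℕ) (u : Matrix κ κ R) : Matrix (Fin (d + 1) × κ) (Fin (d + 1) × κ) R :=
  Rw (Fin.cons u fun _ => 0) 0

/-- the index equivalence -/
def eD (κ : Type) (d : ℕ) : κ ⊕ (Fin d × κ) ≃ Fin (d + 1) × κ where
  toFun := Sum.elim (fun k => (0, k)) fun p => (p.1.succ, p.2)
  invFun := fun p => Fin.cases (motive := fun _ => κ ⊕ (Fin d × κ)) (Sum.inl p.2)
    (fun j => Sum.inr (j, p.2)) p.1
  left_inv := by
    rintro (k | p)
    · rfl
    · rfl
  right_inv := by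
    rintro ⟨i, k⟩
    refine Fin.cases ?_ (fun j => ?_) i
    · rfl
    · rfl

theorem eD_symm_zero (k : κ) : (eD κ d).symm (0, k) = Sum.inl k := rfl

theorem eD_symm_succ (j : Fin d) (k : κ) : (eD κ d).symm (j.succ, k) = Sum.inr (j, k) := rfl

theorem Du_eq (u : Matrix κ κ R) : Du d u =
    (Matrix.fromBlocks u 0 0 (1 : Matrix (Fin d × κ) (Fin d × κ) R)).submatrix (eD κ d).symm
      (eD κ d).symm := by
  refine Matrix.ext fun p q => ?_
  obtain ⟨i, k⟩ := p
  obtain ⟨j, l⟩ := q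
  unfold Du Rw
  rw [comp_apply, Matrix.submatrix_apply]
  dsimp only
  refine Fin.cases ?_ (fun i => ?_) i
  · rw [rowM_zero, eD_symm_zero]
    refine Fin.cases ?_ (fun j => ?_) j
    · rfl
    · rfl
  · rw [rowM_succ, zero_smul, sub_zero, eD_symm_succ]
    refine Fin.cases ?_ (fun j => ?_) j
    · rw [if_neg (Fin.succ_ne_zero i).symm, eD_symm_zero]
      rfl
    · rw [eD_symm_succ, Matrix.fromBlocks_apply₂₂, Matrix.one_apply]
      by_cases hij : j = i
      · subst hij
        rw [if_pos rfl, Matrix.one_apply]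
        simp only [Prod.mk.injEq, true_and]
      · rw [if_neg fun h => hij (Fin.succ_injective _ h), if_neg fun h => hij (congrArg Prod.fst h).symm]
        rfl

theorem Du_mul (u v : Matrix κ κ R) : Du d u * Du d v = Du d (u * v) := by
  rw [Du_eq, Du_eq, Du_eq, Matrix.submatrix_mul_equiv, Matrix.fromBlocks_multiply]
  simp

theorem Du_one : Du d (1 : Matrix κ κ R) = 1 := by
  rw [Du_eq, Matrix.fromBlocks_one, Matrix.submatrix_one_equiv]

theorem Du_inverse {u : Matrix κ κ R} (h : IsUnit u) :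
    Ring.inverse (Du d u) = Du d (Ring.inverse u) := by
  have h1 : Du d (Ring.inverse u) * Du d u = 1 := by
    rw [Du_mul, Ring.inverse_mul_cancel _ h, Du_one]
  have h2 : Du d u * Du d (Ring.inverse u) = 1 := by
    rw [Du_mul, Ring.mul_inverse_cancel _ h, Du_one]
  exact (Unit_aux.eq_inverse ⟨⟨_, _, h2, h1⟩, rfl⟩ h1).symm

/-- the deformation of the companion coefficients -/
noncomputable def a3 (a : Fin (d + 1) → Matrix κ κ R) (z s : ℂ) : Fin (d + 1) → Matrix κ κ R :=
  Fin.cons (a 0 + ∑ j : Fin d, ((1 - s ^ ((j : ℕ) + 2)) * z ^ ((j : ℕ) + 1)) • a j.succ)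
    fun i => s • a i.succ

theorem sum_a3 (a : Fin (d + 1) → Matrix κ κ R) (z s : ℂ) :
    ∑ i : Fin (d + 1), (s * z) ^ (i : ℕ) • a3 a z s i = ∑ i : Fin (d + 1), z ^ (i : ℕ) • a i := by
  rw [Fin.sum_univ_succ, Fin.sum_univ_succ]
  unfold a3
  simp only [Fin.cons_zero, Fin.cons_succ, Fin.val_zero, pow_zero, one_smul, Fin.val_succ]
  rw [add_assoc, ← Finset.sum_add_distrib]
  congr 1
  refine Finset.sum_congr rfl fun j _ => ?_
  rw [smul_smul, ← add_smul]
  congr 1
  ring

theorem a3_zero (a : Fin (d + 1) → Matrix κ κ R) (z : ℂ) :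
    a3 a z 0 = Fin.cons (∑ i : Fin (d + 1), z ^ (i : ℕ) • a i) fun _ => 0 := by
  rw [Fin.sum_univ_succ]
  unfold a3
  funext i
  refine Fin.cases ?_ (fun i => ?_) i
  · simp
  · simp

theorem a3_one (a : Fin (d + 1) → Matrix κ κ R) (z : ℂ) : a3 a z 1 = a := by
  unfold a3
  funext i
  refine Fin.cases ?_ (fun i => ?_) i
  · simp
  · simp

theorem a3_mem_sc {a : Fin (d + 1) → Matrix κ κ R} (ha : ∀ i, a i ∈ sc κ) (z s : ℂ)
    (i : Fin (d + 1)) : a3 a z s i ∈ sc κ := by
  unfold a3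
  refine Fin.cases ?_ (fun i => ?_) i
  · rw [Fin.cons_zero]
    exact add_mem (ha _) (sum_mem fun j _ => Subalgebra.smul_mem _ (ha _) _)
  · rw [Fin.cons_succ]
    exact Subalgebra.smul_mem _ (ha _) _

theorem continuous_a3 {Y : Type} [TopologicalSpace Y] {a : Y → Fin (d + 1) → Matrix κ κ R}
    {z s : Y → ℂ} (ha : ∀ i, Continuous fun y => a y i) (hz : Continuous z) (hs : Continuous s)
    (i : Fin (d + 1)) : Continuous fun y => a3 (a y) (z y) (s y) i := by
  unfold a3
  refine Fin.cases ?_ (fun i => ?_) i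
  · simp only [Fin.cons_zero]
    refine (ha 0).add (continuous_finsetSum _ fun j _ => ?_)
    exact ((continuous_const.sub (hs.pow _)).mul (hz.pow _)).smul (ha _)
  · simp only [Fin.cons_succ]
    exact hs.smul (ha _)

end stab

end Pool.QB.KTh.IX
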