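import Pool.Agent.MP_c51823_gt.QB.KTh.Act

/-!
# [QBK-R] The relative operators `rel e e' : K1(Y,B) → K1(Y,Br)` (`e = e'` on `Br ∖ B`)

* `exists_rel`: `exists_lift` with `φ g = cl (grel e e' g)`. Additivity:
  `(e·gh)(e'·gh)⁻¹ = (e·g)(e'·g)⁻¹ · P [(e·h)(e'·h)⁻¹] P⁻¹` with `P = e'·g` (admissible for `∅`, `S`):
  `cl_mul`, `cl_gconj`. Homotopies: `grel` of `e ∘ pr`, `e' ∘ pr` on the cylinder.
* `rel_forget`: `cl ((e·g)(e'·g)⁻¹) = cl (e·g) - cl (e'·g)` in `K1 B S`.
-/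

set_option autoImplicit false
open Topology

namespace Pool.QB.KTh

variable {Y : Type} [TopologicalSpace Y] {B Br S : Set Y}
  {m n : Type} [Fintype m] [DecidableEq m] [Fintype n] [DecidableEq n]

namespace Rel_aux

omit [Fintype n] [DecidableEq n] in
theorem gact_mul (e : C(Y, Matrix m m ℂ)) (he : ∀ y, e y * e y = e y) {ι : Type} [Fintype ι]
    [DecidableEq ι] (g h : GF B S ι) : gact e he (g * h) = gact e he g * gact e he h := by
  apply gf_ext
  intro y
  rw [gf_mul]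
  change actM (e y) ((g * h).1.1 y) = actM (e y) (g.1.1 y) * actM (e y) (h.1.1 y)
  rw [gf_mul, actM_mul (he y)]

theorem gact_one (e : C(Y, Matrix m m ℂ)) (he : ∀ y, e y * e y = e y) {ι : Type} [Fintype ι]
    [DecidableEq ι] : gact e he (1 : GF B S ι) = 1 := by
  apply gf_ext
  intro y
  rw [gf_one]
  change actM (e y) ((1 : GF B S ι).1.1 y) = 1
  rw [gf_one, actM_one]

theorem grel_mul (e e' : C(Y, Matrix m m ℂ)) (he : ∀ y, e y * e y = e y)
    (he' : ∀ y, e' y * e' y = e' y) (hr : ∀ y ∈ Br, y ∈ B ∨ e y = e' y) {ι : Type} [Fintype ι]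
    [DecidableEq ι] (g h : GF B S ι) : grel e e' he he' hr (g * h) =
      grel e e' he he' hr g * gconj ⟨(gact e' he' g).1, fun _ hy => hy.elim, (gact e' he' g).2.2⟩
        (grel e e' he he' hr h) := by
  apply Subtype.ext
  change (gact e he (g * h)).1 * (gact e' he' (g * h)).1⁻¹ =
    ((gact e he g).1 * (gact e' he' g).1⁻¹) *
      ((gact e' he' g).1 * ((gact e he h).1 * (gact e' he' h).1⁻¹) * (gact e' he' g).1⁻¹)
  rw [gact_mul, gact_mul]
  change ((gact e he g).1 * (gact e he h).1) * ((gact e' he' g).1 * (gact e' he' h).1)⁻¹ = _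
  group

theorem grel_one (e e' : C(Y, Matrix m m ℂ)) (he : ∀ y, e y * e y = e y)
    (he' : ∀ y, e' y * e' y = e' y) (hr : ∀ y ∈ Br, y ∈ B ∨ e y = e' y) {ι : Type} [Fintype ι]
    [DecidableEq ι] : grel e e' he he' hr (1 : GF B S ι) = 1 := by
  apply Subtype.ext
  change (gact e he 1).1 * (gact e' he' 1).1⁻¹ = 1
  rw [gact_one, gact_one]
  change (1 : (C(Y, Matrix (m × ι) (m × ι) R))ˣ) * 1⁻¹ = 1
  group

theorem grel_apply (e e' : C(Y, Matrix m m ℂ)) (he : ∀ y, e y * e y = e y)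
    (he' : ∀ y, e' y * e' y = e' y) (hr : ∀ y ∈ Br, y ∈ B ∨ e y = e' y) {ι : Type} [Fintype ι]
    [DecidableEq ι] (g : GF B S ι) (y : Y) : (grel e e' he he' hr g).1.1 y =
      actM (e y) (g.1.1 y) * actM (e' y) ((g⁻¹).1.1 y) := rfl

theorem pull_grel {Y' : Type} [TopologicalSpace Y'] {B' Br' S' : Set Y'} (f : C(Y, Y'))
    (hB : Set.MapsTo f B B') (hBr : Set.MapsTo f Br Br') (hS : Set.MapsTo f S S')
    (e e' : C(Y', Matrix m m ℂ)) (he : ∀ y, e y * e y = e y) (he' : ∀ y, e' y * e' y = e' y)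
    (hr : ∀ y ∈ Br', y ∈ B' ∨ e y = e' y) (d d' : C(Y, Matrix m m ℂ))
    (hd : ∀ y, d y * d y = d y) (hd' : ∀ y, d' y * d' y = d' y) (hr' : ∀ y ∈ Br, y ∈ B ∨ d y = d' y)
    (h1 : ∀ y, d y = e (f y)) (h2 : ∀ y, d' y = e' (f y)) {ι : Type} [Fintype ι]
    [DecidableEq ι] (g : GF B' S' ι) :
    pull f hBr hS (m × ι) (grel e e' he he' hr g) = grel d d' hd hd' hr' (pull f hB hS ι g) := by
  apply gf_ext
  intro y
  change (grel e e' he he' hr g).1.1 (f y) = _
  rw [grel_apply, grel_apply, h1, h2]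
  rfl

theorem actM_submatrix {ι κ : Type} [Fintype ι] [DecidableEq ι] [Fintype κ] [DecidableEq κ]
    (f : κ ≃ ι) (e : Matrix m m ℂ) (a : Matrix ι ι R) :
    actM e (a.submatrix f f) = (actM e a).submatrix (Equiv.prodCongr (Equiv.refl m) f)
      (Equiv.prodCongr (Equiv.refl m) f) := by
  ext1 p q
  simp [actM, kr, Matrix.one_apply]

theorem actM_fromBlocks {ι κ : Type} [Fintype ι] [DecidableEq ι] [Fintype κ] [DecidableEq κ]
    (e : Matrix m m ℂ) (a : Matrix ι ι R) :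
    actM e (Matrix.fromBlocks a 0 0 (1 : Matrix κ κ R)) =
      (Matrix.fromBlocks (actM e a) 0 0 1).submatrix (Equiv.prodSumDistrib m ι κ)
        (Equiv.prodSumDistrib m ι κ) := by
  ext1 ⟨i, p⟩ ⟨j, q⟩
  rcases p with p | p <;> rcases q with q | q
  · simp [actM, kr, Matrix.one_apply]
  · simp [actM, kr, Matrix.one_apply]
  · simp [actM, kr, Matrix.one_apply]
  · by_cases h1 : i = j <;> by_cases h2 : p = q <;>
      simp [actM, kr, Matrix.one_apply, h1, h2]

end Rel_aux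

open Rel_aux

theorem exists_rel (B Br S : Set Y) (e e' : C(Y, Matrix m m ℂ)) (he : ∀ y, e y * e y = e y)
    (he' : ∀ y, e' y * e' y = e' y) (hr : ∀ y ∈ Br, y ∈ B ∨ e y = e' y) :
    ∃ F : K1 B S →+ K1 Br S, ∀ (ι : Type) [Fintype ι] [DecidableEq ι] (g : GF B S ι),
      F (cl g) = cl (grel e e' he he' hr g) := by
  refine exists_lift (fun ι _ _ g => cl (grel e e' he he' hr g)) ?_ ?_ ?_ ?_
  · intro ι _ _ g h
    rw [grel_mul, cl_mul, cl_gconj]
  · intro ι κ _ _ _ _ f g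
    have h1 : grel e e' he he' hr (greindex f g) =
        greindex (Equiv.prodCongr (Equiv.refl m) f) (grel e e' he he' hr g) := by
      apply gf_ext
      intro y
      rw [grel_apply]
      change actM (e y) ((g.1.1 y).submatrix f.symm f.symm) *
          actM (e' y) (((g⁻¹).1.1 y).submatrix f.symm f.symm) =
        ((grel e e' he he' hr g).1.1 y).submatrix (Equiv.prodCongr (Equiv.refl m) f).symm
          (Equiv.prodCongr (Equiv.refl m) f).symm
      rw [grel_apply, actM_submatrix, actM_submatrix, Matrix.submatrix_mul_equiv]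
      rfl
    rw [h1, cl_greindex]
  · intro ι κ _ _ _ _ g
    have h1 : grel e e' he he' hr (gsum g (1 : GF B S κ)) =
        greindex (Equiv.prodSumDistrib m ι κ).symm
          (gsum (grel e e' he he' hr g) (1 : GF Br S (m × κ))) := by
      apply gf_ext
      intro y
      rw [grel_apply]
      change actM (e y) (Matrix.fromBlocks (g.1.1 y) 0 0 1) *
          actM (e' y) (Matrix.fromBlocks ((g⁻¹).1.1 y) 0 0 1) =
        (Matrix.fromBlocks ((grel e e' he he' hr g).1.1 y) 0 0 1).submatrix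
          (Equiv.prodSumDistrib m ι κ) (Equiv.prodSumDistrib m ι κ)
      rw [grel_apply, actM_fromBlocks, actM_fromBlocks, Matrix.submatrix_mul_equiv,
        Matrix.fromBlocks_multiply]
      simp
    rw [h1, cl_greindex, cl_gsum_one]
  · intro ι _ _ H h0
    have hd : ∀ p : Y × I, (e.comp (prMap Y)) p * (e.comp (prMap Y)) p = (e.comp (prMap Y)) p :=
      fun p => he p.1
    have hd' : ∀ p : Y × I,
        (e'.comp (prMap Y)) p * (e'.comp (prMap Y)) p = (e'.comp (prMap Y)) p := fun p => he' p.1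
    have hrr : ∀ p ∈ cyl Br, p ∈ cyl B ∨ (e.comp (prMap Y)) p = (e'.comp (prMap Y)) p :=
      fun p hp => hr p.1 hp
    have h2 : ∀ t, ev t (grel (e.comp (prMap Y)) (e'.comp (prMap Y)) hd hd' hrr H) =
        grel e e' he he' hr (ev t H) := fun t =>
      pull_grel (atMap Y t) (fun _ h => h) (fun _ h => h) (fun _ h => h) _ _ hd hd' hrr e e' he he'
        hr (fun _ => rfl) (fun _ => rfl) H
    have h3 := cl_homotopy (grel (e.comp (prMap Y)) (e'.comp (prMap Y)) hd hd' hrr H)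
    rw [h2, h2, h0, grel_one, cl_one] at h3
    exact h3.symm

/-- The relative operator. -/
noncomputable def rel (e e' : C(Y, Matrix m m ℂ)) (he : ∀ y, e y * e y = e y)
    (he' : ∀ y, e' y * e' y = e' y) (hr : ∀ y ∈ Br, y ∈ B ∨ e y = e' y) : K1 B S →+ K1 Br S :=
  (exists_rel B Br S e e' he he' hr).choose

theorem rel_cl (e e' : C(Y, Matrix m m ℂ)) (he : ∀ y, e y * e y = e y)
    (he' : ∀ y, e' y * e' y = e' y) (hr : ∀ y ∈ Br, y ∈ B ∨ e y = e' y) {ι : Type} [Fintype ι]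
    [DecidableEq ι] (g : GF B S ι) : rel e e' he he' hr (cl g) = cl (grel e e' he he' hr g) :=
  (exists_rel B Br S e e' he he' hr).choose_spec ι g

theorem rel_forget (hBr : Set.MapsTo (ContinuousMap.id Y) B Br) (e e' : C(Y, Matrix m m ℂ))
    (he : ∀ y, e y * e y = e y) (he' : ∀ y, e' y * e' y = e' y) (hr : ∀ y ∈ Br, y ∈ B ∨ e y = e' y)
    (x : K1 B S) : kmap (ContinuousMap.id Y) hBr (fun _ h => h) (rel e e' he he' hr x) =
      act e he x - act e' he' x := by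
  obtain ⟨k, g, rfl⟩ := exists_cl x
  rw [rel_cl, act_cl, act_cl, sub_eq_add_neg, ← cl_inv, ← cl_mul]
  refine (kmap_cl (ContinuousMap.id Y) hBr (fun _ h => h) _).trans ?_
  congr 1

/-- Naturality. -/
theorem rel_nat {Y' : Type} [TopologicalSpace Y'] {B' Br' S' : Set Y'} (f : C(Y, Y'))
    (hB : Set.MapsTo f B B') (hBr : Set.MapsTo f Br Br') (hS : Set.MapsTo f S S')
    (e e' : C(Y', Matrix m m ℂ)) (he : ∀ y, e y * e y = e y) (he' : ∀ y, e' y * e' y = e' y)
    (hr : ∀ y ∈ Br', y ∈ B' ∨ e y = e' y) (d d' : C(Y, Matrix m m ℂ))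
    (hd : ∀ y, d y * d y = d y) (hd' : ∀ y, d' y * d' y = d' y) (hr' : ∀ y ∈ Br, y ∈ B ∨ d y = d' y)
    (h1 : ∀ y, d y = e (f y)) (h2 : ∀ y, d' y = e' (f y)) (x : K1 B' S') :
    kmap f hBr hS (rel e e' he he' hr x) = rel d d' hd hd' hr' (kmap f hB hS x) := by
  obtain ⟨k, g, rfl⟩ := exists_cl x
  rw [rel_cl, kmap_cl, kmap_cl, rel_cl,
    pull_grel f hB hBr hS e e' he he' hr d d' hd hd' hr' h1 h2 g]

/-- Homotopy invariance. -/
theorem rel_homotopy (E E' : C(Y × I, Matrix m m ℂ)) (hE : ∀ p, E p * E p = E p)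
    (hE' : ∀ p, E' p * E' p = E' p) (hr : ∀ y ∈ Br, y ∈ B ∨ ∀ t, E (y, t) = E' (y, t))
    (e e' d d' : C(Y, Matrix m m ℂ)) (he : ∀ y, e y * e y = e y) (he' : ∀ y, e' y * e' y = e' y)
    (hd : ∀ y, d y * d y = d y) (hd' : ∀ y, d' y * d' y = d' y)
    (h0 : ∀ y, E (y, 0) = e y) (h0' : ∀ y, E' (y, 0) = e' y) (h1 : ∀ y, E (y, 1) = d y)
    (h1' : ∀ y, E' (y, 1) = d' y) (hre : ∀ y ∈ Br, y ∈ B ∨ e y = e' y)
    (hrd : ∀ y ∈ Br, y ∈ B ∨ d y = d' y) (x : K1 B S) :
    rel e e' he he' hre x = rel d d' hd hd' hrd x := by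
  obtain ⟨k, g, rfl⟩ := exists_cl x
  rw [rel_cl, rel_cl]
  have hrr : ∀ p ∈ cyl Br, p ∈ cyl B ∨ E p = E' p := fun p hp => by
    rcases hr p.1 hp with h | h
    · exact Or.inl h
    · exact Or.inr (h p.2)
  have h2 : ev 0 (grel E E' hE hE' hrr
      (pull (prMap Y) (fun _ h => h) (fun _ h => h) (Fin k) g : GF (cyl B) (cyl S) (Fin k))) =
      grel e e' he he' hre g :=
    pull_grel (atMap Y 0) (fun _ h => h) (fun _ h => h) (fun _ h => h) _ _ hE hE' hrr e e' he he'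
      hre (fun y => (h0 y).symm) (fun y => (h0' y).symm) _
  have h3 : ev 1 (grel E E' hE hE' hrr
      (pull (prMap Y) (fun _ h => h) (fun _ h => h) (Fin k) g : GF (cyl B) (cyl S) (Fin k))) =
      grel d d' hd hd' hrd g :=
    pull_grel (atMap Y 1) (fun _ h => h) (fun _ h => h) (fun _ h => h) _ _ hE hE' hrr d d' hd hd'
      hrd (fun y => (h1 y).symm) (fun y => (h1' y).symm) _
  rw [← h2, ← h3]
  exact cl_homotopy _

end Pool.QB.KTh
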