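import Pool.Agent.MP_c51823_gt.QB.KTh.Rel

/-!
# [QBK-RB] Relative operators: embedding of the index set

* `rel_embed`: `T T' = ` idempotent, `T' T = 1` (constant matrices); conjugate by the constant matrix
  `U = [[1 - T T', T], [T', 0]]` on `m' ⊕ m`, `U U = 1`, `U (T e T' ⊕ 0) U = 0 ⊕ e` (as in `act_equiv`).
-/

set_option autoImplicit false
open Topology

namespace Pool.QB.KTh

variable {Y : Type} [TopologicalSpace Y] {B Br S : Set Y}
  {m n : Type} [Fintype m] [DecidableEq m] [Fintype n] [DecidableEq n]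

namespace Rel2_aux

/-- the matrix `U` -/
noncomputable def U (T : Matrix n m ℂ) (T' : Matrix m n ℂ) : Matrix (n ⊕ m) (n ⊕ m) ℂ :=
  Matrix.fromBlocks (1 - T * T') T T' 0

theorem U_mul (T : Matrix n m ℂ) (T' : Matrix m n ℂ) (hT : T' * T = 1) : U T T' * U T T' = 1 := by
  have h1 : T * T' * (T * T') = T * T' := by
    rw [Matrix.mul_assoc, ← Matrix.mul_assoc T' T T', hT, Matrix.one_mul]
  have h2 : (1 - T * T') * T = 0 := by
    rw [Matrix.sub_mul, Matrix.one_mul, Matrix.mul_assoc, hT, Matrix.mul_one, sub_self]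
  have h3 : T' * (1 - T * T') = 0 := by
    rw [Matrix.mul_sub, Matrix.mul_one, ← Matrix.mul_assoc, hT, Matrix.one_mul, sub_self]
  unfold U
  rw [Matrix.fromBlocks_multiply, h2, h3, hT, Matrix.mul_zero, Matrix.zero_mul, Matrix.mul_zero,
    add_zero, add_zero, add_zero, ← Matrix.fromBlocks_one]
  congr 1
  rw [Matrix.mul_sub, Matrix.mul_one, Matrix.sub_mul, Matrix.one_mul, h1]
  abel

theorem U_conj (T : Matrix n m ℂ) (T' : Matrix m n ℂ) (hT : T' * T = 1) (e : Matrix m m ℂ) :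
    U T T' * Matrix.fromBlocks (T * e * T') 0 0 0 * U T T' = Matrix.fromBlocks 0 0 0 e := by
  have h2 : (1 - T * T') * T = 0 := by
    rw [Matrix.sub_mul, Matrix.one_mul, Matrix.mul_assoc, hT, Matrix.mul_one, sub_self]
  have h3 : T' * (1 - T * T') = 0 := by
    rw [Matrix.mul_sub, Matrix.mul_one, ← Matrix.mul_assoc, hT, Matrix.one_mul, sub_self]
  have h4 : (1 - T * T') * (T * e * T') = 0 := by
    rw [← Matrix.mul_assoc, ← Matrix.mul_assoc, h2, Matrix.zero_mul, Matrix.zero_mul]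
  have h5 : T' * (T * e * T') = e * T' := by
    rw [← Matrix.mul_assoc, ← Matrix.mul_assoc, hT, Matrix.one_mul]
  unfold U
  rw [Matrix.fromBlocks_multiply, h4, h5]
  simp only [Matrix.mul_zero, add_zero]
  rw [Matrix.fromBlocks_multiply]
  simp only [Matrix.mul_zero, Matrix.zero_mul, add_zero]
  rw [Matrix.mul_assoc e T' (1 - T * T'), h3, Matrix.mul_assoc e T' T, hT, Matrix.mul_zero,
    Matrix.mul_one]

theorem act_left {ι : Type} [Fintype ι] [DecidableEq ι] (d : Matrix n n ℂ) (a : Matrix ι ι R) :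
    (actM (Matrix.fromBlocks d 0 0 (0 : Matrix m m ℂ)) a).submatrix
      (Equiv.sumProdDistrib n m ι).symm (Equiv.sumProdDistrib n m ι).symm =
      Matrix.fromBlocks (actM d a) 0 0 1 := by
  refine Matrix.ext fun p q => ?_
  rcases p with ⟨p, i⟩ | ⟨p, i⟩ <;> rcases q with ⟨q, j⟩ | ⟨q, j⟩ <;>
    simp [actM, kr, Matrix.one_apply, Prod.ext_iff, ← ite_and, and_comm]

theorem act_right {ι : Type} [Fintype ι] [DecidableEq ι] (e : Matrix m m ℂ) (a : Matrix ι ι R) :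
    (actM (Matrix.fromBlocks (0 : Matrix n n ℂ) 0 0 e) a).submatrix
      (Equiv.sumProdDistrib n m ι).symm (Equiv.sumProdDistrib n m ι).symm =
      Matrix.fromBlocks 1 0 0 (actM e a) := by
  refine Matrix.ext fun p q => ?_
  rcases p with ⟨p, i⟩ | ⟨p, i⟩ <;> rcases q with ⟨q, j⟩ | ⟨q, j⟩ <;>
    simp [actM, kr, Matrix.one_apply, Prod.ext_iff, ← ite_and, and_comm]

theorem act_conj {ι : Type} [Fintype ι] [DecidableEq ι] (V p : Matrix n n ℂ) (hV : V * V = 1)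
    (a : Matrix ι ι R) : kr V 1 * actM p a * kr V 1 = actM (V * p * V) a := by
  have h1 : V * (1 - p) * V = 1 - V * p * V := by
    rw [Matrix.mul_sub, Matrix.sub_mul, Matrix.mul_one, hV]
  unfold actM
  rw [Matrix.mul_add, Matrix.add_mul, kr_mul, kr_mul, kr_mul, kr_mul, h1, Matrix.one_mul,
    Matrix.mul_one, Matrix.one_mul, Matrix.mul_one]

/-- the constant function -/
noncomputable def cst (S : Set Y) {ι : Type} [Fintype ι] [DecidableEq ι] (V : Matrix n n ℂ)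
    (hV : V * V = 1) : GF (∅ : Set Y) S (n × ι) :=
  ⟨⟨ContinuousMap.const Y (kr V 1), ContinuousMap.const Y (kr V 1), by
      ext1 y
      change kr V (1 : Matrix ι ι R) * kr V 1 = 1
      rw [kr_mul, hV, Matrix.one_mul, kr_one], by
      ext1 y
      change kr V (1 : Matrix ι ι R) * kr V 1 = 1
      rw [kr_mul, hV, Matrix.one_mul, kr_one]⟩,
    fun _ h => h.elim, fun _ _ => ⟨kr_mem_sc V (one_mem _), kr_mem_sc V (one_mem _)⟩⟩

/-- block functions -/
noncomputable def bfn (d : C(Y, Matrix n n ℂ)) (e : C(Y, Matrix m m ℂ)) : C(Y, Matrix (n ⊕ m) (n ⊕ m) ℂ) :=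
  ⟨fun y => Matrix.fromBlocks (d y) 0 0 (e y),
    d.continuous.matrix_fromBlocks continuous_const continuous_const e.continuous⟩

omit [DecidableEq m] [DecidableEq n] in
theorem bfn_idem (d : C(Y, Matrix n n ℂ)) (e : C(Y, Matrix m m ℂ)) (hd : ∀ y, d y * d y = d y)
    (he : ∀ y, e y * e y = e y) (y : Y) : bfn d e y * bfn d e y = bfn d e y := by
  change Matrix.fromBlocks (d y) 0 0 (e y) * Matrix.fromBlocks (d y) 0 0 (e y) =
    Matrix.fromBlocks (d y) 0 0 (e y)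
  rw [Matrix.fromBlocks_multiply, hd, he]
  simp

theorem grel_apply {ι : Type} [Fintype ι] [DecidableEq ι]
    (e e' : C(Y, Matrix m m ℂ)) (he : ∀ y, e y * e y = e y) (he' : ∀ y, e' y * e' y = e' y)
    (hr : ∀ y ∈ Br, y ∈ B ∨ e y = e' y) (g : GF B S ι) (y : Y) :
    (grel e e' he he' hr g).1.1 y = actM (e y) (g.1.1 y) * actM (e' y) ((g.1⁻¹).1 y) := rfl

omit [DecidableEq m] in
theorem zero_idem (y : Y) : (0 : C(Y, Matrix m m ℂ)) y * (0 : C(Y, Matrix m m ℂ)) y =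
    (0 : C(Y, Matrix m m ℂ)) y := by
  change (0 : Matrix m m ℂ) * 0 = 0
  rw [Matrix.mul_zero]

theorem grel_left {ι : Type} [Fintype ι] [DecidableEq ι] (d d' : C(Y, Matrix n n ℂ))
    (hd : ∀ y, d y * d y = d y) (hd' : ∀ y, d' y * d' y = d' y)
    (hrd : ∀ y ∈ Br, y ∈ B ∨ d y = d' y)
    (hr : ∀ y ∈ Br, y ∈ B ∨ bfn d (0 : C(Y, Matrix m m ℂ)) y = bfn d' 0 y) (g : GF B S ι) :
    cl (grel (bfn d (0 : C(Y, Matrix m m ℂ))) (bfn d' 0) (bfn_idem d 0 hd zero_idem)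
      (bfn_idem d' 0 hd' zero_idem) hr g) = cl (grel d d' hd hd' hrd g) := by
  rw [← cl_greindex (Equiv.sumProdDistrib n m ι), ← cl_gsum_one (κ := m × ι) (grel d d' hd hd' hrd g)]
  congr 1
  apply gf_ext
  intro y
  change ((grel (bfn d (0 : C(Y, Matrix m m ℂ))) (bfn d' 0) (bfn_idem d 0 hd zero_idem)
      (bfn_idem d' 0 hd' zero_idem) hr g).1.1 y).submatrix (Equiv.sumProdDistrib n m ι).symm
      (Equiv.sumProdDistrib n m ι).symm = Matrix.fromBlocks ((grel d d' hd hd' hrd g).1.1 y) 0 0 1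
  rw [grel_apply, grel_apply, ← Matrix.submatrix_mul_equiv _ _ _ (Equiv.sumProdDistrib n m ι).symm]
  change (actM (Matrix.fromBlocks (d y) 0 0 (0 : Matrix m m ℂ)) (g.1.1 y)).submatrix _ _ *
    (actM (Matrix.fromBlocks (d' y) 0 0 (0 : Matrix m m ℂ)) ((g.1⁻¹).1 y)).submatrix _ _ = _
  rw [act_left, act_left, Matrix.fromBlocks_multiply]
  simp

theorem grel_right {ι : Type} [Fintype ι] [DecidableEq ι] (e e' : C(Y, Matrix m m ℂ))
    (he : ∀ y, e y * e y = e y) (he' : ∀ y, e' y * e' y = e' y)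
    (hre : ∀ y ∈ Br, y ∈ B ∨ e y = e' y)
    (hr : ∀ y ∈ Br, y ∈ B ∨ bfn (0 : C(Y, Matrix n n ℂ)) e y = bfn 0 e' y) (g : GF B S ι) :
    cl (grel (bfn (0 : C(Y, Matrix n n ℂ)) e) (bfn 0 e') (bfn_idem 0 e zero_idem he)
      (bfn_idem 0 e' zero_idem he') hr g) = cl (grel e e' he he' hre g) := by
  have h0 : cl (grel e e' he he' hre g) =
      cl (gsum (1 : GF Br S (n × ι)) (grel e e' he he' hre g)) := by
    rw [cl_gsum, cl_one, zero_add]
  rw [← cl_greindex (Equiv.sumProdDistrib n m ι), h0]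
  congr 1
  apply gf_ext
  intro y
  change ((grel (bfn (0 : C(Y, Matrix n n ℂ)) e) (bfn 0 e') (bfn_idem 0 e zero_idem he)
      (bfn_idem 0 e' zero_idem he') hr g).1.1 y).submatrix (Equiv.sumProdDistrib n m ι).symm
      (Equiv.sumProdDistrib n m ι).symm = Matrix.fromBlocks 1 0 0 ((grel e e' he he' hre g).1.1 y)
  rw [grel_apply, grel_apply, ← Matrix.submatrix_mul_equiv _ _ _ (Equiv.sumProdDistrib n m ι).symm]
  change (actM (Matrix.fromBlocks (0 : Matrix n n ℂ) 0 0 (e y)) (g.1.1 y)).submatrix _ _ *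
    (actM (Matrix.fromBlocks (0 : Matrix n n ℂ) 0 0 (e' y)) ((g.1⁻¹).1 y)).submatrix _ _ = _
  rw [act_right, act_right, Matrix.fromBlocks_multiply]
  simp

end Rel2_aux

open Rel2_aux

/-- Embedding the index set by constant matrices. -/
theorem rel_embed (T : Matrix n m ℂ) (T' : Matrix m n ℂ) (hT : T' * T = 1)
    (e e' : C(Y, Matrix m m ℂ)) (d d' : C(Y, Matrix n n ℂ)) (he : ∀ y, e y * e y = e y)
    (he' : ∀ y, e' y * e' y = e' y) (hd : ∀ y, d y * d y = d y) (hd' : ∀ y, d' y * d' y = d' y)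
    (h1 : ∀ y, d y = T * e y * T') (h2 : ∀ y, d' y = T * e' y * T')
    (hre : ∀ y ∈ Br, y ∈ B ∨ e y = e' y) (hrd : ∀ y ∈ Br, y ∈ B ∨ d y = d' y) (x : K1 B S) :
    rel d d' hd hd' hrd x = rel e e' he he' hre x := by
  suffices h : (rel d d' hd hd' hrd : K1 B S →+ K1 Br S) = rel e e' he he' hre by rw [h]
  refine hom_ext fun k g => ?_
  rw [rel_cl, rel_cl]
  have hr1 : ∀ y ∈ Br, y ∈ B ∨ bfn d (0 : C(Y, Matrix m m ℂ)) y = bfn d' 0 y := by
    intro y hy
    refine (hrd y hy).imp id fun h => ?_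
    change Matrix.fromBlocks (d y) 0 0 0 = Matrix.fromBlocks (d' y) 0 0 0
    rw [h]
  have hr2 : ∀ y ∈ Br, y ∈ B ∨ bfn (0 : C(Y, Matrix n n ℂ)) e y = bfn 0 e' y := by
    intro y hy
    refine (hre y hy).imp id fun h => ?_
    change Matrix.fromBlocks 0 0 0 (e y) = Matrix.fromBlocks 0 0 0 (e' y)
    rw [h]
  rw [← grel_left (m := m) d d' hd hd' hrd hr1 g, ← grel_right (n := n) e e' he he' hre hr2 g,
    ← cl_gconj (cst S (U T T') (U_mul T T' hT))]
  congr 1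
  apply gf_ext
  intro y
  change kr (U T T') 1 * (actM (Matrix.fromBlocks (d y) 0 0 (0 : Matrix m m ℂ)) (g.1.1 y) *
      actM (Matrix.fromBlocks (d' y) 0 0 (0 : Matrix m m ℂ)) ((g.1⁻¹).1 y)) * kr (U T T') 1 =
    actM (Matrix.fromBlocks (0 : Matrix n n ℂ) 0 0 (e y)) (g.1.1 y) *
      actM (Matrix.fromBlocks (0 : Matrix n n ℂ) 0 0 (e' y)) ((g.1⁻¹).1 y)
  have hUU : kr (U T T') (1 : Matrix (Fin k) (Fin k) R) * kr (U T T') 1 = 1 := by
    rw [kr_mul, U_mul T T' hT, Matrix.one_mul, kr_one]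
  have h3 := act_conj (U T T') (Matrix.fromBlocks (d y) 0 0 (0 : Matrix m m ℂ))
    (U_mul T T' hT) (g.1.1 y)
  have h4 := act_conj (U T T') (Matrix.fromBlocks (d' y) 0 0 (0 : Matrix m m ℂ))
    (U_mul T T' hT) ((g.1⁻¹).1 y)
  rw [h1, U_conj T T' hT] at h3
  rw [h2, U_conj T T' hT] at h4
  rw [← h3, ← h4, h1, h2]
  set A := actM (Matrix.fromBlocks (T * e y * T') 0 0 (0 : Matrix m m ℂ)) (g.1.1 y)
  set A' := actM (Matrix.fromBlocks (T * e' y * T') 0 0 (0 : Matrix m m ℂ)) ((g.1⁻¹).1 y)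
  set V := kr (U T T') (1 : Matrix (Fin k) (Fin k) R)
  calc V * (A * A') * V = V * A * 1 * A' * V := by rw [mul_one]; noncomm_ring
    _ = V * A * (V * V) * A' * V := by rw [hUU]
    _ = V * A * V * (V * A' * V) := by noncomm_ring

end Pool.QB.KTh
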