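import Pool.Agent.MP_c51823_gt.QB.KTh.EmbDef

/-!
# [QBK-TZ] Extension of admissible matrix functions

`tietze`: write `f = e (p f) + (f - e (p f))`, where `e` embeds the complex matrices as scalar
matrices and `p` takes the `(0, 0)` entries. Extend `p f` by a complex matrix function which is `1` on
`B`, and `f - e (p f)` by a function which is `0` on `B ∪ S`.
-/

set_option autoImplicit false
open Topology

namespace Pool.QB.KTh

namespace Tietze_aux

theorem ext_const {Z : Type} [TopologicalSpace Z] [NormalSpace Z] {Y : Type} [TopologicalSpace Y]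
    [TietzeExtension.{0, 0} Y] {A K : Set Z} (hA : IsClosed A) (hK : IsClosed K) (f : C(K, Y)) (c : Y)
    (h : ∀ z : K, z.1 ∈ A → f z = c) :
    ∃ F : C(Z, Y), (∀ z : K, F z.1 = f z) ∧ ∀ z ∈ A, F z = c := by
  classical
  let g : Z → Y := fun z => if hz : z ∈ K then f ⟨z, hz⟩ else c
  have gK : ∀ z : K, g z.1 = f z := fun z => dif_pos z.2
  have gA : ∀ z ∈ A, g z = c := by
    intro z hz
    by_cases hzK : z ∈ K
    · rw [gK ⟨z, hzK⟩]
      exact h ⟨z, hzK⟩ hz
    · exact dif_neg hzK
  have c1 : ContinuousOn g K := by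
    rw [continuousOn_iff_continuous_domRestrict]
    have : K.domRestrict g = f := funext gK
    rw [this]
    exact f.continuous
  have c2 : ContinuousOn g A := continuousOn_const.congr gA
  have c3 : ContinuousOn g (K ∪ A) := c1.union_of_isClosed c2 hK hA
  obtain ⟨F, hF⟩ := ContinuousMap.exists_restrict_eq (hK.union hA)
    (⟨(K ∪ A).domRestrict g, continuousOn_iff_continuous_domRestrict.1 c3⟩ : C(↥(K ∪ A), Y))
  have hFg : ∀ z ∈ K ∪ A, F z = g z := fun z hz =>
    congrArg (fun φ : C(↥(K ∪ A), Y) => φ ⟨z, hz⟩) hF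
  exact ⟨F, fun z => (hFg z (Or.inl z.2)).trans (gK z),
    fun z hz => (hFg z (Or.inr hz)).trans (gA z hz)⟩

instance tz1 (ι : Type) [Fintype ι] : TietzeExtension (Matrix ι ι ℂ) :=
  inferInstanceAs (TietzeExtension (ι → ι → ℂ))

instance tz2 (ι : Type) [Fintype ι] : TietzeExtension (Matrix ι ι R) :=
  inferInstanceAs (TietzeExtension (ι → ι → Fin 2 → Fin 2 → ℂ))

end Tietze_aux

open Tietze_aux in
theorem tietze {Z : Type} [TopologicalSpace Z] [CompactSpace Z] [T2Space Z] {ι : Type} [Fintype ι]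
    [DecidableEq ι] {B S K : Set Z} (hB : IsClosed B) (hS : IsClosed S) (hK : IsClosed K)
    (f : C(K, Matrix ι ι R)) (h1 : ∀ z : K, z.1 ∈ B → f z = 1) (h2 : ∀ z : K, z.1 ∈ S → f z ∈ sc ι) :
    ∃ F : C(Z, Matrix ι ι R), (∀ z : K, F z.1 = f z) ∧ (∀ z ∈ B, F z = 1) ∧ ∀ z ∈ S, F z ∈ sc ι := by
  let e : Matrix ι ι ℂ →ₐ[ℂ] Matrix ι ι R := AlgHom.mapMatrix (Algebra.ofId ℂ R)
  have he : Continuous e := by
    have : Continuous fun m : Matrix ι ι ℂ => m.map (algebraMap ℂ R) := by
      refine Continuous.matrix_map continuous_id ?_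
      exact continuous_algebraMap ℂ R
    exact this
  let p : Matrix ι ι R → Matrix ι ι ℂ := fun m => Matrix.of fun i j => m i j 0 0
  have hp : Continuous p := by
    refine continuous_pi fun i => continuous_pi fun j => ?_
    fun_prop
  have hpe : ∀ m, p (e m) = m := by
    intro m
    ext i j
    simp [p, e, Algebra.ofId_apply, Matrix.algebraMap_matrix_apply]
  have hep : ∀ m ∈ sc ι, e (p m) = m := by
    rintro m ⟨n, rfl⟩
    exact congrArg e (hpe n)
  have hp1 : p 1 = 1 := by
    have := hpe 1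
    rwa [map_one] at this
  obtain ⟨G, hG1, hG2⟩ := ext_const hB hK (⟨fun z => p (f z), hp.comp f.continuous⟩ : C(K, Matrix ι ι ℂ)) 1
    (fun z hz => by change p (f z) = 1; rw [h1 z hz, hp1])
  obtain ⟨H, hH1, hH2⟩ := ext_const (hB.union hS) hK
    (⟨fun z => f z - e (p (f z)), f.continuous.sub (he.comp (hp.comp f.continuous))⟩ :
      C(K, Matrix ι ι R)) 0 (fun z hz => by
        change f z - e (p (f z)) = 0
        rcases hz with hz | hz
        · rw [h1 z hz, hp1, map_one, sub_self]
        · rw [hep _ (h2 z hz), sub_self])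
  refine ⟨⟨fun z => e (G z) + H z, (he.comp G.continuous).add H.continuous⟩, fun z => ?_,
    fun z hz => ?_, fun z hz => ?_⟩
  · change e (G z.1) + H z.1 = f z
    rw [hG1, hH1]
    change e (p (f z)) + (f z - e (p (f z))) = f z
    rw [add_sub_cancel]
  · change e (G z) + H z = 1
    rw [hG2 z hz, hH2 z (Or.inl hz), map_one, add_zero]
  · change e (G z) + H z ∈ sc ι
    rw [hH2 z (Or.inr hz), add_zero]
    exact ⟨G z, rfl⟩

end Pool.QB.KTh
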